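import Pool.Agent.Work.MP_680515_fl.Iface3

/-!
# Block AGW: weak gradients of the angle functions
-/

open MeasureTheory Set Filter Topology

namespace Pool.Flat

open Pool.Mart

theorem AGW_radcont : Continuous (fun x : E3 => rad x) := by
  unfold rad
  fun_prop

theorem AGW_inner (A : M3) (u : E3) (j : Fin 3) :
    inner ℝ u (act A (EuclideanSpace.single j 1)) = act A.transpose u j := by
  unfold act
  simp only [PiLp.inner_apply, Matrix.mulVec, dotProduct, Fin.sum_univ_three, RCLike.inner_apply,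
    conj_trivial, Matrix.transpose_apply]
  fin_cases j <;> simp

theorem AGW_et (X : E3) (hX : 0 < rad X) (j : Fin 3) : |et X j| ≤ 1 := by
  have h0 : |X 0| ≤ rad X := Real.abs_le_sqrt (by nlinarith [sq_nonneg (X 1)])
  have h1 : |X 1| ≤ rad X := Real.abs_le_sqrt (by nlinarith [sq_nonneg (X 0)])
  unfold et
  fin_cases j
  · show |-(X 1) / rad X| ≤ 1
    rw [abs_div, abs_neg, abs_of_pos hX, div_le_one hX]
    exact h1
  · show |X 0 / rad X| ≤ 1
    rw [abs_div, abs_of_pos hX, div_le_one hX]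
    exact h0
  · show |(0 : ℝ)| ≤ 1
    simp

theorem AGW_pt (C0 ρ τ1 D s : ℝ) (A : M3) (X Y : E3) (hs : |s| ≤ 1) (hρ : 0 < ρ)
    (hX : ρ / 4 < rad X) (hτ0 : 0 ≤ τ1) (hτ : τ1 ≤ ρ / 400) (hXY : |rad Y - rad X| ≤ τ1)
    (hC0 : 0 ≤ C0) (hC : ‖act A.transpose (et Y) - (2 : ℝ) • et X‖ ^ 2 ≤ C0 * D)
    (j : Fin 3) :
    |s * (inner ℝ (et Y) (act A (EuclideanSpace.single j 1)) / rad Y -
      2 * inner ℝ (et X) (EuclideanSpace.single j (1 : ℝ)) / rad X)| ≤
      8 / ρ * Real.sqrt C0 * Real.sqrt D + 64 * τ1 / ρ ^ 2 := by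
  have hrX : 0 < rad X := by linarith
  have hab := abs_le.mp hXY
  have hrY : ρ / 8 < rad Y := by linarith
  have hrY0 : 0 < rad Y := by linarith
  have hn : ‖act A.transpose (et Y) - (2 : ℝ) • et X‖ ≤ Real.sqrt C0 * Real.sqrt D := by
    rw [← Real.sqrt_mul hC0]
    exact Real.le_sqrt_of_sq_le hC
  have hj : |(act A.transpose (et Y)) j - 2 * et X j| ≤
      ‖act A.transpose (et Y) - (2 : ℝ) • et X‖ := by
    have h := PiLp.norm_apply_le (act A.transpose (et Y) - (2 : ℝ) • et X) j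
    rw [Real.norm_eq_abs] at h
    simpa using h
  have he := AGW_et X hrX j
  have hin : inner ℝ (et X) (EuclideanSpace.single j (1 : ℝ)) = et X j := by
    rw [EuclideanSpace.inner_single_right]
    simp
  rw [AGW_inner, hin]
  have hsplit : (act A.transpose (et Y)) j / rad Y - 2 * et X j / rad X =
      ((act A.transpose (et Y)) j - 2 * et X j) / rad Y +
        2 * et X j * ((rad X - rad Y) / (rad X * rad Y)) := by
    field_simp
    ring
  rw [abs_mul, hsplit]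
  have h1 : |((act A.transpose (et Y)) j - 2 * et X j) / rad Y| ≤
      8 / ρ * Real.sqrt C0 * Real.sqrt D := by
    rw [abs_div, abs_of_pos hrY0, div_le_iff₀ hrY0]
    have hc : 1 ≤ 8 / ρ * rad Y := by
      rw [div_mul_eq_mul_div, le_div_iff₀ hρ]
      linarith
    have hp : 0 ≤ Real.sqrt C0 * Real.sqrt D := by positivity
    calc |(act A.transpose (et Y)) j - 2 * et X j| ≤ Real.sqrt C0 * Real.sqrt D := hj.trans hn
      _ ≤ (Real.sqrt C0 * Real.sqrt D) * (8 / ρ * rad Y) := le_mul_of_one_le_right hp hc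
      _ = 8 / ρ * Real.sqrt C0 * Real.sqrt D * rad Y := by ring
  have h2 : |2 * et X j * ((rad X - rad Y) / (rad X * rad Y))| ≤ 64 * τ1 / ρ ^ 2 := by
    rw [abs_mul, abs_mul, abs_of_pos (by norm_num : (0 : ℝ) < 2), abs_div,
      abs_of_pos (mul_pos hrX hrY0)]
    have h3 : |rad X - rad Y| ≤ τ1 := by rw [abs_sub_comm]; exact hXY
    have h4 : |rad X - rad Y| / (rad X * rad Y) ≤ 32 * τ1 / ρ ^ 2 := by
      rw [div_le_div_iff₀ (mul_pos hrX hrY0) (by positivity)]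
      have h5 : ρ ^ 2 ≤ 32 * (rad X * rad Y) := by nlinarith
      calc |rad X - rad Y| * ρ ^ 2 ≤ τ1 * (32 * (rad X * rad Y)) :=
            mul_le_mul h3 h5 (by positivity) hτ0
        _ = 32 * τ1 * (rad X * rad Y) := by ring
    have h6 : 0 ≤ |rad X - rad Y| / (rad X * rad Y) := by positivity
    calc 2 * |et X j| * (|rad X - rad Y| / (rad X * rad Y)) ≤
          2 * 1 * (|rad X - rad Y| / (rad X * rad Y)) := by gcongr
      _ ≤ 2 * 1 * (32 * τ1 / ρ ^ 2) := by gcongr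
      _ = 64 * τ1 / ρ ^ 2 := by ring
  calc |s| * |((act A.transpose (et Y)) j - 2 * et X j) / rad Y +
        2 * et X j * ((rad X - rad Y) / (rad X * rad Y))| ≤
        1 * |((act A.transpose (et Y)) j - 2 * et X j) / rad Y +
        2 * et X j * ((rad X - rad Y) / (rad X * rad Y))| := by gcongr
    _ = |((act A.transpose (et Y)) j - 2 * et X j) / rad Y +
        2 * et X j * ((rad X - rad Y) / (rad X * rad Y))| := one_mul _
    _ ≤ |((act A.transpose (et Y)) j - 2 * et X j) / rad Y| +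
        |2 * et X j * ((rad X - rad Y) / (rad X * rad Y))| := abs_add_le _ _
    _ ≤ _ := add_le_add h1 h2

/-- Cauchy-Schwarz. -/
theorem AGW_cs (μ : Measure E3) [IsFiniteMeasure μ] (d : E3 → ℝ) (η K : ℝ) (hd : Integrable d μ)
    (h0 : ∀ᵐ x ∂μ, 0 ≤ d x) (hη : ∫ x, d x ∂μ ≤ η) (hK : 0 < K) (hKμ : μ.real univ ≤ K) :
    Integrable (fun x => Real.sqrt (d x)) μ ∧ ∫ x, Real.sqrt (d x) ∂μ ≤
      Real.sqrt K * Real.sqrt η := by
  have hint : Integrable (fun x => Real.sqrt (d x)) μ := by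
    refine Integrable.mono' ((integrable_const (1 : ℝ)).add hd)
      (Real.continuous_sqrt.comp_aestronglyMeasurable hd.aestronglyMeasurable) ?_
    filter_upwards [h0] with x hx
    rw [Real.norm_eq_abs, abs_of_nonneg (Real.sqrt_nonneg _)]
    show Real.sqrt (d x) ≤ 1 + d x
    rw [Real.sqrt_le_left (by linarith)]
    nlinarith
  refine ⟨hint, ?_⟩
  obtain ⟨m, hm⟩ : ∃ m, m = ∫ x, Real.sqrt (d x) ∂μ := ⟨_, rfl⟩
  have hm0 : 0 ≤ m := by rw [hm]; exact integral_nonneg fun x => Real.sqrt_nonneg _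
  have hsq : ∀ t : ℝ, 0 ≤ (∫ x, d x ∂μ) - 2 * t * m + t ^ 2 * μ.real univ := by
    intro t
    have h1 : 0 ≤ ∫ x, (Real.sqrt (d x) - t) ^ 2 ∂μ := integral_nonneg fun x => sq_nonneg _
    have h2 : ∫ x, (Real.sqrt (d x) - t) ^ 2 ∂μ = ∫ x, (d x - 2 * t * Real.sqrt (d x) + t ^ 2) ∂μ := by
      apply integral_congr_ae
      filter_upwards [h0] with x hx
      have h3 := Real.sq_sqrt hx
      show (Real.sqrt (d x) - t) ^ 2 = d x - 2 * t * Real.sqrt (d x) + t ^ 2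
      nlinarith
    have i1 : Integrable (fun x => 2 * t * Real.sqrt (d x)) μ := hint.const_mul _
    have i2 : Integrable (fun x => d x - 2 * t * Real.sqrt (d x)) μ := hd.sub i1
    rw [h2, integral_add i2 (integrable_const _), integral_sub hd i1, integral_const_mul,
      integral_const, ← hm] at h1
    simpa [mul_comm, smul_eq_mul] using h1
  have h3 := hsq (m / K)
  have h4 : (m / K) ^ 2 * μ.real univ ≤ (m / K) ^ 2 * K :=
    mul_le_mul_of_nonneg_left hKμ (sq_nonneg _)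
  have h5 : (m / K) ^ 2 * K = m ^ 2 / K := by field_simp
  have h6 : 2 * (m / K) * m = 2 * (m ^ 2 / K) := by ring
  have h7 : m ^ 2 / K ≤ η := by rw [h5] at h4; rw [h6] at h3; linarith
  rw [← hm, ← Real.sqrt_mul hK.le]
  apply Real.le_sqrt_of_sq_le
  rw [div_le_iff₀ hK] at h7
  linarith

theorem AGW_main (hCHR : Stmt_CHR) (Φ : E3 × E3 → ℝ) (s : E3 → E3 → ℝ)
    (hΦ : ∀ X Y : E3, 0 < rad X → 0 < rad Y → ContDiffAt ℝ 1 Φ (X, Y))
    (hs : ∀ X Y : E3, 0 < rad X → 0 < rad Y → |s X Y| ≤ 1)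
    (hd : ∀ X Y : E3, 0 < rad X → 0 < rad Y → ∀ v w : E3, fderiv ℝ Φ (X, Y) (v, w) =
      s X Y * (inner ℝ (et Y) w / rad Y - 2 * inner ℝ (et X) v / rad X))
    (ρ C0 K : ℝ) (hρ : 0 < ρ) (hC0 : 0 ≤ C0)
    (hPT : ∀ (A : M3) (X Y : E3), Good A → ρ / 4 < rad X →
      ‖X‖ ≤ 80 → |rad Y - rad X| ≤ ρ / 4 / 100 → |Y 2 - X 2| ≤ ρ / 4 / 100 →
      0 ≤ dfc A X Y ∧ 0 ≤ dfc A (X - e3) (Y - e3) ∧
      ‖act A.transpose (et Y) - (2 : ℝ) • et X‖ ^ 2
        ≤ C0 * (dfc A X Y + dfc A (X - e3) (Y - e3)))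
    (hK : 0 < K) (hKμ : (volume : Measure E3).real {X : E3 | ρ / 4 < rad X ∧ ‖X‖ < 70} ≤ K)
    (τ1 h σ η : ℝ) (F : E3 → E3) (A : E3 → M3) (hτ0 : 0 ≤ τ1) (hτ : τ1 ≤ ρ / 400)
    (hSF : SF ρ τ1 h σ η F A) :
    ContinuousOn (fun X => Φ (X, F X)) {X | ρ / 4 < rad X ∧ ‖X‖ < 70} ∧
    ∃ V : E3 → E3, WG1 {X | ρ / 4 < rad X ∧ ‖X‖ < 70} (fun X => Φ (X, F X)) V ∧
      ∀ j : Fin 3, IntegrableOn (fun X => V X j) {X | ρ / 4 < rad X ∧ ‖X‖ < 70} ∧
        ∫ X in {X | ρ / 4 < rad X ∧ ‖X‖ < 70}, |V X j| ≤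
          (8 / ρ * Real.sqrt C0 * Real.sqrt K + 64 / ρ ^ 2 * K) * (Real.sqrt η + τ1) := by
  obtain ⟨W, hW⟩ : ∃ W : Set E3, W = {X | ρ / 4 < rad X ∧ ‖X‖ < 70} := ⟨_, rfl⟩
  have hint := hSF.int
  have hdl := hSF.dl
  rw [← hW] at hKμ hint hdl ⊢
  have hWo : IsOpen W := by
    rw [hW]
    exact (isOpen_lt continuous_const AGW_radcont).inter (isOpen_lt continuous_norm continuous_const)
  have hWb : W ⊆ Metric.ball (0 : E3) 80 := by
    intro X hX
    rw [hW] at hX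
    rw [mem_ball_zero_iff]
    linarith [hX.2]
  have hWr : ∀ X ∈ W, ρ / 4 < rad X := fun X hX => by rw [hW] at hX; exact hX.1
  have hWr0 : ∀ X ∈ W, 0 < rad X := fun X hX => by linarith [hWr X hX]
  have hFr : ∀ X ∈ W, 0 < rad (F X) := fun X hX => by
    have h1 := abs_le.mp (hSF.rad X (hWb hX))
    linarith [hWr X hX]
  have hFc : ContinuousOn F W := hSF.cont.mono hWb
  have hWfin : volume W ≠ ⊤ :=
    ((measure_mono hWb).trans_lt (measure_ball_lt_top)).ne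
  have : IsFiniteMeasure ((volume : Measure E3).restrict W) := ⟨by
    rw [Measure.restrict_apply_univ]; exact hWfin.lt_top⟩
  have hcont : ContinuousOn (fun X => Φ (X, F X)) W := by
    intro X hX
    have h1 : ContinuousAt Φ (X, F X) := (hΦ X (F X) (hWr0 X hX) (hFr X hX)).continuousAt
    have h2 : ContinuousWithinAt (fun X => (X, F X)) W X := continuousWithinAt_id.prodMk (hFc X hX)
    exact ContinuousAt.comp_continuousWithinAt (f := fun X => (X, F X)) h1 h2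
  refine ⟨hcont, ?_⟩
  have hOo : IsOpen {q : E3 × E3 | 0 < rad q.1 ∧ 0 < rad q.2} :=
    (isOpen_lt continuous_const (AGW_radcont.comp continuous_fst)).inter
      (isOpen_lt continuous_const (AGW_radcont.comp continuous_snd))
  have hWG := hCHR (Metric.ball (0 : E3) 80) W F A {q : E3 × E3 | 0 < rad q.1 ∧ 0 < rad q.2} Φ
    Metric.isOpen_ball hWo hWb hSF.cont hSF.wg hOo
    (fun q hq => (hΦ q.1 q.2 hq.1 hq.2).contDiffWithinAt) (fun X hX => ⟨hWr0 X hX, hFr X hX⟩)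
  refine ⟨_, hWG, fun j => ?_⟩
  have hae : ∀ᵐ X ∂((volume : Measure E3).restrict W),
      0 ≤ dl F A X ∧ |fderiv ℝ Φ (X, F X) (EuclideanSpace.single j 1,
        act (A X) (EuclideanSpace.single j 1))| ≤
        8 / ρ * Real.sqrt C0 * Real.sqrt (dl F A X) + 64 * τ1 / ρ ^ 2 := by
    filter_upwards [ae_restrict_of_ae_restrict_of_subset hWb hSF.good,
      ae_restrict_mem hWo.measurableSet] with X hg hX
    have h1 := hSF.rad X (hWb hX)
    have h2 := hSF.ax X (hWb hX)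
    have h3 : ‖X‖ ≤ 80 := (mem_ball_zero_iff.1 (hWb hX)).le
    obtain ⟨p1, p2, p3⟩ := hPT (A X) X (F X) hg (hWr X hX) h3 (h1.trans (by linarith))
      (h2.trans (by linarith))
    refine ⟨add_nonneg p1 p2, ?_⟩
    rw [hd X (F X) (hWr0 X hX) (hFr X hX)]
    exact AGW_pt C0 ρ τ1 (dl F A X) _ (A X) X (F X) (hs X (F X) (hWr0 X hX) (hFr X hX)) hρ
      (hWr X hX) hτ0 hτ h1 hC0 p3 j
  obtain ⟨cs1, cs2⟩ := AGW_cs ((volume : Measure E3).restrict W) (dl F A) η K hint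
    (hae.mono fun X hX => hX.1) hdl hK (by
      rw [Measure.real, Measure.restrict_apply_univ]; exact hKμ)
  have hbi : Integrable (fun X => 8 / ρ * Real.sqrt C0 * Real.sqrt (dl F A X) + 64 * τ1 / ρ ^ 2)
      ((volume : Measure E3).restrict W) := (cs1.const_mul _).add (integrable_const _)
  have hmeas : AEStronglyMeasurable (fun X => fderiv ℝ Φ (X, F X) (EuclideanSpace.single j 1,
        act (A X) (EuclideanSpace.single j 1))) ((volume : Measure E3).restrict W) := by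
    have h1 : LocallyIntegrableOn (fun X => fderiv ℝ Φ (X, F X) (EuclideanSpace.single j 1,
        act (A X) (EuclideanSpace.single j 1))) W volume :=
      (locallyIntegrableOn_iff hWo.isLocallyClosed).2 fun k hk hkc => hWG.loc k hkc hk j
    exact h1.aestronglyMeasurable
  have hI : Integrable (fun X => fderiv ℝ Φ (X, F X) (EuclideanSpace.single j 1,
        act (A X) (EuclideanSpace.single j 1))) ((volume : Measure E3).restrict W) :=
    Integrable.mono' hbi hmeas (hae.mono fun X hX => by rw [Real.norm_eq_abs]; exact hX.2)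
  refine ⟨hI, ?_⟩
  have hτK : 64 * τ1 / ρ ^ 2 * ((volume : Measure E3).restrict W).real univ ≤
      64 * τ1 / ρ ^ 2 * K := by
    apply mul_le_mul_of_nonneg_left _ (by positivity)
    rw [Measure.real, Measure.restrict_apply_univ]; exact hKμ
  calc ∫ X in W, |fderiv ℝ Φ (X, F X) (EuclideanSpace.single j 1,
        act (A X) (EuclideanSpace.single j 1))| ≤
      ∫ X in W, (8 / ρ * Real.sqrt C0 * Real.sqrt (dl F A X) + 64 * τ1 / ρ ^ 2) :=
        integral_mono_ae hI.abs hbi (hae.mono fun X hX => hX.2)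
    _ = 8 / ρ * Real.sqrt C0 * (∫ X in W, Real.sqrt (dl F A X)) +
        64 * τ1 / ρ ^ 2 * ((volume : Measure E3).restrict W).real univ := by
        rw [integral_add (cs1.const_mul _) (integrable_const _), integral_const_mul,
          integral_const, smul_eq_mul, mul_comm (((volume : Measure E3).restrict W).real univ)]
    _ ≤ 8 / ρ * Real.sqrt C0 * (Real.sqrt K * Real.sqrt η) + 64 * τ1 / ρ ^ 2 * K := by
        gcongr
    _ ≤ (8 / ρ * Real.sqrt C0 * Real.sqrt K + 64 / ρ ^ 2 * K) * (Real.sqrt η + τ1) := by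
        have a1 : 0 ≤ 8 / ρ * Real.sqrt C0 * Real.sqrt K * τ1 := by positivity
        have a2 : 0 ≤ 64 / ρ ^ 2 * K * Real.sqrt η := by positivity
        have e1 : 64 * τ1 / ρ ^ 2 * K = 64 / ρ ^ 2 * K * τ1 := by ring
        rw [e1]
        nlinarith

theorem p_AGW (hCHR : Stmt_CHR) (hPT2 : Stmt_PT2) (hQGR : Stmt_QGR) : Stmt_AGW := by
  intro ρ hρ hρ1
  obtain ⟨C0, hC0, hPT⟩ := hPT2 (ρ / 4) (by linarith) (by linarith)
  obtain ⟨K, hKd⟩ : ∃ K : ℝ, K = (volume : Measure E3).real {X : E3 | ρ / 4 < rad X ∧ ‖X‖ < 70} + 1 :=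
    ⟨_, rfl⟩
  have hK : 0 < K := by rw [hKd]; positivity
  have hKμ : (volume : Measure E3).real {X : E3 | ρ / 4 < rad X ∧ ‖X‖ < 70} ≤ K := by
    rw [hKd]; linarith
  refine ⟨8 / ρ * Real.sqrt C0 * Real.sqrt K + 64 / ρ ^ 2 * K, by positivity, ?_⟩
  intro τ1 h σ η F A hτ0 hτ _ hSF
  have hu : ∀ X Y : E3, 0 < rad X → 0 < rad Y → |qre X Y| ≤ 1 ∧ |qim X Y| ≤ 1 := by
    intro X Y hX hY
    have h1 := (hQGR X Y hX hY).1
    exact ⟨abs_le_one_iff_mul_self_le_one.2 (by nlinarith [sq_nonneg (qim X Y)]),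
      abs_le_one_iff_mul_self_le_one.2 (by nlinarith [sq_nonneg (qre X Y)])⟩
  obtain ⟨c1, V, hV, hVj⟩ := AGW_main hCHR (fun q => qre q.1 q.2) (fun X Y => - qim X Y)
    (fun X Y hX hY => (hQGR X Y hX hY).2.1) (fun X Y hX hY => by
      rw [abs_neg]; exact (hu X Y hX hY).2)
    (fun X Y hX hY => (hQGR X Y hX hY).2.2.2.1) ρ C0 K hρ hC0.le hPT hK hKμ τ1 h σ η F A hτ0 hτ hSF
  obtain ⟨c2, W, hW, hWj⟩ := AGW_main hCHR (fun q => qim q.1 q.2) (fun X Y => qre X Y)
    (fun X Y hX hY => (hQGR X Y hX hY).2.2.1) (fun X Y hX hY => (hu X Y hX hY).1)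
    (fun X Y hX hY => (hQGR X Y hX hY).2.2.2.2.1) ρ C0 K hρ hC0.le hPT hK hKμ τ1 h σ η F A hτ0 hτ hSF
  exact ⟨c1, c2, V, W, hV, hW, fun j => ⟨(hVj j).1, (hWj j).1, (hVj j).2, (hWj j).2⟩⟩

end Pool.Flat
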