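import Pool.Agent.Work.MP_680515_fl.Iface3

/-!
# MP_680515_an, THEOREM FB: block ANG (helper21)
-/

open MeasureTheory Set Filter Topology

namespace Pool.Flat

open Pool.Mart

/-- Horizontal part as a complex number. -/
noncomputable def ANG_cx (X : E3) : ℂ := ⟨X 0, X 1⟩

/-- Normalisation of a complex number. -/
noncomputable def ANG_u (a : ℂ) : ℂ := ((‖a‖⁻¹ : ℝ) : ℂ) * a

/-- The complex number `e^{i (Θ - 2 θ)}`. -/
noncomputable def ANG_q (X Y : E3) : ℂ :=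
  ANG_u (ANG_cx Y) * (starRingEnd ℂ) (ANG_u (ANG_cx X)) ^ 2

theorem ANG_norm_cx (X : E3) : ‖ANG_cx X‖ = rad X := by
  rw [Complex.norm_eq_sqrt_sq_add_sq]
  rfl

theorem ANG_cx_sub (X Y : E3) : ANG_cx (X - Y) = ANG_cx X - ANG_cx Y := by
  apply Complex.ext
  · simp [ANG_cx]
  · simp [ANG_cx]

theorem ANG_norm_sq (X : E3) : ‖X‖ ^ 2 = rad X ^ 2 + X 2 ^ 2 := by
  rw [EuclideanSpace.norm_sq_eq, Fin.sum_univ_three]
  simp only [Real.norm_eq_abs, sq_abs]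
  unfold rad
  rw [Real.sq_sqrt (by positivity)]

theorem ANG_rad_nonneg (X : E3) : 0 ≤ rad X := Real.sqrt_nonneg _

theorem ANG_rad_le (X : E3) : rad X ≤ ‖X‖ := by
  have h := ANG_norm_sq X
  have h0 := ANG_rad_nonneg X
  have h1 := norm_nonneg X
  nlinarith [sq_nonneg (X 2)]

theorem ANG_rad_lip (X Y : E3) : |rad X - rad Y| ≤ ‖X - Y‖ := by
  rw [← ANG_norm_cx X, ← ANG_norm_cx Y]
  refine (abs_norm_sub_norm_le _ _).trans ?_
  rw [← ANG_cx_sub, ANG_norm_cx]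
  exact ANG_rad_le _

theorem ANG_cont_rad : Continuous (fun X : E3 => rad X) := by
  unfold rad
  fun_prop

theorem ANG_norm_le (X : E3) : ‖X‖ ≤ ‖ANG_cx X‖ + |X 2| := by
  rw [ANG_norm_cx]
  have h := ANG_norm_sq X
  have h0 := ANG_rad_nonneg X
  have h1 := norm_nonneg X
  have h2 := abs_nonneg (X 2)
  have h3 := sq_abs (X 2)
  nlinarith [mul_nonneg h0 h2]

theorem ANG_u_norm {a : ℂ} (ha : a ≠ 0) : ‖ANG_u a‖ = 1 := by
  unfold ANG_u
  have h : ‖a‖ ≠ 0 := norm_ne_zero_iff.mpr ha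
  rw [norm_mul, Complex.norm_real, norm_inv, norm_norm]
  exact inv_mul_cancel₀ h

theorem ANG_u_sub {a b : ℂ} (ha : a ≠ 0) (hb : b ≠ 0) :
    ‖ANG_u a - ANG_u b‖ ≤ 2 * ‖a - b‖ / ‖b‖ := by
  have hA : ‖a‖ ≠ 0 := norm_ne_zero_iff.mpr ha
  have hB : ‖b‖ ≠ 0 := norm_ne_zero_iff.mpr hb
  have hA' : 0 < ‖a‖ := norm_pos_iff.mpr ha
  have hB' : 0 < ‖b‖ := norm_pos_iff.mpr hb
  have e : ANG_u a - ANG_u b
      = ((‖a‖⁻¹ - ‖b‖⁻¹ : ℝ) : ℂ) * a + ((‖b‖⁻¹ : ℝ) : ℂ) * (a - b) := by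
    unfold ANG_u
    push_cast
    ring
  rw [e]
  refine (norm_add_le _ _).trans ?_
  rw [norm_mul, norm_mul, Complex.norm_real, Complex.norm_real, Real.norm_eq_abs,
    Real.norm_eq_abs, abs_of_pos (inv_pos.mpr hB')]
  have e2 : ‖a‖⁻¹ - ‖b‖⁻¹ = (‖b‖ - ‖a‖) / (‖a‖ * ‖b‖) := by
    field_simp
  have e3 : |‖a‖⁻¹ - ‖b‖⁻¹| * ‖a‖ = |‖b‖ - ‖a‖| / ‖b‖ := by
    rw [e2, abs_div, abs_of_pos (mul_pos hA' hB')]
    field_simp
  rw [e3]
  have h1 : |‖b‖ - ‖a‖| ≤ ‖a - b‖ := by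
    rw [abs_sub_comm]
    exact abs_norm_sub_norm_le _ _
  have h2 : |‖b‖ - ‖a‖| / ‖b‖ ≤ ‖a - b‖ / ‖b‖ := by gcongr
  have h3 : 2 * ‖a - b‖ / ‖b‖ = ‖a - b‖ / ‖b‖ + ‖b‖⁻¹ * ‖a - b‖ := by
    field_simp
    ring
  rw [h3]
  linarith

theorem ANG_ne {X : E3} (h : 0 < rad X) : ANG_cx X ≠ 0 := by
  rw [← norm_pos_iff, ANG_norm_cx]
  exact h

theorem ANG_q_norm {X Y : E3} (hX : 0 < rad X) (hY : 0 < rad Y) : ‖ANG_q X Y‖ = 1 := by
  unfold ANG_q
  rw [norm_mul, norm_pow, RCLike.norm_conj, ANG_u_norm (ANG_ne hX), ANG_u_norm (ANG_ne hY)]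
  norm_num

theorem ANG_q_re (X Y : E3) : qre X Y = (ANG_q X Y).re := by
  unfold qre ANG_q ANG_u
  rw [ANG_norm_cx, ANG_norm_cx]
  simp only [ANG_cx, pow_two, Complex.mul_re, Complex.mul_im, Complex.conj_re, Complex.conj_im,
    Complex.ofReal_re, Complex.ofReal_im]
  ring

theorem ANG_q_im (X Y : E3) : qim X Y = (ANG_q X Y).im := by
  unfold qim ANG_q ANG_u
  rw [ANG_norm_cx, ANG_norm_cx]
  simp only [ANG_cx, pow_two, Complex.mul_re, Complex.mul_im, Complex.conj_re, Complex.conj_im,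
    Complex.ofReal_re, Complex.ofReal_im]
  ring

/-- Difference of the values of `q`. -/
theorem ANG_q_sub {X Y X' Y' : E3} (hX : 0 < rad X) (hY : 0 < rad Y) (hX' : 0 < rad X')
    (hY' : 0 < rad Y') :
    ‖ANG_q X' Y' - ANG_q X Y‖ ≤ 2 * ‖Y' - Y‖ / rad Y + 4 * ‖X' - X‖ / rad X := by
  have uX := ANG_u_norm (ANG_ne hX)
  have uY := ANG_u_norm (ANG_ne hY)
  have uX' := ANG_u_norm (ANG_ne hX')
  have uY' := ANG_u_norm (ANG_ne hY')
  have dX := ANG_u_sub (ANG_ne hX') (ANG_ne hX)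
  have dY := ANG_u_sub (ANG_ne hY') (ANG_ne hY)
  rw [← ANG_cx_sub, ANG_norm_cx, ANG_norm_cx] at dX dY
  have rX := ANG_rad_le (X' - X)
  have rY := ANG_rad_le (Y' - Y)
  unfold ANG_q
  generalize ANG_u (ANG_cx X) = u at *
  generalize ANG_u (ANG_cx Y) = v at *
  generalize ANG_u (ANG_cx X') = u' at *
  generalize ANG_u (ANG_cx Y') = v' at *
  have e : v' * (starRingEnd ℂ) u' ^ 2 - v * (starRingEnd ℂ) u ^ 2
      = (v' - v) * (starRingEnd ℂ) u' ^ 2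
        + v * ((starRingEnd ℂ) (u' - u) * (starRingEnd ℂ) (u' + u)) := by
    rw [map_sub, map_add]
    ring
  rw [e]
  refine (norm_add_le _ _).trans ?_
  rw [norm_mul, norm_mul, norm_mul, norm_pow, RCLike.norm_conj, RCLike.norm_conj,
    RCLike.norm_conj, uX', uY]
  have h2 : ‖u' + u‖ ≤ 2 := by
    refine (norm_add_le _ _).trans ?_
    rw [uX', uX]
    norm_num
  have h3 : 2 * rad (Y' - Y) / rad Y ≤ 2 * ‖Y' - Y‖ / rad Y := by gcongr
  have h4 : 2 * rad (X' - X) / rad X ≤ 2 * ‖X' - X‖ / rad X := by gcongr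
  have h5 : ‖u' - u‖ * ‖u' + u‖ ≤ ‖u' - u‖ * 2 := by gcongr
  have h6 : 4 * ‖X' - X‖ / rad X = 2 * (2 * ‖X' - X‖ / rad X) := by ring
  rw [h6]
  nlinarith [norm_nonneg (u' - u)]

theorem ANG_rec {X Y : E3} (hX : 0 < rad X) (hY : 0 < rad Y) :
    ANG_cx Y = (rad Y : ℂ) * ANG_q X Y * ANG_u (ANG_cx X) ^ 2 := by
  have uX := ANG_u_norm (ANG_ne hX)
  have h1 : (starRingEnd ℂ) (ANG_u (ANG_cx X)) * ANG_u (ANG_cx X) = 1 := by
    rw [← Complex.normSq_eq_conj_mul_self, Complex.normSq_eq_norm_sq, uX]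
    norm_num
  have h2 : (rad Y : ℂ) * ANG_u (ANG_cx Y) = ANG_cx Y := by
    unfold ANG_u
    rw [ANG_norm_cx]
    have : (rad Y : ℂ) ≠ 0 := by
      rw [Complex.ofReal_ne_zero]
      exact hY.ne'
    push_cast
    field_simp
  unfold ANG_q
  calc ANG_cx Y = (rad Y : ℂ) * ANG_u (ANG_cx Y) := h2.symm
    _ = (rad Y : ℂ) * ANG_u (ANG_cx Y)
        * ((starRingEnd ℂ) (ANG_u (ANG_cx X)) * ANG_u (ANG_cx X)) ^ 2 := by
      rw [h1]
      ring
    _ = _ := by ring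

theorem ANG_rot {X : E3} (hX : 0 < rad X) (α : ℝ) :
    ANG_cx (act (rotz α) (wind X))
      = (rad X : ℂ) * (⟨Real.cos α, Real.sin α⟩ : ℂ) * ANG_u (ANG_cx X) ^ 2 := by
  have hr : rad X ≠ 0 := hX.ne'
  unfold ANG_u
  rw [ANG_norm_cx]
  apply Complex.ext
  · simp only [ANG_cx, act, rotz, wind, pow_two, Complex.mul_re, Complex.mul_im,
      Complex.ofReal_re, Complex.ofReal_im, Matrix.mulVec, dotProduct, Fin.sum_univ_three]
    simp
    field_simp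
    ring
  · simp only [ANG_cx, act, rotz, wind, pow_two, Complex.mul_re, Complex.mul_im,
      Complex.ofReal_re, Complex.ofReal_im, Matrix.mulVec, dotProduct, Fin.sum_univ_three]
    simp
    field_simp
    ring

theorem ANG_rot2 (X : E3) (α : ℝ) : act (rotz α) (wind X) 2 = X 2 := by
  simp [act, rotz, wind]

/-- Final estimate. -/
theorem ANG_fin {X Y : E3} {α κ τ1 R : ℝ} (hX : 0 < rad X) (hY : 0 < rad Y) (hR : ‖X‖ ≤ R)
    (h1 : |rad Y - rad X| ≤ τ1) (h2 : |Y 2 - X 2| ≤ τ1)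
    (hq : ‖ANG_q X Y - (⟨Real.cos α, Real.sin α⟩ : ℂ)‖ ≤ κ) :
    ‖Y - act (rotz α) (wind X)‖ ≤ 2 * τ1 + R * κ := by
  have hκ : 0 ≤ κ := (norm_nonneg _).trans hq
  refine (ANG_norm_le _).trans ?_
  have e2 : (Y - act (rotz α) (wind X)) 2 = Y 2 - X 2 := by
    rw [PiLp.sub_apply, ANG_rot2]
  rw [e2, ANG_cx_sub, ANG_rec hX hY, ANG_rot hX α]
  have uX := ANG_u_norm (ANG_ne hX)
  have qn := ANG_q_norm hX hY
  have hrx := ANG_rad_le X
  generalize ANG_u (ANG_cx X) = u at *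
  generalize ANG_q X Y = q at *
  generalize (⟨Real.cos α, Real.sin α⟩ : ℂ) = q0 at *
  have e : (rad Y : ℂ) * q * u ^ 2 - (rad X : ℂ) * q0 * u ^ 2
      = (((rad Y - rad X : ℝ) : ℂ) * q + (rad X : ℂ) * (q - q0)) * u ^ 2 := by
    push_cast
    ring
  rw [e, norm_mul, norm_pow, uX]
  have h3 : ‖((rad Y - rad X : ℝ) : ℂ) * q + (rad X : ℂ) * (q - q0)‖ ≤ τ1 + R * κ := by
    refine (norm_add_le _ _).trans ?_
    rw [norm_mul, norm_mul, Complex.norm_real, Complex.norm_real, Real.norm_eq_abs,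
      Real.norm_eq_abs, qn, abs_of_pos hX, mul_one]
    have : rad X * ‖q - q0‖ ≤ R * κ := by
      apply mul_le_mul (hrx.trans hR) hq (norm_nonneg _)
      exact (norm_nonneg _).trans hR
    linarith
  linarith

theorem p_ANG (hAGW : Stmt_AGW) (hOSC : Stmt_OSC) (hSEGC : Stmt_SEGC) (_hQGR : Stmt_QGR)
    (_hWIN1 : Pool.Mart.Stmt_WIN1) : Stmt_ANG := by
  intro ρ τ hρ hρ1 hτ
  obtain ⟨C1, hC1, hA⟩ := hAGW ρ hρ hρ1
  obtain ⟨C2, hC2, hO⟩ := hOSC
  refine ⟨min (ρ / 8) (ρ * τ / 12000), by positivity, ?_⟩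
  intro h hh hhσ
  set σ : ℝ := min (ρ / 8) (ρ * τ / 12000) with hσdef
  have hσ0 : 0 < σ := by rw [hσdef]; positivity
  have hσ1 : σ ≤ ρ / 8 := min_le_left _ _
  have hσ2 : σ ≤ ρ * τ / 12000 := min_le_right _ _
  set K : ℝ := 49152 * C1 * C2 / h ^ 3 with hK
  have hK0 : 0 < K := by rw [hK]; positivity
  set e0 : ℝ := τ / (4 * (2 + K)) with he0
  have he00 : 0 < e0 := by rw [he0]; positivity
  have hτ10 : 0 < min (ρ / 400) e0 := by positivity
  refine ⟨min (ρ / 400) e0, e0 ^ 2, hτ10, by positivity, ?_⟩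
  set τ1 : ℝ := min (ρ / 400) e0 with hτ1
  have hτa : τ1 ≤ ρ / 400 := min_le_left _ _
  have hτb : τ1 ≤ e0 := min_le_right _ _
  intro F A hSF
  obtain ⟨hc1, hc2, V, W, hV, hW, hj⟩ := hA τ1 h σ (e0 ^ 2) F A hτ10.le hτa (by positivity) hSF
  rw [Real.sqrt_sq he00.le] at hj
  set Ω : Set E3 := {X | ρ / 4 < rad X ∧ ‖X‖ < 70} with hΩ
  have hΩo : IsOpen Ω :=
    (isOpen_lt continuous_const ANG_cont_rad).inter (isOpen_lt continuous_norm continuous_const)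
  have hhr : h ≤ ρ / 8 := hhσ.trans hσ1
  -- modulus of continuity
  have hrad : ∀ X : E3, ‖X‖ < 80 → ρ / 2 ≤ rad X → ρ / 3 ≤ rad (F X) := by
    intro X hX hr
    have := hSF.rad X (by rw [Metric.mem_ball, dist_zero_right]; exact hX)
    rw [abs_le] at this
    linarith [this.1]
  have hmod : ∀ X z : E3, ρ ≤ rad X → ‖X‖ ≤ 64 → ‖z - X‖ ≤ h →
      ‖ANG_q z (F z) - ANG_q X (F X)‖ ≤ 7 * σ / ρ := by
    intro X z hrX hX hz
    have hz1 : ‖z‖ ≤ 65 := by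
      have : ‖z‖ ≤ ‖z - X‖ + ‖X‖ := by
        calc ‖z‖ = ‖(z - X) + X‖ := by rw [sub_add_cancel]
          _ ≤ _ := norm_add_le _ _
      linarith
    have hrz : 7 * ρ / 8 ≤ rad z := by
      have := ANG_rad_lip z X
      rw [abs_le] at this
      linarith [this.1]
    have hFX := hSF.rad X (by rw [Metric.mem_ball, dist_zero_right]; linarith)
    have hFz := hrad z (by linarith) (by linarith)
    have hFX' : ρ * (399 / 400) ≤ rad (F X) := by
      rw [abs_le] at hFX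
      linarith [hFX.1]
    have hm := hSF.mod z (by rw [Metric.mem_ball, dist_zero_right]; linarith) X
      (by rw [Metric.mem_ball, dist_zero_right]; linarith) hz
    refine (ANG_q_sub (X := X) (Y := F X) (X' := z) (Y' := F z) (by linarith) (by linarith)
      (by linarith) (by linarith)).trans ?_
    have h1 : 2 * ‖F z - F X‖ / rad (F X) ≤ 2 * σ / (ρ * (399 / 400)) := by
      gcongr
    have h2 : 4 * ‖z - X‖ / rad X ≤ 4 * σ / ρ := by
      gcongr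
      exact hz.trans hhσ
    have h3 : 2 * σ / (ρ * (399 / 400)) = (800 / 399) * (σ / ρ) := by
      field_simp
      ring
    have h4 : 0 ≤ σ / ρ := by positivity
    have h5 : 4 * σ / ρ = 4 * (σ / ρ) := by ring
    have h6 : 7 * σ / ρ = 7 * (σ / ρ) := by ring
    rw [h3] at h1
    rw [h5] at h2
    rw [h6]
    linarith
  -- oscillation along one segment
  have hone : ∀ X Y : E3, ρ ≤ rad X → ‖X‖ ≤ 64 → ρ ≤ rad Y → ‖Y‖ ≤ 64 →
      (∀ s ∈ Icc (0 : ℝ) 1, ρ / 2 ≤ rad (X + s • (Y - X)) ∧ ‖X + s • (Y - X)‖ ≤ 64) →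
      |qre X (F X) - qre Y (F Y)| ≤ 2 * (7 * σ / ρ)
          + C2 * (h ^ 3)⁻¹ * 128 * (C1 * (e0 + τ1)) ∧
      |qim X (F X) - qim Y (F Y)| ≤ 2 * (7 * σ / ρ)
          + C2 * (h ^ 3)⁻¹ * 128 * (C1 * (e0 + τ1)) := by
    intro X Y hrX hX hrY hY hseg
    have hball : ∀ s ∈ Icc (0 : ℝ) 1, Metric.closedBall (X + s • (Y - X)) h ⊆ Ω := by
      intro s hs z hz
      rw [Metric.mem_closedBall, dist_eq_norm] at hz
      obtain ⟨h1, h2⟩ := hseg s hs
      constructor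
      · have := ANG_rad_lip z (X + s • (Y - X))
        rw [abs_le] at this
        linarith [this.1]
      · have : ‖z‖ ≤ ‖z - (X + s • (Y - X))‖ + ‖X + s • (Y - X)‖ := by
          calc ‖z‖ = ‖(z - (X + s • (Y - X))) + (X + s • (Y - X))‖ := by rw [sub_add_cancel]
            _ ≤ _ := norm_add_le _ _
        linarith
    have hXY : ‖X - Y‖ ≤ 128 := by
      refine (norm_sub_le _ _).trans ?_
      linarith
    have hre : ∀ P z : E3, ρ ≤ rad P → ‖P‖ ≤ 64 → ‖z - P‖ ≤ h →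
        |qre z (F z) - qre P (F P)| ≤ 7 * σ / ρ := by
      intro P z h1 h2 h3
      rw [ANG_q_re, ANG_q_re, ← Complex.sub_re]
      exact (Complex.abs_re_le_norm _).trans (hmod P z h1 h2 h3)
    have him : ∀ P z : E3, ρ ≤ rad P → ‖P‖ ≤ 64 → ‖z - P‖ ≤ h →
        |qim z (F z) - qim P (F P)| ≤ 7 * σ / ρ := by
      intro P z h1 h2 h3
      rw [ANG_q_im, ANG_q_im, ← Complex.sub_im]
      exact (Complex.abs_im_le_norm _).trans (hmod P z h1 h2 h3)
    have hI : 0 ≤ C1 * (e0 + τ1) := by positivity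
    constructor
    · refine (hO Ω (fun X => qre X (F X)) V X Y h (7 * σ / ρ) (C1 * (e0 + τ1)) hΩo hc1 hV hh
        hball (fun z hz => hre X z hrX hX hz) (fun z hz => hre Y z hrY hY hz)
        (fun j => ⟨(hj j).1, (hj j).2.2.1⟩)).trans ?_
      gcongr
    · refine (hO Ω (fun X => qim X (F X)) W X Y h (7 * σ / ρ) (C1 * (e0 + τ1)) hΩo hc2 hW hh
        hball (fun z hz => him X z hrX hX hz) (fun z hz => him Y z hrY hY hz)
        (fun j => ⟨(hj j).2.1, (hj j).2.2.2⟩)).trans ?_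
      gcongr
  -- the reference point
  set X0 : E3 := EuclideanSpace.single 0 ρ with hX0
  have hX0n : ‖X0‖ = ρ := by
    rw [hX0, PiLp.norm_single, Real.norm_eq_abs, abs_of_pos hρ]
  have hX0r : rad X0 = ρ := by
    unfold rad
    rw [hX0]
    simp
    exact Real.sqrt_sq hρ.le
  have hFX0 : 0 < rad (F X0) := by
    have := hrad X0 (by rw [hX0n]; linarith) (by rw [hX0r]; linarith)
    linarith
  have hq0 : ‖ANG_q X0 (F X0)‖ = 1 := ANG_q_norm (by rw [hX0r]; exact hρ) hFX0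
  obtain ⟨α, hα⟩ : ∃ α : ℝ, ANG_q X0 (F X0) = (⟨Real.cos α, Real.sin α⟩ : ℂ) := by
    refine ⟨Complex.arg (ANG_q X0 (F X0)), ?_⟩
    have hne : ANG_q X0 (F X0) ≠ 0 := by
      rw [← norm_pos_iff, hq0]
      norm_num
    apply Complex.ext
    · simp only
      rw [Complex.cos_arg hne, hq0, div_one]
    · simp only
      rw [Complex.sin_arg, hq0, div_one]
  refine ⟨α, ?_⟩
  intro X hrX hX
  set B : ℝ := 2 * (7 * σ / ρ) + C2 * (h ^ 3)⁻¹ * 128 * (C1 * (e0 + τ1)) with hB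
  obtain ⟨z, hz0, hz3, hzi, hzs⟩ := hSEGC ρ 64 X X0 hρ hrX hX (by rw [hX0r])
    (by rw [hX0n]; linarith)
  have hst : ∀ i < 3, |qre (z i) (F (z i)) - qre (z (i + 1)) (F (z (i + 1)))| ≤ B ∧
      |qim (z i) (F (z i)) - qim (z (i + 1)) (F (z (i + 1)))| ≤ B := by
    intro i hi
    exact hone (z i) (z (i + 1)) (hzi i (by omega)).1 (hzi i (by omega)).2
      (hzi (i + 1) (by omega)).1 (hzi (i + 1) (by omega)).2 (hzs i hi)
  have h0 := hst 0 (by norm_num)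
  have h1 := hst 1 (by norm_num)
  have h2 := hst 2 (by norm_num)
  simp only [Nat.zero_add, Nat.reduceAdd] at h0 h1 h2
  rw [hz0] at h0
  rw [hz3] at h2
  have hre : |qre X (F X) - qre X0 (F X0)| ≤ 3 * B := by
    have a0 := abs_le.mp h0.1
    have a1 := abs_le.mp h1.1
    have a2 := abs_le.mp h2.1
    rw [abs_le]
    constructor <;> linarith [a0.1, a0.2, a1.1, a1.2, a2.1, a2.2]
  have him : |qim X (F X) - qim X0 (F X0)| ≤ 3 * B := by
    have a0 := abs_le.mp h0.2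
    have a1 := abs_le.mp h1.2
    have a2 := abs_le.mp h2.2
    rw [abs_le]
    constructor <;> linarith [a0.1, a0.2, a1.1, a1.2, a2.1, a2.2]
  have hq : ‖ANG_q X (F X) - (⟨Real.cos α, Real.sin α⟩ : ℂ)‖ ≤ 6 * B := by
    rw [← hα]
    refine (Complex.norm_le_abs_re_add_abs_im _).trans ?_
    rw [Complex.sub_re, Complex.sub_im, ← ANG_q_re, ← ANG_q_re, ← ANG_q_im, ← ANG_q_im]
    linarith
  have hXb : X ∈ Metric.ball (0 : E3) 80 := by
    rw [Metric.mem_ball, dist_zero_right]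
    linarith
  have hfin := ANG_fin (X := X) (Y := F X) (α := α) (κ := 6 * B) (τ1 := τ1) (R := 64)
    (by linarith) (by have := hrad X (by linarith) (by linarith); linarith) hX
    (hSF.rad X hXb) (hSF.ax X hXb) hq
  refine hfin.trans ?_
  -- numerics
  have n1 : 64 * (6 * B) = 384 * 14 * (σ / ρ) + K * (e0 + τ1) := by
    rw [hB, hK]
    field_simp
    ring
  have n2 : σ / ρ ≤ τ / 12000 := by
    rw [div_le_iff₀ hρ]
    linarith
  have n3 : (2 + K) * e0 = τ / 4 := by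
    rw [he0]
    field_simp
  have n4 : (2 + K) * τ1 ≤ τ / 4 := by
    rw [← n3]
    gcongr
  have n5 : K * e0 ≤ τ / 4 := by
    rw [← n3]
    nlinarith
  rw [n1]
  nlinarith
end Pool.Flat
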