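import Pool.Agent.Work.MP_680515_fl.Iface4

/-!
# MP_680515_an, THEOREM FC, block ARE: area inequality
-/

open MeasureTheory Set Filter Topology

namespace Pool.Flat

open Pool.Mart

/-- The determinant of the linear map of a matrix. -/
theorem ARE_det (A : M3) :
    (LinearMap.toContinuousLinearMap (Matrix.toEuclideanLin A)).det = A.det := by
  rw [ContinuousLinearMap.det, LinearMap.coe_toContinuousLinearMap,
    Matrix.toEuclideanLin_eq_toLin, LinearMap.det_toLin]

/-- One piece. -/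
theorem ARE_piece (f : E3 → E3) (A : E3 → M3) (D : Set E3) (hD : MeasurableSet D)
    (hf : ∀ x ∈ D, HasFDerivAt f (LinearMap.toContinuousLinearMap (Matrix.toEuclideanLin (A x))) x)
    (hinj : InjOn f D) (h : E3 → ENNReal) :
    ∫⁻ x in D, ENNReal.ofReal ((A x).det) * h (f x) ≤ ∫⁻ y, h y := by
  have h1 := lintegral_image_eq_lintegral_abs_det_fderiv_mul volume hD
    (fun x hx => (hf x hx).hasFDerivWithinAt) hinj h
  calc ∫⁻ x in D, ENNReal.ofReal ((A x).det) * h (f x)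
      ≤ ∫⁻ x in D, ENNReal.ofReal
          |(LinearMap.toContinuousLinearMap (Matrix.toEuclideanLin (A x))).det| * h (f x) := by
        apply lintegral_mono
        intro x
        beta_reduce
        rw [ARE_det]
        exact mul_le_mul_left (ENNReal.ofReal_le_ofReal (le_abs_self _)) _
    _ = ∫⁻ y in f '' D, h y := h1.symm
    _ ≤ ∫⁻ y, h y := setLIntegral_le_lintegral _ _

/-- Area inequality. -/
theorem p_ARE (hDAE : Stmt_DAE) (hWOP : Stmt_WOP) (hFOP : Stmt_FOP) : Stmt_ARE := by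
  intro φ ψ A hW h hh
  obtain ⟨hcont, hopen, -⟩ := hFOP φ ψ hW.src
  have hΩ : IsOpen ψ.source := ψ.open_source
  have hae := hDAE ψ.source (fm φ ψ) A hΩ hcont hW.wg hopen
  rw [ae_restrict_iff' hΩ.measurableSet] at hae
  obtain ⟨-, -, -, -, hW5, -, -, hW8, -⟩ := hWOP
  -- the null set
  obtain ⟨N, hNsub, hNm, hN0⟩ := exists_measurable_superset_of_null (ae_iff.1 hae)
  set D0 : Set E3 := ψ.source \ N with hD0
  have hD0m : MeasurableSet D0 := hΩ.measurableSet.diff hNm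
  have hder : ∀ x ∈ D0, HasFDerivAt (fm φ ψ)
      (LinearMap.toContinuousLinearMap (Matrix.toEuclideanLin (A x))) x := by
    intro x hx
    by_contra hcon
    exact hx.2 (hNsub (fun hh2 => hcon (hh2 hx.1)))
  classical
  set ψ' : E3 → E3 := ψ.source.piecewise ψ (fun _ => 0) with hψ'
  have hψm : Measurable ψ' :=
    ContinuousOn.measurable_piecewise ψ.continuousOn continuousOn_const hΩ.measurableSet
  have hψeq : ∀ x ∈ D0, ψ' x = ψ x := fun x hx => Set.piecewise_eq_of_mem _ _ _ hx.1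
  have hm0 : Measurable (fun y : E3 => y 0) := by fun_prop
  have hm1 : Measurable (fun y : E3 => y 1) := by fun_prop
  have hmr : Measurable (fun y : E3 => rad y) := by unfold rad; fun_prop
  set C1 : Set E3 := {y | 0 < y 1 ∨ (y 1 = 0 ∧ 0 < y 0)} with hC1
  set C2 : Set E3 := {y | y 1 < 0 ∨ (y 1 = 0 ∧ y 0 < 0)} with hC2
  set C3 : Set E3 := {y | rad y = 0} with hC3
  have hC1m : MeasurableSet C1 :=
    (measurableSet_lt measurable_const hm1).union
      ((measurableSet_eq_fun hm1 measurable_const).inter (measurableSet_lt measurable_const hm0))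
  have hC2m : MeasurableSet C2 :=
    (measurableSet_lt hm1 measurable_const).union
      ((measurableSet_eq_fun hm1 measurable_const).inter (measurableSet_lt hm0 measurable_const))
  have hC3m : MeasurableSet C3 := measurableSet_eq_fun hmr measurable_const
  have hcover : ∀ y : E3, y ∈ C1 ∪ (C2 ∪ C3) := by
    intro y
    simp only [mem_union, hC1, hC2, hC3, mem_setOf_eq]
    rcases lt_trichotomy (y 1) 0 with h1 | h1 | h1
    · right; left; left; exact h1
    · rcases lt_trichotomy (y 0) 0 with h0 | h0 | h0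
      · right; left; right; exact ⟨h1, h0⟩
      · right; right
        unfold rad
        rw [h0, h1]; simp
      · left; right; exact ⟨h1, h0⟩
    · left; left; exact h1
  have hinj : ∀ C : Set E3, (∀ y ∈ C, sg y ∈ C → sg y = y) →
      InjOn (fm φ ψ) (D0 ∩ ψ' ⁻¹' C) := by
    intro C hC x hx x' hx' hxx
    have hx1 : ψ x ∈ C := by have := hx.2; rwa [mem_preimage, hψeq x hx.1] at this
    have hx1' : ψ x' ∈ C := by have := hx'.2; rwa [mem_preimage, hψeq x' hx'.1] at this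
    have e1 : wind (ψ x) = wind (ψ x') :=
      φ.injOn (hW.src x hx.1.1) (hW.src x' hx'.1.1) hxx
    have e2 : ψ x' = ψ x := by
      rcases hW5 _ _ e1 with h2 | h2
      · exact h2
      · have h3 : sg (ψ x) ∈ C := by rw [← h2]; exact hx1'
        rw [h2]; exact hC _ hx1 h3
    exact (ψ.injOn hx'.1.1 hx.1.1 e2).symm
  have s0 : ∀ y : E3, (sg y) 0 = -(y 0) := by intro y; simp [sg]
  have s1 : ∀ y : E3, (sg y) 1 = -(y 1) := by intro y; simp [sg]
  have hI1 := hinj C1 (by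
    intro y hy hsy
    exfalso
    simp only [hC1, mem_setOf_eq, s0, s1] at hy hsy
    rcases hy with h1 | ⟨h1, h1'⟩ <;> rcases hsy with h2 | ⟨h2, h2'⟩ <;> linarith)
  have hI2 := hinj C2 (by
    intro y hy hsy
    exfalso
    simp only [hC2, mem_setOf_eq, s0, s1] at hy hsy
    rcases hy with h1 | ⟨h1, h1'⟩ <;> rcases hsy with h2 | ⟨h2, h2'⟩ <;> linarith)
  have hI3 := hinj C3 (fun y hy _ => (hW8 y).2 hy)
  have hP : ∀ C : Set E3, MeasurableSet C → InjOn (fm φ ψ) (D0 ∩ ψ' ⁻¹' C) →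
      ∫⁻ x in D0 ∩ ψ' ⁻¹' C, ENNReal.ofReal ((A x).det) * h (fm φ ψ x) ≤ ∫⁻ y, h y := by
    intro C hCm hi
    exact ARE_piece (fm φ ψ) A _ (hD0m.inter (hψm hCm)) (fun x hx => hder x hx.1) hi h
  have hsub : ψ.source ⊆ N ∪ ((D0 ∩ ψ' ⁻¹' C1) ∪ ((D0 ∩ ψ' ⁻¹' C2) ∪ (D0 ∩ ψ' ⁻¹' C3))) := by
    intro x hx
    by_cases hxN : x ∈ N
    · exact Or.inl hxN
    · right
      have hxD : x ∈ D0 := ⟨hx, hxN⟩
      rcases hcover (ψ' x) with h1 | h1 | h1
      · exact Or.inl ⟨hxD, h1⟩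
      · exact Or.inr (Or.inl ⟨hxD, h1⟩)
      · exact Or.inr (Or.inr ⟨hxD, h1⟩)
  calc ∫⁻ x in ψ.source, ENNReal.ofReal ((A x).det) * h (fm φ ψ x)
      ≤ ∫⁻ x in N ∪ ((D0 ∩ ψ' ⁻¹' C1) ∪ ((D0 ∩ ψ' ⁻¹' C2) ∪ (D0 ∩ ψ' ⁻¹' C3))),
          ENNReal.ofReal ((A x).det) * h (fm φ ψ x) := lintegral_mono_set hsub
    _ ≤ (∫⁻ x in N, ENNReal.ofReal ((A x).det) * h (fm φ ψ x)) +
        ∫⁻ x in (D0 ∩ ψ' ⁻¹' C1) ∪ ((D0 ∩ ψ' ⁻¹' C2) ∪ (D0 ∩ ψ' ⁻¹' C3)),
          ENNReal.ofReal ((A x).det) * h (fm φ ψ x) := lintegral_union_le _ _ _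
    _ ≤ 0 + ((∫⁻ y, h y) + ((∫⁻ y, h y) + (∫⁻ y, h y))) := by
        apply add_le_add
        · rw [Measure.restrict_eq_zero.2 hN0]; simp
        · refine (lintegral_union_le _ _ _).trans (add_le_add (hP C1 hC1m hI1) ?_)
          exact (lintegral_union_le _ _ _).trans (add_le_add (hP C2 hC2m hI2) (hP C3 hC3m hI3))
    _ = 3 * ∫⁻ y, h y := by ring

end Pool.Flat
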