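import Pool.Agent.Work.MP_680515_fl.Iface2

/-!
# MP_680515_an, THEOREM FB, block ARM: the inequality on the arms
-/

open MeasureTheory Set Filter Topology

namespace Pool.Flat

open Pool.Mart

/-- A point of one arm with prescribed distance of the image. -/
theorem ARM_pt (hARX : Stmt_ARX) (hLINP : Stmt_LINP) (H ε r0 : ℝ) (Ω S : Set E3) (f : E3 → E3)
    (A : E3 → M3) (γ : ℝ → E3) (hε : 0 ≤ ε) (hε1 : ε ≤ 1 / 1000) (hT : Tube H ε r0 Ω S f A γ)
    (t : ℝ) (ht : t ∈ Icc (-1 : ℝ) 1) (r1 r2 t1 t2 : ℝ) (hr1 : 0 < r1) (hr12 : r1 < r2)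
    (hr2 : r2 ≤ r0 / 8) (ht1 : 0 < t1)
    (h1 : ∀ x ∈ Metric.closedBall (γ t) r0, ‖x - γ t‖ ≤ r1 → ‖f x - f (γ t)‖ ≤ t1)
    (h2 : ∀ x ∈ Metric.closedBall (γ t) r0, r2 ≤ ‖x - γ t‖ → t2 ≤ ‖f x - f (γ t)‖)
    (σ : ℝ) (hσ : |σ| = 1) (T : ℝ) (hT1 : t1 < T) (hT2 : T < t2) :
    ∃ s ∈ Icc (0 : ℝ) 1, 0 < s ∧ ‖f (γ (t + σ * s)) - f (γ t)‖ = T ∧ r1 < ‖cv γ t (σ * s)‖ ∧
      ‖cv γ t (σ * s)‖ < r2 := by
  have hr0 : 0 < r0 := hT.rpos
  have hr2p : 0 < r2 := hr1.trans hr12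
  have hσ1 : -1 ≤ σ ∧ σ ≤ 1 := abs_le.1 hσ.le
  have ht2 : t ∈ Icc (-2 : ℝ) 2 := ⟨by linarith [ht.1], by linarith [ht.2]⟩
  have hin : ∀ s ∈ Icc (0 : ℝ) 1, t + σ * s ∈ Icc (-2 : ℝ) 2 := by
    intro s hs
    have hab : |σ * s| ≤ 1 := by
      rw [abs_mul, hσ, one_mul, abs_of_nonneg hs.1]; exact hs.2
    obtain ⟨ha, hb⟩ := abs_le.1 hab
    exact ⟨by linarith [ht.1], by linarith [ht.2]⟩
  obtain ⟨s₀, hs₀, hs₀r⟩ := hARX H ε r0 Ω S f A γ hT t ht2 σ hσ
    (by have := hin 1 ⟨by norm_num, le_refl _⟩; rwa [mul_one] at this) r2 hr2p.le (by linarith)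
  have hs₀0 : 0 < s₀ := by
    rcases hs₀.1.eq_or_lt with h | h
    · exfalso
      rw [← h] at hs₀r
      simp [cv] at hs₀r
      linarith
    · exact h
  have hsub : ∀ s ∈ Icc (0 : ℝ) s₀, s ∈ Icc (0 : ℝ) 1 := fun s hs => ⟨hs.1, hs.2.trans hs₀.2⟩
  have hc : ContinuousOn (fun s : ℝ => ‖f (γ (t + σ * s)) - f (γ t)‖) (Icc 0 s₀) := by
    have h3 : ContinuousOn (fun s : ℝ => t + σ * s) (Icc 0 s₀) := by fun_prop
    have h4 : ContinuousOn (fun s : ℝ => γ (t + σ * s)) (Icc 0 s₀) :=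
      hT.gc.comp h3 (fun s hs => hin s (hsub s hs))
    have h5 : ContinuousOn (fun s : ℝ => f (γ (t + σ * s))) (Icc 0 s₀) := by
      refine hT.cont.comp h4 (fun s hs => ?_)
      exact hT.sub _ (hin s (hsub s hs)) (Metric.mem_closedBall_self (by linarith))
    exact (h5.sub continuousOn_const).norm
  have hiv := intermediate_value_Icc hs₀0.le hc
  have hbig : t2 ≤ ‖f (γ (t + σ * s₀)) - f (γ t)‖ := by
    apply h2
    · rw [Metric.mem_closedBall, dist_eq_norm]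
      have : ‖γ (t + σ * s₀) - γ t‖ = r2 := hs₀r
      linarith
    · exact hs₀r.ge
  have hmem : T ∈ Icc (‖f (γ (t + σ * 0)) - f (γ t)‖) (‖f (γ (t + σ * s₀)) - f (γ t)‖) := by
    constructor
    · simp; linarith
    · linarith
  obtain ⟨s, hs, hsT⟩ := hiv hmem
  have hsT' : ‖f (γ (t + σ * s)) - f (γ t)‖ = T := hsT
  have hnear : ‖cv γ t (σ * s)‖ ≤ r0 := by
    have hσs : |σ * s₀| = s₀ := by rw [abs_mul, hσ, one_mul, abs_of_pos hs₀0]
    have hσs' : |σ * s| = s := by rw [abs_mul, hσ, one_mul, abs_of_nonneg hs.1]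
    have hne : σ * s₀ ≠ 0 := by
      intro h; rw [h] at hσs; simp at hσs; linarith
    have hL := (hLINP ε γ hε hε1 hT.lin t ht2 (σ * s₀) hne (by rw [hσs]; exact hs₀.2)
      (hin s₀ hs₀)).2 (σ * s) (by rw [hσs, hσs']; exact hs.2) (hin s (hsub s hs))
    rw [hs₀r] at hL
    have hq : ‖(σ * s / (σ * s₀)) • cv γ t (σ * s₀)‖ ≤ r2 := by
      rw [norm_smul, hs₀r, Real.norm_eq_abs, abs_div, hσs, hσs']
      have : s / s₀ ≤ 1 := (div_le_one hs₀0).2 hs.2
      nlinarith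
    have hn := norm_sub_norm_le (cv γ t (σ * s)) ((σ * s / (σ * s₀)) • cv γ t (σ * s₀))
    nlinarith
  have hball : γ (t + σ * s) ∈ Metric.closedBall (γ t) r0 := by
    rw [Metric.mem_closedBall, dist_eq_norm]; exact hnear
  have hgt : r1 < ‖cv γ t (σ * s)‖ := by
    by_contra hcon
    push Not at hcon
    have := h1 _ hball hcon
    linarith
  have hlt : ‖cv γ t (σ * s)‖ < r2 := by
    by_contra hcon
    push Not at hcon
    have := h2 _ hball hcon
    linarith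
  have hs0 : 0 < s := by
    rcases hs.1.eq_or_lt with h | h
    · exfalso
      rw [← h] at hgt
      simp [cv] at hgt
      linarith
    · exact h
  exact ⟨s, hsub s hs, hs0, hsT', hgt, hlt⟩

theorem ARM_dn_nonneg (a y : E3) (ha : ‖a‖ = 1) : 0 ≤ dn a y := by
  unfold dn
  have := real_inner_le_norm y a
  rw [ha, mul_one] at this
  linarith

theorem ARM_wt_nonneg (v y : E3) (hv : ‖v‖ = 1) : 0 ≤ wt (-v) v y := by
  unfold wt sq2
  have h1 := ARM_dn_nonneg (-v) y (by rw [norm_neg]; exact hv)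
  have h2 := ARM_dn_nonneg v y hv
  have h3 : inner ℝ (-v) v = (-1 : ℝ) := by
    rw [inner_neg_left, real_inner_self_eq_norm_sq, hv]; norm_num
  rw [h3]
  positivity

/-- The indicator integral. -/
theorem ARM_log (r1 r2 : ℝ) (h1 : 0 < r1) (h12 : r1 < r2) :
    ∫ s, (Icc r1 r2).indicator (fun _ => (1 : ℝ)) s / s = Real.log (r2 / r1) := by
  have h3 : (fun s : ℝ => (Icc r1 r2).indicator (fun _ => (1 : ℝ)) s / s)
      = (Icc r1 r2).indicator (fun s => 1 / s) := by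
    funext s
    by_cases hs : s ∈ Icc r1 r2
    · simp [hs]
    · simp [hs]
  rw [h3, integral_indicator measurableSet_Icc, integral_Icc_eq_integral_Ioc,
    ← intervalIntegral.integral_of_le h12.le, integral_one_div_of_pos h1 (h1.trans h12)]

/-- The inequality on the arms. -/
theorem p_ARM (hSHL : Stmt_SHL) (hLGP : Stmt_LGP) (hARX : Stmt_ARX) (hLINP : Stmt_LINP)
    (hCV2 : Stmt_CV2) (hI0X : Stmt_I0X) : Stmt_ARM := by
  intro H κ0 w hH hκ0 hκ1 hw
  obtain ⟨β, δ, hβ, hδ, hS⟩ := hSHL H κ0 hH hκ0 hκ1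
  refine ⟨δ, hδ, ?_⟩
  intro ε r0 Ω S f A γ hε hε1 hT t ht c hc v r1 r2 t1 t2 hv hr1 hr12 hr2 ht1 ht12 h1 h2 h3
  have hr0 : 0 < r0 := hT.rpos
  have hlogr : 0 < Real.log (r2 / r1) := Real.log_pos ((one_lt_div hr1).2 hr12)
  have hc0 : (0 : ℝ) ≤ c := Nat.cast_nonneg c
  have hI0 : 0 < I0 := hI0X.2.1
  by_cases hle : Real.log (t2 / t1) ≤ w
  · have ha : (c : ℝ) * (1 / 3 - κ0) * (Real.log (t2 / t1) - w) ≤ 0 :=
      mul_nonpos_of_nonneg_of_nonpos (mul_nonneg hc0 (by linarith)) (by linarith)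
    linarith
  push Not at hle
  obtain ⟨n, T, κ, hκ, hsum, hlow⟩ := hLGP t1 t2 β w ht1 hβ hw hle ht12
  have hsupp : ∀ j < n, ∀ s : ℝ, κ j s ≠ 0 → t1 < s ∧ s < t2 := by
    intro j hj s hs
    have := (hκ j hj).2.2.2.2.2.1 (subset_tsupport _ hs)
    exact this
  have hlev : ∀ j < n,
      IntegrableOn (fun x => κ j ‖f x - f (γ t)‖ * wt (-v) v (x - γ t)) (Metric.ball (γ t) r0) ∧
      c * (1 / 3 - κ0) * I0 * (∫ s, κ j s / s) ≤ (3 * Real.pi)⁻¹ *
        ∫ x in Metric.ball (γ t) r0, κ j ‖f x - f (γ t)‖ * wt (-v) v (x - γ t) := by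
    intro j hj
    obtain ⟨hT1, hT2, hCd, h01, hcs, hts, htsb⟩ := hκ j hj
    obtain ⟨s₁, hs₁, hs₁p, hs₁T, hs₁a, hs₁b⟩ := ARM_pt hARX hLINP H ε r0 Ω S f A γ hε hε1 hT t ht
      r1 r2 t1 t2 hr1 hr12 hr2 ht1 h1 h2 1 (by norm_num) (T j) hT1 hT2
    obtain ⟨s₂, hs₂, hs₂p, hs₂T, hs₂a, hs₂b⟩ := ARM_pt hARX hLINP H ε r0 Ω S f A γ hε hε1 hT t ht
      r1 r2 t1 t2 hr1 hr12 hr2 ht1 h1 h2 (-1) (by norm_num) (T j) hT1 hT2
    rw [one_mul] at hs₁T hs₁a hs₁b
    have e1 : (-1 : ℝ) * s₂ = -s₂ := by ring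
    rw [e1] at hs₂T hs₂a hs₂b
    have e2 : t + -s₂ = t - s₂ := by ring
    rw [e2] at hs₂T
    have hd1 := h3 s₁ (by rw [abs_of_pos hs₁p]; exact hs₁.2) hs₁a.le hs₁b.le
    have hd2 := h3 (-s₂) (by rw [abs_neg, abs_of_pos hs₂p]; exact hs₂.2) hs₂a.le hs₂b.le
    rw [abs_of_pos hs₁p, div_self hs₁p.ne', one_smul] at hd1
    rw [abs_neg, abs_of_pos hs₂p, neg_div, div_self hs₂p.ne', neg_smul, one_smul,
      sub_neg_eq_add] at hd2
    refine hS ε r0 Ω S f A γ hε hε1 hT t ht c hc v (T j) s₁ s₂ hv (ht1.trans hT1) hs₁ hs₂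
      (by linarith) (by linarith) hs₁T hs₂T hd1 hd2 (κ j) hCd h01 hcs htsb ?_
    intro x hx s hs
    have := (hts hs).2
    have h4 := h2 x (by rw [Metric.mem_closedBall, dist_eq_norm]; exact hx.le) (by rw [hx]; linarith)
    exact this.trans_le h4
  -- the sum of the levels
  have hvne : -v ≠ v := by
    intro h
    have : v = 0 := by
      have h' : (2 : ℝ) • v = 0 := by
        rw [two_smul]; nth_rewrite 1 [← h]; simp
      simpa using h'
    rw [this] at hv; simp at hv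
  obtain ⟨hInt2, hle2⟩ := hCV2 (-v) v ((Icc r1 r2).indicator (fun _ => (1 : ℝ))) r1 r2 1
    (by rw [norm_neg]; exact hv) hv hvne (measurable_const.indicator measurableSet_Icc) hr1
    (by
      intro s
      by_cases hs : s ∈ Icc r1 r2
      · simp [hs]
      · simp [hs])
    (by
      intro s hs
      by_contra hcon
      exact hs (Set.indicator_of_notMem hcon _))
  rw [ARM_log r1 r2 hr1 hr12] at hle2
  have hInt2' : Integrable (fun x => (Icc r1 r2).indicator (fun _ => (1 : ℝ)) ‖x - γ t‖ *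
      wt (-v) v (x - γ t)) := hInt2.comp_sub_right (γ t)
  have hle3 : ∫ x, (Icc r1 r2).indicator (fun _ => (1 : ℝ)) ‖x - γ t‖ * wt (-v) v (x - γ t)
      ≤ 2 * Real.pi * I0 * Real.log (r2 / r1) := by
    rw [integral_sub_right_eq_self
      (fun y => (Icc r1 r2).indicator (fun _ => (1 : ℝ)) ‖y‖ * wt (-v) v y) (γ t)]
    exact hle2
  have hpt : ∀ x ∈ Metric.ball (γ t) r0,
      ∑ j ∈ Finset.range n, κ j ‖f x - f (γ t)‖ * wt (-v) v (x - γ t)
        ≤ (Icc r1 r2).indicator (fun _ => (1 : ℝ)) ‖x - γ t‖ * wt (-v) v (x - γ t) := by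
    intro x hx
    rw [← Finset.sum_mul]
    apply mul_le_mul_of_nonneg_right _ (ARM_wt_nonneg v _ hv)
    have hx' : x ∈ Metric.closedBall (γ t) r0 := Metric.ball_subset_closedBall hx
    by_cases hs : ‖x - γ t‖ ∈ Icc r1 r2
    · rw [Set.indicator_of_mem hs]; exact hsum _
    · rw [Set.indicator_of_notMem hs]
      apply le_of_eq
      apply Finset.sum_eq_zero
      intro j hj
      by_contra hne
      obtain ⟨ha, hb⟩ := hsupp j (Finset.mem_range.1 hj) _ hne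
      apply hs
      constructor
      · by_contra hcon
        push Not at hcon
        linarith [h1 x hx' hcon.le]
      · by_contra hcon
        push Not at hcon
        linarith [h2 x hx' hcon.le]
  have hsumI : ∑ j ∈ Finset.range n,
      ∫ x in Metric.ball (γ t) r0, κ j ‖f x - f (γ t)‖ * wt (-v) v (x - γ t)
        ≤ 2 * Real.pi * I0 * Real.log (r2 / r1) := by
    rw [← integral_finset_sum _ (fun j hj => (hlev j (Finset.mem_range.1 hj)).1)]
    calc ∫ x in Metric.ball (γ t) r0,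
          ∑ j ∈ Finset.range n, κ j ‖f x - f (γ t)‖ * wt (-v) v (x - γ t)
        ≤ ∫ x in Metric.ball (γ t) r0,
          (Icc r1 r2).indicator (fun _ => (1 : ℝ)) ‖x - γ t‖ * wt (-v) v (x - γ t) := by
          apply setIntegral_mono_on
          · exact integrable_finset_sum _ (fun j hj => (hlev j (Finset.mem_range.1 hj)).1)
          · exact hInt2'.integrableOn
          · exact Metric.isOpen_ball.measurableSet
          · exact hpt
      _ ≤ ∫ x, (Icc r1 r2).indicator (fun _ => (1 : ℝ)) ‖x - γ t‖ * wt (-v) v (x - γ t) := by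
          apply setIntegral_le_integral hInt2'
          filter_upwards with x
          refine mul_nonneg ?_ (ARM_wt_nonneg v _ hv)
          exact Set.indicator_nonneg (fun _ _ => zero_le_one) _
      _ ≤ _ := hle3
  have hpi := Real.pi_pos
  have hcoef : (0 : ℝ) ≤ c * (1 / 3 - κ0) * I0 :=
    mul_nonneg (mul_nonneg hc0 (by linarith)) hI0.le
  have hfin : c * (1 / 3 - κ0) * I0 * (Real.log (t2 / t1) - w)
      ≤ (2 / 3) * I0 * Real.log (r2 / r1) := by
    calc c * (1 / 3 - κ0) * I0 * (Real.log (t2 / t1) - w)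
        ≤ c * (1 / 3 - κ0) * I0 * ∑ j ∈ Finset.range n, ∫ s, κ j s / s :=
          mul_le_mul_of_nonneg_left hlow hcoef
      _ = ∑ j ∈ Finset.range n, c * (1 / 3 - κ0) * I0 * ∫ s, κ j s / s := Finset.mul_sum _ _ _
      _ ≤ ∑ j ∈ Finset.range n, (3 * Real.pi)⁻¹ *
          ∫ x in Metric.ball (γ t) r0, κ j ‖f x - f (γ t)‖ * wt (-v) v (x - γ t) :=
          Finset.sum_le_sum (fun j hj => (hlev j (Finset.mem_range.1 hj)).2)
      _ = (3 * Real.pi)⁻¹ * ∑ j ∈ Finset.range n,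
          ∫ x in Metric.ball (γ t) r0, κ j ‖f x - f (γ t)‖ * wt (-v) v (x - γ t) :=
          (Finset.mul_sum _ _ _).symm
      _ ≤ (3 * Real.pi)⁻¹ * (2 * Real.pi * I0 * Real.log (r2 / r1)) :=
          mul_le_mul_of_nonneg_left hsumI (by positivity)
      _ = (2 / 3) * I0 * Real.log (r2 / r1) := by
          field_simp
  have hfin2 : I0 * (c * (1 / 3 - κ0) * (Real.log (t2 / t1) - w))
      ≤ I0 * ((2 / 3) * Real.log (r2 / r1)) := by
    calc I0 * (c * (1 / 3 - κ0) * (Real.log (t2 / t1) - w))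
        = c * (1 / 3 - κ0) * I0 * (Real.log (t2 / t1) - w) := by ring
      _ ≤ (2 / 3) * I0 * Real.log (r2 / r1) := hfin
      _ = _ := by ring
  exact le_of_mul_le_mul_left hfin2 hI0

end Pool.Flat
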