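import Pool.Agent.Work.MP_680515_fl.Iface1

/-!
# MP_680515_an, THEOREM FB, block ARX: points of the arms at prescribed distances
-/

open MeasureTheory Set Filter Topology

namespace Pool.Flat

open Pool.Mart

/-- Points of the arms at prescribed distances. -/
theorem p_ARX : Stmt_ARX := by
  intro H ε r0 Ω S f A γ hT t ht σ hσ hts r hr0 hr
  have hmem : ∀ s ∈ Icc (0 : ℝ) 1, t + σ * s ∈ Icc (-2 : ℝ) 2 := by
    intro s hs
    have h1 : t + σ * s = (1 - s) * t + s * (t + σ) := by ring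
    rw [h1]
    constructor
    · nlinarith [ht.1, hts.1, hs.1, hs.2, mul_nonneg (sub_nonneg.2 hs.2) (sub_nonneg.2 ht.1),
        mul_nonneg hs.1 (sub_nonneg.2 hts.1)]
    · nlinarith [ht.2, hts.2, hs.1, hs.2, mul_nonneg (sub_nonneg.2 hs.2) (sub_nonneg.2 ht.2),
        mul_nonneg hs.1 (sub_nonneg.2 hts.2)]
  have hc : ContinuousOn (fun s : ℝ => ‖cv γ t (σ * s)‖) (Icc 0 1) := by
    unfold cv
    have h2 : ContinuousOn (fun s : ℝ => γ (t + σ * s)) (Icc 0 1) := by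
      have h3 : ContinuousOn (fun s : ℝ => t + σ * s) (Icc 0 1) := by fun_prop
      exact hT.gc.comp h3 hmem
    exact (h2.sub continuousOn_const).norm
  have h0 : ‖cv γ t (σ * 0)‖ = 0 := by
    unfold cv; simp
  have h1 : 8 * r0 ≤ ‖cv γ t (σ * 1)‖ := by
    unfold cv
    rw [mul_one]
    exact hT.far t ht σ hσ hts
  have hiv := intermediate_value_Icc (zero_le_one' ℝ) hc
  have hmem2 : r ∈ Icc (‖cv γ t (σ * 0)‖) (‖cv γ t (σ * 1)‖) := by
    rw [h0]; exact ⟨hr0, hr.trans h1⟩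
  obtain ⟨s, hs, hsr⟩ := hiv hmem2
  exact ⟨s, hs, hsr⟩

end Pool.Flat
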