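import Pool.Agent.Work.MP_680515_fl.Iface2

/-! # MP_680515_an, THEOREM FB: block BS1 (algebra of the boost) -/

set_option autoImplicit false

open MeasureTheory Set Filter Topology

namespace Pool.Flat

open Pool.Mart

lemma BS1_sq (y : E3) : ‖y‖ ^ 2 = y 0 ^ 2 + y 1 ^ 2 + y 2 ^ 2 := by
  rw [EuclideanSpace.norm_sq_eq, Fin.sum_univ_three]
  simp only [Real.norm_eq_abs, sq_abs]

lemma BS1_c0 (v : ℝ) (y : E3) : bst v y 0 = (‖y‖ / (‖y‖ + v * y 0)) * (y 0 + v * ‖y‖) := by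
  simp [bst]

lemma BS1_c1 (v : ℝ) (y : E3) :
    bst v y 1 = (‖y‖ / (‖y‖ + v * y 0)) * (Real.sqrt (1 - v ^ 2) * y 1) := by
  simp [bst]

lemma BS1_c2 (v : ℝ) (y : E3) :
    bst v y 2 = (‖y‖ / (‖y‖ + v * y 0)) * (Real.sqrt (1 - v ^ 2) * y 2) := by
  simp [bst]

lemma BS1_pos (v : ℝ) (y : E3) (hv : |v| < 1) (hy : y ≠ 0) : 0 < ‖y‖ + v * y 0 := by
  have hE : 0 < ‖y‖ := norm_pos_iff.mpr hy
  have h0 : |y 0| ≤ ‖y‖ := by
    have h1 : y 0 ^ 2 ≤ ‖y‖ ^ 2 := by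
      rw [BS1_sq]
      nlinarith [sq_nonneg (y 1), sq_nonneg (y 2)]
    exact abs_le_of_sq_le_sq h1 hE.le
  have h2 : |v * y 0| < ‖y‖ := by
    rw [abs_mul]
    calc |v| * |y 0| ≤ |v| * ‖y‖ := mul_le_mul_of_nonneg_left h0 (abs_nonneg _)
      _ < 1 * ‖y‖ := mul_lt_mul_of_pos_right hv hE
      _ = ‖y‖ := one_mul _
  linarith [(abs_lt.mp h2).1]

lemma BS1_v (v : ℝ) (hv : |v| < 1) : 0 < 1 - v ^ 2 := by
  have : v ^ 2 < 1 := (sq_lt_one_iff_abs_lt_one v).mpr hv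
  linarith

lemma BS1_norm (v : ℝ) (y : E3) (hv : |v| < 1) (hy : y ≠ 0) : ‖bst v y‖ = ‖y‖ := by
  have hE : 0 < ‖y‖ := norm_pos_iff.mpr hy
  have hd := BS1_pos v y hv hy
  have hs := Real.sq_sqrt (BS1_v v hv).le
  have hq := BS1_sq y
  have h : ‖bst v y‖ ^ 2 = ‖y‖ ^ 2 := by
    rw [BS1_sq (bst v y), BS1_c0, BS1_c1, BS1_c2]
    have e1 : ((‖y‖ / (‖y‖ + v * y 0)) * (y 0 + v * ‖y‖)) ^ 2 +
        ((‖y‖ / (‖y‖ + v * y 0)) * (Real.sqrt (1 - v ^ 2) * y 1)) ^ 2 +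
        ((‖y‖ / (‖y‖ + v * y 0)) * (Real.sqrt (1 - v ^ 2) * y 2)) ^ 2 =
        (‖y‖ / (‖y‖ + v * y 0)) ^ 2 * ((y 0 + v * ‖y‖) ^ 2 +
          Real.sqrt (1 - v ^ 2) ^ 2 * (y 1 ^ 2 + y 2 ^ 2)) := by ring
    have e2 : (y 0 + v * ‖y‖) ^ 2 + Real.sqrt (1 - v ^ 2) ^ 2 * (y 1 ^ 2 + y 2 ^ 2) =
        (‖y‖ + v * y 0) ^ 2 := by
      rw [hs]
      linear_combination (-(1 - v ^ 2)) * hq
    rw [e1, e2, div_pow, div_mul_cancel₀]
    exact (pow_pos hd 2).ne'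
  have h' := (sq_eq_sq₀ (norm_nonneg _) hE.le).mp h
  exact h'

lemma BS1_inv (v : ℝ) (y : E3) (hv : |v| < 1) (hy : y ≠ 0) : bst (-v) (bst v y) = y := by
  have hE : 0 < ‖y‖ := norm_pos_iff.mpr hy
  have hd := BS1_pos v y hv hy
  have hv2 := BS1_v v hv
  have hs := Real.sq_sqrt hv2.le
  have hN := BS1_norm v y hv hy
  have hfac : ‖bst v y‖ + -v * bst v y 0 = ‖y‖ ^ 2 * (1 - v ^ 2) / (‖y‖ + v * y 0) := by
    rw [hN, BS1_c0]
    field_simp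
    ring
  have hfac2 : ‖bst v y‖ / (‖bst v y‖ + -v * bst v y 0) =
      (‖y‖ + v * y 0) / (‖y‖ * (1 - v ^ 2)) := by
    rw [hfac, hN]
    field_simp
  have hsq : Real.sqrt (1 - (-v) ^ 2) = Real.sqrt (1 - v ^ 2) := by
    rw [neg_sq]
  have k0 : bst (-v) (bst v y) 0 = y 0 := by
    rw [BS1_c0 (-v), hfac2, hN, BS1_c0 v]
    field_simp
    ring
  have k1 : bst (-v) (bst v y) 1 = y 1 := by
    rw [BS1_c1 (-v), hfac2, hsq, BS1_c1 v]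
    have : (‖y‖ + v * y 0) / (‖y‖ * (1 - v ^ 2)) * (Real.sqrt (1 - v ^ 2) *
        ((‖y‖ / (‖y‖ + v * y 0)) * (Real.sqrt (1 - v ^ 2) * y 1))) =
        Real.sqrt (1 - v ^ 2) ^ 2 / (1 - v ^ 2) * y 1 := by
      field_simp
    rw [this, hs, div_self hv2.ne', one_mul]
  have k2 : bst (-v) (bst v y) 2 = y 2 := by
    rw [BS1_c2 (-v), hfac2, hsq, BS1_c2 v]
    have : (‖y‖ + v * y 0) / (‖y‖ * (1 - v ^ 2)) * (Real.sqrt (1 - v ^ 2) *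
        ((‖y‖ / (‖y‖ + v * y 0)) * (Real.sqrt (1 - v ^ 2) * y 2))) =
        Real.sqrt (1 - v ^ 2) ^ 2 / (1 - v ^ 2) * y 2 := by
      field_simp
    rw [this, hs, div_self hv2.ne', one_mul]
  ext i
  fin_cases i
  · exact k0
  · exact k1
  · exact k2

lemma BS1_diff (v : ℝ) (y : E3) (hv : |v| < 1) (hy : y ≠ 0) : ContDiffAt ℝ 1 (bst v) y := by
  have hd := BS1_pos v y hv hy
  have hn : ContDiffAt ℝ 1 (fun z : E3 => ‖z‖) y := contDiffAt_norm ℝ hy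
  have hc : ∀ i : Fin 3, ContDiffAt ℝ 1 (fun z : E3 => z i) y := fun i =>
    (EuclideanSpace.proj i : E3 →L[ℝ] ℝ).contDiff.contDiffAt
  have hden : ContDiffAt ℝ 1 (fun z : E3 => ‖z‖ + v * z 0) y :=
    hn.add (contDiffAt_const.mul (hc 0))
  have hq : ContDiffAt ℝ 1 (fun z : E3 => ‖z‖ / (‖z‖ + v * z 0)) y := hn.div hden hd.ne'
  rw [contDiffAt_euclidean]
  intro i
  fin_cases i
  · have : (fun z : E3 => bst v z 0) =
        fun z => (‖z‖ / (‖z‖ + v * z 0)) * (z 0 + v * ‖z‖) := funext fun z => BS1_c0 v z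
    show ContDiffAt ℝ 1 (fun z : E3 => bst v z 0) y
    rw [this]
    exact hq.mul ((hc 0).add (contDiffAt_const.mul hn))
  · have : (fun z : E3 => bst v z 1) =
        fun z => (‖z‖ / (‖z‖ + v * z 0)) * (Real.sqrt (1 - v ^ 2) * z 1) :=
      funext fun z => BS1_c1 v z
    show ContDiffAt ℝ 1 (fun z : E3 => bst v z 1) y
    rw [this]
    exact hq.mul (contDiffAt_const.mul (hc 1))
  · have : (fun z : E3 => bst v z 2) =
        fun z => (‖z‖ / (‖z‖ + v * z 0)) * (Real.sqrt (1 - v ^ 2) * z 2) :=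
      funext fun z => BS1_c2 v z
    show ContDiffAt ℝ 1 (fun z : E3 => bst v z 2) y
    rw [this]
    exact hq.mul (contDiffAt_const.mul (hc 2))

theorem p_BS1 : Stmt_BS1 := by
  intro v y hv hy
  have hE : 0 < ‖y‖ := norm_pos_iff.mpr hy
  have hd := BS1_pos v y hv hy
  refine ⟨hd, BS1_norm v y hv hy, BS1_inv v y hv hy, ?_, BS1_diff v y hv hy⟩
  unfold mu
  have hs : 0 < Real.sqrt (1 - v ^ 2) := Real.sqrt_pos.mpr (BS1_v v hv)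
  positivity

end Pool.Flat
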