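import Pool.Agent.Work.MP_680515_fl.Iface2

/-!
# Block BS2: change of variables by the boost
-/

open MeasureTheory Set Filter Topology

namespace Pool.Flat

open Pool.Mart

/-- The determinant in coordinates. -/
theorem BS2_det (L : E3 →L[ℝ] E3) :
    L.det = Matrix.det (Matrix.of fun i j : Fin 3 => L (EuclideanSpace.single j 1) i) := by
  have h : LinearMap.det (L : E3 →ₗ[ℝ] E3) =
      Matrix.det (Matrix.of fun i j : Fin 3 => L (EuclideanSpace.single j 1) i) := by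
    rw [← LinearMap.det_toMatrix (EuclideanSpace.basisFun (Fin 3) ℝ).toBasis]
    congr 1
  exact h

/-- Derivative of the norm on a line. -/
theorem BS2_norm (y : E3) (hy : y ≠ 0) (j : Fin 3) :
    HasDerivAt (fun t : ℝ => ‖y + t • (EuclideanSpace.single j 1 : E3)‖) (y j / ‖y‖) 0 := by
  have hE : 0 < ‖y‖ := norm_pos_iff.mpr hy
  have h1 : HasFDerivAt (fun x : E3 => ‖x‖ ^ 2) (2 • innerSL ℝ y) y :=
    (hasStrictFDerivAt_norm_sq y).hasFDerivAt
  have h2 := h1.sqrt (by positivity)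
  have h3 := h2.hasLineDerivAt (EuclideanSpace.single j 1 : E3)
  have h4 : HasDerivAt (fun t : ℝ => Real.sqrt (‖y + t • (EuclideanSpace.single j 1 : E3)‖ ^ 2))
    (((1 / (2 * Real.sqrt (‖y‖ ^ 2))) • (2 • innerSL ℝ y)) (EuclideanSpace.single j 1 : E3)) 0 := h3
  have e1 : (fun t : ℝ => Real.sqrt (‖y + t • (EuclideanSpace.single j 1 : E3)‖ ^ 2)) =
      fun t : ℝ => ‖y + t • (EuclideanSpace.single j 1 : E3)‖ := by
    funext t
    exact Real.sqrt_sq (norm_nonneg _)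
  have e2 : ((1 / (2 * Real.sqrt (‖y‖ ^ 2))) • (2 • innerSL ℝ y)) (EuclideanSpace.single j 1 : E3)
      = y j / ‖y‖ := by
    rw [Real.sqrt_sq (norm_nonneg _)]
    simp [EuclideanSpace.inner_single_right]
    field_simp
  rw [e1, e2] at h4
  exact h4

/-- The derivative of the factor. -/
noncomputable def BS2_q (v : ℝ) (y : E3) (j : Fin 3) : ℝ :=
  (y j / ‖y‖ * (‖y‖ + v * y 0) - ‖y‖ * (y j / ‖y‖ + v * (EuclideanSpace.single j 1 : E3) 0)) /
    (‖y‖ + v * y 0) ^ 2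

theorem BS2_coord (y e : E3) (k : Fin 3) (t : ℝ) : (y + t • e) k = y k + t * e k := by
  simp

theorem BS2_entries (hBS1 : Stmt_BS1) (v : ℝ) (hv : |v| < 1) (y : E3) (hy : y ≠ 0) (j : Fin 3) :
    fderiv ℝ (bst v) y (EuclideanSpace.single j 1) 0 =
      BS2_q v y j * (y 0 + v * ‖y‖) + ‖y‖ / (‖y‖ + v * y 0) *
        ((EuclideanSpace.single j 1 : E3) 0 + v * (y j / ‖y‖)) ∧
    fderiv ℝ (bst v) y (EuclideanSpace.single j 1) 1 =
      BS2_q v y j * (Real.sqrt (1 - v ^ 2) * y 1) + ‖y‖ / (‖y‖ + v * y 0) *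
        (Real.sqrt (1 - v ^ 2) * (EuclideanSpace.single j 1 : E3) 1) ∧
    fderiv ℝ (bst v) y (EuclideanSpace.single j 1) 2 =
      BS2_q v y j * (Real.sqrt (1 - v ^ 2) * y 2) + ‖y‖ / (‖y‖ + v * y 0) *
        (Real.sqrt (1 - v ^ 2) * (EuclideanSpace.single j 1 : E3) 2) := by
  obtain ⟨hD, -, -, -, hC⟩ := hBS1 v y hv hy
  have hF : HasFDerivAt (bst v) (fderiv ℝ (bst v) y) y :=
    (hC.differentiableAt (by norm_num)).hasFDerivAt
  have hline : HasDerivAt (fun t : ℝ => bst v (y + t • (EuclideanSpace.single j 1 : E3)))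
      (fderiv ℝ (bst v) y (EuclideanSpace.single j 1)) 0 :=
    hF.hasLineDerivAt (EuclideanSpace.single j 1 : E3)
  have hcoord : ∀ i : Fin 3,
      HasDerivAt (fun t : ℝ => bst v (y + t • (EuclideanSpace.single j 1 : E3)) i)
        (fderiv ℝ (bst v) y (EuclideanSpace.single j 1) i) 0 := fun i =>
    (EuclideanSpace.proj (𝕜 := ℝ) i : E3 →L[ℝ] ℝ).hasFDerivAt.comp_hasDerivAt (0 : ℝ) hline
  set e : E3 := EuclideanSpace.single j 1 with he
  have hN := BS2_norm y hy j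
  rw [← he] at hN
  have hk : ∀ k : Fin 3, HasDerivAt (fun t : ℝ => y k + t * e k) (e k) 0 := fun k => by
    simpa using ((hasDerivAt_id (0 : ℝ)).mul_const (e k)).const_add (y k)
  have hN0 : ‖y + (0 : ℝ) • e‖ = ‖y‖ := by rw [zero_smul, add_zero]
  have hden : HasDerivAt (fun t : ℝ => ‖y + t • e‖ + v * (y 0 + t * e 0)) (y j / ‖y‖ + v * e 0) 0 :=
    hN.add ((hk 0).const_mul v)
  have hne : ‖y + (0 : ℝ) • e‖ + v * (y 0 + 0 * e 0) ≠ 0 := by
    rw [hN0, zero_mul, add_zero]; exact hD.ne'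
  have hH := hN.div hden hne
  have hH' : HasDerivAt (fun t : ℝ => ‖y + t • e‖ / (‖y + t • e‖ + v * (y 0 + t * e 0)))
      (BS2_q v y j) 0 := by
    have e0 : BS2_q v y j = (y j / ‖y‖ * (‖y + (0 : ℝ) • e‖ + v * (y 0 + 0 * e 0)) -
        ‖y + (0 : ℝ) • e‖ * (y j / ‖y‖ + v * e 0)) /
          (‖y + (0 : ℝ) • e‖ + v * (y 0 + 0 * e 0)) ^ 2 := by
      rw [hN0, zero_mul, add_zero]
      rfl
    rw [e0]
    exact hH
  have hL0 : HasDerivAt (fun t : ℝ => (y 0 + t * e 0) + v * ‖y + t • e‖)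
      (e 0 + v * (y j / ‖y‖)) 0 := (hk 0).add (hN.const_mul v)
  have hLk : ∀ k : Fin 3, HasDerivAt (fun t : ℝ => Real.sqrt (1 - v ^ 2) * (y k + t * e k))
      (Real.sqrt (1 - v ^ 2) * e k) 0 := fun k => (hk k).const_mul _
  refine ⟨?_, ?_, ?_⟩
  · have h1 := hH'.mul hL0
    have h2 := hcoord 0
    have e1 : (fun t : ℝ => bst v (y + t • e) 0) =
        (fun t : ℝ => ‖y + t • e‖ / (‖y + t • e‖ + v * (y 0 + t * e 0))) *
          (fun t : ℝ => (y 0 + t * e 0) + v * ‖y + t • e‖) := by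
      funext t
      unfold bst
      rw [BS2_coord]
      simp
    rw [e1] at h2
    have h3 := h2.unique h1
    rw [h3, hN0, zero_mul, add_zero]
  · have h1 := hH'.mul (hLk 1)
    have h2 := hcoord 1
    have e1 : (fun t : ℝ => bst v (y + t • e) 1) =
        (fun t : ℝ => ‖y + t • e‖ / (‖y + t • e‖ + v * (y 0 + t * e 0))) *
          (fun t : ℝ => Real.sqrt (1 - v ^ 2) * (y 1 + t * e 1)) := by
      funext t
      unfold bst
      rw [BS2_coord, BS2_coord]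
      simp
    rw [e1] at h2
    have h3 := h2.unique h1
    rw [h3, hN0]
    simp
  · have h1 := hH'.mul (hLk 2)
    have h2 := hcoord 2
    have e1 : (fun t : ℝ => bst v (y + t • e) 2) =
        (fun t : ℝ => ‖y + t • e‖ / (‖y + t • e‖ + v * (y 0 + t * e 0))) *
          (fun t : ℝ => Real.sqrt (1 - v ^ 2) * (y 2 + t * e 2)) := by
      funext t
      unfold bst
      rw [BS2_coord, BS2_coord]
      simp
    rw [e1] at h2
    have h3 := h2.unique h1
    rw [h3, hN0]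
    simp

/-- The algebra of the determinant. -/
theorem BS2_alg (E D v s h y0 y1 y2 q0 q1 q2 : ℝ) (hE : E ≠ 0) (hD : D ≠ 0)
    (hh : h = E / D) (hDD : D = E + v * y0) (hEE : E ^ 2 = y0 ^ 2 + y1 ^ 2 + y2 ^ 2)
    (hq : y0 * q0 + y1 * q1 + y2 * q2 = 0) (hq0 : q0 = v * (y0 ^ 2 - E ^ 2) / (E * D ^ 2)) :
    Matrix.det !![q0 * (y0 + v * E) + h * (1 + v * (y0 / E)),
        q1 * (y0 + v * E) + h * (0 + v * (y1 / E)), q2 * (y0 + v * E) + h * (0 + v * (y2 / E));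
      q0 * (s * y1) + h * (s * 0), q1 * (s * y1) + h * (s * 1), q2 * (s * y1) + h * (s * 0);
      q0 * (s * y2) + h * (s * 0), q1 * (s * y2) + h * (s * 0), q2 * (s * y2) + h * (s * 1)]
      = (s * E / D) ^ 2 := by
  have h1 : Matrix.det !![q0 * (y0 + v * E) + h * (1 + v * (y0 / E)),
        q1 * (y0 + v * E) + h * (0 + v * (y1 / E)), q2 * (y0 + v * E) + h * (0 + v * (y2 / E));
      q0 * (s * y1) + h * (s * 0), q1 * (s * y1) + h * (s * 1), q2 * (s * y1) + h * (s * 0);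
      q0 * (s * y2) + h * (s * 0), q1 * (s * y2) + h * (s * 0), q2 * (s * y2) + h * (s * 1)]
      = s ^ 2 * (h ^ 3 * (1 + v * y0 / E) + h ^ 2 * ((y0 * q0 + y1 * q1 + y2 * q2) + v * E * q0) +
        h ^ 2 * (((y0 * q0 + y1 * q1 + y2 * q2) + v * E * q0) * (v * y0 / E) -
          v / E * ((y0 ^ 2 + y1 ^ 2 + y2 ^ 2) + v * E * y0) * q0)) := by
    rw [Matrix.det_fin_three]
    simp
    ring
  rw [h1, hq, ← hEE]
  have h2 : 1 + v * y0 / E = D / E := by rw [hDD]; field_simp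
  have h3 : h ^ 2 * (0 + v * E * q0) + h ^ 2 * ((0 + v * E * q0) * (v * y0 / E) -
      v / E * (E ^ 2 + v * E * y0) * q0) = 0 := by
    field_simp
    ring
  have h4 : s ^ 2 * (h ^ 3 * (1 + v * y0 / E) + h ^ 2 * (0 + v * E * q0) +
      h ^ 2 * ((0 + v * E * q0) * (v * y0 / E) - v / E * (E ^ 2 + v * E * y0) * q0)) =
      s ^ 2 * (h ^ 3 * (1 + v * y0 / E)) := by
    rw [add_assoc, h3, add_zero]
  rw [h4, h2, hh]
  field_simp

theorem BS2_detval (hBS1 : Stmt_BS1) (v : ℝ) (hv : |v| < 1) (y : E3) (hy : y ≠ 0) :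
    (fderiv ℝ (bst v) y).det = mu v y ^ 2 := by
  obtain ⟨hD, -, -, -, -⟩ := hBS1 v y hv hy
  have hE : 0 < ‖y‖ := norm_pos_iff.mpr hy
  have hEE : ‖y‖ ^ 2 = y 0 ^ 2 + y 1 ^ 2 + y 2 ^ 2 := by
    rw [EuclideanSpace.real_norm_sq_eq, Fin.sum_univ_three]
  have hq : ∀ j, BS2_q v y j = v * (y j * y 0 - ‖y‖ ^ 2 * (EuclideanSpace.single j 1 : E3) 0) /
      (‖y‖ * (‖y‖ + v * y 0) ^ 2) := by
    intro j
    unfold BS2_q
    have hD' := hD.ne'
    field_simp
    ring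
  have s00 : (EuclideanSpace.single (0 : Fin 3) (1 : ℝ) : E3) 0 = 1 := by simp
  have s01 : (EuclideanSpace.single (0 : Fin 3) (1 : ℝ) : E3) 1 = 0 := by simp
  have s02 : (EuclideanSpace.single (0 : Fin 3) (1 : ℝ) : E3) 2 = 0 := by simp
  have s10 : (EuclideanSpace.single (1 : Fin 3) (1 : ℝ) : E3) 0 = 0 := by simp
  have s11 : (EuclideanSpace.single (1 : Fin 3) (1 : ℝ) : E3) 1 = 1 := by simp
  have s12 : (EuclideanSpace.single (1 : Fin 3) (1 : ℝ) : E3) 2 = 0 := by simp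
  have s20 : (EuclideanSpace.single (2 : Fin 3) (1 : ℝ) : E3) 0 = 0 := by simp
  have s21 : (EuclideanSpace.single (2 : Fin 3) (1 : ℝ) : E3) 1 = 0 := by simp
  have s22 : (EuclideanSpace.single (2 : Fin 3) (1 : ℝ) : E3) 2 = 1 := by simp
  have hqy : y 0 * BS2_q v y 0 + y 1 * BS2_q v y 1 + y 2 * BS2_q v y 2 = 0 := by
    rw [hq, hq, hq, s00, s10, s20, mul_div_assoc', mul_div_assoc', mul_div_assoc', ← add_div,
      ← add_div, div_eq_zero_iff]
    left
    linear_combination (-v * y 0) * hEE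
  have hq0 : BS2_q v y 0 = v * (y 0 ^ 2 - ‖y‖ ^ 2) / (‖y‖ * (‖y‖ + v * y 0) ^ 2) := by
    rw [hq, s00]
    ring
  have key := BS2_alg ‖y‖ (‖y‖ + v * y 0) v (Real.sqrt (1 - v ^ 2)) (‖y‖ / (‖y‖ + v * y 0)) (y 0)
    (y 1) (y 2) (BS2_q v y 0) (BS2_q v y 1) (BS2_q v y 2) hE.ne' hD.ne' rfl rfl hEE hqy hq0
  rw [BS2_det]
  have e : (Matrix.of fun i j : Fin 3 => fderiv ℝ (bst v) y (EuclideanSpace.single j 1) i) =
      !![BS2_q v y 0 * (y 0 + v * ‖y‖) + ‖y‖ / (‖y‖ + v * y 0) * (1 + v * (y 0 / ‖y‖)),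
        BS2_q v y 1 * (y 0 + v * ‖y‖) + ‖y‖ / (‖y‖ + v * y 0) * (0 + v * (y 1 / ‖y‖)),
        BS2_q v y 2 * (y 0 + v * ‖y‖) + ‖y‖ / (‖y‖ + v * y 0) * (0 + v * (y 2 / ‖y‖));
        BS2_q v y 0 * (Real.sqrt (1 - v ^ 2) * y 1) + ‖y‖ / (‖y‖ + v * y 0) *
          (Real.sqrt (1 - v ^ 2) * 0),
        BS2_q v y 1 * (Real.sqrt (1 - v ^ 2) * y 1) + ‖y‖ / (‖y‖ + v * y 0) *
          (Real.sqrt (1 - v ^ 2) * 1),
        BS2_q v y 2 * (Real.sqrt (1 - v ^ 2) * y 1) + ‖y‖ / (‖y‖ + v * y 0) *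
          (Real.sqrt (1 - v ^ 2) * 0);
        BS2_q v y 0 * (Real.sqrt (1 - v ^ 2) * y 2) + ‖y‖ / (‖y‖ + v * y 0) *
          (Real.sqrt (1 - v ^ 2) * 0),
        BS2_q v y 1 * (Real.sqrt (1 - v ^ 2) * y 2) + ‖y‖ / (‖y‖ + v * y 0) *
          (Real.sqrt (1 - v ^ 2) * 0),
        BS2_q v y 2 * (Real.sqrt (1 - v ^ 2) * y 2) + ‖y‖ / (‖y‖ + v * y 0) *
          (Real.sqrt (1 - v ^ 2) * 1)] := by
    obtain ⟨a0, a1, a2⟩ := BS2_entries hBS1 v hv y hy 0
    obtain ⟨b0, b1, b2⟩ := BS2_entries hBS1 v hv y hy 1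
    obtain ⟨c0, c1, c2⟩ := BS2_entries hBS1 v hv y hy 2
    rw [s00] at a0
    rw [s01] at a1
    rw [s02] at a2
    rw [s10] at b0
    rw [s11] at b1
    rw [s12] at b2
    rw [s20] at c0
    rw [s21] at c1
    rw [s22] at c2
    ext i j
    fin_cases i <;> fin_cases j
    · exact a0
    · exact b0
    · exact c0
    · exact a1
    · exact b1
    · exact c1
    · exact a2
    · exact b2
    · exact c2
  rw [e, key]
  rfl

theorem p_BS2 (hBS1 : Stmt_BS1) : Stmt_BS2 := by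
  intro v g hv _
  have hv' : |(-v)| < 1 := by rwa [abs_neg]
  have hs : MeasurableSet ({0}ᶜ : Set E3) := (measurableSet_singleton 0).compl
  have hne : ∀ y : E3, y ≠ 0 → bst v y ≠ 0 := by
    intro y hy h
    have h1 := (hBS1 v y hv hy).2.1
    rw [h, norm_zero] at h1
    exact hy (norm_eq_zero.mp h1.symm)
  have hne' : ∀ y : E3, y ≠ 0 → bst (-v) y ≠ 0 := by
    intro y hy h
    have h1 := (hBS1 (-v) y hv' hy).2.1
    rw [h, norm_zero] at h1
    exact hy (norm_eq_zero.mp h1.symm)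
  have hinj : InjOn (bst v) ({0}ᶜ : Set E3) := by
    intro x hx y hy h
    have h1 := (hBS1 v x hv hx).2.2.1
    have h2 := (hBS1 v y hv hy).2.2.1
    rw [← h1, ← h2, h]
  have himg : bst v '' ({0}ᶜ : Set E3) = {0}ᶜ := by
    ext z
    constructor
    · rintro ⟨y, hy, rfl⟩
      exact hne y hy
    · intro hz
      refine ⟨bst (-v) z, hne' z hz, ?_⟩
      have h1 := (hBS1 (-v) z hv' hz).2.2.1
      rwa [neg_neg] at h1
  have hder : ∀ y ∈ ({0}ᶜ : Set E3), HasFDerivWithinAt (bst v) (fderiv ℝ (bst v) y) {0}ᶜ y :=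
    fun y hy => (((hBS1 v y hv hy).2.2.2.2).differentiableAt (by norm_num)).hasFDerivAt.hasFDerivWithinAt
  have hres : (volume : Measure E3).restrict ({0}ᶜ : Set E3) = volume := by
    apply Measure.restrict_eq_self_of_ae_mem
    have h0 : (volume : Measure E3) {0} = 0 := measure_singleton 0
    exact (measure_eq_zero_iff_ae_notMem).1 h0
  have h := lintegral_image_eq_lintegral_abs_det_fderiv_mul (volume : Measure E3) hs hder hinj g
  rw [himg, hres] at h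
  rw [h]
  have h5 : ∫⁻ x, ENNReal.ofReal |(fderiv ℝ (bst v) x).det| * g (bst v x) =
      ∫⁻ y, g (bst v y) * ENNReal.ofReal (mu v y ^ 2) := by
    apply lintegral_congr_ae
    have h0 : (volume : Measure E3) {0} = 0 := measure_singleton 0
    filter_upwards [(measure_eq_zero_iff_ae_notMem).1 h0] with y hy
    have hy' : y ≠ 0 := hy
    rw [BS2_detval hBS1 v hv y hy', abs_of_nonneg (sq_nonneg _), mul_comm]
  exact h5

end Pool.Flat
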