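import Pool.Agent.Work.MP_680515_fl.Iface2

/-!
Block BS3: covariance of the conformal fields under boosts.
-/

open MeasureTheory Set Filter Topology

namespace Pool.Flat

open Pool.Mart

theorem p_BS3 (hBS1 : Stmt_BS1) : Stmt_BS3 := by
  intro v σ y hv0 hv1 hσ hy
  have hv : |v| < 1 := by rw [abs_of_nonneg hv0]; exact hv1
  obtain ⟨h1, h2, -, -, -⟩ := hBS1 v y hv hy
  have hs : 0 ≤ 1 - v ^ 2 := by nlinarith
  have hs2 : Real.sqrt (1 - v ^ 2) ^ 2 = 1 - v ^ 2 := Real.sq_sqrt hs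
  set s := Real.sqrt (1 - v ^ 2) with hsdef
  refine ⟨?_, ?_, ?_⟩
  · rw [EuclideanSpace.norm_eq]
    have h3 : ∑ i, ‖av v σ i‖ ^ 2 = 1 := by
      simp only [av, Fin.sum_univ_three, Real.norm_eq_abs, sq_abs]
      simp only [Matrix.cons_val_zero, Matrix.cons_val_one, Matrix.cons_val]
      rw [← hsdef]
      nlinarith [hs2, hσ]
    rw [h3, Real.sqrt_one]
  · have h3 : inner ℝ (bst v y) (av v σ) = ‖y‖ / (‖y‖ + v * y 0) *
        (v * (y 0 + v * ‖y‖) + σ * s * (s * y 2)) := by
      rw [PiLp.inner_apply, Fin.sum_univ_three]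
      simp only [bst, av, ← hsdef]
      simp only [PiLp.smul_apply, Matrix.cons_val_zero, Matrix.cons_val_one, Matrix.cons_val,
        smul_eq_mul, RCLike.inner_apply, conj_trivial]
      ring
    unfold dn
    rw [h2, h3]
    unfold mu
    rw [← hsdef]
    have h4 : ‖y‖ + v * y 0 ≠ 0 := h1.ne'
    field_simp
    have h5 : σ * s * (s * y 2) = σ * (1 - v ^ 2) * y 2 := by rw [← hs2]; ring
    rw [hs2]
    nlinarith [h5, hs2]
  · rw [PiLp.inner_apply, Fin.sum_univ_three]
    simp only [av, ← hsdef]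
    simp only [Matrix.cons_val_zero, Matrix.cons_val_one, Matrix.cons_val,
        RCLike.inner_apply, conj_trivial]
    nlinarith [hs2]

end Pool.Flat
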