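import Pool.Agent.Work.MP_680515_fl.Iface1

/-!
# MP_680515_an, THEOREM FB: block CHR (chain rule)
-/

set_option autoImplicit false

open MeasureTheory Set Filter Topology

namespace Pool.Flat

open Pool.Mart

theorem CHR_pt {δ t : ℝ} (hδ : 0 < δ) (ht : 0 ≤ t) : t ≤ δ + t ^ 3 / δ ^ 2 := by
  rcases le_total t δ with h | h
  · have : 0 ≤ t ^ 3 / δ ^ 2 := by positivity
    linarith
  · have h1 : t ≤ t ^ 3 / δ ^ 2 := by
      rw [le_div_iff₀ (by positivity)]
      have h2 : δ ^ 2 ≤ t ^ 2 := pow_le_pow_left₀ hδ.le h 2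
      calc t * δ ^ 2 ≤ t * t ^ 2 := mul_le_mul_of_nonneg_left h2 ht
        _ = t ^ 3 := by ring
    linarith

theorem CHR_L1 {K : Set E3} (hK : IsCompact K) {d : ℕ → E3 → ℝ} (h1 : ∀ n, IntegrableOn (d n) K)
    (h3 : ∀ n, IntegrableOn (fun x => |d n x| ^ 3) K)
    (hl : Tendsto (fun n => ∫ x in K, |d n x| ^ 3) atTop (𝓝 0)) :
    Tendsto (fun n => ∫ x in K, |d n x|) atTop (𝓝 0) := by
  obtain ⟨v, hv⟩ : ∃ v : ℝ, v = volume.real K := ⟨_, rfl⟩
  have hv0 : 0 ≤ v := hv ▸ measureReal_nonneg
  have hbd : ∀ δ : ℝ, 0 < δ → ∀ n,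
      ∫ x in K, |d n x| ≤ δ * v + (∫ x in K, |d n x| ^ 3) / δ ^ 2 := by
    intro δ hδ n
    have hc : IntegrableOn (fun _ : E3 => δ) K := integrableOn_const hK.measure_lt_top.ne
    have hd3 : IntegrableOn (fun x : E3 => |d n x| ^ 3 / δ ^ 2) K := (h3 n).div_const _
    have e1 : ∫ x in K, |d n x| ≤ ∫ x in K, (δ + |d n x| ^ 3 / δ ^ 2) :=
      integral_mono (h1 n).abs (hc.add hd3) (fun x => CHR_pt hδ (abs_nonneg _))
    have e2 : ∫ x in K, (δ + |d n x| ^ 3 / δ ^ 2) =
        δ * v + (∫ x in K, |d n x| ^ 3) / δ ^ 2 := by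
      rw [integral_add hc hd3, integral_div, setIntegral_const, smul_eq_mul, hv, mul_comm]
    exact e1.trans e2.le
  rw [Metric.tendsto_atTop]
  intro ε hε
  obtain ⟨δ, hδ, hδv⟩ : ∃ δ : ℝ, 0 < δ ∧ δ * v < ε / 2 := by
    refine ⟨ε / (2 * (v + 1)), by positivity, ?_⟩
    rw [div_mul_eq_mul_div, div_lt_iff₀ (by positivity)]
    nlinarith
  have h4 : ∀ᶠ n in atTop, ∫ x in K, |d n x| ^ 3 < δ ^ 2 * (ε / 2) :=
    hl.eventually (gt_mem_nhds (by positivity))
  obtain ⟨N, hN⟩ := eventually_atTop.1 h4
  refine ⟨N, fun n hn => ?_⟩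
  rw [Real.dist_0_eq_abs, abs_of_nonneg (integral_nonneg fun x => abs_nonneg _)]
  have h5 := hbd δ hδ n
  have h6 : (∫ x in K, |d n x| ^ 3) / δ ^ 2 < ε / 2 := by
    rw [div_lt_iff₀ (by positivity)]
    linarith [hN n hn]
  linarith

theorem CHR_lim {μ : Measure E3} {p : ℕ → E3 → ℝ} {p0 : E3 → ℝ} {q : ℕ → E3 → ℝ} {q0 : E3 → ℝ}
    {M : ℝ} (hp : ∀ n, Integrable (p n) μ) (hp0 : Integrable p0 μ)
    (hl : Tendsto (fun n => ∫ x, |p n x - p0 x| ∂μ) atTop (𝓝 0))
    (hq : ∀ n, AEStronglyMeasurable (q n) μ) (hM : ∀ n, ∀ᵐ x ∂μ, |q n x| ≤ M)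
    (hql : ∀ᵐ x ∂μ, Tendsto (fun n => q n x) atTop (𝓝 (q0 x))) :
    Tendsto (fun n => ∫ x, p n x * q n x ∂μ) atTop (𝓝 (∫ x, p0 x * q0 x ∂μ)) := by
  have h1 : Tendsto (fun n => ∫ x, p0 x * q n x ∂μ) atTop (𝓝 (∫ x, p0 x * q0 x ∂μ)) := by
    refine tendsto_integral_of_dominated_convergence (fun x => |p0 x| * M)
      (fun n => hp0.aestronglyMeasurable.mul (hq n)) (hp0.abs.mul_const M) (fun n => ?_) ?_
    · filter_upwards [hM n] with x hx
      rw [Real.norm_eq_abs, abs_mul]
      exact mul_le_mul_of_nonneg_left hx (abs_nonneg _)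
    · filter_upwards [hql] with x hx
      exact hx.const_mul _
  have h2 : Tendsto (fun n => ∫ x, (p n x - p0 x) * q n x ∂μ) atTop (𝓝 0) := by
    refine squeeze_zero_norm (a := fun n => (∫ x, |p n x - p0 x| ∂μ) * M) (fun n => ?_) ?_
    · have h3 : ‖∫ x, (p n x - p0 x) * q n x ∂μ‖ ≤ ∫ x, |p n x - p0 x| * M ∂μ := by
        refine norm_integral_le_of_norm_le (((hp n).sub hp0).abs.mul_const M) ?_
        filter_upwards [hM n] with x hx
        rw [Real.norm_eq_abs, abs_mul]
        exact mul_le_mul_of_nonneg_left hx (abs_nonneg _)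
      rwa [integral_mul_const] at h3
    · have := hl.mul_const M
      rwa [zero_mul] at this
  have h3 : ∀ n, ∫ x, p n x * q n x ∂μ
      = (∫ x, (p n x - p0 x) * q n x ∂μ) + ∫ x, p0 x * q n x ∂μ := by
    intro n
    have hb : ∀ᵐ x ∂μ, ‖q n x‖ ≤ M := by
      filter_upwards [hM n] with x hx
      rwa [Real.norm_eq_abs]
    have i1 : Integrable (fun x => (p n x - p0 x) * q n x) μ :=
      ((hp n).sub hp0).mul_bdd (hq n) hb
    have i2 : Integrable (fun x => p0 x * q n x) μ := hp0.mul_bdd (hq n) hb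
    rw [← integral_add i1 i2]
    refine integral_congr_ae (Eventually.of_forall fun x => ?_)
    ring
  simp only [h3]
  have := h2.add h1
  rwa [zero_add] at this

theorem CHR_act (B : M3) (j : Fin 3) :
    act B (EuclideanSpace.single j 1) = ∑ i, B i j • (EuclideanSpace.single i (1 : ℝ) : E3) := by
  ext k
  rw [WithLp.ofLp_sum, Finset.sum_apply]
  simp [act, PiLp.smul_apply, Finset.sum_ite_eq]

theorem CHR_dec (L : E3 × E3 →L[ℝ] ℝ) (B : M3) (j : Fin 3) :
    L (EuclideanSpace.single j 1, act B (EuclideanSpace.single j 1)) =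
      L (EuclideanSpace.single j 1, 0) + ∑ i, B i j * L (0, EuclideanSpace.single i 1) := by
  have h1 : ((EuclideanSpace.single j 1, act B (EuclideanSpace.single j 1)) : E3 × E3) =
      (EuclideanSpace.single j 1, 0) + ∑ i, B i j • ((0, EuclideanSpace.single i 1) : E3 × E3) := by
    rw [CHR_act]
    ext1
    · simp [Prod.fst_sum]
    · simp [Prod.snd_sum]
  rw [h1, map_add, map_sum]
  congr 1
  refine Finset.sum_congr rfl fun i _ => ?_
  rw [map_smul, smul_eq_mul]

theorem CHR_jac (g : E3 → E3) (x : E3) (j : Fin 3) :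
    fderiv ℝ g x (EuclideanSpace.single j 1) = act (jac g x) (EuclideanSpace.single j 1) := by
  ext k
  simp [act, jac]

theorem CHR_cont_jac {g : E3 → E3} (hg : ContDiff ℝ (⊤ : ℕ∞) g) (i j : Fin 3) :
    Continuous fun x => jac g x i j := by
  unfold jac
  simp only [Matrix.of_apply]
  have h1 : Continuous (fderiv ℝ g) :=
    (hg.of_le (WithTop.coe_le_coe.2 (le_top : (1 : ℕ∞) ≤ ⊤))).continuous_fderiv (by norm_num)
  have h2 : Continuous fun x => fderiv ℝ g x (EuclideanSpace.single j 1) :=
    h1.clm_apply continuous_const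
  exact (EuclideanSpace.proj i : E3 →L[ℝ] ℝ).continuous.comp h2

theorem p_CHR (hMOLL : Pool.Mart.Stmt_MOLL) : Stmt_CHR := by
  intro Ω W f A 𝓞 Φ hΩ hW hWΩ hf hwg hO hΦ hfO
  have hDΦ : ContinuousOn (fderiv ℝ Φ) 𝓞 := hΦ.continuousOn_fderiv_of_isOpen hO le_rfl
  have hfW : ContinuousOn f W := hf.mono hWΩ
  have hpair : ContinuousOn (fun x => (x, f x)) W := continuousOn_id.prodMk hfW
  have hD : ContinuousOn (fun x => fderiv ℝ Φ (x, f x)) W := hDΦ.comp hpair hfO
  have hDv : ∀ v : E3 × E3, ContinuousOn (fun x => fderiv ℝ Φ (x, f x) v) W :=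
    fun v => hD.clm_apply continuousOn_const
  have hAint : ∀ K : Set E3, IsCompact K → K ⊆ W → ∀ i j, IntegrableOn (fun x => A x i j) K := by
    intro K hK hKW i j
    have hfin : IsFiniteMeasure (volume.restrict K) :=
      ⟨by rw [Measure.restrict_apply_univ]; exact hK.measure_lt_top⟩
    exact (hwg.loc K hK (hKW.trans hWΩ) i j).integrable (by norm_num)
  have hAmul : ∀ K : Set E3, IsCompact K → K ⊆ W → ∀ i j, ∀ b : E3 → ℝ, ContinuousOn b K →
      IntegrableOn (fun x => A x i j * b x) K := by
    intro K hK hKW i j b hb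
    obtain ⟨M, hM⟩ := hK.exists_bound_of_continuousOn hb
    refine (hAint K hK hKW i j).mul_bdd (c := M)
      (hb.aestronglyMeasurable hK.isClosed.measurableSet) ?_
    filter_upwards [ae_restrict_mem hK.isClosed.measurableSet] with x hx
    exact hM x hx
  refine ⟨?_, ?_⟩
  · intro K hK hKW j
    change IntegrableOn (fun x => fderiv ℝ Φ (x, f x)
      (EuclideanSpace.single j 1, act (A x) (EuclideanSpace.single j 1))) K
    simp only [CHR_dec]
    refine IntegrableOn.add (((hDv _).mono hKW).integrableOn_compact hK) ?_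
    exact integrable_finsetSum _ fun i _ => hAmul K hK hKW i j _ ((hDv _).mono hKW)
  · intro φ hφ hφc hsub j
    change ∫ x, Φ (x, f x) * fderiv ℝ φ x (EuclideanSpace.single j 1) =
      - ∫ x, fderiv ℝ Φ (x, f x)
        (EuclideanSpace.single j 1, act (A x) (EuclideanSpace.single j 1)) * φ x
    obtain ⟨K, hKdef⟩ : ∃ K : Set E3, K = tsupport φ := ⟨_, rfl⟩
    rw [← hKdef] at hsub
    have hK : IsCompact K := hKdef ▸ hφc.isCompact
    have hKm : MeasurableSet K := hK.isClosed.measurableSet
    obtain ⟨g, hg, hgu, hgl⟩ := hMOLL Ω f A hΩ hf hwg K hK (hsub.trans hWΩ)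
    have hGc : IsCompact ((fun x => (x, f x)) '' K) := hK.image_of_continuousOn (hpair.mono hsub)
    have hGO : (fun x => (x, f x)) '' K ⊆ 𝓞 := by
      rintro _ ⟨x, hx, rfl⟩
      exact hfO x (hsub hx)
    obtain ⟨L, hLc, hKL, hLU⟩ := exists_compact_between hGc hO hGO
    obtain ⟨δ, hδ, hthick⟩ := hGc.exists_thickening_subset_open isOpen_interior hKL
    obtain ⟨N, hN⟩ := eventually_atTop.1 (Metric.tendstoUniformlyOn_iff.1 hgu δ hδ)
    obtain ⟨G, hGdef⟩ : ∃ G : ℕ → E3 → E3, G = fun n => g (n + N) := ⟨_, rfl⟩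
    have hGs : ∀ n, ContDiff ℝ (⊤ : ℕ∞) (G n) := fun n => by rw [hGdef]; exact hg _
    have hGL : ∀ n, ∀ x ∈ K, (x, G n x) ∈ L := by
      intro n x hx
      refine interior_subset (hthick (Metric.mem_thickening_iff.2
        ⟨(x, f x), mem_image_of_mem _ hx, ?_⟩))
      rw [Prod.dist_eq, dist_self, dist_comm]
      refine max_lt hδ ?_
      rw [hGdef]
      exact hN (n + N) (by omega) x hx
    have hGpt : ∀ x ∈ K, Tendsto (fun n => (x, G n x)) atTop (𝓝 (x, f x)) := by
      intro x hx
      have h1 : Tendsto (fun n => G n x) atTop (𝓝 (f x)) := by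
        rw [hGdef]
        exact (hgu.tendsto_at hx).comp (tendsto_add_atTop_nat N)
      exact tendsto_const_nhds.prodMk_nhds h1
    have hGl : ∀ i j, Tendsto (fun n => ∫ x in K, |jac (G n) x i j - A x i j| ^ 3) atTop (𝓝 0) := by
      intro i j
      rw [hGdef]
      exact (hgl i j).comp (tendsto_add_atTop_nat N)
    -- outside of `K`
    have hφ0 : ∀ x, x ∉ K → φ x = 0 := fun x hx =>
      image_eq_zero_of_notMem_tsupport (hKdef ▸ hx)
    have hdφ0 : ∀ x, x ∉ K → fderiv ℝ φ x = 0 := by
      intro x hx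
      by_contra hne
      exact hx (hKdef ▸ support_fderiv_subset ℝ (Function.mem_support.2 hne))
    have hφC : Continuous φ := hφ.continuous
    have hdφ : Continuous fun x => fderiv ℝ φ x (EuclideanSpace.single j 1) :=
      ((hφ.of_le (WithTop.coe_le_coe.2 (le_top : (1 : ℕ∞) ≤ ⊤))).continuous_fderiv
        (by norm_num)).clm_apply continuous_const
    have hpn : ∀ n, ContinuousOn (fun x => (x, G n x)) K := fun n =>
      continuousOn_id.prodMk (hGs n).continuous.continuousOn
    have hcn : ∀ n, ContinuousOn (fun x => Φ (x, G n x)) K := fun n =>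
      (hΦ.continuousOn.mono hLU).comp (hpn n) (hGL n)
    have hvn : ∀ n (v : E3 × E3), ContinuousOn (fun x => fderiv ℝ Φ (x, G n x) v) K := fun n v =>
      ((hDΦ.mono hLU).comp (hpn n) (hGL n)).clm_apply continuousOn_const
    have hvt : ∀ (v : E3 × E3), ∀ x ∈ K,
        Tendsto (fun n => fderiv ℝ Φ (x, G n x) v) atTop (𝓝 (fderiv ℝ Φ (x, f x) v)) := by
      intro v x hx
      have h1 : ContinuousAt (fun y => fderiv ℝ Φ y v) (x, f x) :=
        (hDΦ.clm_apply continuousOn_const).continuousAt (hO.mem_nhds (hfO x (hsub hx)))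
      exact h1.tendsto.comp (hGpt x hx)
    have hvM : ∀ v : E3 × E3, ∃ M, ∀ n, ∀ x ∈ K, |fderiv ℝ Φ (x, G n x) v| ≤ M := by
      intro v
      obtain ⟨M, hM⟩ := hLc.exists_bound_of_continuousOn
        ((hDΦ.mono hLU).clm_apply (continuousOn_const (c := v)))
      exact ⟨M, fun n x hx => hM _ (hGL n x hx)⟩
    -- the limit of the left side
    have hlhs : Tendsto (fun n => ∫ x in K, fderiv ℝ φ x (EuclideanSpace.single j 1) *
        Φ (x, G n x)) atTop (𝓝 (∫ x in K, fderiv ℝ φ x (EuclideanSpace.single j 1) *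
          Φ (x, f x))) := by
      obtain ⟨M, hM⟩ := hLc.exists_bound_of_continuousOn (hΦ.continuousOn.mono hLU)
      refine CHR_lim (M := M) (p := fun _ x => fderiv ℝ φ x (EuclideanSpace.single j 1))
        (fun n => hdφ.continuousOn.integrableOn_compact hK)
        (hdφ.continuousOn.integrableOn_compact hK) ?_ (fun n => (hcn n).aestronglyMeasurable hKm)
        ?_ ?_
      · simp
      · intro n
        filter_upwards [ae_restrict_mem hKm] with x hx
        exact hM _ (hGL n x hx)
      · filter_upwards [ae_restrict_mem hKm] with x hx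
        have h1 : ContinuousAt Φ (x, f x) :=
          hΦ.continuousOn.continuousAt (hO.mem_nhds (hfO x (hsub hx)))
        exact h1.tendsto.comp (hGpt x hx)
    -- the limit of the first term
    have hr1 : Tendsto (fun n => ∫ x in K, φ x *
        fderiv ℝ Φ (x, G n x) (EuclideanSpace.single j 1, 0)) atTop (𝓝 (∫ x in K, φ x *
          fderiv ℝ Φ (x, f x) (EuclideanSpace.single j 1, 0))) := by
      obtain ⟨M, hM⟩ := hvM (EuclideanSpace.single j 1, 0)
      refine CHR_lim (M := M) (p := fun _ x => φ x)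
        (fun n => hφC.continuousOn.integrableOn_compact hK)
        (hφC.continuousOn.integrableOn_compact hK) ?_
        (fun n => (hvn n _).aestronglyMeasurable hKm) ?_ ?_
      · simp
      · intro n
        filter_upwards [ae_restrict_mem hKm] with x hx
        exact hM n x hx
      · filter_upwards [ae_restrict_mem hKm] with x hx
        exact hvt _ x hx
    have hjn : ∀ n i, IntegrableOn (fun x => jac (G n) x i j) K := fun n i =>
      (CHR_cont_jac (hGs n) i j).continuousOn.integrableOn_compact hK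
    have hL1 : ∀ i, Tendsto (fun n => ∫ x in K, |jac (G n) x i j - A x i j|) atTop (𝓝 0) := by
      intro i
      refine CHR_L1 hK (fun n => (hjn n i).sub (hAint K hK hsub i j)) (fun n => ?_) (hGl i j)
      have h0 : MemLp (fun x => jac (G n) x i j) 3 (volume.restrict K) := by
        have hfin : IsFiniteMeasure (volume.restrict K) :=
          ⟨by rw [Measure.restrict_apply_univ]; exact hK.measure_lt_top⟩
        obtain ⟨M, hM⟩ := hK.exists_bound_of_continuousOn (CHR_cont_jac (hGs n) i j).continuousOn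
        refine MemLp.of_bound (CHR_cont_jac (hGs n) i j).aestronglyMeasurable M ?_
        filter_upwards [ae_restrict_mem hKm] with x hx
        exact hM x hx
      have hcast : ((3 : ℕ) : ENNReal) = 3 := by norm_num
      have h := h0.sub (hwg.loc K hK (hsub.trans hWΩ) i j)
      rw [← hcast] at h
      have h1 := h.integrable_norm_pow (by norm_num)
      change Integrable (fun x => |jac (G n) x i j - A x i j| ^ 3) (volume.restrict K)
      simpa only [Real.norm_eq_abs, Pi.sub_apply] using h1
    -- the limit of the second term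
    have hr2 : ∀ i, Tendsto (fun n => ∫ x in K, jac (G n) x i j *
        (fderiv ℝ Φ (x, G n x) (0, EuclideanSpace.single i 1) * φ x)) atTop
        (𝓝 (∫ x in K, A x i j *
          (fderiv ℝ Φ (x, f x) (0, EuclideanSpace.single i 1) * φ x))) := by
      intro i
      obtain ⟨M, hM⟩ := hvM (0, EuclideanSpace.single i 1)
      obtain ⟨M', hM'⟩ := hK.exists_bound_of_continuousOn hφC.continuousOn
      refine CHR_lim (M := M * M') (fun n => hjn n i) (hAint K hK hsub i j) (hL1 i)
        (fun n => ((hvn n _).mul hφC.continuousOn).aestronglyMeasurable hKm) ?_ ?_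
      · intro n
        filter_upwards [ae_restrict_mem hKm] with x hx
        rw [abs_mul]
        exact mul_le_mul (hM n x hx) (hM' x hx) (abs_nonneg _) ((abs_nonneg _).trans (hM n x hx))
      · filter_upwards [ae_restrict_mem hKm] with x hx
        exact (hvt _ x hx).mul_const _
    -- the integrals over the whole space
    have hE1 : ∀ h : E3 → E3, ∫ x, Φ (x, h x) * fderiv ℝ φ x (EuclideanSpace.single j 1) =
        ∫ x in K, fderiv ℝ φ x (EuclideanSpace.single j 1) * Φ (x, h x) := by
      intro h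
      rw [← setIntegral_eq_integral_of_forall_compl_eq_zero (s := K) (fun x hx => by
        rw [hdφ0 x hx]; simp)]
      refine integral_congr_ae (Eventually.of_forall fun x => ?_)
      exact mul_comm _ _
    have hE2 : ∀ (h : E3 → E3) (B : E3 → M3),
        IntegrableOn (fun x => φ x * fderiv ℝ Φ (x, h x) (EuclideanSpace.single j 1, 0)) K →
        (∀ i, IntegrableOn (fun x => B x i j *
          (fderiv ℝ Φ (x, h x) (0, EuclideanSpace.single i 1) * φ x)) K) →
        ∫ x, fderiv ℝ Φ (x, h x)
          (EuclideanSpace.single j 1, act (B x) (EuclideanSpace.single j 1)) * φ x =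
        (∫ x in K, φ x * fderiv ℝ Φ (x, h x) (EuclideanSpace.single j 1, 0)) +
        ∑ i, ∫ x in K, B x i j *
          (fderiv ℝ Φ (x, h x) (0, EuclideanSpace.single i 1) * φ x) := by
      intro h B h1 h2
      rw [← setIntegral_eq_integral_of_forall_compl_eq_zero (s := K) (fun x hx => by
        rw [hφ0 x hx]; simp)]
      rw [← integral_finsetSum _ fun i _ => h2 i, ← integral_add h1
        (integrable_finsetSum _ fun i _ => h2 i)]
      refine integral_congr_ae (Eventually.of_forall fun x => ?_)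
      change fderiv ℝ Φ (x, h x) (EuclideanSpace.single j 1,
        act (B x) (EuclideanSpace.single j 1)) * φ x = φ x * fderiv ℝ Φ (x, h x)
          (EuclideanSpace.single j 1, 0) + ∑ i, B x i j *
            (fderiv ℝ Φ (x, h x) (0, EuclideanSpace.single i 1) * φ x)
      rw [CHR_dec, add_mul, Finset.sum_mul, mul_comm (φ x)]
      congr 1
      refine Finset.sum_congr rfl fun i _ => ?_
      ring
    have hin1 : ∀ n, IntegrableOn (fun x => φ x *
        fderiv ℝ Φ (x, G n x) (EuclideanSpace.single j 1, 0)) K := fun n =>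
      (hφC.continuousOn.mul (hvn n _)).integrableOn_compact hK
    have hin2 : ∀ n i, IntegrableOn (fun x => jac (G n) x i j *
        (fderiv ℝ Φ (x, G n x) (0, EuclideanSpace.single i 1) * φ x)) K := fun n i =>
      ((CHR_cont_jac (hGs n) i j).continuousOn.mul
        ((hvn n _).mul hφC.continuousOn)).integrableOn_compact hK
    have hin1' : IntegrableOn (fun x => φ x *
        fderiv ℝ Φ (x, f x) (EuclideanSpace.single j 1, 0)) K :=
      (hφC.continuousOn.mul ((hDv _).mono hsub)).integrableOn_compact hK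
    have hin2' : ∀ i, IntegrableOn (fun x => A x i j *
        (fderiv ℝ Φ (x, f x) (0, EuclideanSpace.single i 1) * φ x)) K := fun i =>
      hAmul K hK hsub i j _ (((hDv _).mono hsub).mul hφC.continuousOn)
    -- the identity for the smooth maps
    have hch : ∀ n, ∀ x ∈ K, HasFDerivAt (fun y => Φ (y, G n y)) ((fderiv ℝ Φ (x, G n x)).comp
        ((ContinuousLinearMap.id ℝ E3).prod (fderiv ℝ (G n) x))) x := by
      intro n x hx
      have h1 : DifferentiableAt ℝ Φ (x, G n x) :=
        (hΦ.differentiableOn one_ne_zero).differentiableAt (hO.mem_nhds (hLU (hGL n x hx)))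
      have h2 : DifferentiableAt ℝ (G n) x := (hGs n).differentiable (by simp) x
      exact h1.hasFDerivAt.comp (f := fun y => (y, G n y)) x
        ((hasFDerivAt_id x).prodMk h2.hasFDerivAt)
    have hfd : ∀ n, ∀ x ∈ K, fderiv ℝ (fun y => Φ (y, G n y)) x (EuclideanSpace.single j 1) =
        fderiv ℝ Φ (x, G n x)
          (EuclideanSpace.single j 1, act (jac (G n) x) (EuclideanSpace.single j 1)) := by
      intro n x hx
      rw [(hch n x hx).fderiv, ← CHR_jac]
      rfl
    have hmul : ∀ n, (fun x => fderiv ℝ (fun y => Φ (y, G n y)) x (EuclideanSpace.single j 1) *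
        φ x) = fun x => fderiv ℝ Φ (x, G n x)
          (EuclideanSpace.single j 1, act (jac (G n) x) (EuclideanSpace.single j 1)) * φ x := by
      intro n
      funext x
      by_cases hx : x ∈ K
      · rw [hfd n x hx]
      · rw [hφ0 x hx, mul_zero, mul_zero]
    have hid : ∀ n, ∫ x, Φ (x, G n x) * fderiv ℝ φ x (EuclideanSpace.single j 1) =
        - ∫ x, fderiv ℝ Φ (x, G n x)
          (EuclideanSpace.single j 1, act (jac (G n) x) (EuclideanSpace.single j 1)) * φ x := by
      intro n
      rw [← hmul n]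
      refine integral_mul_fderiv_eq_neg_fderiv_mul_of_integrable (f := fun x => Φ (x, G n x))
        (g := φ) ?_ ?_ ?_ ?_ ?_
      · rw [hmul n]
        refine (integrableOn_iff_integrable_of_support_subset (s := K) ?_).1 ?_
        · intro x hx
          by_contra hne
          exact hx (by simp [hφ0 x hne])
        · simp only [CHR_dec, add_mul, Finset.sum_mul]
          refine IntegrableOn.add ?_ (integrable_finsetSum _ fun i _ => ?_)
          · refine (hin1 n).congr_fun (fun x _ => mul_comm _ _) hKm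
          · refine (hin2 n i).congr_fun (fun x _ => (mul_assoc _ _ _).symm) hKm
      · refine (integrableOn_iff_integrable_of_support_subset (s := K) ?_).1
          (((hcn n).mul hdφ.continuousOn).integrableOn_compact hK)
        intro x hx
        by_contra hne
        exact hx (by simp [hdφ0 x hne])
      · refine (integrableOn_iff_integrable_of_support_subset (s := K) ?_).1
          (((hcn n).mul hφC.continuousOn).integrableOn_compact hK)
        intro x hx
        by_contra hne
        exact hx (by simp [hφ0 x hne])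
      · intro x hx
        exact (hch n x (hKdef ▸ hx)).differentiableAt
      · intro x _
        exact hφ.differentiable (by simp) x
    rw [hE1 f, hE2 f A hin1' hin2']
    have hid' : ∀ n, ∫ x in K, fderiv ℝ φ x (EuclideanSpace.single j 1) * Φ (x, G n x) =
        - ((∫ x in K, φ x * fderiv ℝ Φ (x, G n x) (EuclideanSpace.single j 1, 0)) +
          ∑ i, ∫ x in K, jac (G n) x i j *
            (fderiv ℝ Φ (x, G n x) (0, EuclideanSpace.single i 1) * φ x)) := by
      intro n
      rw [← hE1 (G n), hid n, hE2 (G n) (jac (G n)) (hin1 n) (hin2 n)]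
    simp only [hid'] at hlhs
    exact tendsto_nhds_unique hlhs (hr1.add (tendsto_finsetSum _ fun i _ => hr2 i)).neg

end Pool.Flat
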