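import Pool.Agent.Work.MP_680515_fl.Iface3

/-!
# MP_680515_an, THEOREM FB, block CLO: closeness to the winding map
-/

open MeasureTheory Set Filter Topology

namespace Pool.Flat

open Pool.Mart

theorem CLO_act_eq (A : M3) (v : E3) : act A v = Matrix.toEuclideanLin A v := rfl

theorem CLO_act_sub (A : M3) (v w : E3) : act A (v - w) = act A v - act A w := by
  rw [CLO_act_eq, CLO_act_eq, CLO_act_eq, map_sub]

theorem CLO_act_smul (A : M3) (c : ℝ) (v : E3) : act A (c • v) = c • act A v := by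
  rw [CLO_act_eq, CLO_act_eq, map_smul]

theorem CLO_act_mul (A B : M3) (x : E3) : act (A * B) x = act A (act B x) := by
  unfold act
  rw [← Matrix.mulVec_mulVec]

theorem CLO_rotz_0 (α : ℝ) (v : E3) :
    act (rotz α) v 0 = Real.cos α * v 0 - Real.sin α * v 1 := by
  simp [act, rotz, dotProduct, Fin.sum_univ_three]
  ring

theorem CLO_rotz_1 (α : ℝ) (v : E3) :
    act (rotz α) v 1 = Real.sin α * v 0 + Real.cos α * v 1 := by
  simp [act, rotz, dotProduct, Fin.sum_univ_three]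

theorem CLO_rotz_2 (α : ℝ) (v : E3) : act (rotz α) v 2 = v 2 := by
  simp [act, rotz, dotProduct, Fin.sum_univ_three]

theorem CLO_norm_sq3 (v : E3) : ‖v‖ ^ 2 = v 0 ^ 2 + v 1 ^ 2 + v 2 ^ 2 := by
  rw [EuclideanSpace.norm_sq_eq]
  simp [Fin.sum_univ_three]

theorem CLO_rad_sq (v : E3) : rad v ^ 2 = v 0 ^ 2 + v 1 ^ 2 := by
  unfold rad
  rw [Real.sq_sqrt (by positivity)]

theorem CLO_rad_nonneg (v : E3) : 0 ≤ rad v := Real.sqrt_nonneg _

theorem CLO_rad_rotz (α : ℝ) (v : E3) : rad (act (rotz α) v) = rad v := by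
  rw [← sq_eq_sq₀ (CLO_rad_nonneg _) (CLO_rad_nonneg _), CLO_rad_sq, CLO_rad_sq, CLO_rotz_0,
    CLO_rotz_1]
  have := Real.cos_sq_add_sin_sq α
  linear_combination (v 0 ^ 2 + v 1 ^ 2) * this

theorem CLO_rad_sub_le (v w : E3) : rad (v - w) ≤ rad v + rad w := by
  rw [← sq_le_sq₀ (CLO_rad_nonneg _) (add_nonneg (CLO_rad_nonneg _) (CLO_rad_nonneg _)),
    CLO_rad_sq, add_sq, CLO_rad_sq, CLO_rad_sq]
  have h1 : -(v 0 * w 0 + v 1 * w 1) ≤ rad v * rad w := by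
    refine le_trans (neg_le_abs _) ?_
    refine abs_le_of_sq_le_sq ?_ (mul_nonneg (CLO_rad_nonneg _) (CLO_rad_nonneg _))
    rw [mul_pow, CLO_rad_sq, CLO_rad_sq]
    nlinarith [sq_nonneg (v 0 * w 1 - v 1 * w 0)]
  simp only [PiLp.sub_apply]
  nlinarith

theorem CLO_norm_le (v : E3) : ‖v‖ ≤ rad v + |v 2| := by
  rw [← sq_le_sq₀ (norm_nonneg _) (add_nonneg (CLO_rad_nonneg _) (abs_nonneg _)), CLO_norm_sq3,
    add_sq, CLO_rad_sq, sq_abs]
  have := mul_nonneg (CLO_rad_nonneg v) (abs_nonneg (v 2))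
  linarith

theorem CLO_rotz_e3 (α : ℝ) : act (rotz α) e3 = e3 := by
  ext i
  fin_cases i
  · change act (rotz α) e3 0 = e3 0
    rw [CLO_rotz_0]
    simp [e3]
  · change act (rotz α) e3 1 = e3 1
    rw [CLO_rotz_1]
    simp [e3]
  · change act (rotz α) e3 2 = e3 2
    rw [CLO_rotz_2]

theorem CLO_rotz_mem (α : ℝ) : rotz α ∈ Matrix.specialOrthogonalGroup (Fin 3) ℝ := by
  rw [Matrix.mem_specialOrthogonalGroup_iff, Matrix.mem_orthogonalGroup_iff]
  have h := Real.cos_sq_add_sin_sq α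
  constructor
  · ext i j
    fin_cases i <;> fin_cases j <;>
      simp [rotz, Matrix.mul_apply, Fin.sum_univ_three] <;> nlinarith
  · rw [Matrix.det_fin_three]
    simp [rotz]
    nlinarith

theorem CLO_mono {ρ τ τ' h σ η : ℝ} {F : E3 → E3} {A : E3 → M3} (hτ : τ ≤ τ')
    (hS : SF ρ τ h σ η F A) : SF ρ τ' h σ η F A where
  cont := hS.cont
  wg := hS.wg
  good := hS.good
  rad := fun X hX => (hS.rad X hX).trans hτ
  ax := fun X hX => (hS.ax X hX).trans hτ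
  mod := hS.mod
  int := hS.int
  dl := hS.dl

/-- CLO: closeness to the winding map. -/
theorem p_CLO (hANG : Stmt_ANG) (hSFX : Stmt_SFX) (hWIN1 : Pool.Mart.Stmt_WIN1)
    (hCHV : Pool.Mart.Stmt_CHV) : Stmt_CLO := by
  intro H ε' hH hε'
  have hρ0 : 0 < min 1 (ε' / 20) := lt_min one_pos (by linarith)
  obtain ⟨σ, hσ, hA⟩ := hANG (min 1 (ε' / 20)) (ε' / 2) hρ0 (min_le_left _ _) (by linarith)
  obtain ⟨h, hh, hhσ, hS⟩ := hSFX H (min 1 (ε' / 20)) σ hH hρ0 (min_le_left _ _) hσ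
  obtain ⟨τ1, η, hτ1, hη, hA2⟩ := hA h hh hhσ
  obtain ⟨ε1, δ1, hε1, hε1', hδ1, hδ1', hS2⟩ :=
    hS (min τ1 (min 1 (ε' / 20))) η (lt_min hτ1 hρ0) hη
  refine ⟨ε1, δ1, hε1, hε1', hδ1, hδ1', ?_⟩
  intro ε r0 Ω S f A γ hε hεε1 hT t ht s hs hs1 hts hcv O hO hOe
  obtain ⟨hl', O', hO', hO'e, hSF⟩ := hS2 ε r0 Ω S f A γ hε hεε1 hT t ht s hs hs1 hts hcv O hO hOe
  obtain ⟨α, hα⟩ := hA2 _ _ (CLO_mono (min_le_left _ _) hSF)
  refine ⟨hl', O' * rotz α, mul_mem hO' (CLO_rotz_mem α), ?_, ?_⟩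
  · rw [CLO_act_mul, CLO_rotz_e3]
    exact hO'e
  · intro X hX
    obtain ⟨-, hnorm, hact, -⟩ := hCHV (fun _ => 0) 0 1 O' one_pos hO'
    have hFX : f (γ t + ‖cv γ t s‖ • act O X) - f (γ t)
        = ‖f (γ (t + s)) - f (γ t)‖ •
          act O' (nf f (γ t) ‖cv γ t s‖ ‖f (γ (t + s)) - f (γ t)‖ O O' X) := by
      unfold nf
      rw [CLO_act_smul, hact, smul_smul, mul_inv_cancel₀ hl'.ne', one_smul]
    rw [hFX, CLO_act_mul, ← smul_sub, ← CLO_act_sub, norm_smul, hnorm, norm_norm, mul_comm]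
    refine mul_le_mul_of_nonneg_right ?_ (norm_nonneg _)
    rw [Metric.mem_ball, dist_zero_right] at hX
    rcases le_or_gt (min 1 (ε' / 20)) (rad X) with h1 | h1
    · have h2 := hα X h1 hX.le
      linarith
    · have hX80 : X ∈ Metric.ball (0 : E3) 80 := by
        rw [Metric.mem_ball, dist_zero_right]
        linarith
      have h2 := hSF.rad X hX80
      have h3 := hSF.ax X hX80
      have h4 := CLO_norm_le (nf f (γ t) ‖cv γ t s‖ ‖f (γ (t + s)) - f (γ t)‖ O O' X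
        - act (rotz α) (wind X))
      have h5 := CLO_rad_sub_le (nf f (γ t) ‖cv γ t s‖ ‖f (γ (t + s)) - f (γ t)‖ O O' X)
        (act (rotz α) (wind X))
      rw [CLO_rad_rotz, hWIN1.2.1] at h5
      rw [PiLp.sub_apply, CLO_rotz_2, hWIN1.2.2.1] at h4
      have h6 : min τ1 (min 1 (ε' / 20)) ≤ min 1 (ε' / 20) := min_le_right _ _
      have h7 : min 1 (ε' / 20) ≤ ε' / 20 := min_le_right _ _
      have h8 := (abs_le.mp h2).2
      linarith

end Pool.Flat
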