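import Pool.Agent.Work.MP_680515_fl.Iface4

/-!
# MP_680515_an, THEOREM FC, block CPI: capacity inequality
-/

open MeasureTheory Set Filter Topology

namespace Pool.Flat

open Pool.Mart

theorem CPI_gradv_continuous (Φ : E3 → ℝ) (hΦ : ContDiff ℝ 1 Φ) : Continuous (gradv Φ) := by
  have h1 : Continuous (fderiv ℝ Φ) := hΦ.continuous_fderiv one_ne_zero
  unfold gradv
  apply (PiLp.continuous_toLp 2 _).comp
  apply continuous_pi
  intro j
  exact h1.clm_apply continuous_const

theorem CPI_gradv_compact (Φ : E3 → ℝ) (hc : HasCompactSupport Φ) :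
    HasCompactSupport (gradv Φ) := by
  have h1 : HasCompactSupport (fderiv ℝ Φ) := hc.fderiv ℝ
  have h2 : gradv Φ = (fun L : E3 →L[ℝ] ℝ => (WithLp.toLp 2
      (fun j : Fin 3 => L (EuclideanSpace.single j 1)) : E3)) ∘ (fderiv ℝ Φ) := by
    funext x; rfl
  rw [h2]
  apply h1.comp_left
  ext j
  simp

/-- Capacity inequality. -/
theorem p_CPI (hOSL : Stmt_OSL) (hARE : Stmt_ARE) (hFOP : Stmt_FOP) : Stmt_CPI := by
  obtain ⟨C, hC, hO⟩ := hOSL
  refine ⟨C * 12, by positivity, ?_⟩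
  intro φ ψ A Φ c ρ1 ρ2 δ hW hΦ hΦc hρ1 hρ12 hring hδ hosc
  obtain ⟨hcont, -, -⟩ := hFOP φ ψ hW.src
  have hΩ : IsOpen ψ.source := ψ.open_source
  obtain ⟨hint, hle⟩ := hO ψ.source (fm φ ψ) A Φ c ρ1 ρ2 δ hΩ hcont hW.wg hΦ hρ1 hρ12 hring hδ
    hosc
  refine hle.trans ?_
  rw [mul_assoc]
  apply mul_le_mul_of_nonneg_left _ hC.le
  have hrg : rg c ρ1 ρ2 ⊆ ψ.source := by
    intro x hx
    exact hring ⟨hx.1.le, hx.2.le⟩
  set F : E3 → ℝ := fun x => (opn (A x) * ‖gradv Φ (fm φ ψ x)‖) ^ 3 with hF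
  have hopn : ∀ B : M3, 0 ≤ opn B := fun B => norm_nonneg _
  have hF0 : ∀ x, 0 ≤ F x := fun x => by
    rw [hF]; exact pow_nonneg (mul_nonneg (hopn _) (norm_nonneg _)) 3
  have hG : Continuous (gradv Φ) := CPI_gradv_continuous Φ hΦ
  set g : E3 → ℝ := fun y => ‖gradv Φ y‖ ^ 3 with hg
  have hgc : Continuous g := (hG.norm).pow 3
  have hgs : HasCompactSupport g := by
    have := (CPI_gradv_compact Φ hΦc).comp_left (g := fun v : E3 => ‖v‖ ^ 3) (by simp)
    exact this
  have hgi : Integrable g := hgc.integrable_of_hasCompactSupport hgs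
  have hg0 : ∀ y, 0 ≤ g y := fun y => by rw [hg]; positivity
  have hmain : ∫⁻ x in rg c ρ1 ρ2, ENNReal.ofReal (F x) ≤ ENNReal.ofReal (12 * ∫ y, g y) := by
    have hgood : ∀ᵐ x ∂(volume.restrict (rg c ρ1 ρ2)), Good (A x) :=
      ae_mono (Measure.restrict_mono hrg le_rfl) hW.good
    calc ∫⁻ x in rg c ρ1 ρ2, ENNReal.ofReal (F x)
        ≤ ∫⁻ x in rg c ρ1 ρ2, 4 * (ENNReal.ofReal ((A x).det) *
            ENNReal.ofReal (g (fm φ ψ x))) := by
          apply lintegral_mono_ae
          filter_upwards [hgood] with x hx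
          have h1 : F x ≤ 4 * (A x).det * g (fm φ ψ x) := by
            rw [hF, hg]
            simp only
            rw [mul_pow]
            exact mul_le_mul_of_nonneg_right hx.2 (by positivity)
          have hdet : 0 ≤ (A x).det := by
            have := (pow_nonneg (hopn (A x)) 3).trans hx.2
            linarith
          calc ENNReal.ofReal (F x) ≤ ENNReal.ofReal (4 * (A x).det * g (fm φ ψ x)) :=
                ENNReal.ofReal_le_ofReal h1
            _ = 4 * (ENNReal.ofReal ((A x).det) * ENNReal.ofReal (g (fm φ ψ x))) := by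
                rw [mul_assoc, ENNReal.ofReal_mul (by norm_num : (0 : ℝ) ≤ 4),
                  ENNReal.ofReal_mul hdet]
                norm_num
      _ = 4 * ∫⁻ x in rg c ρ1 ρ2, (ENNReal.ofReal ((A x).det) *
            ENNReal.ofReal (g (fm φ ψ x))) := lintegral_const_mul' _ _ (by norm_num)
      _ ≤ 4 * ∫⁻ x in ψ.source, (ENNReal.ofReal ((A x).det) *
            ENNReal.ofReal (g (fm φ ψ x))) :=
          mul_le_mul_right (lintegral_mono_set hrg) _
      _ ≤ 4 * (3 * ∫⁻ y, ENNReal.ofReal (g y)) :=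
          mul_le_mul_right (hARE φ ψ A hW (fun y => ENNReal.ofReal (g y))
            (ENNReal.measurable_ofReal.comp hgc.measurable)) _
      _ = ENNReal.ofReal (12 * ∫ y, g y) := by
          rw [← ofReal_integral_eq_lintegral_ofReal hgi (Eventually.of_forall hg0),
            ENNReal.ofReal_mul (by norm_num : (0 : ℝ) ≤ 12), ← mul_assoc]
          norm_num
  have hI0 : 0 ≤ 12 * ∫ y, g y := mul_nonneg (by norm_num) (integral_nonneg hg0)
  calc ∫ x in rg c ρ1 ρ2, F x
      = (∫⁻ x in rg c ρ1 ρ2, ENNReal.ofReal (F x)).toReal :=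
        integral_eq_lintegral_of_nonneg_ae (Eventually.of_forall hF0) hint.aestronglyMeasurable
    _ ≤ (ENNReal.ofReal (12 * ∫ y, g y)).toReal :=
        ENNReal.toReal_mono ENNReal.ofReal_ne_top hmain
    _ = 12 * ∫ y, g y := ENNReal.toReal_ofReal hI0

end Pool.Flat
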