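import Pool.Agent.Work.MP_680515_fl.Iface3

/-! # Block CRC: crude bound -/

open MeasureTheory Set Filter Topology

namespace Pool.Flat

open Pool.Mart

theorem p_CRC (hE1 : Stmt_E1) : Stmt_CRC := by
  intro H hH
  obtain ⟨D, hD, hE⟩ := hE1 H hH
  have hlD : 0 ≤ Real.log D := Real.log_nonneg hD
  have hl2 : 0 ≤ Real.log 2 := Real.log_nonneg (by norm_num)
  refine ⟨2 * Real.log D + Real.log 2, by linarith, ?_⟩
  intro ε r0 Ω S f A γ h0 h1 hT t ht y hy hyr x hx1 hx2
  have ht2 : t ∈ Icc (-2 : ℝ) 2 := ⟨by linarith [ht.1], by linarith [ht.2]⟩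
  have hr0 := hT.rpos
  have hyp : 0 < ‖y - γ t‖ := norm_pos_iff.2 (sub_ne_zero.2 hy)
  have hxp : 0 < ‖x - γ t‖ := lt_of_lt_of_le (by positivity) hx1
  have hx : x ≠ γ t := by
    rintro rfl
    simp at hxp
  have hyB : y ∈ Metric.closedBall (γ t) (2 * r0) := by
    rw [mem_closedBall_iff_norm]
    linarith
  have hxB : x ∈ Metric.closedBall (γ t) (2 * r0) := by
    rw [mem_closedBall_iff_norm]
    linarith
  have hfy : 0 < ‖f y - f (γ t)‖ := by
    rw [norm_pos_iff, sub_ne_zero]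
    intro h
    refine hy (hT.inj t ht2 y ?_ h)
    rw [mem_closedBall_iff_norm]
    linarith
  have hfx : 0 < ‖f x - f (γ t)‖ := by
    rw [norm_pos_iff, sub_ne_zero]
    intro h
    refine hx (hT.inj t ht2 x ?_ h)
    rw [mem_closedBall_iff_norm]
    linarith
  have e1 := hE ε r0 Ω S f A γ h0 h1 hT t ht2 1 x hxB y hyB (by linarith)
  have e2 := hE ε r0 Ω S f A γ h0 h1 hT t ht2 1 y hyB x hxB (by
    rw [div_le_iff₀ (by norm_num)] at hx1
    linarith)
  have hDp : (0 : ℝ) < D ^ 2 := by positivity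
  have g1 : Real.log ‖f x - f (γ t)‖ ≤ 2 * Real.log D + Real.log ‖f y - f (γ t)‖ := by
    have h := Real.log_le_log hfx e1
    rw [Real.log_mul (by positivity) hfy.ne', Real.log_pow] at h
    push_cast at h
    linarith
  have g2 : Real.log ‖f y - f (γ t)‖ ≤ 2 * Real.log D + Real.log ‖f x - f (γ t)‖ := by
    have h := Real.log_le_log hfy e2
    rw [Real.log_mul (by positivity) hfx.ne', Real.log_pow] at h
    push_cast at h
    linarith
  have g3 : Real.log ‖x - γ t‖ ≤ Real.log 2 + Real.log ‖y - γ t‖ := by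
    rw [← Real.log_mul (by norm_num) hyp.ne']
    exact Real.log_le_log hxp hx2
  have g4 : Real.log ‖y - γ t‖ ≤ Real.log 2 + Real.log ‖x - γ t‖ := by
    rw [← Real.log_mul (by norm_num) hxp.ne']
    apply Real.log_le_log hyp
    rw [div_le_iff₀ (by norm_num)] at hx1
    linarith
  rw [Real.log_div hfx.ne' hxp.ne', Real.log_div hfy.ne' hyp.ne', abs_le]
  constructor <;> linarith

end Pool.Flat
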