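import Pool.Agent.Work.MP_680515_fl.Iface3

/-! # Block CRU: the degree is two and the defect of windows is bounded -/

open MeasureTheory Set Filter Topology

namespace Pool.Flat

open Pool.Mart

theorem CRU_pt (p : E3) (r : ℝ) (hr : 0 ≤ r) : ∃ y : E3, ‖y - p‖ = r := by
  refine ⟨p + r • e3, ?_⟩
  rw [add_sub_cancel_left, norm_smul, e3, EuclideanSpace.norm_single, norm_one, mul_one,
    Real.norm_eq_abs, abs_of_nonneg hr]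

theorem CRU_arith1 {c : ℕ} (hc : 3 ≤ c) {κ0 D l K : ℝ} (hκ : κ0 ≤ 1 / 36) (hl : 0 ≤ l)
    (h : c * (1 / 3 - κ0) * (D + l - K) ≤ (2 / 3) * l) : D ≤ K := by
  by_contra hD
  push Not at hD
  have hc' : (3 : ℝ) ≤ c := by exact_mod_cast hc
  have h1 : (11 / 12 : ℝ) ≤ c * (1 / 3 - κ0) := by nlinarith
  have h2 : (11 / 12) * (D + l - K) ≤ c * (1 / 3 - κ0) * (D + l - K) :=
    mul_le_mul_of_nonneg_right h1 (by linarith)
  linarith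

theorem CRU_arith2 {c : ℕ} (hc : 3 ≤ c) {C τ D l K : ℝ} (hK : 0 ≤ K) (hC : 0 ≤ C) (hτ : 0 ≤ τ)
    (hD : D ≤ K) (hl : 6 * K + C * τ + 1 ≤ l)
    (h : 0 ≤ (8 * Real.pi * c / 3) * D - (4 * Real.pi / 3) * (c - 2) * l + C * c * τ) : False := by
  have hπ := Real.pi_gt_three
  have hc' : (3 : ℝ) ≤ c := by exact_mod_cast hc
  have hc0 : (0 : ℝ) < c := by linarith
  have hCτ : 0 ≤ C * τ := mul_nonneg hC hτ
  have hl0 : 0 ≤ l := by linarith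
  have h1 : (8 * Real.pi * c / 3) * D ≤ (8 * Real.pi * c / 3) * K :=
    mul_le_mul_of_nonneg_left hD (by positivity)
  have h2 : (4 * Real.pi / 3) * (c / 3) * l ≤ (4 * Real.pi / 3) * (c - 2) * l := by
    refine mul_le_mul_of_nonneg_right (mul_le_mul_of_nonneg_left ?_ (by positivity)) hl0
    linarith
  have h3 : c * ((4 * Real.pi / 9) * l) ≤ c * ((8 * Real.pi / 3) * K + C * τ) := by
    calc c * ((4 * Real.pi / 9) * l) = (4 * Real.pi / 3) * (c / 3) * l := by ring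
      _ ≤ (8 * Real.pi * c / 3) * K + C * c * τ := by linarith
      _ = c * ((8 * Real.pi / 3) * K + C * τ) := by ring
  have h4 := le_of_mul_le_mul_left h3 hc0
  have h5 : (4 * Real.pi / 9) * (6 * K + C * τ + 1) ≤ (4 * Real.pi / 9) * l :=
    mul_le_mul_of_nonneg_left hl (by positivity)
  have h6 : (4 * Real.pi / 9) * (6 * K + C * τ + 1) =
      (8 * Real.pi / 3) * K + (4 * Real.pi / 9) * (C * τ) + 4 * Real.pi / 9 := by ring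
  have h7 : C * τ ≤ (4 * Real.pi / 9) * (C * τ) :=
    le_mul_of_one_le_left hCτ (by linarith)
  linarith

theorem CRU_arith3 {κ0 D l K L : ℝ} (hκ0 : 0 < κ0) (hκ : κ0 ≤ 1 / 36) (hκL : κ0 * L ≤ 1 / 6)
    (hl : 0 ≤ l) (hlL : l ≤ L)
    (h : ((2 : ℕ) : ℝ) * (1 / 3 - κ0) * (D + l - K) ≤ (2 / 3) * l) : D ≤ K + 1 := by
  by_contra hD
  push Not at hD
  have h1 : κ0 * l ≤ 1 / 6 := (mul_le_mul_of_nonneg_left hlL hκ0.le).trans hκL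
  have h2 : (1 - 3 * κ0) * (l + 1) ≤ (1 - 3 * κ0) * (D + l - K) :=
    mul_le_mul_of_nonneg_left (by linarith) (by linarith)
  have h3 : ((2 : ℕ) : ℝ) * (1 / 3 - κ0) * (D + l - K) = (2 / 3) * ((1 - 3 * κ0) * (D + l - K)) := by
    push_cast
    ring
  rw [h3] at h
  nlinarith

/-- The two inequalities for a window. -/
theorem CRU_key {H κ0 δ L ε1 C δR τH : ℝ} (hH : 1 ≤ H) (hκ0 : 0 < κ0) (hκ1 : κ0 < 1 / 3)
    (hτ : 0 ≤ τH)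
    (hARM : ∀ (ε r0 : ℝ) (Ω S : Set E3) (f : E3 → E3) (A : E3 → M3) (γ : ℝ → E3), 0 ≤ ε →
      ε ≤ 1 / 1000 → Tube H ε r0 Ω S f A γ → ∀ t ∈ Icc (-1 : ℝ) 1, ∀ c : ℕ,
      DegP f A (γ t) r0 c →
      ∀ (v : E3) (r1 r2 t1 t2 : ℝ), ‖v‖ = 1 → 0 < r1 → r1 < r2 → r2 ≤ r0 / 8 → 0 < t1 → t1 < t2 →
      (∀ x ∈ Metric.closedBall (γ t) r0, ‖x - γ t‖ ≤ r1 → ‖f x - f (γ t)‖ ≤ t1) →
      (∀ x ∈ Metric.closedBall (γ t) r0, r2 ≤ ‖x - γ t‖ → t2 ≤ ‖f x - f (γ t)‖) →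
      (∀ s : ℝ, |s| ≤ 1 → r1 ≤ ‖cv γ t s‖ → ‖cv γ t s‖ ≤ r2 →
        ‖un (cv γ t s) - (s / |s|) • v‖ ≤ δ) →
      c * (1 / 3 - κ0) * (Real.log (t2 / t1) - 1) ≤ (2 / 3) * Real.log (r2 / r1))
    (hWIN : ∀ (H ε r0 : ℝ) (Ω S : Set E3) (f : E3 → E3) (A : E3 → M3) (γ : ℝ → E3), 0 ≤ ε →
      ε ≤ ε1 → Tube H ε r0 Ω S f A γ → ∀ t ∈ Icc (-1 : ℝ) 1, ∀ r1 r2 : ℝ, 0 < r1 → r1 ≤ r2 →
      r2 ≤ r0 → Real.log (r2 / r1) ≤ L → ∃ v : E3, ‖v‖ = 1 ∧ ∀ s : ℝ, |s| ≤ 1 →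
      r1 ≤ ‖cv γ t s‖ → ‖cv γ t s‖ ≤ r2 → ‖un (cv γ t s) - (s / |s|) • v‖ ≤ δ)
    (hCRC : ∀ (ε r0 : ℝ) (Ω S : Set E3) (f : E3 → E3) (A : E3 → M3) (γ : ℝ → E3), 0 ≤ ε →
      ε ≤ 1 / 1000 → Tube H ε r0 Ω S f A γ → ∀ t ∈ Icc (-1 : ℝ) 1, ∀ y : E3, y ≠ γ t →
      ‖y - γ t‖ ≤ r0 →
      RC f (γ t) ‖y - γ t‖ 2 (Real.log (‖f y - f (γ t)‖ / ‖y - γ t‖)) τH)
    (hRNG : ∀ (ε r0 : ℝ) (Ω S : Set E3) (f : E3 → E3) (A : E3 → M3) (γ : ℝ → E3), 0 ≤ ε →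
      ε ≤ 1 / 1000 → Tube H ε r0 Ω S f A γ → ∀ t ∈ Icc (-1 : ℝ) 1, ∀ c : ℕ,
      DegP f A (γ t) r0 c →
      ∀ r1 r2 m1 m2 τ : ℝ, 0 < r1 → r1 < r2 → r2 ≤ δR * r0 → 0 ≤ τ →
      RC f (γ t) r1 2 m1 τ → RC f (γ t) r2 2 m2 τ →
      IntegrableOn (dens f A (γ t)) (rg (γ t) r1 r2) ∧ 0 ≤ DR f A (γ t) r1 r2 ∧
      DR f A (γ t) r1 r2 ≤ (8 * Real.pi * c / 3) * (m2 - m1)
        - (4 * Real.pi / 3) * (c - 2) * Real.log (r2 / r1) + C * c * τ)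
    (hε1 : ε1 ≤ 1 / 1000)
    {ε r0 : ℝ} {Ω S : Set E3} {f : E3 → E3} {A : E3 → M3} {γ : ℝ → E3} (hε : 0 ≤ ε)
    (hεε : ε ≤ ε1) (hT : Tube H ε r0 Ω S f A γ) {t : ℝ} (ht : t ∈ Icc (-1 : ℝ) 1) {c : ℕ}
    (hD : DegP f A (γ t) r0 c) {r1 r2 : ℝ} (hr1 : 0 < r1) (hr : r1 < r2)
    (hr2 : r2 ≤ min δR (1 / 8) * r0) (hL : Real.log (r2 / r1) ≤ L) :
    ∃ D : ℝ, c * (1 / 3 - κ0) * (D + Real.log (r2 / r1) - (2 * Real.log H + 1)) ≤
        (2 / 3) * Real.log (r2 / r1) ∧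
      IntegrableOn (dens f A (γ t)) (rg (γ t) r1 r2) ∧ 0 ≤ DR f A (γ t) r1 r2 ∧
      DR f A (γ t) r1 r2 ≤ (8 * Real.pi * c / 3) * D
        - (4 * Real.pi / 3) * (c - 2) * Real.log (r2 / r1) + C * c * τH := by
  have ht2 : t ∈ Icc (-2 : ℝ) 2 := ⟨by linarith [ht.1], by linarith [ht.2]⟩
  have hr0 := hT.rpos
  have hr2p : 0 < r2 := hr1.trans hr
  have hr2a : r2 ≤ δR * r0 := hr2.trans (mul_le_mul_of_nonneg_right (min_le_left _ _) hr0.le)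
  have hr2b : r2 ≤ r0 / 8 := by
    have h1 := hr2.trans (mul_le_mul_of_nonneg_right (min_le_right _ _) hr0.le)
    linarith
  have hr2c : r2 ≤ r0 := by linarith
  have hr1c : r1 ≤ r0 := by linarith
  obtain ⟨y1, hy1⟩ := CRU_pt (γ t) r1 hr1.le
  obtain ⟨y2, hy2⟩ := CRU_pt (γ t) r2 hr2p.le
  have hy1n : y1 ≠ γ t := fun h => by
    rw [h, sub_self, norm_zero] at hy1
    linarith
  have hy2n : y2 ≠ γ t := fun h => by
    rw [h, sub_self, norm_zero] at hy2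
    linarith
  have hmem : ∀ x : E3, ‖x - γ t‖ ≤ r0 → x ∈ Metric.closedBall (γ t) (8 * r0) := fun x hx => by
    rw [Metric.mem_closedBall, dist_eq_norm]
    linarith
  have hF1 : 0 < ‖f y1 - f (γ t)‖ := by
    rw [norm_pos_iff, sub_ne_zero]
    exact fun h => hy1n (hT.inj t ht2 y1 (hmem y1 (by rw [hy1]; exact hr1c)) h)
  have hF2 : 0 < ‖f y2 - f (γ t)‖ := by
    rw [norm_pos_iff, sub_ne_zero]
    exact fun h => hy2n (hT.inj t ht2 y2 (hmem y2 (by rw [hy2]; exact hr2c)) h)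
  have hH0 : 0 < H := by linarith
  have hε' : ε ≤ 1 / 1000 := hεε.trans hε1
  have hR1 := hCRC ε r0 Ω S f A γ hε hε' hT t ht y1 hy1n (by rw [hy1]; exact hr1c)
  have hR2 := hCRC ε r0 Ω S f A γ hε hε' hT t ht y2 hy2n (by rw [hy2]; exact hr2c)
  rw [hy1] at hR1
  rw [hy2] at hR2
  obtain ⟨F1, hF1e⟩ : ∃ F1, F1 = ‖f y1 - f (γ t)‖ := ⟨_, rfl⟩
  obtain ⟨F2, hF2e⟩ : ∃ F2, F2 = ‖f y2 - f (γ t)‖ := ⟨_, rfl⟩
  rw [← hF1e] at hF1 hR1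
  rw [← hF2e] at hF2 hR2
  have hlr : 0 < Real.log (r2 / r1) := Real.log_pos ((one_lt_div hr1).2 hr)
  have hlog : Real.log (F2 / H / (H * F1)) =
      Real.log (F2 / r2) - Real.log (F1 / r1) + Real.log (r2 / r1) - 2 * Real.log H := by
    rw [Real.log_div (by positivity) (by positivity), Real.log_div hF2.ne' hH0.ne',
      Real.log_mul hH0.ne' hF1.ne', Real.log_div hF2.ne' hr2p.ne', Real.log_div hF1.ne' hr1.ne',
      Real.log_div hr2p.ne' hr1.ne']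
    ring
  refine ⟨Real.log (F2 / r2) - Real.log (F1 / r1), ?_,
    hRNG ε r0 Ω S f A γ hε hε' hT t ht c hD r1 r2 _ _ τH hr1 hr hr2a hτ hR1 hR2⟩
  have hc0 : (0 : ℝ) ≤ c := Nat.cast_nonneg c
  have hfac : 0 ≤ (c : ℝ) * (1 / 3 - κ0) := mul_nonneg hc0 (by linarith)
  have hrew : Real.log (F2 / r2) - Real.log (F1 / r1) + Real.log (r2 / r1) -
      (2 * Real.log H + 1) = Real.log (F2 / H / (H * F1)) - 1 := by
    rw [hlog]
    ring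
  rw [hrew]
  by_cases hlt : H * F1 < F2 / H
  · obtain ⟨v, hv, hcone⟩ := hWIN H ε r0 Ω S f A γ hε hεε hT t ht r1 r2 hr1 hr.le hr2c hL
    refine hARM ε r0 Ω S f A γ hε hε' hT t ht c hD v r1 r2 (H * F1) (F2 / H) hv hr1 hr hr2b
      (by positivity) hlt (fun x hx hxr => ?_) (fun x hx hxr => ?_) hcone
    · rw [hF1e]
      refine hT.br t ht2 x (hmem x ?_) y1 (hmem y1 (by rw [hy1]; exact hr1c)) (by rw [hy1]; exact hxr)
      linarith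
    · rw [div_le_iff₀ hH0, hF2e, mul_comm]
      refine hT.br t ht2 y2 (hmem y2 (by rw [hy2]; exact hr2c)) x (hmem x ?_) (by rw [hy2]; exact hxr)
      rw [Metric.mem_closedBall, dist_eq_norm] at hx
      exact hx
  · push Not at hlt
    have h1 : Real.log (F2 / H / (H * F1)) ≤ 0 := by
      refine Real.log_nonpos (by positivity) ?_
      rw [div_le_one (by positivity)]
      exact hlt
    have h2 : (c : ℝ) * (1 / 3 - κ0) * (Real.log (F2 / H / (H * F1)) - 1) ≤ 0 :=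
      mul_nonpos_of_nonneg_of_nonpos hfac (by linarith)
    linarith

theorem p_CRU (hWIN : Stmt_WIN) (hARM : Stmt_ARM) (hCRC : Stmt_CRC) (hRNG : Stmt_RNG) :
    Stmt_CRU := by
  intro H hH
  obtain ⟨τH, hτ, hCRC'⟩ := hCRC H hH
  obtain ⟨C, δR, hC, hδR, hδR1, hRNG'⟩ := hRNG H hH
  have hlH : 0 ≤ Real.log H := Real.log_nonneg hH
  obtain ⟨K, hK⟩ : ∃ K, K = 2 * Real.log H + 1 := ⟨_, rfl⟩
  have hK0 : 0 < K := by
    rw [hK]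
    linarith
  have hπ := Real.pi_pos
  have hCτ : 0 ≤ C * τH := mul_nonneg hC.le hτ
  refine ⟨(16 * Real.pi / 3) * (K + 1) + 2 * (C * τH), 6 * K + C * τH + 1, by positivity,
    by positivity, fun L hL => ?_⟩
  have hLp : 0 < L := by linarith
  obtain ⟨κ0, hκ0e⟩ : ∃ κ0 : ℝ, κ0 = min (1 / 36) (1 / (6 * L)) := ⟨_, rfl⟩
  have hκ0 : 0 < κ0 := by
    rw [hκ0e]
    exact lt_min (by norm_num) (by positivity)
  have hκ36 : κ0 ≤ 1 / 36 := by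
    rw [hκ0e]
    exact min_le_left _ _
  have hκL : κ0 * L ≤ 1 / 6 := by
    have h1 : κ0 ≤ 1 / (6 * L) := by
      rw [hκ0e]
      exact min_le_right _ _
    calc κ0 * L ≤ 1 / (6 * L) * L := mul_le_mul_of_nonneg_right h1 hLp.le
      _ = 1 / 6 := by field_simp
  have hκ1 : κ0 < 1 / 3 := by linarith
  obtain ⟨δ, hδ, hARM'⟩ := hARM H κ0 1 hH hκ0 hκ1 one_pos
  obtain ⟨ε1, hε1, hε11, hWIN'⟩ := hWIN δ L hδ hLp
  refine ⟨ε1, min δR (1 / 8), hε1, hε11, lt_min hδR (by norm_num), min_le_right _ _, ?_⟩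
  intro ε r0 Ω S f A γ hε hεε hT t ht c hD
  have key : ∀ r1 r2 : ℝ, 0 < r1 → r1 < r2 → r2 ≤ min δR (1 / 8) * r0 →
      Real.log (r2 / r1) ≤ L → ∃ D : ℝ,
      c * (1 / 3 - κ0) * (D + Real.log (r2 / r1) - K) ≤ (2 / 3) * Real.log (r2 / r1) ∧
      IntegrableOn (dens f A (γ t)) (rg (γ t) r1 r2) ∧ 0 ≤ DR f A (γ t) r1 r2 ∧
      DR f A (γ t) r1 r2 ≤ (8 * Real.pi * c / 3) * D
        - (4 * Real.pi / 3) * (c - 2) * Real.log (r2 / r1) + C * c * τH := by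
    intro r1 r2 hr1 hr hr2 hl
    rw [hK]
    exact CRU_key hH hκ0 hκ1 hτ hARM' hWIN' hCRC' hRNG' hε11 hε hεε hT ht hD hr1 hr hr2 hl
  have hr0 := hT.rpos
  have hc2 : c = 2 := by
    by_contra hne
    have hc3 : 3 ≤ c := by
      have := hD.two
      omega
    obtain ⟨r2, hr2⟩ : ∃ r2 : ℝ, r2 = min δR (1 / 8) * r0 := ⟨_, rfl⟩
    have hr2p : 0 < r2 := by
      rw [hr2]
      exact mul_pos (lt_min hδR (by norm_num)) hr0
    have hr1p : 0 < r2 * Real.exp (-L) := by positivity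
    have hr12 : r2 * Real.exp (-L) < r2 :=
      mul_lt_of_lt_one_right hr2p (Real.exp_lt_one_iff.2 (by linarith))
    have hlog : Real.log (r2 / (r2 * Real.exp (-L))) = L := by
      rw [Real.log_div hr2p.ne' hr1p.ne', Real.log_mul hr2p.ne' (Real.exp_pos _).ne', Real.log_exp]
      ring
    obtain ⟨D, hD1, -, hD3, hD4⟩ := key (r2 * Real.exp (-L)) r2 hr1p hr12 hr2.le hlog.le
    rw [hlog] at hD1 hD4
    exact CRU_arith2 hc3 hK0.le hC.le hτ (CRU_arith1 hc3 hκ36 hLp.le hD1) hL (hD3.trans hD4)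
  refine ⟨hc2, fun r1 r2 hr1 hr hr2 hl => ?_⟩
  obtain ⟨D, hD1, hD2, -, hD4⟩ := key r1 r2 hr1 hr hr2 hl
  refine ⟨hD2, ?_⟩
  have hlr : 0 < Real.log (r2 / r1) := Real.log_pos ((one_lt_div hr1).2 hr)
  rw [hc2] at hD1 hD4
  have hDK := CRU_arith3 hκ0 hκ36 hκL hlr.le hl hD1
  have h1 : (16 * Real.pi / 3) * D ≤ (16 * Real.pi / 3) * (K + 1) :=
    mul_le_mul_of_nonneg_left hDK (by positivity)
  have h2 : (8 * Real.pi * ((2 : ℕ) : ℝ) / 3) * D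
        - (4 * Real.pi / 3) * (((2 : ℕ) : ℝ) - 2) * Real.log (r2 / r1) + C * ((2 : ℕ) : ℝ) * τH =
      (16 * Real.pi / 3) * D + 2 * (C * τH) := by
    push_cast
    ring
  rw [h2] at hD4
  linarith

end Pool.Flat
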