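import Pool.Agent.Work.MP_680515_fl.Iface2

/-! # Block CTM: the cut-off function (MP_680515_an, helper95) -/

open MeasureTheory Set Filter Topology

namespace Pool.Flat

theorem p_CTM : Stmt_CTM := by
  intro η h0 h1
  let f : ContDiffBump (0 : ℝ) :=
    { rIn := 1 - η
      rOut := 1 - η / 2
      rIn_pos := by linarith
      rIn_lt_rOut := by linarith }
  have hcd : ContDiff ℝ 2 (fun u => f u) := f.contDiff
  have hts : tsupport (fun u => f u) = Metric.closedBall (0 : ℝ) (1 - η / 2) := f.tsupport_eq
  have hout : ∀ u : ℝ, 1 - η / 2 ≤ |u| → f u = 0 := by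
    intro u hu
    apply f.zero_of_le_dist
    rw [Real.dist_eq, sub_zero]
    exact hu
  have hin : ∀ u : ℝ, |u| ≤ 1 - η → f u = 1 := by
    intro u hu
    apply f.one_of_mem_closedBall
    rw [Metric.mem_closedBall, Real.dist_eq, sub_zero]
    exact hu
  have hint : ∀ a b : ℝ, ∫ u in a..b, deriv (fun u => f u) u = f b - f a := by
    intro a b
    refine intervalIntegral.integral_deriv_eq_sub ?_ ?_
    · intro x _
      exact (hcd.differentiable (by norm_num)).differentiableAt
    · exact (hcd.continuous_deriv (by norm_num)).intervalIntegrable _ _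
  refine ⟨fun u => f u, hcd, f.hasCompactSupport, ?_, ?_, hin, ?_, ?_, ?_⟩
  · rw [hts, Real.closedBall_eq_Icc]
    intro x hx
    rw [mem_Icc] at hx
    rw [mem_Ioo]
    constructor
    · linarith [hx.1]
    · linarith [hx.2]
  · intro u
    exact ⟨f.nonneg, f.le_one⟩
  · intro u hu
    have h2 : (fun u => f u) =ᶠ[𝓝 u] fun _ => (1 : ℝ) := by
      have h3 : {v : ℝ | |v| < 1 - η} ∈ 𝓝 u :=
        (isOpen_lt continuous_abs continuous_const).mem_nhds hu
      filter_upwards [h3] with v hv
      exact hin v (le_of_lt hv)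
    rw [h2.deriv_eq]
    exact deriv_const u 1
  · rw [hint, hout 1 (by rw [abs_one]; linarith), hin 0 (by rw [abs_zero]; linarith)]
    norm_num
  · rw [hint, hout (-1) (by rw [abs_neg, abs_one]; linarith), hin 0 (by rw [abs_zero]; linarith)]
    norm_num

end Pool.Flat
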