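import Pool.Agent.Work.MP_680515_fl.Iface2

/-!
Block CV1: the flux integral.
-/

set_option autoImplicit false

open MeasureTheory Set Filter Topology

namespace Pool.Flat

open Pool.Mart

theorem CV1_mU (a b : E3) : Measurable (UU a b) := by
  unfold UU dn
  fun_prop

theorem CV1_mq (a b : E3) : Measurable (q2 a b) := by
  unfold q2 dn
  fun_prop

theorem CV1_q_nonneg (a b y : E3) (ha : ‖a‖ = 1) (hb : ‖b‖ = 1) : 0 ≤ q2 a b y := by
  unfold q2
  have h : inner ℝ a b ≤ 1 := by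
    have := real_inner_le_norm a b
    rwa [ha, hb, mul_one] at this
  have h2 : 0 ≤ 2 * (1 - inner ℝ a b) := by linarith
  exact div_nonneg h2 (sq_nonneg _)

theorem CV1_sph_norm (t u θ : ℝ) (ht : 0 < t) (hu : u ∈ Ioo (-1 : ℝ) 1) : ‖sph t u θ‖ = t := by
  have hu2 : 0 ≤ 1 - u ^ 2 := by nlinarith [hu.1, hu.2]
  rw [EuclideanSpace.norm_eq, Fin.sum_univ_three]
  have h1 : ‖sph t u θ 0‖ ^ 2 = t ^ 2 * (1 - u ^ 2) * Real.cos θ ^ 2 := by
    simp only [sph, Real.norm_eq_abs, sq_abs, Matrix.cons_val_zero]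
    rw [mul_pow, mul_pow, Real.sq_sqrt hu2]
  have h2 : ‖sph t u θ 1‖ ^ 2 = t ^ 2 * (1 - u ^ 2) * Real.sin θ ^ 2 := by
    simp only [sph, Real.norm_eq_abs, sq_abs, Matrix.cons_val_one, Matrix.cons_val_zero]
    rw [mul_pow, mul_pow, Real.sq_sqrt hu2]
  have h3 : ‖sph t u θ 2‖ ^ 2 = t ^ 2 * u ^ 2 := by
    simp only [sph, Real.norm_eq_abs, sq_abs, Matrix.cons_val]
    rw [mul_pow]
  rw [h1, h2, h3]
  have h4 : t ^ 2 * (1 - u ^ 2) * Real.cos θ ^ 2 + t ^ 2 * (1 - u ^ 2) * Real.sin θ ^ 2 + t ^ 2 * u ^ 2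
      = t ^ 2 := by
    have := Real.sin_sq_add_cos_sq θ
    have h5 : t ^ 2 * (1 - u ^ 2) * Real.cos θ ^ 2 + t ^ 2 * (1 - u ^ 2) * Real.sin θ ^ 2
        = t ^ 2 * (1 - u ^ 2) * (Real.sin θ ^ 2 + Real.cos θ ^ 2) := by ring
    rw [h5, this]
    ring
  rw [h4, Real.sqrt_sq ht.le]

theorem CV1_sph_two (t u θ : ℝ) : sph t u θ 2 = t * u := by
  simp [sph]

/-- the values at the boosted point -/
theorem CV1_vals (hBS1 : Stmt_BS1) (hBS3 : Stmt_BS3) (v : ℝ) (hv0 : 0 ≤ v) (hv1 : v < 1) (y : E3)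
    (hy : y ≠ 0) : UU (av v (-1)) (av v 1) (bst v y) = y 2 / ‖y‖ ∧
      q2 (av v (-1)) (av v 1) (bst v y) / ‖bst v y‖ * mu v y ^ 2 = 1 / ‖y‖ ^ 3 := by
  have hv : |v| < 1 := by rw [abs_of_nonneg hv0]; exact hv1
  obtain ⟨h1, h2, -, h4, -⟩ := hBS1 v y hv hy
  obtain ⟨-, h5, h6⟩ := hBS3 v (-1) y hv0 hv1 (by norm_num) hy
  obtain ⟨-, h7, -⟩ := hBS3 v 1 y hv0 hv1 (by norm_num) hy
  have hE : 0 < ‖y‖ := norm_pos_iff.mpr hy
  have hs : 0 < 1 - v ^ 2 := by nlinarith
  set s := Real.sqrt (1 - v ^ 2) with hsdef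
  have hs0 : 0 < s := Real.sqrt_pos.mpr hs
  have hs2 : s ^ 2 = 1 - v ^ 2 := Real.sq_sqrt hs.le
  constructor
  · unfold UU
    rw [h5, h7]
    have e1 : mu v y * s * (‖y‖ - -1 * y 2) - mu v y * s * (‖y‖ - 1 * y 2) = mu v y * s * (2 * y 2) := by ring
    have e2 : mu v y * s * (‖y‖ - -1 * y 2) + mu v y * s * (‖y‖ - 1 * y 2) = mu v y * s * (2 * ‖y‖) := by ring
    rw [e1, e2, mul_div_mul_left _ _ (mul_pos h4 hs0).ne', mul_div_mul_left _ _ two_ne_zero]
  · unfold q2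
    rw [h5, h7, h6, h2]
    have e2 : mu v y * s * (‖y‖ - -1 * y 2) + mu v y * s * (‖y‖ - 1 * y 2) = mu v y * s * (2 * ‖y‖) := by ring
    rw [e2]
    have hm := h4.ne'
    have e3 : 2 * (1 - (2 * v ^ 2 - 1)) = 4 * s ^ 2 := by rw [hs2]; ring
    rw [e3]
    field_simp
    ring

/-- the image of the measure -/
theorem CV1_lint (hSPH : Stmt_SPH) (hBS1 : Stmt_BS1) (hBS2 : Stmt_BS2) (hBS3 : Stmt_BS3) (hISO : Stmt_ISO)
    (a b : E3) (ha : ‖a‖ = 1) (hb : ‖b‖ = 1) (hab : a ≠ b) (g : ℝ × ℝ → ENNReal) (hg : Measurable g) :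
    ∫⁻ y, ENNReal.ofReal (q2 a b y / ‖y‖) * g (‖y‖, UU a b y) =
      ENNReal.ofReal (2 * Real.pi) * ∫⁻ t in Ioi (0 : ℝ), ∫⁻ u in Ioo (-1 : ℝ) 1,
        ENNReal.ofReal (1 / t) * g (t, u) := by
  obtain ⟨v, R, hv0, hv1, -, -, hR⟩ := hISO a b ha hb hab
  have hv : |v| < 1 := by rw [abs_of_nonneg hv0]; exact hv1
  have hm : ∀ a b : E3, Measurable fun y : E3 => ENNReal.ofReal (q2 a b y / ‖y‖) * g (‖y‖, UU a b y) := by
    intro a b
    have h1 := CV1_mU a b
    have h2 := CV1_mq a b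
    have h3 : Measurable fun y : E3 => g (‖y‖, UU a b y) := hg.comp (measurable_norm.prodMk h1)
    exact ((h2.div measurable_norm).ennreal_ofReal).mul h3
  have step1 : ∫⁻ y, ENNReal.ofReal (q2 a b y / ‖y‖) * g (‖y‖, UU a b y) =
      ∫⁻ y, ENNReal.ofReal (q2 (av v (-1)) (av v 1) y / ‖y‖) * g (‖y‖, UU (av v (-1)) (av v 1) y) := by
    rw [← (R.measurePreserving).lintegral_comp (hm a b)]
    refine lintegral_congr fun y => ?_
    obtain ⟨h1, -, h3⟩ := hR y
    rw [h1, h3, R.norm_map]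
  have step2 : ∫⁻ y, ENNReal.ofReal (q2 (av v (-1)) (av v 1) y / ‖y‖) * g (‖y‖, UU (av v (-1)) (av v 1) y) =
      ∫⁻ y : E3, ENNReal.ofReal (1 / ‖y‖ ^ 3) * g (‖y‖, y 2 / ‖y‖) := by
    rw [hBS2 v _ hv (hm _ _)]
    refine lintegral_congr_ae ?_
    have hne : ∀ᵐ y : E3, y ≠ 0 := Measure.ae_ne volume 0
    filter_upwards [hne] with y hy
    obtain ⟨h1, h2⟩ := CV1_vals hBS1 hBS3 v hv0 hv1 y hy
    obtain ⟨-, h3, -⟩ := hBS1 v y hv hy
    rw [h1, mul_right_comm, ← ENNReal.ofReal_mul', h2, h3]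
    exact sq_nonneg _
  have hm2 : Measurable fun y : E3 => ENNReal.ofReal (1 / ‖y‖ ^ 3) * g (‖y‖, y 2 / ‖y‖) := by
    have h3 : Measurable fun y : E3 => g (‖y‖, y 2 / ‖y‖) := by
      refine hg.comp (measurable_norm.prodMk ?_)
      fun_prop
    refine Measurable.mul ?_ h3
    exact Measurable.ennreal_ofReal (by fun_prop)
  rw [step1, step2, hSPH _ hm2]
  have step3 : ∀ t ∈ Ioi (0 : ℝ), ∫⁻ u in Ioo (-1 : ℝ) 1, ∫⁻ θ in Ioo (0 : ℝ) (2 * Real.pi),
      ENNReal.ofReal (t ^ 2) * (ENNReal.ofReal (1 / ‖sph t u θ‖ ^ 3) * g (‖sph t u θ‖, sph t u θ 2 / ‖sph t u θ‖))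
      = ENNReal.ofReal (2 * Real.pi) * ∫⁻ u in Ioo (-1 : ℝ) 1, ENNReal.ofReal (1 / t) * g (t, u) := by
    intro t ht
    have ht' : 0 < t := ht
    rw [← lintegral_const_mul' _ _ ENNReal.ofReal_ne_top]
    refine setLIntegral_congr_fun measurableSet_Ioo fun u hu => ?_
    have h1 : ∀ θ : ℝ, ENNReal.ofReal (t ^ 2) * (ENNReal.ofReal (1 / ‖sph t u θ‖ ^ 3) *
        g (‖sph t u θ‖, sph t u θ 2 / ‖sph t u θ‖)) = ENNReal.ofReal (1 / t) * g (t, u) := by
      intro θ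
      have e1 : t ^ 2 * (1 / t ^ 3) = 1 / t := by field_simp
      rw [CV1_sph_norm t u θ ht' hu, CV1_sph_two, mul_div_cancel_left₀ _ ht'.ne', ← mul_assoc,
        ← ENNReal.ofReal_mul (sq_nonneg t), e1]
    simp only [h1]
    rw [setLIntegral_const, Real.volume_Ioo, sub_zero, mul_comm]
  rw [setLIntegral_congr_fun measurableSet_Ioi step3, lintegral_const_mul' _ _ ENNReal.ofReal_ne_top]

theorem CV1_meas (hSPH : Stmt_SPH) (hBS1 : Stmt_BS1) (hBS2 : Stmt_BS2) (hBS3 : Stmt_BS3) (hISO : Stmt_ISO)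
    (a b : E3) (ha : ‖a‖ = 1) (hb : ‖b‖ = 1) (hab : a ≠ b) :
    Measure.map (fun y : E3 => (‖y‖, UU a b y))
      (volume.withDensity fun y : E3 => ((Real.toNNReal (q2 a b y / ‖y‖) : NNReal) : ENNReal)) =
    ENNReal.ofReal (2 * Real.pi) • (((volume : Measure ℝ).restrict (Ioi 0)).withDensity
      fun t => ((Real.toNNReal (1 / t) : NNReal) : ENNReal)).prod ((volume : Measure ℝ).restrict (Ioo (-1) 1)) := by
  have hmap : Measurable fun y : E3 => (‖y‖, UU a b y) := measurable_norm.prodMk (CV1_mU a b)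
  have hw : Measurable fun y : E3 => ((Real.toNNReal (q2 a b y / ‖y‖) : NNReal) : ENNReal) :=
    (((CV1_mq a b).div measurable_norm).real_toNNReal).coe_nnreal_ennreal
  have hw2 : Measurable fun t : ℝ => ((Real.toNNReal (1 / t) : NNReal) : ENNReal) := by
    refine Measurable.coe_nnreal_ennreal (Measurable.real_toNNReal ?_)
    fun_prop
  refine Measure.ext fun s hs => ?_
  have hgm : Measurable (s.indicator (1 : ℝ × ℝ → ENNReal)) := measurable_one.indicator hs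
  rw [← lintegral_indicator_one hs, ← lintegral_indicator_one hs, lintegral_map hgm hmap,
    lintegral_smul_measure, lintegral_prod _ hgm.aemeasurable]
  have e1 := lintegral_withDensity_eq_lintegral_mul (volume : Measure E3) hw (hgm.comp hmap)
  have e2 := lintegral_withDensity_eq_lintegral_mul ((volume : Measure ℝ).restrict (Ioi (0 : ℝ))) hw2
    (hgm.lintegral_prod_right' (ν := (volume : Measure ℝ).restrict (Ioo (-1) 1)))
  refine e1.trans ?_
  refine Eq.trans ?_ (congrArg (fun x => ENNReal.ofReal (2 * Real.pi) • x) e2).symm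
  have h := CV1_lint hSPH hBS1 hBS2 hBS3 hISO a b ha hb hab _ hgm
  refine h.trans ?_
  change _ = ENNReal.ofReal (2 * Real.pi) * _
  congr 1
  refine lintegral_congr fun t => ?_
  rw [lintegral_const_mul' _ _ ENNReal.ofReal_ne_top]
  rfl

theorem p_CV1 (hSPH : Stmt_SPH) (hBS1 : Stmt_BS1) (hBS2 : Stmt_BS2) (hBS3 : Stmt_BS3) (hISO : Stmt_ISO) :
    Stmt_CV1 := by
  intro a b κ ℓ ha hb hab hκ hκc hκs hℓ
  have hM := CV1_meas hSPH hBS1 hBS2 hBS3 hISO a b ha hb hab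
  set ν : Measure ℝ := ((volume : Measure ℝ).restrict (Ioi 0)).withDensity
      fun t => ((Real.toNNReal (1 / t) : NNReal) : ENNReal) with hν
  set lam : Measure ℝ := (volume : Measure ℝ).restrict (Ioo (-1) 1) with hlam
  have hw : Measurable fun y : E3 => Real.toNNReal (q2 a b y / ‖y‖) :=
    ((CV1_mq a b).div measurable_norm).real_toNNReal
  have hw2 : Measurable fun t : ℝ => Real.toNNReal (1 / t) := by
    refine Measurable.real_toNNReal ?_
    fun_prop
  have hmap : Measurable fun y : E3 => (‖y‖, UU a b y) := measurable_norm.prodMk (CV1_mU a b)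
  have hκ0 : ∀ t, t ∉ Ioi (0 : ℝ) → κ t = 0 := by
    intro t ht
    by_contra hne
    exact ht (hκs (subset_tsupport κ hne))
  -- integrability on the line
  have hK : Integrable (fun t => κ t / t) := by
    have h1 : IntegrableOn (fun t => κ t / t) (tsupport κ) := by
      refine ContinuousOn.integrableOn_compact hκc ?_
      refine hκ.continuousOn.div continuousOn_id ?_
      intro t ht
      exact ne_of_gt (hκs ht)
    rw [integrableOn_iff_integrable_of_support_subset] at h1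
    · exact h1
    · intro t ht
      refine subset_tsupport κ ?_
      intro h0
      apply ht
      change κ t / t = 0
      rw [h0, zero_div]
  have hsm : ∀ t ∈ Ioi (0 : ℝ), Real.toNNReal (1 / t) • κ t = κ t / t := by
    intro t ht
    have ht' : 0 < t := ht
    rw [NNReal.smul_def, Real.coe_toNNReal _ (by positivity), smul_eq_mul]
    ring
  have hIκ : Integrable κ ν := by
    rw [hν, integrable_withDensity_iff_integrable_smul hw2]
    refine (hK.restrict (s := Ioi 0)).congr ?_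
    filter_upwards [ae_restrict_mem measurableSet_Ioi] with t ht
    exact (hsm t ht).symm
  have hIκ2 : ∫ t, κ t ∂ν = ∫ s, κ s / s := by
    rw [hν, integral_withDensity_eq_integral_smul hw2, setIntegral_congr_fun measurableSet_Ioi hsm]
    refine setIntegral_eq_integral_of_forall_compl_eq_zero ?_
    intro t ht
    rw [hκ0 t ht, zero_div]
  have hIℓ : Integrable ℓ lam := by
    have h1 : IntegrableOn ℓ (Icc (-1) 1) := hℓ.continuousOn.integrableOn_compact isCompact_Icc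
    exact h1.mono_set Ioo_subset_Icc_self
  have hIℓ2 : ∫ u, ℓ u ∂lam = ∫ u in (-1 : ℝ)..1, ℓ u := by
    rw [intervalIntegral.integral_of_le (by norm_num), integral_Ioc_eq_integral_Ioo]
  -- the product
  have hP : Integrable (fun z : ℝ × ℝ => κ z.1 * ℓ z.2) (ENNReal.ofReal (2 * Real.pi) • ν.prod lam) :=
    (hIκ.mul_prod hIℓ).smul_measure ENNReal.ofReal_ne_top
  have hPi : ∫ z : ℝ × ℝ, κ z.1 * ℓ z.2 ∂(ENNReal.ofReal (2 * Real.pi) • ν.prod lam) =
      2 * Real.pi * (∫ s, κ s / s) * ∫ u in (-1 : ℝ)..1, ℓ u := by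
    rw [integral_smul_measure, integral_prod_mul, hIκ2, hIℓ2, ENNReal.toReal_ofReal (by positivity),
      smul_eq_mul]
    ring
  have hF : Continuous fun z : ℝ × ℝ => κ z.1 * ℓ z.2 :=
    (hκ.comp continuous_fst).mul (hℓ.comp continuous_snd)
  rw [← hM] at hP hPi
  have heq : ∀ y : E3, Real.toNNReal (q2 a b y / ‖y‖) • (κ ‖y‖ * ℓ (UU a b y)) =
      κ ‖y‖ * ℓ (UU a b y) * q2 a b y / ‖y‖ := by
    intro y
    rw [NNReal.smul_def, Real.coe_toNNReal _ (div_nonneg (CV1_q_nonneg a b y ha hb) (norm_nonneg _)),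
      smul_eq_mul]
    ring
  rw [integrable_map_measure hF.aestronglyMeasurable hmap.aemeasurable,
    integrable_withDensity_iff_integrable_smul hw] at hP
  rw [integral_map hmap.aemeasurable hF.aestronglyMeasurable,
    integral_withDensity_eq_integral_smul hw] at hPi
  simp only [Function.comp_def, heq] at hP hPi
  exact ⟨hP, hPi⟩

end Pool.Flat
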