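import Pool.Agent.Work.MP_680515_fl.Iface2

/-!
# MP_680515_fl, block CV2: the energy integral
-/

open MeasureTheory Set Filter Topology

namespace Pool.Flat

open Pool.Mart

theorem CV2_normsq (y : E3) : ‖y‖ ^ 2 = y 0 ^ 2 + y 1 ^ 2 + y 2 ^ 2 := by
  rw [EuclideanSpace.norm_sq_eq, Fin.sum_univ_three]
  simp only [Real.norm_eq_abs, sq_abs]

theorem CV2_abs2 (y : E3) : |y 2| ≤ ‖y‖ := by
  apply abs_le_of_sq_le_sq _ (norm_nonneg y)
  rw [CV2_normsq]
  nlinarith [sq_nonneg (y 0), sq_nonneg (y 1)]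

theorem CV2_sph_norm (t u θ : ℝ) (ht : 0 < t) (hu : u ∈ Ioo (-1 : ℝ) 1) : ‖sph t u θ‖ = t := by
  have h1 : 0 ≤ 1 - u ^ 2 := by nlinarith [hu.1, hu.2]
  have h2 : ‖sph t u θ‖ ^ 2 = t ^ 2 := by
    rw [CV2_normsq]
    have e0 : sph t u θ 0 = t * Real.sqrt (1 - u ^ 2) * Real.cos θ := rfl
    have e1 : sph t u θ 1 = t * Real.sqrt (1 - u ^ 2) * Real.sin θ := rfl
    have e2 : sph t u θ 2 = t * u := rfl
    rw [e0, e1, e2]
    have h3 := Real.sq_sqrt h1
    have h4 := Real.sin_sq_add_cos_sq θ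
    calc (t * Real.sqrt (1 - u ^ 2) * Real.cos θ) ^ 2 + (t * Real.sqrt (1 - u ^ 2) * Real.sin θ) ^ 2
          + (t * u) ^ 2
        = t ^ 2 * (Real.sqrt (1 - u ^ 2) ^ 2 * (Real.sin θ ^ 2 + Real.cos θ ^ 2) + u ^ 2) := by ring
      _ = t ^ 2 := by rw [h3, h4]; ring
  exact (sq_eq_sq₀ (norm_nonneg _) ht.le).mp h2

theorem CV2_mu_meas (v : ℝ) : Measurable (mu v) := by
  unfold mu
  have h0 : Measurable fun y : E3 => y 0 :=
    (EuclideanSpace.proj (𝕜 := ℝ) (0 : Fin 3)).continuous.measurable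
  exact (measurable_norm.const_mul _).div (measurable_norm.add (h0.const_mul v))

/-- The integrand after the boost. -/
noncomputable def CV2_G (v : ℝ) (κ : ℝ → ℝ) (y : E3) : ENNReal :=
  ENNReal.ofReal (κ ‖y‖ * (‖y‖ ^ (-(3 / 2) : ℝ) *
    (1 / (mu v y ^ 2 * (‖y‖ ^ 2 - y 2 ^ 2))) ^ (3 / 4 : ℝ)) * mu v y ^ 2)

theorem CV2_G_meas (v : ℝ) (κ : ℝ → ℝ) (hκ : Measurable κ) : Measurable (CV2_G v κ) := by
  unfold CV2_G
  have h2 : Measurable fun y : E3 => y 2 :=
    (EuclideanSpace.proj (𝕜 := ℝ) (2 : Fin 3)).continuous.measurable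
  have hm := CV2_mu_meas v
  refine ENNReal.measurable_ofReal.comp ?_
  refine Measurable.mul (Measurable.mul (hκ.comp measurable_norm) ?_) (hm.pow_const 2)
  refine Measurable.mul (measurable_norm.pow_const _) ?_
  refine Measurable.pow_const ?_ _
  exact measurable_const.div ((hm.pow_const 2).mul ((measurable_norm.pow_const 2).sub
    (h2.pow_const 2)))

theorem CV2_wt_meas (a b : E3) : Measurable (wt a b) := by
  have hd : ∀ a : E3, Measurable (dn a) := by
    intro a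
    unfold dn
    exact measurable_norm.sub ((continuous_id.inner continuous_const).measurable)
  unfold wt sq2
  refine Measurable.mul (measurable_norm.pow_const _) ?_
  refine Measurable.pow_const ?_ _
  exact measurable_const.div (((hd a).const_mul 2).mul (hd b))

/-- The inner integral. -/
theorem CV2_inner (hPOI : Stmt_POI) (v w : ℝ) (hv0 : 0 ≤ v) (hv1 : v < 1) (hw0 : 0 ≤ w)
    (hw1 : w ≤ 1) :
    ∫⁻ θ in Ioo (0 : ℝ) (2 * Real.pi),
      ENNReal.ofReal (Real.sqrt (Real.sqrt (1 - v ^ 2) / (1 + v * w * Real.cos θ))) ≤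
      ENNReal.ofReal (2 * Real.pi) := by
  set q := v * w with hq
  have hq0 : 0 ≤ q := mul_nonneg hv0 hw0
  have hqv : q ≤ v := by
    have := mul_le_mul_of_nonneg_left hw1 hv0
    rwa [mul_one] at this
  have hq1 : q < 1 := lt_of_le_of_lt hqv hv1
  have hpos : ∀ θ : ℝ, 0 < 1 + q * Real.cos θ := by
    intro θ
    have h1 := Real.neg_one_le_cos θ
    have h2 : q * (-1) ≤ q * Real.cos θ := mul_le_mul_of_nonneg_left h1 hq0
    linarith
  have hP := hPOI q hq0 hq1
  have hcont : Continuous fun θ : ℝ => Real.sqrt (1 - q ^ 2) / (1 + q * Real.cos θ) := by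
    refine continuous_const.div (by fun_prop) fun θ => (hpos θ).ne'
  have hpi : (0 : ℝ) ≤ 2 * Real.pi := by positivity
  have hbound : ∀ θ : ℝ, Real.sqrt (Real.sqrt (1 - v ^ 2) / (1 + q * Real.cos θ)) ≤
      (1 + Real.sqrt (1 - q ^ 2) / (1 + q * Real.cos θ)) / 2 := by
    intro θ
    set m := Real.sqrt (1 - v ^ 2) / (1 + q * Real.cos θ) with hm
    have hm0 : 0 ≤ m := div_nonneg (Real.sqrt_nonneg _) (hpos θ).le
    have h1 : m ≤ Real.sqrt (1 - q ^ 2) / (1 + q * Real.cos θ) := by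
      apply div_le_div_of_nonneg_right _ (hpos θ).le
      apply Real.sqrt_le_sqrt
      nlinarith
    have h2 : Real.sqrt m ≤ (1 + m) / 2 := by
      have h3 := Real.sq_sqrt hm0
      nlinarith [sq_nonneg (Real.sqrt m - 1)]
    linarith
  calc ∫⁻ θ in Ioo (0 : ℝ) (2 * Real.pi),
        ENNReal.ofReal (Real.sqrt (Real.sqrt (1 - v ^ 2) / (1 + q * Real.cos θ)))
      ≤ ∫⁻ θ in Ioo (0 : ℝ) (2 * Real.pi),
        ENNReal.ofReal ((1 + Real.sqrt (1 - q ^ 2) / (1 + q * Real.cos θ)) / 2) :=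
        lintegral_mono fun θ => ENNReal.ofReal_le_ofReal (hbound θ)
    _ = ENNReal.ofReal (∫ θ in Ioo (0 : ℝ) (2 * Real.pi),
        (1 + Real.sqrt (1 - q ^ 2) / (1 + q * Real.cos θ)) / 2) := by
        rw [ofReal_integral_eq_lintegral_ofReal]
        · have hc : Continuous fun θ : ℝ =>
              (1 + Real.sqrt (1 - q ^ 2) / (1 + q * Real.cos θ)) / 2 :=
            (continuous_const.add hcont).div_const 2
          exact (hc.integrableOn_Icc (a := 0) (b := 2 * Real.pi)).mono_set Ioo_subset_Icc_self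
        · refine Eventually.of_forall fun θ => ?_
          have := div_nonneg (Real.sqrt_nonneg (1 - q ^ 2)) (hpos θ).le
          simp only [Pi.zero_apply]
          positivity
    _ = ENNReal.ofReal (2 * Real.pi) := by
        congr 1
        rw [← integral_Ioc_eq_integral_Ioo, ← intervalIntegral.integral_of_le hpi,
          intervalIntegral.integral_div, intervalIntegral.integral_add
            (intervalIntegrable_const) (hcont.intervalIntegrable _ _), hP,
          intervalIntegral.integral_const]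
        simp only [sub_zero, smul_eq_mul, mul_one]
        ring

/-- The integrand in spherical coordinates. -/
theorem CV2_point (v : ℝ) (κ : ℝ → ℝ) (hv0 : 0 ≤ v) (hv1 : v < 1) (hκ : ∀ s, 0 ≤ κ s)
    (t u θ : ℝ) (ht : 0 < t) (hu : u ∈ Ioo (-1 : ℝ) 1) :
    ENNReal.ofReal (t ^ 2) * CV2_G v κ (sph t u θ) =
      ENNReal.ofReal (κ t / t) * (ENNReal.ofReal ((1 - u ^ 2) ^ (-(3 / 4) : ℝ)) *
        ENNReal.ofReal (Real.sqrt (Real.sqrt (1 - v ^ 2) /
          (1 + v * Real.sqrt (1 - u ^ 2) * Real.cos θ)))) := by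
  have h1 : 0 < 1 - u ^ 2 := by nlinarith [hu.1, hu.2]
  set w := Real.sqrt (1 - u ^ 2) with hw
  have hw0 : 0 ≤ w := Real.sqrt_nonneg _
  have hw1 : w ≤ 1 := by
    rw [hw]
    apply Real.sqrt_le_one.mpr
    nlinarith [sq_nonneg u]
  have hq0 : 0 ≤ v * w := mul_nonneg hv0 hw0
  have hq1 : v * w < 1 := by
    have := mul_le_mul_of_nonneg_left hw1 hv0
    rw [mul_one] at this
    linarith
  have hpos : 0 < 1 + v * w * Real.cos θ := by
    have h2 : v * w * (-1) ≤ v * w * Real.cos θ :=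
      mul_le_mul_of_nonneg_left (Real.neg_one_le_cos θ) hq0
    linarith
  have hs : 0 < Real.sqrt (1 - v ^ 2) := by
    apply Real.sqrt_pos.mpr
    nlinarith
  set m := Real.sqrt (1 - v ^ 2) / (1 + v * w * Real.cos θ) with hm
  have hm0 : 0 < m := div_pos hs hpos
  have hn := CV2_sph_norm t u θ ht hu
  have hmu : mu v (sph t u θ) = m := by
    unfold mu
    rw [hn]
    have e0 : sph t u θ 0 = t * w * Real.cos θ := rfl
    rw [e0, hm]
    have h3 : t + v * (t * w * Real.cos θ) = t * (1 + v * w * Real.cos θ) := by ring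
    rw [h3]
    field_simp
  have e2 : sph t u θ 2 = t * u := rfl
  unfold CV2_G
  rw [hn, hmu, e2, ← ENNReal.ofReal_mul (by positivity),
    ← ENNReal.ofReal_mul (by positivity), ← ENNReal.ofReal_mul (div_nonneg (hκ t) ht.le)]
  congr 1
  have h4 : t ^ 2 - (t * u) ^ 2 = t ^ 2 * (1 - u ^ 2) := by ring
  rw [h4]
  have h5 : (1 / (m ^ 2 * (t ^ 2 * (1 - u ^ 2)))) ^ (3 / 4 : ℝ) =
      m ^ (-(3 / 2) : ℝ) * t ^ (-(3 / 2) : ℝ) * (1 - u ^ 2) ^ (-(3 / 4) : ℝ) := by
    rw [one_div, Real.inv_rpow (by positivity), ← Real.rpow_neg (by positivity),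
      Real.mul_rpow (by positivity) (by positivity), Real.mul_rpow (by positivity) (by positivity),
      ← Real.rpow_natCast m 2, ← Real.rpow_natCast t 2, ← Real.rpow_mul hm0.le,
      ← Real.rpow_mul ht.le, mul_assoc]
    norm_num
  rw [h5]
  have h6 : m ^ (-(3 / 2) : ℝ) * m ^ 2 = Real.sqrt m := by
    rw [← Real.rpow_natCast m 2, ← Real.rpow_add hm0, Real.sqrt_eq_rpow]
    norm_num
  have h7 : t ^ (-(3 / 2) : ℝ) * t ^ (-(3 / 2) : ℝ) * t ^ 2 = t⁻¹ := by
    rw [← Real.rpow_natCast t 2, ← Real.rpow_add ht, ← Real.rpow_add ht,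
      ← Real.rpow_neg_one]
    norm_num
  calc t ^ 2 * (κ t * (t ^ (-(3 / 2) : ℝ) * (m ^ (-(3 / 2) : ℝ) * t ^ (-(3 / 2) : ℝ) *
        (1 - u ^ 2) ^ (-(3 / 4) : ℝ))) * m ^ 2)
      = κ t * (t ^ (-(3 / 2) : ℝ) * t ^ (-(3 / 2) : ℝ) * t ^ 2) *
        ((1 - u ^ 2) ^ (-(3 / 4) : ℝ) * (m ^ (-(3 / 2) : ℝ) * m ^ 2)) := by ring
    _ = κ t / t * ((1 - u ^ 2) ^ (-(3 / 4) : ℝ) * Real.sqrt m) := by
        rw [h6, h7]
        ring

theorem p_CV2 (hSPH : Stmt_SPH) (hPOI : Stmt_POI) (hI0X : Stmt_I0X) (hBS1 : Stmt_BS1)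
    (hBS2 : Stmt_BS2) (hBS3 : Stmt_BS3) (hISO : Stmt_ISO) : Stmt_CV2 := by
  intro a b κ r1 r2 C ha hb hab hκm hr1 hκ hκs
  obtain ⟨v, R, hv0, hv1, hRa, hRb, hR⟩ := hISO a b ha hb hab
  have hav : |v| < 1 := by rw [abs_of_nonneg hv0]; exact hv1
  have hs2 : Real.sqrt (1 - v ^ 2) ^ 2 = 1 - v ^ 2 := Real.sq_sqrt (by nlinarith)
  have hs : 0 < Real.sqrt (1 - v ^ 2) := Real.sqrt_pos.mpr (by nlinarith)
  -- the function on the line
  have hint : Integrable (fun s => κ s / s) := by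
    have hb : ∀ s, ‖κ s / s‖ ≤ (Icc r1 r2).indicator (fun _ => C / r1) s := by
      intro s
      by_cases h : κ s = 0
      · rw [h, zero_div, norm_zero]
        apply indicator_nonneg
        intro x _
        exact div_nonneg ((hκ 0).1.trans (hκ 0).2) hr1.le
      · have hsI := hκs s h
        rw [indicator_of_mem hsI, Real.norm_eq_abs, abs_of_nonneg (div_nonneg (hκ s).1
          (hr1.le.trans hsI.1))]
        exact div_le_div₀ ((hκ 0).1.trans (hκ 0).2) (hκ s).2 hr1 hsI.1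
    refine Integrable.mono' (g := (Icc r1 r2).indicator (fun _ => C / r1)) ?_ ?_
      (Eventually.of_forall hb)
    · rw [integrable_indicator_iff measurableSet_Icc]
      exact integrableOn_const (by simp) (by simp)
    · exact (hκm.div measurable_id).aestronglyMeasurable
  have hnn : ∀ s, 0 ≤ κ s / s := by
    intro s
    by_cases h : κ s = 0
    · rw [h, zero_div]
    · exact div_nonneg (hκ s).1 (hr1.le.trans (hκs s h).1)
  have hwt0 : ∀ y, 0 ≤ wt a b y := by
    intro y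
    unfold wt
    refine mul_nonneg (Real.rpow_nonneg (norm_nonneg _) _) (Real.rpow_nonneg ?_ _)
    unfold sq2 dn
    have h1 : inner ℝ a b ≤ 1 := by
      have := real_inner_le_norm a b
      rwa [ha, hb, one_mul] at this
    have h2 : inner ℝ y a ≤ ‖y‖ := by
      have := real_inner_le_norm y a
      rwa [ha, mul_one] at this
    have h3 : inner ℝ y b ≤ ‖y‖ := by
      have := real_inner_le_norm y b
      rwa [hb, mul_one] at this
    apply div_nonneg (by linarith)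
    exact mul_nonneg (mul_nonneg (by norm_num) (by linarith)) (by linarith)
  have hfm : Measurable (fun y => κ ‖y‖ * wt a b y) :=
    (hκm.comp measurable_norm).mul (CV2_wt_meas a b)
  have hfm' : Measurable (fun y => κ ‖y‖ * wt (av v (-1)) (av v 1) y) :=
    (hκm.comp measurable_norm).mul (CV2_wt_meas _ _)
  have hf0 : ∀ y, 0 ≤ κ ‖y‖ * wt a b y := fun y => mul_nonneg (hκ _).1 (hwt0 y)
  -- the main bound
  have hmain : ∫⁻ y, ENNReal.ofReal (κ ‖y‖ * wt a b y) ≤
      ENNReal.ofReal (2 * Real.pi * I0 * ∫ s, κ s / s) := by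
    have e1 : ∫⁻ y, ENNReal.ofReal (κ ‖y‖ * wt a b y) =
        ∫⁻ y, ENNReal.ofReal (κ ‖y‖ * wt (av v (-1)) (av v 1) y) := by
      rw [← (R.measurePreserving).lintegral_comp
        (f := fun y => ENNReal.ofReal (κ ‖y‖ * wt a b y)) (ENNReal.measurable_ofReal.comp hfm)]
      refine lintegral_congr fun y => ?_
      rw [R.norm_map]
      unfold wt
      rw [R.norm_map, (hR y).2.1]
    have e2 : ∫⁻ y, ENNReal.ofReal (κ ‖y‖ * wt (av v (-1)) (av v 1) y) =
        ∫⁻ y, CV2_G v κ y := by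
      rw [hBS2 v (fun y => ENNReal.ofReal (κ ‖y‖ * wt (av v (-1)) (av v 1) y)) hav
        (ENNReal.measurable_ofReal.comp hfm')]
      have hne : ∀ᵐ y : E3, y ≠ 0 := by
        have : (volume : Measure E3) {0} = 0 := measure_singleton 0
        exact compl_mem_ae_iff.mpr this
      refine lintegral_congr_ae (hne.mono fun y hy => ?_)
      obtain ⟨-, hb2, -, hb4, -⟩ := hBS1 v y hav hy
      obtain ⟨-, hc1, hc2⟩ := hBS3 v 1 y hv0 hv1 (by norm_num) hy
      obtain ⟨-, hd1, -⟩ := hBS3 v (-1) y hv0 hv1 (by norm_num) hy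
      have hE := CV2_abs2 y
      have hE2 : 0 ≤ ‖y‖ ^ 2 - y 2 ^ 2 := by
        have := sq_le_sq' (abs_le.mp hE).1 (abs_le.mp hE).2
        linarith
      have hsq : sq2 (av v (-1)) (av v 1) (bst v y) =
          1 / (mu v y ^ 2 * (‖y‖ ^ 2 - y 2 ^ 2)) := by
        unfold sq2
        rw [hc1, hd1, hc2]
        have h1 : 2 * (mu v y * Real.sqrt (1 - v ^ 2) * (‖y‖ - -1 * y 2)) *
            (mu v y * Real.sqrt (1 - v ^ 2) * (‖y‖ - 1 * y 2)) =
            (2 * (1 - v ^ 2)) * (mu v y ^ 2 * (‖y‖ ^ 2 - y 2 ^ 2)) := by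
          calc 2 * (mu v y * Real.sqrt (1 - v ^ 2) * (‖y‖ - -1 * y 2)) *
              (mu v y * Real.sqrt (1 - v ^ 2) * (‖y‖ - 1 * y 2))
              = (2 * Real.sqrt (1 - v ^ 2) ^ 2) * (mu v y ^ 2 * (‖y‖ ^ 2 - y 2 ^ 2)) := by ring
            _ = (2 * (1 - v ^ 2)) * (mu v y ^ 2 * (‖y‖ ^ 2 - y 2 ^ 2)) := by rw [hs2]
        have h2 : 1 - (2 * v ^ 2 - 1) = 2 * (1 - v ^ 2) := by ring
        have h3 : 2 * (1 - v ^ 2) ≠ 0 := by
          have : 0 < 1 - v ^ 2 := by nlinarith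
          positivity
        rw [h1, h2, div_mul_eq_div_div, div_self h3]
      simp only
      unfold wt CV2_G
      rw [hb2, hsq, ← ENNReal.ofReal_mul]
      exact mul_nonneg (hκ _).1 (mul_nonneg (Real.rpow_nonneg (norm_nonneg _) _)
        (Real.rpow_nonneg (div_nonneg zero_le_one (mul_nonneg (sq_nonneg _) hE2)) _))
    rw [e1, e2, hSPH (CV2_G v κ) (CV2_G_meas v κ hκm)]
    have hI := hI0X
    obtain ⟨hI1, hI2, hI3⟩ := hI
    have hI0 : ENNReal.ofReal I0 =
        ∫⁻ u in Ioo (-1 : ℝ) 1, ENNReal.ofReal ((1 - u ^ 2) ^ (-(3 / 4) : ℝ)) := by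
      rw [hI3]
      refine ofReal_integral_eq_lintegral_ofReal hI1 ?_
      refine (ae_restrict_mem measurableSet_Ioo).mono fun u hu => ?_
      exact Real.rpow_nonneg (by nlinarith [hu.1, hu.2]) _
    have e3 : ∀ t ∈ Ioi (0 : ℝ), (∫⁻ u in Ioo (-1 : ℝ) 1, ∫⁻ θ in Ioo (0 : ℝ) (2 * Real.pi),
        ENNReal.ofReal (t ^ 2) * CV2_G v κ (sph t u θ)) ≤
        ENNReal.ofReal (κ t / t) * (ENNReal.ofReal I0 * ENNReal.ofReal (2 * Real.pi)) := by
      intro t ht
      rw [hI0, ← lintegral_mul_const' _ _ ENNReal.ofReal_ne_top,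
        ← lintegral_const_mul' _ _ ENNReal.ofReal_ne_top]
      refine setLIntegral_mono' measurableSet_Ioo fun u hu => ?_
      have h1 : ∀ θ : ℝ, ENNReal.ofReal (t ^ 2) * CV2_G v κ (sph t u θ) = _ := fun θ =>
        CV2_point v κ hv0 hv1 (fun s => (hκ s).1) t u θ ht hu
      simp only [h1]
      rw [lintegral_const_mul' _ _ ENNReal.ofReal_ne_top,
        lintegral_const_mul' _ _ ENNReal.ofReal_ne_top]
      gcongr
      refine CV2_inner hPOI v _ hv0 hv1 (Real.sqrt_nonneg _) ?_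
      apply Real.sqrt_le_one.mpr
      nlinarith [sq_nonneg u]
    calc ∫⁻ t in Ioi (0 : ℝ), ∫⁻ u in Ioo (-1 : ℝ) 1, ∫⁻ θ in Ioo (0 : ℝ) (2 * Real.pi),
          ENNReal.ofReal (t ^ 2) * CV2_G v κ (sph t u θ)
        ≤ ∫⁻ t in Ioi (0 : ℝ), ENNReal.ofReal (κ t / t) *
          (ENNReal.ofReal I0 * ENNReal.ofReal (2 * Real.pi)) :=
          setLIntegral_mono' measurableSet_Ioi e3
      _ = (∫⁻ t in Ioi (0 : ℝ), ENNReal.ofReal (κ t / t)) *
          (ENNReal.ofReal I0 * ENNReal.ofReal (2 * Real.pi)) :=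
          lintegral_mul_const' _ _ (ENNReal.mul_ne_top ENNReal.ofReal_ne_top
            ENNReal.ofReal_ne_top)
      _ ≤ (∫⁻ t, ENNReal.ofReal (κ t / t)) *
          (ENNReal.ofReal I0 * ENNReal.ofReal (2 * Real.pi)) := by
          gcongr
          exact Measure.restrict_le_self
      _ = ENNReal.ofReal (2 * Real.pi * I0 * ∫ s, κ s / s) := by
          rw [← ofReal_integral_eq_lintegral_ofReal hint (Eventually.of_forall hnn),
            ← ENNReal.ofReal_mul hI2.le, ← ENNReal.ofReal_mul (integral_nonneg hnn)]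
          congr 1
          ring
  have hfi : Integrable (fun y => κ ‖y‖ * wt a b y) := by
    refine ⟨hfm.aestronglyMeasurable, ?_⟩
    rw [hasFiniteIntegral_iff_ofReal (Eventually.of_forall hf0)]
    exact lt_of_le_of_lt hmain ENNReal.ofReal_lt_top
  refine ⟨hfi, ?_⟩
  have h1 := ofReal_integral_eq_lintegral_ofReal hfi (Eventually.of_forall hf0)
  rw [← h1] at hmain
  refine (ENNReal.ofReal_le_ofReal_iff ?_).mp hmain
  exact mul_nonneg (mul_nonneg (by positivity) hI0X.2.1.le) (integral_nonneg hnn)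

end Pool.Flat
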