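import Pool.Agent.Work.MP_680515_fl.Iface1

/-!
# MP_680515_an, THEOREM FB: block SINT (the degree of a smooth map is an integer)
-/

open MeasureTheory Set Filter Topology

namespace Pool.Flat

open Pool.Mart

theorem SINT_det (g : E3 → E3) (x : E3) : (jac g x).det = (fderiv ℝ g x).det := by
  have h : jac g x = LinearMap.toMatrix (EuclideanSpace.basisFun (Fin 3) ℝ).toBasis
      (EuclideanSpace.basisFun (Fin 3) ℝ).toBasis (fderiv ℝ g x).toLinearMap := by
    ext i j
    rw [LinearMap.toMatrix_apply]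
    simp [jac]
  rw [h, LinearMap.det_toMatrix]

theorem SINT_comp {g : E3 → E3} (hg : ContDiff ℝ (⊤ : ℕ∞) g) (i : Fin 3) :
    ContDiff ℝ (⊤ : ℕ∞) fun x => g x i :=
  (EuclideanSpace.proj i : E3 →L[ℝ] ℝ).contDiff.comp hg

theorem SINT_fd {g : E3 → E3} (hg : ContDiff ℝ (⊤ : ℕ∞) g) (i : Fin 3) (x v : E3) :
    fderiv ℝ (fun x => g x i) x v = fderiv ℝ g x v i := by
  have h1 : HasFDerivAt g (fderiv ℝ g x) x :=
    ((hg.differentiable (by simp)) x).hasFDerivAt
  have h2 : HasFDerivAt (fun x => g x i)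
      ((EuclideanSpace.proj i : E3 →L[ℝ] ℝ).comp (fderiv ℝ g x)) x :=
    (EuclideanSpace.proj i : E3 →L[ℝ] ℝ).hasFDerivAt.comp x h1
  rw [h2.fderiv]
  rfl

theorem SINT_wg {g : E3 → E3} (hg : ContDiff ℝ (⊤ : ℕ∞) g) : WeakGrad univ g (jac g) := by
  have hc : ∀ i j : Fin 3, Continuous fun x => jac g x i j := by
    intro i j
    have h1 : Continuous fun x => fderiv ℝ g x (EuclideanSpace.single j 1) :=
      (hg.continuous_fderiv (by simp)).clm_apply continuous_const
    exact (EuclideanSpace.proj i : E3 →L[ℝ] ℝ).continuous.comp h1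
  refine ⟨?_, ?_⟩
  · intro K hK _ i j
    have hb : ∃ C, ∀ x ∈ K, ‖jac g x i j‖ ≤ C := hK.exists_bound_of_continuousOn (hc i j).continuousOn
    obtain ⟨C, hC⟩ := hb
    have : IsFiniteMeasure (volume.restrict K) := ⟨by
      simpa using hK.measure_lt_top⟩
    refine MemLp.of_bound (hc i j).aestronglyMeasurable C ?_
    filter_upwards [ae_restrict_mem hK.measurableSet] with x hx
    exact hC x hx
  · intro φ hφ hcs _ i j
    have hd : Differentiable ℝ fun x => g x i := (SINT_comp hg i).differentiable (by simp)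
    have hdφ : Differentiable ℝ φ := hφ.differentiable (by simp)
    have hcφ : Continuous φ := hφ.continuous
    have hcg : Continuous fun x => g x i := (SINT_comp hg i).continuous
    have hcd : Continuous fun x => fderiv ℝ φ x (EuclideanSpace.single j 1) :=
      (hφ.continuous_fderiv (by simp)).clm_apply continuous_const
    have hcd2 : Continuous fun x => fderiv ℝ (fun x => g x i) x (EuclideanSpace.single j 1) :=
      ((SINT_comp hg i).continuous_fderiv (by simp)).clm_apply continuous_const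
    have hs1 : HasCompactSupport fun x => fderiv ℝ φ x (EuclideanSpace.single j 1) :=
      (hcs.fderiv_apply ℝ (EuclideanSpace.single j 1))
    have h := integral_mul_fderiv_eq_neg_fderiv_mul_of_integrable (μ := volume)
      (f := fun x => g x i) (g := φ) (v := (EuclideanSpace.single j 1 : E3))
      ((hcd2.mul hcφ).integrable_of_hasCompactSupport hcs.mul_left)
      ((hcg.mul hcd).integrable_of_hasCompactSupport hs1.mul_left)
      ((hcg.mul hcφ).integrable_of_hasCompactSupport hcs.mul_left) (fun x _ => hd x) (fun x _ => hdφ x)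
    rw [h]
    congr 1
    apply integral_congr_ae
    filter_upwards with x
    rw [SINT_fd hg]
    rfl

/-- a regular point has a good neighbourhood -/
theorem SINT_nbhd {g : E3 → E3} (hg : ContDiff ℝ (⊤ : ℕ∞) g) (x : E3)
    (hx : (fderiv ℝ g x).det ≠ 0) (U : Set E3) (hU : U ∈ 𝓝 x) :
    ∃ N : Set E3, IsOpen N ∧ x ∈ N ∧ N ⊆ U ∧ InjOn g N ∧
      (∀ O : Set E3, O ⊆ N → IsOpen O → IsOpen (g '' O)) ∧
      ∀ z ∈ N, 0 < (fderiv ℝ g z).det * (fderiv ℝ g x).det := by
  have hs : HasStrictFDerivAt g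
      ((ContinuousLinearMap.toContinuousLinearEquivOfDetNeZero (fderiv ℝ g x) hx :
        E3 ≃L[ℝ] E3) : E3 →L[ℝ] E3) x := by
    rw [ContinuousLinearMap.coe_toContinuousLinearEquivOfDetNeZero]
    exact hg.contDiffAt.hasStrictFDerivAt (by simp)
  set e := hs.toOpenPartialHomeomorph g with he
  have hex : x ∈ e.source := hs.mem_toOpenPartialHomeomorph_source
  have heg : ∀ z, e z = g z := fun z => by
    rw [he, hs.toOpenPartialHomeomorph_coe]
  have hdc : Continuous fun z => (fderiv ℝ g z).det :=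
    ContinuousLinearMap.continuous_det.comp (hg.continuous_fderiv (by simp))
  have hop : IsOpen {z | 0 < (fderiv ℝ g z).det * (fderiv ℝ g x).det} :=
    isOpen_lt continuous_const (hdc.mul continuous_const)
  have hxm : x ∈ {z | 0 < (fderiv ℝ g z).det * (fderiv ℝ g x).det} := by
    simp only [mem_ofPred_eq]
    exact mul_self_pos.2 hx
  refine ⟨e.source ∩ {z | 0 < (fderiv ℝ g z).det * (fderiv ℝ g x).det} ∩ interior U,
    (e.open_source.inter hop).inter isOpen_interior, ⟨⟨hex, hxm⟩, mem_interior_iff_mem_nhds.2 hU⟩,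
    fun z hz => interior_subset hz.2, ?_, ?_, fun z hz => hz.1.2⟩
  · intro a ha b hb hab
    apply e.injOn ha.1.1 hb.1.1
    rw [heg, heg]
    exact hab
  · intro O hO hOo
    have h := e.isOpen_image_of_subset_source hOo (fun z hz => (hO hz).1.1)
    have h2 : e '' O = g '' O := by
      ext y
      simp only [mem_image, heg]
    rw [← h2]
    exact h

/-- block SINT -/
theorem p_SINT (hDEGF : Stmt_DEGF) : Stmt_SINT := by
  intro g p q R ρ hg hR hρ hsph
  obtain ⟨c, hc⟩ := hDEGF univ g (jac g) p q R ρ isOpen_univ hg.continuous.continuousOn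
    (SINT_wg hg) hR (subset_univ _) hρ hsph
  set J : E3 → ℝ := fun z => (fderiv ℝ g z).det with hJ
  have hJc : Continuous J :=
    ContinuousLinearMap.continuous_det.comp (hg.continuous_fderiv (by simp))
  have hgd : ∀ z, HasFDerivAt g (fderiv ℝ g z) z := fun z =>
    ((hg.differentiable (by simp)) z).hasFDerivAt
  -- a regular value
  have hnull : volume (g '' {z | J z = 0}) = 0 :=
    addHaar_image_eq_zero_of_det_fderivWithin_eq_zero volume
      (fun z _ => (hgd z).hasFDerivWithinAt) (fun z hz => hz)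
  obtain ⟨y1, hy1, hy1r⟩ : ∃ y1 ∈ Metric.ball q ρ, y1 ∉ g '' {z | J z = 0} := by
    by_contra hcon
    push Not at hcon
    have h1 : Metric.ball q ρ ⊆ g '' {z | J z = 0} := hcon
    have h2 : volume (Metric.ball q ρ) = 0 := measure_mono_null h1 hnull
    exact (Metric.measure_ball_pos volume q hρ).ne' h2
  have hreg : ∀ x, g x = y1 → J x ≠ 0 := fun x hx h0 => hy1r ⟨x, h0, hx⟩
  -- the fibre
  set F : Set E3 := Metric.closedBall p R ∩ g ⁻¹' {y1} with hF
  have hFc : IsCompact F :=
    (isCompact_closedBall p R).inter_right (isClosed_singleton.preimage hg.continuous)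
  have hFb : ∀ x ∈ F, x ∈ Metric.ball p R := by
    intro x hx
    rw [Metric.mem_ball]
    rcases lt_or_eq_of_le (Metric.mem_closedBall.1 hx.1) with h | h
    · exact h
    · exfalso
      have h1 := hsph x (by rw [← dist_eq_norm]; exact h)
      have h2 : g x = y1 := hx.2
      rw [h2, ← dist_eq_norm] at h1
      exact absurd (Metric.mem_ball.1 hy1) (not_lt.2 h1)
  have hN : ∀ x : E3, ∃ N : Set E3, x ∈ F → IsOpen N ∧ x ∈ N ∧ N ⊆ Metric.ball p R ∧ InjOn g N ∧
      (∀ O : Set E3, O ⊆ N → IsOpen O → IsOpen (g '' O)) ∧ ∀ z ∈ N, 0 < J z * J x := by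
    intro x
    by_cases hx : x ∈ F
    · obtain ⟨N, h1, h2, h3, h4, h5, h6⟩ := SINT_nbhd hg x (hreg x hx.2) (Metric.ball p R)
        (Metric.isOpen_ball.mem_nhds (hFb x hx))
      exact ⟨N, fun _ => ⟨h1, h2, h3, h4, h5, h6⟩⟩
    · exact ⟨∅, fun h => absurd h hx⟩
  choose N hN using hN
  obtain ⟨t, htF, htc⟩ := hFc.elim_nhds_subcover N fun x hx => (hN x hx).1.mem_nhds (hN x hx).2.1
  have hFt : ∀ y ∈ F, y ∈ t := by
    intro y hy
    obtain ⟨x, hxt, hyx⟩ := mem_iUnion₂.1 (htc hy)
    have hxF := htF x hxt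
    have : y = x := (hN x hxF).2.2.2.1 hyx (hN x hxF).2.1 (by
      have h1 : g y = y1 := hy.2
      have h2 : g x = y1 := hxF.2
      rw [h1, h2])
    rw [this]
    exact hxt
  obtain ⟨U, hU, hUd⟩ := t.finite_toSet.t2_separation
  set W : E3 → Set E3 := fun x => N x ∩ U x with hW
  have hWo : ∀ x ∈ t, IsOpen (W x) := fun x hx => (hN x (htF x hx)).1.inter (hU x).2
  have hWx : ∀ x ∈ t, x ∈ W x := fun x hx => ⟨(hN x (htF x hx)).2.1, (hU x).1⟩
  have hWb : ∀ x ∈ t, W x ⊆ Metric.ball p R := fun x hx =>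
    inter_subset_left.trans (hN x (htF x hx)).2.2.1
  have hWi : ∀ x ∈ t, InjOn g (W x) := fun x hx =>
    (hN x (htF x hx)).2.2.2.1.mono inter_subset_left
  have hWg : ∀ x ∈ t, IsOpen (g '' W x) := fun x hx =>
    (hN x (htF x hx)).2.2.2.2.1 _ inter_subset_left (hWo x hx)
  have hWs : ∀ x ∈ t, ∀ z ∈ W x, 0 < J z * J x := fun x hx z hz =>
    (hN x (htF x hx)).2.2.2.2.2 z hz.1
  -- a small ball
  have hUo : IsOpen (⋃ x ∈ t, W x) := isOpen_biUnion fun x hx => hWo x hx
  have hrest : IsCompact (g '' (Metric.closedBall p R \ ⋃ x ∈ t, W x)) :=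
    ((isCompact_closedBall p R).diff hUo).image hg.continuous
  have hy1n : y1 ∉ g '' (Metric.closedBall p R \ ⋃ x ∈ t, W x) := by
    rintro ⟨z, ⟨hz1, hz2⟩, hz3⟩
    exact hz2 (mem_iUnion₂.2 ⟨z, hFt z ⟨hz1, hz3⟩, hWx z (hFt z ⟨hz1, hz3⟩)⟩)
  have hV : (Metric.ball q ρ ∩ (g '' (Metric.closedBall p R \ ⋃ x ∈ t, W x))ᶜ) ∩
      ⋂ x ∈ t, g '' W x ∈ 𝓝 y1 := by
    refine inter_mem (inter_mem (Metric.isOpen_ball.mem_nhds hy1)
      (hrest.isClosed.isOpen_compl.mem_nhds hy1n)) ?_
    rw [Finset.iInter_mem_sets]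
    intro x hx
    exact (hWg x hx).mem_nhds ⟨x, hWx x hx, (htF x hx).2⟩
  obtain ⟨δ, hδ, hδV⟩ := Metric.mem_nhds_iff.1 hV
  -- the test function
  let b : ContDiffBump y1 := ⟨δ / 4, δ / 2, by positivity, by linarith⟩
  set ζ : E3 → ℝ := b.normed volume with hζ
  have hζc : Continuous ζ := b.continuous_normed
  have hζs : HasCompactSupport ζ := b.hasCompactSupport_normed
  have hζt : tsupport ζ ⊆ Metric.ball y1 δ := by
    rw [hζ, b.tsupport_normed_eq]
    exact Metric.closedBall_subset_ball (by show δ / 2 < δ; linarith)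
  have hζi : ∫ y, ζ y = 1 := b.integral_normed
  have hζ0 : ∀ y, y ∉ Metric.ball y1 δ → ζ y = 0 := fun y hy =>
    image_eq_zero_of_notMem_tsupport fun h => hy (hζt h)
  have h1 := hc ζ hζc hζs (hζt.trans fun y hy => (hδV hy).1.1)
  rw [hζi, mul_one] at h1
  simp only [SINT_det] at h1
  have hfc : Continuous fun z => J z * ζ (g z) := hJc.mul (hζc.comp hg.continuous)
  have h2 : ∫ x in Metric.ball p R, J x * ζ (g x) = ∫ x in ⋃ x ∈ t, W x, J x * ζ (g x) := by
    refine setIntegral_eq_of_subset_of_forall_sdiff_eq_zero Metric.isOpen_ball.measurableSet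
      (iUnion₂_subset hWb) ?_
    rintro z ⟨hz1, hz2⟩
    rw [hζ0 (g z), mul_zero]
    intro hgz
    exact (hδV hgz).1.2 ⟨z, ⟨Metric.ball_subset_closedBall hz1, hz2⟩, rfl⟩
  have h3 : ∫ x in ⋃ x ∈ t, W x, J x * ζ (g x) = ∑ x ∈ t, ∫ z in W x, J z * ζ (g z) := by
    refine integral_biUnion_finset t (fun x hx => (hWo x hx).measurableSet) ?_ ?_
    · intro x hx y hy hxy
      exact (hUd hx hy hxy).mono inter_subset_right inter_subset_right
    · intro x hx
      exact (hfc.continuousOn.integrableOn_compact (isCompact_closedBall p R)).mono_set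
        ((hWb x hx).trans Metric.ball_subset_closedBall)
  have h4 : ∀ x ∈ t, ∫ z in W x, J z * ζ (g z) = ((if 0 < J x then 1 else -1 : ℤ) : ℝ) := by
    intro x hx
    have h5 : ∫ z in W x, J z * ζ (g z) =
        ∫ z in W x, ((if 0 < J x then 1 else -1 : ℤ) : ℝ) * (|J z| • ζ (g z)) := by
      refine setIntegral_congr_fun (hWo x hx).measurableSet ?_
      intro z hz
      have hpos := hWs x hx z hz
      simp only [smul_eq_mul]
      split_ifs with h0
      · have hz0 : 0 < J z := (mul_pos_iff_of_pos_right h0).1 hpos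
        rw [abs_of_pos hz0]
        simp
      · have hx0 : J x < 0 := by
          rcases lt_trichotomy (J x) 0 with h | h | h
          · exact h
          · rw [h, mul_zero] at hpos
            exact absurd hpos (lt_irrefl _)
          · exact absurd h h0
        have hz0 : J z < 0 := by
          by_contra hcon
          push Not at hcon
          have := mul_nonpos_of_nonneg_of_nonpos hcon hx0.le
          linarith
        rw [abs_of_neg hz0]
        simp
    rw [h5, integral_const_mul]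
    have h6 := integral_image_eq_integral_abs_det_fderiv_smul volume (hWo x hx).measurableSet
      (fun z _ => (hgd z).hasFDerivWithinAt) (hWi x hx) ζ
    have h7 : ∫ y in g '' W x, ζ y = ∫ y, ζ y := by
      refine setIntegral_eq_integral_of_forall_compl_eq_zero ?_
      intro y hy
      apply hζ0
      intro hyb
      exact hy (mem_iInter₂.1 (hδV hyb).2 x hx)
    have h8 : ∫ z in W x, |J z| • ζ (g z) = 1 := by
      rw [← hζi, ← h7, h6]
    rw [h8, mul_one]
  refine ⟨∑ x ∈ t, (if 0 < J x then 1 else -1 : ℤ), ?_⟩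
  have hck : c = ((∑ x ∈ t, (if 0 < J x then 1 else -1 : ℤ) : ℤ) : ℝ) := by
    rw [← h1]
    change ∫ x in Metric.ball p R, J x * ζ (g x) = _
    rw [h2, h3, Finset.sum_congr rfl h4, ← Int.cast_sum]
  intro η hη1 hη2 hη3
  rw [← hck]
  exact hc η hη1 hη2 hη3

end Pool.Flat
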