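import Pool.Agent.Work.MP_680515_fl.Iface4
import Pool.Agent.Work.MP_680515_fl.B_SINT
import Pool.Agent.Work.MP_680515_an.B.PIOI

/-!
# MP_680515_an, THEOREM FC: block DAE (open Sobolev maps are differentiable almost everywhere)
-/

open MeasureTheory Set Filter Topology

namespace Pool.Flat

open Pool.Mart

/-- sum of the cubes of the entries -/
noncomputable def DAE_S (M : M3) : ℝ := ∑ i : Fin 3, ∑ j : Fin 3, |M i j| ^ 3

theorem DAE_opn : ∃ C1 : ℝ, 0 < C1 ∧ ∀ M : M3, opn M ^ 3 ≤ C1 * DAE_S M := by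
  obtain ⟨c, hc0, hcp⟩ : ∃ c : ℝ, 0 < c ∧ ∀ p : Fin 3 × Fin 3,
      ‖PIOI42_.Lc (Matrix.single p.1 p.2 1)‖ ≤ c := by
    refine ⟨∑ p : Fin 3 × Fin 3, ‖PIOI42_.Lc (Matrix.single p.1 p.2 1)‖ + 1, ?_, fun p => ?_⟩
    · have : 0 ≤ ∑ p : Fin 3 × Fin 3, ‖PIOI42_.Lc (Matrix.single p.1 p.2 1)‖ :=
        Finset.sum_nonneg fun p _ => norm_nonneg _
      linarith
    · have h2 : ‖PIOI42_.Lc (Matrix.single p.1 p.2 1)‖ ≤
          ∑ p : Fin 3 × Fin 3, ‖PIOI42_.Lc (Matrix.single p.1 p.2 1)‖ :=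
        Finset.single_le_sum (f := fun p : Fin 3 × Fin 3 =>
          ‖PIOI42_.Lc (Matrix.single p.1 p.2 1)‖) (fun q _ => norm_nonneg _) (Finset.mem_univ p)
      linarith
  refine ⟨c ^ 3 * 81, by positivity, fun M => ?_⟩
  have h1 : opn M ≤ c * ∑ p : Fin 3 × Fin 3, |M p.1 p.2| := by
    rw [PIOI42_.opn_eq, PIOI42_.Lc_sum M, ← Fintype.sum_prod_type'
      (f := fun i j => M i j • PIOI42_.Lc (Matrix.single i j 1)), Finset.mul_sum]
    refine (norm_sum_le _ _).trans (Finset.sum_le_sum fun p _ => ?_)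
    rw [norm_smul, Real.norm_eq_abs, mul_comm]
    exact mul_le_mul_of_nonneg_right (hcp p) (abs_nonneg _)
  have h3 : (∑ p : Fin 3 × Fin 3, |M p.1 p.2|) ^ 3 /
      ((Finset.univ : Finset (Fin 3 × Fin 3)).card : ℝ) ^ 2 ≤
      ∑ p : Fin 3 × Fin 3, |M p.1 p.2| ^ 3 :=
    pow_sum_div_card_le_sum_pow (s := (Finset.univ : Finset (Fin 3 × Fin 3)))
      (f := fun p => |M p.1 p.2|) (fun p _ => abs_nonneg _) 2
  have h5 : DAE_S M = ∑ p : Fin 3 × Fin 3, |M p.1 p.2| ^ 3 := by
    unfold DAE_S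
    rw [← Fintype.sum_prod_type' (f := fun i j => |M i j| ^ 3)]
  have h6 : ((Finset.univ : Finset (Fin 3 × Fin 3)).card : ℝ) ^ 2 = 81 := by
    rw [Finset.card_univ, Fintype.card_prod, Fintype.card_fin]
    norm_num
  rw [h6, div_le_iff₀ (by norm_num), ← h5] at h3
  have h7 : (0 : ℝ) ≤ opn M := norm_nonneg _
  generalize (∑ p : Fin 3 × Fin 3, |M p.1 p.2|) = σ at h1 h3
  generalize DAE_S M = S at h3 ⊢
  generalize opn M = o at h1 h7 ⊢
  have h8 : o ^ 3 ≤ (c * σ) ^ 3 := pow_le_pow_left₀ h7 h1 3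
  have h9 : (c * σ) ^ 3 = c ^ 3 * σ ^ 3 := mul_pow _ _ _
  have h10 : c ^ 3 * σ ^ 3 ≤ c ^ 3 * (S * 81) := mul_le_mul_of_nonneg_left h3 (by positivity)
  calc o ^ 3 ≤ c ^ 3 * σ ^ 3 := h8.trans h9.le
    _ ≤ c ^ 3 * (S * 81) := h10
    _ = c ^ 3 * 81 * S := by ring

theorem DAE_act (B : M3) (v : E3) : ‖act B v‖ ≤ opn B * ‖v‖ :=
  ((Matrix.toEuclideanLin B).toContinuousLinearMap).le_opNorm v

theorem DAE_act_sub (B : M3) (v w : E3) : act B v - act B w = act B (v - w) :=
  (map_sub (Matrix.toEuclideanLin B) v w).symm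

theorem DAE_intg {K : Set E3} {u ψ : E3 → ℝ} (hK : IsCompact K)
    (hu : IntegrableOn u K) (hψ : Continuous ψ) (h0 : ∀ z ∉ K, ψ z = 0) :
    Integrable (fun z => u z * ψ z) := by
  have h1 : IntegrableOn (fun z => u z * ψ z) K := hu.mul_continuousOn hψ.continuousOn hK
  refine (integrableOn_iff_integrable_of_support_subset ?_).mp h1
  intro z hz
  by_contra h
  exact hz (by simp only [h0 z h, mul_zero])

theorem DAE_wg {Ω : Set E3} {f : E3 → E3} {A : E3 → M3} (hf : ContinuousOn f Ω)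
    (hA : WeakGrad Ω f A) (b x : E3) (B : M3) :
    WeakGrad Ω (fun y => f y - (b + act B (y - x))) (fun y => A y - B) := by
  set L : E3 →L[ℝ] E3 := (Matrix.toEuclideanLin B).toContinuousLinearMap with hL
  have hLd : ∀ y, HasFDerivAt (fun y => b + act B (y - x)) L y := by
    intro y
    exact ((L.hasFDerivAt (x := y - x)).comp y ((hasFDerivAt_id y).sub_const x)).const_add b
  have hg : ContDiff ℝ (⊤ : ℕ∞) (fun y => b + act B (y - x)) :=
    contDiff_const.add (L.contDiff.comp (contDiff_id.sub contDiff_const))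
  have hj : ∀ y, jac (fun y => b + act B (y - x)) y = B := by
    intro y
    ext i j
    have h1 : jac (fun y => b + act B (y - x)) y i j =
        (fderiv ℝ (fun y => b + act B (y - x)) y (EuclideanSpace.single j 1)) i := rfl
    rw [h1, (hLd y).fderiv]
    have h2 : (L (EuclideanSpace.single j 1)) i = (B.mulVec (Pi.single j 1)) i := rfl
    rw [h2, Matrix.mulVec_single_one]
    rfl
  have hw := SINT_wg hg
  have hgi : ∀ i : Fin 3, Continuous fun y => (b + act B (y - x)) i := fun i =>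
    (EuclideanSpace.proj i : E3 →L[ℝ] ℝ).continuous.comp hg.continuous
  refine ⟨?_, ?_⟩
  · intro K hK hKΩ i j
    have : IsFiniteMeasure (volume.restrict K) := ⟨by
      simpa using hK.measure_lt_top⟩
    exact (hA.loc K hK hKΩ i j).sub (memLp_const _)
  · intro φ hφ hcs hs i j
    have hcd : Continuous fun x => fderiv ℝ φ x (EuclideanSpace.single j 1) :=
      (hφ.continuous_fderiv (by simp)).clm_apply continuous_const
    have hK : IsCompact (tsupport φ) := hcs
    have hd0 : ∀ z ∉ tsupport φ, fderiv ℝ φ z (EuclideanSpace.single j 1) = 0 := by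
      intro z hz
      have h1 : fderiv ℝ φ z = 0 := by
        by_contra h
        exact hz (support_fderiv_subset ℝ h)
      rw [h1]
      rfl
    have hφ0 : ∀ z ∉ tsupport φ, φ z = 0 := fun z hz => image_eq_zero_of_notMem_tsupport hz
    have hfin : IsFiniteMeasure (volume.restrict (tsupport φ)) := ⟨by
      simpa using hK.measure_lt_top⟩
    have i1 : Integrable fun z => f z i * fderiv ℝ φ z (EuclideanSpace.single j 1) := by
      refine DAE_intg hK ?_ hcd hd0
      exact ((EuclideanSpace.proj i : E3 →L[ℝ] ℝ).continuous.comp_continuousOn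
        (hf.mono hs)).integrableOn_compact hK
    have i2 : Integrable fun z => (b + act B (z - x)) i *
        fderiv ℝ φ z (EuclideanSpace.single j 1) := by
      refine DAE_intg hK ?_ hcd hd0
      exact (hgi i).continuousOn.integrableOn_compact hK
    have i3 : Integrable fun z => A z i j * φ z := by
      refine DAE_intg hK ?_ hφ.continuous hφ0
      exact (hA.loc _ hK hs i j).integrable (by norm_num)
    have i4 : Integrable fun z => B i j * φ z := by
      refine DAE_intg hK ?_ hφ.continuous hφ0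
      exact (memLp_const (B i j) : MemLp (fun _ : E3 => B i j) 1 _).integrable le_rfl
    have e1 := hA.ibp φ hφ hcs hs i j
    have e2 := hw.ibp φ hφ hcs (subset_univ _) i j
    simp only [hj] at e2
    have e3 : ∀ z, (f z - (b + act B (z - x))) i * fderiv ℝ φ z (EuclideanSpace.single j 1) =
        f z i * fderiv ℝ φ z (EuclideanSpace.single j 1) -
          (b + act B (z - x)) i * fderiv ℝ φ z (EuclideanSpace.single j 1) := by
      intro z
      rw [PiLp.sub_apply, sub_mul]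
    have e4 : ∀ z, (A z - B) i j * φ z = A z i j * φ z - B i j * φ z := by
      intro z
      rw [Matrix.sub_apply, sub_mul]
    simp only [e3, e4]
    rw [integral_sub i1 i2, integral_sub i3 i4, e1, e2]
    ring

theorem DAE_max {Ω : Set E3} {f : E3 → E3} (hf : ContinuousOn f Ω)
    (hop : ∀ U : Set E3, IsOpen U → U ⊆ Ω → IsOpen (f '' U)) {y : E3} {ρ : ℝ} (hρ : 0 < ρ)
    (hsub : Metric.closedBall y ρ ⊆ Ω) (i : Fin 3) (s : ℝ) (hs : s * s = 1) :
    ∃ z, ‖z - y‖ = ρ ∧ ∀ w ∈ Metric.closedBall y ρ, s * f w i ≤ s * f z i := by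
  have hc : ContinuousOn (fun w => s * f w i) (Metric.closedBall y ρ) :=
    continuousOn_const.mul ((EuclideanSpace.proj i : E3 →L[ℝ] ℝ).continuous.comp_continuousOn
      (hf.mono hsub))
  obtain ⟨z, hz, hmax⟩ := (isCompact_closedBall y ρ).exists_isMaxOn
    ⟨y, Metric.mem_closedBall_self hρ.le⟩ hc
  refine ⟨z, ?_, fun w hw => hmax hw⟩
  rw [Metric.mem_closedBall, dist_eq_norm] at hz
  rcases hz.lt_or_eq with h | h
  · exfalso
    have hzb : z ∈ Metric.ball y ρ := by rwa [Metric.mem_ball, dist_eq_norm]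
    have ho := hop (Metric.ball y ρ) Metric.isOpen_ball (Metric.ball_subset_closedBall.trans hsub)
    obtain ⟨ε, hε, hb⟩ := Metric.isOpen_iff.mp ho (f z) ⟨z, hzb, rfl⟩
    have hmem : f z + (ε / 2 * s) • EuclideanSpace.single i (1 : ℝ) ∈ Metric.ball (f z) ε := by
      rw [Metric.mem_ball, dist_eq_norm, add_sub_cancel_left, norm_smul, PiLp.norm_single,
        norm_one, mul_one, norm_mul, Real.norm_eq_abs, Real.norm_eq_abs]
      have h1 : |s| = 1 := by
        have h2 : |s| * |s| = 1 := by rw [← abs_mul, hs, abs_one]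
        nlinarith [abs_nonneg s]
      rw [h1, abs_of_pos (by positivity)]
      linarith
    obtain ⟨w, hw, hfw⟩ := hb hmem
    have h2 := hmax (Metric.ball_subset_closedBall hw)
    simp only [mem_ofPred_eq] at h2
    rw [hfw] at h2
    have h3 : (f z + (ε / 2 * s) • EuclideanSpace.single i (1 : ℝ)) i = f z i + ε / 2 * s := by
      rw [PiLp.add_apply, PiLp.smul_apply, PiLp.single_apply, if_pos rfl, smul_eq_mul, mul_one]
    rw [h3, mul_add] at h2
    have h4 : s * (ε / 2 * s) = ε / 2 := by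
      rw [show s * (ε / 2 * s) = s * s * (ε / 2) by ring, hs, one_mul]
    rw [h4] at h2
    linarith
  · exact h

theorem DAE_osc {Ω : Set E3} {f : E3 → E3} (hf : ContinuousOn f Ω)
    (hop : ∀ U : Set E3, IsOpen U → U ⊆ Ω → IsOpen (f '' U)) {y : E3} {ρ M : ℝ} (hρ : 0 < ρ)
    (hsub : Metric.closedBall y ρ ⊆ Ω) (i : Fin 3)
    (h : ∀ x' y' : E3, ‖x' - y‖ = ρ → ‖y' - y‖ = ρ → |f x' i - f y' i| ≤ M) :
    ∀ w1 ∈ Metric.closedBall y ρ, ∀ w2 ∈ Metric.closedBall y ρ, |f w1 i - f w2 i| ≤ M := by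
  obtain ⟨z1, hz1, h1⟩ := DAE_max hf hop hρ hsub i 1 (by norm_num)
  obtain ⟨z2, hz2, h2⟩ := DAE_max hf hop hρ hsub i (-1) (by norm_num)
  intro w1 hw1 w2 hw2
  have e := h z1 z2 hz1 hz2
  have e' := le_abs_self (f z1 i - f z2 i)
  have a1 := h1 w1 hw1
  have a2 := h1 w2 hw2
  have b1 := h2 w1 hw1
  have b2 := h2 w2 hw2
  rw [abs_le]
  constructor <;> linarith

theorem DAE_norm (v : E3) (c : ℝ) (hc : 0 ≤ c) (h : ∀ i, |v i| ≤ c / 3) : ‖v‖ ≤ c := by
  rw [EuclideanSpace.norm_eq]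
  apply Real.sqrt_le_iff.mpr
  refine ⟨hc, ?_⟩
  rw [Fin.sum_univ_three]
  simp only [Real.norm_eq_abs]
  have h0 := h 0
  have h1 := h 1
  have h2 := h 2
  have g0 := pow_le_pow_left₀ (abs_nonneg _) h0 2
  have g1 := pow_le_pow_left₀ (abs_nonneg _) h1 2
  have g2 := pow_le_pow_left₀ (abs_nonneg _) h2 2
  nlinarith [sq_nonneg c]

theorem DAE_abs (v : E3) (i : Fin 3) : |v i| ≤ ‖v‖ := by
  have := PiLp.norm_apply_le v i
  rwa [Real.norm_eq_abs] at this

theorem DAE_vol (y : E3) {s : ℝ} (hs : 0 ≤ s) :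
    volume.real (Metric.ball y s) = s ^ 3 * volume.real (Metric.ball (0 : E3) 1) := by
  rw [measureReal_def, measureReal_def, Measure.addHaar_ball _ y hs, ENNReal.toReal_mul,
    ENNReal.toReal_ofReal (by positivity), finrank_euclideanSpace_fin]

theorem DAE_pick {g : E3 → E3} {x y : E3} {R s t : ℝ}
    (hg : IntegrableOn (fun z => ‖g z‖) (Metric.ball x R))
    (hsub : Metric.ball y s ⊆ Metric.ball x R)
    (h : ∫ z in Metric.ball x R, ‖g z‖ < t * volume.real (Metric.ball y s)) :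
    ∃ w ∈ Metric.ball y s, ‖g w‖ ≤ t := by
  by_contra hcon
  push Not at hcon
  have h1 : ∫ z in Metric.ball y s, (fun _ => t) z ≤ ∫ z in Metric.ball y s, ‖g z‖ := by
    refine setIntegral_mono_on ?_ (hg.mono_set hsub) measurableSet_ball fun z hz => (hcon z hz).le
    exact integrableOn_const (by
      exact (measure_ball_lt_top (μ := volume) (x := y) (r := s)).ne) (by simp)
  have h2 : ∫ z in Metric.ball y s, ‖g z‖ ≤ ∫ z in Metric.ball x R, ‖g z‖ :=
    setIntegral_mono_set hg (Eventually.of_forall fun z => norm_nonneg _)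
      (LE.le.eventuallyLE hsub)
  rw [setIntegral_const, smul_eq_mul, mul_comm] at h1
  linarith

theorem DAE_grad (i : Fin 3) (w : E3) : ‖gradv (fun v : E3 => v i) w‖ = 1 := by
  have h1 : gradv (fun v : E3 => v i) w = EuclideanSpace.single i (1 : ℝ) := by
    ext j
    have h2 : HasFDerivAt (fun v : E3 => v i) (EuclideanSpace.proj i : E3 →L[ℝ] ℝ) w :=
      (EuclideanSpace.proj i : E3 →L[ℝ] ℝ).hasFDerivAt
    have h3 : gradv (fun v : E3 => v i) w j =
        fderiv ℝ (fun v : E3 => v i) w (EuclideanSpace.single j 1) := rfl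
    rw [h3, h2.fderiv]
    have h4 : (EuclideanSpace.proj i : E3 →L[ℝ] ℝ) (EuclideanSpace.single j 1) =
        (EuclideanSpace.single j (1 : ℝ) : E3) i := rfl
    rw [h4, PiLp.single_apply, PiLp.single_apply]
    simp only [eq_comm]
  rw [h1, PiLp.norm_single, norm_one]

theorem DAE_key {C C1 : ℝ} (hC : 0 < C) (hC1 : 0 < C1)
    (hosl : ∀ (Ω : Set E3) (f : E3 → E3) (A : E3 → M3) (Φ : E3 → ℝ) (c : E3)
      (ρ1 ρ2 δ : ℝ), IsOpen Ω → ContinuousOn f Ω → WeakGrad Ω f A → ContDiff ℝ 1 Φ → 0 < ρ1 →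
      ρ1 < ρ2 → {x | ρ1 ≤ ‖x - c‖ ∧ ‖x - c‖ ≤ ρ2} ⊆ Ω → 0 ≤ δ →
      (∀ ρ ∈ Ioo ρ1 ρ2, ∃ x y : E3, ‖x - c‖ = ρ ∧ ‖y - c‖ = ρ ∧ δ ≤ |Φ (f x) - Φ (f y)|) →
      IntegrableOn (fun x => (opn (A x) * ‖gradv Φ (f x)‖) ^ 3) (rg c ρ1 ρ2) ∧
      δ ^ 3 * Real.log (ρ2 / ρ1) ≤ C * ∫ x in rg c ρ1 ρ2, (opn (A x) * ‖gradv Φ (f x)‖) ^ 3)
    (hopn : ∀ M : M3, opn M ^ 3 ≤ C1 * DAE_S M)
    {Ω : Set E3} {f : E3 → E3} {A : E3 → M3} (hΩ : IsOpen Ω) (hf : ContinuousOn f Ω)
    (hA : WeakGrad Ω f A) (hop : ∀ U : Set E3, IsOpen U → U ⊆ Ω → IsOpen (f '' U))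
    {x y : E3} {B : M3} {κ τ r : ℝ} (hr : 0 < r) (hyx : ‖y - x‖ = r) (hκ : 0 < κ) (hκ2 : κ ≤ 1 / 2)
    (hτ : 0 < τ) (hsub : Metric.closedBall x (2 * r) ⊆ Ω)
    (h3 : C * (C1 * ∫ z in Metric.ball x (2 * r), DAE_S (A z - B)) <
      (τ * r) ^ 3 * Real.log 2)
    (h4 : ∫ z in Metric.ball x (2 * r), ‖f z - f x - act B (z - x)‖ <
      (τ * r) * ((κ * r / 2) ^ 3 * volume.real (Metric.ball (0 : E3) 1))) (i : Fin 3) :
    |(f y - f x - act B (y - x)) i| ≤ 2 * τ * r + 3 * opn B * κ * r := by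
  set g : E3 → E3 := fun z => f z - (f x + act B (z - x)) with hg
  have hgf : ∀ z, g z = f z - f x - act B (z - x) := fun z => by rw [hg]; simp only; abel
  have hb : (0 : ℝ) ≤ opn B := norm_nonneg _
  have hW : WeakGrad Ω g (fun z => A z - B) := DAE_wg hf hA (f x) x B
  have hgc : ContinuousOn g Ω := by
    refine hf.sub (continuousOn_const.add ?_)
    exact (((Matrix.toEuclideanLin B).toContinuousLinearMap).continuous.comp
      (continuous_id.sub continuous_const)).continuousOn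
  set s := κ * r with hs
  have hs0 : 0 < s := mul_pos hκ hr
  have hsr : s ≤ r / 2 := by
    rw [hs]
    nlinarith
  have hin : Metric.closedBall y s ⊆ Metric.ball x (2 * r) := by
    intro w hw
    rw [Metric.mem_closedBall] at hw
    rw [Metric.mem_ball]
    have h5 := dist_triangle w y x
    have h6 : dist y x = r := by rw [dist_eq_norm, hyx]
    linarith
  have hinΩ : Metric.closedBall y s ⊆ Ω :=
    hin.trans (Metric.ball_subset_closedBall.trans hsub)
  -- integrability of the cubes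
  have hSint : IntegrableOn (fun z => DAE_S (A z - B)) (Metric.ball x (2 * r)) := by
    have h5 : IntegrableOn (fun z => DAE_S (A z - B)) (Metric.closedBall x (2 * r)) := by
      unfold DAE_S
      refine integrable_finsetSum _ fun a _ => integrable_finsetSum _ fun b _ => ?_
      have h6 := (hW.loc _ (isCompact_closedBall x (2 * r)) hsub a b).integrable_norm_pow
        (p := 3) (by norm_num)
      simpa only [Real.norm_eq_abs] using h6
    exact h5.mono_set Metric.ball_subset_closedBall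
  have hS0 : ∀ M : M3, 0 ≤ DAE_S M := fun M =>
    Finset.sum_nonneg fun a _ => Finset.sum_nonneg fun b _ => by positivity
  -- a good sphere
  obtain ⟨ρ, hρ, hsph⟩ : ∃ ρ ∈ Ioo (s / 2) s, ∀ x' y' : E3, ‖x' - y‖ = ρ → ‖y' - y‖ = ρ →
      |g x' i - g y' i| < τ * r := by
    by_contra hcon
    push Not at hcon
    obtain ⟨hi, hle⟩ := hosl Ω g (fun z => A z - B) (fun v => v i) y (s / 2) s (τ * r) hΩ hgc hW
      (EuclideanSpace.proj i : E3 →L[ℝ] ℝ).contDiff (by positivity) (by linarith)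
      (by
        intro w hw
        refine hinΩ ?_
        rw [Metric.mem_closedBall, dist_eq_norm]
        exact hw.2) (by positivity)
      (by
        intro ρ hρ
        obtain ⟨x', y', h5, h6, h7⟩ := hcon ρ hρ
        exact ⟨x', y', h5, h6, h7⟩)
    have e1 : s / (s / 2) = 2 := by field_simp
    rw [e1] at hle
    have hrg : rg y (s / 2) s ⊆ Metric.ball x (2 * r) := by
      intro w hw
      refine hin ?_
      rw [Metric.mem_closedBall, dist_eq_norm]
      exact hw.2.le
    have hrgm : MeasurableSet (rg y (s / 2) s) := by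
      have hm : Measurable fun z : E3 => ‖z - y‖ :=
        (continuous_id.sub continuous_const).norm.measurable
      exact (measurableSet_lt measurable_const hm).inter (measurableSet_lt hm measurable_const)
    have e2 : ∫ z in rg y (s / 2) s, (opn (A z - B) * ‖gradv (fun v : E3 => v i) (g z)‖) ^ 3 ≤
        ∫ z in rg y (s / 2) s, C1 * DAE_S (A z - B) := by
      refine setIntegral_mono_on hi ((hSint.mono_set hrg).const_mul C1) hrgm fun z _ => ?_
      rw [DAE_grad, mul_one]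
      exact hopn _
    have e3 : ∫ z in rg y (s / 2) s, C1 * DAE_S (A z - B) ≤
        ∫ z in Metric.ball x (2 * r), C1 * DAE_S (A z - B) :=
      setIntegral_mono_set (hSint.const_mul C1)
        (Eventually.of_forall fun z => mul_nonneg hC1.le (hS0 _))
        (LE.le.eventuallyLE hrg)
    have e5 : ∫ z in Metric.ball x (2 * r), C1 * DAE_S (A z - B) =
        C1 * ∫ z in Metric.ball x (2 * r), DAE_S (A z - B) := integral_const_mul _ _
    have e4 := mul_le_mul_of_nonneg_left ((e2.trans e3).trans e5.le) hC.le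
    linarith
  have hρ0 : 0 < ρ := lt_trans (by positivity) hρ.1
  have hact : ∀ z z' : E3, (f z) i - (f z') i = (g z i - g z' i) + (act B (z - z')) i := by
    intro z z'
    have e1 : act B (z - z') = act B (z - x) - act B (z' - x) := by
      rw [DAE_act_sub]
      congr 1
      abel
    rw [e1, hg]
    simp only [PiLp.sub_apply, PiLp.add_apply]
    ring
  have hacti : ∀ z z' : E3, |(act B (z - z')) i| ≤ opn B * ‖z - z'‖ := fun z z' =>
    (DAE_abs _ i).trans (DAE_act B _)
  have hfs : ∀ x' y' : E3, ‖x' - y‖ = ρ → ‖y' - y‖ = ρ →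
      |f x' i - f y' i| ≤ τ * r + 2 * opn B * s := by
    intro x' y' hx' hy'
    rw [hact]
    refine (abs_add_le _ _).trans ?_
    have e1 := (hsph x' y' hx' hy').le
    have e2 := hacti x' y'
    have e3 : ‖x' - y'‖ ≤ 2 * s := by
      have : x' - y' = (x' - y) - (y' - y) := by abel
      rw [this]
      have := norm_sub_le (x' - y) (y' - y)
      rw [hx', hy'] at this
      linarith [hρ.2]
    have e4 := mul_le_mul_of_nonneg_left e3 hb
    linarith
  have hosc := DAE_osc hf hop hρ0 ((Metric.closedBall_subset_closedBall hρ.2.le).trans hinΩ) i hfs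
  -- a good point
  obtain ⟨w, hw, hgw⟩ : ∃ w ∈ Metric.ball y (s / 2), ‖g w‖ ≤ τ * r := by
    refine DAE_pick (x := x) (R := 2 * r) ?_
      ((Metric.ball_subset_closedBall.trans (Metric.closedBall_subset_closedBall
        (by linarith))).trans hin) ?_
    · exact (((hgc.mono hsub).norm).integrableOn_compact (isCompact_closedBall x (2 * r))).mono_set
        Metric.ball_subset_closedBall
    · simp only [hgf]
      rw [DAE_vol y (by positivity)]
      exact h4
  rw [Metric.mem_ball, dist_eq_norm] at hw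
  have e1 := hosc y (Metric.mem_closedBall_self hρ0.le) w (by
    rw [Metric.mem_closedBall, dist_eq_norm]
    linarith [hρ.1])
  have e2 := hact y w
  have e3 := hacti y w
  have e4 : ‖y - w‖ ≤ s / 2 := by
    rw [norm_sub_rev]
    exact hw.le
  have e5 := (DAE_abs (g w) i).trans hgw
  have e6 := mul_le_mul_of_nonneg_left e4 hb
  rw [← hgf y]
  have e7 : g y i = g w i + (f y i - f w i) - (act B (y - w)) i := by
    rw [e2]
    ring
  rw [e7]
  have e8 := abs_sub (g w i + (f y i - f w i)) ((act B (y - w)) i)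
  have e9 := abs_add_le (g w i) (f y i - f w i)
  have e10 : 3 * opn B * κ * r = 3 * opn B * s := by rw [hs]; ring
  rw [e10]
  have e11 : 0 ≤ opn B * s := mul_nonneg hb hs0.le
  nlinarith

theorem p_DAE (hOSL : Stmt_OSL) (hLEB : Stmt_LEB) (hPMN : Stmt_PMN) : Stmt_DAE := by
  intro Ω f A hΩ hf hA hop
  obtain ⟨C, hC, hosl⟩ := hOSL
  obtain ⟨C1, hC1, hopn⟩ := DAE_opn
  filter_upwards [hLEB Ω A hΩ hA.loc, ae_restrict_mem hΩ.measurableSet] with x hx hxΩ
  set B := A x with hB
  have hmean := hPMN Ω f A x B hΩ hf hA hxΩ hx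
  have hb : (0 : ℝ) ≤ opn B := norm_nonneg _
  have hV : 0 < volume.real (Metric.ball (0 : E3) 1) := by
    rw [measureReal_def, ENNReal.toReal_pos_iff]
    exact ⟨Metric.measure_ball_pos _ _ one_pos, measure_ball_lt_top⟩
  have hlog : 0 < Real.log 2 := Real.log_pos (by norm_num)
  obtain ⟨R0, hR0, hR0Ω⟩ := Metric.isOpen_iff.mp hΩ x hxΩ
  have hF3 : Tendsto (fun r : ℝ => ∑ i : Fin 3, ∑ j : Fin 3,
      (r ^ 3)⁻¹ * ∫ y in Metric.ball x r, |A y i j - B i j| ^ 3) (𝓝[>] 0) (𝓝 0) := by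
    have h1 := tendsto_finsetSum (Finset.univ : Finset (Fin 3)) fun i _ =>
      tendsto_finsetSum (Finset.univ : Finset (Fin 3)) fun j _ => hx i j
    simpa using h1
  rw [hasFDerivAt_iff_isLittleO, Asymptotics.isLittleO_iff]
  intro ε hε
  set κ := min (1 / 2) (ε / (18 * (opn B + 1))) with hκ
  have hκ0 : 0 < κ := lt_min (by norm_num) (by positivity)
  have hκ2 : κ ≤ 1 / 2 := min_le_left _ _
  have hκb : 3 * opn B * κ ≤ ε / 6 := by
    have h1 : κ ≤ ε / (18 * (opn B + 1)) := min_le_right _ _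
    have h2 : κ * (18 * (opn B + 1)) ≤ ε := (le_div_iff₀ (by positivity)).mp h1
    nlinarith
  set τ := ε / 12 with hτ
  have hτ0 : 0 < τ := by positivity
  set η3 := τ ^ 3 * Real.log 2 / (8 * C * C1 + 1) with hη3
  have hη30 : 0 < η3 := by positivity
  set η4 := τ * κ ^ 3 * volume.real (Metric.ball (0 : E3) 1) / 128 with hη4
  have hη40 : 0 < η4 := by positivity
  have ev3 := hF3.eventually (gt_mem_nhds hη30)
  have ev4 := hmean.eventually (gt_mem_nhds hη40)
  obtain ⟨u, hu, hu2⟩ := mem_nhdsGT_iff_exists_Ioo_subset.mp (ev3.and ev4)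
  have hu0 : (0 : ℝ) < u := hu
  have hmin : 0 < min u R0 / 2 := by
    have := lt_min hu0 hR0
    positivity
  filter_upwards [Metric.ball_mem_nhds x hmin] with y hy
  by_cases hyx : y = x
  · subst hyx
    simp
  have hr0 : 0 < ‖y - x‖ := norm_pos_iff.mpr (sub_ne_zero.mpr hyx)
  set r := ‖y - x‖ with hr
  rw [Metric.mem_ball, dist_eq_norm] at hy
  have hru : 2 * r < u := by
    have := min_le_left u R0
    linarith
  have hrR : 2 * r < R0 := by
    have := min_le_right u R0
    linarith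
  have hsub : Metric.closedBall x (2 * r) ⊆ Ω :=
    (Metric.closedBall_subset_ball hrR).trans hR0Ω
  obtain ⟨hl3, hl4⟩ := hu2 ⟨by linarith, hru⟩
  have hSeq : ∫ z in Metric.ball x (2 * r), DAE_S (A z - B) =
      (2 * r) ^ 3 * ∑ i : Fin 3, ∑ j : Fin 3,
        ((2 * r) ^ 3)⁻¹ * ∫ y in Metric.ball x (2 * r), |A y i j - B i j| ^ 3 := by
    have hij : ∀ a b : Fin 3, IntegrableOn (fun z => |A z a b - B a b| ^ 3)
        (Metric.ball x (2 * r)) := by
      intro a b
      have hW : WeakGrad Ω _ (fun z => A z - B) := DAE_wg hf hA (f x) x B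
      have h6 := (hW.loc _ (isCompact_closedBall x (2 * r)) hsub a b).integrable_norm_pow
        (p := 3) (by norm_num)
      simp only [Real.norm_eq_abs, Matrix.sub_apply] at h6
      have h7 : IntegrableOn (fun z => |A z a b - B a b| ^ 3) (Metric.closedBall x (2 * r)) := h6
      exact h7.mono_set Metric.ball_subset_closedBall
    unfold DAE_S
    simp only [Matrix.sub_apply]
    rw [integral_finsetSum _ fun a _ => integrable_finsetSum _ fun b _ => hij a b,
      Finset.mul_sum]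
    refine Finset.sum_congr rfl fun a _ => ?_
    rw [integral_finsetSum _ fun b _ => hij a b, Finset.mul_sum]
    refine Finset.sum_congr rfl fun b _ => ?_
    have h8 : (2 * r) ^ 3 ≠ 0 := by positivity
    field_simp
  have h3 : C * (C1 * ∫ z in Metric.ball x (2 * r), DAE_S (A z - B)) <
      (τ * r) ^ 3 * Real.log 2 := by
    rw [hSeq]
    set F := ∑ i : Fin 3, ∑ j : Fin 3,
        ((2 * r) ^ 3)⁻¹ * ∫ y in Metric.ball x (2 * r), |A y i j - B i j| ^ 3 with hF
    have h5 : C * (C1 * ((2 * r) ^ 3 * F)) ≤ C * (C1 * ((2 * r) ^ 3 * η3)) := by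
      gcongr
    have h6 : η3 * (8 * C * C1 + 1) = τ ^ 3 * Real.log 2 := by
      rw [hη3]
      field_simp
    have h7 : C * (C1 * ((2 * r) ^ 3 * η3)) = r ^ 3 * (η3 * (8 * C * C1)) := by ring
    have h8 : η3 * (8 * C * C1) < τ ^ 3 * Real.log 2 := by
      rw [← h6]
      nlinarith
    have h9 : r ^ 3 * (η3 * (8 * C * C1)) < r ^ 3 * (τ ^ 3 * Real.log 2) :=
      mul_lt_mul_of_pos_left h8 (by positivity)
    calc C * (C1 * ((2 * r) ^ 3 * F)) ≤ C * (C1 * ((2 * r) ^ 3 * η3)) := h5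
      _ = r ^ 3 * (η3 * (8 * C * C1)) := h7
      _ < r ^ 3 * (τ ^ 3 * Real.log 2) := h9
      _ = (τ * r) ^ 3 * Real.log 2 := by ring
  have h4 : ∫ z in Metric.ball x (2 * r), ‖f z - f x - act B (z - x)‖ <
      (τ * r) * ((κ * r / 2) ^ 3 * volume.real (Metric.ball (0 : E3) 1)) := by
    have h5 : (2 * r) ^ 4 ≠ 0 := by positivity
    have h6 : ∫ z in Metric.ball x (2 * r), ‖f z - f x - act B (z - x)‖ =
        (2 * r) ^ 4 * (((2 * r) ^ 4)⁻¹ *
          ∫ z in Metric.ball x (2 * r), ‖f z - f x - act B (z - x)‖) := by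
      field_simp
    rw [h6]
    calc (2 * r) ^ 4 * (((2 * r) ^ 4)⁻¹ *
          ∫ z in Metric.ball x (2 * r), ‖f z - f x - act B (z - x)‖)
        < (2 * r) ^ 4 * η4 := mul_lt_mul_of_pos_left hl4 (by positivity)
      _ = (τ * r) * ((κ * r / 2) ^ 3 * volume.real (Metric.ball (0 : E3) 1)) := by
          rw [hη4]
          ring
  have hL : (LinearMap.toContinuousLinearMap (Matrix.toEuclideanLin B)) (y - x) = act B (y - x) :=
    rfl
  rw [hL]
  refine DAE_norm _ _ (by positivity) fun i => ?_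
  refine (DAE_key hC hC1 hosl hopn hΩ hf hA hop hr0 rfl hκ0 hκ2 hτ0 hsub h3 h4 i).trans ?_
  have h5 := mul_le_mul_of_nonneg_right hκb hr0.le
  rw [hτ]
  nlinarith

end Pool.Flat
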