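import Pool.Agent.Work.MP_680515_fl.Iface1

open MeasureTheory Set Filter Topology

namespace Pool.Flat

open Pool.Mart

theorem DEG2_int (hPIOI : Stmt_PIOI) {Ω : Set E3} {f : E3 → E3} {A : E3 → M3} (hΩ : IsOpen Ω)
    (hf : ContinuousOn f Ω) (hA : WeakGrad Ω f A) {K : Set E3} (hK : IsCompact K) (hKΩ : K ⊆ Ω)
    {g : E3 → ℝ} (hg : Continuous g) : IntegrableOn (fun x => (A x).det * g (f x)) K :=
  (hPIOI Ω f A hΩ hf hA K hK hKΩ).1.mul_continuousOn (hg.comp_continuousOn (hf.mono hKΩ)) hK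

theorem DEG2_det {A : M3} (h : Good A) : 0 ≤ A.det := by
  have h1 : 0 ≤ opn A ^ 3 := pow_nonneg (norm_nonneg _) 3
  have h2 := h.2
  linarith

/-- a nonnegative bump -/
theorem DEG2_bump (y : E3) {d : ℝ} (hd : 0 < d) : ∃ g : E3 → ℝ, Continuous g ∧ HasCompactSupport g ∧
    tsupport g ⊆ Metric.ball y d ∧ (∀ z, 0 ≤ g z) ∧ (∀ z ∈ Metric.closedBall y (d / 4), g z = 1) ∧
    0 < ∫ z, g z := by
  let b : ContDiffBump y := ⟨d / 4, d / 2, by positivity, by linarith⟩
  refine ⟨b, b.continuous, b.hasCompactSupport, ?_, fun z => b.nonneg, fun z hz =>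
    b.one_of_mem_closedBall hz, b.integral_pos⟩
  rw [b.tsupport_eq]
  exact Metric.closedBall_subset_ball (show d / 2 < d by linarith)

theorem p_DEG2 (hINTG : Stmt_INTG) (hPOS : Stmt_POS) (hPIOI : Stmt_PIOI) : Stmt_DEG2 := by
  intro H ε r0 Ω S f A γ hT t ht
  have ht2 : t ∈ Icc (-2 : ℝ) 2 := ⟨by linarith [ht.1], by linarith [ht.2]⟩
  have hr0 := hT.rpos
  set p := γ t with hp
  have hsub8 : Metric.closedBall p (8 * r0) ⊆ Ω := hT.sub t ht2
  have hsub1 : Metric.closedBall p r0 ⊆ Ω :=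
    (Metric.closedBall_subset_closedBall (by linarith)).trans hsub8
  have hpΩ : p ∈ Ω := hsub1 (Metric.mem_closedBall_self hr0.le)
  -- minimum on the sphere
  have hcomp : IsCompact (Metric.sphere p r0) := isCompact_sphere p r0
  have hne : (Metric.sphere p r0).Nonempty := NormedSpace.sphere_nonempty.2 hr0.le
  have hsp : Metric.sphere p r0 ⊆ Ω := Metric.sphere_subset_closedBall.trans hsub1
  have hcont : ContinuousOn (fun x => ‖f x - f p‖) (Metric.sphere p r0) :=
    ((hT.cont.mono hsp).sub continuousOn_const).norm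
  obtain ⟨x0, hx0, hmin⟩ := hcomp.exists_isMinOn hne hcont
  set ρ0 := ‖f x0 - f p‖ with hρ0
  have hx0' : ‖x0 - p‖ = r0 := by rwa [mem_sphere_iff_norm] at hx0
  have hρ0pos : 0 < ρ0 := by
    rw [hρ0, norm_pos_iff, sub_ne_zero]
    intro h
    have h1 : x0 = p := hT.inj t ht2 x0 (Metric.closedBall_subset_closedBall (by linarith)
      (Metric.sphere_subset_closedBall hx0)) h
    rw [h1, sub_self, norm_zero] at hx0'
    linarith
  have hmin' : ∀ x, ‖x - p‖ = r0 → ρ0 ≤ ‖f x - f p‖ := by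
    intro x hx
    exact hmin (by rwa [mem_sphere_iff_norm])
  obtain ⟨k, hk⟩ := hINTG Ω f A p (f p) r0 ρ0 hT.op hT.cont hT.wg hr0 hsub1 hρ0pos hmin'
  -- two preimages
  have hcp : ContinuousAt f p := hT.cont.continuousAt (hT.op.mem_nhds hpΩ)
  obtain ⟨δ, hδ, hδf⟩ := Metric.continuousAt_iff.1 hcp ρ0 hρ0pos
  obtain ⟨x1, hx1, x2, hx2, hx12, hfx, s, hs, hi1, hi2⟩ := hT.two t ht (min δ (r0 / 2))
    (lt_min hδ (by positivity))
  rw [Metric.mem_ball, lt_min_iff] at hx1 hx2
  set s' := min s (min (dist x1 x2 / 3) (r0 / 2)) with hs'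
  have hd12 : 0 < dist x1 x2 := dist_pos.2 hx12
  have hs'pos : 0 < s' := lt_min hs (lt_min (by positivity) (by positivity))
  have hs's : s' ≤ s := min_le_left _ _
  have hs'd : s' ≤ dist x1 x2 / 3 := (min_le_right _ _).trans (min_le_left _ _)
  have hs'r : s' ≤ r0 / 2 := (min_le_right _ _).trans (min_le_right _ _)
  have hb : ∀ x, dist x p < r0 / 2 → Metric.closedBall x s' ⊆ Metric.ball p r0 := by
    intro x hx z hz
    rw [Metric.mem_closedBall] at hz
    rw [Metric.mem_ball]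
    have := dist_triangle z x p
    linarith
  have hb1 := hb x1 hx1.2
  have hb2 := hb x2 hx2.2
  have hbΩ : Metric.ball p r0 ⊆ Ω := Metric.ball_subset_closedBall.trans hsub1
  obtain ⟨k1, ρ1, hk1, hρ1, -, hP1⟩ := hPOS Ω f A x1 s' hT.op hT.cont hT.wg hT.good hs'pos
    (hb1.trans hbΩ) (hi1.mono (Metric.closedBall_subset_closedBall hs's))
  obtain ⟨k2, ρ2, hk2, hρ2, -, hP2⟩ := hPOS Ω f A x2 s' hT.op hT.cont hT.wg hT.good hs'pos
    (hb2.trans hbΩ) (hi2.mono (Metric.closedBall_subset_closedBall hs's))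
  have hy0 : dist (f x1) (f p) < ρ0 := hδf hx1.1
  set d := min (min ρ1 ρ2) (ρ0 - dist (f x1) (f p)) with hd
  have hdpos : 0 < d := lt_min (lt_min hρ1 hρ2) (by linarith)
  obtain ⟨g, hgc, hgs, hgt, hg0, -, hgi⟩ := DEG2_bump (f x1) hdpos
  have e1 := hP1 g hgc hgs (hgt.trans (Metric.ball_subset_ball ((min_le_left _ _).trans
    (min_le_left _ _))))
  have e2 := hP2 g hgc hgs (by
    rw [← hfx]
    exact hgt.trans (Metric.ball_subset_ball ((min_le_left _ _).trans (min_le_right _ _))))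
  have e0 := hk g hgc hgs (hgt.trans (by
    intro z hz
    rw [Metric.mem_ball] at hz ⊢
    have h1 := dist_triangle z (f x1) (f p)
    have h2 : d ≤ ρ0 - dist (f x1) (f p) := min_le_right _ _
    linarith))
  have hint : IntegrableOn (fun x => (A x).det * g (f x)) (Metric.ball p r0) :=
    (DEG2_int hPIOI hT.op hT.cont hT.wg (isCompact_closedBall p r0) hsub1 hgc).mono_set
      Metric.ball_subset_closedBall
  have hnn : 0 ≤ᵐ[volume.restrict (Metric.ball p r0)] fun x => (A x).det * g (f x) := by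
    have h1 : ∀ᵐ x ∂(volume.restrict (Metric.ball p r0)), Good (A x) :=
      ae_mono (Measure.restrict_mono hbΩ le_rfl) hT.good
    filter_upwards [h1] with x hx
    exact mul_nonneg (DEG2_det hx) (hg0 _)
  have hdisj : Disjoint (Metric.ball x1 s') (Metric.ball x2 s') := by
    refine Metric.ball_disjoint_ball ?_
    linarith
  have hU : Metric.ball x1 s' ∪ Metric.ball x2 s' ⊆ Metric.ball p r0 :=
    union_subset (Metric.ball_subset_closedBall.trans hb1) (Metric.ball_subset_closedBall.trans hb2)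
  have h1 : ∫ x in Metric.ball x1 s' ∪ Metric.ball x2 s', (A x).det * g (f x) ≤
      ∫ x in Metric.ball p r0, (A x).det * g (f x) :=
    setIntegral_mono_set hint hnn (LE.le.eventuallyLE hU)
  rw [setIntegral_union hdisj Metric.isOpen_ball.measurableSet
    (hint.mono_set (subset_union_left.trans hU)) (hint.mono_set (subset_union_right.trans hU)),
    e1, e2, e0, ← add_mul] at h1
  have h2 : ((k1 : ℝ) + k2) ≤ k := le_of_mul_le_mul_right h1 hgi
  have h3 : (2 : ℤ) ≤ k := by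
    have h4 : ((k1 : ℤ) + k2) ≤ k := by exact_mod_cast h2
    omega
  refine ⟨k.toNat, by omega, ?_⟩
  intro ρ hρ hsph g hg1 hg2 hg3
  have h4 : ρ ≤ ρ0 := hsph x0 hx0'
  have h5 := hk g hg1 hg2 (hg3.trans (Metric.ball_subset_ball h4))
  rw [h5]
  congr 1
  have h6 : ((k.toNat : ℕ) : ℤ) = k := Int.toNat_of_nonneg (by omega)
  exact_mod_cast h6.symm

end Pool.Flat
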