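import Pool.Agent.Work.MP_680515_fl.Iface1

/-!
# MP_680515_an, THEOREM FB, block DEGF: the degree formula with a real constant
-/

open MeasureTheory Set Filter Topology

namespace Pool.Flat

open Pool.Mart

theorem DEGF_deriv {μ : Measure E3} {D : E3 → ℝ} {f : E3 → E3} {k : E3 → ℝ}
    (hD : Integrable D μ) (hf : AEStronglyMeasurable f μ) (hk : ContDiff ℝ 1 k)
    (hkc : HasCompactSupport k) (y e : E3) (t : ℝ) :
    HasDerivAt (fun t : ℝ => ∫ x, D x * k (f x - (y + t • e)) ∂μ)
      (∫ x, D x * (-(fderiv ℝ k (f x - (y + t • e)) e)) ∂μ) t := by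
  have hk' : Continuous (fderiv ℝ k) := hk.continuous_fderiv (by norm_num)
  obtain ⟨C, hC⟩ := hk'.bounded_above_of_compact_support (hkc.fderiv ℝ)
  obtain ⟨C', hC'⟩ := hk.continuous.bounded_above_of_compact_support hkc
  have hm : ∀ s : ℝ, AEStronglyMeasurable (fun x => f x - (y + s • e)) μ := fun s =>
    hf.sub aestronglyMeasurable_const
  have hm1 : ∀ s : ℝ, AEStronglyMeasurable (fun x => k (f x - (y + s • e))) μ := fun s =>
    hk.continuous.comp_aestronglyMeasurable (hm s)
  refine (hasDerivAt_integral_of_dominated_loc_of_deriv_le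
    (F := fun s x => D x * k (f x - (y + s • e)))
    (F' := fun s x => D x * (-(fderiv ℝ k (f x - (y + s • e)) e)))
    (bound := fun x => ‖D x‖ * (C * ‖e‖)) (Metric.ball_mem_nhds t one_pos) ?_ ?_ ?_ ?_ ?_ ?_).2
  · exact Eventually.of_forall fun s => hD.aestronglyMeasurable.mul (hm1 s)
  · refine (hD.bdd_mul (hm1 t) (ae_of_all _ fun x => hC' _)).congr (ae_of_all _ fun x => ?_)
    exact mul_comm _ _
  · refine hD.aestronglyMeasurable.mul ?_
    have h1 : Continuous fun z : E3 => -(fderiv ℝ k z e) := (hk'.clm_apply continuous_const).neg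
    exact h1.comp_aestronglyMeasurable (hm t)
  · refine ae_of_all _ fun x s _ => ?_
    rw [norm_mul, norm_neg]
    refine mul_le_mul_of_nonneg_left ?_ (norm_nonneg _)
    exact (ContinuousLinearMap.le_opNorm _ _).trans
      (mul_le_mul_of_nonneg_right (hC _) (norm_nonneg _))
  · exact hD.norm.mul_const _
  · refine ae_of_all _ fun x s _ => ?_
    have h1 : HasDerivAt (fun s : ℝ => f x - (y + s • e)) (-e) s := by
      have h2 : HasDerivAt (fun s : ℝ => s • e) e s := by
        simpa using (hasDerivAt_id s).smul_const e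
      simpa using (h2.const_add y).const_sub (f x)
    have h3 : HasFDerivAt k (fderiv ℝ k (f x - (y + s • e))) (f x - (y + s • e)) :=
      (hk.differentiable (by norm_num) _).hasFDerivAt
    have h4 := h3.comp_hasDerivAt s h1
    have h5 := h4.const_mul (D x)
    rw [map_neg] at h5
    exact h5

theorem DEGF_fub {μ : Measure E3} [SFinite μ] {D : E3 → ℝ} {f : E3 → E3} {ζ g : E3 → ℝ}
    (hD : Integrable D μ) (hf : AEStronglyMeasurable f μ) (hζ : Continuous ζ)
    (hζc : HasCompactSupport ζ) (hg : Integrable g) :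
    ∫ x, D x * (∫ y, ζ (f x - y) * g y) ∂μ = ∫ y, (∫ x, D x * ζ (f x - y) ∂μ) * g y := by
  have hint : Integrable (Function.uncurry fun x y => D x * (ζ (f x - y) * g y))
      (μ.prod volume) := by
    obtain ⟨C, hC⟩ := hζ.bounded_above_of_compact_support hζc
    have h1 : Integrable (fun z : E3 × E3 => D z.1 * g z.2) (μ.prod volume) := hD.mul_prod hg
    have h2 : AEStronglyMeasurable (fun z : E3 × E3 => ζ (f z.1 - z.2)) (μ.prod volume) :=
      hζ.comp_aestronglyMeasurable (hf.comp_fst.sub measurable_snd.aestronglyMeasurable)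
    have h3 := h1.bdd_mul h2 (ae_of_all _ fun z => hC _)
    refine h3.congr (ae_of_all _ fun z => ?_)
    simp only [Function.uncurry]
    ring
  calc ∫ x, D x * (∫ y, ζ (f x - y) * g y) ∂μ
      = ∫ x, (∫ y, D x * (ζ (f x - y) * g y)) ∂μ := by simp_rw [integral_const_mul]
    _ = ∫ y, (∫ x, D x * (ζ (f x - y) * g y) ∂μ) := integral_integral_swap hint
    _ = ∫ y, (∫ x, D x * ζ (f x - y) ∂μ) * g y := by
      refine integral_congr_ae (ae_of_all _ fun y => ?_)
      simp only
      rw [← integral_mul_const]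
      refine integral_congr_ae (ae_of_all _ fun x => ?_)
      simp only
      ring

theorem DEGF_sum (e : E3) : ∑ i : Fin 3, e i • EuclideanSpace.single i (1 : ℝ) = e := by
  ext j
  simp [Fin.sum_univ_three]
  fin_cases j <;> simp

theorem DEGF_divv {k : E3 → ℝ} (hk : ContDiff ℝ 1 k) (y e z : E3) :
    divv (fun z => k (z - y) • e) z = fderiv ℝ k (z - y) e := by
  have h1 : HasFDerivAt (fun z => k (z - y)) (fderiv ℝ k (z - y)) z := by
    have h2 : HasFDerivAt k (fderiv ℝ k (z - y)) (z - y) :=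
      (hk.differentiable (by norm_num) _).hasFDerivAt
    have h3 : HasFDerivAt (fun z : E3 => z - y) (ContinuousLinearMap.id ℝ E3) z :=
      (hasFDerivAt_id z).sub_const y
    have h4 := h2.comp z h3
    rw [ContinuousLinearMap.comp_id] at h4
    exact h4
  have h4 := (h1.smul_const e).fderiv
  unfold divv
  rw [h4]
  have h5 : ∀ i : Fin 3, (((fderiv ℝ k (z - y)).smulRight e)
      (EuclideanSpace.single i (1 : ℝ))) i
      = e i * fderiv ℝ k (z - y) (EuclideanSpace.single i (1 : ℝ)) := by
    intro i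
    simp [mul_comm]
  simp_rw [h5]
  conv_rhs => rw [← DEGF_sum e, map_sum]
  refine Finset.sum_congr rfl fun i _ => ?_
  rw [map_smul, smul_eq_mul]

theorem DEGF_piola (hPW : Pool.Mart.Stmt_PIOW) {Ω : Set E3} {f : E3 → E3} {A : E3 → M3}
    {p q : E3} {R ρ ρ1 : ℝ} (hΩ : IsOpen Ω) (hf : ContinuousOn f Ω) (hW : WeakGrad Ω f A)
    (hR : 0 < R) (hsub : Metric.closedBall p R ⊆ Ω) (hρ : ρ1 < ρ)
    (hsph : ∀ x, ‖x - p‖ = R → ρ ≤ ‖f x - q‖) {k : E3 → ℝ} (hk : ContDiff ℝ 1 k) {y e : E3}
    (hky : ∀ z, k (z - y) ≠ 0 → ‖z - q‖ ≤ ρ1) :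
    ∫ x in Metric.ball p R, (A x).det * fderiv ℝ k (f x - y) e = 0 := by
  have hcl : IsClosed (Metric.closedBall p R ∩ f ⁻¹' Metric.closedBall q ρ1) :=
    (hf.mono hsub).preimage_isClosed_of_isClosed Metric.isClosed_closedBall
      Metric.isClosed_closedBall
  have hK0 : Metric.closedBall p R ∩ f ⁻¹' Metric.closedBall q ρ1 ⊆ Metric.ball p R := by
    rintro x ⟨hx1, hx2⟩
    rw [Metric.mem_ball, dist_eq_norm]
    rw [Metric.mem_closedBall, dist_eq_norm] at hx1
    rw [mem_preimage, Metric.mem_closedBall, dist_eq_norm] at hx2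
    refine lt_of_le_of_ne hx1 fun h => ?_
    have := hsph x h
    linarith
  obtain ⟨R', ⟨hR'0, hR'R⟩, hK⟩ := exists_pos_lt_subset_ball hR hcl hK0
  let φ : ContDiffBump p := ⟨R', (R' + R) / 2, hR'0, by linarith⟩
  have hφts : tsupport (φ : E3 → ℝ) = Metric.closedBall p ((R' + R) / 2) := φ.tsupport_eq
  have hφts' : tsupport (φ : E3 → ℝ) ⊆ Metric.ball p R := by
    rw [hφts]
    exact Metric.closedBall_subset_ball (by linarith)
  have hk0 : ∀ z, ρ1 < ‖z - q‖ → k (z - y) = 0 := by
    intro z hz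
    by_contra h
    exact absurd (hky z h) (not_le.mpr hz)
  have hdk0 : ∀ z, ρ1 < ‖z - q‖ → fderiv ℝ k (z - y) = 0 := by
    intro z hz
    have h1 : k =ᶠ[𝓝 (z - y)] fun _ => (0 : ℝ) := by
      have h2 : ∀ᶠ w in 𝓝 (z - y), ρ1 < ‖(w + y) - q‖ := by
        have h3 : Continuous fun w : E3 => ‖(w + y) - q‖ := by fun_prop
        refine h3.continuousAt.eventually (lt_mem_nhds ?_)
        change ρ1 < ‖(z - y) + y - q‖
        rw [sub_add_cancel]
        exact hz
      filter_upwards [h2] with w hw
      have h4 := hk0 (w + y) hw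
      rwa [add_sub_cancel_right] at h4
    rw [h1.fderiv_eq]
    exact fderiv_const_apply 0
  have h := hPW Ω f A hΩ hf hW (fun z => k (z - y) • e) (φ : E3 → ℝ) univ isOpen_univ
    (by
      have h1 : ContDiff ℝ 1 fun z : E3 => k (z - y) := hk.comp (contDiff_id.sub contDiff_const)
      exact (h1.smul contDiff_const).contDiffOn)
    φ.contDiff φ.hasCompactSupport
    (hφts'.trans (Metric.ball_subset_closedBall.trans hsub)) (fun x _ => mem_univ _)
  have hl : ∀ x, cpair (A x) (k (f x - y) • e) (gradv (φ : E3 → ℝ) x) = 0 := by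
    intro x
    have hg0 : fderiv ℝ (φ : E3 → ℝ) x = 0 → cpair (A x) (k (f x - y) • e)
        (gradv (φ : E3 → ℝ) x) = 0 := by
      intro h0
      simp [cpair, gradv, h0]
    by_cases hx : x ∈ tsupport (φ : E3 → ℝ)
    · rcases le_or_gt ‖f x - q‖ ρ1 with h1 | h1
      · have hxK : x ∈ Metric.ball p R' := by
          apply hK
          refine ⟨Metric.ball_subset_closedBall (hφts' hx), ?_⟩
          rw [mem_preimage, Metric.mem_closedBall, dist_eq_norm]
          exact h1
        apply hg0
        have h2 : (φ : E3 → ℝ) =ᶠ[𝓝 x] fun _ => (1 : ℝ) := by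
          filter_upwards [Metric.isOpen_ball.mem_nhds hxK] with w hw
          exact φ.one_of_mem_closedBall (Metric.ball_subset_closedBall hw)
        rw [h2.fderiv_eq]
        exact fderiv_const_apply 1
      · rw [hk0 _ h1]
        simp [cpair]
    · exact hg0 (fderiv_of_notMem_tsupport ℝ hx)
  have hr : ∀ x, (φ : E3 → ℝ) x * ((A x).det * divv (fun z => k (z - y) • e) (f x))
      = (Metric.ball p R).indicator (fun x => (A x).det * fderiv ℝ k (f x - y) e) x := by
    intro x
    rw [DEGF_divv hk]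
    by_cases hx : x ∈ Metric.ball p R
    · rw [indicator_of_mem hx]
      rcases le_or_gt ‖f x - q‖ ρ1 with h1 | h1
      · have hxK : x ∈ Metric.ball p R' := by
          apply hK
          refine ⟨Metric.ball_subset_closedBall hx, ?_⟩
          rw [mem_preimage, Metric.mem_closedBall, dist_eq_norm]
          exact h1
        rw [φ.one_of_mem_closedBall (Metric.ball_subset_closedBall hxK), one_mul]
      · rw [hdk0 _ h1]
        simp
    · rw [indicator_of_notMem hx, φ.zero_of_le_dist, zero_mul]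
      rw [Metric.mem_ball, not_lt] at hx
      refine le_trans ?_ hx
      change (R' + R) / 2 ≤ R
      linarith
  simp only [hl, hr, integral_zero] at h
  rw [integral_indicator Metric.isOpen_ball.measurableSet] at h
  linarith

theorem DEGF_int (hPI : Pool.Mart.Stmt_PIOI) {Ω : Set E3} {f : E3 → E3} {A : E3 → M3}
    {p : E3} {R : ℝ} (hΩ : IsOpen Ω) (hf : ContinuousOn f Ω) (hW : WeakGrad Ω f A)
    (hsub : Metric.closedBall p R ⊆ Ω) :
    Integrable (fun x => (A x).det) (volume.restrict (Metric.ball p R)) :=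
  (hPI Ω f A hΩ hf hW (Metric.closedBall p R) (isCompact_closedBall p R) hsub).1.mono_set
    Metric.ball_subset_closedBall

theorem DEGF_transl (hPW : Pool.Mart.Stmt_PIOW) (hPI : Pool.Mart.Stmt_PIOI) {Ω : Set E3}
    {f : E3 → E3} {A : E3 → M3} {p q : E3} {R ρ ρ1 δ : ℝ} (hΩ : IsOpen Ω)
    (hf : ContinuousOn f Ω) (hW : WeakGrad Ω f A) (hR : 0 < R)
    (hsub : Metric.closedBall p R ⊆ Ω) (hρ : ρ1 + δ < ρ)
    (hsph : ∀ x, ‖x - p‖ = R → ρ ≤ ‖f x - q‖) {k : E3 → ℝ} (hk : ContDiff ℝ 1 k)
    (hkc : HasCompactSupport k) (hkδ : ∀ z, k z ≠ 0 → ‖z‖ ≤ δ) {y : E3} (hy : ‖y - q‖ ≤ ρ1) :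
    ∫ x in Metric.ball p R, (A x).det * k (f x - y)
      = ∫ x in Metric.ball p R, (A x).det * k (f x - q) := by
  have hD := DEGF_int hPI hΩ hf hW hsub
  have hfm : AEStronglyMeasurable f (volume.restrict (Metric.ball p R)) :=
    (hf.mono (Metric.ball_subset_closedBall.trans hsub)).aestronglyMeasurable
      Metric.isOpen_ball.measurableSet
  have hder := DEGF_deriv hD hfm hk hkc q (y - q)
  have h1 := constant_of_has_deriv_right_zero (a := 0) (b := 1)
    (f := fun t : ℝ => ∫ x in Metric.ball p R, (A x).det * k (f x - (q + t • (y - q))))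
    (fun t _ => (hder t).continuousAt.continuousWithinAt) (fun t ht => by
      have h2 := (hder t).hasDerivWithinAt (s := Ici t)
      have h3 : ∫ x in Metric.ball p R,
          (A x).det * (-(fderiv ℝ k (f x - (q + t • (y - q))) (y - q))) = 0 := by
        have h4 := DEGF_piola hPW hΩ hf hW hR hsub hρ hsph hk (y := q + t • (y - q))
          (e := y - q) (fun z hz => by
            have h5 := hkδ _ hz
            have h6 : z - q = (z - (q + t • (y - q))) + t • (y - q) := by abel
            have h7 : ‖t • (y - q)‖ ≤ ρ1 := by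
              rw [norm_smul, Real.norm_eq_abs, abs_of_nonneg ht.1]
              calc t * ‖y - q‖ ≤ 1 * ‖y - q‖ :=
                    mul_le_mul_of_nonneg_right ht.2.le (norm_nonneg _)
                _ ≤ ρ1 := by rw [one_mul]; exact hy
            rw [h6]
            refine (norm_add_le _ _).trans ?_
            linarith)
        simp only [mul_neg]
        rw [integral_neg, h4, neg_zero]
      rw [h3] at h2
      exact h2) 1 (right_mem_Icc.mpr zero_le_one)
  simp only [one_smul, zero_smul, add_zero] at h1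
  rw [add_sub_cancel] at h1
  exact h1

/-- The mollifiers. -/
noncomputable def DEGF_b (n : ℕ) : ContDiffBump (0 : E3) :=
  ⟨1 / (2 * ((n : ℝ) + 1)), 1 / ((n : ℝ) + 1), by positivity, by
    apply one_div_lt_one_div_of_lt
    · positivity
    · have : (0 : ℝ) ≤ n := Nat.cast_nonneg n
      linarith⟩

theorem DEGF_lim (hPW : Pool.Mart.Stmt_PIOW) (hPI : Pool.Mart.Stmt_PIOI) {Ω : Set E3}
    {f : E3 → E3} {A : E3 → M3} {p q : E3} {R ρ : ℝ} (hΩ : IsOpen Ω)
    (hf : ContinuousOn f Ω) (hW : WeakGrad Ω f A) (hR : 0 < R)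
    (hsub : Metric.closedBall p R ⊆ Ω) (hρ : 0 < ρ)
    (hsph : ∀ x, ‖x - p‖ = R → ρ ≤ ‖f x - q‖) {g : E3 → ℝ} (hg : Continuous g)
    (hgc : HasCompactSupport g) (hgs : tsupport g ⊆ Metric.ball q ρ) :
    Tendsto (fun n => (∫ x in Metric.ball p R, (A x).det * (DEGF_b n).normed volume (f x - q))
      * ∫ y, g y) atTop (𝓝 (∫ x in Metric.ball p R, (A x).det * g (f x))) := by
  have hD := DEGF_int hPI hΩ hf hW hsub
  have hfm : AEStronglyMeasurable f (volume.restrict (Metric.ball p R)) :=
    (hf.mono (Metric.ball_subset_closedBall.trans hsub)).aestronglyMeasurable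
      Metric.isOpen_ball.measurableSet
  have hgi : Integrable g := hg.integrable_of_hasCompactSupport hgc
  obtain ⟨ρ', ⟨hρ'0, hρ'ρ⟩, hgs'⟩ := exists_pos_lt_subset_ball hρ (isClosed_tsupport g) hgs
  obtain ⟨N1, hN1⟩ := exists_nat_one_div_lt (sub_pos.mpr hρ'ρ)
  -- the key identity
  have hkey : ∀ n, N1 ≤ n →
      (∫ x in Metric.ball p R, (A x).det * (DEGF_b n).normed volume (f x - q)) * ∫ y, g y
        = ∫ x in Metric.ball p R, (A x).det *
          (∫ y, (DEGF_b n).normed volume (f x - y) * g y) := by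
    intro n hn
    have hn1 : 1 / ((n : ℝ) + 1) < ρ - ρ' := by
      refine lt_of_le_of_lt (one_div_le_one_div_of_le (by positivity) ?_) hN1
      have : (N1 : ℝ) ≤ n := by exact_mod_cast hn
      linarith
    rw [DEGF_fub hD hfm (DEGF_b n).continuous_normed (DEGF_b n).hasCompactSupport_normed hgi,
      ← integral_const_mul]
    refine integral_congr_ae (ae_of_all _ fun y => ?_)
    simp only
    by_cases hy : y ∈ tsupport g
    · congr 1
      symm
      refine DEGF_transl hPW hPI (ρ1 := ρ') (δ := 1 / ((n : ℝ) + 1)) hΩ hf hW hR hsub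
        (by linarith) hsph (DEGF_b n).contDiff_normed (DEGF_b n).hasCompactSupport_normed ?_ ?_
      · intro z hz
        have h1 : z ∈ Function.support ((DEGF_b n).normed volume) := hz
        rw [ContDiffBump.support_normed_eq, Metric.mem_ball, dist_zero_right] at h1
        exact h1.le
      · have h2 := hgs' hy
        rw [Metric.mem_ball, dist_eq_norm] at h2
        exact h2.le
    · rw [image_eq_zero_of_notMem_tsupport hy, mul_zero, mul_zero]
  have hbg : ∃ C, ∀ x, ‖g x‖ ≤ C := hg.bounded_above_of_compact_support hgc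
  obtain ⟨Cg, hCg⟩ := hbg
  rw [Metric.tendsto_atTop]
  intro ε hε
  have hI0 : 0 ≤ ∫ x in Metric.ball p R, ‖(A x).det‖ := integral_nonneg fun x => norm_nonneg _
  have hM : 0 < (∫ x in Metric.ball p R, ‖(A x).det‖) + 1 := by linarith
  have huc := hgc.uniformContinuous_of_continuous hg
  rw [Metric.uniformContinuous_iff] at huc
  obtain ⟨δ, hδ, hδg⟩ := huc (ε / ((∫ x in Metric.ball p R, ‖(A x).det‖) + 1)) (div_pos hε hM)
  obtain ⟨N2, hN2⟩ := exists_nat_one_div_lt hδ
  refine ⟨max N1 N2, fun n hn => ?_⟩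
  have hn1 : N1 ≤ n := le_trans (le_max_left _ _) hn
  have hn2 : N2 ≤ n := le_trans (le_max_right _ _) hn
  have hnδ : 1 / ((n : ℝ) + 1) < δ := by
    refine lt_of_le_of_lt (one_div_le_one_div_of_le (by positivity) ?_) hN2
    have : (N2 : ℝ) ≤ n := by exact_mod_cast hn2
    linarith
  have hpt : ∀ z, |(∫ y, (DEGF_b n).normed volume (z - y) * g y) - g z|
      ≤ ε / ((∫ x in Metric.ball p R, ‖(A x).det‖) + 1) := by
    intro z
    have h1 := ContDiffBump.dist_normed_convolution_le (φ := DEGF_b n) (μ := volume) (g := g)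
      (x₀ := z) (ε := ε / ((∫ x in Metric.ball p R, ‖(A x).det‖) + 1))
      hg.aestronglyMeasurable (fun x hx => by
        refine (hδg ?_).le
        rw [Metric.mem_ball] at hx
        exact hx.trans hnδ)
    rw [convolution_eq_swap, Real.dist_eq] at h1
    exact h1
  rw [hkey n hn1, dist_eq_norm]
  have hint1 : Integrable (fun x => (A x).det *
      (∫ y, (DEGF_b n).normed volume (f x - y) * g y)) (volume.restrict (Metric.ball p R)) := by
    have hcont : Continuous fun z : E3 => ∫ y, (DEGF_b n).normed volume (z - y) * g y := by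
      have h2 : Continuous (convolution ((DEGF_b n).normed volume) g
          (ContinuousLinearMap.lsmul ℝ ℝ) (volume : Measure E3)) :=
        HasCompactSupport.continuous_convolution_right _ hgc
          ((DEGF_b n).continuous_normed.integrable_of_hasCompactSupport
            (DEGF_b n).hasCompactSupport_normed).locallyIntegrable hg
      refine h2.congr fun z => ?_
      rw [convolution_eq_swap]
      rfl
    refine (hD.bdd_mul (c := Cg + ε / ((∫ x in Metric.ball p R, ‖(A x).det‖) + 1))
      (hcont.comp_aestronglyMeasurable hfm) (ae_of_all _ fun x => ?_)).congr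
      (ae_of_all _ fun x => mul_comm _ _)
    have h3 := hpt (f x)
    have h4 := hCg (f x)
    rw [Real.norm_eq_abs] at h4 ⊢
    have h5 := abs_sub_abs_le_abs_sub (∫ y, (DEGF_b n).normed volume (f x - y) * g y) (g (f x))
    linarith
  have hint2 : Integrable (fun x => (A x).det * g (f x))
      (volume.restrict (Metric.ball p R)) :=
    (hD.bdd_mul (hg.comp_aestronglyMeasurable hfm) (ae_of_all _ fun x => hCg (f x))).congr
      (ae_of_all _ fun x => mul_comm _ _)
  rw [← integral_sub hint1 hint2]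
  have h6 : ‖∫ x in Metric.ball p R, ((A x).det *
      (∫ y, (DEGF_b n).normed volume (f x - y) * g y) - (A x).det * g (f x))‖
      ≤ ∫ x in Metric.ball p R, ‖(A x).det‖ *
        (ε / ((∫ x in Metric.ball p R, ‖(A x).det‖) + 1)) := by
    refine norm_integral_le_of_norm_le (hD.norm.mul_const _) (ae_of_all _ fun x => ?_)
    rw [← mul_sub, norm_mul]
    exact mul_le_mul_of_nonneg_left (hpt (f x)) (norm_nonneg _)
  refine lt_of_le_of_lt h6 ?_
  rw [integral_mul_const, mul_div_assoc', div_lt_iff₀ hM]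
  nlinarith

/-- DEGF: the degree formula with a real constant. -/
theorem p_DEGF (hPW : Pool.Mart.Stmt_PIOW) (hPI : Pool.Mart.Stmt_PIOI) : Stmt_DEGF := by
  intro Ω f A p q R ρ hΩ hf hW hR hsub hρ hsph
  let g0 : ContDiffBump q := ⟨ρ / 4, ρ / 2, by linarith, by linarith⟩
  have hg0 := DEGF_lim hPW hPI hΩ hf hW hR hsub hρ hsph (g := g0.normed volume)
    g0.continuous_normed g0.hasCompactSupport_normed (by
      rw [ContDiffBump.tsupport_normed_eq]
      exact Metric.closedBall_subset_ball (by change ρ / 2 < ρ; linarith))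
  rw [g0.integral_normed] at hg0
  refine ⟨∫ x in Metric.ball p R, (A x).det * g0.normed volume (f x), fun g hg hgc hgs => ?_⟩
  have h1 := DEGF_lim hPW hPI hΩ hf hW hR hsub hρ hsph hg hgc hgs
  have h2 := hg0.mul_const (∫ y, g y)
  simp only [mul_one] at h2
  exact tendsto_nhds_unique h1 h2

end Pool.Flat
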