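import Pool.Agent.Work.MP_680515_fl.Iface1

/-! # Block E1: doubling at the branch points -/

open MeasureTheory Set Filter Topology

namespace Pool.Flat

open Pool.Mart

/-- Points of the segment from `t` to `t + σ`. -/
theorem E1_seg (t σ u : ℝ) (ht : t ∈ Icc (-2 : ℝ) 2) (hσ : t + σ ∈ Icc (-2 : ℝ) 2)
    (hu : u ∈ Icc (0 : ℝ) 1) : t + σ * u ∈ Icc (-2 : ℝ) 2 := by
  obtain ⟨h1, h2⟩ := ht
  obtain ⟨h3, h4⟩ := hσ
  obtain ⟨h5, h6⟩ := hu
  constructor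
  · nlinarith [mul_nonneg (sub_nonneg.2 h6) (by linarith : (0 : ℝ) ≤ t + 2),
      mul_nonneg h5 (by linarith : (0 : ℝ) ≤ t + σ + 2)]
  · nlinarith [mul_nonneg (sub_nonneg.2 h6) (by linarith : (0 : ℝ) ≤ 2 - t),
      mul_nonneg h5 (by linarith : (0 : ℝ) ≤ 2 - (t + σ))]

/-- The recursion. -/
theorem E1_rec (H b : ℝ) (hH : 1 ≤ H) (hb : 0 ≤ b) (a : ℕ → ℝ) (n : ℕ)
    (h0 : ∀ j, j < 3 → a j ≤ H * b)
    (h1 : ∀ i, i + 3 ≤ n → a (i + 3) ≤ H * (a i + a (i + 2)) + a (i + 2)) :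
    ∀ j, j ≤ n → a j ≤ (1 + 2 * H) ^ j * (H * b) := by
  have hHb : 0 ≤ H * b := mul_nonneg (by linarith) hb
  have hone : (1 : ℝ) ≤ 1 + 2 * H := by linarith
  intro j
  induction j using Nat.strong_induction_on with
  | _ j ih =>
    intro hj
    rcases lt_or_ge j 3 with h3 | h3
    · calc a j ≤ 1 * (H * b) := by rw [one_mul]; exact h0 j h3
        _ ≤ (1 + 2 * H) ^ j * (H * b) :=
          mul_le_mul_of_nonneg_right (one_le_pow₀ hone) hHb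
    · obtain ⟨i, rfl⟩ : ∃ i, j = i + 3 := ⟨j - 3, by omega⟩
      have e1 := ih i (by omega) (by omega)
      have e2 := ih (i + 2) (by omega) (by omega)
      have e3 : (1 + 2 * H) ^ i * (H * b) ≤ (1 + 2 * H) ^ (i + 2) * (H * b) :=
        mul_le_mul_of_nonneg_right (pow_le_pow_right₀ hone (by omega)) hHb
      have e4 : a i + a (i + 2) ≤ 2 * ((1 + 2 * H) ^ (i + 2) * (H * b)) := by linarith
      calc a (i + 3) ≤ H * (a i + a (i + 2)) + a (i + 2) := h1 i hj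
        _ ≤ H * (2 * ((1 + 2 * H) ^ (i + 2) * (H * b))) + (1 + 2 * H) ^ (i + 2) * (H * b) :=
          add_le_add (mul_le_mul_of_nonneg_left e4 (by linarith)) e2
        _ = (1 + 2 * H) ^ (i + 3) * (H * b) := by ring

/-- One factor `2`. -/
theorem E1_step (hLINP : Stmt_LINP) (hARX : Stmt_ARX) (H : ℝ) (hH : 1 ≤ H) (ε r0 : ℝ)
    (Ω S : Set E3) (f : E3 → E3) (A : E3 → M3) (γ : ℝ → E3) (h0 : 0 ≤ ε) (h1 : ε ≤ 1 / 1000)
    (hT : Tube H ε r0 Ω S f A γ) (t : ℝ) (ht : t ∈ Icc (-2 : ℝ) 2) (x y : E3)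
    (hx : ‖x - γ t‖ ≤ 2 * r0) (hy : ‖y - γ t‖ ≤ 2 * r0) (hxy : ‖x - γ t‖ ≤ 2 * ‖y - γ t‖) :
    ‖f x - f (γ t)‖ ≤ H ^ 2 * (1 + 2 * H) ^ 12 * ‖f y - f (γ t)‖ := by
  have hr0 := hT.rpos
  rcases eq_or_lt_of_le (norm_nonneg (y - γ t)) with hr | hr
  · have h2 : ‖x - γ t‖ = 0 := le_antisymm (by linarith) (norm_nonneg _)
    have h3 : x = γ t := sub_eq_zero.1 (norm_eq_zero.1 h2)
    rw [h3, sub_self, norm_zero]
    positivity
  obtain ⟨r, hrdef⟩ : ∃ r : ℝ, r = ‖y - γ t‖ := ⟨_, rfl⟩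
  rw [← hrdef] at hr hy hxy
  obtain ⟨σ, hσ1, hσt⟩ : ∃ σ : ℝ, |σ| = 1 ∧ t + σ ∈ Icc (-2 : ℝ) 2 := by
    rcases le_total t 0 with h | h
    · exact ⟨1, by simp, by linarith [ht.1], by linarith⟩
    · exact ⟨-1, by simp, by linarith, by linarith [ht.2]⟩
  obtain ⟨s, hs, hsr⟩ := hARX H ε r0 Ω S f A γ hT t ht σ hσ1 hσt (4 * r) (by linarith)
    (by linarith)
  have hne : σ * s ≠ 0 := by
    intro h
    rw [h] at hsr
    have h2 : cv γ t 0 = 0 := by simp [cv]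
    rw [h2, norm_zero] at hsr
    linarith
  have habs : |σ * s| ≤ 1 := by
    rw [abs_mul, hσ1, one_mul, abs_of_nonneg hs.1]
    exact hs.2
  obtain ⟨-, hlin⟩ := hLINP ε γ h0 h1 hT.lin t ht (σ * s) hne habs (E1_seg t σ s ht hσt hs)
  obtain ⟨V, hV⟩ : ∃ V : E3, V = cv γ t (σ * s) := ⟨_, rfl⟩
  rw [← hV] at hlin hsr
  obtain ⟨τ, hτdef⟩ : ∃ τ : ℕ → ℝ, ∀ j, τ j = t + σ * s * ((j : ℝ) / 16) := ⟨_, fun _ => rfl⟩
  have hj01 : ∀ j : ℕ, j ≤ 16 → (0 : ℝ) ≤ (j : ℝ) / 16 ∧ (j : ℝ) / 16 ≤ 1 := by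
    intro j hj
    have : (j : ℝ) ≤ 16 := by exact_mod_cast hj
    constructor
    · positivity
    · linarith
  have hτ : ∀ j : ℕ, j ≤ 16 → τ j ∈ Icc (-2 : ℝ) 2 := by
    intro j hj
    obtain ⟨e1, e2⟩ := hj01 j hj
    rw [hτdef, mul_assoc]
    refine E1_seg t σ _ ht hσt ⟨mul_nonneg hs.1 e1, ?_⟩
    calc s * ((j : ℝ) / 16) ≤ 1 * 1 := mul_le_mul hs.2 e2 e1 zero_le_one
      _ = 1 := one_mul 1
  have hq : ∀ j : ℕ, j ≤ 16 → ‖γ (τ j) - γ t - ((j : ℝ) / 16) • V‖ ≤ 16 / 1000 * r := by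
    intro j hj
    obtain ⟨e1, e2⟩ := hj01 j hj
    have h2 := hlin (σ * s * ((j : ℝ) / 16)) (by
      rw [abs_mul, abs_of_nonneg e1]
      calc |σ * s| * ((j : ℝ) / 16) ≤ |σ * s| * 1 := mul_le_mul_of_nonneg_left e2 (abs_nonneg _)
        _ = |σ * s| := mul_one _) (by rw [← hτdef]; exact hτ j hj)
    rw [mul_div_cancel_left₀ _ hne, hsr] at h2
    have h3 : cv γ t (σ * s * ((j : ℝ) / 16)) = γ (τ j) - γ t := by
      rw [hτdef]
      rfl
    rw [h3] at h2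
    have h4 : 4 * ε * (4 * r) ≤ 16 / 1000 * r := by
      have := mul_le_mul_of_nonneg_right h1 hr.le
      linarith
    exact h2.trans h4
  have hqq : ∀ i j : ℕ, i ≤ 16 → j ≤ 16 →
      ‖(γ (τ i) - γ (τ j)) - (((i : ℝ) / 16) - (j : ℝ) / 16) • V‖ ≤ 32 / 1000 * r := by
    intro i j hi hj
    have h2 : (γ (τ i) - γ (τ j)) - (((i : ℝ) / 16) - (j : ℝ) / 16) • V =
        (γ (τ i) - γ t - ((i : ℝ) / 16) • V) - (γ (τ j) - γ t - ((j : ℝ) / 16) • V) := by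
      rw [sub_smul]
      abel
    rw [h2]
    refine (norm_sub_le _ _).trans ?_
    have := hq i hi
    have := hq j hj
    linarith
  have hup : ∀ i j : ℕ, i ≤ 16 → j ≤ 16 → ‖γ (τ i) - γ (τ j)‖ ≤
      |((i : ℝ) / 16) - (j : ℝ) / 16| * (4 * r) + 32 / 1000 * r := by
    intro i j hi hj
    have h2 := norm_add_le ((γ (τ i) - γ (τ j)) - (((i : ℝ) / 16) - (j : ℝ) / 16) • V)
      ((((i : ℝ) / 16) - (j : ℝ) / 16) • V)
    rw [sub_add_cancel, norm_smul, Real.norm_eq_abs, hsr] at h2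
    linarith [hqq i j hi hj]
  have hlo : ∀ i j : ℕ, i ≤ 16 → j ≤ 16 →
      |((i : ℝ) / 16) - (j : ℝ) / 16| * (4 * r) - 32 / 1000 * r ≤ ‖γ (τ i) - γ (τ j)‖ := by
    intro i j hi hj
    have h2 := norm_sub_le (γ (τ i) - γ (τ j))
      ((γ (τ i) - γ (τ j)) - (((i : ℝ) / 16) - (j : ℝ) / 16) • V)
    rw [sub_sub_cancel, norm_smul, Real.norm_eq_abs, hsr] at h2
    linarith [hqq i j hi hj]
  have hτ0 : τ 0 = t := by
    rw [hτdef]
    simp
  -- the distances to `p`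
  have hpj : ∀ j : ℕ, j ≤ 12 → ‖γ (τ j) - γ t‖ ≤ (j : ℝ) / 4 * r + 32 / 1000 * r := by
    intro j hj
    have h2 := hup j 0 (by omega) (by omega)
    rw [hτ0] at h2
    have h3 : |((j : ℝ) / 16) - ((0 : ℕ) : ℝ) / 16| = (j : ℝ) / 16 := by
      rw [Nat.cast_zero, zero_div, sub_zero]
      exact abs_of_nonneg (by positivity)
    rw [h3] at h2
    linarith
  have hmemp : ∀ j : ℕ, j ≤ 12 → γ (τ j) ∈ Metric.closedBall (γ t) (8 * r0) := by
    intro j hj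
    rw [mem_closedBall_iff_norm]
    have h2 := hpj j hj
    have h3 : (j : ℝ) ≤ 12 := by exact_mod_cast hj
    have h4 : (j : ℝ) * r ≤ 12 * r := mul_le_mul_of_nonneg_right h3 hr.le
    linarith
  have hyb : y ∈ Metric.closedBall (γ t) (8 * r0) := by
    rw [mem_closedBall_iff_norm, ← hrdef]
    linarith
  have hxb : x ∈ Metric.closedBall (γ t) (8 * r0) := by
    rw [mem_closedBall_iff_norm]
    linarith
  have hsmall : ∀ j : ℕ, j < 3 → ‖f (γ (τ j)) - f (γ t)‖ ≤ H * ‖f y - f (γ t)‖ := by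
    intro j hj
    refine hT.br t ht _ (hmemp j (by omega)) y hyb ?_
    have h2 := hpj j (by omega)
    have h3 : (j : ℝ) ≤ 3 := by exact_mod_cast hj.le
    have h4 : (j : ℝ) * r ≤ 3 * r := mul_le_mul_of_nonneg_right h3 hr.le
    rw [← hrdef]
    linarith
  have hstep : ∀ i : ℕ, i + 3 ≤ 12 → ‖f (γ (τ (i + 3))) - f (γ t)‖ ≤
      H * (‖f (γ (τ i)) - f (γ t)‖ + ‖f (γ (τ (i + 2))) - f (γ t)‖) +
        ‖f (γ (τ (i + 2))) - f (γ t)‖ := by
    intro i hi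
    have h2 := hup (i + 3) (i + 2) (by omega) (by omega)
    have h3 := hlo i (i + 2) (by omega) (by omega)
    have h4 := hup i (i + 2) (by omega) (by omega)
    have e1 : |(((i + 3 : ℕ) : ℝ) / 16) - ((i + 2 : ℕ) : ℝ) / 16| = 1 / 16 := by
      have : (((i + 3 : ℕ) : ℝ) / 16) - ((i + 2 : ℕ) : ℝ) / 16 = 1 / 16 := by
        push_cast
        ring
      rw [this]
      exact abs_of_nonneg (by norm_num)
    have e2 : |((i : ℝ) / 16) - ((i + 2 : ℕ) : ℝ) / 16| = 1 / 8 := by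
      have : ((i : ℝ) / 16) - ((i + 2 : ℕ) : ℝ) / 16 = -(1 / 8) := by
        push_cast
        ring
      rw [this, abs_neg]
      exact abs_of_nonneg (by norm_num)
    rw [e1] at h2
    rw [e2] at h3 h4
    have hbr := hT.br (τ (i + 2)) (hτ _ (by omega)) (γ (τ (i + 3)))
      (by rw [mem_closedBall_iff_norm]; linarith) (γ (τ i))
      (by rw [mem_closedBall_iff_norm]; linarith) (by linarith)
    have h5 : ‖f (γ (τ (i + 3))) - f (γ t)‖ ≤ ‖f (γ (τ (i + 3))) - f (γ (τ (i + 2)))‖ +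
        ‖f (γ (τ (i + 2))) - f (γ t)‖ := by
      have := norm_add_le (f (γ (τ (i + 3))) - f (γ (τ (i + 2)))) (f (γ (τ (i + 2))) - f (γ t))
      rwa [sub_add_sub_cancel] at this
    have h6 : ‖f (γ (τ i)) - f (γ (τ (i + 2)))‖ ≤ ‖f (γ (τ i)) - f (γ t)‖ +
        ‖f (γ (τ (i + 2))) - f (γ t)‖ := by
      have := norm_sub_le (f (γ (τ i)) - f (γ t)) (f (γ (τ (i + 2))) - f (γ t))
      rwa [sub_sub_sub_cancel_right] at this
    have h7 := mul_le_mul_of_nonneg_left h6 (by linarith : (0 : ℝ) ≤ H)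
    linarith
  have h12 := E1_rec H ‖f y - f (γ t)‖ hH (norm_nonneg _)
    (fun j => ‖f (γ (τ j)) - f (γ t)‖) 12 hsmall hstep 12 le_rfl
  have hfar : ‖x - γ t‖ ≤ ‖γ (τ 12) - γ t‖ := by
    have h2 := hlo 12 0 (by omega) (by omega)
    rw [hτ0] at h2
    have h3 : |(((12 : ℕ) : ℝ) / 16) - ((0 : ℕ) : ℝ) / 16| = 3 / 4 := by
      rw [Nat.cast_zero, zero_div, sub_zero]
      rw [abs_of_nonneg (by positivity)]
      norm_num
    rw [h3] at h2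
    linarith
  have hbr := hT.br t ht x hxb (γ (τ 12)) (hmemp 12 le_rfl) hfar
  calc ‖f x - f (γ t)‖ ≤ H * ‖f (γ (τ 12)) - f (γ t)‖ := hbr
    _ ≤ H * ((1 + 2 * H) ^ 12 * (H * ‖f y - f (γ t)‖)) :=
      mul_le_mul_of_nonneg_left h12 (by linarith)
    _ = _ := by ring

theorem p_E1 (hLINP : Stmt_LINP) (hARX : Stmt_ARX) : Stmt_E1 := by
  intro H hH
  have hD1 : (1 : ℝ) ≤ H ^ 2 * (1 + 2 * H) ^ 12 := by
    have e1 : (1 : ℝ) ≤ H ^ 2 := one_le_pow₀ hH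
    have e2 : (1 : ℝ) ≤ (1 + 2 * H) ^ 12 := one_le_pow₀ (by linarith)
    calc (1 : ℝ) = 1 * 1 := (one_mul 1).symm
      _ ≤ _ := mul_le_mul e1 e2 zero_le_one (by positivity)
  refine ⟨H ^ 2 * (1 + 2 * H) ^ 12, hD1, ?_⟩
  intro ε r0 Ω S f A γ h0 h1 hT t ht k
  have hr0 := hT.rpos
  induction k with
  | zero =>
    intro x hx y hy hxy
    rw [pow_zero, one_mul] at hxy
    rw [mem_closedBall_iff_norm] at hx hy
    have h2 := E1_step hLINP hARX H hH ε r0 Ω S f A γ h0 h1 hT t ht x y hx hy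
      (by linarith [norm_nonneg (y - γ t)])
    rw [zero_add, pow_one]
    exact h2
  | succ k ih =>
    intro x hx y hy hxy
    rw [mem_closedBall_iff_norm] at hx
    obtain ⟨z, hz⟩ : ∃ z : E3, z = γ t + (1 / 2 : ℝ) • (x - γ t) := ⟨_, rfl⟩
    have hzn : ‖z - γ t‖ = 1 / 2 * ‖x - γ t‖ := by
      rw [hz, add_sub_cancel_left, norm_smul, Real.norm_eq_abs,
        abs_of_nonneg (by norm_num : (0 : ℝ) ≤ 1 / 2)]
    have hzb : z ∈ Metric.closedBall (γ t) (2 * r0) := by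
      rw [mem_closedBall_iff_norm, hzn]
      linarith [norm_nonneg (x - γ t)]
    have h2 := ih z hzb y hy (by
      rw [hzn]
      rw [pow_succ] at hxy
      linarith)
    rw [mem_closedBall_iff_norm] at hzb
    have h3 := E1_step hLINP hARX H hH ε r0 Ω S f A γ h0 h1 hT t ht x z hx hzb (by
      rw [hzn]
      linarith)
    calc ‖f x - f (γ t)‖ ≤ H ^ 2 * (1 + 2 * H) ^ 12 * ‖f z - f (γ t)‖ := h3
      _ ≤ H ^ 2 * (1 + 2 * H) ^ 12 *
          ((H ^ 2 * (1 + 2 * H) ^ 12) ^ (k + 1) * ‖f y - f (γ t)‖) :=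
        mul_le_mul_of_nonneg_left h2 (by linarith)
      _ = (H ^ 2 * (1 + 2 * H) ^ 12) ^ (k + 1 + 1) * ‖f y - f (γ t)‖ := by ring

end Pool.Flat
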