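import Pool.Agent.Work.MP_680515_fl.Iface1

/-!
# MP_680515_an, THEOREM FB: block ENC
-/

open MeasureTheory Set Filter Topology

namespace Pool.Flat

open Pool.Mart

theorem ENC_vol (q : E3) {m : ℝ} (hm : 0 < m) (g : ContDiffBump q) (hg : g.rOut = 2 * m) :
    ∫ y, g y ≤ 8 * m ^ 3 * volume.real (Metric.ball (0 : E3) 1) := by
  have h1 : ∫ y, g y = ∫ y in Metric.closedBall q (2 * m), g y := by
    rw [setIntegral_eq_integral_of_forall_compl_eq_zero]
    intro y hy
    refine g.zero_of_le_dist ?_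
    rw [hg]
    rw [Metric.mem_closedBall] at hy
    exact (not_le.1 hy).le
  rw [h1]
  have hfin : volume (Metric.closedBall q (2 * m)) < ⊤ := measure_closedBall_lt_top
  have h2 : ∫ y in Metric.closedBall q (2 * m), g y ≤
      ∫ _y in Metric.closedBall q (2 * m), (1 : ℝ) := by
    refine setIntegral_mono_on ?_ ?_ measurableSet_closedBall fun y _ => g.le_one
    · exact (g.continuous.integrable_of_hasCompactSupport g.hasCompactSupport).integrableOn
    · exact integrableOn_const hfin.ne
  refine h2.trans ?_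
  rw [setIntegral_const, smul_eq_mul, mul_one, Measure.addHaar_real_closedBall _ _ (by positivity),
    finrank_euclideanSpace_fin]
  refine le_of_eq ?_
  ring

theorem p_ENC (hE1 : Stmt_E1) (hE2 : Stmt_E2) (hPIOI : Pool.Mart.Stmt_PIOI) : Stmt_ENC := by
  intro H hH
  obtain ⟨D, hD1, hD⟩ := hE1 H hH
  have hD0 : 0 < D := by linarith
  obtain ⟨δ, hδ0, hδ1, hδ⟩ := hE2 H (1 / (3 * D ^ 2)) hH (by positivity)
  have hV : 0 < volume.real (Metric.ball (0 : E3) 1) := by
    have h1 : 0 < volume (Metric.ball (0 : E3) 1) := Metric.measure_ball_pos _ _ one_pos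
    exact ENNReal.toReal_pos h1.ne' measure_ball_lt_top.ne
  refine ⟨32 * volume.real (Metric.ball (0 : E3) 1) * D ^ 6, min δ (1 / 8), by positivity,
    lt_min hδ0 (by norm_num), min_le_right _ _, ?_⟩
  intro ε r0 Ω S f A γ hε0 hε1 hT t ht c hdeg r hr hrδ y hy
  set p : E3 := γ t with hp
  have hr0 : 0 < r0 := hT.rpos
  have ht2 : t ∈ Icc (-2 : ℝ) 2 := ⟨by linarith [ht.1], by linarith [ht.2]⟩
  have hrδ' : r ≤ δ * r0 := hrδ.trans (mul_le_mul_of_nonneg_right (min_le_left _ _) hr0.le)
  have hr8 : r ≤ 1 / 8 * r0 := hrδ.trans (mul_le_mul_of_nonneg_right (min_le_right _ _) hr0.le)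
  have hyb : y ∈ Metric.closedBall p (2 * r0) := by
    rw [Metric.mem_closedBall, dist_eq_norm, hy]; linarith
  have hyp : y ≠ p := by
    rintro rfl
    rw [sub_self, norm_zero] at hy
    linarith
  have hF : 0 < ‖f y - f p‖ := by
    rw [norm_pos_iff, sub_ne_zero]
    intro he
    refine hyp (hT.inj t ht2 y ?_ he)
    exact Metric.closedBall_subset_closedBall (by linarith) hyb
  set F : ℝ := ‖f y - f p‖ with hFd
  set m : ℝ := D ^ 2 * F with hm
  have hm0 : 0 < m := by positivity
  have hin : ∀ x ∈ Metric.closedBall p (2 * r), ‖f x - f p‖ ≤ m := by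
    intro x hx
    have hx' : ‖x - p‖ ≤ 2 * r := by rwa [Metric.mem_closedBall, dist_eq_norm] at hx
    have h := hD ε r0 Ω S f A γ hε0 hε1 hT t ht2 1 x (by
      rw [Metric.mem_closedBall, dist_eq_norm]; linarith) y hyb (by rw [hy, pow_one]; exact hx')
    exact h
  have hout : ∀ x, ‖x - p‖ = r0 → 3 * m ≤ ‖f x - f p‖ := by
    intro x hx
    have h := hδ ε r0 Ω S f A γ hε0 hε1 hT t ht2 y hyb x (by
      rw [Metric.mem_closedBall, dist_eq_norm, hx]; linarith) (by rw [hx, hy]; exact hrδ')
    have h1 : F ≤ 1 / (3 * D ^ 2) * ‖f x - f p‖ := h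
    rw [one_div, inv_mul_eq_div, le_div_iff₀ (by positivity)] at h1
    calc 3 * m = F * (3 * D ^ 2) := by rw [hm]; ring
      _ ≤ ‖f x - f p‖ := h1
  let g : ContDiffBump (f p) := ⟨m, 2 * m, hm0, by linarith⟩
  have hgo : g.rOut = 2 * m := rfl
  have hgt : tsupport (g : E3 → ℝ) ⊆ Metric.ball (f p) (3 * m) := by
    rw [g.tsupport_eq, hgo]
    exact Metric.closedBall_subset_ball (by linarith)
  have hd := hdeg.deg (3 * m) (by positivity) hout g g.continuous g.hasCompactSupport hgt
  have hsub8 : Metric.closedBall p (8 * r0) ⊆ Ω := hT.sub t ht2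
  have hK : Metric.closedBall p r0 ⊆ Ω :=
    (Metric.closedBall_subset_closedBall (by linarith)).trans hsub8
  have hKc : IsCompact (Metric.closedBall p r0) := isCompact_closedBall _ _
  obtain ⟨hI1, hI3, -, -⟩ := hPIOI Ω f A hT.op hT.cont hT.wg _ hKc hK
  have hbb : Metric.ball p (2 * r) ⊆ Metric.ball p r0 :=
    Metric.ball_subset_ball (by linarith)
  have hbK : Metric.ball p r0 ⊆ Metric.closedBall p r0 := Metric.ball_subset_closedBall
  have hJ3 : IntegrableOn (fun x => opn (A x) ^ 3) (Metric.ball p (2 * r)) :=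
    hI3.mono_set (hbb.trans hbK)
  refine ⟨hJ3, ?_⟩
  have hgc : ContinuousOn (fun x => g (f x)) (Metric.closedBall p r0) :=
    g.continuous.comp_continuousOn (hT.cont.mono hK)
  have hIg : IntegrableOn (fun x => (A x).det * g (f x)) (Metric.closedBall p r0) :=
    hI1.mul_continuousOn hgc hKc
  have hIg1 : IntegrableOn (fun x => (A x).det * g (f x)) (Metric.ball p r0) := hIg.mono_set hbK
  have hIg2 : IntegrableOn (fun x => (A x).det * g (f x)) (Metric.ball p (2 * r)) :=
    hIg1.mono_set hbb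
  have hgood : ∀ᵐ x ∂(volume.restrict (Metric.ball p r0)), Good (A x) :=
    ae_restrict_of_ae_restrict_of_subset (hbK.trans hK) hT.good
  have hgood2 : ∀ᵐ x ∂(volume.restrict (Metric.ball p (2 * r))), Good (A x) :=
    ae_restrict_of_ae_restrict_of_subset ((hbb.trans hbK).trans hK) hT.good
  have hon : ∀ M : M3, 0 ≤ opn M := fun M => norm_nonneg _
  have hdet : ∀ M : M3, Good M → 0 ≤ M.det := by
    intro M hM
    have h1 := hM.2
    have h2 : 0 ≤ opn M ^ 3 := pow_nonneg (hon M) 3
    linarith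
  -- the inner ball
  have s1 : ∫ x in Metric.ball p (2 * r), opn (A x) ^ 3 ≤
      ∫ x in Metric.ball p (2 * r), 4 * ((A x).det * g (f x)) := by
    refine integral_mono_ae hJ3 (hIg2.const_mul 4) ?_
    filter_upwards [hgood2, ae_restrict_mem measurableSet_ball] with x hx hxb
    have hg1 : g (f x) = 1 := by
      refine g.one_of_mem_closedBall ?_
      rw [Metric.mem_closedBall, dist_eq_norm]
      exact hin x (Metric.ball_subset_closedBall hxb)
    rw [hg1, mul_one]
    exact hx.2
  have s2 : ∫ x in Metric.ball p (2 * r), (A x).det * g (f x) ≤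
      ∫ x in Metric.ball p r0, (A x).det * g (f x) := by
    refine setIntegral_mono_set hIg1 ?_ (HasSubset.Subset.eventuallyLE hbb)
    filter_upwards [hgood] with x hx
    exact mul_nonneg (hdet _ hx) g.nonneg
  rw [integral_const_mul] at s1
  have s3 := ENC_vol (f p) hm0 g hgo
  have hc0 : (0 : ℝ) ≤ c := Nat.cast_nonneg c
  calc ∫ x in Metric.ball p (2 * r), opn (A x) ^ 3
      ≤ 4 * ∫ x in Metric.ball p (2 * r), (A x).det * g (f x) := s1
    _ ≤ 4 * ∫ x in Metric.ball p r0, (A x).det * g (f x) := by linarith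
    _ = 4 * (c * ∫ y, g y) := by rw [hd]
    _ ≤ 4 * (c * (8 * m ^ 3 * volume.real (Metric.ball (0 : E3) 1))) := by
        have := mul_le_mul_of_nonneg_left s3 hc0
        linarith
    _ = 32 * volume.real (Metric.ball (0 : E3) 1) * D ^ 6 * c * F ^ 3 := by
        rw [hm]; ring

end Pool.Flat
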