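import Pool.Agent.Work.MP_680515_fl.Iface4

/-!
# MP_680515_an, THEOREM FC, block EQC: equicontinuity on Whitney balls
-/

open MeasureTheory Set Filter Topology

namespace Pool.Flat

open Pool.Mart

/-- A linear functional has its maximum over a ball on the sphere if the map is open. -/
theorem EQC_max (f : E3 → E3) (z : E3) (ρ : ℝ) (hρ : 0 < ρ)
    (hc : ContinuousOn f (Metric.closedBall z ρ)) (ho : IsOpen (f '' Metric.ball z ρ))
    (σ : ℝ) (hσ : σ ^ 2 = 1) (i : Fin 3) :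
    ∃ x1 : E3, ‖x1 - z‖ = ρ ∧ ∀ x ∈ Metric.closedBall z ρ, σ * f x i ≤ σ * f x1 i := by
  have hcont : ContinuousOn (fun x => σ * f x i) (Metric.closedBall z ρ) := by
    have h1 : Continuous (fun y : E3 => σ * y i) :=
      continuous_const.mul (EuclideanSpace.proj (𝕜 := ℝ) i).continuous
    exact h1.comp_continuousOn hc
  obtain ⟨x1, hx1, hmax⟩ := (isCompact_closedBall z ρ).exists_isMaxOn
    ⟨z, Metric.mem_closedBall_self hρ.le⟩ hcont
  refine ⟨x1, ?_, fun x hx => hmax hx⟩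
  rw [Metric.mem_closedBall, dist_eq_norm] at hx1
  by_contra hne
  have hlt : ‖x1 - z‖ < ρ := lt_of_le_of_ne hx1 hne
  have hb : x1 ∈ Metric.ball z ρ := by rw [Metric.mem_ball, dist_eq_norm]; exact hlt
  have hmem : f x1 ∈ f '' Metric.ball z ρ := ⟨x1, hb, rfl⟩
  obtain ⟨ε, hε, hsub⟩ := Metric.isOpen_iff.1 ho _ hmem
  have h1 : f x1 + (ε / 2) • (σ • (EuclideanSpace.single i (1 : ℝ) : E3)) ∈
      Metric.ball (f x1) ε := by
    rw [Metric.mem_ball, dist_eq_norm, add_sub_cancel_left, norm_smul, norm_smul,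
      Real.norm_eq_abs, Real.norm_eq_abs, abs_of_pos (by linarith : (0 : ℝ) < ε / 2)]
    have h2 : |σ| = 1 := by
      have := sq_abs σ
      rw [hσ] at this
      have h0 := abs_nonneg σ
      nlinarith
    rw [h2]
    simp
    linarith
  obtain ⟨w, hw, hwe⟩ := hsub h1
  have h3 := hmax (Metric.ball_subset_closedBall hw)
  simp only [mem_setOf_eq] at h3
  rw [hwe] at h3
  have h4 : (f x1 + (ε / 2) • (σ • (EuclideanSpace.single i (1 : ℝ) : E3))) i =
      f x1 i + ε / 2 * σ := by simp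
  rw [h4] at h3
  have h5 : σ * (f x1 i + ε / 2 * σ) = σ * f x1 i + ε / 2 * σ ^ 2 := by ring
  rw [h5, hσ] at h3
  linarith

theorem EQC_osc (f : E3 → E3) (z : E3) (ρ : ℝ) (hρ : 0 < ρ)
    (hc : ContinuousOn f (Metric.closedBall z ρ)) (ho : IsOpen (f '' Metric.ball z ρ))
    (i : Fin 3) (x : E3) (hx : ‖x - z‖ ≤ ρ) :
    ∃ x1 x2 : E3, ‖x1 - z‖ = ρ ∧ ‖x2 - z‖ = ρ ∧ |f x i - f z i| ≤ |f x1 i - f x2 i| := by
  obtain ⟨x1, h1, m1⟩ := EQC_max f z ρ hρ hc ho 1 (by norm_num) i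
  obtain ⟨x2, h2, m2⟩ := EQC_max f z ρ hρ hc ho (-1) (by norm_num) i
  refine ⟨x1, x2, h1, h2, ?_⟩
  have hxb : x ∈ Metric.closedBall z ρ := by rw [Metric.mem_closedBall, dist_eq_norm]; exact hx
  have hzb : z ∈ Metric.closedBall z ρ := Metric.mem_closedBall_self hρ.le
  have a1 := m1 x hxb
  have a2 := m1 z hzb
  have a3 := m2 x hxb
  have a4 := m2 z hzb
  refine le_trans ?_ (le_abs_self _)
  rw [abs_le]
  constructor <;> linarith

theorem EQC_comp (v : E3) (t : ℝ) (ht : 0 < t) (h : t < ‖v‖) : ∃ i : Fin 3, t / 2 ≤ |v i| := by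
  by_contra hno
  push Not at hno
  have h1 : ‖v‖ ^ 2 = v 0 ^ 2 + v 1 ^ 2 + v 2 ^ 2 := by
    rw [← real_inner_self_eq_norm_sq, PiLp.inner_apply, Fin.sum_univ_three]
    simp [sq]
  have h2 : ∀ i, v i ^ 2 ≤ (t / 2) ^ 2 := by
    intro i
    rw [← sq_abs]
    exact pow_le_pow_left₀ (abs_nonneg _) (hno i).le 2
  have h3 := h2 0
  have h4 := h2 1
  have h5 := h2 2
  nlinarith [norm_nonneg v]

/-- The bump function. -/
noncomputable def EQC_b : ContDiffBump (0 : E3) := ⟨1, 2, by norm_num, by norm_num⟩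

/-- The coordinate, cut off. -/
noncomputable def EQC_Φ (i : Fin 3) (y : E3) : ℝ := y i * EQC_b y

theorem EQC_Φ_cd (i : Fin 3) : ContDiff ℝ 1 (EQC_Φ i) := by
  unfold EQC_Φ
  exact ((EuclideanSpace.proj (𝕜 := ℝ) i).contDiff).mul EQC_b.contDiff

theorem EQC_Φ_cs (i : Fin 3) : HasCompactSupport (EQC_Φ i) := by
  unfold EQC_Φ
  exact EQC_b.hasCompactSupport.mul_left

theorem EQC_Φ_eq (i : Fin 3) (y : E3) (h : ‖y‖ ≤ 1) : EQC_Φ i y = y i := by
  unfold EQC_Φ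
  rw [EQC_b.one_of_mem_closedBall, mul_one]
  rw [Metric.mem_closedBall, dist_zero_right]
  exact h

/-- Scaling of the energy. -/
theorem EQC_scale (Φ : E3 → ℝ) (hΦ : ContDiff ℝ 1 Φ) (p : E3) (r : ℝ) (hr : 0 < r) :
    ∫ y, ‖gradv (fun y => Φ (r⁻¹ • (y - p))) y‖ ^ 3 = ∫ y, ‖gradv Φ y‖ ^ 3 := by
  have h1 : ∀ y, gradv (fun y => Φ (r⁻¹ • (y - p))) y = r⁻¹ • gradv Φ (r⁻¹ • (y - p)) := by
    intro y
    have hd : HasFDerivAt (fun y => Φ (r⁻¹ • (y - p)))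
        ((fderiv ℝ Φ (r⁻¹ • (y - p))).comp (r⁻¹ • ContinuousLinearMap.id ℝ E3)) y := by
      have h2 : HasFDerivAt (fun y : E3 => r⁻¹ • (y - p)) (r⁻¹ • ContinuousLinearMap.id ℝ E3) y :=
        ((hasFDerivAt_id y).sub_const p).const_smul r⁻¹
      exact ((hΦ.differentiable (by norm_num)) _).hasFDerivAt.comp y h2
    ext j
    simp only [gradv, hd.fderiv]
    simp
  have h2 : ∀ y, ‖gradv (fun y => Φ (r⁻¹ • (y - p))) y‖ ^ 3 =
      (fun w => r⁻¹ ^ 3 * ‖gradv Φ (r⁻¹ • w)‖ ^ 3) (y - p) := by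
    intro y
    simp only
    rw [h1, norm_smul, mul_pow, norm_inv, Real.norm_eq_abs, abs_of_pos hr]
  simp only [h2]
  rw [integral_sub_right_eq_self (fun w => r⁻¹ ^ 3 * ‖gradv Φ (r⁻¹ • w)‖ ^ 3) p,
    integral_const_mul, Measure.integral_comp_smul volume (fun w => ‖gradv Φ w‖ ^ 3) r⁻¹]
  have h3 : Module.finrank ℝ E3 = 3 := by simp
  rw [h3, abs_of_pos (by positivity), smul_eq_mul, ← mul_assoc]
  have h4 : r⁻¹ ^ 3 * (r⁻¹ ^ 3)⁻¹ = 1 := mul_inv_cancel₀ (by positivity)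
  rw [h4, one_mul]

theorem p_EQC (hCPI : Stmt_CPI) (hLDA : Stmt_LDA) (hFOP : Stmt_FOP) : Stmt_EQC := by
  intro η hη
  obtain ⟨C, hC, hcpi⟩ := hCPI
  obtain ⟨H3, hH3, hlda⟩ := hLDA 3 (by norm_num)
  set I : ℝ := ∑ i : Fin 3, ∫ y, ‖gradv (EQC_Φ i) y‖ ^ 3 with hI
  have hIi : ∀ i : Fin 3, 0 ≤ ∫ y, ‖gradv (EQC_Φ i) y‖ ^ 3 := fun i =>
    integral_nonneg fun y => by positivity
  have hIle : ∀ i : Fin 3, ∫ y, ‖gradv (EQC_Φ i) y‖ ^ 3 ≤ I := fun i =>
    Finset.single_le_sum (f := fun i : Fin 3 => ∫ y, ‖gradv (EQC_Φ i) y‖ ^ 3)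
      (fun j _ => hIi j) (Finset.mem_univ i)
  have hI0 : 0 ≤ I := (hIi 0).trans (hIle 0)
  have hH0 : 0 < H3 := by linarith
  set K : ℝ := (2 * H3 / η) ^ 3 * (C * I) with hK
  have hK0 : 0 ≤ K := by positivity
  refine ⟨Real.exp (-K) / 4, by positivity, ?_, ?_⟩
  · have : Real.exp (-K) ≤ 1 := by
      rw [Real.exp_le_one_iff]; linarith
    linarith
  intro φ ψ A x0 hWM hx0
  obtain ⟨R, hR, hRs, hR3⟩ := hlda φ ψ A x0 hWM hx0
  obtain ⟨hfc, hfo, hfi⟩ := hFOP φ ψ hWM.src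
  refine ⟨R / 4, by positivity, ?_⟩
  intro z hz q hq hd hzq x hx
  set S := bset ψ.source ψ with hS
  set d := Metric.infDist z S with hdd
  have hzx0 : ‖z - x0‖ < R / 4 := by rwa [Metric.mem_ball, dist_eq_norm] at hz
  have hd1 : d ≤ ‖z - x0‖ := by
    have := Metric.infDist_le_dist_of_mem (x := z) hx0
    rwa [dist_eq_norm] at this
  have hd2 : d ≤ ‖z - q‖ := by
    have := Metric.infDist_le_dist_of_mem (x := z) hq
    rwa [dist_eq_norm] at this
  have hzR : z ∈ Metric.ball x0 R := by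
    rw [Metric.mem_ball, dist_eq_norm]; linarith
  have hqR : q ∈ Metric.ball x0 R := by
    rw [Metric.mem_ball, dist_eq_norm]
    have h1 : ‖q - x0‖ ≤ ‖z - q‖ + ‖z - x0‖ := by
      have e : q - x0 = (z - x0) - (z - q) := by abel
      rw [e]
      have := norm_sub_le (z - x0) (z - q)
      linarith
    linarith
  have hbR : ∀ w : E3, ‖w - z‖ ≤ d / 2 → w ∈ Metric.ball x0 R := by
    intro w hw
    rw [Metric.mem_ball, dist_eq_norm]
    have h1 : ‖w - x0‖ ≤ ‖w - z‖ + ‖z - x0‖ := by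
      have e : w - x0 = (w - z) + (z - x0) := by abel
      rw [e]
      exact norm_add_le _ _
    linarith
  set D0 : ℝ := ‖fm φ ψ z - fm φ ψ q‖ with hD0
  have hzs : z ∈ ψ.source := hRs hzR
  have hD0p : 0 < D0 := by
    rw [hD0, norm_pos_iff, sub_ne_zero]
    intro he
    have h1 := hfi z hzs q hq he
    rw [h1, sub_self, norm_zero] at hd2
    linarith
  -- the bound by `H3 * D0`
  have hbd : ∀ w : E3, ‖w - z‖ ≤ d / 2 → ‖fm φ ψ w - fm φ ψ q‖ ≤ H3 * D0 := by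
    intro w hw
    refine hR3 q ⟨hq, hqR⟩ w (hbR w hw) z hzR ?_
    have h1 : ‖w - q‖ ≤ ‖w - z‖ + ‖z - q‖ := by
      have e : w - q = (w - z) + (z - q) := by abel
      rw [e]
      exact norm_add_le _ _
    linarith
  by_contra hno
  push Not at hno
  obtain ⟨i, hi⟩ := EQC_comp (fm φ ψ x - fm φ ψ z) (η * D0) (by positivity) hno
  have hθ0 : 0 < Real.exp (-K) / 4 := by positivity
  have hθ1 : Real.exp (-K) / 4 ≤ 1 / 4 := by
    have : Real.exp (-K) ≤ 1 := by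
      rw [Real.exp_le_one_iff]; linarith
    linarith
  set θ : ℝ := Real.exp (-K) / 4 with hθ
  have hrp : 0 < H3 * D0 := by positivity
  have hsub : ∀ w : E3, ‖w - z‖ ≤ d / 2 → w ∈ ψ.source := fun w hw => hRs (hbR w hw)
  have hmain := hcpi φ ψ A (fun y => EQC_Φ i ((H3 * D0)⁻¹ • (y - fm φ ψ q))) z (θ * d) (d / 2)
    (η / (2 * H3)) hWM ?_ ?_ (by positivity) (by nlinarith) ?_ (by positivity) ?_
  · rw [EQC_scale _ (EQC_Φ_cd i) _ _ hrp] at hmain
    have h1 : Real.log (d / 2 / (θ * d)) = Real.log 2 + K := by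
      have e : d / 2 / (θ * d) = 2 * Real.exp K := by
        rw [hθ, Real.exp_neg]
        field_simp
        norm_num
      rw [e, Real.log_mul (by norm_num) (by positivity), Real.log_exp]
    rw [h1] at hmain
    have h2 : (η / (2 * H3)) ^ 3 * K = C * I := by
      rw [hK]
      have e : (η / (2 * H3)) ^ 3 * (2 * H3 / η) ^ 3 = 1 := by
        rw [← mul_pow]
        have : η / (2 * H3) * (2 * H3 / η) = 1 := by field_simp
        rw [this, one_pow]
      rw [← mul_assoc, e, one_mul]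
    have h3 : 0 < (η / (2 * H3)) ^ 3 * Real.log 2 :=
      mul_pos (by positivity) (Real.log_pos (by norm_num))
    have h4 : C * ∫ y, ‖gradv (EQC_Φ i) y‖ ^ 3 ≤ C * I :=
      mul_le_mul_of_nonneg_left (hIle i) hC.le
    rw [mul_add, h2] at hmain
    linarith
  · exact (EQC_Φ_cd i).comp ((contDiff_id.sub contDiff_const).const_smul _)
  · have hh : HasCompactSupport (fun w => EQC_Φ i ((H3 * D0)⁻¹ • w)) :=
      (EQC_Φ_cs i).comp_homeomorph (Homeomorph.smulOfNeZero (H3 * D0)⁻¹ (by positivity))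
    exact hh.comp_homeomorph (Homeomorph.subRight (fm φ ψ q))
  · intro w hw
    exact hsub w hw.2
  · intro ρ hρ
    have hρ1 : θ * d < ρ := hρ.1
    have hρ2 : ρ < d / 2 := hρ.2
    have hρ0 : 0 < ρ := lt_trans (by positivity) hρ1
    have hcb : Metric.closedBall z ρ ⊆ ψ.source := by
      intro w hw
      rw [Metric.mem_closedBall, dist_eq_norm] at hw
      exact hsub w (by linarith)
    obtain ⟨x1, x2, h1, h2, h3⟩ := EQC_osc (fm φ ψ) z ρ hρ0 (hfc.mono hcb)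
      (hfo _ Metric.isOpen_ball (Metric.ball_subset_closedBall.trans hcb)) i x
      (hx.trans hρ1.le)
    refine ⟨x1, x2, h1, h2, ?_⟩
    have e0 : ∀ w : E3, ‖w - z‖ = ρ → EQC_Φ i ((H3 * D0)⁻¹ • (fm φ ψ w - fm φ ψ q)) =
        (H3 * D0)⁻¹ * (fm φ ψ w i - fm φ ψ q i) := by
      intro w hw
      rw [EQC_Φ_eq]
      · simp
      · rw [norm_smul, norm_inv, Real.norm_eq_abs, abs_of_pos hrp, inv_mul_le_iff₀ hrp, mul_one]
        exact hbd w (by linarith)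
    simp only [e0 x1 h1, e0 x2 h2]
    have e1 : (H3 * D0)⁻¹ * (fm φ ψ x1 i - fm φ ψ q i) - (H3 * D0)⁻¹ * (fm φ ψ x2 i - fm φ ψ q i)
        = (H3 * D0)⁻¹ * (fm φ ψ x1 i - fm φ ψ x2 i) := by ring
    rw [e1, abs_mul, abs_of_pos (by positivity : (0 : ℝ) < (H3 * D0)⁻¹)]
    have hi' : η * D0 / 2 ≤ |fm φ ψ x i - fm φ ψ z i| := by
      simpa using hi
    have e2 : η / (2 * H3) = (H3 * D0)⁻¹ * (η * D0 / 2) := by
      field_simp
    rw [e2]
    exact mul_le_mul_of_nonneg_left (hi'.trans h3) (by positivity)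

end Pool.Flat
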