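import Pool.Agent.Work.MP_680515_fl.Iface4

open MeasureTheory Set Filter Topology

namespace Pool.Flat

open Pool.Mart

theorem p_FI2 (hFB : Stmt_FinalFB) (hLDC : Stmt_LDC) (hLIN : Pool.Mart.Stmt_LIN4) :
    Stmt_FinalFC := by
  obtain ⟨H, hH, hld⟩ := hLDC
  obtain ⟨ε, hε, hfb⟩ := hFB H hH
  refine ⟨ε, hε, ?_⟩
  intro φ ψ A K R h0 x0 γ hsrc hR hball hγ0 hγc hγi hset hh0 hlin hqr hid
  by_contra hK
  push Not at hK
  have hid2 : ∀ᵐ x ∂(volume.restrict ψ.source), opn (cofm (A x)) ^ 3 ≤ 2 * (A x).det ^ 2 := by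
    unfold InnerDist at hid
    filter_upwards [hid] with x hx
    exact hx.trans (mul_le_mul_of_nonneg_right hK.le (sq_nonneg _))
  obtain ⟨K', hK', hqr'⟩ := hqr.qr
  have hwm : WM φ ψ A := by
    refine ⟨hsrc, hqr.wg, ?_⟩
    filter_upwards [hid2, hqr'] with x h1 h2
    exact hLIN (A x) K' hK' h2 h1
  have hx0 : x0 ∈ bset ψ.source ψ := by
    have : x0 ∈ γ '' Icc (-1) 1 ∩ Metric.ball x0 R :=
      ⟨⟨0, by constructor <;> norm_num, hγ0⟩, Metric.mem_ball_self hR⟩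
    rw [← hset] at this
    exact this.1
  obtain ⟨R', hR', hloc⟩ := hld φ ψ A x0 hwm hx0
  have hr : 0 < min R R' := lt_min hR hR'
  have hset' : bset ψ.source ψ ∩ Metric.ball x0 (min R R')
      = γ '' Icc (-1) 1 ∩ Metric.ball x0 (min R R') := by
    have hsub : Metric.ball x0 (min R R') ⊆ Metric.ball x0 R :=
      Metric.ball_subset_ball (min_le_left _ _)
    ext x
    constructor
    · rintro ⟨h1, h2⟩
      have : x ∈ γ '' Icc (-1) 1 ∩ Metric.ball x0 R := by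
        rw [← hset]; exact ⟨h1, hsub h2⟩
      exact ⟨this.1, h2⟩
    · rintro ⟨h1, h2⟩
      have : x ∈ bset ψ.source ψ ∩ Metric.ball x0 R := by
        rw [hset]; exact ⟨h1, hsub h2⟩
      exact ⟨this.1, h2⟩
  have h2 := hfb φ ψ A K (min R R') h0 x0 γ hsrc hr
    ((Metric.ball_subset_ball (min_le_left _ _)).trans hball) hγ0 hγc hγi hset' hh0 hlin
    (hloc (min R R') (min_le_right _ _)) hqr hid
  linarith

end Pool.Flat
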