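import Pool.Agent.Work.MP_680515_fl.Iface3

open MeasureTheory Set Filter Topology

namespace Pool.Flat

open Pool.Mart

theorem p_FIN (hLOC : Stmt_LOC) (hPKF : Stmt_PKF) (hEND : Pool.Mart.Stmt_END) : Stmt_FinalFB := by
  intro H hH
  obtain ⟨ε0, hε0, hend⟩ := hEND
  obtain ⟨ε1, hε1, hpk⟩ := hPKF H ε0 hH hε0
  refine ⟨ε1, hε1, ?_⟩
  intro φ ψ A K R h0 x0 γ hsrc hR hball hγ0 hγc hγi hset hh0 hlin hloc hqr hid
  by_contra hK
  push_neg at hK
  have hid2 : InnerDist ψ.source A 2 := by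
    unfold InnerDist at hid ⊢
    filter_upwards [hid] with x hx
    exact hx.trans (mul_le_mul_of_nonneg_right hK.le (sq_nonneg _))
  obtain ⟨r0, γ', ht⟩ := hLOC H ε1 φ ψ A R h0 x0 γ hH hε1.le hsrc hR hball hγ0 hγc hγi hset hh0
    hlin hloc hqr hid2
  obtain ⟨γ'', O, O', hp⟩ := hpk r0 ψ.source (bset ψ.source ψ) (fun x => φ (wind (ψ x))) A γ' ht
  have h2 := hend ψ.source (fun x => φ (wind (ψ x))) A γ'' O O' K ψ.open_source hqr hid hp
  linarith

end Pool.Flat
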