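import Pool.Agent.Work.MP_680515_fl.Iface4

/-! Block FOP: the map is continuous and open and separates branch points -/

open MeasureTheory Set Filter Topology

namespace Pool.Flat

open Pool.Mart

theorem p_FOP (hW : Stmt_WOP) : Stmt_FOP := by
  obtain ⟨hc, ho, -, -, h2, -, -, hsg, -⟩ := hW
  intro φ ψ hsrc
  refine ⟨?_, ?_, ?_⟩
  · have h3 : ContinuousOn (fun x => wind (ψ x)) ψ.source :=
      hc.comp_continuousOn ψ.continuousOn
    exact φ.continuousOn.comp h3 (fun x hx => hsrc x hx)
  · intro U hU hUs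
    have h3 : IsOpen (ψ '' U) := ψ.isOpen_image_of_subset_source hU hUs
    have h4 : IsOpen (wind '' (ψ '' U)) := ho _ h3
    have h5 : wind '' (ψ '' U) ⊆ φ.source := by
      rintro _ ⟨_, ⟨x, hx, rfl⟩, rfl⟩
      exact hsrc x (hUs hx)
    have h6 : IsOpen (φ '' (wind '' (ψ '' U))) := φ.isOpen_image_of_subset_source h4 h5
    have h7 : fm φ ψ '' U = φ '' (wind '' (ψ '' U)) := by
      rw [Set.image_image, Set.image_image]
      rfl
    rw [h7]
    exact h6
  · intro x hx z hz hxz
    have h3 : wind (ψ x) = wind (ψ z) := φ.injOn (hsrc x hx) (hsrc z hz.1) hxz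
    have h4 : ψ x = ψ z := by
      rcases h2 (ψ z) (ψ x) h3.symm with h5 | h5
      · exact h5
      · rw [h5]
        exact (hsg (ψ z)).mpr hz.2
    exact ψ.injOn hx hz.1 h4

end Pool.Flat
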