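import Pool.Agent.Work.MP_680515_fl.Iface3

/-! # FRM: frames (helper22) -/

set_option autoImplicit false

open MeasureTheory Set Filter Topology

namespace Pool.Flat

open Pool.Mart

theorem FRM_unit (n : E3) (hn : n 0 ^ 2 + n 1 ^ 2 + n 2 ^ 2 = 1) :
    ∃ O : M3, O ∈ Matrix.specialOrthogonalGroup (Fin 3) ℝ ∧ n = act O e3 := by
  by_cases h0 : n 0 ^ 2 + n 1 ^ 2 = 0
  · have h1 : n 0 = 0 := by nlinarith [sq_nonneg (n 0), sq_nonneg (n 1)]
    have h2 : n 1 = 0 := by nlinarith [sq_nonneg (n 0), sq_nonneg (n 1)]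
    have h3 : n 2 ^ 2 = 1 := by rw [← hn, h1, h2]; ring
    refine ⟨!![1, 0, 0; 0, n 2, 0; 0, 0, n 2], ?_, ?_⟩
    · rw [Matrix.mem_specialOrthogonalGroup_iff, Matrix.mem_orthogonalGroup_iff]
      constructor
      · ext i j
        fin_cases i <;> fin_cases j <;> simp [Matrix.mul_apply, Fin.sum_univ_three, ← sq, h3]
      · rw [Matrix.det_fin_three]
        simp [← sq, h3]
    · ext i
      fin_cases i <;> simp [act, e3, h1, h2]
  · have hr : 0 < n 0 ^ 2 + n 1 ^ 2 := lt_of_le_of_ne (by positivity) (Ne.symm h0)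
    obtain ⟨r, hr0, hr1⟩ : ∃ r : ℝ, 0 < r ∧ r ^ 2 = n 0 ^ 2 + n 1 ^ 2 :=
      ⟨Real.sqrt (n 0 ^ 2 + n 1 ^ 2), Real.sqrt_pos.2 hr, Real.sq_sqrt hr.le⟩
    have h2 : n 2 ^ 2 = 1 - r ^ 2 := by rw [hr1]; linarith
    refine ⟨!![-(n 1) / r, -(n 0 * n 2) / r, n 0; n 0 / r, -(n 1 * n 2) / r, n 1; 0, r, n 2],
      ?_, ?_⟩
    · rw [Matrix.mem_specialOrthogonalGroup_iff, Matrix.mem_orthogonalGroup_iff']
      constructor
      · ext i j
        fin_cases i <;> fin_cases j <;>
          simp [Matrix.mul_apply, Fin.sum_univ_three] <;> field_simp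
        · linear_combination -hr1
        · ring
        · ring
        · ring
        · linear_combination -(n 2 ^ 2) * hr1 + r ^ 2 * h2
        · linear_combination (n 2) * hr1
        · ring
        · linear_combination (n 2) * hr1
        · linear_combination hn
      · rw [Matrix.det_fin_three]
        simp
        field_simp
        linear_combination (n 0 ^ 2 + n 1 ^ 2) * h2 - hr1
    · ext i
      fin_cases i <;> simp [act, e3]

theorem p_FRM : Stmt_FRM := by
  intro w hw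
  have hw' : 0 < ‖w‖ := norm_pos_iff.2 hw
  obtain ⟨O, h1, h2⟩ := FRM_unit (‖w‖⁻¹ • w) (by
    have := EuclideanSpace.real_norm_sq_eq w
    rw [Fin.sum_univ_three] at this
    simp only [PiLp.smul_apply, smul_eq_mul]
    field_simp
    linarith)
  refine ⟨O, h1, ?_⟩
  rw [← h2, smul_smul, mul_inv_cancel₀ hw'.ne', one_smul]

end Pool.Flat
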