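import Pool.Agent.Work.MP_680515_fl.Iface2

/-! # GL1: gradients of the conformal fields (helper22) -/

set_option autoImplicit false

open MeasureTheory Set Filter Topology

namespace Pool.Flat

open Pool.Mart
open scoped RealInnerProductSpace

theorem GL1_ne {a y : E3} (h : 0 < dn a y) : y ≠ 0 := by
  rintro rfl
  simp [dn] at h

theorem GL1_norm {y : E3} (hy : y ≠ 0) :
    HasFDerivAt (fun y : E3 => ‖y‖) (innerSL ℝ (‖y‖⁻¹ • y)) y := by
  have hy' : 0 < ‖y‖ := norm_pos_iff.2 hy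
  have h1 := (hasStrictFDerivAt_norm_sq y).hasFDerivAt
  have h2 := h1.sqrt (by positivity)
  have h3 : (fun x : E3 => Real.sqrt (‖x‖ ^ 2)) = fun x => ‖x‖ := by
    funext x
    exact Real.sqrt_sq (norm_nonneg x)
  rw [h3] at h2
  refine h2.congr_fderiv ?_
  rw [Real.sqrt_sq hy'.le]
  ext v
  simp
  ring

theorem GL1_dn (a : E3) {y : E3} (hy : y ≠ 0) :
    HasFDerivAt (dn a) (innerSL ℝ (‖y‖⁻¹ • y - a)) y := by
  have h1 : HasFDerivAt (fun y : E3 => (innerSL ℝ a : E3 →L[ℝ] ℝ) y) (innerSL ℝ a) y :=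
    (innerSL ℝ a : E3 →L[ℝ] ℝ).hasFDerivAt
  have h2 := (GL1_norm hy).sub h1
  have h3 : dn a = fun y : E3 => ‖y‖ - (innerSL ℝ a : E3 →L[ℝ] ℝ) y := by
    funext z
    simp only [dn, innerSL_apply_apply]
    rw [real_inner_comm]
  rw [h3]
  refine h2.congr_fderiv ?_
  rw [map_sub]

theorem GL1_dnC (a : E3) {y : E3} (hy : y ≠ 0) {n : ℕ∞} : ContDiffAt ℝ n (dn a) y := by
  have h1 : ContDiffAt ℝ n (fun y : E3 => ‖y‖) y := contDiffAt_norm ℝ hy
  exact h1.sub (contDiffAt_id.inner ℝ contDiffAt_const)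

theorem GL1_inn (a y : E3) : inner ℝ y a = ‖y‖ - dn a y := by
  simp only [dn]
  ring

theorem GL1_dot {a b y : E3} (hy : y ≠ 0) :
    inner ℝ (‖y‖⁻¹ • y - a) (‖y‖⁻¹ • y - b) =
      (dn a y + dn b y) / ‖y‖ - (1 - inner ℝ a b) := by
  have hy' : 0 < ‖y‖ := norm_pos_iff.2 hy
  rw [inner_sub_left, inner_sub_right, inner_sub_right, inner_smul_left, inner_smul_right,
    inner_smul_left, inner_smul_right, real_inner_self_eq_norm_sq, real_inner_comm y a,
    GL1_inn a y, GL1_inn b y]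
  simp only [conj_trivial]
  field_simp
  ring

theorem GL1_sq {a y : E3} (ha : ‖a‖ = 1) (hy : y ≠ 0) :
    inner ℝ (‖y‖⁻¹ • y - a) (‖y‖⁻¹ • y - a) = 2 * dn a y / ‖y‖ := by
  rw [GL1_dot hy, real_inner_self_eq_norm_sq, ha]
  ring

theorem p_GL1 : Stmt_GL1 := by
  intro a b y ha hb hA hB
  have hy : y ≠ 0 := GL1_ne hA
  have hy' : 0 < ‖y‖ := norm_pos_iff.2 hy
  have hAB : dn a y + dn b y ≠ 0 := by positivity
  have hq : (1 - UU a b y ^ 2) = 4 * dn a y * dn b y / (dn a y + dn b y) ^ 2 := by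
    simp only [UU]
    field_simp
    ring
  refine ⟨?_, ?_, ?_, ?_, ?_, ?_, ?_⟩
  · have h1 := GL1_dn a hy
    have h2 := GL1_dn b hy
    have h3 := (hasDerivAt_inv hAB).comp_hasFDerivAt y (h1.add h2)
    have h4 := (h1.sub h2).mul h3
    have h5 : UU a b = fun y => (dn a y - dn b y) * ((fun x : ℝ => x⁻¹) ∘ (dn a + dn b)) y := by
      funext z
      simp only [UU, Function.comp_apply, Pi.add_apply]
      rw [div_eq_mul_inv]
    rw [h5]
    refine h4.congr_fderiv ?_
    rw [← h5]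
    ext v
    rw [hq]
    simp [gL]
    field_simp
    ring
  · exact ((GL1_dnC a hy).sub (GL1_dnC b hy)).div ((GL1_dnC a hy).add (GL1_dnC b hy)) hAB
  · have hn : ContDiffAt ℝ 1 (fun y : E3 => ‖y‖⁻¹) y := (contDiffAt_norm ℝ hy).inv hy'.ne'
    have hA2 : ContDiffAt ℝ 1 (fun y : E3 => (2 * dn a y)⁻¹) y :=
      (contDiffAt_const.mul (GL1_dnC a hy)).inv (by positivity)
    have hB2 : ContDiffAt ℝ 1 (fun y : E3 => (2 * dn b y)⁻¹) y :=
      (contDiffAt_const.mul (GL1_dnC b hy)).inv (by positivity)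
    exact (hA2.smul ((hn.smul contDiffAt_id).sub contDiffAt_const)).sub
      (hB2.smul ((hn.smul contDiffAt_id).sub contDiffAt_const))
  · rw [← real_inner_self_eq_norm_sq]
    simp only [gL, sq2]
    have e1 := GL1_sq ha hy
    have e2 := GL1_sq hb hy
    have e3 : inner ℝ (‖y‖⁻¹ • y - a) (‖y‖⁻¹ • y - b) = _ := GL1_dot hy
    generalize ‖y‖⁻¹ • y - a = P at e1 e3 ⊢
    generalize ‖y‖⁻¹ • y - b = Q at e2 e3 ⊢
    simp only [inner_sub_left, inner_sub_right, inner_smul_left, inner_smul_right, conj_trivial]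
    rw [real_inner_comm P Q, e1, e2, e3]
    field_simp
    ring
  · simp only [gL]
    rw [inner_sub_left, inner_smul_left, inner_smul_left, inner_sub_left, inner_sub_left,
      inner_smul_left, real_inner_self_eq_norm_sq, real_inner_comm y a, real_inner_comm y b,
      GL1_inn a y, GL1_inn b y]
    simp only [conj_trivial]
    field_simp
    ring
  · rw [hq]
    simp only [sq2, q2]
    field_simp
    ring
  · rw [← sq_lt_one_iff_abs_lt_one]
    have : 0 < 4 * dn a y * dn b y / (dn a y + dn b y) ^ 2 := by positivity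
    linarith

end Pool.Flat
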