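import Pool.Agent.Work.MP_680515_fl.B_GL1

/-! # GL2: the conformal fields are divergence free (helper22) -/

set_option autoImplicit false

open MeasureTheory Set Filter Topology

namespace Pool.Flat

open Pool.Mart
open scoped RealInnerProductSpace

theorem GL2_ninv {y : E3} (hy : y ≠ 0) :
    HasFDerivAt (fun y : E3 => ‖y‖⁻¹) (-(‖y‖ ^ 2)⁻¹ • innerSL ℝ (‖y‖⁻¹ • y)) y := by
  have hy' : ‖y‖ ≠ 0 := norm_ne_zero_iff.2 hy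
  exact (hasDerivAt_inv hy').comp_hasFDerivAt y (GL1_norm hy)

theorem GL2_dinv {a y : E3} (h : 0 < dn a y) :
    HasFDerivAt (fun y : E3 => (2 * dn a y)⁻¹)
      (-((2 * dn a y) ^ 2)⁻¹ • (2 : ℝ) • innerSL ℝ (‖y‖⁻¹ • y - a)) y := by
  have h2 : 2 * dn a y ≠ 0 := by positivity
  exact (hasDerivAt_inv h2).comp_hasFDerivAt y ((GL1_dn a (GL1_ne h)).const_mul 2)

theorem GL2_one {a y : E3} (ha : ‖a‖ = 1) (h : 0 < dn a y) :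
    ∃ L : E3 →L[ℝ] E3,
      HasFDerivAt (fun y : E3 => (2 * dn a y)⁻¹ • (‖y‖⁻¹ • y - a)) L y ∧
      ∑ i : Fin 3, L (EuclideanSpace.single i 1) i = 0 := by
  have hy : y ≠ 0 := GL1_ne h
  have hy' : 0 < ‖y‖ := norm_pos_iff.2 hy
  have h1 := ((GL2_ninv hy).smul (hasFDerivAt_id y)).sub_const a
  have h2 := (GL2_dinv h).smul h1
  refine ⟨_, h2, ?_⟩
  have e1 : ∑ i : Fin 3, (‖y‖⁻¹ * y i - a i) ^ 2 = 2 * dn a y / ‖y‖ := by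
    rw [← GL1_sq ha hy, real_inner_self_eq_norm_sq, EuclideanSpace.real_norm_sq_eq]
    simp
  have e2 : ∑ i : Fin 3, y i ^ 2 = ‖y‖ ^ 2 := (EuclideanSpace.real_norm_sq_eq y).symm
  rw [Fin.sum_univ_three] at e1 e2
  rw [Fin.sum_univ_three]
  simp [EuclideanSpace.inner_single_right]
  have k : 3 * ((dn a y)⁻¹ * 2⁻¹ * ‖y‖⁻¹) - (dn a y)⁻¹ * 2⁻¹ * ((‖y‖ ^ 2)⁻¹ * ‖y‖⁻¹) * ‖y‖ ^ 2 -
      ((2 * dn a y) ^ 2)⁻¹ * 2 * (2 * dn a y / ‖y‖) = 0 := by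
    field_simp
    ring
  linear_combination k - (dn a y)⁻¹ * 2⁻¹ * ((‖y‖ ^ 2)⁻¹ * ‖y‖⁻¹) * e2 -
    ((2 * dn a y) ^ 2)⁻¹ * 2 * e1

theorem p_GL2 (_hGL1 : Stmt_GL1) : Stmt_GL2 := by
  intro a b y ha hb hA hB
  obtain ⟨L, h1, h2⟩ := GL2_one ha hA
  obtain ⟨M, h3, h4⟩ := GL2_one hb hB
  have h5 : HasFDerivAt (gL a b) (L - M) y := h1.sub h3
  unfold divv
  rw [h5.fderiv]
  simp only [sub_apply, PiLp.sub_apply, Finset.sum_sub_distrib]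
  rw [h2, h4, sub_zero]

end Pool.Flat
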