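import Pool.Agent.Work.MP_680515_fl.Iface2

/-! # Block GL3: the function `U` near `±1` -/

open MeasureTheory Set Filter Topology

namespace Pool.Flat

open Pool.Mart

theorem GL3_nonneg {a : E3} (ha : ‖a‖ = 1) (y : E3) : 0 ≤ dn a y := by
  have h := real_inner_le_norm y a
  rw [ha, mul_one] at h
  unfold dn
  linarith

theorem GL3_le {a : E3} (ha : ‖a‖ = 1) (y : E3) : dn a y ≤ 2 * ‖y‖ := by
  have h := (abs_le.1 (abs_real_inner_le_norm y a)).1
  rw [ha, mul_one] at h
  unfold dn
  linarith

theorem GL3_zero {a : E3} (ha : ‖a‖ = 1) {y : E3} (h : dn a y = 0) : y = ‖y‖ • a := by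
  have h1 : inner ℝ y a = ‖y‖ * ‖a‖ := by
    rw [ha, mul_one]
    unfold dn at h
    linarith
  have h2 := inner_eq_norm_mul_iff_real.1 h1
  rwa [ha, one_smul] at h2

theorem GL3_pos {a b : E3} (ha : ‖a‖ = 1) (hb : ‖b‖ = 1) (hab : a ≠ b) {y : E3} (hy : y ≠ 0) :
    0 < dn a y + dn b y := by
  rcases lt_or_eq_of_le (add_nonneg (GL3_nonneg ha y) (GL3_nonneg hb y)) with h | h
  · exact h
  · exfalso
    have h1 : dn a y = 0 := by linarith [GL3_nonneg ha y, GL3_nonneg hb y]
    have h2 : dn b y = 0 := by linarith [GL3_nonneg ha y, GL3_nonneg hb y]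
    have h3 := GL3_zero ha h1
    have h4 := GL3_zero hb h2
    have h5 : ‖y‖ • a = ‖y‖ • b := by rw [← h3, ← h4]
    exact hab (smul_right_injective E3 (norm_ne_zero_iff.2 hy) h5)

theorem GL3_near {b y : E3} (hb : ‖b‖ = 1) {c T β η : ℝ} (hT : 0 < T) (hβ : 0 < β) (hβ1 : β ≤ 1)
    (hβc : β ≤ c / 4) (hη : 0 < η) (hηc : √η ≤ c / 12)
    (hy : ‖y‖ ∈ Icc (T * Real.exp (-β)) (T * Real.exp β)) (hd : dn b y ≤ 2 * η * ‖y‖) :
    ‖y - T • b‖ ≤ c * T := by
  have e1 := Real.abs_exp_sub_one_le (x := β) (by rw [abs_of_pos hβ]; exact hβ1)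
  have e2 := Real.abs_exp_sub_one_le (x := -β) (by rw [abs_neg, abs_of_pos hβ]; exact hβ1)
  rw [abs_neg] at e2
  rw [abs_of_pos hβ] at e1 e2
  have e1' := (abs_le.1 e1).2
  have e2' := (abs_le.1 e2).1
  have hsq : 0 ≤ √η := Real.sqrt_nonneg _
  have hsq2 : √η * √η = η := Real.mul_self_sqrt hη.le
  have h1 : ‖y - ‖y‖ • b‖ ≤ 2 * √η * ‖y‖ := by
    have h2 : ‖y - ‖y‖ • b‖ ^ 2 = 2 * ‖y‖ * dn b y := by
      rw [norm_sub_sq_real, inner_smul_right, norm_smul, hb, norm_norm]
      unfold dn
      ring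
    have h3 : ‖y - ‖y‖ • b‖ ^ 2 ≤ (2 * √η * ‖y‖) ^ 2 := by
      rw [h2]
      have h4 : (2 * √η * ‖y‖) ^ 2 = 4 * (√η * √η) * (‖y‖ * ‖y‖) := by ring
      rw [h4, hsq2]
      nlinarith [norm_nonneg y]
    exact abs_le_of_sq_le_sq' h3 (by positivity) |>.2
  have h2 : ‖‖y‖ • b - T • b‖ ≤ 2 * β * T := by
    rw [← sub_smul, norm_smul, hb, mul_one, Real.norm_eq_abs, abs_le]
    constructor
    · have := hy.1
      nlinarith
    · have := hy.2
      nlinarith
  have h3 : ‖y‖ ≤ 3 * T := by
    have := hy.2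
    nlinarith
  calc ‖y - T • b‖ = ‖(y - ‖y‖ • b) + (‖y‖ • b - T • b)‖ := by rw [sub_add_sub_cancel]
    _ ≤ ‖y - ‖y‖ • b‖ + ‖‖y‖ • b - T • b‖ := norm_add_le _ _
    _ ≤ 2 * √η * ‖y‖ + 2 * β * T := add_le_add h1 h2
    _ ≤ 2 * √η * (3 * T) + 2 * (c / 4) * T := by
        apply add_le_add
        · exact mul_le_mul_of_nonneg_left h3 (by positivity)
        · exact mul_le_mul_of_nonneg_right (by linarith) hT.le
    _ ≤ 2 * (c / 12) * (3 * T) + 2 * (c / 4) * T := by
        apply add_le_add _ le_rfl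
        apply mul_le_mul_of_nonneg_right (by linarith) (by linarith)
    _ = c * T := by ring

theorem p_GL3 : Stmt_GL3 := by
  constructor
  · intro a b ha hb hab
    constructor
    · unfold UU
      apply ContinuousOn.div
      · unfold dn
        fun_prop
      · unfold dn
        fun_prop
      · intro y hy
        exact (GL3_pos ha hb hab hy).ne'
    · intro y hy
      have hp := GL3_pos ha hb hab hy
      have hA := GL3_nonneg ha y
      have hB := GL3_nonneg hb y
      refine ⟨hp, hA, hB, ?_, ?_, ?_⟩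
      · unfold UU
        rw [abs_div, abs_of_pos hp, div_le_one hp, abs_le]
        constructor <;> linarith
      · intro h
        rcases lt_or_eq_of_le hA with h1 | h1
        · exact h1
        · exfalso
          unfold UU at h
          rw [← h1, zero_sub, zero_add, neg_div, div_self (by linarith)] at h
          linarith
      · intro h
        rcases lt_or_eq_of_le hB with h1 | h1
        · exact h1
        · exfalso
          unfold UU at h
          rw [← h1, sub_zero, add_zero, div_self (by linarith)] at h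
          linarith
  · intro c hc
    refine ⟨min 1 (c / 4), min (1 / 2) ((c / 12) ^ 2), by positivity, min_le_left _ _,
      by positivity, min_le_left _ _, ?_⟩
    intro a b y T ha hb hab hT hy
    have hβ : (0 : ℝ) < min 1 (c / 4) := by positivity
    have hη : (0 : ℝ) < min (1 / 2) ((c / 12) ^ 2) := by positivity
    have hsq : √(min (1 / 2) ((c / 12) ^ 2)) ≤ c / 12 := by
      rw [Real.sqrt_le_left (by positivity)]
      exact min_le_right _ _
    have hy0 : y ≠ 0 := by
      rintro rfl
      have h1 := hy.1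
      rw [norm_zero] at h1
      have h2 : 0 < T * Real.exp (-(min 1 (c / 4))) := by positivity
      linarith
    have hp := GL3_pos ha hb hab hy0
    have hA := GL3_nonneg ha y
    have hB := GL3_nonneg hb y
    have hA2 := GL3_le ha y
    have hB2 := GL3_le hb y
    constructor
    · intro h
      refine GL3_near hb hT hβ (min_le_left _ _) (min_le_right _ _) hη hsq hy ?_
      unfold UU at h
      rw [le_div_iff₀ hp] at h
      nlinarith
    · intro h
      refine GL3_near ha hT hβ (min_le_left _ _) (min_le_right _ _) hη hsq hy ?_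
      unfold UU at h
      rw [div_le_iff₀ hp] at h
      nlinarith

end Pool.Flat
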