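import Pool.Agent.Work.MP_680515_fl.Iface2

/-!
# Block I0X: the number `I0` is finite and positive
-/

open MeasureTheory Set Filter Topology

namespace Pool.Flat

open Pool.Mart

theorem I0X_right : IntegrableOn (fun u : ℝ => (1 - u) ^ (-(3 / 4) : ℝ)) (Ioo (-1) 1) := by
  have h1 : IntervalIntegrable (fun x : ℝ => x ^ (-(3 / 4) : ℝ)) volume 0 2 :=
    intervalIntegral.intervalIntegrable_rpow' (by norm_num)
  have h2 := h1.comp_sub_left 1
  rw [sub_zero, show (1 : ℝ) - 2 = -1 by norm_num] at h2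
  have h3 := h2.symm
  rw [intervalIntegrable_iff_integrableOn_Ioo_of_le (by norm_num)] at h3
  exact h3

theorem I0X_left : IntegrableOn (fun u : ℝ => (1 + u) ^ (-(3 / 4) : ℝ)) (Ioo (-1) 1) := by
  have h1 : IntervalIntegrable (fun x : ℝ => x ^ (-(3 / 4) : ℝ)) volume 0 2 :=
    intervalIntegral.intervalIntegrable_rpow' (by norm_num)
  have h2 := h1.comp_add_left 1
  rw [show (0 : ℝ) - 1 = -1 by norm_num, show (2 : ℝ) - 1 = 1 by norm_num] at h2
  rw [intervalIntegrable_iff_integrableOn_Ioo_of_le (by norm_num)] at h2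
  exact h2

theorem I0X_bound (u : ℝ) (hu : u ∈ Ioo (-1 : ℝ) 1) :
    (1 - u ^ 2) ^ (-(3 / 4) : ℝ) ≤ (1 - u) ^ (-(3 / 4) : ℝ) + (1 + u) ^ (-(3 / 4) : ℝ) := by
  obtain ⟨h1, h2⟩ := hu
  have p1 : (0 : ℝ) < 1 - u := by linarith
  have p2 : (0 : ℝ) < 1 + u := by linarith
  have q1 : 0 ≤ (1 - u) ^ (-(3 / 4) : ℝ) := Real.rpow_nonneg p1.le _
  have q2 : 0 ≤ (1 + u) ^ (-(3 / 4) : ℝ) := Real.rpow_nonneg p2.le _
  rcases le_total 0 u with h | h
  · have : (1 - u ^ 2) ^ (-(3 / 4) : ℝ) ≤ (1 - u) ^ (-(3 / 4) : ℝ) :=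
      Real.rpow_le_rpow_of_nonpos p1 (by nlinarith) (by norm_num)
    linarith
  · have : (1 - u ^ 2) ^ (-(3 / 4) : ℝ) ≤ (1 + u) ^ (-(3 / 4) : ℝ) :=
      Real.rpow_le_rpow_of_nonpos p2 (by nlinarith) (by norm_num)
    linarith

theorem I0X_pos (u : ℝ) (hu : u ∈ Ioo (-1 : ℝ) 1) : 0 < (1 - u ^ 2) ^ (-(3 / 4) : ℝ) :=
  Real.rpow_pos_of_pos (by nlinarith [hu.1, hu.2]) _

theorem p_I0X : Stmt_I0X := by
  have hint : IntegrableOn (fun u : ℝ => (1 - u ^ 2) ^ (-(3 / 4) : ℝ)) (Ioo (-1) 1) := by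
    refine Integrable.mono' (I0X_right.add I0X_left) ?_ ?_
    · exact (by fun_prop : Measurable fun u : ℝ => (1 - u ^ 2) ^ (-(3 / 4) : ℝ)).aestronglyMeasurable
    · refine (ae_restrict_iff' measurableSet_Ioo).2 (Filter.Eventually.of_forall fun u hu => ?_)
      rw [Real.norm_of_nonneg (I0X_pos u hu).le]
      exact I0X_bound u hu
  have heq : I0 = ∫ u in Ioo (-1 : ℝ) 1, (1 - u ^ 2) ^ (-(3 / 4) : ℝ) := by
    unfold I0
    rw [intervalIntegral.integral_of_le (by norm_num), integral_Ioc_eq_integral_Ioo]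
  refine ⟨hint, ?_, heq⟩
  rw [heq, setIntegral_pos_iff_support_of_nonneg_ae]
  · have : Ioo (-1 : ℝ) 1 ⊆ Function.support (fun u : ℝ => (1 - u ^ 2) ^ (-(3 / 4) : ℝ)) ∩
        Ioo (-1 : ℝ) 1 := fun u hu => ⟨(I0X_pos u hu).ne', hu⟩
    refine lt_of_lt_of_le ?_ (measure_mono this)
    rw [Real.volume_Ioo]
    norm_num
  · exact (ae_restrict_iff' measurableSet_Ioo).2
      (Filter.Eventually.of_forall fun u hu => (I0X_pos u hu).le)
  · exact hint

end Pool.Flat
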