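import Pool.Agent.Work.MP_680515_fl.Iface1
import Pool.Agent.Work.MP_680515_an.B.IDT

/-! # Block IDC: the exact identity for a map with flux `4 π c` -/

open MeasureTheory Set Filter Topology

namespace Pool.Flat

open Pool.Mart

theorem p_IDC (hPIOW : Pool.Mart.Stmt_PIOW) (hPIOI : Pool.Mart.Stmt_PIOI)
    (hRADF : Pool.Mart.Stmt_RADF) (hRINT : Pool.Mart.Stmt_RINT) : Stmt_IDC := by
  intro Ω f A p R c hΩ hfc hW hR hball hinj hdeg η hη hηc hηs
  have hr1 : (0 : ℝ) ≤ 0 := le_rfl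
  have hdη : tsupport (deriv η) ⊆ tsupport η :=
    closure_minimal support_deriv_subset (isClosed_tsupport η)
  -- the compact set
  obtain ⟨K, hK⟩ : ∃ K : Set E3, K = {x | ‖x - p‖ ∈ tsupport η} := ⟨_, rfl⟩
  have hKm : ∀ x, x ∈ K ↔ ‖x - p‖ ∈ tsupport η := fun x => by rw [hK]; rfl
  have hKr : ∀ x ∈ K, 0 < ‖x - p‖ ∧ ‖x - p‖ < R := fun x hx => hηs ((hKm x).1 hx)
  have hKball : K ⊆ Metric.closedBall p R := fun x hx => by
    rw [mem_closedBall_iff_norm]; exact (hKr x hx).2.le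
  have hKΩ : K ⊆ Ω := hKball.trans hball
  have hKc : IsCompact K := by
    refine Metric.isCompact_of_isClosed_isBounded ?_ (Metric.isBounded_closedBall.subset hKball)
    rw [hK]
    exact (isClosed_tsupport η).preimage (continuous_id.sub continuous_const).norm
  have hnx : ∀ x ∈ K, ‖x - p‖ ≠ 0 := fun x hx => (hKr x hx).1.ne'
  have hX0 : ∀ x ∈ K, x - p ≠ 0 := fun x hx => norm_ne_zero_iff.1 (hnx x hx)
  have hF0 : ∀ x ∈ K, f x - f p ≠ 0 := fun x hx h =>
    hX0 x hx (sub_eq_zero.2 (hinj x (hKball hx) (sub_eq_zero.1 h)))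
  have hny : ∀ x ∈ K, ‖f x - f p‖ ≠ 0 := fun x hx => norm_ne_zero_iff.2 (hF0 x hx)
  have hη0 : ∀ x, x ∉ K → η ‖x - p‖ = 0 := fun x hx =>
    image_eq_zero_of_notMem_tsupport fun h => hx ((hKm x).2 h)
  have hη1 : ∀ x, x ∉ K → deriv η ‖x - p‖ = 0 := fun x hx =>
    image_eq_zero_of_notMem_tsupport fun h => hx ((hKm x).2 (hdη h))
  have hFK : ContinuousOn (fun x => f x - f p) K := (hfc.mono hKΩ).sub continuousOn_const
  have hXK : ContinuousOn (fun x : E3 => x - p) K := (continuous_id.sub continuous_const).continuousOn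
  have hnK : ContinuousOn (fun x : E3 => ‖x - p‖) K := hXK.norm
  have hnF : ContinuousOn (fun x : E3 => ‖f x - f p‖) K := hFK.norm
  have hcn : Continuous fun x : E3 => ‖x - p‖ := (continuous_id.sub continuous_const).norm
  have hc0 : ContinuousOn (fun x : E3 => η ‖x - p‖) K := (hη.continuous.comp hcn).continuousOn
  have hc1 : ContinuousOn (fun x : E3 => deriv η ‖x - p‖) K :=
    ((hη.continuous_deriv le_rfl).comp hcn).continuousOn
  have hix : ContinuousOn (fun x : E3 => ‖x - p‖⁻¹) K := hnK.inv₀ hnx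
  have hlx : ContinuousOn (fun x : E3 => Real.log ‖x - p‖) K := hnK.log hnx
  have hly : ContinuousOn (fun x : E3 => Real.log ‖f x - f p‖) K := hnF.log hny
  have hi3y : ContinuousOn (fun x : E3 => (‖f x - f p‖ ^ 3)⁻¹) K :=
    (hnF.pow 3).inv₀ fun x hx => pow_ne_zero 3 (hny x hx)
  have hi3x : ContinuousOn (fun x : E3 => (‖x - p‖ ^ 3)⁻¹) K :=
    (hnK.pow 3).inv₀ fun x hx => pow_ne_zero 3 (hnx x hx)
  obtain ⟨p1, _, _, p4⟩ := hPIOI Ω f A hΩ hfc hW K hKc hKΩ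
  have hfxK : IntegrableOn (fun x => fx (A x) (x - p) (f x - f p)) K :=
    p4 (fun x => (‖f x - f p‖ ^ 3)⁻¹ • (f x - f p)) (fun x => ‖x - p‖⁻¹ • (x - p))
      (hi3y.smul hFK) (hix.smul hXK)
  have glob : ∀ g : E3 → ℝ, IntegrableOn g K → (∀ x, x ∉ K → g x = 0) → Integrable g :=
    fun g h1 h2 => h1.integrable_of_forall_notMem_eq_zero h2
  have I1 : Integrable (fun x => η ‖x - p‖ * ((A x).det * (‖f x - f p‖ ^ 3)⁻¹)) := by
    refine glob _ ?_ fun x hx => by rw [hη0 x hx, zero_mul]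
    have := p1.continuousOn_mul (hc0.mul hi3y) hKc
    refine this.congr_fun (fun x _ => ?_) hKc.measurableSet
    simp only [Pi.mul_apply]
    ring
  have I2 : Integrable (fun x : E3 => η ‖x - p‖ * (‖x - p‖ ^ 3)⁻¹) := by
    refine glob _ ((hc0.mul hi3x).integrableOn_compact hKc) fun x hx => by
      rw [hη0 x hx, zero_mul]
  have I3 : Integrable (fun x : E3 => (η ‖x - p‖ * ‖x - p‖⁻¹) * fx (A x) (x - p) (f x - f p)) := by
    refine glob _ (hfxK.continuousOn_mul (hc0.mul hix) hKc) fun x hx => by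
      rw [hη0 x hx, zero_mul, zero_mul]
  have I4 : Integrable (fun x : E3 => (deriv η ‖x - p‖ * Real.log ‖f x - f p‖) *
      fx (A x) (x - p) (f x - f p)) := by
    refine glob _ (hfxK.continuousOn_mul (hc1.mul hly) hKc) fun x hx => by
      rw [hη1 x hx, zero_mul, zero_mul]
  have I5 : Integrable (fun x : E3 => (deriv η ‖x - p‖ * Real.log ‖x - p‖) *
      fx (A x) (x - p) (f x - f p)) := by
    refine glob _ (hfxK.continuousOn_mul (hc1.mul hlx) hKc) fun x hx => by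
      rw [hη1 x hx, zero_mul, zero_mul]
  -- the three formulas
  have hinv : ∀ r : ℝ, 0 < r → ContinuousAt (fun r : ℝ => r⁻¹) r := fun r hr =>
    continuousAt_inv₀ hr.ne'
  have hinv3 : ∀ r : ℝ, 0 < r → ContinuousAt (fun r : ℝ => (r ^ 3)⁻¹) r := fun r hr =>
    (continuousAt_id.pow 3).inv₀ (pow_ne_zero 3 hr.ne')
  have hlog : ∀ r : ℝ, 0 < r → ContinuousAt Real.log r := fun r hr =>
    Real.continuousAt_log hr.ne'
  obtain ⟨u1, u2, u3⟩ := IDT_.mul_w 0 R hr1 η (fun r => r⁻¹) hη.continuous hηc hηs hinv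
  obtain ⟨v1, v2, v3⟩ := IDT_.mul_w 0 R hr1 η (fun r => (r ^ 3)⁻¹) hη.continuous hηc hηs hinv3
  obtain ⟨w1, w2, w3⟩ := IDT_.mul_w 0 R hr1 (deriv η) Real.log (hη.continuous_deriv le_rfl)
    hηc.deriv (hdη.trans hηs) hlog
  have E3' := hdeg.flux _ u1 u2 u3
  have E5' := hdeg.flux _ w1 w2 w3
  have E2' := hRINT _ 0 R hr1 v1 v2 v3
  rw [← integral_sub_right_eq_self (fun X : E3 => η ‖X‖ * (‖X‖ ^ 3)⁻¹) p] at E2'
  have E2'' : (∫ r : ℝ, η r * (r ^ 3)⁻¹ * r ^ 2) = ∫ r : ℝ, η r * r⁻¹ := by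
    refine integral_congr_ae (Eventually.of_forall fun r => ?_)
    by_cases hr : r = 0
    · simp [hr]
    · field_simp
  have hlogJ := IDT_.ibp_log 0 R hr1 η hη hηc hηs
  -- Piola identity
  obtain ⟨q1, q2, q3, q4⟩ := hRADF.1 η p 0 R hr1 hη hηc hηs
  obtain ⟨_, s2, s3⟩ := hRADF.2.1 (f p)
  have P := hPIOW Ω f A hΩ hfc hW
    (fun y : E3 => (Real.log ‖y - f p‖ * (‖y - f p‖ ^ 3)⁻¹) • (y - f p)) (fun x : E3 => η ‖x - p‖)
    {f p}ᶜ isOpen_compl_singleton s2 q1 q2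
    (fun x hx => hball (by rw [mem_closedBall_iff_norm]; exact (q3 hx).2.le))
    (fun x hx h => by
      have h1 := q3 hx
      have h2 : x = p := hinj x (by rw [mem_closedBall_iff_norm]; exact h1.2.le) h
      have h3 : 0 < ‖x - p‖ := h1.1
      rw [h2, sub_self, norm_zero] at h3
      exact lt_irrefl _ h3)
  have P1 : (∫ x, cpair (A x) ((fun y : E3 => (Real.log ‖y - f p‖ * (‖y - f p‖ ^ 3)⁻¹) •
      (y - f p)) (f x)) (gradv (fun x : E3 => η ‖x - p‖) x))
      = ∫ x : E3, (deriv η ‖x - p‖ * Real.log ‖f x - f p‖) * fx (A x) (x - p) (f x - f p) := by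
    refine integral_congr_ae (Eventually.of_forall fun x => ?_)
    simp only [q4]
    unfold fx
    rw [IDT_.cpair_smul_right, mul_smul, IDT_.cpair_smul_left]
    ring
  have P2 : (∫ x, (fun x : E3 => η ‖x - p‖) x * ((A x).det
      * divv (fun y : E3 => (Real.log ‖y - f p‖ * (‖y - f p‖ ^ 3)⁻¹) • (y - f p)) (f x)))
      = ∫ x : E3, η ‖x - p‖ * ((A x).det * (‖f x - f p‖ ^ 3)⁻¹) := by
    refine integral_congr_ae (Eventually.of_forall fun x => ?_)
    by_cases hx : x ∈ K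
    · simp only [(s3 (f x) (sub_ne_zero.1 (hF0 x hx))).2]
    · have h0 := hη0 x hx
      simp only [h0, zero_mul]
  rw [P1, P2] at P
  have I12 : Integrable (fun x : E3 => (2 / 3) * (η ‖x - p‖ * ((A x).det * (‖f x - f p‖ ^ 3)⁻¹))
      + (2 / 3) * (η ‖x - p‖ * (‖x - p‖ ^ 3)⁻¹)) := (I1.const_mul _).add (I2.const_mul _)
  have hpt : ∀ x : E3, η ‖x - p‖ * dens f A p x =
      (2 / 3) * (η ‖x - p‖ * ((A x).det * (‖f x - f p‖ ^ 3)⁻¹))
        + (2 / 3) * (η ‖x - p‖ * (‖x - p‖ ^ 3)⁻¹)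
        - (η ‖x - p‖ * ‖x - p‖⁻¹) * fx (A x) (x - p) (f x - f p) := by
    intro x
    by_cases hx : x ∈ K
    · unfold dens
      rw [IDT_.dfc_formula _ _ _ (hX0 x hx) (hF0 x hx)]
      ring
    · have h0 := hη0 x hx
      simp only [h0, zero_mul, mul_zero, add_zero, sub_zero]
  refine ⟨(I12.sub I3).congr (Eventually.of_forall fun x => (hpt x).symm), ?_⟩
  -- left side
  have L1 : (∫ x, η ‖x - p‖ * dens f A p x)
      = (2 / 3) * (∫ x : E3, η ‖x - p‖ * ((A x).det * (‖f x - f p‖ ^ 3)⁻¹))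
        + (2 / 3) * (∫ x : E3, η ‖x - p‖ * (‖x - p‖ ^ 3)⁻¹)
        - ∫ x : E3, (η ‖x - p‖ * ‖x - p‖⁻¹) * fx (A x) (x - p) (f x - f p) := by
    rw [← integral_const_mul, ← integral_const_mul, ← integral_add (I1.const_mul _)
      (I2.const_mul _), ← integral_sub I12 I3]
    exact integral_congr_ae (Eventually.of_forall hpt)
  have R1 : (∫ x, deriv η ‖x - p‖ * fx (A x) (x - p) (f x - f p) *
      Real.log (‖f x - f p‖ / ‖x - p‖))
      = (∫ x : E3, (deriv η ‖x - p‖ * Real.log ‖f x - f p‖) * fx (A x) (x - p) (f x - f p))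
        - ∫ x : E3, (deriv η ‖x - p‖ * Real.log ‖x - p‖) * fx (A x) (x - p) (f x - f p) := by
    rw [← integral_sub I4 I5]
    refine integral_congr_ae (Eventually.of_forall fun x => ?_)
    by_cases hx : x ∈ K
    · simp only
      rw [Real.log_div (hny x hx) (hnx x hx)]
      ring
    · have h0 := hη1 x hx
      simp only [h0, zero_mul, sub_zero]
  have J1 : (∫ r, η r / r) = ∫ r : ℝ, η r * r⁻¹ := by simp only [div_eq_mul_inv]
  rw [L1, R1, E2', E2'', E3', E5', hlogJ, P, J1]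
  ring

end Pool.Flat
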