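import Pool.Agent.Work.MP_680515_fl.Iface1
import Pool.Agent.Work.MP_680515_an.B.PIOW

/-!
# MP_680515_fl: block INTG (the degree of a continuous Sobolev map is an integer)
-/

open MeasureTheory Set Filter Topology

namespace Pool.Flat

open Pool.Mart

theorem p_INTG (hDEGF : Stmt_DEGF) (hSINT : Stmt_SINT) (hMOLL : Stmt_MOLL)
    (hPIOI : Stmt_PIOI) : Stmt_INTG := by
  intro Ω f A p q R ρ hΩ hf hwg hR hsub hρ hsph
  obtain ⟨c, hc⟩ := hDEGF Ω f A p q R ρ hΩ hf hwg hR hsub hρ hsph
  suffices h : c ∈ Set.range ((↑) : ℤ → ℝ) by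
    obtain ⟨k, hk⟩ := h
    refine ⟨k, fun g hg hgc hgs => ?_⟩
    rw [hc g hg hgc hgs, hk]
  -- the bump
  have hρ8 : 0 < ρ / 8 := by positivity
  have hρ48 : ρ / 8 < ρ / 4 := by linarith
  let b : ContDiffBump q := ⟨ρ / 8, ρ / 4, hρ8, hρ48⟩
  set ζ : E3 → ℝ := b.normed volume with hζ
  have hζc : Continuous ζ := b.continuous_normed
  have hζs : HasCompactSupport ζ := b.hasCompactSupport_normed
  have hζt : tsupport ζ ⊆ Metric.ball q (ρ / 2) := by
    rw [hζ, b.tsupport_normed_eq]
    exact Metric.closedBall_subset_ball (by change ρ / 4 < ρ / 2; linarith)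
  have hζi : ∫ y, ζ y = 1 := b.integral_normed
  have hζt' : tsupport ζ ⊆ Metric.ball q ρ :=
    hζt.trans (Metric.ball_subset_ball (by linarith))
  have hcζ : ∫ x in Metric.ball p R, (A x).det * ζ (f x) = c := by
    rw [hc ζ hζc hζs hζt', hζi, mul_one]
  obtain ⟨M, hM⟩ := hζs.exists_bound_of_continuous hζc
  -- mollification
  have hK : IsCompact (Metric.closedBall p R) := isCompact_closedBall p R
  obtain ⟨g, hg, hgu, hgl⟩ := hMOLL Ω f A hΩ hf hwg _ hK hsub
  obtain ⟨hdetA, -, -, -⟩ := hPIOI Ω f A hΩ hf hwg _ hK hsub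
  have hdn : ∀ n, IntegrableOn (fun x => (jac (g n) x).det) (Metric.closedBall p R) := fun n =>
    (PIOW_.cont_det (hg n)).continuousOn.integrableOn_compact hK
  have hl := PIOW_.poly_lim hK hg (hwg.loc _ hK hsub) hgl (P := fun M => M.det)
    (fun δ hδ A B => PIOW_.det_le hδ A B) hdn hdetA
  have hbs : Metric.ball p R ⊆ Metric.closedBall p R := Metric.ball_subset_closedBall
  have hl' : Tendsto (fun n => ∫ x in Metric.ball p R, |(jac (g n) x).det - (A x).det|)
      atTop (𝓝 0) := by
    refine squeeze_zero (fun n => integral_nonneg fun x => abs_nonneg _) (fun n => ?_) hl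
    exact setIntegral_mono_set ((hdn n).sub hdetA).abs
      (Eventually.of_forall fun x => abs_nonneg _) hbs.eventuallyLE
  have hlim : Tendsto (fun n => ∫ x in Metric.ball p R, (jac (g n) x).det * ζ (g n x)) atTop
      (𝓝 (∫ x in Metric.ball p R, (A x).det * ζ (f x))) := by
    refine PIOW_.lim (M := M) (fun n => (hdn n).mono_set hbs) (hdetA.mono_set hbs) hl'
      (fun n => (hζc.comp (hg n).continuous).aestronglyMeasurable)
      (fun n => Eventually.of_forall fun x => ?_) ?_
    · have := hM (g n x)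
      rwa [Real.norm_eq_abs] at this
    · refine (ae_restrict_iff' measurableSet_ball).2 (Eventually.of_forall fun x hx => ?_)
      exact (hζc.tendsto _).comp (hgu.tendsto_at (hbs hx))
  rw [hcζ] at hlim
  refine Int.isClosedEmbedding_coe_real.isClosed_range.mem_of_tendsto hlim ?_
  rw [Metric.tendstoUniformlyOn_iff] at hgu
  filter_upwards [hgu (ρ / 2) (by positivity)] with n hn
  have hsn : ∀ x, ‖x - p‖ = R → ρ / 2 ≤ ‖g n x - q‖ := by
    intro x hx
    have hxK : x ∈ Metric.closedBall p R := by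
      rw [Metric.mem_closedBall, dist_eq_norm, hx]
    have h1 := hn x hxK
    rw [dist_eq_norm] at h1
    have h2 := hsph x hx
    have h3 : ‖f x - q‖ ≤ ‖f x - g n x‖ + ‖g n x - q‖ := by
      have := norm_add_le (f x - g n x) (g n x - q)
      rwa [sub_add_sub_cancel] at this
    linarith
  obtain ⟨k, hk⟩ := hSINT (g n) p q R (ρ / 2) (hg n) hR (by positivity) hsn
  refine ⟨k, ?_⟩
  have := hk ζ hζc hζs hζt
  rw [hζi, mul_one] at this
  exact this.symm

end Pool.Flat
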