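import Pool.Agent.Work.MP_680515_fl.Iface2

/-!
Block ISO: standard position of two unit vectors (helper88).
-/

open MeasureTheory Set Filter Topology

namespace Pool.Flat

open Pool.Mart

/-- a linear isometry which sends the first basis vector and the last one to given vectors -/
theorem ISO_basis (p q : E3) (hq : ‖q‖ = 1) (hp : ‖p‖ = 1) (hpq : inner ℝ p q = 0) :
    ∃ b : OrthonormalBasis (Fin 3) ℝ E3, b 0 = p ∧ b 2 = q := by
  obtain ⟨w, hw⟩ : ∃ w : Fin 3 → E3, w = ![p, 0, q] := ⟨_, rfl⟩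
  have hw0 : w 0 = p := by rw [hw]; rfl
  have hw2 : w 2 = q := by rw [hw]; rfl
  have ho : Orthonormal ℝ (({0, 2} : Set (Fin 3)).domRestrict w) := by
    constructor
    · rintro ⟨i, hi⟩
      show ‖w i‖ = 1
      rcases hi with hi | hi
      · rw [hi, hw0, hp]
      · rw [Set.mem_singleton_iff] at hi
        rw [hi, hw2, hq]
    · rintro ⟨i, hi⟩ ⟨j, hj⟩ hij
      show inner ℝ (w i) (w j) = 0
      have hij' : i ≠ j := fun h => hij (Subtype.ext h)
      rcases hi with hi | hi <;> rcases hj with hj | hj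
      · exact absurd (hi.trans hj.symm) hij'
      · rw [Set.mem_singleton_iff] at hj
        rw [hi, hj, hw0, hw2, hpq]
      · rw [Set.mem_singleton_iff] at hi
        rw [hi, hj, hw0, hw2, real_inner_comm, hpq]
      · rw [Set.mem_singleton_iff] at hi hj
        exact absurd (hi.trans hj.symm) hij'
  obtain ⟨b, hb⟩ := Orthonormal.exists_orthonormalBasis_extension_of_card_eq
    (by simp : Module.finrank ℝ E3 = Fintype.card (Fin 3)) ho
  exact ⟨b, by rw [hb 0 (by simp), hw0], by rw [hb 2 (by simp), hw2]⟩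

/-- one vector orthogonal to a given one -/
theorem ISO_orth (q : E3) (hq : ‖q‖ = 1) : ∃ p : E3, ‖p‖ = 1 ∧ inner ℝ p q = 0 := by
  have ho : Orthonormal ℝ (({2} : Set (Fin 3)).domRestrict (fun _ => q)) := by
    constructor
    · rintro ⟨i, hi⟩
      exact hq
    · rintro ⟨i, hi⟩ ⟨j, hj⟩ hij
      rw [Set.mem_singleton_iff] at hi hj
      exact absurd (Subtype.ext (hi.trans hj.symm)) hij
  obtain ⟨b, hb⟩ := Orthonormal.exists_orthonormalBasis_extension_of_card_eq
    (by simp : Module.finrank ℝ E3 = Fintype.card (Fin 3)) ho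
  have h2 : b 2 = q := hb 2 (by simp)
  refine ⟨b 0, b.orthonormal.1 0, ?_⟩
  rw [← h2]
  exact b.orthonormal.2 (by decide)

theorem p_ISO : Stmt_ISO := by
  intro a b ha hb hab
  have hpar : ‖a + b‖ ^ 2 + ‖b - a‖ ^ 2 = 4 := by
    have h1 := norm_add_sq_real a b
    have h2 := norm_sub_sq_real b a
    rw [ha, hb] at h1 h2
    rw [real_inner_comm] at h2
    linarith
  have hd : 0 < ‖b - a‖ := norm_pos_iff.2 (sub_ne_zero.2 hab.symm)
  obtain ⟨v, hv⟩ : ∃ v, v = ‖a + b‖ / 2 := ⟨_, rfl⟩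
  have hv0 : 0 ≤ v := by rw [hv]; positivity
  have hs : Real.sqrt (1 - v ^ 2) = ‖b - a‖ / 2 := by
    have : 1 - v ^ 2 = (‖b - a‖ / 2) ^ 2 := by rw [hv]; nlinarith
    rw [this, Real.sqrt_sq (by positivity)]
  have hv1 : v < 1 := by
    have h1 : v ^ 2 < 1 := by
      have : 1 - v ^ 2 = (‖b - a‖ / 2) ^ 2 := by rw [hv]; nlinarith
      have h2 : 0 < (‖b - a‖ / 2) ^ 2 := by positivity
      linarith
    nlinarith
  obtain ⟨q, hqd⟩ : ∃ q, q = ‖b - a‖⁻¹ • (b - a) := ⟨_, rfl⟩
  have hq : ‖q‖ = 1 := by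
    rw [hqd, norm_smul, norm_inv, norm_norm, inv_mul_cancel₀ hd.ne']
  have hort : inner ℝ (a + b) (b - a) = 0 := by
    rw [inner_sub_right, inner_add_left, inner_add_left, real_inner_self_eq_norm_sq,
      real_inner_self_eq_norm_sq, ha, hb, real_inner_comm]
    ring
  obtain ⟨p, hp, hpq, hvp⟩ : ∃ p : E3, ‖p‖ = 1 ∧ inner ℝ p q = 0 ∧
      v • p = (1 / 2 : ℝ) • (a + b) := by
    by_cases h0 : a + b = 0
    · obtain ⟨p, hp, hpq⟩ := ISO_orth q hq
      refine ⟨p, hp, hpq, ?_⟩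
      rw [hv, h0, norm_zero, zero_div, zero_smul, smul_zero]
    · have hn : 0 < ‖a + b‖ := norm_pos_iff.2 h0
      refine ⟨‖a + b‖⁻¹ • (a + b), ?_, ?_, ?_⟩
      · rw [norm_smul, norm_inv, norm_norm, inv_mul_cancel₀ hn.ne']
      · rw [hqd, inner_smul_left, inner_smul_right, hort]
        simp
      · rw [smul_smul, hv]
        congr 1
        field_simp
  obtain ⟨B, hB0, hB2⟩ := ISO_basis p q hq hp hpq
  have hR : ∀ σ : ℝ, B.repr.symm (av v σ) = v • p + (σ * Real.sqrt (1 - v ^ 2)) • q := by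
    intro σ
    have h1 := B.sum_repr (B.repr.symm (av v σ))
    rw [← h1, Fin.sum_univ_three, B.repr.apply_symm_apply, hB0, hB2]
    have e0 : (av v σ) 0 = v := rfl
    have e1 : (av v σ) 1 = 0 := rfl
    have e2 : (av v σ) 2 = σ * Real.sqrt (1 - v ^ 2) := rfl
    rw [e0, e1, e2, zero_smul, add_zero]
  have hsq : Real.sqrt (1 - v ^ 2) • q = (1 / 2 : ℝ) • (b - a) := by
    rw [hs, hqd, smul_smul]
    congr 1
    field_simp
  have hRa : B.repr.symm (av v (-1)) = a := by
    rw [hR, mul_smul, hsq, hvp]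
    module
  have hRb : B.repr.symm (av v 1) = b := by
    rw [hR, one_mul, hsq, hvp]
    module
  have hin : ∀ y z : E3, inner ℝ (B.repr.symm y) (B.repr.symm z) = inner ℝ y z :=
    fun y z => B.repr.symm.inner_map_map y z
  have hda : ∀ y : E3, dn a (B.repr.symm y) = dn (av v (-1)) y := by
    intro y
    unfold dn
    rw [B.repr.symm.norm_map]
    congr 1
    rw [← hin y (av v (-1)), hRa]
  have hdb : ∀ y : E3, dn b (B.repr.symm y) = dn (av v 1) y := by
    intro y
    unfold dn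
    rw [B.repr.symm.norm_map]
    congr 1
    rw [← hin y (av v 1), hRb]
  have hab' : inner ℝ a b = inner ℝ (av v (-1)) (av v 1) := by
    rw [← hin (av v (-1)) (av v 1), hRa, hRb]
  refine ⟨v, B.repr.symm, hv0, hv1, hRa, hRb, fun y => ⟨?_, ?_, ?_⟩⟩
  · unfold UU
    rw [hda, hdb]
  · unfold sq2
    rw [hda, hdb, hab']
  · unfold q2
    rw [hda, hdb, hab']

end Pool.Flat
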