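import Pool.Agent.Work.MP_680515_fl.Iface4

/-! # Block LDA: distortion at the branch points (MP_680515, THEOREM FC) -/

open MeasureTheory Set Filter Topology

namespace Pool.Flat

open Pool.Mart

theorem p_LDA (hLOE : Stmt_LOE) (hTPA : Stmt_TPA) (hFOP : Stmt_FOP) : Stmt_LDA := by
  intro M hM
  obtain ⟨C, hC0, hC⟩ := hLOE M hM
  refine ⟨Real.exp C, Real.one_le_exp hC0.le, ?_⟩
  intro φ ψ A x0 hW hx0
  obtain ⟨s0, R0, hs0, hR0, -, -, hsub, hosc, hcon, -⟩ := hTPA φ ψ x0 hW.src hx0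
  obtain ⟨-, -, hsep⟩ := hFOP φ ψ hW.src
  have hM1 : 0 < M + 1 := by linarith
  set R' : ℝ := R0 / (100 * (M + 1)) with hR'
  have hR'0 : 0 < R' := by positivity
  have hR'e : (M + 1) * R' = R0 / 100 := by
    rw [hR']
    field_simp
  have hR'l : R' ≤ R0 / 200 := by
    have h1 : 2 * R' ≤ (M + 1) * R' := mul_le_mul_of_nonneg_right (by linarith) hR'0.le
    linarith
  have hball : ∀ w ∈ Metric.ball x0 R', w ∈ Metric.closedBall x0 R0 := by
    intro w hw
    rw [Metric.mem_ball] at hw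
    rw [Metric.mem_closedBall]
    linarith
  refine ⟨R', hR'0, fun w hw => hsub (hball w hw), ?_⟩
  rintro z ⟨hzS, hz⟩ x hx y hy hxy
  rcases eq_or_ne y z with hyz | hyz
  · subst hyz
    rw [sub_self, norm_zero, mul_zero] at hxy
    have h1 : x = y := sub_eq_zero.1 (norm_le_zero_iff.1 hxy)
    subst h1
    rw [sub_self, norm_zero, mul_zero]
  have hxs := hsub (hball x hx)
  have hys := hsub (hball y hy)
  have hzs := hsub (hball z hz)
  have ox := hosc x (hball x hx)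
  have oy := hosc y (hball y hy)
  have oz := hosc z (hball z hz)
  set f := fm φ ψ with hf
  have htri : ∀ w, ‖f w - f x0‖ ≤ s0 / 4 → ‖f w - f z‖ ≤ s0 / 2 := by
    intro w hw
    have h1 : f w - f z = (f w - f x0) - (f z - f x0) := by abel
    rw [h1]
    have h2 := norm_sub_le (f w - f x0) (f z - f x0)
    linarith
  have hl0 : 0 < ‖f y - f z‖ := by
    rw [norm_pos_iff, sub_ne_zero]
    intro h1
    exact hyz (hsep y hys z hzS h1)
  rcases le_or_gt ‖f x - f z‖ ‖f y - f z‖ with hle | hlt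
  · calc ‖f x - f z‖ ≤ 1 * ‖f y - f z‖ := by rw [one_mul]; exact hle
      _ ≤ Real.exp C * ‖f y - f z‖ :=
          mul_le_mul_of_nonneg_right (Real.one_le_exp hC0.le) (norm_nonneg _)
  have hly := htri y oy
  have hLx := htri x ox
  have hL0 : 0 < ‖f x - f z‖ := hl0.trans hlt
  obtain ⟨hc1, hc2, x', hx's, hx'⟩ := hcon z hzS (by linarith)
  have hE := hc1 ‖f y - f z‖ hl0.le (by linarith)
  have hF := hc2 ‖f x - f z‖ hL0 (by linarith)
  have hx'far : R0 < ‖x' - x0‖ := by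
    by_contra h1
    rw [not_lt] at h1
    have h2 : x' ∈ Metric.closedBall x0 R0 := by
      rw [Metric.mem_closedBall, dist_eq_norm]
      exact h1
    have h3 := htri x' (hosc x' h2)
    rw [hx'] at h3
    linarith
  rw [Metric.mem_ball, dist_eq_norm] at hx hy hz
  have hzy : ‖z - y‖ ≤ 2 * R' := by
    have h1 : z - y = (z - x0) - (y - x0) := by abel
    rw [h1]
    have h2 := norm_sub_le (z - x0) (y - x0)
    linarith
  have hzyM : (M + 1) * ‖z - y‖ ≤ R0 / 50 := by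
    calc (M + 1) * ‖z - y‖ ≤ (M + 1) * (2 * R') := mul_le_mul_of_nonneg_left hzy hM1.le
      _ = 2 * ((M + 1) * R') := by ring
      _ = R0 / 50 := by rw [hR'e]; ring
  have hx'x : R0 - R' ≤ ‖x' - x‖ := by
    have h1 : x' - x0 = (x' - x) + (x - x0) := by abel
    have h2 := norm_add_le (x' - x) (x - x0)
    rw [← h1] at h2
    linarith
  have hlog := hC φ ψ A {w | w ∈ ψ.source ∧ ‖f w - f z‖ ≤ ‖f y - f z‖}
    {w | w ∈ ψ.source ∧ ‖f x - f z‖ ≤ ‖f w - f z‖ ∧ ‖f w - f z‖ ≤ s0} (f z) z y x x'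
    ‖f y - f z‖ ‖f x - f z‖ hW hE hF
    ⟨hzs, by rw [sub_self, norm_zero]; exact hl0.le⟩ ⟨hys, le_rfl⟩
    ⟨hxs, le_rfl, by linarith⟩ ⟨hx's, by rw [hx']; linarith, hx'.le⟩ (Ne.symm hyz)
    (by rw [norm_sub_rev z y]; exact hxy)
    (by
      have h1 : 10 * (M + 1) * ‖z - y‖ = 10 * ((M + 1) * ‖z - y‖) := by ring
      rw [h1]
      linarith)
    (by
      intro w hw
      apply hsub
      rw [Metric.mem_closedBall, dist_eq_norm] at hw ⊢
      have h1 : w - x0 = (w - x) + (x - x0) := by abel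
      rw [h1]
      have h2 := norm_add_le (w - x) (x - x0)
      have h3 : 4 * (M + 1) * ‖z - y‖ = 4 * ((M + 1) * ‖z - y‖) := by ring
      rw [h3] at hw
      linarith)
    hl0 hlt (fun w hw => hw.2) (fun w hw => hw.2.1)
  have h1 : ‖f x - f z‖ / ‖f y - f z‖ ≤ Real.exp C := by
    rw [← Real.exp_log (div_pos hL0 hl0)]
    exact Real.exp_le_exp.2 hlog
  exact (div_le_iff₀ hl0).1 h1

end Pool.Flat
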