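import Pool.Agent.Work.MP_680515_fl.Iface4

/-!
# MP_680515_an, THEOREM FC, block LDB: distortion on Whitney balls
-/

open MeasureTheory Set Filter Topology

namespace Pool.Flat

open Pool.Mart

theorem LDB_shell (c : E3) (a b : ℝ) (ha : 0 < a) :
    IsPreconnected {y : E3 | a ≤ ‖y - c‖ ∧ ‖y - c‖ ≤ b} := by
  have hrank : 1 < Module.rank ℝ E3 := by
    rw [← Module.finrank_eq_rank, finrank_euclideanSpace_fin]
    norm_num
  have h1 : IsPreconnected (Metric.sphere (0 : E3) 1 ×ˢ Icc a b) :=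
    (isPreconnected_sphere hrank 0 1).prod isPreconnected_Icc
  have h2 : {y : E3 | a ≤ ‖y - c‖ ∧ ‖y - c‖ ≤ b} =
      (fun p : E3 × ℝ => c + p.2 • p.1) '' (Metric.sphere (0 : E3) 1 ×ˢ Icc a b) := by
    ext y
    constructor
    · rintro ⟨hy1, hy2⟩
      have hpos : 0 < ‖y - c‖ := lt_of_lt_of_le ha hy1
      refine ⟨(‖y - c‖⁻¹ • (y - c), ‖y - c‖), ⟨?_, hy1, hy2⟩, ?_⟩
      · rw [mem_sphere_zero_iff_norm, norm_smul, norm_inv, norm_norm,
          inv_mul_cancel₀ hpos.ne']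
      · show c + ‖y - c‖ • (‖y - c‖⁻¹ • (y - c)) = y
        rw [smul_smul, mul_inv_cancel₀ hpos.ne', one_smul, add_sub_cancel]
    · rintro ⟨⟨u, t⟩, ⟨hu, ht1, ht2⟩, rfl⟩
      rw [mem_sphere_zero_iff_norm] at hu
      have h3 : ‖c + t • u - c‖ = t := by
        rw [add_sub_cancel_left, norm_smul, hu, mul_one, Real.norm_eq_abs,
          abs_of_pos (lt_of_lt_of_le ha ht1)]
      show a ≤ ‖c + t • u - c‖ ∧ ‖c + t • u - c‖ ≤ b
      rw [h3]
      exact ⟨ht1, ht2⟩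
  rw [h2]
  exact h1.image _ (by fun_prop)

theorem p_LDB (hLDA : Stmt_LDA) (hEQC : Stmt_EQC) (hSEC : Stmt_SEC) (hLOE : Stmt_LOE)
    (hTPA : Stmt_TPA) (hFOP : Stmt_FOP) : Stmt_LDB := by
  obtain ⟨H3, hH3, hA⟩ := hLDA 3 (by norm_num)
  have hH3p : 0 < H3 := lt_of_lt_of_le one_pos hH3
  obtain ⟨η, hη⟩ : ∃ η : ℝ, η = 1 / (8 * H3) := ⟨_, rfl⟩
  have hηp : 0 < η := by rw [hη]; positivity
  have hηH : η * H3 = 1 / 8 := by rw [hη]; field_simp
  have hη8 : η ≤ 1 / 8 := by nlinarith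
  obtain ⟨θ1, hθ1, hθ1', hE1⟩ := hEQC η hηp
  obtain ⟨θ2, hθ2, hθ2', hE2⟩ := hEQC (η / 4) (by positivity)
  obtain ⟨C, hC, hL⟩ := hLOE 1 le_rfl
  obtain ⟨H, hHd⟩ : ∃ H : ℝ, H = 1 + Real.exp C + 21 / θ2 + 1 / θ1 := ⟨_, rfl⟩
  have he : 0 < Real.exp C := Real.exp_pos C
  have h21 : 0 < 21 / θ2 := by positivity
  have h11 : 0 < 1 / θ1 := by positivity
  have hH1 : 1 ≤ H := by rw [hHd]; linarith
  have hHe : Real.exp C ≤ H := by rw [hHd]; linarith
  have hHθ2 : 21 ≤ H * θ2 := by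
    have : 21 / θ2 ≤ H := by rw [hHd]; linarith
    rwa [div_le_iff₀ hθ2] at this
  have hHθ1 : 1 ≤ H * θ1 := by
    have : 1 / θ1 ≤ H := by rw [hHd]; linarith
    rwa [div_le_iff₀ hθ1] at this
  refine ⟨H, hH1, ?_⟩
  intro φ ψ A x0 hWM hx0
  obtain ⟨RA, hRA, hRAs, hA'⟩ := hA φ ψ A x0 hWM hx0
  obtain ⟨RE1, hRE1, hE1'⟩ := hE1 φ ψ A x0 hWM hx0
  obtain ⟨RE2, hRE2, hE2'⟩ := hE2 φ ψ A x0 hWM hx0
  obtain ⟨s0, R0, hs0, hR0, hT1, hT2, hT3, hT4, -, hT6⟩ := hTPA φ ψ x0 hWM.src hx0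
  obtain ⟨s2, hs2, hs2'⟩ := hT6 RA hRA
  obtain ⟨hFc, -, hFs⟩ := hFOP φ ψ hWM.src
  have hx0s : x0 ∈ ψ.source := hx0.1
  -- continuity at `x0`
  obtain ⟨R3, hR3, hR3'⟩ : ∃ R3 : ℝ, 0 < R3 ∧ ∀ p : E3, ‖p - x0‖ < R3 →
      ‖fm φ ψ p - fm φ ψ x0‖ ≤ s2 / 4 := by
    have hc : ContinuousAt (fm φ ψ) x0 := hFc.continuousAt (ψ.open_source.mem_nhds hx0s)
    rw [Metric.continuousAt_iff] at hc
    obtain ⟨R3, hR3, h⟩ := hc (s2 / 4) (by positivity)
    refine ⟨R3, hR3, fun p hp => ?_⟩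
    have := h (by rwa [dist_eq_norm] : dist p x0 < R3)
    rw [dist_eq_norm] at this
    exact this.le
  obtain ⟨R', hR'd⟩ : ∃ R' : ℝ, R' = min (min (RA / 4) (min RE1 RE2)) (min (R0 / 10) (R3 / 4)) :=
    ⟨_, rfl⟩
  have hR'p : 0 < R' := by
    rw [hR'd]
    refine lt_min (lt_min (by positivity) (lt_min hRE1 hRE2)) (lt_min (by positivity) (by positivity))
  have hR'A : R' ≤ RA / 4 := by rw [hR'd]; exact (min_le_left _ _).trans (min_le_left _ _)
  have hR'1 : R' ≤ RE1 := by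
    rw [hR'd]; exact (min_le_left _ _).trans ((min_le_right _ _).trans (min_le_left _ _))
  have hR'2 : R' ≤ RE2 := by
    rw [hR'd]; exact (min_le_left _ _).trans ((min_le_right _ _).trans (min_le_right _ _))
  have hR'0 : R' ≤ R0 / 10 := by rw [hR'd]; exact (min_le_right _ _).trans (min_le_left _ _)
  have hR'3 : R' ≤ R3 / 4 := by rw [hR'd]; exact (min_le_right _ _).trans (min_le_right _ _)
  refine ⟨R', hR'p, ?_⟩
  intro z hz x hx y hy hyz hxy
  rw [Metric.mem_ball, dist_eq_norm] at hz hx hy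
  obtain ⟨S, hS⟩ : ∃ S : Set E3, S = bset ψ.source ψ := ⟨_, rfl⟩
  rw [← hS] at hyz
  obtain ⟨d, hd⟩ : ∃ d : ℝ, d = Metric.infDist z S := ⟨_, rfl⟩
  rw [← hd] at hyz
  have hd0 : 0 ≤ d := by rw [hd]; exact Metric.infDist_nonneg
  have hSne : S.Nonempty := ⟨x0, by rw [hS]; exact hx0⟩
  have hdle : ∀ q ∈ S, d ≤ ‖z - q‖ := by
    intro q hq
    rw [hd, ← dist_eq_norm]
    exact Metric.infDist_le_dist_of_mem hq
  have hdR : d < R' := lt_of_le_of_lt (hdle x0 (by rw [hS]; exact hx0)) hz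
  have hr0 : 0 ≤ ‖y - z‖ := norm_nonneg _
  have hrd : ‖y - z‖ ≤ d := by nlinarith
  -- the case `y = z`
  rcases eq_or_lt_of_le hr0 with hr | hr
  · have hyz' : y = z := by
      rw [← sub_eq_zero, ← norm_eq_zero]; exact hr.symm
    have hxz' : x = z := by
      rw [← sub_eq_zero, ← norm_eq_zero]
      exact le_antisymm (hxy.trans hr.symm.le) (norm_nonneg _)
    rw [hyz', hxz', sub_self, norm_zero, mul_zero]
  have hdp : 0 < d := lt_of_lt_of_le hr hrd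
  have hzS : z ∉ S := by
    intro h
    have := hdle z h
    rw [sub_self, norm_zero] at this
    linarith
  obtain ⟨q, hqS, hq⟩ : ∃ q ∈ S, ‖z - q‖ < 2 * d := by
    have h1 : Metric.infDist z S < 2 * d := by rw [← hd]; linarith
    obtain ⟨q, hqS, hq⟩ := (Metric.infDist_lt_iff hSne).mp h1
    exact ⟨q, hqS, by rwa [dist_eq_norm] at hq⟩
  have hqS' : q ∈ bset ψ.source ψ := by rw [← hS]; exact hqS
  have hqx0 : ‖q - x0‖ < 3 * R' := by
    have h1 : ‖q - x0‖ ≤ ‖z - q‖ + ‖z - x0‖ := by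
      have : q - x0 = -(z - q) + (z - x0) := by abel
      rw [this]
      refine (norm_add_le _ _).trans ?_
      rw [norm_neg]
    linarith
  have hsrc : ∀ p : E3, ‖p - x0‖ ≤ R0 → p ∈ ψ.source := by
    intro p hp
    apply hT3
    rwa [Metric.mem_closedBall, dist_eq_norm]
  have hzs : z ∈ ψ.source := hsrc z (by linarith)
  have hfx0 : ∀ p : E3, ‖p - x0‖ ≤ R0 → ‖fm φ ψ p - fm φ ψ x0‖ ≤ s0 / 4 := by
    intro p hp
    apply hT4
    rwa [Metric.mem_closedBall, dist_eq_norm]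
  obtain ⟨D0, hD0⟩ : ∃ D0 : ℝ, D0 = ‖fm φ ψ z - fm φ ψ q‖ := ⟨_, rfl⟩
  have hD0p : 0 < D0 := by
    rw [hD0, norm_pos_iff, sub_ne_zero]
    intro h
    have := hFs z hzs q hqS' h
    rw [this] at hzS
    exact hzS hqS
  have htri : ∀ a b c : E3, ‖a - c‖ ≤ ‖a - b‖ + ‖c - b‖ := by
    intro a b c
    have : a - c = (a - b) - (c - b) := by abel
    rw [this]
    exact norm_sub_le _ _
  have hD0s : D0 ≤ s0 / 2 := by
    have h1 := htri (fm φ ψ z) (fm φ ψ x0) (fm φ ψ q)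
    have h2 := hfx0 z (by linarith)
    have h3 := hfx0 q (by linarith)
    rw [hD0]
    linarith
  have hD0s2 : D0 ≤ s2 / 2 := by
    have h1 := htri (fm φ ψ z) (fm φ ψ x0) (fm φ ψ q)
    have h2 := hR3' z (by linarith)
    have h3 := hR3' q (by linarith)
    rw [hD0]
    linarith
  -- step (1)
  have hsep : ∀ q' ∈ bset ψ.source ψ, η * D0 < ‖fm φ ψ z - fm φ ψ q'‖ := by
    intro q' hq'
    have hq'S : q' ∈ S := by rw [hS]; exact hq'
    have hdq' := hdle q' hq'S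
    by_cases hnear : ‖q' - x0‖ < RA
    · by_cases hcl : ‖fm φ ψ q - fm φ ψ q'‖ ≤ D0 / 2
      · have h1 := htri (fm φ ψ z) (fm φ ψ q') (fm φ ψ q)
        rw [← hD0] at h1
        nlinarith
      · push Not at hcl
        have h1 : ‖q - q'‖ ≤ 3 * ‖z - q'‖ := by
          have h2 : ‖q - q'‖ ≤ ‖z - q‖ + ‖z - q'‖ := by
            have : q - q' = -(z - q) + (z - q') := by abel
            rw [this]
            refine (norm_add_le _ _).trans ?_
            rw [norm_neg]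
          linarith
        have h2 := hA' q' ⟨hq', by rwa [Metric.mem_ball, dist_eq_norm]⟩ q
          (by rw [Metric.mem_ball, dist_eq_norm]; linarith) z
          (by rw [Metric.mem_ball, dist_eq_norm]; linarith) h1
        have h3 : D0 / 2 < H3 * ‖fm φ ψ z - fm φ ψ q'‖ := lt_of_lt_of_le hcl h2
        by_contra hcon
        push Not at hcon
        have h4 : H3 * ‖fm φ ψ z - fm φ ψ q'‖ ≤ H3 * (η * D0) :=
          mul_le_mul_of_nonneg_left hcon hH3p.le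
        have h5 : H3 * (η * D0) = D0 / 8 := by
          rw [← mul_assoc, mul_comm H3 η, hηH]; ring
        linarith
    · push Not at hnear
      have h1 : s2 < ‖fm φ ψ q' - fm φ ψ x0‖ := by
        by_contra hcon
        push Not at hcon
        have := hs2' q' hq'.1 hcon
        linarith
      have h2 := hR3' z (by linarith)
      have h3 : ‖fm φ ψ q' - fm φ ψ x0‖ ≤ ‖fm φ ψ z - fm φ ψ q'‖ + ‖fm φ ψ z - fm φ ψ x0‖ := by
        have : fm φ ψ q' - fm φ ψ x0 = -(fm φ ψ z - fm φ ψ q') + (fm φ ψ z - fm φ ψ x0) := by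
          abel
        rw [this]
        refine (norm_add_le _ _).trans ?_
        rw [norm_neg]
      nlinarith
  -- step (2)
  obtain ⟨G, hGc, hGf, hGz, hGC⟩ := hSEC φ ψ x0 z s0 (η * D0) hWM.src hx0 hs0 hT1 hT2 hzs
    ((hfx0 z (by linarith)).trans (by linarith)) (by positivity) (by nlinarith) hsep
  have hinf : 0 < Metric.infDist z (bset ψ.source ψ) := by rw [← hS, ← hd]; exact hdp
  have hqd : ‖z - q‖ ≤ 2 * Metric.infDist z (bset ψ.source ψ) := by
    rw [← hS, ← hd]; exact hq.le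
  have hEQ1 : ∀ p : E3, ‖p - z‖ ≤ θ1 * d → ‖fm φ ψ p - fm φ ψ z‖ ≤ η * D0 := by
    intro p hp
    rw [hD0]
    exact hE1' z (by rw [Metric.mem_ball, dist_eq_norm]; linarith) q hqS' hinf hqd p
      (by rw [← hS, ← hd]; exact hp)
  have hEQ2 : ∀ p : E3, ‖p - z‖ ≤ θ2 * d → ‖fm φ ψ p - fm φ ψ z‖ ≤ η / 4 * D0 := by
    intro p hp
    rw [hD0]
    exact hE2' z (by rw [Metric.mem_ball, dist_eq_norm]; linarith) q hqS' hinf hqd p
      (by rw [← hS, ← hd]; exact hp)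
  have hGinv : ∀ p : E3, ‖p - z‖ ≤ θ1 * d → G (fm φ ψ p) = p := by
    intro p hp
    refine hGC (Metric.closedBall z (θ1 * d)) (convex_closedBall z _).isPreconnected ?_ ?_ ?_ p
      (by rwa [Metric.mem_closedBall, dist_eq_norm])
    · intro p' hp'
      rw [Metric.mem_closedBall, dist_eq_norm] at hp'
      apply hsrc
      have h1 : ‖p' - x0‖ ≤ ‖p' - z‖ + ‖z - x0‖ := by
        have : p' - x0 = (p' - z) + (z - x0) := by abel
        rw [this]
        exact norm_add_le _ _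
      nlinarith
    · rw [Metric.mem_closedBall, dist_self]
      positivity
    · intro p' hp'
      rw [Metric.mem_closedBall, dist_eq_norm] at hp'
      rw [Metric.mem_closedBall, dist_eq_norm]
      exact hEQ1 p' hp'
  -- step (3)
  have hrθ1 : ‖y - z‖ ≤ θ1 * d := by
    have h1 : ‖y - z‖ ≤ (H * θ1) * ‖y - z‖ := by nlinarith
    have h2 : (H * θ1) * ‖y - z‖ = θ1 * (H * ‖y - z‖) := by ring
    have h3 : θ1 * (H * ‖y - z‖) ≤ θ1 * d := mul_le_mul_of_nonneg_left hyz hθ1.le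
    linarith
  have hrθ2 : 21 * ‖y - z‖ ≤ θ2 * d := by
    have h1 : 21 * ‖y - z‖ ≤ (H * θ2) * ‖y - z‖ := mul_le_mul_of_nonneg_right hHθ2 hr.le
    have h2 : (H * θ2) * ‖y - z‖ = θ2 * (H * ‖y - z‖) := by ring
    have h3 : θ2 * (H * ‖y - z‖) ≤ θ2 * d := mul_le_mul_of_nonneg_left hyz hθ2.le
    linarith
  have hGy := hGinv y hrθ1
  have hGx := hGinv x (hxy.trans hrθ1)
  obtain ⟨l, hl⟩ : ∃ l : ℝ, l = ‖fm φ ψ y - fm φ ψ z‖ := ⟨_, rfl⟩
  obtain ⟨L, hLd⟩ : ∃ L : ℝ, L = ‖fm φ ψ x - fm φ ψ z‖ := ⟨_, rfl⟩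
  rw [← hl, ← hLd]
  have hlp : 0 < l := by
    rw [hl, norm_pos_iff, sub_ne_zero]
    intro h
    have h1 : y = z := by rw [← hGy, h, hGz]
    rw [h1, sub_self, norm_zero] at hr
    exact lt_irrefl _ hr
  by_cases hlL : l < L
  swap
  · push Not at hlL
    nlinarith
  have hLη : L ≤ η / 4 * D0 := by
    rw [hLd]
    exact hEQ2 x (by linarith)
  have hηD : 0 < η * D0 := by positivity
  obtain ⟨e, he1⟩ : ∃ e : E3, ‖e‖ = 1 := ⟨EuclideanSpace.single 0 1, by simp⟩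
  obtain ⟨y'', hy''⟩ : ∃ y'' : E3, ‖y'' - fm φ ψ z‖ = η * D0 / 2 :=
    ⟨fm φ ψ z + (η * D0 / 2) • e, by
      rw [add_sub_cancel_left, norm_smul, he1, mul_one, Real.norm_eq_abs,
        abs_of_pos (by positivity)]⟩
  have hy''m : y'' ∈ Metric.closedBall (fm φ ψ z) (η * D0) := by
    rw [Metric.mem_closedBall, dist_eq_norm, hy'']
    linarith
  have hq2 : θ2 * d < ‖G y'' - z‖ := by
    by_contra hcon
    push Not at hcon
    have := hEQ2 (G y'') hcon
    rw [(hGf y'' hy''m).2, hy''] at this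
    linarith
  have hEsub : Metric.closedBall (fm φ ψ z) l ⊆ Metric.closedBall (fm φ ψ z) (η * D0) :=
    Metric.closedBall_subset_closedBall (by linarith)
  have hFsub : {y' : E3 | L ≤ ‖y' - fm φ ψ z‖ ∧ ‖y' - fm φ ψ z‖ ≤ η * D0 / 2} ⊆
      Metric.closedBall (fm φ ψ z) (η * D0) := by
    rintro y' ⟨-, hy'⟩
    rw [Metric.mem_closedBall, dist_eq_norm]
    linarith
  have hfin := hL φ ψ A (G '' Metric.closedBall (fm φ ψ z) l)
    (G '' {y' : E3 | L ≤ ‖y' - fm φ ψ z‖ ∧ ‖y' - fm φ ψ z‖ ≤ η * D0 / 2})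
    (fm φ ψ z) z y x (G y'') l L hWM
    ((convex_closedBall _ _).isPreconnected.image G (hGc.mono hEsub))
    ((LDB_shell (fm φ ψ z) L (η * D0 / 2) (hlp.trans hlL)).image G (hGc.mono hFsub))
    ⟨fm φ ψ z, Metric.mem_closedBall_self hlp.le, hGz⟩
    ⟨fm φ ψ y, by rw [Metric.mem_closedBall, dist_eq_norm, hl], hGy⟩
    ⟨fm φ ψ x, ⟨hLd.le, by rw [← hLd]; linarith⟩, hGx⟩
    ⟨y'', ⟨by rw [hy'']; linarith, hy''.le⟩, rfl⟩
    (by
      intro h
      rw [h, sub_self, norm_zero] at hr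
      exact lt_irrefl _ hr)
    (by rw [one_mul, norm_sub_rev z y]; exact hxy)
    (by
      rw [norm_sub_rev z y]
      have h1 : ‖G y'' - z‖ ≤ ‖G y'' - x‖ + ‖x - z‖ := by
        have : G y'' - z = (G y'' - x) + (x - z) := by abel
        rw [this]
        exact norm_add_le _ _
      linarith)
    (by
      intro p hp
      rw [Metric.mem_closedBall, dist_eq_norm, norm_sub_rev z y] at hp
      apply hsrc
      have h1 : ‖p - x0‖ ≤ ‖p - x‖ + ‖x - x0‖ := by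
        have : p - x0 = (p - x) + (x - x0) := by abel
        rw [this]
        exact norm_add_le _ _
      linarith)
    hlp hlL
    (by
      rintro _ ⟨p, hp, rfl⟩
      rw [(hGf p (hEsub hp)).2]
      rwa [Metric.mem_closedBall, dist_eq_norm] at hp)
    (by
      rintro _ ⟨p, hp, rfl⟩
      rw [(hGf p (hFsub hp)).2]
      exact hp.1)
  have hLp : 0 < L := hlp.trans hlL
  have h1 : L / l ≤ Real.exp C := by
    rw [← Real.exp_log (div_pos hLp hlp)]
    exact Real.exp_le_exp.mpr hfin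
  rw [div_le_iff₀ hlp] at h1
  exact h1.trans (mul_le_mul_of_nonneg_right hHe hlp.le)

end Pool.Flat
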