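import Pool.Agent.Work.MP_680515_fl.Iface4

/-! Block LDC: the distortion condition with an absolute constant -/

open MeasureTheory Set Filter Topology

namespace Pool.Flat

open Pool.Mart

theorem p_LDC (hA : Stmt_LDA) (hB : Stmt_LDB) : Stmt_LDC := by
  obtain ⟨HA, hA1, hA2⟩ := hA 1 le_rfl
  obtain ⟨HB, hB1, hB2⟩ := hB
  refine ⟨max HA HB, hA1.trans (le_max_left _ _), ?_⟩
  intro φ ψ A x0 hW hx0
  obtain ⟨RA, hRA, -, h1⟩ := hA2 φ ψ A x0 hW hx0
  obtain ⟨RB, hRB, h2⟩ := hB2 φ ψ A x0 hW hx0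
  refine ⟨min RA RB, lt_min hRA hRB, ?_⟩
  intro R hR
  have ha : Metric.ball x0 R ⊆ Metric.ball x0 RA :=
    Metric.ball_subset_ball (hR.trans (min_le_left _ _))
  have hb : Metric.ball x0 R ⊆ Metric.ball x0 RB :=
    Metric.ball_subset_ball (hR.trans (min_le_right _ _))
  refine ⟨?_, ?_⟩
  · intro z hz x hx y hy hxy
    refine (h1 z ⟨hz.1, ha hz.2⟩ x (ha hx) y (ha hy) (by rw [one_mul]; exact hxy)).trans ?_
    exact mul_le_mul_of_nonneg_right (le_max_left _ _) (norm_nonneg _)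
  · intro z hz x hx y hy hd hxy
    refine (h2 z (hb hz) x (hb hx) y (hb hy) ?_ hxy).trans ?_
    · exact (mul_le_mul_of_nonneg_right (le_max_right _ _) (norm_nonneg _)).trans hd
    · exact mul_le_mul_of_nonneg_right (le_max_right _ _) (norm_nonneg _)

end Pool.Flat
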