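import Pool.Agent.Work.MP_680515_fl.Iface4

/-! # Block LEB: Lebesgue points in `L^3` -/

open MeasureTheory Set Filter Topology

namespace Pool.Flat

open Pool.Mart

theorem LEB_int {K : Set E3} (hK : IsCompact K) {a : E3 → ℝ}
    (h : MemLp a 3 (volume.restrict K)) (q : ℝ) :
    Integrable (fun y => |a y - q| ^ 3) (volume.restrict K) := by
  have : IsFiniteMeasure (volume.restrict K : Measure E3) :=
    ⟨by rw [Measure.restrict_apply_univ]; exact hK.measure_lt_top⟩
  have h1 : MemLp (fun y => a y - q) ((3 : ℕ) : ENNReal) (volume.restrict K) := by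
    have h2 := h.sub (memLp_const (μ := volume.restrict K) (p := 3) q)
    exact_mod_cast h2
  exact h1.integrable_norm_pow (by norm_num)

theorem LEB_ineq (s t : ℝ) (hs : 0 ≤ s) (ht : 0 ≤ t) : (s + t) ^ 3 ≤ 4 * (s ^ 3 + t ^ 3) := by
  nlinarith [mul_nonneg (add_nonneg hs ht) (sq_nonneg (s - t))]

theorem LEB_one (x0 : E3) (ρ : ℝ) (a : E3 → ℝ)
    (h : MemLp a 3 (volume.restrict (Metric.closedBall x0 ρ))) :
    ∀ᵐ x ∂(volume : Measure E3), x ∈ Metric.ball x0 ρ →
      Tendsto (fun r : ℝ => (r ^ 3)⁻¹ * ∫ y in Metric.ball x r, |a y - a x| ^ 3)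
        (𝓝[>] 0) (𝓝 0) := by
  have hK : IsCompact (Metric.closedBall x0 ρ) := isCompact_closedBall x0 ρ
  have hloc : ∀ q : ℚ, LocallyIntegrable ((Metric.closedBall x0 ρ).indicator
      (fun y => |a y - (q : ℝ)| ^ 3)) (volume : Measure E3) := by
    intro q
    exact ((integrable_indicator_iff measurableSet_closedBall).2 (LEB_int hK h q)).locallyIntegrable
  have hae : ∀ᵐ x ∂(volume : Measure E3), ∀ q : ℚ, Tendsto (fun r : ℝ =>
      ⨍ y in Metric.closedBall x r, (Metric.closedBall x0 ρ).indicator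
        (fun y => |a y - (q : ℝ)| ^ 3) y ∂volume) (𝓝[>] 0)
        (𝓝 ((Metric.closedBall x0 ρ).indicator (fun y => |a y - (q : ℝ)| ^ 3) x)) := by
    rw [ae_all_iff]
    intro q
    filter_upwards [IsUnifLocDoublingMeasure.ae_tendsto_average (volume : Measure E3) (hloc q) 1]
      with x hx
    refine hx (fun _ => x) (fun r => r) tendsto_id ?_
    filter_upwards [self_mem_nhdsWithin] with r hr
    rw [one_mul]
    exact Metric.mem_closedBall_self (le_of_lt hr)
  filter_upwards [hae] with x hx hxb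
  obtain ⟨r0, hr0, hr0s⟩ := Metric.isOpen_iff.1 Metric.isOpen_ball x hxb
  set v : ℝ := (volume : Measure E3).real (Metric.closedBall (0 : E3) 1) with hv
  have hv0 : 0 ≤ v := measureReal_nonneg
  have hvol : ∀ r : ℝ, 0 ≤ r → (volume : Measure E3).real (Metric.closedBall x r) = r ^ 3 * v := by
    intro r hr
    have h1 := Measure.addHaar_real_closedBall' (volume : Measure E3) x hr
    rw [finrank_euclideanSpace_fin] at h1
    exact h1
  -- the main estimate
  have key : ∀ (q : ℚ) (r : ℝ), 0 < r → r < r0 →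
      (r ^ 3)⁻¹ * ∫ y in Metric.ball x r, |a y - a x| ^ 3 ≤
        4 * v * (⨍ y in Metric.closedBall x r, (Metric.closedBall x0 ρ).indicator
          (fun y => |a y - (q : ℝ)| ^ 3) y ∂volume) + 4 * v * |(q : ℝ) - a x| ^ 3 := by
    intro q r hr hrr
    have hsub : Metric.closedBall x r ⊆ Metric.closedBall x0 ρ := by
      intro y hy
      exact Metric.ball_subset_closedBall (hr0s (Metric.mem_ball.2 (lt_of_le_of_lt
        (Metric.mem_closedBall.1 hy) hrr)))
    have hfin : (volume : Measure E3) (Metric.closedBall x r) ≠ ⊤ :=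
      (isCompact_closedBall x r).measure_lt_top.ne
    have hI : ∀ c : ℝ, IntegrableOn (fun y => |a y - c| ^ 3) (Metric.closedBall x r) volume :=
      fun c => IntegrableOn.mono_set (LEB_int hK h c) hsub
    have h1 : ∫ y in Metric.ball x r, |a y - a x| ^ 3 ≤
        ∫ y in Metric.closedBall x r, |a y - a x| ^ 3 :=
      setIntegral_mono_set (hI (a x)) (Eventually.of_forall fun y => by positivity)
        Metric.ball_subset_closedBall.eventuallyLE
    have h2 : ∫ y in Metric.closedBall x r, |a y - a x| ^ 3 ≤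
        ∫ y in Metric.closedBall x r, 4 * (|a y - (q : ℝ)| ^ 3 + |(q : ℝ) - a x| ^ 3) := by
      refine setIntegral_mono_on (hI (a x)) ?_ measurableSet_closedBall fun y _ => ?_
      · exact ((hI q).add (integrableOn_const hfin)).const_mul 4
      · refine le_trans ?_ (LEB_ineq _ _ (abs_nonneg _) (abs_nonneg _))
        gcongr
        calc |a y - a x| = |(a y - (q : ℝ)) + ((q : ℝ) - a x)| := by congr 1; ring
          _ ≤ _ := abs_add_le _ _
    have h3 : ∫ y in Metric.closedBall x r, 4 * (|a y - (q : ℝ)| ^ 3 + |(q : ℝ) - a x| ^ 3) =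
        4 * (∫ y in Metric.closedBall x r, |a y - (q : ℝ)| ^ 3) +
          4 * (r ^ 3 * v * |(q : ℝ) - a x| ^ 3) := by
      rw [integral_const_mul, integral_add (hI q) (integrableOn_const hfin), setIntegral_const,
        hvol r hr.le, smul_eq_mul, mul_add]
    have h4 : ∫ y in Metric.closedBall x r, |a y - (q : ℝ)| ^ 3 =
        r ^ 3 * v * (⨍ y in Metric.closedBall x r, (Metric.closedBall x0 ρ).indicator
          (fun y => |a y - (q : ℝ)| ^ 3) y ∂volume) := by
      rw [setAverage_eq, hvol r hr.le, smul_eq_mul]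
      have h5 : ∫ y in Metric.closedBall x r, (Metric.closedBall x0 ρ).indicator
          (fun y => |a y - (q : ℝ)| ^ 3) y = ∫ y in Metric.closedBall x r, |a y - (q : ℝ)| ^ 3 :=
        setIntegral_congr_fun measurableSet_closedBall fun y hy => indicator_of_mem (hsub hy) _
      rw [h5]
      by_cases hv1 : v = 0
      · have h6 : (volume : Measure E3) (Metric.closedBall x r) = 0 := by
          have h7 := hvol r hr.le
          rw [hv1, mul_zero] at h7
          exact (measureReal_eq_zero_iff hfin).1 h7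
        rw [Measure.restrict_eq_zero.2 h6, integral_zero_measure, mul_zero, mul_zero]
      · have : r ^ 3 * v ≠ 0 := mul_ne_zero (pow_ne_zero _ hr.ne') hv1
        rw [← mul_assoc, mul_inv_cancel₀ this, one_mul]
    have h8 : 0 < r ^ 3 := pow_pos hr 3
    rw [inv_mul_le_iff₀ h8]
    calc ∫ y in Metric.ball x r, |a y - a x| ^ 3 ≤ _ := h1.trans (h2.trans h3.le)
      _ = _ := by
        rw [h4]
        ring
  rw [tendsto_order]
  constructor
  · intro c hc
    filter_upwards [self_mem_nhdsWithin] with r hr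
    refine lt_of_lt_of_le hc ?_
    have : (0 : ℝ) < r := hr
    refine mul_nonneg (by positivity) (integral_nonneg fun y => ?_)
    change (0 : ℝ) ≤ |a y - a x| ^ 3
    positivity
  · intro ε hε
    obtain ⟨q, hq⟩ : ∃ q : ℚ, 8 * v * |(q : ℝ) - a x| ^ 3 < ε := by
      have h1 : Tendsto (fun t : ℝ => 8 * v * |t - a x| ^ 3) (𝓝 (a x)) (𝓝 (8 * v * |a x - a x| ^ 3)) := by
        have : Continuous (fun t : ℝ => 8 * v * |t - a x| ^ 3) := by fun_prop
        exact this.tendsto _
      have h2 : 8 * v * |a x - a x| ^ 3 < ε := by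
        simpa using hε
      have h3 := (tendsto_order.1 h1).2 ε h2
      have h4 : {t : ℝ | 8 * v * |t - a x| ^ 3 < ε} ∈ 𝓝 (a x) := h3
      obtain ⟨q, hq⟩ := Rat.denseRange_cast.exists_mem_open isOpen_interior
        ⟨a x, mem_interior_iff_mem_nhds.2 h4⟩
      have h5 : (q : ℝ) ∈ {t : ℝ | 8 * v * |t - a x| ^ 3 < ε} := interior_subset hq
      exact ⟨q, h5⟩
    have h5 := ((hx q).const_mul (4 * v)).add_const (4 * v * |(q : ℝ) - a x| ^ 3)
    rw [indicator_of_mem (Metric.ball_subset_closedBall hxb)] at h5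
    have h6 : 4 * v * |a x - (q : ℝ)| ^ 3 + 4 * v * |(q : ℝ) - a x| ^ 3 < ε := by
      rw [abs_sub_comm (a x)]
      linarith
    have h7 := (tendsto_order.1 h5).2 ε h6
    have h8 : ∀ᶠ r : ℝ in 𝓝[>] 0, r < r0 :=
      mem_nhdsWithin_of_mem_nhds (Iio_mem_nhds hr0)
    filter_upwards [h7, h8, self_mem_nhdsWithin] with r h9 h10 h11
    exact lt_of_le_of_lt (key q r h11 h10) h9

theorem p_LEB : Stmt_LEB := by
  intro Ω A hΩ h
  rw [ae_restrict_iff' hΩ.measurableSet, ae_iff]
  apply measure_null_of_locally_null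
  intro x0 hx0
  have hx0Ω : x0 ∈ Ω := by
    by_contra hcon
    exact hx0 fun hh => absurd hh hcon
  obtain ⟨ρ', hρ', hρs'⟩ := Metric.isOpen_iff.1 hΩ x0 hx0Ω
  have hρ : 0 < ρ' / 2 := by linarith
  have hsub : Metric.closedBall x0 (ρ' / 2) ⊆ Ω := by
    intro y hy
    exact hρs' (Metric.mem_ball.2 (lt_of_le_of_lt (Metric.mem_closedBall.1 hy) (by linarith)))
  have hall : ∀ᵐ x ∂(volume : Measure E3), ∀ i j : Fin 3, x ∈ Metric.ball x0 (ρ' / 2) →
      Tendsto (fun r : ℝ => (r ^ 3)⁻¹ * ∫ y in Metric.ball x r, |A y i j - A x i j| ^ 3)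
        (𝓝[>] 0) (𝓝 0) := by
    rw [ae_all_iff]
    intro i
    rw [ae_all_iff]
    intro j
    exact LEB_one x0 (ρ' / 2) (fun y => A y i j) (h _ (isCompact_closedBall _ _) hsub i j)
  refine ⟨{x | ¬ ∀ i j : Fin 3, x ∈ Metric.ball x0 (ρ' / 2) →
      Tendsto (fun r : ℝ => (r ^ 3)⁻¹ * ∫ y in Metric.ball x r, |A y i j - A x i j| ^ 3)
        (𝓝[>] 0) (𝓝 0)}, ?_, ae_iff.1 hall⟩
  filter_upwards [self_mem_nhdsWithin, mem_nhdsWithin_of_mem_nhds (Metric.ball_mem_nhds x0 hρ)]
    with x hx hxb hcon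
  exact hx fun _ i j => hcon i j hxb

end Pool.Flat
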