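import Pool.Agent.Work.MP_680515_fl.Iface2

/-! # Block LGP: logarithmic partition -/

open MeasureTheory Set Filter Topology

namespace Pool.Flat

open Pool.Mart

/-- The bump on `[-1, 1]`; its translates by integers add up to `1`. -/
noncomputable def LGP_B (v : ℝ) : ℝ := Real.smoothTransition (v + 1) - Real.smoothTransition v

theorem LGP_nonneg (v : ℝ) : 0 ≤ LGP_B v := by
  unfold LGP_B
  rcases le_total v 0 with h | h
  · rw [Real.smoothTransition.zero_of_nonpos h, sub_zero]
    exact Real.smoothTransition.nonneg _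
  · rw [Real.smoothTransition.one_of_one_le (by linarith : (1 : ℝ) ≤ v + 1)]
    linarith [Real.smoothTransition.le_one v]

theorem LGP_le_one (v : ℝ) : LGP_B v ≤ 1 := by
  unfold LGP_B
  linarith [Real.smoothTransition.le_one (v + 1), Real.smoothTransition.nonneg v]

theorem LGP_zero (v : ℝ) (h : v ≤ -1 ∨ 1 ≤ v) : LGP_B v = 0 := by
  unfold LGP_B
  rcases h with h | h
  · rw [Real.smoothTransition.zero_of_nonpos (by linarith : v + 1 ≤ 0),
      Real.smoothTransition.zero_of_nonpos (by linarith : v ≤ 0), sub_zero]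
  · rw [Real.smoothTransition.one_of_one_le (by linarith : (1 : ℝ) ≤ v + 1),
      Real.smoothTransition.one_of_one_le h, sub_self]

theorem LGP_smooth : ContDiff ℝ 1 LGP_B := by
  unfold LGP_B
  exact (Real.smoothTransition.contDiff.comp (contDiff_id.add contDiff_const)).sub
    Real.smoothTransition.contDiff

theorem LGP_sum (u : ℝ) (n : ℕ) : ∑ j ∈ Finset.range n, LGP_B (u - ((j : ℝ) + 2)) =
    Real.smoothTransition (u - 1) - Real.smoothTransition (u - ((n : ℝ) + 1)) := by
  induction n with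
  | zero => simp
  | succ n ih =>
    rw [Finset.sum_range_succ, ih]
    unfold LGP_B
    have e1 : u - ((n : ℝ) + 2) + 1 = u - ((n : ℝ) + 1) := by ring
    have e2 : u - (((n + 1 : ℕ) : ℝ) + 1) = u - ((n : ℝ) + 2) := by
      push_cast
      ring
    rw [e1, e2]
    ring

/-- The functions of the partition. -/
noncomputable def LGP_k (t1 h : ℝ) (j : ℕ) (s : ℝ) : ℝ :=
  if 0 < s then LGP_B ((Real.log s - Real.log t1) / h - ((j : ℝ) + 2)) else 0

theorem LGP_exp (t1 h s : ℝ) (ht : 0 < t1) (hh : 0 < h) (hs : 0 < s) :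
    s = t1 * Real.exp ((Real.log s - Real.log t1) / h * h) := by
  rw [div_mul_cancel₀ _ hh.ne', Real.exp_sub, Real.exp_log hs, Real.exp_log ht]
  field_simp

theorem LGP_mono (t1 h x y : ℝ) (ht : 0 < t1) (hh : 0 < h) (hxy : x ≤ y) :
    t1 * Real.exp (x * h) ≤ t1 * Real.exp (y * h) :=
  mul_le_mul_of_nonneg_left (Real.exp_le_exp.2 (mul_le_mul_of_nonneg_right hxy hh.le)) ht.le

theorem LGP_smono (t1 h x y : ℝ) (ht : 0 < t1) (hh : 0 < h) (hxy : x < y) :
    t1 * Real.exp (x * h) < t1 * Real.exp (y * h) :=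
  mul_lt_mul_of_pos_left (Real.exp_lt_exp.2 (mul_lt_mul_of_pos_right hxy hh)) ht

theorem LGP_supp (t1 h : ℝ) (ht : 0 < t1) (hh : 0 < h) (j : ℕ) :
    Function.support (LGP_k t1 h j) ⊆
      Icc (t1 * Real.exp (((j : ℝ) + 1) * h)) (t1 * Real.exp (((j : ℝ) + 3) * h)) := by
  intro s hs
  rw [Function.mem_support] at hs
  unfold LGP_k at hs
  by_cases h0 : 0 < s
  · rw [if_pos h0] at hs
    obtain ⟨u, hu⟩ : ∃ u : ℝ, u = (Real.log s - Real.log t1) / h := ⟨_, rfl⟩
    have hexp := LGP_exp t1 h s ht hh h0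
    rw [← hu] at hs hexp
    have h1 : (j : ℝ) + 1 ≤ u := by
      by_contra hcon
      exact hs (LGP_zero _ (Or.inl (by linarith)))
    have h2 : u ≤ (j : ℝ) + 3 := by
      by_contra hcon
      exact hs (LGP_zero _ (Or.inr (by linarith)))
    rw [hexp]
    exact ⟨LGP_mono t1 h _ _ ht hh h1, LGP_mono t1 h _ _ ht hh h2⟩
  · rw [if_neg h0] at hs
    exact absurd rfl hs

theorem LGP_cd (t1 h : ℝ) (ht : 0 < t1) (hh : 0 < h) (j : ℕ) : ContDiff ℝ 1 (LGP_k t1 h j) := by
  rw [contDiff_iff_contDiffAt]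
  intro s
  rcases lt_or_ge 0 s with hs | hs
  · have h1 : LGP_k t1 h j =ᶠ[𝓝 s]
        fun s => LGP_B ((Real.log s - Real.log t1) / h - ((j : ℝ) + 2)) := by
      filter_upwards [Ioi_mem_nhds hs] with x hx
      unfold LGP_k
      exact if_pos (mem_Ioi.1 hx)
    refine ContDiffAt.congr_of_eventuallyEq ?_ h1
    have h2 : ContDiffAt ℝ 1 (fun s => (Real.log s - Real.log t1) / h - ((j : ℝ) + 2)) s :=
      ((((Real.contDiffAt_log.2 hs.ne').sub contDiffAt_const).div_const h).sub contDiffAt_const)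
    exact LGP_smooth.contDiffAt.comp s h2
  · have hpos : 0 < t1 * Real.exp (((j : ℝ) + 1) * h) := by positivity
    have h1 : LGP_k t1 h j =ᶠ[𝓝 s] fun _ => (0 : ℝ) := by
      filter_upwards [Iio_mem_nhds (lt_of_le_of_lt hs hpos)] with x hx
      by_contra hcon
      exact absurd (LGP_supp t1 h ht hh j hcon).1 (not_le.2 hx)
    exact contDiffAt_const.congr_of_eventuallyEq h1

theorem p_LGP : Stmt_LGP := by
  intro t1 t2 β w ht1 hβ hw hwl h12
  have ht2 : 0 < t2 := ht1.trans h12
  obtain ⟨ℓ, hℓ⟩ : ∃ ℓ : ℝ, ℓ = Real.log (t2 / t1) := ⟨_, rfl⟩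
  rw [← hℓ] at hwl ⊢
  have hℓ0 : 0 < ℓ := hw.trans hwl
  obtain ⟨n, hn⟩ := exists_nat_gt (max (4 * ℓ / w) (ℓ / β))
  have hn1 : 4 * ℓ / w < n := lt_of_le_of_lt (le_max_left _ _) hn
  have hn2 : ℓ / β < n := lt_of_le_of_lt (le_max_right _ _) hn
  have hn0 : (0 : ℝ) < n := lt_trans (by positivity) hn2
  have hn1' : 1 ≤ n := by
    have : 0 < n := by exact_mod_cast hn0
    omega
  have hn1r : (1 : ℝ) ≤ n := by exact_mod_cast hn1'
  obtain ⟨h, hh⟩ : ∃ h : ℝ, h = ℓ / ((n : ℝ) + 3) := ⟨_, rfl⟩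
  have hn3 : (0 : ℝ) < (n : ℝ) + 3 := by positivity
  have hh0 : 0 < h := by rw [hh]; positivity
  have hnh : ((n : ℝ) + 3) * h = ℓ := by rw [hh]; field_simp
  have h4 : 4 * h ≤ w := by
    rw [div_lt_iff₀ hw] at hn1
    have e1 : ((n : ℝ) + 3) * (4 * h) ≤ ((n : ℝ) + 3) * w := by nlinarith
    exact le_of_mul_le_mul_left e1 hn3
  have hhβ : h < β := by
    rw [div_lt_iff₀ hβ] at hn2
    have e1 : ((n : ℝ) + 3) * h < ((n : ℝ) + 3) * β := by nlinarith
    exact lt_of_mul_lt_mul_left e1 hn3.le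
  have ht2e : t2 = t1 * Real.exp (((n : ℝ) + 3) * h) := by
    rw [hnh, hℓ, Real.exp_log (by positivity)]
    field_simp
  have hlo : ∀ j : ℕ, t1 < t1 * Real.exp (((j : ℝ) + 1) * h) := by
    intro j
    have e1 := LGP_smono t1 h 0 ((j : ℝ) + 1) ht1 hh0 (by positivity)
    rwa [zero_mul, Real.exp_zero, mul_one] at e1
  have hhi : ∀ j : ℕ, j < n → t1 * Real.exp (((j : ℝ) + 3) * h) < t2 := by
    intro j hj
    rw [ht2e]
    refine LGP_smono t1 h _ _ ht1 hh0 ?_
    have : (j : ℝ) < n := by exact_mod_cast hj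
    linarith
  have hts : ∀ j : ℕ, tsupport (LGP_k t1 h j) ⊆
      Icc (t1 * Real.exp (((j : ℝ) + 1) * h)) (t1 * Real.exp (((j : ℝ) + 3) * h)) := fun j =>
    closure_minimal (LGP_supp t1 h ht1 hh0 j) isClosed_Icc
  have hk0 : ∀ (j : ℕ) (s : ℝ), 0 ≤ LGP_k t1 h j s := by
    intro j s
    unfold LGP_k
    split_ifs
    · exact LGP_nonneg _
    · exact le_rfl
  refine ⟨n, fun j => t1 * Real.exp (((j : ℝ) + 2) * h), LGP_k t1 h, ?_, ?_, ?_⟩
  · intro j hj
    refine ⟨(hlo j).trans (LGP_smono t1 h _ _ ht1 hh0 (by linarith)),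
      (LGP_smono t1 h _ _ ht1 hh0 (by linarith)).trans (hhi j hj), LGP_cd t1 h ht1 hh0 j, ?_,
      ?_, ?_, ?_⟩
    · intro s
      refine ⟨hk0 j s, ?_⟩
      unfold LGP_k
      split_ifs
      · exact LGP_le_one _
      · exact zero_le_one
    · exact HasCompactSupport.of_support_subset_isCompact isCompact_Icc (LGP_supp t1 h ht1 hh0 j)
    · exact (hts j).trans (Icc_subset_Ioo (hlo j) (hhi j hj))
    · refine (hts j).trans (Icc_subset_Ioo ?_ ?_)
      · rw [mul_assoc, ← Real.exp_add]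
        refine mul_lt_mul_of_pos_left (Real.exp_lt_exp.2 ?_) ht1
        linarith
      · rw [mul_assoc, ← Real.exp_add]
        refine mul_lt_mul_of_pos_left (Real.exp_lt_exp.2 ?_) ht1
        linarith
  · intro s
    by_cases hs : 0 < s
    · have e1 : ∀ j ∈ Finset.range n, LGP_k t1 h j s =
          LGP_B ((Real.log s - Real.log t1) / h - ((j : ℝ) + 2)) := by
        intro j _
        unfold LGP_k
        rw [if_pos hs]
      rw [Finset.sum_congr rfl e1, LGP_sum]
      linarith [Real.smoothTransition.le_one ((Real.log s - Real.log t1) / h - 1),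
        Real.smoothTransition.nonneg ((Real.log s - Real.log t1) / h - ((n : ℝ) + 1))]
    · have e1 : ∀ j ∈ Finset.range n, LGP_k t1 h j s = 0 := by
        intro j _
        unfold LGP_k
        rw [if_neg hs]
      rw [Finset.sum_congr rfl e1]
      simp
  · have hint : ∀ j ∈ Finset.range n, Integrable (fun s => LGP_k t1 h j s / s) := by
      intro j _
      have e0 : 0 < t1 * Real.exp (((j : ℝ) + 1) * h) := by positivity
      have e1 : Function.support (fun s => LGP_k t1 h j s / s) ⊆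
          Icc (t1 * Real.exp (((j : ℝ) + 1) * h)) (t1 * Real.exp (((j : ℝ) + 3) * h)) := by
        intro s hs
        refine LGP_supp t1 h ht1 hh0 j ?_
        rw [Function.mem_support] at hs ⊢
        intro h0
        apply hs
        rw [h0, zero_div]
      rw [← integrableOn_iff_integrable_of_support_subset e1]
      refine ContinuousOn.integrableOn_Icc ?_
      exact (LGP_cd t1 h ht1 hh0 j).continuous.continuousOn.div continuousOn_id
        (fun s hs => (lt_of_lt_of_le e0 hs.1).ne')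
    rw [← integral_finsetSum _ hint]
    obtain ⟨F, hF⟩ : ∃ F : ℝ → ℝ, F = fun s => ∑ j ∈ Finset.range n, LGP_k t1 h j s / s :=
      ⟨_, rfl⟩
    have hFi : Integrable F := by
      rw [hF]
      exact integrable_finsetSum _ hint
    have hF0 : ∀ s, 0 ≤ F s := by
      intro s
      rw [hF]
      refine Finset.sum_nonneg (fun j _ => ?_)
      by_cases hs : 0 < s
      · exact div_nonneg (hk0 j s) hs.le
      · have : LGP_k t1 h j s = 0 := by
          unfold LGP_k
          rw [if_neg hs]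
        rw [this, zero_div]
    obtain ⟨a, ha⟩ : ∃ a : ℝ, a = t1 * Real.exp (2 * h) := ⟨_, rfl⟩
    obtain ⟨b, hb⟩ : ∃ b : ℝ, b = t1 * Real.exp (((n : ℝ) + 1) * h) := ⟨_, rfl⟩
    have ha0 : 0 < a := by rw [ha]; positivity
    have hab : a ≤ b := by
      rw [ha, hb]
      exact LGP_mono t1 h _ _ ht1 hh0 (by linarith)
    have hb0 : 0 < b := lt_of_lt_of_le ha0 hab
    have hFab : ∀ s ∈ Icc a b, s⁻¹ ≤ F s := by
      intro s hs
      have hs0 : 0 < s := lt_of_lt_of_le ha0 hs.1
      obtain ⟨u, hu⟩ : ∃ u : ℝ, u = (Real.log s - Real.log t1) / h := ⟨_, rfl⟩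
      have hexp := LGP_exp t1 h s ht1 hh0 hs0
      rw [← hu] at hexp
      have h2u : 2 ≤ u := by
        by_contra hcon
        have e1 := LGP_smono t1 h u 2 ht1 hh0 (not_le.1 hcon)
        rw [← hexp, ← ha] at e1
        exact absurd hs.1 (not_le.2 e1)
      have hun : u ≤ (n : ℝ) + 1 := by
        by_contra hcon
        have e1 := LGP_smono t1 h ((n : ℝ) + 1) u ht1 hh0 (not_le.1 hcon)
        rw [← hexp, ← hb] at e1
        exact absurd hs.2 (not_le.2 e1)
      have e1 : F s = (∑ j ∈ Finset.range n, LGP_B (u - ((j : ℝ) + 2))) / s := by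
        rw [hF, Finset.sum_div]
        refine Finset.sum_congr rfl (fun j _ => ?_)
        unfold LGP_k
        rw [if_pos hs0, ← hu]
      rw [e1, LGP_sum, Real.smoothTransition.one_of_one_le (by linarith : (1 : ℝ) ≤ u - 1),
        Real.smoothTransition.zero_of_nonpos (by linarith : u - ((n : ℝ) + 1) ≤ 0), sub_zero,
        one_div]
    have hlog : ∫ s in Icc a b, s⁻¹ = ((n : ℝ) - 1) * h := by
      rw [integral_Icc_eq_integral_Ioc, ← intervalIntegral.integral_of_le hab,
        integral_inv_of_pos ha0 hb0, ha, hb, mul_div_mul_left _ _ ht1.ne', ← Real.exp_sub,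
        Real.log_exp]
      ring
    have h1 : ∫ s in Icc a b, s⁻¹ ≤ ∫ s in Icc a b, F s := by
      refine setIntegral_mono_on ?_ hFi.integrableOn measurableSet_Icc hFab
      refine ContinuousOn.integrableOn_Icc ?_
      exact continuousOn_id.inv₀ (fun s hs => (lt_of_lt_of_le ha0 hs.1).ne')
    have h2 : ∫ s in Icc a b, F s ≤ ∫ s, F s :=
      setIntegral_le_integral hFi (Eventually.of_forall hF0)
    rw [hF] at h2
    have h3 : ℓ - w ≤ ((n : ℝ) - 1) * h := by
      have e1 : ((n : ℝ) - 1) * h = ℓ - 4 * h := by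
        rw [← hnh]
        ring
      rw [e1]
      linarith
    rw [hF] at h1
    linarith

end Pool.Flat
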