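import Pool.Agent.Work.MP_680515_fl.Iface3

/-! Block LGW (helper69): the weak gradient of `lr f p` on a ring and its `L^1` norm. -/

set_option autoImplicit false

open MeasureTheory Set Filter Topology

namespace Pool.Flat

open Pool.Mart

theorem LGW_g (z : E3) (hz : z ≠ 0) :
    HasFDerivAt (fun w : E3 => Real.log ‖w‖) ((‖z‖ ^ 2)⁻¹ • (innerSL ℝ z)) z := by
  have h1 : HasFDerivAt (fun w : E3 => ‖w‖ ^ 2) (2 • (innerSL ℝ z)) z :=
    (hasStrictFDerivAt_norm_sq z).hasFDerivAt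
  have h0 : ‖z‖ ^ 2 ≠ 0 := pow_ne_zero 2 (norm_ne_zero_iff.2 hz)
  have h2 := (h1.log h0).const_mul (1 / 2 : ℝ)
  have e : (fun w : E3 => Real.log ‖w‖) = fun w : E3 => (1 / 2 : ℝ) * Real.log (‖w‖ ^ 2) := by
    funext w
    rw [Real.log_pow]
    push_cast
    ring
  rw [e]
  refine h2.congr_fderiv ?_
  ext v
  simp only [_root_.smul_apply, smul_eq_mul, nsmul_eq_mul, Nat.cast_ofNat]
  ring

theorem LGW_Phi (p q x y : E3) (hx : x ≠ p) (hy : y ≠ q) (u v : E3) :
    fderiv ℝ (fun z : E3 × E3 => Real.log ‖z.2 - q‖ - Real.log ‖z.1 - p‖) (x, y) (u, v) =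
      (‖y - q‖ ^ 2)⁻¹ * inner ℝ (y - q) v - (‖x - p‖ ^ 2)⁻¹ * inner ℝ (x - p) u := by
  have h1 : HasFDerivAt (fun z : E3 × E3 => z.2 - q) (ContinuousLinearMap.snd ℝ E3 E3) (x, y) :=
    (hasFDerivAt_snd).sub_const q
  have h2 : HasFDerivAt (fun z : E3 × E3 => z.1 - p) (ContinuousLinearMap.fst ℝ E3 E3) (x, y) :=
    (hasFDerivAt_fst).sub_const p
  have h3 := (LGW_g (y - q) (sub_ne_zero.2 hy)).comp (x, y) h1
  have h4 := (LGW_g (x - p) (sub_ne_zero.2 hx)).comp (x, y) h2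
  have h5 := (h3.sub h4).fderiv
  have h6 : (fun z : E3 × E3 => Real.log ‖z.2 - q‖ - Real.log ‖z.1 - p‖) =
      ((fun w : E3 => Real.log ‖w‖) ∘ fun z : E3 × E3 => z.2 - q) -
        ((fun w : E3 => Real.log ‖w‖) ∘ fun z : E3 × E3 => z.1 - p) := rfl
  rw [h6, h5]
  simp [inner_sub_left]

theorem LGW_C1 (p q : E3) : ContDiffOn ℝ 1
    (fun z : E3 × E3 => Real.log ‖z.2 - q‖ - Real.log ‖z.1 - p‖) {z | z.1 ≠ p ∧ z.2 ≠ q} := by
  intro z hz
  obtain ⟨h1, h2⟩ := hz
  have h3 : ContDiffAt ℝ 1 (fun z : E3 × E3 => ‖z.2 - q‖) z :=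
    (contDiffAt_snd.sub contDiffAt_const).norm ℝ (sub_ne_zero.2 h2)
  have h4 : ContDiffAt ℝ 1 (fun z : E3 × E3 => ‖z.1 - p‖) z :=
    (contDiffAt_fst.sub contDiffAt_const).norm ℝ (sub_ne_zero.2 h1)
  exact ((h3.log (norm_ne_zero_iff.2 (sub_ne_zero.2 h2))).sub
    (h4.log (norm_ne_zero_iff.2 (sub_ne_zero.2 h1)))).contDiffWithinAt

theorem LGW_open (p q : E3) : IsOpen {z : E3 × E3 | z.1 ≠ p ∧ z.2 ≠ q} :=
  (isOpen_ne_fun continuous_fst continuous_const).inter
    (isOpen_ne_fun continuous_snd continuous_const)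

theorem LGW_rg_open (p : E3) (r1 r2 : ℝ) : IsOpen (rg p r1 r2) := by
  have h : Continuous fun x : E3 => ‖x - p‖ := (continuous_id.sub continuous_const).norm
  exact (isOpen_lt continuous_const h).inter (isOpen_lt h continuous_const)

theorem LGW_rg_sub (p : E3) (r1 r2 : ℝ) : rg p r1 r2 ⊆ Metric.ball p r2 := by
  intro x hx
  rw [Metric.mem_ball, dist_eq_norm]
  exact hx.2

/-- the formula for the gradient -/
theorem LGW_V (A : M3) (X Y : E3) (hX : X ≠ 0) (hY : Y ≠ 0) (j : Fin 3) :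
    (‖Y‖ ^ 2)⁻¹ * inner ℝ Y (act A (EuclideanSpace.single j 1)) -
      (‖X‖ ^ 2)⁻¹ * inner ℝ X (EuclideanSpace.single j 1) =
      ‖X‖⁻¹ * ((‖X‖ / ‖Y‖) • act A.transpose (‖Y‖⁻¹ • Y) - ‖X‖⁻¹ • X) j := by
  have hx : ‖X‖ ≠ 0 := norm_ne_zero_iff.2 hX
  have hy : ‖Y‖ ≠ 0 := norm_ne_zero_iff.2 hY
  have e1 : inner ℝ Y (act A (EuclideanSpace.single j 1)) = ∑ i, Y i * A i j := by
    rw [PiLp.inner_apply]
    refine Finset.sum_congr rfl fun i _ => ?_
    simp [act, mul_comm]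
  have e2 : inner ℝ X (EuclideanSpace.single j (1 : ℝ)) = X j := by
    rw [EuclideanSpace.inner_single_right]
    simp
  have e3 : (act A.transpose (‖Y‖⁻¹ • Y)) j = ‖Y‖⁻¹ * ∑ i, Y i * A i j := by
    simp only [act, Matrix.mulVec, dotProduct, Matrix.transpose_apply, Finset.mul_sum,
      PiLp.smul_apply, smul_eq_mul]
    refine Finset.sum_congr rfl fun i _ => ?_
    ring
  rw [e1, e2, PiLp.sub_apply, PiLp.smul_apply, PiLp.smul_apply, e3, smul_eq_mul, smul_eq_mul]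
  field_simp

theorem LGW_amgm (I a b : ℝ) (ha : 0 < a) (hb : 0 ≤ b)
    (h : ∀ l : ℝ, 0 < l → I ≤ (l * a + l⁻¹ * b) / 2) : I ≤ Real.sqrt a * Real.sqrt b := by
  rcases hb.eq_or_lt with hb0 | hb0
  · rw [← hb0, Real.sqrt_zero, mul_zero]
    refine le_of_forall_pos_le_add fun ε hε => ?_
    have h1 := h (ε / a) (by positivity)
    rw [← hb0, mul_zero, add_zero, div_mul_cancel₀ _ ha.ne'] at h1
    linarith
  · have hsa : 0 < Real.sqrt a := Real.sqrt_pos.2 ha
    have hsb : 0 < Real.sqrt b := Real.sqrt_pos.2 hb0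
    have h1 := h (Real.sqrt b / Real.sqrt a) (by positivity)
    have e1 : Real.sqrt b / Real.sqrt a * a = Real.sqrt a * Real.sqrt b := by
      rw [div_mul_eq_mul_div, div_eq_iff hsa.ne']
      nlinarith [Real.mul_self_sqrt ha.le]
    have e2 : (Real.sqrt b / Real.sqrt a)⁻¹ * b = Real.sqrt a * Real.sqrt b := by
      rw [inv_div, div_mul_eq_mul_div, div_eq_iff hsb.ne']
      nlinarith [Real.mul_self_sqrt hb0.le]
    rw [e1, e2] at h1
    linarith

theorem LGW_sqrt (u v l : ℝ) (hu : 0 ≤ u) (hv : 0 ≤ v) (hl : 0 < l) :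
    Real.sqrt (u * v) ≤ (l * u + l⁻¹ * v) / 2 := by
  have h1 : u * v = (l * u) * (l⁻¹ * v) := by
    field_simp
  rw [h1, Real.sqrt_mul (by positivity)]
  have h2 : 0 ≤ l * u := by positivity
  have h3 : 0 ≤ l⁻¹ * v := by positivity
  nlinarith [sq_nonneg (Real.sqrt (l * u) - Real.sqrt (l⁻¹ * v)), Real.mul_self_sqrt h2,
    Real.mul_self_sqrt h3]

theorem p_LGW (hCHR : Stmt_CHR) (hPT1 : Stmt_PT1) (hTHREE : Pool.Mart.Stmt_THREE) : Stmt_LGW := by
  obtain ⟨C0, hC0, hPT⟩ := hPT1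
  set vb : ℝ := (volume (Metric.ball (0 : E3) 1)).toReal with hvb
  have hvbpos : 0 < vb := by
    refine ENNReal.toReal_pos (Metric.measure_ball_pos _ _ one_pos).ne' ?_
    exact measure_ball_lt_top.ne
  refine ⟨Real.sqrt C0 * Real.sqrt vb, by positivity, ?_⟩
  intro Ω f A p r1 r2 hΩ hf hwg hgood hr1 hr12 hsub hne hint
  have hr2 : 0 < r2 := hr1.trans hr12
  set W := rg p r1 r2 with hW
  have hWo : IsOpen W := LGW_rg_open p r1 r2
  have hWm : MeasurableSet W := hWo.measurableSet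
  have hxp : ∀ x ∈ W, x ≠ p := by
    intro x hx h
    have h1 := hx.1
    rw [h, sub_self, norm_zero] at h1
    linarith
  have hvolball : volume (Metric.ball p r2) = ENNReal.ofReal (r2 ^ 3) *
      volume (Metric.ball (0 : E3) 1) := by
    rw [Measure.addHaar_ball _ _ hr2.le, finrank_euclideanSpace, Fintype.card_fin]
  have hWfin : volume W < ⊤ := (measure_mono (LGW_rg_sub p r1 r2)).trans_lt measure_ball_lt_top
  have hWvol : (volume W).toReal ≤ r2 ^ 3 * vb := by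
    have h1 : (volume W).toReal ≤ (volume (Metric.ball p r2)).toReal :=
      ENNReal.toReal_mono measure_ball_lt_top.ne (measure_mono (LGW_rg_sub p r1 r2))
    rw [hvolball, ENNReal.toReal_mul, ENNReal.toReal_ofReal (by positivity)] at h1
    exact h1
  have hfW : ContinuousOn f W := hf.mono hsub
  refine ⟨?_, ?_⟩
  · refine ContinuousOn.log ?_ ?_
    · refine ContinuousOn.div ((hfW.sub continuousOn_const).norm)
        ((continuousOn_id.sub continuousOn_const).norm) ?_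
      intro x hx
      exact norm_ne_zero_iff.2 (sub_ne_zero.2 (hxp x hx))
    · intro x hx
      exact div_ne_zero (norm_ne_zero_iff.2 (sub_ne_zero.2 (hne x hx)))
        (norm_ne_zero_iff.2 (sub_ne_zero.2 (hxp x hx)))
  have hG := hCHR Ω W f A {z | z.1 ≠ p ∧ z.2 ≠ f p}
    (fun z : E3 × E3 => Real.log ‖z.2 - f p‖ - Real.log ‖z.1 - p‖) hΩ hWo hsub hf hwg
    (LGW_open p (f p)) (LGW_C1 p (f p)) (fun x hx => ⟨hxp x hx, hne x hx⟩)
  set V : E3 → E3 := fun x => WithLp.toLp 2 fun j =>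
      fderiv ℝ (fun z : E3 × E3 => Real.log ‖z.2 - f p‖ - Real.log ‖z.1 - p‖) (x, f x)
        (EuclideanSpace.single j 1, act (A x) (EuclideanSpace.single j 1)) with hV
  have hVj : ∀ x ∈ W, ∀ j, V x j = ‖x - p‖⁻¹ * ((‖x - p‖ / ‖f x - f p‖) •
      act (A x).transpose (‖f x - f p‖⁻¹ • (f x - f p)) - ‖x - p‖⁻¹ • (x - p)) j := by
    intro x hx j
    rw [← LGW_V (A x) (x - p) (f x - f p) (sub_ne_zero.2 (hxp x hx)) (sub_ne_zero.2 (hne x hx)) j]
    exact LGW_Phi p (f p) x (f x) (hxp x hx) (hne x hx) _ _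
  refine ⟨V, ⟨hG.loc, ?_⟩, ?_⟩
  · intro φ hφ hc hs j
    rw [← hG.ibp φ hφ hc hs j]
    refine integral_congr_ae (Eventually.of_forall fun x => ?_)
    by_cases hx : x ∈ W
    · have h1 : lr f p x = Real.log ‖f x - f p‖ - Real.log ‖x - p‖ :=
        Real.log_div (norm_ne_zero_iff.2 (sub_ne_zero.2 (hne x hx)))
          (norm_ne_zero_iff.2 (sub_ne_zero.2 (hxp x hx)))
      simp only
      rw [h1]
    · have h2 : fderiv ℝ φ x = 0 := by
        have := support_fderiv_subset ℝ (f := φ)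
        by_contra h
        exact hx (hs (this h))
      simp [h2]
  have hgW : ∀ᵐ x ∂(volume.restrict W), Good (A x) := ae_restrict_of_ae_restrict_of_subset hsub hgood
  have hmemW : ∀ᵐ x ∂(volume.restrict W), x ∈ W := ae_restrict_mem hWm
  have hdn : ∀ x ∈ W, Good (A x) → 0 ≤ dens f A p x := by
    intro x hx hg
    have hX : 0 < ‖x - p‖ := norm_pos_iff.2 (sub_ne_zero.2 (hxp x hx))
    have hY : 0 < ‖f x - f p‖ := norm_pos_iff.2 (sub_ne_zero.2 (hne x hx))
    have h1 := (hTHREE (A x) (‖x - p‖⁻¹ • (x - p)) (‖f x - f p‖⁻¹ • (f x - f p))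
      (‖f x - f p‖ / ‖x - p‖) (dfc (A x) (x - p) (f x - f p)) hg (by positivity)
      (by rw [norm_smul, norm_inv, norm_norm, inv_mul_cancel₀ hX.ne'])
      (by rw [norm_smul, norm_inv, norm_norm, inv_mul_cancel₀ hY.ne'])
      (by
        unfold dfc
        field_simp)).1
    unfold dens
    positivity
  have hbd : ∀ᵐ x ∂(volume.restrict W), ∀ j, |V x j| ≤
      Real.sqrt C0 * Real.sqrt (‖x - p‖ * dens f A p x) := by
    filter_upwards [hgW, hmemW] with x hg hx j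
    have hX : 0 < ‖x - p‖ := norm_pos_iff.2 (sub_ne_zero.2 (hxp x hx))
    have hd := hdn x hx hg
    have h1 := hPT (A x) (x - p) (f x - f p) hg (sub_ne_zero.2 (hxp x hx))
      (sub_ne_zero.2 (hne x hx))
    rw [hVj x hx j, abs_mul, abs_of_pos (inv_pos.2 hX)]
    set w : E3 := (‖x - p‖ / ‖f x - f p‖) •
      act (A x).transpose (‖f x - f p‖⁻¹ • (f x - f p)) - ‖x - p‖⁻¹ • (x - p) with hw
    have h2 : |w j| ≤ ‖w‖ := by
      have := PiLp.norm_apply_le w j
      rwa [Real.norm_eq_abs] at this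
    have h3 : dfc (A x) (x - p) (f x - f p) = ‖x - p‖ ^ 2 * (‖x - p‖ * dens f A p x) := by
      unfold dens
      field_simp
    have h4 : ‖w‖ ≤ Real.sqrt C0 * (‖x - p‖ * Real.sqrt (‖x - p‖ * dens f A p x)) := by
      have h5 : 0 ≤ Real.sqrt C0 * (‖x - p‖ * Real.sqrt (‖x - p‖ * dens f A p x)) := by positivity
      refine abs_le_of_sq_le_sq' ?_ h5 |>.2
      rw [mul_pow, mul_pow, Real.sq_sqrt hC0.le, Real.sq_sqrt (by positivity), ← h3]
      exact h1
    calc ‖x - p‖⁻¹ * |w j| ≤ ‖x - p‖⁻¹ *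
        (Real.sqrt C0 * (‖x - p‖ * Real.sqrt (‖x - p‖ * dens f A p x))) :=
          mul_le_mul_of_nonneg_left (h2.trans h4) (by positivity)
      _ = _ := by field_simp
  have hXint : IntegrableOn (fun x => ‖x - p‖) W := by
    refine Measure.integrableOn_of_bounded (M := r2) hWfin.ne ?_ ?_
    · exact (continuous_id.sub continuous_const).norm.aestronglyMeasurable
    · filter_upwards [hmemW] with x hx
      rw [norm_norm]
      exact hx.2.le
  have hamgm : ∀ l : ℝ, 0 < l → ∀ᵐ x ∂(volume.restrict W), ∀ j, |V x j| ≤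
      Real.sqrt C0 * ((l * ‖x - p‖ + l⁻¹ * dens f A p x) / 2) := by
    intro l hl
    filter_upwards [hbd, hgW, hmemW] with x hx hg hxW j
    exact (hx j).trans (mul_le_mul_of_nonneg_left
      (LGW_sqrt _ _ l (norm_nonneg _) (hdn x hxW hg) hl) (Real.sqrt_nonneg _))
  have hdomint : ∀ l : ℝ, IntegrableOn
      (fun x => Real.sqrt C0 * ((l * ‖x - p‖ + l⁻¹ * dens f A p x) / 2)) W := fun l =>
    (((hXint.const_mul l).add (hint.const_mul l⁻¹)).div_const 2).const_mul _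
  intro j
  have hmeas : AEStronglyMeasurable (fun x => V x j) (volume.restrict W) := by
    have h1 : LocallyIntegrableOn (fun x => V x j) W := by
      rw [locallyIntegrableOn_iff hWo.isLocallyClosed]
      intro K hKW hK
      exact hG.loc K hK hKW j
    exact h1.aestronglyMeasurable
  have hVint : IntegrableOn (fun x => V x j) W := by
    refine Integrable.mono' (hdomint 1) hmeas ?_
    filter_upwards [hamgm 1 one_pos] with x hx
    rw [Real.norm_eq_abs]
    exact hx j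
  refine ⟨hVint, ?_⟩
  have hDR : 0 ≤ DR f A p r1 r2 := by
    unfold DR
    refine integral_nonneg_of_ae ?_
    filter_upwards [hgW, hmemW] with x hg hx
    exact hdn x hx hg
  have ha : ∫ x in W, ‖x - p‖ ≤ vb * r2 ^ 4 := by
    have h1 : ∫ x in W, ‖x - p‖ ≤ ∫ _x in W, r2 := by
      refine integral_mono_ae hXint (integrableOn_const hWfin.ne) ?_
      filter_upwards [hmemW] with x hx
      exact hx.2.le
    rw [setIntegral_const, smul_eq_mul] at h1
    have h2 : volume.real W * r2 ≤ (r2 ^ 3 * vb) * r2 :=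
      mul_le_mul_of_nonneg_right hWvol hr2.le
    calc _ ≤ _ := h1
      _ ≤ _ := h2
      _ = _ := by ring
  have hkey : ∀ l : ℝ, 0 < l → (∫ x in W, |V x j|) / Real.sqrt C0 ≤
      (l * (vb * r2 ^ 4) + l⁻¹ * DR f A p r1 r2) / 2 := by
    intro l hl
    have h1 : ∫ x in W, |V x j| ≤ ∫ x in W,
        Real.sqrt C0 * ((l * ‖x - p‖ + l⁻¹ * dens f A p x) / 2) := by
      refine integral_mono_ae hVint.abs (hdomint l) ?_
      filter_upwards [hamgm l hl] with x hx
      exact hx j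
    have h2 : ∫ x in W, Real.sqrt C0 * ((l * ‖x - p‖ + l⁻¹ * dens f A p x) / 2) =
        Real.sqrt C0 * ((l * (∫ x in W, ‖x - p‖) + l⁻¹ * DR f A p r1 r2) / 2) := by
      rw [integral_const_mul, integral_div, integral_add (hXint.const_mul l) (hint.const_mul l⁻¹),
        integral_const_mul, integral_const_mul]
      rfl
    rw [h2] at h1
    rw [div_le_iff₀ (Real.sqrt_pos.2 hC0), mul_comm]
    refine h1.trans (mul_le_mul_of_nonneg_left ?_ (Real.sqrt_nonneg _))
    have h3 := mul_le_mul_of_nonneg_left ha hl.le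
    linarith
  have h5 := LGW_amgm _ (vb * r2 ^ 4) (DR f A p r1 r2) (by positivity) hDR hkey
  rw [div_le_iff₀ (Real.sqrt_pos.2 hC0)] at h5
  refine h5.trans (le_of_eq ?_)
  rw [Real.sqrt_mul hvbpos.le, show r2 ^ 4 = (r2 ^ 2) ^ 2 by ring, Real.sqrt_sq (by positivity)]
  ring

end Pool.Flat
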