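import Pool.Agent.Work.MP_680515_fl.Iface1

/-! # Block LINP: chord form of near linearity -/

open MeasureTheory Set Filter Topology

namespace Pool.Flat

open Pool.Mart

theorem p_LINP : Stmt_LINP := by
  intro ε γ h0 h1 hγ t ht s hs hs1 hts
  have hsp : 0 < |s| := abs_pos.2 hs
  obtain ⟨v, hv, hlin⟩ := hγ t ht |s| hsp hs1
  have hvp : 0 < ‖v‖ := norm_pos_iff.2 hv
  have e1 : ‖cv γ t s - s • v‖ ≤ ε * |s| * ‖v‖ := hlin s le_rfl hts
  have e2 : |s| * ‖v‖ ≤ ‖cv γ t s‖ + ε * |s| * ‖v‖ := by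
    calc |s| * ‖v‖ = ‖s • v‖ := by rw [norm_smul, Real.norm_eq_abs]
      _ = ‖cv γ t s - (cv γ t s - s • v)‖ := by rw [sub_sub_cancel]
      _ ≤ ‖cv γ t s‖ + ‖cv γ t s - s • v‖ := norm_sub_le _ _
      _ ≤ _ := by linarith
  have hP : 0 < |s| * ‖v‖ := mul_pos hsp hvp
  have e3 : ε * |s| * ‖v‖ ≤ 1 / 1000 * (|s| * ‖v‖) := by
    rw [mul_assoc]
    exact mul_le_mul_of_nonneg_right h1 hP.le
  refine ⟨by linarith, fun s' hs' hts' => ?_⟩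
  have e4 : ‖cv γ t s' - s' • v‖ ≤ ε * |s| * ‖v‖ := hlin s' hs' hts'
  have e5 : cv γ t s' - (s' / s) • cv γ t s =
      (cv γ t s' - s' • v) - (s' / s) • (cv γ t s - s • v) := by
    rw [smul_sub, smul_smul, div_mul_cancel₀ _ hs]
    abel
  have e6 : |s' / s| ≤ 1 := by
    rw [abs_div]
    exact div_le_one_of_le₀ hs' hsp.le
  have e7 : ‖(s' / s) • (cv γ t s - s • v)‖ ≤ ε * |s| * ‖v‖ := by
    rw [norm_smul, Real.norm_eq_abs]
    calc |s' / s| * ‖cv γ t s - s • v‖ ≤ 1 * ‖cv γ t s - s • v‖ :=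
          mul_le_mul_of_nonneg_right e6 (norm_nonneg _)
      _ ≤ _ := by linarith
  rw [e5]
  refine (norm_sub_le _ _).trans ?_
  have e8 : |s| * ‖v‖ ≤ 2 * ‖cv γ t s‖ := by linarith
  have e9 : ε * (|s| * ‖v‖) ≤ ε * (2 * ‖cv γ t s‖) := mul_le_mul_of_nonneg_left e8 h0
  have e10 : ε * |s| * ‖v‖ = ε * (|s| * ‖v‖) := mul_assoc _ _ _
  linarith

end Pool.Flat
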