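import Pool.Agent.Work.MP_680515_fl.Iface3

/-!
# MP_680515_fl, block LOC: from the hypotheses of the theorem to the tube
-/

open MeasureTheory Set Filter Topology

namespace Pool.Flat

open Pool.Mart

theorem LOC_rad_sq (y : E3) : rad y ^ 2 = y 0 ^ 2 + y 1 ^ 2 := Real.sq_sqrt (by positivity)

theorem LOC_wind0 (y : E3) : wind y 0 = (y 0 ^ 2 - y 1 ^ 2) / rad y := rfl

theorem LOC_wind1 (y : E3) : wind y 1 = 2 * y 0 * y 1 / rad y := rfl

theorem LOC_wind2 (y : E3) : wind y 2 = y 2 := rfl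

theorem LOC_rad0 {y : E3} (h : rad y = 0) : y 0 = 0 ∧ y 1 = 0 := by
  have h1 := LOC_rad_sq y
  rw [h] at h1
  have h2 : y 0 ^ 2 = 0 := by nlinarith [sq_nonneg (y 0), sq_nonneg (y 1)]
  have h3 : y 1 ^ 2 = 0 := by nlinarith [sq_nonneg (y 0), sq_nonneg (y 1)]
  exact ⟨pow_eq_zero_iff two_ne_zero |>.mp h2, pow_eq_zero_iff two_ne_zero |>.mp h3⟩

theorem LOC_axis {y : E3} (h : rad y = 0) : y = y 2 • e3 := by
  obtain ⟨h0, h1⟩ := LOC_rad0 h
  ext i
  fin_cases i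
  · simp [e3, h0]
  · simp [e3, h1]
  · simp [e3]

theorem LOC_inj2 (hW : Stmt_WIN1) {y y' : E3} (h : 0 < y 0 * y' 0) (hw : wind y = wind y') :
    y = y' := by
  have hr : rad y = rad y' := by rw [← hW.2.1 y, hw, hW.2.1 y']
  have hy0 : y 0 ≠ 0 := left_ne_zero_of_mul h.ne'
  have hpos : 0 < rad y := by
    refine Real.sqrt_pos.mpr ?_
    have h1 : 0 < y 0 ^ 2 := by positivity
    nlinarith [sq_nonneg (y 1)]
  have e0 : wind y 0 = wind y' 0 := by rw [hw]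
  have e1 : wind y 1 = wind y' 1 := by rw [hw]
  have e2 : wind y 2 = wind y' 2 := by rw [hw]
  rw [LOC_wind0, LOC_wind0, ← hr, div_left_inj' hpos.ne'] at e0
  rw [LOC_wind1, LOC_wind1, ← hr, div_left_inj' hpos.ne'] at e1
  rw [LOC_wind2, LOC_wind2] at e2
  have s1 := LOC_rad_sq y
  have s2 := LOC_rad_sq y'
  rw [← hr] at s2
  have q0 : y 0 ^ 2 = y' 0 ^ 2 := by linarith
  have q1 : y 0 = y' 0 := by
    rcases sq_eq_sq_iff_eq_or_eq_neg.mp q0 with h1 | h1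
    · exact h1
    · rw [h1] at h
      nlinarith [sq_nonneg (y' 0)]
  have q2 : y 1 = y' 1 := by
    have h1 : y 0 * y 1 = y 0 * y' 1 := by
      rw [← q1] at e1
      linarith
    exact mul_left_cancel₀ hy0 h1
  ext i
  fin_cases i
  · exact q1
  · exact q2
  · exact e2

theorem LOC_locinj (hW : Stmt_WIN1) (φ ψ : OpenPartialHomeomorph E3 E3)
    (hφψ : ∀ x ∈ ψ.source, wind (ψ x) ∈ φ.source) {x : E3} (hx : x ∈ ψ.source)
    (h0 : ψ x 0 ≠ 0) :
    ∃ s : ℝ, 0 < s ∧ InjOn (fun x => φ (wind (ψ x))) (Metric.closedBall x s) := by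
  have hc : ContinuousAt (fun z => ψ z 0) x := by
    have h1 : Continuous fun v : E3 => v 0 := by fun_prop
    exact h1.continuousAt.comp (ψ.continuousAt hx)
  have h1 : ∀ᶠ z in 𝓝 x, 0 < ψ z 0 * ψ x 0 := by
    have h2 : ContinuousAt (fun z => ψ z 0 * ψ x 0) x := hc.mul continuousAt_const
    exact h2.eventually (lt_mem_nhds (mul_self_pos.mpr h0))
  have h2 : ∀ᶠ z in 𝓝 x, z ∈ ψ.source := ψ.open_source.mem_nhds hx
  obtain ⟨s, hs, hsub⟩ := Metric.nhds_basis_closedBall.mem_iff.mp (h1.and h2)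
  refine ⟨s, hs, fun z hz z' hz' hzz => ?_⟩
  obtain ⟨a1, a2⟩ := hsub hz
  obtain ⟨b1, b2⟩ := hsub hz'
  have e1 : wind (ψ z) = wind (ψ z') := φ.injOn (hφψ z a2) (hφψ z' b2) hzz
  have e3 : 0 < ψ z 0 * ψ z' 0 := by
    have h3 : 0 < (ψ z 0 * ψ x 0) * (ψ z' 0 * ψ x 0) := mul_pos a1 b1
    have h4 : 0 < ψ x 0 ^ 2 := by positivity
    have h5 : (ψ z 0 * ψ x 0) * (ψ z' 0 * ψ x 0) = (ψ z 0 * ψ z' 0) * ψ x 0 ^ 2 := by ring
    rw [h5] at h3
    exact pos_of_mul_pos_left h3 h4.le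
  exact ψ.injOn a2 b2 (LOC_inj2 hW e3 e1)

theorem LOC_two (hW : Stmt_WIN1) (φ ψ : OpenPartialHomeomorph E3 E3)
    (hφψ : ∀ x ∈ ψ.source, wind (ψ x) ∈ φ.source) {q : E3} (hq : q ∈ bset ψ.source ψ)
    {ρ : ℝ} (hρ : 0 < ρ) :
    ∃ x1 ∈ Metric.ball q ρ, ∃ x2 ∈ Metric.ball q ρ, x1 ≠ x2 ∧
      φ (wind (ψ x1)) = φ (wind (ψ x2)) ∧ ∃ s : ℝ, 0 < s ∧
      InjOn (fun x => φ (wind (ψ x))) (Metric.closedBall x1 s) ∧
      InjOn (fun x => φ (wind (ψ x))) (Metric.closedBall x2 s) := by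
  obtain ⟨hqs, hq0⟩ := hq
  obtain ⟨ha0, ha1⟩ := LOC_rad0 hq0
  have ha : ψ q ∈ ψ.target := ψ.map_source hqs
  have hnb : ψ.target ∩ ψ.symm ⁻¹' Metric.ball q ρ ∈ 𝓝 (ψ q) := by
    refine inter_mem (ψ.open_target.mem_nhds ha) ?_
    refine (ψ.continuousAt_symm ha).preimage_mem_nhds ?_
    rw [ψ.left_inv hqs]
    exact Metric.ball_mem_nhds q hρ
  obtain ⟨u, hu, hsub⟩ := Metric.nhds_basis_closedBall.mem_iff.mp hnb
  have hn : ‖u • (EuclideanSpace.single 0 1 : E3)‖ = u := by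
    rw [norm_smul, Real.norm_of_nonneg hu.le, EuclideanSpace.norm_single, norm_one, mul_one]
  have hy1 : ψ q + u • (EuclideanSpace.single 0 1 : E3) ∈ Metric.closedBall (ψ q) u := by
    rw [Metric.mem_closedBall, dist_eq_norm, add_sub_cancel_left, hn]
  have hy2 : ψ q - u • (EuclideanSpace.single 0 1 : E3) ∈ Metric.closedBall (ψ q) u := by
    rw [Metric.mem_closedBall, dist_eq_norm, sub_sub_cancel_left, norm_neg, hn]
  obtain ⟨t1, b1⟩ := hsub hy1
  obtain ⟨t2, b2⟩ := hsub hy2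
  have e1 : ψ (ψ.symm (ψ q + u • (EuclideanSpace.single 0 1 : E3))) =
      ψ q + u • (EuclideanSpace.single 0 1 : E3) := ψ.right_inv t1
  have e2 : ψ (ψ.symm (ψ q - u • (EuclideanSpace.single 0 1 : E3))) =
      ψ q - u • (EuclideanSpace.single 0 1 : E3) := ψ.right_inv t2
  have c10 : (ψ q + u • (EuclideanSpace.single 0 1 : E3)) 0 = u := by simp [ha0]
  have c11 : (ψ q + u • (EuclideanSpace.single 0 1 : E3)) 1 = 0 := by simp [ha1]
  have c12 : (ψ q + u • (EuclideanSpace.single 0 1 : E3)) 2 = ψ q 2 := by simp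
  have c20 : (ψ q - u • (EuclideanSpace.single 0 1 : E3)) 0 = -u := by simp [ha0]
  have c21 : (ψ q - u • (EuclideanSpace.single 0 1 : E3)) 1 = 0 := by simp [ha1]
  have c22 : (ψ q - u • (EuclideanSpace.single 0 1 : E3)) 2 = ψ q 2 := by simp
  have hrad : rad (ψ q + u • (EuclideanSpace.single 0 1 : E3)) =
      rad (ψ q - u • (EuclideanSpace.single 0 1 : E3)) := by
    unfold rad
    rw [c10, c11, c20, c21, neg_sq]
  have hwind : wind (ψ q + u • (EuclideanSpace.single 0 1 : E3)) =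
      wind (ψ q - u • (EuclideanSpace.single 0 1 : E3)) := by
    ext i
    fin_cases i
    · show wind (ψ q + u • (EuclideanSpace.single 0 1 : E3)) 0 =
        wind (ψ q - u • (EuclideanSpace.single 0 1 : E3)) 0
      rw [LOC_wind0, LOC_wind0, hrad, c10, c11, c20, c21, neg_sq]
    · show wind (ψ q + u • (EuclideanSpace.single 0 1 : E3)) 1 =
        wind (ψ q - u • (EuclideanSpace.single 0 1 : E3)) 1
      rw [LOC_wind1, LOC_wind1, hrad, c11, c21, mul_zero, mul_zero]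
    · show wind (ψ q + u • (EuclideanSpace.single 0 1 : E3)) 2 =
        wind (ψ q - u • (EuclideanSpace.single 0 1 : E3)) 2
      rw [LOC_wind2, LOC_wind2, c12, c22]
  obtain ⟨s1, hs1, i1⟩ := LOC_locinj hW φ ψ hφψ (ψ.map_target t1) (by
    rw [e1, c10]
    exact hu.ne')
  obtain ⟨s2, hs2, i2⟩ := LOC_locinj hW φ ψ hφψ (ψ.map_target t2) (by
    rw [e2, c20]
    exact neg_ne_zero.mpr hu.ne')
  refine ⟨_, b1, _, b2, ?_, ?_, min s1 s2, lt_min hs1 hs2,
    i1.mono (Metric.closedBall_subset_closedBall (min_le_left _ _)),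
    i2.mono (Metric.closedBall_subset_closedBall (min_le_right _ _))⟩
  · intro h
    have h1 := congrArg (fun v => ψ v 0) h
    simp only [e1, e2, c10, c20] at h1
    linarith
  · rw [e1, e2, hwind]

theorem LOC_inj (hW : Stmt_WIN1) (φ ψ : OpenPartialHomeomorph E3 E3)
    (hφψ : ∀ x ∈ ψ.source, wind (ψ x) ∈ φ.source) {q x : E3} (hq : q ∈ bset ψ.source ψ)
    (hx : x ∈ ψ.source) (h : φ (wind (ψ x)) = φ (wind (ψ q))) : x = q := by
  obtain ⟨hqs, hq0⟩ := hq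
  have h1 : wind (ψ x) = wind (ψ q) := φ.injOn (hφψ x hx) (hφψ q hqs) h
  have h2 : rad (ψ x) = 0 := by rw [← hW.2.1 (ψ x), h1, hW.2.1, hq0]
  have hlast : ∀ s : ℝ, wind (s • e3) = s • e3 := hW.2.2.2.2.2.2.2.2
  have h3 : ∀ y : E3, rad y = 0 → wind y = y := by
    intro y hy
    have h4 := LOC_axis hy
    rw [h4]
    exact hlast _
  refine ψ.injOn hx hqs ?_
  rw [← h3 (ψ x) h2, ← h3 (ψ q) hq0]
  exact h1

theorem LOC_lin {ε : ℝ} {γ : ℝ → E3} {h0 κ : ℝ} (hκ : 0 < κ) (hκ1 : 2 * κ ≤ 1) (hκh : κ ≤ h0)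
    (hN : NearLin ε γ 1 h0) : NearLin ε (fun t => γ (κ * t)) 2 1 := by
  intro t ht h hh hh1
  have hkt : κ * t ∈ Icc (-1 : ℝ) 1 := ⟨by nlinarith [ht.1], by nlinarith [ht.2]⟩
  obtain ⟨v, hv, hv'⟩ := hN (κ * t) hkt (κ * h) (by positivity) (by nlinarith)
  refine ⟨κ • v, smul_ne_zero hκ.ne' hv, fun s hs hts => ?_⟩
  have h1 : |κ * s| ≤ κ * h := by
    rw [abs_mul, abs_of_pos hκ]
    exact mul_le_mul_of_nonneg_left hs hκ.le
  have h2 : κ * t + κ * s ∈ Icc (-1 : ℝ) 1 := by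
    rw [← mul_add]
    exact ⟨by nlinarith [hts.1], by nlinarith [hts.2]⟩
  have h3 := hv' (κ * s) h1 h2
  rw [← mul_add] at h3
  show ‖γ (κ * (t + s)) - γ (κ * t) - s • κ • v‖ ≤ ε * h * ‖κ • v‖
  rw [smul_smul, mul_comm s κ, norm_smul, Real.norm_of_nonneg hκ.le]
  calc _ ≤ ε * (κ * h) * ‖v‖ := h3
    _ = ε * h * (κ * ‖v‖) := by ring

theorem p_LOC (hL : Stmt_LIN4) (hW : Stmt_WIN1) : Stmt_LOC := by
  intro H ε φ ψ A R h0 x0 γ hH hε hφψ hR hRs hγ0 hγc hγi hset hh0 hN hLD hQ hI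
  -- the scale
  have hγa : ContinuousAt γ 0 := hγc.continuousAt (Icc_mem_nhds (by norm_num) (by norm_num))
  obtain ⟨δ, hδ, hδ'⟩ := Metric.continuousAt_iff.mp hγa (R / 4) (by positivity)
  obtain ⟨κ, hκ, hκ1, hκh, hκδ⟩ : ∃ κ : ℝ, 0 < κ ∧ 2 * κ ≤ 1 ∧ κ ≤ h0 ∧ 2 * κ < δ := by
    refine ⟨min (min (1 / 2) h0) (δ / 4), lt_min (lt_min (by norm_num) hh0) (by positivity),
      ?_, ?_, ?_⟩
    · have h1 := (min_le_left (min (1 / 2 : ℝ) h0) (δ / 4)).trans (min_le_left _ _)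
      linarith
    · exact (min_le_left (min (1 / 2 : ℝ) h0) (δ / 4)).trans (min_le_right _ _)
    · have h1 := min_le_right (min (1 / 2 : ℝ) h0) (δ / 4)
      linarith
  have hkt : ∀ t ∈ Icc (-2 : ℝ) 2, κ * t ∈ Icc (-1 : ℝ) 1 := fun t ht =>
    ⟨by nlinarith [ht.1], by nlinarith [ht.2]⟩
  have hnear : ∀ t ∈ Icc (-2 : ℝ) 2, dist (γ (κ * t)) x0 < R / 4 := by
    intro t ht
    have h1 : |κ * t| ≤ 2 * κ := by
      rw [abs_mul, abs_of_pos hκ]
      have h2 : |t| ≤ 2 := abs_le.mpr ⟨ht.1, ht.2⟩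
      nlinarith
    have h3 := hδ' (x := κ * t) (by
      rw [Real.dist_eq, sub_zero]
      linarith)
    rwa [hγ0] at h3
  have hg' : ContinuousOn (fun t => γ (κ * t)) (Icc (-2) 2) :=
    hγc.comp (continuous_const.mul continuous_id).continuousOn hkt
  -- distances at unit parameter distance
  obtain ⟨m1, hm1, hm1'⟩ : ∃ m1 : ℝ, 0 < m1 ∧ ∀ a ∈ Icc (-2 : ℝ) 1,
      m1 ≤ ‖γ (κ * (a + 1)) - γ (κ * a)‖ := by
    refine isCompact_Icc.exists_forall_le' (f := fun a => ‖γ (κ * (a + 1)) - γ (κ * a)‖)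
      ?_ (a := 0) ?_
    · refine ContinuousOn.norm (ContinuousOn.sub ?_ ?_)
      · refine hγc.comp (continuous_const.mul (continuous_id.add continuous_const)).continuousOn
          fun a ha => hkt (a + 1) ⟨by linarith [ha.1], by linarith [ha.2]⟩
      · refine hγc.comp (continuous_const.mul continuous_id).continuousOn
          fun a ha => hkt a ⟨by linarith [ha.1], by linarith [ha.2]⟩
    · intro a ha
      rw [norm_pos_iff, sub_ne_zero]
      intro h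
      have h1 := hγi (hkt (a + 1) ⟨by linarith [ha.1], by linarith [ha.2]⟩)
        (hkt a ⟨by linarith [ha.1], by linarith [ha.2]⟩) h
      have h2 := mul_left_cancel₀ hκ.ne' h1
      linarith
  -- the rest of the curve is far
  obtain ⟨m2, hm2, hm2'⟩ : ∃ m2 : ℝ, 0 < m2 ∧ ∀ p ∈ Icc (-κ) κ ×ˢ (Icc (-1 : ℝ) 1 ∩ {u | 2 * κ ≤ |u|}),
      m2 ≤ ‖γ p.2 - γ p.1‖ := by
    have hcl : IsClosed {u : ℝ | 2 * κ ≤ |u|} := isClosed_le continuous_const continuous_abs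
    have hK : IsCompact (Icc (-κ) κ ×ˢ (Icc (-1 : ℝ) 1 ∩ {u | 2 * κ ≤ |u|})) :=
      isCompact_Icc.prod (isCompact_Icc.inter_right hcl)
    refine hK.exists_forall_le' (f := fun p : ℝ × ℝ => ‖γ p.2 - γ p.1‖) ?_ (a := 0) ?_
    · refine ContinuousOn.norm (ContinuousOn.sub ?_ ?_)
      · exact hγc.comp continuous_snd.continuousOn fun p hp => hp.2.1
      · exact hγc.comp continuous_fst.continuousOn fun p hp =>
          ⟨by linarith [hp.1.1], by linarith [hp.1.2]⟩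
    · rintro ⟨a, u⟩ ⟨ha, hu1, hu2⟩
      rw [norm_pos_iff, sub_ne_zero]
      intro h
      have h1 : u = a := hγi hu1 ⟨by linarith [ha.1], by linarith [ha.2]⟩ h
      have h2 : |u| ≤ κ := by
        rw [h1]
        exact abs_le.mpr ⟨ha.1, ha.2⟩
      have h3 : 2 * κ ≤ |u| := hu2
      linarith
  obtain ⟨r0, hr0, hrR, hrm1, hrm2⟩ : ∃ r0 : ℝ, 0 < r0 ∧ 8 * r0 ≤ R / 4 ∧ 8 * r0 ≤ m1 ∧
      8 * r0 < m2 := by
    refine ⟨min (min (R / 32) (m1 / 8)) (m2 / 16), lt_min (lt_min (by positivity)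
      (by positivity)) (by positivity), ?_, ?_, ?_⟩
    · have h1 := (min_le_left (min (R / 32) (m1 / 8)) (m2 / 16)).trans (min_le_left _ _)
      linarith
    · have h1 := (min_le_left (min (R / 32) (m1 / 8)) (m2 / 16)).trans (min_le_right _ _)
      linarith
    · have h1 := min_le_right (min (R / 32) (m1 / 8)) (m2 / 16)
      linarith
  have hballR : ∀ t ∈ Icc (-2 : ℝ) 2, Metric.closedBall (γ (κ * t)) (8 * r0) ⊆
      Metric.ball x0 R := by
    intro t ht x hx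
    rw [Metric.mem_ball]
    have h1 := dist_triangle x (γ (κ * t)) x0
    have h2 := Metric.mem_closedBall.mp hx
    have h3 := hnear t ht
    linarith
  have hγball : ∀ t ∈ Icc (-2 : ℝ) 2, γ (κ * t) ∈ Metric.ball x0 R := fun t ht =>
    hballR t ht (Metric.mem_closedBall_self (by positivity))
  have hgS : ∀ t ∈ Icc (-2 : ℝ) 2, γ (κ * t) ∈ bset ψ.source ψ := by
    intro t ht
    have h1 : γ (κ * t) ∈ γ '' Icc (-1) 1 ∩ Metric.ball x0 R :=
      ⟨⟨κ * t, hkt t ht, rfl⟩, hγball t ht⟩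
    rw [← hset] at h1
    exact h1.1
  refine ⟨r0, fun t => γ (κ * t), ?_⟩
  refine
    { rpos := hr0
      op := ψ.open_source
      cont := hQ.cont
      wg := hQ.wg
      good := ?_
      gc := hg'
      lin := LOC_lin hκ hκ1 hκh hN
      far := ?_
      sub := fun t ht => (hballR t ht).trans hRs
      gS := hgS
      SN := ?_
      inj := fun t ht x hx h => LOC_inj hW φ ψ hφψ (hgS t ht) (hRs (hballR t ht hx)) h
      br := fun t ht x hx y hy h => hLD.br _ ⟨hgS t ht, hγball t ht⟩ x (hballR t ht hx) y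
        (hballR t ht hy) h
      wh := fun t ht z hz x hx y hy h h' => hLD.wh z (hballR t ht hz) x (hballR t ht hx) y
        (hballR t ht hy) h h'
      two := fun t ht ρ hρ => LOC_two hW φ ψ hφψ
        (hgS t ⟨by linarith [ht.1], by linarith [ht.2]⟩) hρ }
  · obtain ⟨K, hK, hqr⟩ := hQ.qr
    filter_upwards [hqr, hI] with x h1 h2
    exact hL (A x) K hK h1 h2
  · intro t ht σ hσ hts
    rcases (abs_eq one_pos.le).mp hσ with rfl | rfl
    · exact hrm1.trans (hm1' t ⟨ht.1, by linarith [hts.2]⟩)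
    · have h1 := hm1' (t + -1) ⟨hts.1, by linarith [ht.2]⟩
      have h2 : t + -1 + 1 = t := by ring
      rw [h2, norm_sub_rev] at h1
      exact hrm1.trans h1
  · rintro t ht x ⟨hxS, hx⟩
    have ht2 : t ∈ Icc (-2 : ℝ) 2 := ⟨by linarith [ht.1], by linarith [ht.2]⟩
    have hxR : x ∈ Metric.ball x0 R := hballR t ht2 hx
    have h1 : x ∈ bset ψ.source ψ ∩ Metric.ball x0 R := ⟨hxS, hxR⟩
    rw [hset] at h1
    obtain ⟨⟨u, hu, rfl⟩, -⟩ := h1
    by_cases hu2 : |u| ≤ 2 * κ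
    · refine ⟨κ⁻¹ * u, ?_, ?_⟩
      · have h3 := abs_le.mp hu2
        have h4 : κ⁻¹ * κ = 1 := inv_mul_cancel₀ hκ.ne'
        have h5 : 0 < κ⁻¹ := inv_pos.mpr hκ
        constructor
        · have h6 := mul_le_mul_of_nonneg_left h3.1 h5.le
          linarith
        · have h6 := mul_le_mul_of_nonneg_left h3.2 h5.le
          linarith
      · show γ (κ * (κ⁻¹ * u)) = γ u
        rw [mul_inv_cancel_left₀ hκ.ne']
    · exfalso
      push Not at hu2
      have h3 := hm2' (κ * t, u) ⟨⟨by nlinarith [ht.1], by nlinarith [ht.2]⟩, hu, hu2.le⟩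
      have h4 := Metric.mem_closedBall.mp hx
      rw [dist_eq_norm] at h4
      have h5 : ‖γ u - γ (κ * t)‖ ≤ 8 * r0 := h4
      have h6 : m2 ≤ ‖γ u - γ (κ * t)‖ := h3
      linarith

end Pool.Flat
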