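import Pool.Agent.Work.MP_680515_fl.Iface2

/-!
# MP_680515_an, THEOREM FB, block LPI: localised Piola identity
-/

open MeasureTheory Set Filter Topology
open scoped Manifold ContDiff

namespace Pool.Flat

open Pool.Mart

/-- Cut-off function. -/
theorem LPI_cut {V K : Set E3} (hV : IsOpen V) (hK : IsCompact K) (hKV : K ⊆ V) :
    ∃ χ : E3 → ℝ, ContDiff ℝ 1 χ ∧ HasCompactSupport χ ∧ tsupport χ ⊆ V ∧
      ∀ y ∈ K, ∀ᶠ z in 𝓝 y, χ z = 1 := by
  obtain ⟨L, hLc, hKL, hLV⟩ := exists_compact_between hK hV hKV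
  obtain ⟨f, hf1, hf0, -⟩ := exists_contMDiffMap_one_nhds_of_subset_interior (n := (⊤ : ℕ∞))
    (modelWithCornersSelf ℝ E3) hK.isClosed hKL
  have hf : ContDiff ℝ (⊤ : ℕ∞) (fun y => f y) := f.contMDiff.contDiff
  have hs : tsupport (fun y => f y) ⊆ L := by
    refine closure_minimal ?_ hLc.isClosed
    intro x hx
    by_contra h
    exact hx (hf0 x h)
  refine ⟨fun y => f y, hf.of_le (WithTop.coe_le_coe.2 (le_top : (1 : ℕ∞) ≤ ⊤)),
    HasCompactSupport.of_support_subset_isCompact hLc ?_, hs.trans hLV,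
    fun y hy => (eventually_nhdsSet_iff_forall.1 hf1) y hy⟩
  exact (subset_tsupport _).trans hs

theorem LPI_gradv_of_eq {u w : E3 → ℝ} {x : E3} (h : u =ᶠ[𝓝 x] w) : gradv u x = gradv w x := by
  unfold gradv
  rw [h.fderiv_eq]

theorem LPI_gradv_zero {u : E3 → ℝ} {x : E3} (h : x ∉ tsupport u) : gradv u x = 0 := by
  have h1 : fderiv ℝ u x = 0 := by
    by_contra hne
    exact h (support_fderiv_subset ℝ (Function.mem_support.2 hne))
  ext j
  simp [gradv, h1]

theorem LPI_gradv_sub (h : E3 → ℝ) (p x : E3) :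
    gradv (fun x => h (x - p)) x = gradv h (x - p) := by
  unfold gradv
  rw [fderiv_comp_sub]

theorem LPI_divv_sub (X : E3 → E3) (p y : E3) :
    divv (fun y => X (y - p)) y = divv X (y - p) := by
  unfold divv
  rw [fderiv_comp_sub]

theorem LPI_divv_zero {X : E3 → E3} {y : E3} (h : y ∉ tsupport X) : divv X y = 0 := by
  have h1 : fderiv ℝ X y = 0 := by
    by_contra hne
    exact h (support_fderiv_subset ℝ (Function.mem_support.2 hne))
  simp [divv, h1]

theorem LPI_cont_gradv {φ : E3 → ℝ} (hφ : ContDiff ℝ 1 φ) : Continuous (gradv φ) := by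
  have h1 : Continuous (fderiv ℝ φ) := hφ.continuous_fderiv (by norm_num)
  unfold gradv
  refine (PiLp.continuous_toLp 2 _).comp (continuous_pi fun j => ?_)
  exact h1.clm_apply continuous_const

theorem p_LPI (hW : Pool.Mart.Stmt_PIOW) (hI : Pool.Mart.Stmt_PIOI) : Stmt_LPI := by
  intro Ω f A p r0 X h K' hΩ hf hA hr hsub hX hXc hK' hpos hsupp hsph hh
  have hfK : ContinuousOn f (Metric.closedBall p r0) := hf.mono hsub
  -- the compact set
  have hKc : IsCompact {x | x ∈ Metric.closedBall p r0 ∧ f x - f p ∈ tsupport X} := by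
    have h1 : IsClosed (Metric.closedBall p r0 ∩ (fun x => f x - f p) ⁻¹' tsupport X) :=
      (hfK.sub continuousOn_const).preimage_isClosed_of_isClosed Metric.isClosed_closedBall
        (isClosed_tsupport X)
    exact (isCompact_closedBall p r0).of_isClosed_subset h1 inter_subset_left
  set V : Set E3 := Metric.ball p r0 ∩ {p}ᶜ with hVdef
  have hV : IsOpen V := Metric.isOpen_ball.inter isOpen_compl_singleton
  have hKV : {x | x ∈ Metric.closedBall p r0 ∧ f x - f p ∈ tsupport X} ⊆ V := by
    rintro x ⟨hx1, hx2⟩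
    refine ⟨?_, ?_⟩
    · rw [Metric.mem_closedBall, dist_eq_norm] at hx1
      rw [Metric.mem_ball, dist_eq_norm]
      refine lt_of_le_of_ne hx1 fun he => ?_
      exact lt_irrefl _ (hsph x he _ (hsupp _ hx2))
    · intro he
      have he' : x = p := he
      have h1 := hpos (hsupp _ hx2)
      rw [he', sub_self, norm_zero] at h1
      exact lt_irrefl (0 : ℝ) (mem_Ioi.1 h1)
  obtain ⟨χ, hχ, hχc, hχV, hχ1⟩ := LPI_cut hV hKc hKV
  have hVb : V ⊆ Metric.ball p r0 := inter_subset_left
  -- the test function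
  set φ : E3 → ℝ := fun x => χ x * h (x - p) with hφdef
  have hφt : tsupport φ ⊆ tsupport χ := by
    refine closure_mono ?_
    intro x hx hx0
    exact hx (by simp only [hφdef]; rw [hx0, zero_mul])
  have hφ : ContDiff ℝ 1 φ := by
    rw [contDiff_iff_contDiffAt]
    intro x
    by_cases hx : x ∈ V
    · have h1 : ContDiffAt ℝ 1 h (x - p) := by
        refine hh.contDiffAt (isOpen_compl_singleton.mem_nhds ?_)
        intro h0
        exact hx.2 (sub_eq_zero.1 h0)
      have h2 : ContDiffAt ℝ 1 (fun x => h (x - p)) x :=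
        h1.comp x (contDiffAt_id.sub contDiffAt_const)
      exact hχ.contDiffAt.mul h2
    · have h1 : x ∉ tsupport χ := fun h => hx (hχV h)
      have h2 : φ =ᶠ[𝓝 x] fun _ => 0 := by
        filter_upwards [(isClosed_tsupport χ).isOpen_compl.mem_nhds h1] with z hz
        simp only [hφdef]
        rw [image_eq_zero_of_notMem_tsupport hz, zero_mul]
      exact contDiffAt_const.congr_of_eventuallyEq h2
  have hφc : HasCompactSupport φ := hχc.of_isClosed_subset (isClosed_tsupport φ) hφt
  have hφΩ : tsupport φ ⊆ Ω :=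
    (hφt.trans (hχV.trans hVb)).trans (Metric.ball_subset_closedBall.trans hsub)
  have hX' : ContDiffOn ℝ 1 (fun y => X (y - f p)) univ :=
    (hX.comp (contDiff_id.sub contDiff_const)).contDiffOn
  have hP := hW Ω f A hΩ hf hA (fun y => X (y - f p)) φ univ isOpen_univ hX' hφ hφc hφΩ
    (fun x _ => mem_univ _)
  simp only [LPI_divv_sub] at hP
  -- the values of the two integrands
  have e1 : ∀ x ∈ Metric.ball p r0, cpair (A x) (X (f x - f p)) (gradv φ x) =
      cpair (A x) (X (f x - f p)) (gradv h (x - p)) := by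
    intro x hx
    by_cases h0 : X (f x - f p) = 0
    · rw [h0]
      simp [cpair]
    · have h1 : f x - f p ∈ tsupport X := subset_tsupport _ h0
      have h2 := hχ1 x ⟨Metric.ball_subset_closedBall hx, h1⟩
      have h3 : φ =ᶠ[𝓝 x] fun x => h (x - p) := by
        filter_upwards [h2] with z hz
        simp only [hφdef]
        rw [hz, one_mul]
      rw [LPI_gradv_of_eq h3, LPI_gradv_sub]
  have e2 : ∀ x, x ∉ Metric.ball p r0 → cpair (A x) (X (f x - f p)) (gradv φ x) = 0 := by
    intro x hx
    rw [LPI_gradv_zero fun h => hx (hVb (hχV (hφt h)))]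
    simp [cpair]
  have e3 : ∀ x ∈ Metric.ball p r0, φ x * ((A x).det * divv X (f x - f p)) =
      h (x - p) * ((A x).det * divv X (f x - f p)) := by
    intro x hx
    by_cases h1 : f x - f p ∈ tsupport X
    · have h2 := (hχ1 x ⟨Metric.ball_subset_closedBall hx, h1⟩).self_of_nhds
      simp only [hφdef]
      rw [h2, one_mul]
    · rw [LPI_divv_zero h1]
      simp
  have e4 : ∀ x, x ∉ Metric.ball p r0 → φ x * ((A x).det * divv X (f x - f p)) = 0 := by
    intro x hx
    rw [image_eq_zero_of_notMem_tsupport fun h => hx (hVb (hχV (hφt h))), zero_mul]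
  refine ⟨?_, ?_⟩
  · have h1 := (hI Ω f A hΩ hf hA _ (isCompact_closedBall p r0) hsub).2.2.2
      (fun x => X (f x - f p)) (gradv φ)
      (hX.continuous.comp_continuousOn (hfK.sub continuousOn_const))
      (LPI_cont_gradv hφ).continuousOn
    have h2 : IntegrableOn (fun x => cpair (A x) (X (f x - f p)) (gradv φ x))
      (Metric.ball p r0) := h1.mono_set Metric.ball_subset_closedBall
    exact h2.congr_fun e1 measurableSet_ball
  · rw [← setIntegral_congr_fun measurableSet_ball e1,
      ← setIntegral_congr_fun measurableSet_ball e3,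
      setIntegral_eq_integral_of_forall_compl_eq_zero e2,
      setIntegral_eq_integral_of_forall_compl_eq_zero e4]
    exact hP

end Pool.Flat
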