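import Pool.Agent.Work.MP_680515_fl.Iface2

/-!
# MP_680515_fl, block LQP: points whose images are close to the image of a point of the arm
-/

open MeasureTheory Set Filter Topology

namespace Pool.Flat

open Pool.Mart

/-- the direction of a vector close to `w` -/
theorem LQP_dir (w y v : E3) (δ κ δG : ℝ) (hκ0 : 0 ≤ κ) (hκ : κ ≤ 1 / 4) (hδ0 : 0 ≤ δ)
    (hδ : δ ≤ 1 / 2) (hsum : δ + 2 * κ ≤ δG) (hv : ‖v‖ = 1) (hw : w ≠ 0)
    (hyw : ‖y - w‖ ≤ κ * ‖w‖) (hun : ‖‖w‖⁻¹ • w - v‖ ≤ δ) :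
    y ≠ 0 ∧ 1 - δG ≤ inner ℝ y v / ‖y‖ := by
  have hρ : 0 < ‖w‖ := norm_pos_iff.mpr hw
  have hy : y ≠ 0 := by
    rintro rfl
    rw [zero_sub, norm_neg] at hyw
    nlinarith
  have hy' : 0 < ‖y‖ := norm_pos_iff.mpr hy
  have hyn : ‖y‖ ≤ (1 + κ) * ‖w‖ := by
    have h1 : ‖y‖ ≤ ‖y - w‖ + ‖w‖ := by
      have h2 := norm_add_le (y - w) w
      rwa [sub_add_cancel] at h2
    linarith
  have hvv : inner ℝ v v = (1 : ℝ) := by
    rw [real_inner_self_eq_norm_sq, hv]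
    norm_num
  have h1 : -(δ : ℝ) ≤ inner ℝ (‖w‖⁻¹ • w - v) v := by
    have h2 := abs_real_inner_le_norm (‖w‖⁻¹ • w - v) v
    rw [hv, mul_one] at h2
    have h3 := (abs_le.mp h2).1
    linarith
  have h2 : inner ℝ (‖w‖⁻¹ • w - v) v = ‖w‖⁻¹ * inner ℝ w v - 1 := by
    rw [inner_sub_left, real_inner_smul_left, hvv]
  have h3 : (1 - δ) * ‖w‖ ≤ inner ℝ w v := by
    rw [h2] at h1
    have h4 : 1 - δ ≤ ‖w‖⁻¹ * inner ℝ w v := by linarith
    have h5 := mul_le_mul_of_nonneg_right h4 hρ.le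
    rwa [mul_comm (‖w‖⁻¹), mul_assoc, inv_mul_cancel₀ hρ.ne', mul_one] at h5
  have h4 : -(κ * ‖w‖) ≤ inner ℝ (y - w) v := by
    have h5 := abs_real_inner_le_norm (y - w) v
    rw [hv, mul_one] at h5
    have h6 := (abs_le.mp h5).1
    linarith
  have h5 : inner ℝ y v = inner ℝ w v + inner ℝ (y - w) v := by
    rw [← inner_add_left, add_sub_cancel]
  have h6 : (1 - δ - κ) * ‖w‖ ≤ inner ℝ y v := by
    rw [h5]
    nlinarith
  refine ⟨hy, ?_⟩
  rw [le_div_iff₀ hy']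
  by_cases hG : 1 - δG ≤ 0
  · have h7 : (1 - δG) * ‖y‖ ≤ 0 := mul_nonpos_of_nonpos_of_nonneg hG hy'.le
    have h8 : 0 ≤ (1 - δ - κ) * ‖w‖ := mul_nonneg (by linarith) hρ.le
    linarith
  · push Not at hG
    have h7 : (1 - δG) * ‖y‖ ≤ (1 - δG) * ((1 + κ) * ‖w‖) :=
      mul_le_mul_of_nonneg_left hyn hG.le
    have h8 : (1 - δG) * (1 + κ) ≤ 1 - δ - κ := by
      have h9 : (1 - δG) * (1 + κ) ≤ (1 - δ - 2 * κ) * (1 + κ) :=
        mul_le_mul_of_nonneg_right (by linarith) (by linarith)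
      nlinarith [mul_nonneg hδ0 hκ0, mul_nonneg hκ0 hκ0]
    have h9 : (1 - δG) * ((1 + κ) * ‖w‖) ≤ (1 - δ - κ) * ‖w‖ := by
      rw [← mul_assoc]
      exact mul_le_mul_of_nonneg_right h8 hρ.le
    linarith

theorem p_LQP (hE1 : Stmt_E1) : Stmt_LQP := by
  intro H δG hH hδG
  obtain ⟨D, hD, hE⟩ := hE1 H hH
  obtain ⟨k, hk⟩ := exists_pow_lt_of_lt_one (show (0 : ℝ) < min (1 / 4) (δG / 4) from
    lt_min (by norm_num) (by linarith)) (show (1 / 2 : ℝ) < 1 by norm_num)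
  have hk1 : (1 / 2 : ℝ) ^ k < 1 / 4 := hk.trans_le (min_le_left _ _)
  have hk2 : (1 / 2 : ℝ) ^ k < δG / 4 := hk.trans_le (min_le_right _ _)
  have hDk : 1 ≤ D ^ (k + 1) := one_le_pow₀ hD
  have hDk0 : 0 < D ^ (k + 1) := lt_of_lt_of_le one_pos hDk
  have hc : 1 / (2 * D ^ (k + 1)) ≤ 1 / 2 :=
    one_div_le_one_div_of_le (by norm_num) (by linarith)
  have hδ0 : 0 < min (1 / 2) (δG / 2) := lt_min (by norm_num) (by linarith)
  refine ⟨1 / (2 * D ^ (k + 1)), min (1 / 2) (δG / 2), by positivity, hc, hδ0,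
    min_le_left _ _, ?_⟩
  intro ε r0 Ω S f A γ hε hε' hT t ht s hs v hv hw1 hw0 hun x hx hfx
  have hts : t + s ∈ Icc (-2 : ℝ) 2 := ⟨by linarith [ht.1, hs.1], by linarith [ht.2, hs.2]⟩
  have hr0 := hT.rpos
  have hpq : ‖γ t - γ (t + s)‖ ≤ r0 / 8 := by
    rw [norm_sub_rev]
    exact hw1
  have hxp : ‖x - γ t‖ < r0 := by
    rw [← dist_eq_norm]
    exact Metric.mem_ball.mp hx
  have hxq : ‖x - γ (t + s)‖ ≤ 2 * r0 := by
    have h1 : ‖x - γ (t + s)‖ ≤ ‖x - γ t‖ + ‖γ t - γ (t + s)‖ := by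
      have h2 := norm_add_le (x - γ t) (γ t - γ (t + s))
      rwa [sub_add_sub_cancel] at h2
    linarith
  have hpm : γ t ∈ Metric.closedBall (γ (t + s)) (2 * r0) := by
    rw [Metric.mem_closedBall, dist_eq_norm]
    linarith
  have hpm8 : γ t ∈ Metric.closedBall (γ (t + s)) (8 * r0) := by
    rw [Metric.mem_closedBall, dist_eq_norm]
    linarith
  have hxm : x ∈ Metric.closedBall (γ (t + s)) (2 * r0) := by
    rw [Metric.mem_closedBall, dist_eq_norm]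
    exact hxq
  have hne : γ t ≠ γ (t + s) := by
    intro h
    apply hw0
    unfold cv
    rw [h, sub_self]
  have hclose : ‖x - γ (t + s)‖ < (1 / 2) ^ k * ‖γ t - γ (t + s)‖ := by
    by_contra hcon
    push Not at hcon
    have h1 : ‖γ t - γ (t + s)‖ ≤ 2 ^ k * ‖x - γ (t + s)‖ := by
      have h2 := mul_le_mul_of_nonneg_left hcon (show (0 : ℝ) ≤ 2 ^ k by positivity)
      have h3 : (2 : ℝ) ^ k * ((1 / 2) ^ k * ‖γ t - γ (t + s)‖) = ‖γ t - γ (t + s)‖ := by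
        rw [← mul_assoc, ← mul_pow]
        norm_num
      rwa [h3] at h2
    have h2 := hE ε r0 Ω S f A γ hε hε' hT (t + s) hts k (γ t) hpm x hxm h1
    have h3 : D ^ (k + 1) * ‖f x - f (γ (t + s))‖ ≤
        D ^ (k + 1) * (1 / (2 * D ^ (k + 1)) * ‖f (γ (t + s)) - f (γ t)‖) :=
      mul_le_mul_of_nonneg_left hfx hDk0.le
    have h4 : D ^ (k + 1) * (1 / (2 * D ^ (k + 1)) * ‖f (γ (t + s)) - f (γ t)‖) =
        ‖f (γ t) - f (γ (t + s))‖ / 2 := by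
      rw [norm_sub_rev (f (γ (t + s)))]
      field_simp
    have h5 : ‖f (γ t) - f (γ (t + s))‖ ≤ 0 := by linarith
    have h6 : f (γ t) = f (γ (t + s)) := sub_eq_zero.mp (norm_le_zero_iff.mp h5)
    exact hne (hT.inj (t + s) hts (γ t) hpm8 h6)
  have hfin := LQP_dir (cv γ t s) (x - γ t) v (min (1 / 2) (δG / 2)) ((1 / 2) ^ k) δG
    (by positivity) hk1.le hδ0.le (min_le_left _ _)
    (by linarith [min_le_right (1 / 2 : ℝ) (δG / 2)]) hv hw0 (by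
      have h1 : x - γ t - cv γ t s = x - γ (t + s) := by
        unfold cv
        abel
      have h2 : ‖cv γ t s‖ = ‖γ t - γ (t + s)‖ := norm_sub_rev _ _
      rw [h1, h2]
      exact hclose.le) hun
  exact ⟨fun h => hfin.1 (sub_eq_zero.mpr h), hfin.2⟩

end Pool.Flat
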