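import Pool.Agent.Work.MP_680515_fl.Iface3

/-!
Block NR1: ratios of distances to a branch point (helper88).
-/

open MeasureTheory Set Filter Topology

namespace Pool.Flat

open Pool.Mart

theorem NR1_le (a b u r m τ : ℝ) (ha : 0 < a) (hb : 0 < b) (hu : 0 < u) (hr : 0 < r)
    (h1 : |Real.log (a / u) - m| ≤ τ) (h2 : |Real.log (b / r) - m| ≤ τ) :
    a / b ≤ u / r * Real.exp (2 * τ) := by
  have h3 : Real.log ((a / u) / (b / r)) ≤ 2 * τ := by
    rw [Real.log_div (by positivity) (by positivity)]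
    rw [abs_le] at h1 h2
    linarith [h1.2, h2.1]
  have h4 : (a / u) / (b / r) ≤ Real.exp (2 * τ) := by
    rw [← Real.log_le_iff_le_exp (by positivity)]
    exact h3
  have h5 : a / b = u / r * ((a / u) / (b / r)) := by
    field_simp
  rw [h5]
  exact mul_le_mul_of_nonneg_left h4 (by positivity)

theorem p_NR1 (hSML : Stmt_SML) (hONE : Stmt_ONE) : Stmt_NR1 := by
  intro H τ R hH hτ hR
  obtain ⟨M, hMd⟩ : ∃ M, M = max (max R (4 * H / τ)) (max (4 / τ) 2) := ⟨_, rfl⟩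
  have hMR : R ≤ M := by rw [hMd]; exact (le_max_left _ _).trans (le_max_left _ _)
  have hMH : 4 * H / τ ≤ M := by rw [hMd]; exact (le_max_right _ _).trans (le_max_left _ _)
  have hMτ : 4 / τ ≤ M := by rw [hMd]; exact (le_max_left _ _).trans (le_max_right _ _)
  have hM2 : 2 ≤ M := by rw [hMd]; exact (le_max_right _ _).trans (le_max_right _ _)
  have hM0 : 0 < M := by linarith
  have hR0 : 0 < R := by linarith
  obtain ⟨e, hed⟩ : ∃ e, e = min τ 1 / (2 * R) := ⟨_, rfl⟩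
  have he0 : 0 < e := by rw [hed]; positivity
  have heR : R * e ≤ τ / 2 := by
    rw [hed]
    have : R * (min τ 1 / (2 * R)) = min τ 1 / 2 := by field_simp
    rw [this]
    have := min_le_left τ 1
    linarith
  have he1 : e ≤ 1 := by
    rw [hed, div_le_one (by positivity)]
    have := min_le_right τ 1
    linarith
  obtain ⟨τ', hτ'd⟩ : ∃ τ', τ' = Real.log (1 + e) / 2 := ⟨_, rfl⟩
  have hτ'0 : 0 < τ' := by
    rw [hτ'd]
    have := Real.log_pos (by linarith : (1 : ℝ) < 1 + e)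
    linarith
  have hexp : Real.exp (2 * τ') = 1 + e := by
    rw [hτ'd]
    have : 2 * (Real.log (1 + e) / 2) = Real.log (1 + e) := by ring
    rw [this, Real.exp_log (by linarith)]
  obtain ⟨η, hη, hone⟩ := hONE H M τ' hH (by linarith) hτ'0
  obtain ⟨ε1, δ1, hε1, hε1', hδ1, hδ1', hsml⟩ := hSML H η (4 * M) hH hη (by linarith)
  refine ⟨ε1, min δ1 (1 / (128 * M)), hε1, hε1', by positivity, (min_le_left _ _).trans hδ1', ?_⟩
  intro ε r0 Ω S f A γ hε hε' hT t ht y hy hyr x hx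
  obtain ⟨r, hrd⟩ : ∃ r, r = ‖y - γ t‖ := ⟨_, rfl⟩
  have hr : 0 < r := by rw [hrd]; exact norm_pos_iff.2 (sub_ne_zero.2 hy)
  have hr0 := hT.rpos
  rw [← hrd] at hyr hx ⊢
  have hr1 : r ≤ δ1 * r0 := hyr.trans (mul_le_mul_of_nonneg_right (min_le_left _ _) hr0.le)
  have hr2 : 128 * M * r ≤ r0 := by
    have h1 : r ≤ 1 / (128 * M) * r0 :=
      hyr.trans (mul_le_mul_of_nonneg_right (min_le_right _ _) hr0.le)
    have h2 : 128 * M * r ≤ 128 * M * (1 / (128 * M) * r0) :=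
      mul_le_mul_of_nonneg_left h1 (by positivity)
    have h3 : 128 * M * (1 / (128 * M) * r0) = r0 := by field_simp
    linarith
  obtain ⟨hint, hDR⟩ := hsml ε r0 Ω S f A γ hε hε' hT t ht r hr hr1
  obtain ⟨m, hRC⟩ := hone ε r0 Ω S f A γ hε (hε'.trans hε1') hT t ht r hr hr2 hint hDR
  have ht2 : t ∈ Icc (-2 : ℝ) 2 := ⟨by linarith [ht.1], by linarith [ht.2]⟩
  have hball : ∀ z : E3, ‖z - γ t‖ ≤ M * r → z ∈ Metric.closedBall (γ t) (8 * r0) := by
    intro z hz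
    rw [Metric.mem_closedBall, dist_eq_norm]
    have : 0 < M * r := by positivity
    nlinarith
  have hpos : ∀ z : E3, ‖z - γ t‖ ≤ M * r → z ≠ γ t → 0 < ‖f z - f (γ t)‖ := by
    intro z hz hne
    rw [norm_pos_iff, sub_ne_zero]
    intro h
    exact hne (hT.inj t ht2 z (hball z hz) h)
  have hyM : ‖y - γ t‖ ≤ M * r := by rw [← hrd]; nlinarith
  have hfy := hpos y hyM hy
  have hyRC := hRC y (by rw [← hrd, div_le_iff₀ hM0]; nlinarith) hyM
  rw [← hrd] at hyRC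
  have hshell : ∀ z : E3, r / M ≤ ‖z - γ t‖ → ‖z - γ t‖ ≤ M * r →
      ‖f z - f (γ t)‖ / ‖f y - f (γ t)‖ ≤ ‖z - γ t‖ / r * (1 + e) ∧
      ‖z - γ t‖ / r ≤ ‖f z - f (γ t)‖ / ‖f y - f (γ t)‖ * (1 + e) := by
    intro z hz1 hz2
    have hu : 0 < ‖z - γ t‖ := lt_of_lt_of_le (by positivity) hz1
    have hz0 : z ≠ γ t := by rw [← sub_ne_zero]; exact norm_pos_iff.1 hu
    have hfz := hpos z hz2 hz0
    have hzRC := hRC z hz1 hz2
    refine ⟨?_, ?_⟩
    · rw [← hexp]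
      exact NR1_le _ _ _ _ m τ' hfz hfy hu hr hzRC hyRC
    · have h1 := NR1_le _ _ _ _ m τ' hfy hfz hr hu hyRC hzRC
      rw [hexp, div_mul_eq_mul_div, div_le_div_iff₀ hfz hu] at h1
      rw [div_mul_eq_mul_div, div_le_div_iff₀ hr hfy]
      nlinarith
  by_cases hxs : r / M ≤ ‖x - γ t‖
  · have hxM : ‖x - γ t‖ ≤ M * r := hx.trans (mul_le_mul_of_nonneg_right hMR hr.le)
    obtain ⟨h1, h2⟩ := hshell x hxs hxM
    have hxr : ‖x - γ t‖ / r ≤ R := by rw [div_le_iff₀ hr]; exact hx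
    have hxr0 : 0 ≤ ‖x - γ t‖ / r := by positivity
    have hxe : ‖x - γ t‖ / r * e ≤ τ / 2 :=
      (mul_le_mul_of_nonneg_right hxr he0.le).trans heR
    obtain ⟨q, hq⟩ : ∃ q, q = ‖f x - f (γ t)‖ / ‖f y - f (γ t)‖ := ⟨_, rfl⟩
    obtain ⟨s, hs⟩ : ∃ s, s = ‖x - γ t‖ / r := ⟨_, rfl⟩
    rw [← hq, ← hs] at h1 h2 ⊢
    rw [← hs] at hxe hxr0
    rw [abs_le]
    constructor
    · have h3 : s * (1 - e) ≤ q := by
        by_cases he2 : (1 : ℝ) - e ≤ 0
        · have hq0 : 0 ≤ q := by rw [hq]; positivity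
          nlinarith
        · nlinarith
      nlinarith
    · nlinarith
  · rw [not_le] at hxs
    obtain ⟨x', hx'⟩ : ∃ x', x' = γ t + (1 / M) • (y - γ t) := ⟨_, rfl⟩
    have hx'n : ‖x' - γ t‖ = r / M := by
      rw [hx', add_sub_cancel_left, norm_smul, Real.norm_eq_abs, abs_of_pos (by positivity),
        ← hrd]
      ring
    have hx'M : ‖x' - γ t‖ ≤ M * r := by
      rw [hx'n, div_le_iff₀ hM0]
      have : r ≤ M * r := by nlinarith
      nlinarith
    have hxM : ‖x - γ t‖ ≤ M * r := by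
      rw [← hx'n] at hxs
      exact hxs.le.trans hx'M
    have h1 := (hshell x' hx'n.ge hx'M).1
    have h2 := hT.br t ht2 x (hball x hxM) x' (hball x' hx'M) (by rw [hx'n]; exact hxs.le)
    rw [hx'n] at h1
    have h3 : r / M / r = 1 / M := by field_simp
    rw [h3] at h1
    have h4 : 1 / M ≤ τ / 4 := by
      rw [div_le_iff₀ hM0]
      rw [div_le_iff₀ hτ] at hMτ
      linarith
    have h5 : H * (1 / M) ≤ τ / 4 := by
      rw [mul_one_div, div_le_iff₀ hM0]
      rw [div_le_iff₀ hτ] at hMH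
      linarith
    have h6 : ‖f x - f (γ t)‖ / ‖f y - f (γ t)‖ ≤ τ / 2 := by
      calc ‖f x - f (γ t)‖ / ‖f y - f (γ t)‖ ≤
            (H * ‖f x' - f (γ t)‖) / ‖f y - f (γ t)‖ := div_le_div_of_nonneg_right h2 hfy.le
        _ = H * (‖f x' - f (γ t)‖ / ‖f y - f (γ t)‖) := by ring
        _ ≤ H * (1 / M * (1 + e)) := mul_le_mul_of_nonneg_left h1 (by linarith)
        _ = H * (1 / M) * (1 + e) := by ring
        _ ≤ τ / 4 * (1 + e) := mul_le_mul_of_nonneg_right h5 (by linarith)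
        _ ≤ τ / 2 := by nlinarith
    have h7 : ‖x - γ t‖ / r ≤ τ / 4 := by
      rw [div_le_iff₀ hr]
      have : r / M = 1 / M * r := by ring
      rw [this] at hxs
      exact hxs.le.trans (mul_le_mul_of_nonneg_right h4 hr.le)
    have h8 : 0 ≤ ‖f x - f (γ t)‖ / ‖f y - f (γ t)‖ := by positivity
    have h9 : 0 ≤ ‖x - γ t‖ / r := by positivity
    rw [abs_le]
    constructor <;> linarith

end Pool.Flat
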