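import Pool.Agent.Work.MP_680515_fl.Iface3

/-!
# Block ONE: small defect on a ring implies that the logarithmic ratio is nearly constant
-/

open MeasureTheory Set Filter Topology

namespace Pool.Flat

open Pool.Mart

theorem ONE_unit : ∃ e : E3, ‖e‖ = 1 := ⟨EuclideanSpace.single 0 1, by simp⟩

theorem ONE_open (p : E3) (a b : ℝ) : IsOpen (rg p a b) := by
  have h : rg p a b = (fun x : E3 => ‖x - p‖) ⁻¹' Ioo a b := rfl
  rw [h]
  exact isOpen_Ioo.preimage (by fun_prop)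

theorem ONE_num (C1 C2 M δ τ r : ℝ) (h1 : 0 < C1) (h2 : 0 < C2) (hM : 0 < M) (hδ : 0 < δ)
    (hr : 0 < r) :
    C2 * ((δ * r) ^ 3)⁻¹ * (2 * M * r) *
      (C1 * (4 * M * r) ^ 2 * (τ * δ ^ 3 / (256 * C1 * C2 * M ^ 3))) = τ / 8 := by
  field_simp
  ring

theorem p_ONE (hUCO : Stmt_UCO) (hLGW : Stmt_LGW) (hSEG : Stmt_SEG) (hOSC : Stmt_OSC) :
    Stmt_ONE := by
  intro H M τ hH hM hτ
  have hM0 : 0 < M := by linarith
  obtain ⟨δ, hδ0, hδ1, hδ⟩ := hUCO H M (τ / 16) hH hM (by positivity)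
  obtain ⟨C1, hC10, hC1⟩ := hLGW
  obtain ⟨C2, hC20, hC2⟩ := hOSC
  obtain ⟨q, hq⟩ : ∃ q : ℝ, q = τ * δ ^ 3 / (256 * C1 * C2 * M ^ 3) := ⟨_, rfl⟩
  have hq0 : 0 < q := by
    rw [hq]
    positivity
  refine ⟨q ^ 2, by positivity, ?_⟩
  intro ε r0 Ω S f A γ hε hε1 hT t ht r hr hMr hint hDR
  have ht2 : t ∈ Icc (-2 : ℝ) 2 := ⟨by linarith [ht.1], by linarith [ht.2]⟩
  obtain ⟨p, hp⟩ : ∃ p, p = γ t := ⟨_, rfl⟩
  have hMr1 : r ≤ M * r := by nlinarith
  have hMr2 : 128 * (M * r) ≤ r0 := by linarith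
  have hrM : 0 < r / M := by positivity
  have hrM1 : r / M ≤ r := by
    rw [div_le_iff₀ hM0]
    nlinarith
  have hrM4 : r / (4 * M) = r / M / 4 := by
    field_simp
  have hδ1' : δ * r ≤ r / M / 8 := by
    calc δ * r ≤ 1 / (8 * M) * r := mul_le_mul_of_nonneg_right hδ1 hr.le
      _ = r / M / 8 := by field_simp
  have hδr : 0 < δ * r := by positivity
  -- the ring
  have hW1 : 0 < r / (4 * M) := by positivity
  have hW2 : r / (4 * M) < 4 * M * r := by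
    rw [hrM4]
    nlinarith
  have hWball : ∀ x ∈ rg p (r / (4 * M)) (4 * M * r), x ∈ Metric.closedBall p (8 * r0) := by
    intro x hx
    rw [mem_closedBall_iff_norm]
    have := hx.2
    linarith
  have hWΩ : rg p (r / (4 * M)) (4 * M * r) ⊆ Ω := by
    intro x hx
    have h1 := hWball x hx
    rw [hp] at h1
    exact hT.sub t ht2 h1
  have hWf : ∀ x ∈ rg p (r / (4 * M)) (4 * M * r), f x ≠ f p := by
    intro x hx h
    have h1 := hWball x hx
    rw [hp] at h1 h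
    have h2 := hT.inj t ht2 x h1 h
    have h3 := hx.1
    rw [h2, hp, sub_self, norm_zero] at h3
    linarith
  obtain ⟨hcont, V, hV, hVj⟩ := hC1 Ω f A p (r / (4 * M)) (4 * M * r) hT.op hT.cont hT.wg hT.good
    hW1 hW2 hWΩ hWf (by rw [hp]; exact hint)
  have hsq : Real.sqrt (DR f A p (r / (4 * M)) (4 * M * r)) ≤ q := by
    rw [hp]
    calc Real.sqrt (DR f A (γ t) (r / (4 * M)) (4 * M * r)) ≤ Real.sqrt (q ^ 2) :=
          Real.sqrt_le_sqrt hDR
      _ = q := Real.sqrt_sq hq0.le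
  obtain ⟨I, hI⟩ : ∃ I, I = C1 * (4 * M * r) ^ 2 * q := ⟨_, rfl⟩
  have hI0 : 0 ≤ I := by
    rw [hI]
    positivity
  have hVI : ∀ j : Fin 3, IntegrableOn (fun z => V z j) (rg p (r / (4 * M)) (4 * M * r)) ∧
      ∫ z in rg p (r / (4 * M)) (4 * M * r), |V z j| ≤ I := by
    intro j
    refine ⟨(hVj j).1, (hVj j).2.trans ?_⟩
    rw [hI]
    exact mul_le_mul_of_nonneg_left hsq (by positivity)
  -- one segment
  have hone : ∀ a b : E3, r / M ≤ ‖a‖ → ‖a‖ ≤ M * r → r / M ≤ ‖b‖ → ‖b‖ ≤ M * r →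
      (∀ s ∈ Icc (0 : ℝ) 1, r / M / 2 ≤ ‖a + s • (b - a)‖ ∧ ‖a + s • (b - a)‖ ≤ M * r) →
      |lr f p (p + a) - lr f p (p + b)| ≤ τ / 4 := by
    intro a b ha1 ha2 hb1 hb2 hab
    have hu : ∀ c : E3, r / M ≤ ‖c‖ → ‖c‖ ≤ M * r → ∀ z : E3, ‖z - (p + c)‖ ≤ δ * r →
        |lr f p z - lr f p (p + c)| ≤ τ / 16 := by
      intro c hc1 hc2 z hz
      rw [hp] at hz ⊢
      exact hδ ε r0 Ω S f A γ hε hε1 hT t ht r hr (by linarith) (γ t + c) z
        (by rw [add_sub_cancel_left]; exact hc1) (by rw [add_sub_cancel_left]; exact hc2) hz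
    have h := hC2 (rg p (r / (4 * M)) (4 * M * r)) (lr f p) V (p + a) (p + b) (δ * r) (τ / 16) I
      (ONE_open _ _ _) hcont hV hδr ?_ (hu a ha1 ha2) (hu b hb1 hb2) hVI
    · refine h.trans ?_
      have hab2 : ‖(p + a) - (p + b)‖ ≤ 2 * M * r := by
        rw [add_sub_add_left_eq_sub]
        calc ‖a - b‖ ≤ ‖a‖ + ‖b‖ := norm_sub_le _ _
          _ ≤ 2 * M * r := by linarith
      have h1 : C2 * ((δ * r) ^ 3)⁻¹ * ‖(p + a) - (p + b)‖ * I ≤ τ / 8 := by
        calc C2 * ((δ * r) ^ 3)⁻¹ * ‖(p + a) - (p + b)‖ * I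
            ≤ C2 * ((δ * r) ^ 3)⁻¹ * (2 * M * r) * I :=
              mul_le_mul_of_nonneg_right (mul_le_mul_of_nonneg_left hab2 (by positivity)) hI0
          _ = τ / 8 := by
              rw [hI, hq]
              exact ONE_num C1 C2 M δ τ r hC10 hC20 hM0 hδ0 hr
      linarith
    · intro s hs w hw
      rw [mem_closedBall_iff_norm] at hw
      obtain ⟨h1, h2⟩ := hab s hs
      have e1 : (p + a) + s • ((p + b) - (p + a)) = p + (a + s • (b - a)) := by
        rw [add_sub_add_left_eq_sub, add_assoc]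
      rw [e1] at hw
      obtain ⟨c, hc⟩ : ∃ c, c = a + s • (b - a) := ⟨_, rfl⟩
      rw [← hc] at hw h1 h2
      have e2 : w - p = (w - (p + c)) + c := by abel
      constructor
      · have h3 : ‖c‖ ≤ ‖w - p‖ + ‖w - (p + c)‖ := by
          calc ‖c‖ = ‖(w - p) - (w - (p + c))‖ := by
                congr 1
                abel
            _ ≤ ‖w - p‖ + ‖w - (p + c)‖ := norm_sub_le _ _
        rw [hrM4]
        linarith
      · have h3 : ‖w - p‖ ≤ ‖w - (p + c)‖ + ‖c‖ := by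
          rw [e2]
          exact norm_add_le _ _
        linarith
  -- the base point
  obtain ⟨e, he⟩ := ONE_unit
  refine ⟨lr f p (p + r • e), ?_⟩
  intro x hx1 hx2
  rw [← hp] at hx1 hx2 ⊢
  have hre : ‖r • e‖ = r := by
    rw [norm_smul, he, Real.norm_of_nonneg hr.le, mul_one]
  obtain ⟨z, hz0, hz4, hz, hzs⟩ := hSEG (r / M) (M * r) (x - p) (r • e) hrM hx1 hx2
    (by rw [hre]; exact hrM1) (by rw [hre]; exact hMr1)
  have hstep : ∀ i < 4, |lr f p (p + z i) - lr f p (p + z (i + 1))| ≤ τ / 4 := by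
    intro i hi
    exact hone (z i) (z (i + 1)) (hz i (by omega)).1 (hz i (by omega)).2
      (hz (i + 1) (by omega)).1 (hz (i + 1) (by omega)).2 (hzs i hi)
  have h0 := abs_le.1 (hstep 0 (by norm_num))
  have h1 := abs_le.1 (hstep 1 (by norm_num))
  have h2 := abs_le.1 (hstep 2 (by norm_num))
  have h3 := abs_le.1 (hstep 3 (by norm_num))
  norm_num at h0 h1 h2 h3
  rw [hz0, add_sub_cancel] at h0
  rw [hz4] at h3
  have e3 : Real.log (‖f x - f p‖ / ‖x - p‖) = lr f p x := rfl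
  rw [e3, abs_le]
  constructor <;> linarith [h0.1, h0.2, h1.1, h1.2, h2.1, h2.2, h3.1, h3.2]

end Pool.Flat
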