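import Pool.Agent.Work.MP_680515_fl.Iface1

open MeasureTheory Set Filter Topology

namespace Pool.Flat

open Pool.Mart

/-- the volume of the unit ball -/
noncomputable def OSC_v : ℝ := volume.real (Metric.closedBall (0 : E3) 1)

theorem OSC_v_pos : 0 < OSC_v :=
  ENNReal.toReal_pos (Metric.measure_closedBall_pos volume _ one_pos).ne'
    measure_closedBall_lt_top.ne

/-- the mollifier -/
noncomputable def OSC_b {h : ℝ} (hh : 0 < h) : ContDiffBump (0 : E3) :=
  ⟨h / 2, h, by positivity, by linarith⟩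

noncomputable def OSC_e {h : ℝ} (hh : 0 < h) : E3 → ℝ := (OSC_b hh).normed volume

theorem OSC_e_le {h : ℝ} (hh : 0 < h) (z : E3) : OSC_e hh z ≤ 8 / OSC_v * (h ^ 3)⁻¹ := by
  have h1 := (OSC_b hh).normed_le_div_measure_closedBall_rIn (μ := volume) z
  have h2 : volume.real (Metric.closedBall (0 : E3) (OSC_b hh).rIn) = (h / 2) ^ 3 * OSC_v := by
    have h3 := Measure.addHaar_real_closedBall' (μ := (volume : Measure E3)) (0 : E3)
      (r := (OSC_b hh).rIn) (OSC_b hh).rIn_pos.le
    rw [finrank_euclideanSpace_fin] at h3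
    exact h3
  rw [h2] at h1
  refine h1.trans (le_of_eq ?_)
  have hv := OSC_v_pos.ne'
  field_simp
  norm_num

theorem OSC_e_nonneg {h : ℝ} (hh : 0 < h) (z : E3) : 0 ≤ OSC_e hh z := (OSC_b hh).nonneg_normed z

theorem OSC_e_smooth {h : ℝ} (hh : 0 < h) : ContDiff ℝ (⊤ : ℕ∞) (OSC_e hh) :=
  (OSC_b hh).contDiff_normed

theorem OSC_e_supp {h : ℝ} (hh : 0 < h) {z : E3} (hz : h < ‖z‖) : OSC_e hh z = 0 := by
  by_contra hne
  have h1 : z ∈ Function.support ((OSC_b hh).normed volume) := hne
  rw [ContDiffBump.support_normed_eq, mem_ball_zero_iff] at h1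
  have h2 : (OSC_b hh).rOut = h := rfl
  rw [h2] at h1
  linarith

theorem OSC_e_cs {h : ℝ} (hh : 0 < h) : HasCompactSupport (OSC_e hh) :=
  (OSC_b hh).hasCompactSupport_normed

/-- the test function -/
theorem OSC_test {h : ℝ} (hh : 0 < h) (z : E3) :
    ContDiff ℝ (⊤ : ℕ∞) (fun w => OSC_e hh (z - w)) ∧
    HasCompactSupport (fun w => OSC_e hh (z - w)) ∧
    tsupport (fun w => OSC_e hh (z - w)) ⊆ Metric.closedBall z h ∧
    ∀ w v, fderiv ℝ (fun w => OSC_e hh (z - w)) w v = - fderiv ℝ (OSC_e hh) (z - w) v := by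
  have hs : Function.support (fun w => OSC_e hh (z - w)) ⊆ Metric.closedBall z h := by
    intro w hw
    by_contra hcon
    rw [Metric.mem_closedBall, dist_comm, dist_eq_norm, not_le] at hcon
    exact hw (OSC_e_supp hh hcon)
  refine ⟨(OSC_e_smooth hh).comp (contDiff_const.sub contDiff_id),
    HasCompactSupport.of_support_subset_isCompact (isCompact_closedBall z h) hs,
    closure_minimal hs Metric.isClosed_closedBall, fun w v => ?_⟩
  have h1 : HasFDerivAt (OSC_e hh) (fderiv ℝ (OSC_e hh) (z - w)) (z - w) :=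
    ((OSC_e_smooth hh).differentiable (by norm_num) (z - w)).hasFDerivAt
  have h2 : HasFDerivAt (fun w : E3 => z - w) (-(ContinuousLinearMap.id ℝ E3)) w :=
    (hasFDerivAt_id w).const_sub z
  have h3 := (h1.comp w h2).fderiv
  have h4 : (fun w => OSC_e hh (z - w)) = OSC_e hh ∘ fun w => z - w := rfl
  rw [h4, h3]
  simp

/-- the derivative of the mollified function -/
theorem OSC_deriv {h : ℝ} (hh : 0 < h) {W K : Set E3} {u : E3 → ℝ} {V : E3 → E3} {I : ℝ}
    (hK : IsCompact K) (hKW : K ⊆ W) (_hWo : IsOpen W) (hu : ContinuousOn u W) (hW : WG1 W u V)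
    (hI : ∀ j : Fin 3, IntegrableOn (fun z => V z j) W ∧ ∫ z in W, |V z j| ≤ I)
    {z : E3} (hz : Metric.closedBall z h ⊆ K) :
    ∃ D : E3 →L[ℝ] ℝ, HasFDerivAt
      (MeasureTheory.convolution (OSC_e hh) (K.indicator u) (ContinuousLinearMap.lsmul ℝ ℝ) volume)
        D z ∧ ∀ v : E3, |D v| ≤ 24 / OSC_v * (h ^ 3)⁻¹ * ‖v‖ * I := by
  have hmeasK : MeasurableSet K := hK.measurableSet
  have hint : Integrable (K.indicator u) := by
    rw [integrable_indicator_iff hmeasK]
    exact (hu.mono hKW).integrableOn_compact hK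
  have hloc : LocallyIntegrable (K.indicator u) := hint.locallyIntegrable
  have h1 := (OSC_e_cs hh).hasFDerivAt_convolution_left (μ := volume)
    (ContinuousLinearMap.lsmul ℝ ℝ) ((OSC_e_smooth hh).of_le (by exact_mod_cast le_top)) hloc z
  refine ⟨_, h1, ?_⟩
  set D := (MeasureTheory.convolution (fderiv ℝ (OSC_e hh)) (K.indicator u)
    ((ContinuousLinearMap.lsmul ℝ ℝ).precompL E3) volume) z with hD
  have hcf : Continuous (fderiv ℝ (OSC_e hh)) :=
    (OSC_e_smooth hh).continuous_fderiv (by norm_num)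
  have hex := (OSC_e_cs hh).fderiv (𝕜 := ℝ) |>.convolutionExists_left (μ := volume)
    ((ContinuousLinearMap.lsmul ℝ ℝ : ℝ →L[ℝ] ℝ →L[ℝ] ℝ).precompL E3) hcf hloc z
  obtain ⟨ht1, ht2, ht3, ht4⟩ := OSC_test hh z
  have hDv : ∀ v : E3, D v = ∫ w, u w * fderiv ℝ (OSC_e hh) (z - w) v := by
    intro v
    have h2 : D v = ∫ t, ((ContinuousLinearMap.lsmul ℝ ℝ : ℝ →L[ℝ] ℝ →L[ℝ] ℝ).precompL E3)
        (fderiv ℝ (OSC_e hh) t) (K.indicator u (z - t)) v := by
      rw [hD, MeasureTheory.convolution]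
      exact ContinuousLinearMap.integral_apply hex v
    rw [h2, ← integral_sub_left_eq_self _ volume z]
    refine integral_congr_ae (Eventually.of_forall fun w => ?_)
    simp only [ContinuousLinearMap.precompL_apply, sub_sub_cancel,
      ContinuousLinearMap.lsmul_apply, smul_eq_mul]
    by_cases hw : w ∈ K
    · rw [Set.indicator_of_mem hw, mul_comm]
    · rw [Set.indicator_of_notMem hw, mul_zero]
      have h3 : w ∉ tsupport (fun w => OSC_e hh (z - w)) := fun h => hw (hz (ht3 h))
      have h4 : fderiv ℝ (fun w => OSC_e hh (z - w)) w = 0 := by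
        by_contra hne
        exact h3 (support_fderiv_subset ℝ hne)
      have h5 := ht4 w v
      rw [h4] at h5
      have h6 : fderiv ℝ (OSC_e hh) (z - w) v = 0 := by
        have : (0 : E3 →L[ℝ] ℝ) v = 0 := rfl
        rw [this] at h5
        linarith
      rw [h6, mul_zero]
  have hDj : ∀ j : Fin 3, |D (EuclideanSpace.single j 1)| ≤ 8 / OSC_v * (h ^ 3)⁻¹ * I := by
    intro j
    have h2 := hW.ibp _ ht1 ht2 (ht3.trans (hz.trans hKW)) j
    have h3 : D (EuclideanSpace.single j 1) = ∫ w, V w j * OSC_e hh (z - w) := by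
      rw [hDv]
      have h4 : ∫ w, u w * fderiv ℝ (OSC_e hh) (z - w) (EuclideanSpace.single j 1) =
          - ∫ w, u w * fderiv ℝ (fun w => OSC_e hh (z - w)) w (EuclideanSpace.single j 1) := by
        rw [← integral_neg]
        refine integral_congr_ae (Eventually.of_forall fun w => ?_)
        simp only [ht4]
        ring
      rw [h4, h2, neg_neg]
    have h4 : ∫ w in W, V w j * OSC_e hh (z - w) = ∫ w, V w j * OSC_e hh (z - w) := by
      refine setIntegral_eq_integral_of_forall_compl_eq_zero fun w hw => ?_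
      have h5 : h < ‖z - w‖ := by
        by_contra hcon
        push Not at hcon
        exact hw (hKW (hz (by rw [Metric.mem_closedBall, dist_comm, dist_eq_norm]; exact hcon)))
      rw [OSC_e_supp hh h5, mul_zero]
    have hB0 : 0 ≤ 8 / OSC_v * (h ^ 3)⁻¹ := by
      have := OSC_v_pos
      positivity
    have h6 : ‖∫ w in W, V w j * OSC_e hh (z - w)‖ ≤
        ∫ w in W, (8 / OSC_v * (h ^ 3)⁻¹) * |V w j| := by
      refine norm_integral_le_of_norm_le (((hI j).1.abs).const_mul _)
        (Eventually.of_forall fun w => ?_)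
      rw [norm_mul, Real.norm_eq_abs, Real.norm_of_nonneg (OSC_e_nonneg hh _), mul_comm]
      exact mul_le_mul_of_nonneg_right (OSC_e_le hh _) (abs_nonneg _)
    rw [h3, ← h4, ← Real.norm_eq_abs]
    refine h6.trans ?_
    rw [integral_const_mul]
    exact mul_le_mul_of_nonneg_left (hI j).2 hB0
  intro v
  have hv : v = ∑ j, v j • EuclideanSpace.single j (1 : ℝ) := by
    ext i
    fin_cases i <;> simp [Fin.sum_univ_three]
  have h2 : D v = ∑ j, v j * D (EuclideanSpace.single j 1) := by
    conv_lhs => rw [hv]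
    rw [map_sum]
    refine Finset.sum_congr rfl fun j _ => ?_
    rw [map_smul, smul_eq_mul]
  rw [h2]
  calc |∑ j, v j * D (EuclideanSpace.single j 1)|
      ≤ ∑ j, |v j * D (EuclideanSpace.single j 1)| := Finset.abs_sum_le_sum_abs _ _
    _ ≤ ∑ _j : Fin 3, ‖v‖ * (8 / OSC_v * (h ^ 3)⁻¹ * I) := by
        refine Finset.sum_le_sum fun j _ => ?_
        rw [abs_mul]
        have h3 : |v j| ≤ ‖v‖ := by
          rw [← Real.norm_eq_abs]
          exact PiLp.norm_apply_le v j
        exact mul_le_mul h3 (hDj j) (abs_nonneg _) (norm_nonneg _)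
    _ = 24 / OSC_v * (h ^ 3)⁻¹ * ‖v‖ * I := by
        rw [Finset.sum_const, Finset.card_univ, Fintype.card_fin, nsmul_eq_mul]
        push_cast
        ring

theorem p_OSC : Stmt_OSC := by
  refine ⟨24 / OSC_v, by have := OSC_v_pos; positivity, ?_⟩
  intro W u V x y h σ I hWo hu hW hh hseg hx hy hI
  set K : Set E3 := (fun p : ℝ × E3 => x + p.1 • (y - x) + p.2) ''
    (Icc (0 : ℝ) 1 ×ˢ Metric.closedBall (0 : E3) h) with hKdef
  have hK : IsCompact K := by
    refine (isCompact_Icc.prod (isCompact_closedBall 0 h)).image ?_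
    fun_prop
  have hKW : K ⊆ W := by
    rintro w ⟨⟨s, t⟩, ⟨hs, ht⟩, rfl⟩
    refine hseg s hs ?_
    rw [mem_closedBall_zero_iff] at ht
    rw [Metric.mem_closedBall, dist_eq_norm]
    simpa using ht
  have hball : ∀ s ∈ Icc (0 : ℝ) 1, Metric.closedBall (x + s • (y - x)) h ⊆ K := by
    intro s hs w hw
    rw [Metric.mem_closedBall, dist_eq_norm] at hw
    refine ⟨(s, w - (x + s • (y - x))), ⟨hs, by rwa [mem_closedBall_zero_iff]⟩, ?_⟩
    simp only
    abel
  set G := MeasureTheory.convolution (OSC_e hh) (K.indicator u)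
    (ContinuousLinearMap.lsmul ℝ ℝ) volume with hG
  have hmeasK : MeasurableSet K := hK.measurableSet
  have hint : Integrable (K.indicator u) := by
    rw [integrable_indicator_iff hmeasK]
    exact (hu.mono hKW).integrableOn_compact hK
  have happrox : ∀ s ∈ Icc (0 : ℝ) 1, ∀ q : E3, q = x + s • (y - x) →
      (∀ w : E3, ‖w - q‖ ≤ h → |u w - u q| ≤ σ) → |G q - u q| ≤ σ := by
    intro s hs q hq hqu
    have hqK : q ∈ K := hball s hs (by rw [hq]; exact Metric.mem_closedBall_self hh.le)
    have h1 := (OSC_b hh).dist_normed_convolution_le (μ := volume) (g := K.indicator u) (x₀ := q)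
      (ε := σ) hint.aestronglyMeasurable (by
        intro w hw
        have h2 : (OSC_b hh).rOut = h := rfl
        rw [h2, Metric.mem_ball, dist_eq_norm] at hw
        have h3 : w ∈ K := hball s hs (by
          rw [← hq, Metric.mem_closedBall, dist_eq_norm]
          exact hw.le)
        rw [Set.indicator_of_mem h3, Set.indicator_of_mem hqK, Real.dist_eq]
        exact hqu w hw.le)
    rw [Set.indicator_of_mem hqK, Real.dist_eq] at h1
    exact h1
  have ax := happrox 0 (by simp) x (by simp) hx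
  have ay := happrox 1 (by simp) y (by simp) hy
  -- the mean value inequality
  have hmv : ‖G (x + (1 : ℝ) • (y - x)) - G (x + (0 : ℝ) • (y - x))‖ ≤
      24 / OSC_v * (h ^ 3)⁻¹ * ‖y - x‖ * I := by
    have hex : ∀ s ∈ Icc (0 : ℝ) 1, ∃ d : ℝ, HasDerivAt (fun s : ℝ => G (x + s • (y - x))) d s ∧
        ‖d‖ ≤ 24 / OSC_v * (h ^ 3)⁻¹ * ‖y - x‖ * I := by
      intro s hs
      obtain ⟨D, hD1, hD2⟩ := OSC_deriv hh hK hKW hWo hu hW hI (hball s hs)
      refine ⟨D (y - x), ?_, ?_⟩
      · have h2 : HasDerivAt (fun s : ℝ => x + s • (y - x)) (y - x) s := by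
          have h3 := ((hasDerivAt_id s).smul_const (y - x)).const_add x
          rw [one_smul] at h3
          exact h3
        exact hD1.comp_hasDerivAt s h2
      · rw [Real.norm_eq_abs]
        exact hD2 _
    choose! d hd1 hd2 using hex
    exact norm_image_sub_le_of_norm_deriv_le_segment_01'
      (f := fun s : ℝ => G (x + s • (y - x))) (f' := d)
      (fun s hs => (hd1 s hs).hasDerivWithinAt) (fun s hs => hd2 s (Ico_subset_Icc_self hs))
  rw [one_smul, zero_smul, add_zero, add_sub_cancel, Real.norm_eq_abs] at hmv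
  rw [norm_sub_rev x y]
  have e : u x - u y = -(G x - u x) - (G y - G x) + (G y - u y) := by ring
  rw [e]
  calc |-(G x - u x) - (G y - G x) + (G y - u y)|
      ≤ |-(G x - u x) - (G y - G x)| + |G y - u y| := abs_add_le _ _
    _ ≤ |-(G x - u x)| + |G y - G x| + |G y - u y| := by gcongr; exact abs_sub _ _
    _ ≤ σ + 24 / OSC_v * (h ^ 3)⁻¹ * ‖y - x‖ * I + σ := by
        rw [abs_neg]
        linarith
    _ = 2 * σ + 24 / OSC_v * (h ^ 3)⁻¹ * ‖y - x‖ * I := by ring

end Pool.Flat
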