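import Pool.Agent.Work.MP_680515_fl.Iface4
import Pool.Agent.Work.MP_680515_an.B.PIOI
import Pool.Agent.Work.MP_680515_an.B.PIOW

/-!
# MP_680515_an, THEOREM FC, block OSL: oscillation on spheres for Sobolev maps
-/

open MeasureTheory Set Filter Topology

namespace Pool.Flat

open Pool.Mart

/-! ## Matrices -/

theorem OSL_opn_nonneg (M : M3) : 0 ≤ opn M := norm_nonneg _

theorem OSL_opn_le (M B : M3) : opn B ≤ opn M + opn (B - M) := by
  rw [PIOI42_.opn_eq, PIOI42_.opn_eq, PIOI42_.opn_eq]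
  have h : PIOI42_.Lc B = PIOI42_.Lc M + PIOI42_.Lc (B - M) := by
    rw [← map_add]
    congr 1
    abel
  calc ‖PIOI42_.Lc B‖ = ‖PIOI42_.Lc M + PIOI42_.Lc (B - M)‖ := by rw [← h]
    _ ≤ _ := norm_add_le _ _

theorem OSL_opn_symm (M B : M3) : opn (M - B) = opn (B - M) := by
  rw [PIOI42_.opn_eq, PIOI42_.opn_eq, ← norm_neg, ← map_neg, neg_sub]

theorem OSL_abs (M B : M3) : |opn B - opn M| ≤ opn (B - M) := by
  rw [abs_le]
  have h1 := OSL_opn_le M B
  have h2 := OSL_opn_le B M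
  rw [OSL_opn_symm] at h2
  constructor <;> linarith

theorem OSL_single (i j : Fin 3) : ‖PIOI42_.Lc (Matrix.single i j 1)‖ ≤ 1 := by
  refine ContinuousLinearMap.opNorm_le_bound _ zero_le_one fun v => ?_
  rw [one_mul]
  have h1 : PIOI42_.Lc (Matrix.single i j 1) v = EuclideanSpace.single i (v j) := by
    change WithLp.toLp 2 ((Matrix.single i j (1 : ℝ)).mulVec v.ofLp) = _
    ext k
    simp [Matrix.single_mulVec, Function.update_apply]
  rw [h1, PiLp.norm_single]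
  exact PiLp.norm_apply_le v j

theorem OSL_opn_cube (M : M3) : opn M ^ 3 ≤ 81 * PIOW_.S3 M := by
  have h1 : opn M ≤ ∑ p : Fin 3 × Fin 3, |M p.1 p.2| := by
    rw [PIOI42_.opn_eq, PIOI42_.Lc_sum, Fintype.sum_prod_type]
    refine (norm_sum_le _ _).trans (Finset.sum_le_sum fun i _ => ?_)
    refine (norm_sum_le _ _).trans (Finset.sum_le_sum fun j _ => ?_)
    rw [norm_smul, Real.norm_eq_abs]
    calc |M i j| * ‖PIOI42_.Lc (Matrix.single i j 1)‖ ≤ |M i j| * 1 :=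
          mul_le_mul_of_nonneg_left (OSL_single i j) (abs_nonneg _)
      _ = |M i j| := mul_one _
  have h2 := pow_sum_div_card_le_sum_pow (s := (Finset.univ : Finset (Fin 3 × Fin 3)))
    (f := fun p => |M p.1 p.2|) (fun p _ => abs_nonneg _) 2
  have h3 : ∑ p : Fin 3 × Fin 3, |M p.1 p.2| ^ (2 + 1) = PIOW_.S3 M := by
    rw [Fintype.sum_prod_type]
    rfl
  rw [h3, div_le_iff₀ (by simp)] at h2
  have h4 : ((Finset.univ : Finset (Fin 3 × Fin 3)).card : ℝ) ^ 2 = 81 := by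
    simp
    norm_num
  rw [h4] at h2
  have h5 : (∑ p : Fin 3 × Fin 3, |M p.1 p.2|) ^ 3 ≤ PIOW_.S3 M * 81 := h2
  calc opn M ^ 3 ≤ (∑ p : Fin 3 × Fin 3, |M p.1 p.2|) ^ 3 :=
        pow_le_pow_left₀ (OSL_opn_nonneg M) h1 3
    _ ≤ 81 * PIOW_.S3 M := by linarith

/-- The function to which the limit lemma is applied. -/
noncomputable def OSL_P (M : M3) : ℝ := opn M ^ 3 / 81

theorem OSL_P_lip (δ : ℝ) (hδ : 0 < δ) (M B : M3) :
    |OSL_P B - OSL_P M| ≤ 6 * PIOW_.Q δ (PIOW_.S3 (B - M)) (PIOW_.S3 M) := by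
  have ha := OSL_opn_nonneg M
  have hb := OSL_opn_nonneg B
  have hd := OSL_opn_nonneg (B - M)
  have h1 := OSL_abs M B
  have h2 := OSL_opn_le M B
  have hR := OSL_opn_cube (B - M)
  have hT := OSL_opn_cube M
  have hR0 := PIOW_.S3_nonneg (B - M)
  have hT0 := PIOW_.S3_nonneg M
  have hδ3 : 0 < δ ^ 3 := by positivity
  have hδ6 : 0 < δ ^ 6 := by positivity
  have hcub : opn B ^ 3 ≤ 4 * (opn M ^ 3 + opn (B - M) ^ 3) := by
    have h3 : opn B ^ 3 ≤ (opn M + opn (B - M)) ^ 3 := pow_le_pow_left₀ hb h2 3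
    nlinarith [mul_nonneg (add_nonneg ha hd) (sq_nonneg (opn M - opn (B - M)))]
  have t1 := PIOW_.trip hδ (opn (B - M)) (opn B) (opn B)
  have t2 := PIOW_.trip hδ (opn (B - M)) (opn M) (opn B)
  have t3 := PIOW_.trip hδ (opn (B - M)) (opn M) (opn M)
  rw [abs_of_nonneg hd, abs_of_nonneg hb] at t1
  rw [abs_of_nonneg hd, abs_of_nonneg hb, abs_of_nonneg ha] at t2
  rw [abs_of_nonneg hd, abs_of_nonneg ha] at t3
  have h4 : |opn B ^ 3 - opn M ^ 3|
      ≤ opn (B - M) * opn B * opn B + opn (B - M) * opn M * opn B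
        + opn (B - M) * opn M * opn M := by
    have e : opn B ^ 3 - opn M ^ 3
        = (opn B - opn M) * (opn B * opn B + opn M * opn B + opn M * opn M) := by ring
    rw [e, abs_mul, abs_of_nonneg (a := opn B * opn B + opn M * opn B + opn M * opn M)
      (by positivity)]
    have := mul_le_mul_of_nonneg_right h1
      (by positivity : 0 ≤ opn B * opn B + opn M * opn B + opn M * opn M)
    linarith
  have h5 : opn (B - M) ^ 3 / δ ^ 6 ≤ 81 * PIOW_.S3 (B - M) / δ ^ 6 :=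
    div_le_div_of_nonneg_right hR hδ6.le
  have h6 : δ ^ 3 * opn B ^ 3 ≤ δ ^ 3 * (324 * PIOW_.S3 M + 324 * PIOW_.S3 (B - M)) :=
    mul_le_mul_of_nonneg_left (by linarith) hδ3.le
  have h7 : δ ^ 3 * opn M ^ 3 ≤ δ ^ 3 * (81 * PIOW_.S3 M) :=
    mul_le_mul_of_nonneg_left hT hδ3.le
  have h8 : 0 ≤ PIOW_.S3 (B - M) / δ ^ 6 := by positivity
  have h9 : 0 ≤ δ ^ 3 * PIOW_.S3 M := by positivity
  have h10 : 0 ≤ δ ^ 3 * PIOW_.S3 (B - M) := by positivity
  have h11 : 81 * PIOW_.S3 (B - M) / δ ^ 6 = 81 * (PIOW_.S3 (B - M) / δ ^ 6) := by ring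
  rw [h11] at h5
  unfold OSL_P PIOW_.Q
  rw [← sub_div, abs_div, abs_of_pos (by norm_num : (0 : ℝ) < 81), div_le_iff₀ (by norm_num)]
  nlinarith

/-! ## Gradients -/

theorem OSL_fderiv_eq (φ : E3 → ℝ) (x v : E3) : fderiv ℝ φ x v = inner ℝ (gradv φ x) v := by
  have hw : v = ∑ j, v j • (EuclideanSpace.single j (1 : ℝ) : E3) := by
    ext i
    simp [Pi.single_apply]
  conv_lhs => rw [hw, map_sum]
  simp only [map_smul, PiLp.inner_apply, gradv, RCLike.inner_apply, conj_trivial, smul_eq_mul]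

theorem OSL_norm_gradv (φ : E3 → ℝ) (x : E3) : ‖gradv φ x‖ = ‖fderiv ℝ φ x‖ := by
  have h : InnerProductSpace.toDual ℝ E3 (gradv φ x) = fderiv ℝ φ x := by
    ext v
    rw [InnerProductSpace.toDual_apply_apply, OSL_fderiv_eq]
  rw [← h, LinearIsometryEquiv.norm_map]

theorem OSL_fderiv_jac (g : E3 → E3) (x : E3) : fderiv ℝ g x = PIOI42_.Lc (jac g x) := by
  ext1 w
  have hw : w = ∑ j, w j • (EuclideanSpace.single j (1 : ℝ) : E3) := by
    ext i
    simp [Pi.single_apply]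
  have h1 : PIOI42_.Lc (jac g x) w = act (jac g x) w := rfl
  rw [h1]
  ext i
  conv_lhs => rw [hw, map_sum]
  simp only [map_smul]
  simp only [act, jac, Matrix.mulVec, dotProduct, Matrix.of_apply]
  simp [Finset.sum_apply, mul_comm]

theorem OSL_chain {g : E3 → E3} {Φ : E3 → ℝ} (hg : ContDiff ℝ (⊤ : ℕ∞) g)
    (hΦ : ContDiff ℝ 1 Φ) (x : E3) :
    ‖gradv (fun x => Φ (g x)) x‖ ≤ opn (jac g x) * ‖gradv Φ (g x)‖ := by
  have hg' : DifferentiableAt ℝ g x :=
    ((hg.of_le (WithTop.coe_le_coe.2 (le_top : (1 : ℕ∞) ≤ ⊤))).differentiable (by norm_num)) x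
  have hΦ' : DifferentiableAt ℝ Φ (g x) := (hΦ.differentiable (by norm_num)) _
  have h1 : fderiv ℝ (fun x => Φ (g x)) x = (fderiv ℝ Φ (g x)).comp (fderiv ℝ g x) :=
    fderiv_comp x hΦ' hg'
  rw [OSL_norm_gradv, OSL_norm_gradv, h1, PIOI42_.opn_eq, ← OSL_fderiv_jac, mul_comm]
  exact ContinuousLinearMap.opNorm_comp_le _ _

theorem OSL_cont_gradv {φ : E3 → ℝ} (hφ : ContDiff ℝ 1 φ) : Continuous fun x => ‖gradv φ x‖ := by
  have h : (fun x => ‖gradv φ x‖) = fun x => ‖fderiv ℝ φ x‖ :=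
    funext fun x => OSL_norm_gradv φ x
  rw [h]
  exact (hφ.continuous_fderiv (by norm_num)).norm

/-! ## Spheres -/

theorem OSL_sph_cont (t : ℝ) : Continuous fun p : ℝ × ℝ => sph t p.1 p.2 := by
  unfold sph
  refine (PiLp.continuous_toLp 2 _).comp (continuous_pi fun i => ?_)
  fin_cases i
  · simp only [Fin.zero_eta, Matrix.cons_val_zero]
    fun_prop
  · simp only [Fin.mk_one, Matrix.cons_val_one, Matrix.cons_val_zero]
    fun_prop
  · simp only [Fin.reduceFinMk, Matrix.cons_val]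
    fun_prop

theorem OSL_sph_norm (t u θ : ℝ) (ht : 0 < t) (hu : u ∈ Ioo (-1 : ℝ) 1) : ‖sph t u θ‖ = t := by
  have hu2 : 0 ≤ 1 - u ^ 2 := by nlinarith [hu.1, hu.2]
  rw [EuclideanSpace.norm_eq, Fin.sum_univ_three]
  have h1 : ‖sph t u θ 0‖ ^ 2 = t ^ 2 * (1 - u ^ 2) * Real.cos θ ^ 2 := by
    simp only [sph, Real.norm_eq_abs, sq_abs, Matrix.cons_val_zero]
    rw [mul_pow, mul_pow, Real.sq_sqrt hu2]
  have h2 : ‖sph t u θ 1‖ ^ 2 = t ^ 2 * (1 - u ^ 2) * Real.sin θ ^ 2 := by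
    simp only [sph, Real.norm_eq_abs, sq_abs, Matrix.cons_val_one, Matrix.cons_val_zero]
    rw [mul_pow, mul_pow, Real.sq_sqrt hu2]
  have h3 : ‖sph t u θ 2‖ ^ 2 = t ^ 2 * u ^ 2 := by
    simp only [sph, Real.norm_eq_abs, sq_abs, Matrix.cons_val]
    rw [mul_pow]
  rw [h1, h2, h3]
  have h4 : t ^ 2 * (1 - u ^ 2) * Real.cos θ ^ 2 + t ^ 2 * (1 - u ^ 2) * Real.sin θ ^ 2
      + t ^ 2 * u ^ 2 = t ^ 2 := by
    have := Real.sin_sq_add_cos_sq θ
    linear_combination t ^ 2 * (1 - u ^ 2) * this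
  rw [h4, Real.sqrt_sq ht.le]

/-- The integral of a nonnegative function is at most its lower integral. -/
theorem OSL_ofReal_le {μ : Measure ℝ} {F : ℝ → ℝ} (h0 : ∀ x, 0 ≤ F x)
    (hF : AEStronglyMeasurable F μ) :
    ENNReal.ofReal (∫ x, F x ∂μ) ≤ ∫⁻ x, ENNReal.ofReal (F x) ∂μ := by
  rw [integral_eq_lintegral_of_nonneg_ae (Eventually.of_forall h0) hF]
  exact ENNReal.ofReal_toReal_le

theorem OSL_SI_le {h : E3 → ℝ} (hc : Continuous h) (h0 : ∀ x, 0 ≤ h x) (c : E3) (ρ : ℝ) :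
    ENNReal.ofReal (SI c ρ h) ≤ ∫⁻ u in Ioo (-1 : ℝ) 1, ∫⁻ θ in Ioo (0 : ℝ) (2 * Real.pi),
      ENNReal.ofReal (h (c + sph ρ u θ)) := by
  have hpi : (0 : ℝ) ≤ 2 * Real.pi := by positivity
  have hjc : Continuous (Function.uncurry fun u θ => h (c + sph ρ u θ)) :=
    hc.comp (continuous_const.add (OSL_sph_cont ρ))
  have hcu : Continuous fun u => ∫ θ in (0 : ℝ)..(2 * Real.pi), h (c + sph ρ u θ) :=
    intervalIntegral.continuous_parametric_intervalIntegral_of_continuous' hjc _ _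
  have hu0 : ∀ u, 0 ≤ ∫ θ in (0 : ℝ)..(2 * Real.pi), h (c + sph ρ u θ) := fun u =>
    intervalIntegral.integral_nonneg hpi fun θ _ => h0 _
  unfold SI
  rw [intervalIntegral.integral_of_le (by norm_num : (-1 : ℝ) ≤ 1), integral_Ioc_eq_integral_Ioo]
  refine (OSL_ofReal_le hu0 hcu.aestronglyMeasurable).trans (lintegral_mono fun u => ?_)
  simp only
  rw [intervalIntegral.integral_of_le hpi, integral_Ioc_eq_integral_Ioo]
  refine OSL_ofReal_le (fun θ => h0 _) ?_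
  exact (hjc.comp (continuous_const.prodMk continuous_id)).aestronglyMeasurable

theorem OSL_smooth {C0 : ℝ} (hC0 : 0 < C0)
    (hMOR : ∀ (v : E3 → ℝ) (c x y : E3) (ρ : ℝ), ContDiff ℝ 1 v → 0 < ρ → ‖x - c‖ = ρ →
      ‖y - c‖ = ρ → |v x - v y| ^ 3 ≤ C0 * ρ ^ 3 * SI c ρ (fun z => ‖gradv v z‖ ^ 3))
    (hSPH : Stmt_SPH) {v : E3 → ℝ} (hv : ContDiff ℝ 1 v) {c : E3} {ρ1 ρ2 δ : ℝ} (h1 : 0 < ρ1)
    (h12 : ρ1 < ρ2) (hδ : 0 ≤ δ)
    (h : ∀ ρ ∈ Ioo ρ1 ρ2, ∃ x y : E3, ‖x - c‖ = ρ ∧ ‖y - c‖ = ρ ∧ δ ≤ |v x - v y|) :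
    δ ^ 3 * Real.log (ρ2 / ρ1) ≤ C0 * ∫ x in rg c ρ1 ρ2, ‖gradv v x‖ ^ 3 := by
  have hhc : Continuous fun z => ‖gradv v z‖ ^ 3 := (OSL_cont_gradv hv).pow 3
  have hh0 : ∀ z, 0 ≤ ‖gradv v z‖ ^ 3 := fun z => pow_nonneg (norm_nonneg _) 3
  have hrgo : IsOpen (rg c ρ1 ρ2) := by
    have hc : Continuous fun x : E3 => ‖x - c‖ := by fun_prop
    exact (isOpen_lt continuous_const hc).inter (isOpen_lt hc continuous_const)
  have hrgb : rg c ρ1 ρ2 ⊆ Metric.closedBall c ρ2 := by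
    intro x hx
    rw [Metric.mem_closedBall, dist_eq_norm]
    exact hx.2.le
  have hint : IntegrableOn (fun x => ‖gradv v x‖ ^ 3) (rg c ρ1 ρ2) :=
    (hhc.continuousOn.integrableOn_compact (isCompact_closedBall c ρ2)).mono_set hrgb
  -- the function for the spherical coordinates
  have hGm : Measurable ((rg c ρ1 ρ2).indicator fun x => ENNReal.ofReal (‖gradv v x‖ ^ 3)) :=
    hhc.measurable.ennreal_ofReal.indicator hrgo.measurableSet
  have hsph := hSPH (fun y => (rg c ρ1 ρ2).indicator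
    (fun x => ENNReal.ofReal (‖gradv v x‖ ^ 3)) (c + y)) (hGm.comp (measurable_const_add c))
  rw [lintegral_add_left_eq_self, lintegral_indicator hrgo.measurableSet,
    ← ofReal_integral_eq_lintegral_ofReal hint (Eventually.of_forall hh0)] at hsph
  -- lower bound for every radius
  have hlow : ∀ t ∈ Ioo ρ1 ρ2, ENNReal.ofReal (δ ^ 3 * t⁻¹) ≤ ENNReal.ofReal C0 *
      ∫⁻ u in Ioo (-1 : ℝ) 1, ∫⁻ θ in Ioo (0 : ℝ) (2 * Real.pi),
        ENNReal.ofReal (t ^ 2) * (rg c ρ1 ρ2).indicator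
          (fun x => ENNReal.ofReal (‖gradv v x‖ ^ 3)) (c + sph t u θ) := by
    intro t ht
    have ht0 : 0 < t := h1.trans ht.1
    obtain ⟨x, y, hx, hy, hxy⟩ := h t ht
    have hm := hMOR v c x y t hv ht0 hx hy
    have hm2 : δ ^ 3 ≤ C0 * t ^ 3 * SI c t (fun z => ‖gradv v z‖ ^ 3) :=
      (pow_le_pow_left₀ hδ hxy 3).trans hm
    have hm3 : δ ^ 3 * t⁻¹ ≤ C0 * (t ^ 2 * SI c t (fun z => ‖gradv v z‖ ^ 3)) := by
      rw [← div_eq_mul_inv, div_le_iff₀ ht0]
      calc δ ^ 3 ≤ C0 * t ^ 3 * SI c t (fun z => ‖gradv v z‖ ^ 3) := hm2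
        _ = C0 * (t ^ 2 * SI c t (fun z => ‖gradv v z‖ ^ 3)) * t := by ring
    refine (ENNReal.ofReal_le_ofReal hm3).trans ?_
    rw [ENNReal.ofReal_mul hC0.le, ENNReal.ofReal_mul (by positivity)]
    refine mul_le_mul_right ?_ _
    have hS := OSL_SI_le hhc hh0 c t
    have he : ∫⁻ u in Ioo (-1 : ℝ) 1, ∫⁻ θ in Ioo (0 : ℝ) (2 * Real.pi),
        ENNReal.ofReal (t ^ 2) * (rg c ρ1 ρ2).indicator
          (fun x => ENNReal.ofReal (‖gradv v x‖ ^ 3)) (c + sph t u θ)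
        = ENNReal.ofReal (t ^ 2) * ∫⁻ u in Ioo (-1 : ℝ) 1, ∫⁻ θ in Ioo (0 : ℝ) (2 * Real.pi),
          ENNReal.ofReal (‖gradv v (c + sph t u θ)‖ ^ 3) := by
      rw [← lintegral_const_mul' _ _ ENNReal.ofReal_ne_top]
      refine setLIntegral_congr_fun measurableSet_Ioo fun u hu => ?_
      rw [← lintegral_const_mul' _ _ ENNReal.ofReal_ne_top]
      refine lintegral_congr fun θ => ?_
      rw [indicator_of_mem]
      have : ‖c + sph t u θ - c‖ = t := by
        rw [add_sub_cancel_left]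
        exact OSL_sph_norm t u θ ht0 hu
      exact ⟨by rw [this]; exact ht.1, by rw [this]; exact ht.2⟩
    rw [he]
    exact mul_le_mul_right hS _
  have hlog : ENNReal.ofReal (δ ^ 3 * Real.log (ρ2 / ρ1))
      = ∫⁻ t in Ioo ρ1 ρ2, ENNReal.ofReal (δ ^ 3 * t⁻¹) := by
    rw [← integral_inv_of_pos h1 (h1.trans h12), intervalIntegral.integral_of_le h12.le,
      integral_Ioc_eq_integral_Ioo, ← integral_const_mul,
      ofReal_integral_eq_lintegral_ofReal]
    · have hco : ContinuousOn (fun t : ℝ => δ ^ 3 * t⁻¹) (Icc ρ1 ρ2) :=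
        continuousOn_const.mul (continuousOn_inv₀.mono fun t ht => (h1.trans_le ht.1).ne')
      exact (hco.integrableOn_compact isCompact_Icc).mono_set Ioo_subset_Icc_self
    · refine (ae_restrict_iff' measurableSet_Ioo).2 (Eventually.of_forall fun t ht => ?_)
      have : 0 < t := h1.trans ht.1
      positivity
  have hfin : ENNReal.ofReal (δ ^ 3 * Real.log (ρ2 / ρ1))
      ≤ ENNReal.ofReal (C0 * ∫ x in rg c ρ1 ρ2, ‖gradv v x‖ ^ 3) := by
    rw [hlog, ENNReal.ofReal_mul hC0.le, hsph]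
    refine (setLIntegral_mono' measurableSet_Ioo hlow).trans ?_
    rw [lintegral_const_mul' _ _ ENNReal.ofReal_ne_top]
    refine mul_le_mul_right (lintegral_mono_set ?_) _
    intro t ht
    exact h1.trans ht.1
  exact (ENNReal.ofReal_le_ofReal_iff (mul_nonneg hC0.le (integral_nonneg hh0))).1 hfin

/-- OSL: oscillation on spheres for Sobolev maps. -/
theorem p_OSL (hMOR : Stmt_MOR) (hSPH : Stmt_SPH) (hMOLL : Pool.Mart.Stmt_MOLL) : Stmt_OSL := by
  obtain ⟨C0, hC0, hM⟩ := hMOR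
  refine ⟨C0, hC0, ?_⟩
  intro Ω f A Φ c ρ1 ρ2 δ hΩ hf hW hΦ h1 h12 hsub hδ hosc
  obtain ⟨K, hKdef⟩ : ∃ K : Set E3, K = {x | ρ1 ≤ ‖x - c‖ ∧ ‖x - c‖ ≤ ρ2} := ⟨_, rfl⟩
  rw [← hKdef] at hsub
  have hKc : IsCompact K := by
    have hc : Continuous fun x : E3 => ‖x - c‖ := by fun_prop
    have hcl : IsClosed K := by
      rw [hKdef]
      exact (isClosed_le continuous_const hc).inter (isClosed_le hc continuous_const)
    refine (isCompact_closedBall c ρ2).of_isClosed_subset hcl fun x hx => ?_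
    rw [hKdef] at hx
    rw [Metric.mem_closedBall, dist_eq_norm]
    exact hx.2
  have hrgo : IsOpen (rg c ρ1 ρ2) := by
    have hc : Continuous fun x : E3 => ‖x - c‖ := by fun_prop
    exact (isOpen_lt continuous_const hc).inter (isOpen_lt hc continuous_const)
  have hrgK : rg c ρ1 ρ2 ⊆ K := by
    intro x hx
    rw [hKdef]
    exact ⟨hx.1.le, hx.2.le⟩
  have hfK : ContinuousOn f K := hf.mono hsub
  have hA3 := hW.loc K hKc hsub
  have hPA : IntegrableOn (fun x => opn (A x) ^ 3) K :=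
    (stmt_PIOI' Ω f A hΩ hf hW K hKc hsub).2.1
  have hgΦ : Continuous fun z => ‖gradv Φ z‖ ^ 3 := (OSL_cont_gradv hΦ).pow 3
  have hcomb : ∀ x, (opn (A x) * ‖gradv Φ (f x)‖) ^ 3 = opn (A x) ^ 3 * ‖gradv Φ (f x)‖ ^ 3 :=
    fun x => mul_pow _ _ _
  have hintK : IntegrableOn (fun x => opn (A x) ^ 3 * ‖gradv Φ (f x)‖ ^ 3) K :=
    hPA.mul_continuousOn (hgΦ.comp_continuousOn hfK) hKc
  simp only [hcomb]
  refine ⟨hintK.mono_set hrgK, ?_⟩
  -- the approximating sequence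
  obtain ⟨g, hgs, hgu, hgl⟩ := hMOLL Ω f A hΩ hf hW K hKc hsub
  obtain ⟨R, hR⟩ := hKc.exists_bound_of_continuousOn hfK
  have hu := Metric.tendstoUniformlyOn_iff.1 hgu
  obtain ⟨N0, hN0⟩ := eventually_atTop.1 (hu 1 one_pos)
  have hG1 : ∀ n, ∀ x ∈ K, ‖g (n + N0) x‖ ≤ R + 1 := by
    intro n x hx
    have h2 := hN0 (n + N0) (Nat.le_add_left _ _) x hx
    rw [dist_comm, dist_eq_norm] at h2
    have h3 := hR x hx
    have h4 : g (n + N0) x = (g (n + N0) x - f x) + f x := by abel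
    rw [h4]
    refine (norm_add_le _ _).trans ?_
    linarith
  have hGl : ∀ i j, Tendsto (fun n => ∫ x in K, |jac (g (n + N0)) x i j - A x i j| ^ 3) atTop
      (𝓝 0) := fun i j => (hgl i j).comp (tendsto_add_atTop_nat N0)
  have hGu : ∀ ε > 0, ∀ᶠ n in atTop, ∀ x ∈ K, dist (f x) (g (n + N0) x) < ε := fun ε hε =>
    (tendsto_add_atTop_nat N0).eventually (hu ε hε)
  -- uniform convergence of `Φ ∘ g`
  have hΦu : ∀ η > 0, ∀ᶠ n in atTop, ∀ x ∈ K, |Φ (g (n + N0) x) - Φ (f x)| < η := by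
    intro η hη
    have h2 := (isCompact_closedBall (0 : E3) (R + 1)).uniformContinuousOn_of_continuous
      hΦ.continuous.continuousOn
    rw [Metric.uniformContinuousOn_iff] at h2
    obtain ⟨τ, hτ, h3⟩ := h2 η hη
    filter_upwards [hGu τ hτ] with n hn x hx
    rw [← Real.dist_eq]
    refine h3 _ ?_ _ ?_ ?_
    · rw [mem_closedBall_zero_iff]
      exact hG1 n x hx
    · rw [mem_closedBall_zero_iff]
      have := hR x hx
      linarith
    · rw [dist_comm]
      exact hn x hx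
  -- convergence of the energies
  have hint1 : ∀ n, IntegrableOn (fun x => OSL_P (jac (g (n + N0)) x)) K := by
    intro n
    have hc : Continuous fun x => OSL_P (jac (g (n + N0)) x) := by
      have h2 : Continuous fun x => fderiv ℝ (g (n + N0)) x :=
        ((hgs (n + N0)).of_le (WithTop.coe_le_coe.2 (le_top : (1 : ℕ∞) ≤ ⊤))).continuous_fderiv
          (by norm_num)
      unfold OSL_P
      have h3 : (fun x => opn (jac (g (n + N0)) x)) = fun x => ‖fderiv ℝ (g (n + N0)) x‖ := by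
        funext x
        rw [PIOI42_.opn_eq, ← OSL_fderiv_jac]
      have h4 : Continuous fun x => opn (jac (g (n + N0)) x) := by
        rw [h3]
        exact h2.norm
      exact (h4.pow 3).div_const _
    exact hc.continuousOn.integrableOn_compact hKc
  have hint2 : IntegrableOn (fun x => OSL_P (A x)) K := hPA.div_const _
  have hl1 := PIOW_.poly_lim hKc (G := fun n => g (n + N0)) (fun n => hgs (n + N0)) hA3 hGl
    (P := OSL_P) OSL_P_lip hint1 hint2
  obtain ⟨M, hM'⟩ : ∃ M, ∀ z ∈ Metric.closedBall (0 : E3) (R + 1), ‖gradv Φ z‖ ^ 3 ≤ M := by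
    obtain ⟨M, hM⟩ := (isCompact_closedBall (0 : E3) (R + 1)).exists_bound_of_continuousOn
      hgΦ.continuousOn
    exact ⟨M, fun z hz => (le_abs_self _).trans (hM z hz)⟩
  have hl2 : Tendsto (fun n => ∫ x in K, OSL_P (jac (g (n + N0)) x) *
      (rg c ρ1 ρ2).indicator (fun x => ‖gradv Φ (g (n + N0) x)‖ ^ 3) x) atTop
      (𝓝 (∫ x in K, OSL_P (A x) *
        (rg c ρ1 ρ2).indicator (fun x => ‖gradv Φ (f x)‖ ^ 3) x)) := by
    refine PIOW_.lim (M := M) hint1 hint2 hl1 (fun n => ?_) (fun n => ?_) ?_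
    · have hc : Continuous fun x => ‖gradv Φ (g (n + N0) x)‖ ^ 3 :=
        hgΦ.comp (hgs (n + N0)).continuous
      exact (hc.aestronglyMeasurable).indicator hrgo.measurableSet
    · refine (ae_restrict_iff' hKc.isClosed.measurableSet).2 (Eventually.of_forall fun x hx => ?_)
      have h2 := hM' _ (mem_closedBall_zero_iff.2 (hG1 n x hx))
      by_cases hx2 : x ∈ rg c ρ1 ρ2
      · rw [indicator_of_mem hx2, abs_of_nonneg (pow_nonneg (norm_nonneg _) 3)]
        exact h2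
      · rw [indicator_of_notMem hx2, abs_zero]
        exact (pow_nonneg (norm_nonneg _) 3).trans h2
    · refine (ae_restrict_iff' hKc.isClosed.measurableSet).2 (Eventually.of_forall fun x hx => ?_)
      by_cases hx2 : x ∈ rg c ρ1 ρ2
      · simp only [indicator_of_mem hx2]
        have h2 : Tendsto (fun n => g (n + N0) x) atTop (𝓝 (f x)) := by
          rw [Metric.tendsto_nhds]
          intro ε hε
          filter_upwards [hGu ε hε] with n hn
          rw [dist_comm]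
          exact hn x hx
        exact (hgΦ.tendsto (f x)).comp h2
      · simp only [indicator_of_notMem hx2]
        exact tendsto_const_nhds
  have hconv : ∀ (P Q : E3 → ℝ), ∫ x in K, P x * (rg c ρ1 ρ2).indicator Q x
      = ∫ x in rg c ρ1 ρ2, P x * Q x := by
    intro P Q
    have h2 : ∀ x, P x * (rg c ρ1 ρ2).indicator Q x
        = (rg c ρ1 ρ2).indicator (fun x => P x * Q x) x := by
      intro x
      by_cases hx : x ∈ rg c ρ1 ρ2
      · rw [indicator_of_mem hx, indicator_of_mem hx]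
      · rw [indicator_of_notMem hx, indicator_of_notMem hx, mul_zero]
    simp only [h2]
    rw [setIntegral_indicator hrgo.measurableSet, inter_eq_self_of_subset_right hrgK]
  simp only [hconv] at hl2
  have h81 : ∀ (B : M3) (q : ℝ), OSL_P B * q = 81⁻¹ * (opn B ^ 3 * q) := by
    intro B q
    unfold OSL_P
    ring
  simp only [h81, integral_const_mul] at hl2
  have hl3 : Tendsto (fun n => ∫ x in rg c ρ1 ρ2, opn (jac (g (n + N0)) x) ^ 3 *
      ‖gradv Φ (g (n + N0) x)‖ ^ 3) atTop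
      (𝓝 (∫ x in rg c ρ1 ρ2, opn (A x) ^ 3 * ‖gradv Φ (f x)‖ ^ 3)) := by
    have h2 := hl2.const_mul 81
    simp only [← mul_assoc] at h2
    norm_num at h2
    simpa only [← mul_assoc] using h2
  -- the inequality for the approximating maps
  have hineq : ∀ η > 0, (max (δ - 2 * η) 0) ^ 3 * Real.log (ρ2 / ρ1)
      ≤ C0 * ∫ x in rg c ρ1 ρ2, opn (A x) ^ 3 * ‖gradv Φ (f x)‖ ^ 3 := by
    intro η hη
    refine ge_of_tendsto (hl3.const_mul C0) ?_
    filter_upwards [hΦu η hη] with n hn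
    have hv : ContDiff ℝ 1 fun x => Φ (g (n + N0) x) :=
      hΦ.comp ((hgs (n + N0)).of_le (WithTop.coe_le_coe.2 (le_top : (1 : ℕ∞) ≤ ⊤)))
    have h2 := OSL_smooth hC0 hM hSPH hv h1 h12 (le_max_right (δ - 2 * η) 0)
      (fun ρ hρ => by
        obtain ⟨x, y, hx, hy, hxy⟩ := hosc ρ hρ
        have hxK : x ∈ K := by
          rw [hKdef]
          exact ⟨by rw [hx]; exact hρ.1.le, by rw [hx]; exact hρ.2.le⟩
        have hyK : y ∈ K := by
          rw [hKdef]
          exact ⟨by rw [hy]; exact hρ.1.le, by rw [hy]; exact hρ.2.le⟩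
        refine ⟨x, y, hx, hy, max_le ?_ (abs_nonneg _)⟩
        have h3 := abs_lt.1 (hn x hxK)
        have h4 := abs_lt.1 (hn y hyK)
        have h5 : |Φ (f x) - Φ (f y)| ≤ |Φ (g (n + N0) x) - Φ (g (n + N0) y)| + 2 * η := by
          rw [abs_le]
          have h6 := le_abs_self (Φ (g (n + N0) x) - Φ (g (n + N0) y))
          have h7 := neg_abs_le (Φ (g (n + N0) x) - Φ (g (n + N0) y))
          constructor <;> linarith [h3.1, h3.2, h4.1, h4.2]
        linarith)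
    refine h2.trans (mul_le_mul_of_nonneg_left ?_ hC0.le)
    refine setIntegral_mono_on ?_ ?_ hrgo.measurableSet fun x _ => ?_
    · exact (((OSL_cont_gradv hv).pow 3).continuousOn.integrableOn_compact hKc).mono_set hrgK
    · have h3a : IntegrableOn (fun x => 81 * OSL_P (jac (g (n + N0)) x)) K :=
        (hint1 n).const_mul 81
      have h3 := (h3a.mul_continuousOn
        (hgΦ.comp (hgs (n + N0)).continuous).continuousOn hKc).mono_set hrgK
      refine h3.congr (Eventually.of_forall fun x => ?_)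
      simp only [OSL_P, Function.comp]
      ring
    · rw [← mul_pow]
      exact pow_le_pow_left₀ (norm_nonneg _) (OSL_chain (hgs (n + N0)) hΦ x) 3
  have hlim : Tendsto (fun η : ℝ => (max (δ - 2 * η) 0) ^ 3 * Real.log (ρ2 / ρ1)) (𝓝[>] 0)
      (𝓝 ((max (δ - 2 * 0) 0) ^ 3 * Real.log (ρ2 / ρ1))) := by
    have hc : Continuous fun η : ℝ => (max (δ - 2 * η) 0) ^ 3 * Real.log (ρ2 / ρ1) := by
      fun_prop
    exact (hc.tendsto 0).mono_left nhdsWithin_le_nhds
  rw [mul_zero, sub_zero, max_eq_left hδ] at hlim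
  exact le_of_tendsto hlim (by
    filter_upwards [self_mem_nhdsWithin] with η hη
    exact hineq η hη)

end Pool.Flat
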