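import Pool.Agent.Work.MP_680515_fl.Iface3

/-!
Block PKF: the package of all scales along the branch curve.
-/

open MeasureTheory Set Filter Topology

namespace Pool.Flat

open Pool.Mart

/-- linearity up to the factor 64 -/
theorem PKF_line (hLINP : Stmt_LINP) (ε : ℝ) (γ : ℝ → E3) (h0 : 0 ≤ ε) (h1 : ε ≤ 1 / 1000)
    (hγ : NearLin ε γ 2 1) (a σ s : ℝ) (ha : |a| ≤ 1 / 5) (hσ : 0 < σ) (hσ1 : σ ≤ 1 / 100) (hs : |s| ≤ 64) :
    0 < ‖cv γ a σ‖ ∧ ‖cv γ a (s * σ) - s • cv γ a σ‖ ≤ 23000 * ε * ‖cv γ a σ‖ := by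
  have haa := abs_le.1 ha
  have hσa : |σ| = σ := abs_of_pos hσ
  have hsσ : |s * σ| ≤ 64 / 100 := by
    rw [abs_mul, hσa]
    have := abs_nonneg s
    nlinarith
  have hsσ' := abs_le.1 hsσ
  have hA : a ∈ Icc (-2 : ℝ) 2 := ⟨by linarith, by linarith⟩
  have hAσ : a + σ ∈ Icc (-2 : ℝ) 2 := ⟨by linarith, by linarith⟩
  have hAs : a + s * σ ∈ Icc (-2 : ℝ) 2 := ⟨by linarith, by linarith⟩
  obtain ⟨p1, p2⟩ := hLINP ε γ h0 h1 hγ a hA σ hσ.ne' (by rw [hσa]; linarith) hAσ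
  refine ⟨p1, ?_⟩
  rcases le_or_gt |s| 1 with hs1 | hs1
  · have h2 := p2 (s * σ) (by rw [abs_mul]; exact mul_le_of_le_one_left (abs_nonneg σ) hs1) hAs
    rw [mul_div_assoc, div_self hσ.ne', mul_one] at h2
    have h3 : 4 * ε * ‖cv γ a σ‖ ≤ 23000 * ε * ‖cv γ a σ‖ := by
      apply mul_le_mul_of_nonneg_right _ p1.le
      linarith
    exact h2.trans h3
  · have hs0 : s ≠ 0 := by
      rintro rfl
      rw [abs_zero] at hs1
      linarith
    have hne : s * σ ≠ 0 := mul_ne_zero hs0 hσ.ne'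
    obtain ⟨q1, q2⟩ := hLINP ε γ h0 h1 hγ a hA (s * σ) hne (by linarith) hAs
    have h2 := q2 σ (by rw [abs_mul]; exact le_mul_of_one_le_left (abs_nonneg σ) hs1.le) hAσ
    have e1 : s • (cv γ a σ - (σ / (s * σ)) • cv γ a (s * σ)) = s • cv γ a σ - cv γ a (s * σ) := by
      rw [smul_sub, smul_smul]
      have h3 : s * (σ / (s * σ)) = 1 := by
        field_simp
      rw [h3, one_smul]
    have h3 : ‖s • cv γ a σ - cv γ a (s * σ)‖ ≤ 64 * (4 * ε * ‖cv γ a (s * σ)‖) := by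
      rw [← e1, norm_smul, Real.norm_eq_abs]
      exact mul_le_mul hs h2 (norm_nonneg _) (by norm_num)
    have h4 : ‖cv γ a (s * σ)‖ ≤ 64 * ‖cv γ a σ‖ + ‖s • cv γ a σ - cv γ a (s * σ)‖ := by
      have h5 : cv γ a (s * σ) = s • cv γ a σ - (s • cv γ a σ - cv γ a (s * σ)) := by
        rw [sub_sub_cancel]
      calc ‖cv γ a (s * σ)‖ = ‖s • cv γ a σ - (s • cv γ a σ - cv γ a (s * σ))‖ := by rw [← h5]
        _ ≤ ‖s • cv γ a σ‖ + ‖s • cv γ a σ - cv γ a (s * σ)‖ := norm_sub_le _ _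
        _ ≤ _ := by
          rw [norm_smul, Real.norm_eq_abs]
          have := mul_le_mul_of_nonneg_right hs p1.le
          linarith
    have h6 : ε * ‖cv γ a (s * σ)‖ ≤ 1 / 1000 * ‖cv γ a (s * σ)‖ :=
      mul_le_mul_of_nonneg_right h1 q1.le
    have h7 : ‖cv γ a (s * σ)‖ ≤ 88 * ‖cv γ a σ‖ := by nlinarith
    have h8 : ε * ‖cv γ a (s * σ)‖ ≤ ε * (88 * ‖cv γ a σ‖) := mul_le_mul_of_nonneg_left h7 h0
    have h9 : 0 ≤ ε * ‖cv γ a σ‖ := mul_nonneg h0 p1.le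
    rw [norm_sub_rev]
    nlinarith

theorem PKF_sc (n : ℕ) : 0 < sc n ∧ sc n ≤ 1 := by
  unfold sc
  exact ⟨by positivity, pow_le_one₀ (by norm_num) (by norm_num)⟩

theorem p_PKF (hCLO : Stmt_CLO) (hLINP : Stmt_LINP) (hFRM : Stmt_FRM) : Stmt_PKF := by
  intro H ε0 hH hε0
  obtain ⟨εc, δ1, c1, c2, c3, c4, c5⟩ := hCLO H ε0 hH hε0
  refine ⟨min εc (ε0 / 40000), lt_min c1 (by positivity), ?_⟩
  intro r0 Ω S f A γ hT
  set ε := min εc (ε0 / 40000) with hε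
  have e0 : 0 ≤ ε := (lt_min c1 (by positivity)).le
  have e1 : ε ≤ εc := min_le_left _ _
  have e2 : ε ≤ ε0 / 40000 := min_le_right _ _
  have e3' : ε ≤ 1 / 1000 := e1.trans c2
  have huc := isCompact_Icc.uniformContinuousOn_of_continuous hT.gc
  rw [Metric.uniformContinuousOn_iff] at huc
  obtain ⟨d, d0, hd⟩ := huc (δ1 * r0) (mul_pos c3 hT.rpos)
  set κ := min (1 / 100) (d / 2) with hκ
  have k0 : 0 < κ := lt_min (by norm_num) (by linarith)
  have k1 : κ ≤ 1 / 100 := min_le_left _ _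
  have k2 : κ ≤ d / 2 := min_le_right _ _
  have hsmall : ∀ a s : ℝ, |a| ≤ 1 / 5 → |s| ≤ κ → ‖cv γ a s‖ ≤ δ1 * r0 := by
    intro a s ha hs
    have h1 := abs_le.1 ha
    have h2 := abs_le.1 hs
    have h3 := hd (a + s) ⟨by linarith, by linarith⟩ a ⟨by linarith, by linarith⟩ (by
      rw [Real.dist_eq, add_sub_cancel_left]
      linarith)
    rw [dist_eq_norm] at h3
    exact h3.le
  have hka : ∀ t ∈ Icc (-20 : ℝ) 20, |κ * t| ≤ 1 / 5 := by
    intro t ht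
    rw [abs_mul, abs_of_pos k0]
    have h1 : |t| ≤ 20 := abs_le.2 ht
    have := abs_nonneg t
    nlinarith
  have hks : ∀ n : ℕ, 0 < κ * sc n ∧ κ * sc n ≤ κ := by
    intro n
    obtain ⟨s1, s2⟩ := PKF_sc n
    exact ⟨mul_pos k0 s1, mul_le_of_le_one_right k0.le s2⟩
  have key : ∀ (t : ℝ) (n : ℕ), ∃ O O' : M3, t ∈ Icc (-20 : ℝ) 20 →
      O ∈ Matrix.specialOrthogonalGroup (Fin 3) ℝ ∧ O' ∈ Matrix.specialOrthogonalGroup (Fin 3) ℝ ∧
      0 < ‖cv γ (κ * t) (κ * sc n)‖ ∧ 0 < ‖f (γ (κ * t + κ * sc n)) - f (γ (κ * t))‖ ∧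
      cv γ (κ * t) (κ * sc n) = ‖cv γ (κ * t) (κ * sc n)‖ • act O e3 ∧
      f (γ (κ * t + κ * sc n)) - f (γ (κ * t)) =
        ‖f (γ (κ * t + κ * sc n)) - f (γ (κ * t))‖ • act O' e3 ∧
      ∀ X ∈ Metric.ball (0 : E3) 64,
        ‖f (γ (κ * t) + ‖cv γ (κ * t) (κ * sc n)‖ • act O X) - f (γ (κ * t))
            - ‖f (γ (κ * t + κ * sc n)) - f (γ (κ * t))‖ • act O' (wind X)‖
          ≤ ε0 * ‖f (γ (κ * t + κ * sc n)) - f (γ (κ * t))‖ := by
    intro t n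
    by_cases ht : t ∈ Icc (-20 : ℝ) 20
    · have h1 := hka t ht
      have h1' := abs_le.1 h1
      obtain ⟨s1, s2⟩ := hks n
      have h2 := (PKF_line hLINP ε γ e0 e3' hT.lin (κ * t) (κ * sc n) 0 h1 s1 (s2.trans k1)
        (by norm_num)).1
      obtain ⟨O, hO1, hO2⟩ := hFRM (cv γ (κ * t) (κ * sc n)) (norm_pos_iff.1 h2)
      have habs : |κ * sc n| = κ * sc n := abs_of_pos s1
      obtain ⟨hp, O', hO'1, hO'2, hcl⟩ := c5 ε r0 Ω S f A γ e0 e1 hT (κ * t)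
        ⟨by linarith, by linarith⟩ (κ * sc n) s1.ne' (by rw [habs]; linarith)
        ⟨by linarith, by linarith⟩ (hsmall _ _ h1 (by rw [habs]; exact s2)) O hO1 hO2
      exact ⟨O, O', fun _ => ⟨hO1, hO'1, h2, hp, hO2, hO'2, hcl⟩⟩
    · exact ⟨0, 0, fun h => absurd h ht⟩
  choose O O' hOO using key
  have hlen : ∀ (t : ℝ) (n : ℕ), len (fun t => γ (κ * t)) t n = ‖cv γ (κ * t) (κ * sc n)‖ := by
    intro t n
    have h : κ * (t + sc n) = κ * t + κ * sc n := mul_add _ _ _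
    show ‖γ (κ * (t + sc n)) - γ (κ * t)‖ = _
    rw [h]
    rfl
  have hlen' : ∀ (t : ℝ) (n : ℕ), len (f ∘ fun t => γ (κ * t)) t n =
      ‖f (γ (κ * t + κ * sc n)) - f (γ (κ * t))‖ := by
    intro t n
    show ‖f (γ (κ * (t + sc n))) - f (γ (κ * t))‖ = _
    rw [mul_add]
  refine ⟨fun t => γ (κ * t), O, O', ?_⟩
  constructor
  · intro t ht n
    rw [hlen]
    exact (hOO t n ht).2.2.1
  · intro t ht n
    rw [hlen']
    exact (hOO t n ht).2.2.2.1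
  · intro t ht n
    exact (hOO t n ht).1
  · intro t ht n
    exact (hOO t n ht).2.1
  · intro t ht n
    rw [hlen]
    have h1 := (hOO t n ht).2.2.2.2.1
    rw [← h1]
    show γ (κ * (t + sc n)) - γ (κ * t) = _
    rw [mul_add]
    rfl
  · intro t ht n
    rw [hlen']
    have h1 := (hOO t n ht).2.2.2.2.2.1
    rw [← h1]
    show f (γ (κ * (t + sc n))) - f (γ (κ * t)) = _
    rw [mul_add]
  · intro t ht n
    rw [hlen]
    have h1 := hka t ht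
    have h1' := abs_le.1 h1
    obtain ⟨s1, s2⟩ := hks n
    have h2 := hsmall (κ * t) (κ * sc n) h1 (by rw [abs_of_pos s1]; exact s2)
    refine subset_trans ?_ (hT.sub (κ * t) ⟨by linarith, by linarith⟩)
    refine Metric.ball_subset_closedBall.trans (Metric.closedBall_subset_closedBall ?_)
    have h3 : δ1 * r0 ≤ 1 / 8 * r0 := mul_le_mul_of_nonneg_right c4 hT.rpos.le
    linarith
  · intro t ht n X hX
    rw [hlen, hlen']
    exact (hOO t n ht).2.2.2.2.2.2 X hX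
  · intro t ht n s hs hts
    rw [hlen]
    have h1 := (hOO t n ht).2.2.2.2.1
    obtain ⟨s1, s2⟩ := hks n
    obtain ⟨l1, l2⟩ := PKF_line hLINP ε γ e0 e3' hT.lin (κ * t) (κ * sc n) s (hka t ht) s1 (s2.trans k1) hs
    have h4 : (s * ‖cv γ (κ * t) (κ * sc n)‖) • act (O t n) e3 = s • cv γ (κ * t) (κ * sc n) := by
      rw [← smul_smul, ← h1]
    have h5 : γ (κ * (t + s * sc n)) - γ (κ * t) = cv γ (κ * t) (s * (κ * sc n)) := by
      unfold cv
      congr 2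
      ring
    show ‖γ (κ * (t + s * sc n)) - γ (κ * t) - (s * ‖cv γ (κ * t) (κ * sc n)‖) • act (O t n) e3‖ ≤ _
    rw [h4, h5]
    refine l2.trans (mul_le_mul_of_nonneg_right ?_ l1.le)
    linarith

end Pool.Flat
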