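import Pool.Agent.Work.MP_680515_fl.Iface1

/-! # Block PKG: packing in a ball -/

open MeasureTheory Set Filter Topology

namespace Pool.Flat

open Pool.Mart

theorem p_PKG : Stmt_PKG := by
  intro R τ hτ
  obtain ⟨t, ht, hc⟩ := Metric.totallyBounded_iff.1
    (isCompact_closedBall (0 : E3) R).totallyBounded (τ / 3) (by linarith)
  refine ⟨ht.toFinset.card, fun n z hz hsep => ?_⟩
  have h1 : ∀ i, ∃ y ∈ t, dist (z i) y < τ / 3 := by
    intro i
    have h2 : z i ∈ ⋃ y ∈ t, Metric.ball y (τ / 3) :=
      hc (by rw [mem_closedBall_zero_iff]; exact hz i)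
    simp only [mem_iUnion, Metric.mem_ball, exists_prop] at h2
    exact h2
  choose y hy hd using h1
  have hinj : Function.Injective y := by
    intro i j hij
    by_contra hne
    have h3 := hsep i j hne
    rw [← dist_eq_norm] at h3
    have h4 := dist_triangle_right (z i) (z j) (y i)
    have h5 := hd i
    have h6 := hd j
    rw [← hij] at h6
    linarith
  have h7 := Finset.card_le_card_of_injOn (s := (Finset.univ : Finset (Fin n)))
    (t := ht.toFinset) y (fun i _ => by simpa using hy i) (hinj.injOn)
  simpa using h7

end Pool.Flat
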