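import Pool.Agent.Work.MP_680515_fl.Iface4

/-! # Block PMN: mean differentiability -/

open MeasureTheory Set Filter Topology

namespace Pool.Flat

open Pool.Mart

theorem PMN_map (x : E3) {s : ℝ} (hs : 0 < s) :
    Measure.map (fun y : E3 => x + s • (y - x)) volume = ENNReal.ofReal (s ^ 3)⁻¹ • volume := by
  have h1 : (fun y : E3 => x + s • (y - x)) =
      (fun y : E3 => x + y) ∘ (fun y : E3 => s • y) ∘ (fun y : E3 => y - x) := rfl
  rw [h1, ← Measure.map_map (by fun_prop) (by fun_prop), ← Measure.map_map (by fun_prop)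
    (by fun_prop), map_sub_right_eq_self, Measure.map_addHaar_smul volume hs.ne',
    Measure.map_smul, map_add_left_eq_self]
  have h2 : Module.finrank ℝ E3 = 3 := by simp
  rw [h2, abs_of_pos (by positivity)]

theorem PMN_cov (F : E3 → ENNReal) (hF : Measurable F) (x : E3) (r : ℝ) {s : ℝ} (hs : 0 < s) :
    ∫⁻ y in Metric.ball x r, F (x + s • (y - x)) =
      ENNReal.ofReal (s ^ 3)⁻¹ * ∫⁻ z in Metric.ball x (s * r), F z := by
  have h1 : (fun y : E3 => x + s • (y - x)) ⁻¹' (Metric.ball x (s * r)) = Metric.ball x r := by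
    ext y
    rw [mem_preimage, Metric.mem_ball, Metric.mem_ball, dist_eq_norm, dist_eq_norm,
      add_sub_cancel_left, norm_smul, Real.norm_eq_abs, abs_of_pos hs, mul_lt_mul_iff_right₀ hs]
  rw [← h1, ← setLIntegral_map measurableSet_ball hF (by fun_prop), PMN_map x hs,
    Measure.restrict_smul, lintegral_smul_measure, smul_eq_mul]

theorem PMN_smooth (h : E3 → ℝ) (hh : ContDiff ℝ 1 h) (x : E3) {r s0 M : ℝ} (hr : 0 < r)
    (hs0 : 0 < s0) (hs1 : s0 < 1) (hM0 : 0 ≤ M)
    (hM : ∀ ρ ∈ Icc (s0 * r) r, ∫⁻ z in Metric.ball x ρ, ‖fderiv ℝ h z‖ₑ ≤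
      ENNReal.ofReal (M * ρ ^ 3)) :
    ∫⁻ y in Metric.ball x r, ‖h y - h (x + s0 • (y - x))‖ₑ ≤ ENNReal.ofReal (M * r ^ 4) := by
  have hfc : Continuous (fderiv ℝ h) := hh.continuous_fderiv one_ne_zero
  have hFm : Measurable (fun z => ‖fderiv ℝ h z‖ₑ) := hfc.enorm.measurable
  have hpt : ∀ y ∈ Metric.ball x r, ‖h y - h (x + s0 • (y - x))‖ₑ ≤
      ENNReal.ofReal r * ∫⁻ s in Ioc s0 1, ‖fderiv ℝ h (x + s • (y - x))‖ₑ := by
    intro y hy
    have hder : ∀ s : ℝ, HasDerivAt (fun s : ℝ => h (x + s • (y - x)))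
        (fderiv ℝ h (x + s • (y - x)) (y - x)) s := by
      intro s
      have h1 : HasDerivAt (fun s : ℝ => x + s • (y - x)) (y - x) s := by
        have h2 := ((hasDerivAt_id s).smul_const (y - x)).const_add x
        simpa using h2
      exact ((hh.differentiable one_ne_zero).differentiableAt.hasFDerivAt).comp_hasDerivAt s h1
    have hci : Continuous (fun s : ℝ => fderiv ℝ h (x + s • (y - x)) (y - x)) :=
      (hfc.comp (by fun_prop)).clm_apply continuous_const
    have h3 := intervalIntegral.integral_eq_sub_of_hasDerivAt (a := s0) (b := 1)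
      (fun s _ => hder s) (hci.intervalIntegrable _ _)
    have h4 : x + (1 : ℝ) • (y - x) = y := by
      rw [one_smul]
      abel
    rw [h4] at h3
    rw [← h3, intervalIntegral.integral_of_le hs1.le]
    refine (enorm_integral_le_lintegral_enorm _).trans ?_
    rw [← lintegral_const_mul' _ _ ENNReal.ofReal_ne_top]
    refine lintegral_mono fun s => ?_
    have h5 : ‖fderiv ℝ h (x + s • (y - x)) (y - x)‖ₑ ≤
        ‖fderiv ℝ h (x + s • (y - x))‖ₑ * ‖y - x‖ₑ :=
      (fderiv ℝ h (x + s • (y - x))).le_opENorm (y - x)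
    refine h5.trans ?_
    rw [mul_comm]
    refine mul_le_mul_left ?_ _
    rw [← ofReal_norm]
    refine ENNReal.ofReal_le_ofReal ?_
    rw [← dist_eq_norm]
    exact (Metric.mem_ball.1 hy).le
  calc ∫⁻ y in Metric.ball x r, ‖h y - h (x + s0 • (y - x))‖ₑ
      ≤ ∫⁻ y in Metric.ball x r, ENNReal.ofReal r *
          ∫⁻ s in Ioc s0 1, ‖fderiv ℝ h (x + s • (y - x))‖ₑ :=
        setLIntegral_mono' measurableSet_ball hpt
    _ = ENNReal.ofReal r * ∫⁻ y in Metric.ball x r,
          ∫⁻ s in Ioc s0 1, ‖fderiv ℝ h (x + s • (y - x))‖ₑ :=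
        lintegral_const_mul' _ _ ENNReal.ofReal_ne_top
    _ = ENNReal.ofReal r * ∫⁻ s in Ioc s0 1, ∫⁻ y in Metric.ball x r,
          ‖fderiv ℝ h (x + s • (y - x))‖ₑ := by
        rw [lintegral_lintegral_swap]
        refine Measurable.aemeasurable ?_
        have h6 : Continuous (fun q : E3 × ℝ => fderiv ℝ h (x + q.2 • (q.1 - x))) :=
          hfc.comp (by fun_prop)
        exact h6.enorm.measurable
    _ ≤ ENNReal.ofReal r * ∫⁻ s in Ioc s0 1, ENNReal.ofReal (M * r ^ 3) := by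
        refine mul_le_mul_right (setLIntegral_mono' measurableSet_Ioc fun s hs => ?_) _
        have hsp : 0 < s := hs0.trans hs.1
        rw [PMN_cov (fun z => ‖fderiv ℝ h z‖ₑ) hFm x r hsp]
        refine (mul_le_mul_right (hM (s * r) ⟨mul_le_mul_of_nonneg_right hs.1.le hr.le,
          mul_le_of_le_one_left hr.le hs.2⟩) _).trans ?_
        rw [← ENNReal.ofReal_mul (by positivity)]
        refine ENNReal.ofReal_le_ofReal (le_of_eq ?_)
        field_simp
    _ ≤ ENNReal.ofReal r * ENNReal.ofReal (M * r ^ 3) := by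
        refine mul_le_mul_right ?_ _
        rw [setLIntegral_const, Real.volume_Ioc]
        refine mul_le_of_le_one_right bot_le ?_
        rw [← ENNReal.ofReal_one]
        exact ENNReal.ofReal_le_ofReal (by linarith)
    _ = ENNReal.ofReal (M * r ^ 4) := by
        rw [← ENNReal.ofReal_mul hr.le]
        congr 1
        ring

theorem PMN_cube {t τ : ℝ} (ht : 0 ≤ t) (hτ : 0 < τ) : t ≤ τ + (τ ^ 2)⁻¹ * t ^ 3 := by
  by_cases h : t ≤ τ
  · have : 0 ≤ (τ ^ 2)⁻¹ * t ^ 3 := by positivity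
    linarith
  · push Not at h
    have h1 : t * 1 ≤ t * ((τ ^ 2)⁻¹ * t ^ 2) := by
      refine mul_le_mul_of_nonneg_left ?_ ht
      rw [← div_eq_inv_mul, one_le_div (by positivity)]
      nlinarith
    calc t = t * 1 := (mul_one t).symm
      _ ≤ t * ((τ ^ 2)⁻¹ * t ^ 2) := h1
      _ = (τ ^ 2)⁻¹ * t ^ 3 := by ring
      _ ≤ τ + (τ ^ 2)⁻¹ * t ^ 3 := by linarith

theorem PMN_L1 {μ : Measure E3} [IsFiniteMeasure μ] {w : E3 → ℝ} (hw1 : Integrable w μ)
    (hw3 : Integrable (fun x => |w x| ^ 3) μ) {τ : ℝ} (hτ : 0 < τ) :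
    ∫ x, |w x| ∂μ ≤ τ * μ.real univ + (τ ^ 2)⁻¹ * ∫ x, |w x| ^ 3 ∂μ := by
  calc ∫ x, |w x| ∂μ ≤ ∫ x, (τ + (τ ^ 2)⁻¹ * |w x| ^ 3) ∂μ :=
        integral_mono hw1.abs ((integrable_const τ).add (hw3.const_mul _))
          (fun x => PMN_cube (abs_nonneg _) hτ)
    _ = τ * μ.real univ + (τ ^ 2)⁻¹ * ∫ x, |w x| ^ 3 ∂μ := by
        rw [integral_add (integrable_const τ) (hw3.const_mul _), integral_const,
          integral_const_mul, smul_eq_mul, mul_comm τ]

theorem PMN_int {μ : Measure E3} [IsFiniteMeasure μ] {w : E3 → ℝ} (hw : MemLp w 3 μ) :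
    Integrable w μ ∧ Integrable (fun x => |w x| ^ 3) μ := by
  refine ⟨hw.integrable (by norm_num), ?_⟩
  have h := MemLp.integrable_norm_pow (p := 3) (f := w) (μ := μ) (by exact_mod_cast hw)
    (by norm_num)
  simpa [Real.norm_eq_abs] using h

theorem PMN_opn (L : E3 →L[ℝ] ℝ) : ‖L‖ ≤ ∑ j : Fin 3, |L (EuclideanSpace.single j 1)| := by
  refine L.opNorm_le_bound (Finset.sum_nonneg fun j _ => abs_nonneg _) fun v => ?_
  have hv : v = ∑ j : Fin 3, v j • EuclideanSpace.single j (1 : ℝ) := by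
    ext i
    fin_cases i <;> simp [Fin.sum_univ_three]
  have h1 : L v = ∑ j : Fin 3, v j * L (EuclideanSpace.single j 1) := by
    conv_lhs => rw [hv]
    rw [map_sum]
    refine Finset.sum_congr rfl fun j _ => ?_
    rw [map_smul, smul_eq_mul]
  rw [h1, Real.norm_eq_abs, Finset.sum_mul]
  refine (Finset.abs_sum_le_sum_abs _ _).trans (Finset.sum_le_sum fun j _ => ?_)
  rw [abs_mul, mul_comm]
  refine mul_le_mul_of_nonneg_left ?_ (abs_nonneg _)
  have h2 := EuclideanSpace.norm_eq v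
  rw [h2]
  refine Real.le_sqrt_of_sq_le ?_
  rw [sq_abs, Fin.sum_univ_three]
  simp only [Real.norm_eq_abs, sq_abs]
  fin_cases j
  · show v 0 ^ 2 ≤ _
    nlinarith [sq_nonneg (v 1), sq_nonneg (v 2)]
  · show v 1 ^ 2 ≤ _
    nlinarith [sq_nonneg (v 0), sq_nonneg (v 2)]
  · show v 2 ^ 2 ≤ _
    nlinarith [sq_nonneg (v 1), sq_nonneg (v 0)]

theorem PMN_norm (v : E3) : ‖v‖ ≤ |v 0| + |v 1| + |v 2| := by
  rw [EuclideanSpace.norm_eq]
  refine Real.sqrt_le_iff.2 ⟨by positivity, ?_⟩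
  rw [Fin.sum_univ_three]
  simp only [Real.norm_eq_abs]
  nlinarith [abs_nonneg (v 0), abs_nonneg (v 1), abs_nonneg (v 2),
    mul_nonneg (abs_nonneg (v 0)) (abs_nonneg (v 1)),
    mul_nonneg (abs_nonneg (v 0)) (abs_nonneg (v 2)),
    mul_nonneg (abs_nonneg (v 1)) (abs_nonneg (v 2))]

theorem PMN_vol : ∃ c0 : ℝ, 0 ≤ c0 ∧ ∀ (y : E3) (ρ : ℝ), 0 ≤ ρ →
    volume.real (Metric.ball y ρ) = ρ ^ 3 * c0 ∧ volume.real (Metric.closedBall y ρ) =
      ρ ^ 3 * c0 := by
  refine ⟨volume.real (Metric.ball (0 : E3) 1), ENNReal.toReal_nonneg, fun y ρ hρ => ?_⟩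
  have h2 : Module.finrank ℝ E3 = 3 := by simp
  constructor
  · rw [Measure.real, Measure.addHaar_ball volume y hρ, ENNReal.toReal_mul, h2,
      ENNReal.toReal_ofReal (by positivity)]
    rfl
  · rw [Measure.real, Measure.addHaar_closedBall volume y hρ, ENNReal.toReal_mul, h2,
      ENNReal.toReal_ofReal (by positivity)]
    rfl

/-- Smallness in the mean of first order. -/
theorem PMN_small {A : E3 → M3} {x : E3} {B : M3} {r1 : ℝ} (hr1 : 0 < r1)
    (hW : ∀ i j, MemLp (fun y => A y i j - B i j) 3 (volume.restrict (Metric.closedBall x r1)))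
    (hleb : ∀ i j : Fin 3, Tendsto (fun r : ℝ => (r ^ 3)⁻¹ * ∫ y in Metric.ball x r,
      |A y i j - B i j| ^ 3) (𝓝[>] 0) (𝓝 0)) {η : ℝ} (hη : 0 < η) :
    ∃ r2 : ℝ, 0 < r2 ∧ r2 ≤ r1 ∧ ∀ ρ : ℝ, 0 < ρ → ρ < r2 → ∀ i j : Fin 3,
      ∫ y in Metric.ball x ρ, |A y i j - B i j| ≤ η * ρ ^ 3 := by
  obtain ⟨c0, hc0, hvol⟩ := PMN_vol
  obtain ⟨τ, hτe⟩ : ∃ τ : ℝ, τ = η / (2 * (c0 + 1)) := ⟨_, rfl⟩
  have hτ : 0 < τ := by
    rw [hτe]
    positivity
  have hτc : τ * c0 ≤ η / 2 := by
    rw [hτe, div_mul_eq_mul_div, div_le_iff₀ (by positivity)]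
    nlinarith
  have h1 : ∀ᶠ r in 𝓝[>] (0 : ℝ), ∀ i j : Fin 3, (r ^ 3)⁻¹ * ∫ y in Metric.ball x r,
      |A y i j - B i j| ^ 3 < τ ^ 2 * (η / 2) := by
    refine eventually_all.2 fun i => eventually_all.2 fun j => ?_
    exact (hleb i j).eventually_lt_const (by positivity)
  obtain ⟨u, hu, hu'⟩ := mem_nhdsGT_iff_exists_Ioo_subset.1 h1
  refine ⟨min u r1, lt_min hu hr1, min_le_right _ _, fun ρ hρ hρ2 i j => ?_⟩
  have h2 : (ρ ^ 3)⁻¹ * ∫ y in Metric.ball x ρ, |A y i j - B i j| ^ 3 < τ ^ 2 * (η / 2) :=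
    hu' ⟨hρ, hρ2.trans_le (min_le_left _ _)⟩ i j
  have hsub : Metric.ball x ρ ⊆ Metric.closedBall x r1 :=
    (Metric.ball_subset_ball (hρ2.le.trans (min_le_right _ _))).trans Metric.ball_subset_closedBall
  have hfin : IsFiniteMeasure (volume.restrict (Metric.ball x ρ)) :=
    ⟨by rw [Measure.restrict_apply_univ]; exact measure_ball_lt_top⟩
  have hm := (hW i j).mono_measure (Measure.restrict_mono hsub le_rfl)
  obtain ⟨h3, h4⟩ := PMN_int hm
  have h5 := PMN_L1 h3 h4 hτ
  rw [measureReal_restrict_apply_univ, (hvol x ρ hρ.le).1] at h5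
  refine h5.trans ?_
  have h6 : ∫ y in Metric.ball x ρ, |A y i j - B i j| ^ 3 ≤ ρ ^ 3 * (τ ^ 2 * (η / 2)) := by
    rw [← div_le_iff₀' (by positivity), div_eq_inv_mul]
    exact h2.le
  have h7 : (τ ^ 2)⁻¹ * ∫ y in Metric.ball x ρ, |A y i j - B i j| ^ 3 ≤ ρ ^ 3 * (η / 2) := by
    calc (τ ^ 2)⁻¹ * ∫ y in Metric.ball x ρ, |A y i j - B i j| ^ 3
        ≤ (τ ^ 2)⁻¹ * (ρ ^ 3 * (τ ^ 2 * (η / 2))) :=
          mul_le_mul_of_nonneg_left h6 (by positivity)
      _ = ρ ^ 3 * (η / 2) := by field_simp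
  have h8 : τ * (ρ ^ 3 * c0) ≤ ρ ^ 3 * (η / 2) := by
    calc τ * (ρ ^ 3 * c0) = ρ ^ 3 * (τ * c0) := by ring
      _ ≤ ρ ^ 3 * (η / 2) := mul_le_mul_of_nonneg_left hτc (by positivity)
  linarith

theorem PMN_mem {u : E3 → ℝ} (hu : Continuous u) {K : Set E3} (hK : IsCompact K) :
    MemLp u 3 (volume.restrict K) := by
  have hfin : IsFiniteMeasure (volume.restrict K) :=
    ⟨by rw [Measure.restrict_apply_univ]; exact hK.measure_lt_top⟩
  obtain ⟨C, hC⟩ := hK.exists_bound_of_continuousOn hu.continuousOn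
  refine MemLp.of_bound hu.aestronglyMeasurable C ?_
  filter_upwards [ae_restrict_mem hK.measurableSet] with x hx using hC x hx

/-- The estimate for one component at one radius. -/
theorem PMN_comp (hMOLL : Pool.Mart.Stmt_MOLL) {Ω : Set E3} {f : E3 → E3} {A : E3 → M3} {x : E3}
    {B : M3} (hΩ : IsOpen Ω) (hf : ContinuousOn f Ω) (hA : WeakGrad Ω f A) {r r2 η : ℝ}
    (hη : 0 < η) (hr : 0 < r) (hrr : r < r2) (hK : Metric.closedBall x r ⊆ Ω)
    (hsm : ∀ ρ : ℝ, 0 < ρ → ρ < r2 → ∀ i j : Fin 3,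
      ∫ y in Metric.ball x ρ, |A y i j - B i j| ≤ η * ρ ^ 3) (i : Fin 3) :
    ∫ y in Metric.ball x r, |(f y - f x - act B (y - x)) i| ≤ 9 * η * r ^ 4 := by
  obtain ⟨c0, hc0, hvol⟩ := PMN_vol
  obtain ⟨K, hKe⟩ : ∃ K, K = Metric.closedBall x r := ⟨_, rfl⟩
  have hKc : IsCompact K := by
    rw [hKe]
    exact isCompact_closedBall x r
  have hKm : MeasurableSet K := hKc.measurableSet
  rw [← hKe] at hK
  have hxK : x ∈ K := by
    rw [hKe]
    exact Metric.mem_closedBall_self hr.le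
  have hBK : Metric.ball x r ⊆ K := by
    rw [hKe]
    exact Metric.ball_subset_closedBall
  have hfinK : IsFiniteMeasure (volume.restrict K) :=
    ⟨by rw [Measure.restrict_apply_univ]; exact hKc.measure_lt_top⟩
  -- the linear part
  obtain ⟨b, hb⟩ : ∃ b : E3 →L[ℝ] ℝ, b = ∑ j : Fin 3, B i j • EuclideanSpace.proj j := ⟨_, rfl⟩
  have hbv : ∀ v : E3, b v = ∑ j : Fin 3, B i j * v j := fun v => by
    rw [hb]
    simp [Fin.sum_univ_three]
  have hbact : ∀ v : E3, (act B v) i = b v := fun v => by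
    rw [hbv]
    rfl
  have hbs : ∀ j : Fin 3, b (EuclideanSpace.single j 1) = B i j := fun j => by
    rw [hbv]
    fin_cases j <;> simp [Fin.sum_univ_three]
  obtain ⟨h, hh⟩ : ∃ h : E3 → ℝ, h = fun y => f y i - f x i - b (y - x) := ⟨_, rfl⟩
  have hhe : ∀ y, (f y - f x - act B (y - x)) i = h y := fun y => by
    rw [hh]
    show f y i - f x i - (act B (y - x)) i = f y i - f x i - b (y - x)
    rw [hbact]
  simp only [hhe]
  have hfi : ContinuousOn (fun z => f z i) Ω :=
    (EuclideanSpace.proj i : E3 →L[ℝ] ℝ).continuous.comp_continuousOn hf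
  have hhc : ContinuousOn h Ω := by
    rw [hh]
    exact (hfi.sub continuousOn_const).sub (by fun_prop)
  have hhx : h x = 0 := by
    rw [hh]
    simp
  obtain ⟨V, hV⟩ : ∃ V : ℝ, V = r ^ 3 * c0 := ⟨_, rfl⟩
  have hV0 : 0 ≤ V := by
    rw [hV]
    positivity
  obtain ⟨κ, hκe⟩ : ∃ κ : ℝ, κ = η * r ^ 4 / (V + 1) := ⟨_, rfl⟩
  have hκ : 0 < κ := by
    rw [hκe]
    positivity
  have hκV : κ * V ≤ η * r ^ 4 := by
    rw [hκe, div_mul_eq_mul_div, div_le_iff₀ (by positivity)]
    have : 0 ≤ η * r ^ 4 := by positivity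
    nlinarith
  obtain ⟨δ, hδ, hδ'⟩ := Metric.continuousAt_iff.1
    (hhc.continuousAt (hΩ.mem_nhds (hK hxK))) κ hκ
  obtain ⟨s0, hs0e⟩ : ∃ s0 : ℝ, s0 = min (1 / 2) (δ / (2 * r)) := ⟨_, rfl⟩
  have hs0 : 0 < s0 := by
    rw [hs0e]
    exact lt_min (by norm_num) (by positivity)
  have hs1 : s0 < 1 := by
    rw [hs0e]
    exact (min_le_left _ _).trans_lt (by norm_num)
  have hs0r : s0 * r < δ := by
    have h1 : s0 ≤ δ / (2 * r) := by
      rw [hs0e]
      exact min_le_right _ _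
    calc s0 * r ≤ δ / (2 * r) * r := mul_le_mul_of_nonneg_right h1 hr.le
      _ = δ / 2 := by field_simp
      _ < δ := by linarith
  have hy' : ∀ y ∈ Metric.ball x r, ‖x + s0 • (y - x) - x‖ ≤ s0 * r := fun y hy => by
    rw [add_sub_cancel_left, norm_smul, Real.norm_eq_abs, abs_of_pos hs0]
    refine mul_le_mul_of_nonneg_left ?_ hs0.le
    rw [← dist_eq_norm]
    exact (Metric.mem_ball.1 hy).le
  have hy'K : ∀ y ∈ Metric.ball x r, x + s0 • (y - x) ∈ K := fun y hy => by
    rw [hKe, Metric.mem_closedBall, dist_eq_norm]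
    exact (hy' y hy).trans (mul_le_of_le_one_left hr.le hs1.le)
  have hsmall : ∀ y ∈ Metric.ball x r, |h (x + s0 • (y - x))| ≤ κ := fun y hy => by
    have h1 := hδ' (x := x + s0 • (y - x)) (by
      rw [dist_eq_norm]
      exact (hy' y hy).trans_lt hs0r)
    rw [hhx, Real.dist_eq, sub_zero] at h1
    exact h1.le
  -- mollification
  obtain ⟨g, hg1, hg2, hg3⟩ := hMOLL Ω f A hΩ hf hA K hKc hK
  obtain ⟨VK, hVK⟩ : ∃ VK : ℝ, VK = volume.real K := ⟨_, rfl⟩
  have hVK0 : 0 ≤ VK := by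
    rw [hVK]
    exact ENNReal.toReal_nonneg
  obtain ⟨e, he⟩ : ∃ e : ℝ, e = η * (s0 * r) ^ 3 := ⟨_, rfl⟩
  have he0 : 0 < e := by
    rw [he]
    positivity
  obtain ⟨τ, hτe⟩ : ∃ τ : ℝ, τ = e / (2 * (VK + 1)) := ⟨_, rfl⟩
  have hτ : 0 < τ := by
    rw [hτe]
    positivity
  have hτV : τ * VK ≤ e / 2 := by
    rw [hτe, div_mul_eq_mul_div, div_le_iff₀ (by positivity)]
    nlinarith
  have hev1 := Metric.tendstoUniformlyOn_iff.1 hg2 κ hκ
  have hev2 : ∀ᶠ n in atTop, ∀ j : Fin 3,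
      ∫ y in K, |jac (g n) y i j - A y i j| ^ 3 < τ ^ 2 * (e / 2) :=
    eventually_all.2 fun j => (hg3 i j).eventually_lt_const (by positivity)
  obtain ⟨n, hn1, hn2⟩ := (hev1.and hev2).exists
  have hgc : ContDiff ℝ 1 (g n) := (hg1 n).of_le (by exact_mod_cast le_top)
  have hjc : ∀ j : Fin 3, Continuous (fun z => jac (g n) z i j) := fun j => by
    have h1 : Continuous (fun z => fderiv ℝ (g n) z (EuclideanSpace.single j 1)) :=
      (hgc.continuous_fderiv one_ne_zero).clm_apply continuous_const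
    exact (EuclideanSpace.proj i : E3 →L[ℝ] ℝ).continuous.comp h1
  have hAm : ∀ j : Fin 3, MemLp (fun y => A y i j) 3 (volume.restrict K) := fun j =>
    hA.loc K hKc hK i j
  have hL1 : ∀ j : Fin 3, ∫ y in K, |jac (g n) y i j - A y i j| ≤ e := fun j => by
    obtain ⟨h1, h2⟩ := PMN_int ((PMN_mem (hjc j) hKc).sub (hAm j))
    have h3 := PMN_L1 h1 h2 hτ
    rw [measureReal_restrict_apply_univ, ← hVK] at h3
    have h4 : (τ ^ 2)⁻¹ * ∫ y in K, |jac (g n) y i j - A y i j| ^ 3 ≤
        (τ ^ 2)⁻¹ * (τ ^ 2 * (e / 2)) :=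
      mul_le_mul_of_nonneg_left (hn2 j).le (by positivity)
    have h5 : (τ ^ 2)⁻¹ * (τ ^ 2 * (e / 2)) = e / 2 := by field_simp
    refine h3.trans ?_
    have h6 : (τ ^ 2)⁻¹ * ∫ y in K, |(fun y => jac (g n) y i j - A y i j) y| ^ 3 ≤ e / 2 := by
      rw [← h5]
      exact h4
    simp only at h6
    simp only [Pi.sub_apply]
    linarith
  obtain ⟨hn, hhn⟩ : ∃ hn : E3 → ℝ, hn = fun y => g n y i - f x i - b (y - x) := ⟨_, rfl⟩
  have hhnC : ContDiff ℝ 1 hn := by
    rw [hhn]
    have h1 : ContDiff ℝ 1 (fun y => g n y i) := contDiff_euclidean.1 hgc i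
    exact (h1.sub contDiff_const).sub (b.contDiff.comp (contDiff_id.sub contDiff_const))
  have hfd : ∀ (z : E3) (j : Fin 3), fderiv ℝ hn z (EuclideanSpace.single j 1) =
      jac (g n) z i j - B i j := fun z j => by
    have h1 : HasFDerivAt (fun y => g n y i)
        ((EuclideanSpace.proj i : E3 →L[ℝ] ℝ).comp (fderiv ℝ (g n) z)) z :=
      (EuclideanSpace.proj i : E3 →L[ℝ] ℝ).hasFDerivAt.comp z
        (hgc.differentiable one_ne_zero).differentiableAt.hasFDerivAt
    have h2 : HasFDerivAt (fun y => b (y - x)) (b.comp (ContinuousLinearMap.id ℝ E3)) z :=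
      b.hasFDerivAt.comp z ((hasFDerivAt_id z).sub_const x)
    have h3 : HasFDerivAt hn ((EuclideanSpace.proj i : E3 →L[ℝ] ℝ).comp (fderiv ℝ (g n) z) -
        b.comp (ContinuousLinearMap.id ℝ E3)) z := by
      rw [hhn]
      exact (h1.sub_const (f x i)).sub h2
    rw [h3.fderiv]
    show (fderiv ℝ (g n) z (EuclideanSpace.single j 1)) i - b (EuclideanSpace.single j 1) = _
    rw [hbs]
    rfl
  have hdist : ∀ y ∈ K, |h y - hn y| ≤ κ := fun y hy => by
    have h1 := hn1 y hy
    rw [dist_eq_norm] at h1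
    have h2 : h y - hn y = (f y - g n y) i := by
      rw [hh, hhn]
      show f y i - f x i - b (y - x) - (g n y i - f x i - b (y - x)) = f y i - g n y i
      ring
    rw [h2, ← Real.norm_eq_abs]
    exact (PiLp.norm_apply_le (f y - g n y) i).trans h1.le
  have hM : ∀ ρ ∈ Icc (s0 * r) r, ∫⁻ z in Metric.ball x ρ, ‖fderiv ℝ hn z‖ₑ ≤
      ENNReal.ofReal (6 * η * ρ ^ 3) := by
    intro ρ hρ
    have hρ0 : 0 < ρ := lt_of_lt_of_le (by positivity) hρ.1
    have hρ2 : ρ < r2 := hρ.2.trans_lt hrr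
    have hρK : Metric.ball x ρ ⊆ K := (Metric.ball_subset_ball hρ.2).trans hBK
    have hfinρ : IsFiniteMeasure (volume.restrict (Metric.ball x ρ)) :=
      ⟨by rw [Measure.restrict_apply_univ]; exact measure_ball_lt_top⟩
    have hmono : volume.restrict (Metric.ball x ρ) ≤ volume.restrict K :=
      Measure.restrict_mono hρK le_rfl
    have hi1 : ∀ j : Fin 3, Integrable (fun z => jac (g n) z i j - A z i j)
        (volume.restrict K) := fun j => (PMN_int ((PMN_mem (hjc j) hKc).sub (hAm j))).1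
    have hi2 : ∀ j : Fin 3, Integrable (fun z => A z i j - B i j)
        (volume.restrict (Metric.ball x ρ)) := fun j =>
      (((hAm j).integrable (by norm_num)).mono_measure hmono).sub (integrable_const _)
    have hi3 : ∀ j : Fin 3, Integrable (fun z => jac (g n) z i j - B i j)
        (volume.restrict (Metric.ball x ρ)) := fun j =>
      ((((PMN_mem (hjc j) hKc).integrable (by norm_num)).mono_measure hmono)).sub
        (integrable_const _)
    have hb1 : ∀ j : Fin 3, ∫ z in Metric.ball x ρ, |jac (g n) z i j - B i j| ≤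
        2 * η * ρ ^ 3 := fun j => by
      calc ∫ z in Metric.ball x ρ, |jac (g n) z i j - B i j|
          ≤ ∫ z in Metric.ball x ρ, (|jac (g n) z i j - A z i j| + |A z i j - B i j|) :=
            integral_mono (hi3 j).abs (((hi1 j).mono_measure hmono).abs.add (hi2 j).abs)
              (fun z => abs_sub_le _ _ _)
        _ = (∫ z in Metric.ball x ρ, |jac (g n) z i j - A z i j|) +
              ∫ z in Metric.ball x ρ, |A z i j - B i j| :=
            integral_add ((hi1 j).mono_measure hmono).abs (hi2 j).abs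
        _ ≤ (∫ z in K, |jac (g n) z i j - A z i j|) + η * ρ ^ 3 :=
            add_le_add (setIntegral_mono_set (hi1 j).abs
              (Eventually.of_forall fun z => abs_nonneg _) hρK.eventuallyLE)
              (hsm ρ hρ0 hρ2 i j)
        _ ≤ e + η * ρ ^ 3 := add_le_add_left (hL1 j) _
        _ ≤ 2 * η * ρ ^ 3 := by
            have h1 : e ≤ η * ρ ^ 3 := by
              rw [he]
              refine mul_le_mul_of_nonneg_left (pow_le_pow_left₀ (by positivity) hρ.1 3) hη.le
            linarith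
    calc ∫⁻ z in Metric.ball x ρ, ‖fderiv ℝ hn z‖ₑ
        ≤ ∫⁻ z in Metric.ball x ρ, ENNReal.ofReal (∑ j : Fin 3, |jac (g n) z i j - B i j|) := by
          refine lintegral_mono fun z => ?_
          rw [← ofReal_norm]
          refine ENNReal.ofReal_le_ofReal ((PMN_opn _).trans (le_of_eq ?_))
          exact Finset.sum_congr rfl fun j _ => by rw [hfd]
      _ = ENNReal.ofReal (∫ z in Metric.ball x ρ, ∑ j : Fin 3, |jac (g n) z i j - B i j|) := by
          rw [ofReal_integral_eq_lintegral_ofReal]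
          · exact integrable_finset_sum _ fun j _ => (hi3 j).abs
          · exact Eventually.of_forall fun z => Finset.sum_nonneg fun j _ => abs_nonneg _
      _ ≤ ENNReal.ofReal (6 * η * ρ ^ 3) := by
          refine ENNReal.ofReal_le_ofReal ?_
          rw [integral_finset_sum _ fun j _ => (hi3 j).abs, Fin.sum_univ_three]
          linarith [hb1 0, hb1 1, hb1 2]
  have hsmooth := PMN_smooth hn hhnC x hr hs0 hs1 (by positivity) hM
  have hcontn : Continuous (fun y => hn y - hn (x + s0 • (y - x))) :=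
    hhnC.continuous.sub (hhnC.continuous.comp (by fun_prop))
  have hint1 : ∫ y in Metric.ball x r, |hn y - hn (x + s0 • (y - x))| ≤ 6 * η * r ^ 4 := by
    have h1 := integral_norm_eq_lintegral_enorm (μ := volume.restrict (Metric.ball x r))
      (f := fun y => hn y - hn (x + s0 • (y - x))) hcontn.aestronglyMeasurable
    simp only [Real.norm_eq_abs] at h1
    rw [h1]
    exact ENNReal.toReal_le_of_le_ofReal (by positivity) hsmooth
  have hfinr : IsFiniteMeasure (volume.restrict (Metric.ball x r)) :=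
    ⟨by rw [Measure.restrict_apply_univ]; exact measure_ball_lt_top⟩
  have hi4 : Integrable (fun y => |hn y - hn (x + s0 • (y - x))|)
      (volume.restrict (Metric.ball x r)) :=
    ((hcontn.abs.continuousOn.integrableOn_compact hKc)).mono_set hBK
  have hi5 : Integrable (fun y => |h y|) (volume.restrict (Metric.ball x r)) :=
    (((hhc.mono hK).abs.integrableOn_compact hKc)).mono_set hBK
  calc ∫ y in Metric.ball x r, |h y|
      ≤ ∫ y in Metric.ball x r, (3 * κ + |hn y - hn (x + s0 • (y - x))|) := by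
        refine setIntegral_mono_on hi5 ((integrable_const _).add hi4) measurableSet_ball
          fun y hy => ?_
        have h1 := hdist y (hBK hy)
        have h2 := hdist _ (hy'K y hy)
        have h3 := hsmall y hy
        have h4 : h y = (h y - hn y) + (hn y - hn (x + s0 • (y - x))) -
            (h (x + s0 • (y - x)) - hn (x + s0 • (y - x))) + h (x + s0 • (y - x)) := by ring
        rw [h4]
        refine (abs_add_le _ _).trans ?_
        refine (add_le_add_left ((abs_sub _ _).trans (add_le_add_left (abs_add_le _ _) _)) _).trans ?_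
        linarith
    _ = 3 * κ * V + ∫ y in Metric.ball x r, |hn y - hn (x + s0 • (y - x))| := by
        rw [integral_add (integrable_const _) hi4, integral_const,
          measureReal_restrict_apply_univ, (hvol x r hr.le).1, ← hV, smul_eq_mul, mul_comm V]
    _ ≤ 9 * η * r ^ 4 := by linarith

theorem p_PMN (hMOLL : Pool.Mart.Stmt_MOLL) : Stmt_PMN := by
  intro Ω f A x B hΩ hf hA hx hleb
  obtain ⟨r1, hr1, hr1Ω⟩ := Metric.nhds_basis_closedBall.mem_iff.1 (hΩ.mem_nhds hx)
  have hfinK : IsFiniteMeasure (volume.restrict (Metric.closedBall x r1)) :=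
    ⟨by
      rw [Measure.restrict_apply_univ]
      exact (isCompact_closedBall x r1).measure_lt_top⟩
  have hW : ∀ i j, MemLp (fun y => A y i j - B i j) 3
      (volume.restrict (Metric.closedBall x r1)) := fun i j =>
    (hA.loc _ (isCompact_closedBall x r1) hr1Ω i j).sub (memLp_const _)
  rw [Metric.tendsto_nhds]
  intro ε hε
  obtain ⟨r2, hr2, hr21, hsm⟩ := PMN_small hr1 hW hleb (η := ε / 28) (by positivity)
  have hmem : Ioo (0 : ℝ) r2 ∈ 𝓝[>] (0 : ℝ) := Ioo_mem_nhdsGT hr2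
  filter_upwards [hmem] with r hr
  have hKΩ : Metric.closedBall x r ⊆ Ω :=
    (Metric.closedBall_subset_closedBall (hr.2.le.trans hr21)).trans hr1Ω
  have h1 : ∀ i : Fin 3, ∫ y in Metric.ball x r, |(f y - f x - act B (y - x)) i| ≤
      9 * (ε / 28) * r ^ 4 := fun i =>
    PMN_comp hMOLL hΩ hf hA (by positivity) hr.1 hr.2 hKΩ hsm i
  have hr0 := hr.1
  have hact : Continuous (fun y => act B (y - x)) := by
    have h2 : (fun y => act B (y - x)) =
        fun y => (Matrix.toEuclideanLin B).toContinuousLinearMap (y - x) := rfl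
    rw [h2]
    exact (Matrix.toEuclideanLin B).toContinuousLinearMap.continuous.comp (by fun_prop)
  have hcv : ContinuousOn (fun y => f y - f x - act B (y - x)) (Metric.closedBall x r) :=
    ((hf.mono hKΩ).sub continuousOn_const).sub hact.continuousOn
  have hci : ∀ i : Fin 3, IntegrableOn (fun y => |(f y - f x - act B (y - x)) i|)
      (Metric.ball x r) := fun i =>
    ((((EuclideanSpace.proj i : E3 →L[ℝ] ℝ).continuous.comp_continuousOn
      hcv).abs.integrableOn_compact (isCompact_closedBall x r))).mono_set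
      Metric.ball_subset_closedBall
  have h3 : ∫ y in Metric.ball x r, ‖f y - f x - act B (y - x)‖ ≤ 27 * (ε / 28) * r ^ 4 := by
    calc ∫ y in Metric.ball x r, ‖f y - f x - act B (y - x)‖
        ≤ ∫ y in Metric.ball x r, (|(f y - f x - act B (y - x)) 0| +
            |(f y - f x - act B (y - x)) 1| + |(f y - f x - act B (y - x)) 2|) := by
          refine integral_mono ?_ (((hci 0).add (hci 1)).add (hci 2)) fun y => PMN_norm _
          exact ((hcv.norm.integrableOn_compact (isCompact_closedBall x r))).mono_set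
            Metric.ball_subset_closedBall
      _ = (∫ y in Metric.ball x r, |(f y - f x - act B (y - x)) 0|) +
            (∫ y in Metric.ball x r, |(f y - f x - act B (y - x)) 1|) +
            ∫ y in Metric.ball x r, |(f y - f x - act B (y - x)) 2| := by
          have h5 : IntegrableOn (fun y => |(f y - f x - act B (y - x)) 0| +
              |(f y - f x - act B (y - x)) 1|) (Metric.ball x r) := (hci 0).add (hci 1)
          rw [integral_add h5 (hci 2), integral_add (hci 0) (hci 1)]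
      _ ≤ 27 * (ε / 28) * r ^ 4 := by linarith [h1 0, h1 1, h1 2]
  have h4 : 0 ≤ ∫ y in Metric.ball x r, ‖f y - f x - act B (y - x)‖ :=
    integral_nonneg fun y => norm_nonneg _
  rw [Real.dist_eq, sub_zero, abs_of_nonneg (by positivity)]
  calc (r ^ 4)⁻¹ * ∫ y in Metric.ball x r, ‖f y - f x - act B (y - x)‖
      ≤ (r ^ 4)⁻¹ * (27 * (ε / 28) * r ^ 4) := mul_le_mul_of_nonneg_left h3 (by positivity)
    _ = 27 * (ε / 28) := by field_simp
    _ < ε := by linarith

end Pool.Flat
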