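import Pool.Agent.Work.MP_680515_fl.Iface2

/-!
# MP_680515_an, THEOREM FB: block POI
-/

open MeasureTheory Set Filter Topology

namespace Pool.Flat

open Pool.Mart

theorem POI_ker (ρ θ : ℝ) : ‖(circleMap 0 1 θ - 0) - (-(ρ : ℂ) - 0)‖ ^ 2
    = 1 + ρ ^ 2 + 2 * ρ * Real.cos θ := by
  rw [← Complex.normSq_eq_norm_sq, sub_zero, sub_zero, sub_neg_eq_add, circleMap_zero,
    Complex.ofReal_one, one_mul, Complex.normSq_apply]
  simp only [Complex.add_re, Complex.add_im, Complex.exp_ofReal_mul_I_re,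
    Complex.exp_ofReal_mul_I_im, Complex.ofReal_re, Complex.ofReal_im, add_zero]
  have h := Real.sin_sq_add_cos_sq θ
  nlinarith

theorem p_POI : Stmt_POI := by
  intro q hq0 hq1
  set s : ℝ := Real.sqrt (1 - q ^ 2) with hs
  have hq2 : 0 < 1 - q ^ 2 := by nlinarith
  have hs0 : 0 < s := Real.sqrt_pos.2 hq2
  have hs2 : s ^ 2 = 1 - q ^ 2 := Real.sq_sqrt hq2.le
  set ρ : ℝ := q / (1 + s) with hρ
  have h1s : 0 < 1 + s := by linarith
  have hρ0 : 0 ≤ ρ := div_nonneg hq0 h1s.le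
  have hρ1 : ρ < 1 := by rw [hρ, div_lt_one h1s]; linarith
  have hρq : ρ * (1 + s) = q := div_mul_cancel₀ _ h1s.ne'
  have hρ2 : ρ ^ 2 * (1 + s) = 1 - s := by
    have h1 : ρ ^ 2 * (1 + s) ^ 2 = q ^ 2 := by rw [← hρq]; ring
    have h2 : (ρ ^ 2 * (1 + s) - (1 - s)) * (1 + s) = 0 := by nlinarith
    rcases mul_eq_zero.1 h2 with h3 | h3
    · linarith
    · exact absurd h3 h1s.ne'
  have hint : ∀ θ : ℝ, s / (1 + q * Real.cos θ) =
      (1 - ρ ^ 2) / (1 + ρ ^ 2 + 2 * ρ * Real.cos θ) := by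
    intro θ
    have hc1 := Real.neg_one_le_cos θ
    have hd1 : 0 < 1 + q * Real.cos θ := by nlinarith
    have hd2 : 0 < 1 + ρ ^ 2 + 2 * ρ * Real.cos θ := by
      nlinarith [mul_nonneg hρ0 (by linarith : 0 ≤ 1 + Real.cos θ),
        mul_pos (by linarith : 0 < 1 - ρ) (by linarith : 0 < 1 - ρ)]
    rw [div_eq_div_iff hd1.ne' hd2.ne']
    have h3 : (1 + s) * (s * (1 + ρ ^ 2 + 2 * ρ * Real.cos θ)) =
        (1 + s) * ((1 - ρ ^ 2) * (1 + q * Real.cos θ)) := by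
      have e1 : (1 + s) * (s * (1 + ρ ^ 2 + 2 * ρ * Real.cos θ)) =
          s * ((1 + s) + ρ ^ 2 * (1 + s) + 2 * (ρ * (1 + s)) * Real.cos θ) := by ring
      have e2 : (1 + s) * ((1 - ρ ^ 2) * (1 + q * Real.cos θ)) =
          ((1 + s) - ρ ^ 2 * (1 + s)) * (1 + q * Real.cos θ) := by ring
      rw [e1, e2, hρ2, hρq]
      ring
    exact mul_left_cancel₀ h1s.ne' h3
  have h := DiffContOnCl.circleAverage_poissonKernel_smul' (f := fun _ => (1 : ℂ)) (c := 0)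
    (R := 1) (w := -(ρ : ℂ)) diffContOnCl_const (by
      rw [mem_ball_zero_iff, norm_neg, Complex.norm_real, Real.norm_of_nonneg hρ0]
      exact hρ1)
  rw [Real.circleAverage_def] at h
  have hcm : ∀ θ : ℝ, ‖circleMap 0 1 θ - 0‖ ^ 2 = 1 := by
    intro θ
    rw [sub_zero, norm_circleMap_zero, abs_one, one_pow]
  have hw : ‖-(ρ : ℂ) - 0‖ ^ 2 = ρ ^ 2 := by
    rw [sub_zero, norm_neg, Complex.norm_real, Real.norm_of_nonneg hρ0]
  have hfun : (fun θ : ℝ => ((‖circleMap 0 1 θ - 0‖ ^ 2 - ‖-(ρ : ℂ) - 0‖ ^ 2) /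
      ‖(circleMap 0 1 θ - 0) - (-(ρ : ℂ) - 0)‖ ^ 2) • (1 : ℂ)) =
      fun θ : ℝ => ((s / (1 + q * Real.cos θ) : ℝ) : ℂ) := by
    funext θ
    rw [hcm, hw, POI_ker, hint, Complex.real_smul, mul_one]
  rw [hfun, intervalIntegral.integral_ofReal, Complex.real_smul, ← Complex.ofReal_mul] at h
  have h4 : (2 * Real.pi)⁻¹ * (∫ θ in (0 : ℝ)..(2 * Real.pi), s / (1 + q * Real.cos θ)) = 1 := by
    exact_mod_cast h
  have hpi : (0 : ℝ) < 2 * Real.pi := by positivity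
  rwa [inv_mul_eq_iff_eq_mul₀ hpi.ne', mul_one] at h4

end Pool.Flat
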