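import Pool.Agent.Work.MP_680515_fl.Iface1
import Pool.Agent.Work.MP_680515_an.B.PIOI

open MeasureTheory Set Filter Topology

namespace Pool.Flat

open Pool.Mart

theorem POS_det {A : M3} (h : Good A) : 0 ≤ A.det := by
  have h1 : 0 ≤ opn A ^ 3 := pow_nonneg (norm_nonneg _) 3
  have h2 := h.2
  linarith

theorem POS_zero {A : M3} (h : Good A) (h0 : A.det = 0) : A = 0 := by
  have h1 : opn A ^ 3 ≤ 0 := by
    have := h.2
    rw [h0, mul_zero] at this
    exact this
  have h2 : 0 ≤ opn A := norm_nonneg _
  have h3 : opn A = 0 := by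
    by_contra hne
    have : 0 < opn A := lt_of_le_of_ne h2 (Ne.symm hne)
    have : 0 < opn A ^ 3 := by positivity
    linarith
  have h4 : (Matrix.toEuclideanLin A).toContinuousLinearMap = 0 := norm_eq_zero.1 h3
  have h5 : Matrix.toEuclideanLin A = 0 := (LinearEquiv.map_eq_zero_iff _).1 h4
  exact (LinearEquiv.map_eq_zero_iff _).1 h5

theorem POS_bump (y : E3) {d : ℝ} (hd : 0 < d) : ∃ g : E3 → ℝ, Continuous g ∧ HasCompactSupport g ∧
    tsupport g ⊆ Metric.ball y d ∧ (∀ z, 0 ≤ g z) ∧ (∀ z ∈ Metric.closedBall y (d / 4), g z = 1) ∧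
    0 < ∫ z, g z := by
  let b : ContDiffBump y := ⟨d / 4, d / 2, by positivity, by linarith⟩
  refine ⟨b, b.continuous, b.hasCompactSupport, ?_, fun z => b.nonneg, fun z hz =>
    b.one_of_mem_closedBall hz, b.integral_pos⟩
  rw [b.tsupport_eq]
  exact Metric.closedBall_subset_ball (show d / 2 < d by linarith)

/-- a map with zero weak gradient is locally constant -/
theorem POS_const (hOSC : Stmt_OSC) {Ω : Set E3} {f : E3 → E3} {A : E3 → M3}
    (hf : ContinuousOn f Ω) (hA : WeakGrad Ω f A) {x1 : E3} {δ : ℝ}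
    (hsub : Metric.ball x1 δ ⊆ Ω) (h0 : ∀ᵐ x ∂(volume.restrict (Metric.ball x1 δ)), A x = 0)
    {y : E3} (hy : dist y x1 < δ / 2) : f x1 = f y := by
  obtain ⟨C, hC, hosc⟩ := hOSC
  have hδ : 0 < δ := by
    have := dist_nonneg (x := y) (y := x1)
    linarith
  refine PiLp.ext fun i => ?_
  set u : E3 → ℝ := fun x => f x i with hu
  set V : E3 → E3 := fun x => WithLp.toLp 2 fun j => A x i j with hV
  have huc : ContinuousOn u Ω := (EuclideanSpace.proj i : E3 →L[ℝ] ℝ).continuous.comp_continuousOn hf
  have hW : WG1 (Metric.ball x1 δ) u V := by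
    refine ⟨fun K hK hKs j => ?_, fun φ h1 h2 h3 j => ?_⟩
    · have h1 := hA.loc K hK (hKs.trans hsub) i j
      have : IsFiniteMeasure (volume.restrict K) := ⟨by
        rw [Measure.restrict_apply_univ]; exact hK.measure_lt_top⟩
      exact h1.integrable (by norm_num)
    · exact hA.ibp φ h1 h2 (h3.trans hsub) i j
  have hyb : y ∈ Metric.ball x1 δ := by rw [Metric.mem_ball]; linarith
  have hxb : x1 ∈ Metric.ball x1 δ := Metric.mem_ball_self hδ
  have hVj : ∀ j : Fin 3, (fun z => V z j) =ᵐ[volume.restrict (Metric.ball x1 δ)] 0 := by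
    intro j
    filter_upwards [h0] with x hx
    show A x i j = 0
    rw [hx]
    rfl
  have hkey : ∀ σ : ℝ, 0 < σ → |u x1 - u y| ≤ 2 * σ := by
    intro σ hσ
    have c1 : ContinuousAt u x1 := (huc.mono hsub).continuousAt (Metric.isOpen_ball.mem_nhds hxb)
    have c2 : ContinuousAt u y := (huc.mono hsub).continuousAt (Metric.isOpen_ball.mem_nhds hyb)
    obtain ⟨d1, hd1, hc1⟩ := Metric.continuousAt_iff.1 c1 σ hσ
    obtain ⟨d2, hd2, hc2⟩ := Metric.continuousAt_iff.1 c2 σ hσ
    set h := min (min d1 d2 / 2) (δ / 2) with hh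
    have hhpos : 0 < h := lt_min (by have := lt_min hd1 hd2; positivity) (by positivity)
    have hh1 : h < d1 := by
      have h1 : h ≤ min d1 d2 / 2 := min_le_left _ _
      have h2 : min d1 d2 ≤ d1 := min_le_left _ _
      have h3 := lt_min hd1 hd2
      linarith
    have hh2 : h < d2 := by
      have h1 : h ≤ min d1 d2 / 2 := min_le_left _ _
      have h2 : min d1 d2 ≤ d2 := min_le_right _ _
      have h3 := lt_min hd1 hd2
      linarith
    have hhδ : h ≤ δ / 2 := min_le_right _ _
    have h4 := hosc (Metric.ball x1 δ) u V x1 y h σ 0 Metric.isOpen_ball (huc.mono hsub) hW hhpos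
      (by
        intro s hs z hz
        rw [Metric.mem_closedBall] at hz
        rw [Metric.mem_ball]
        have h1 : dist (x1 + s • (y - x1)) x1 ≤ dist y x1 := by
          rw [dist_eq_norm, dist_eq_norm, add_sub_cancel_left, norm_smul, Real.norm_of_nonneg hs.1]
          nlinarith [norm_nonneg (y - x1), hs.2]
        have h2 := dist_triangle z (x1 + s • (y - x1)) x1
        linarith)
      (by
        intro z hz
        have := hc1 (x := z) (by rw [dist_eq_norm]; linarith)
        rw [Real.dist_eq] at this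
        exact this.le)
      (by
        intro z hz
        have := hc2 (x := z) (by rw [dist_eq_norm]; linarith)
        rw [Real.dist_eq] at this
        exact this.le)
      (by
        intro j
        refine ⟨(integrable_zero _ _ _).congr (hVj j).symm, ?_⟩
        have h1 : ∫ z in Metric.ball x1 δ, |V z j| = ∫ z in Metric.ball x1 δ, (0 : ℝ) := by
          refine integral_congr_ae ?_
          filter_upwards [hVj j] with z hz
          rw [hz]
          simp
        rw [h1, integral_zero])
    rw [mul_zero, add_zero] at h4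
    exact h4
  have h5 : |u x1 - u y| ≤ 0 := by
    refine le_of_forall_pos_le_add fun e he => ?_
    have := hkey (e / 2) (by positivity)
    linarith
  have h6 := abs_nonpos_iff.1 h5
  exact sub_eq_zero.1 h6

theorem p_POS (hINTG : Stmt_INTG) (hOSC : Stmt_OSC) : Stmt_POS := by
  intro Ω f A x1 s hΩ hf hA hgood hs hsub hinj
  have hx1Ω : x1 ∈ Ω := hsub (Metric.mem_closedBall_self hs.le)
  have hcomp : IsCompact (Metric.sphere x1 s) := isCompact_sphere x1 s
  have hne : (Metric.sphere x1 s).Nonempty := NormedSpace.sphere_nonempty.2 hs.le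
  have hsp : Metric.sphere x1 s ⊆ Ω := Metric.sphere_subset_closedBall.trans hsub
  have hcont : ContinuousOn (fun x => ‖f x - f x1‖) (Metric.sphere x1 s) :=
    ((hf.mono hsp).sub continuousOn_const).norm
  obtain ⟨x0, hx0, hmin⟩ := hcomp.exists_isMinOn hne hcont
  set ρ := ‖f x0 - f x1‖ with hρ
  have hx0' : ‖x0 - x1‖ = s := by rwa [mem_sphere_iff_norm] at hx0
  have hρpos : 0 < ρ := by
    rw [hρ, norm_pos_iff, sub_ne_zero]
    intro h
    have h1 : x0 = x1 := hinj (Metric.sphere_subset_closedBall hx0)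
      (Metric.mem_closedBall_self hs.le) h
    rw [h1, sub_self, norm_zero] at hx0'
    linarith
  have hmin' : ∀ x, ‖x - x1‖ = s → ρ ≤ ‖f x - f x1‖ := by
    intro x hx
    exact hmin (by rwa [mem_sphere_iff_norm])
  obtain ⟨k, hk⟩ := hINTG Ω f A x1 (f x1) s ρ hΩ hf hA hs hsub hρpos hmin'
  have hk1 : 1 ≤ k := by
    by_contra hcon
    have hk0 : k ≤ 0 := by omega
    obtain ⟨g, hgc, hgs, hgt, hg0, hg1, hgi⟩ := POS_bump (f x1) hρpos
    have e0 := hk g hgc hgs hgt
    have hint : IntegrableOn (fun x => (A x).det * g (f x)) (Metric.ball x1 s) :=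
      ((stmt_PIOI' Ω f A hΩ hf hA _ (isCompact_closedBall x1 s) hsub).1.mul_continuousOn
        (hgc.comp_continuousOn (hf.mono hsub)) (isCompact_closedBall x1 s)).mono_set
        Metric.ball_subset_closedBall
    have hgd : ∀ᵐ x ∂(volume.restrict (Metric.ball x1 s)), Good (A x) :=
      ae_mono (Measure.restrict_mono (Metric.ball_subset_closedBall.trans hsub) le_rfl) hgood
    have hnn : 0 ≤ᵐ[volume.restrict (Metric.ball x1 s)] fun x => (A x).det * g (f x) := by
      filter_upwards [hgd] with x hx
      exact mul_nonneg (POS_det hx) (hg0 _)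
    have h1 : ∫ x in Metric.ball x1 s, (A x).det * g (f x) = 0 := by
      refine le_antisymm ?_ (integral_nonneg_of_ae hnn)
      rw [e0]
      have : (k : ℝ) ≤ 0 := by exact_mod_cast hk0
      exact mul_nonpos_of_nonpos_of_nonneg this hgi.le
    have h2 := (integral_eq_zero_iff_of_nonneg_ae hnn hint).1 h1
    have hcp : ContinuousAt f x1 := hf.continuousAt (hΩ.mem_nhds hx1Ω)
    obtain ⟨δ', hδ', hδf⟩ := Metric.continuousAt_iff.1 hcp (ρ / 4) (by positivity)
    set δ := min δ' s with hδ
    have hδpos : 0 < δ := lt_min hδ' hs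
    have hδs : δ ≤ s := min_le_right _ _
    have hbs : Metric.ball x1 δ ⊆ Metric.ball x1 s := Metric.ball_subset_ball hδs
    have h3 : ∀ᵐ x ∂(volume.restrict (Metric.ball x1 δ)), A x = 0 := by
      have h4 := ae_mono (Measure.restrict_mono hbs le_rfl) h2
      have h5 := ae_mono (Measure.restrict_mono hbs le_rfl) hgd
      filter_upwards [h4, h5, ae_restrict_mem Metric.isOpen_ball.measurableSet] with x hx hx5 hxb
      have h6 : g (f x) = 1 := hg1 _ (by
        rw [Metric.mem_closedBall]
        rw [Metric.mem_ball] at hxb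
        exact (hδf (hxb.trans_le (min_le_left _ _))).le)
      rw [h6, mul_one] at hx
      exact POS_zero hx5 hx
    set y : E3 := x1 + (δ / 4) • EuclideanSpace.single 0 1 with hy
    have hn : ‖y - x1‖ = δ / 4 := by
      rw [hy, add_sub_cancel_left, norm_smul, Real.norm_of_nonneg (by positivity)]
      simp
    have hyd : dist y x1 < δ / 2 := by
      rw [dist_eq_norm, hn]
      linarith
    have h4 := POS_const hOSC hf hA (hbs.trans (Metric.ball_subset_closedBall.trans hsub)) h3 hyd
    have h5 : x1 = y := hinj (Metric.mem_closedBall_self hs.le) (by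
      rw [Metric.mem_closedBall]
      linarith) h4
    rw [← h5, sub_self, norm_zero] at hn
    linarith
  refine ⟨k.toNat, ρ, by omega, hρpos, hmin', ?_⟩
  intro g hg1 hg2 hg3
  rw [hk g hg1 hg2 hg3]
  congr 1
  have h6 : ((k.toNat : ℕ) : ℤ) = k := Int.toNat_of_nonneg (by omega)
  exact_mod_cast h6.symm

end Pool.Flat
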