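import Pool.Agent.Work.MP_680515_fl.Iface3

/-! # MP_680515_an, THEOREM FB: block PT1 (the gradient of the logarithmic ratio) -/

set_option autoImplicit false

open MeasureTheory Set Filter Topology

namespace Pool.Flat

open Pool.Mart

lemma PT1_adj (M : M3) (v w : E3) : inner ℝ (act M v) w = inner ℝ v (act M.transpose w) := by
  simp only [PiLp.inner_apply, act, Matrix.mulVec, dotProduct, Fin.sum_univ_three,
    Matrix.transpose_apply, RCLike.inner_apply, conj_trivial]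
  ring

lemma PT1_sub (M : M3) (v w : E3) : act M (v - w) = act M v - act M w := by
  unfold act
  rw [WithLp.ofLp_sub, Matrix.mulVec_sub, WithLp.toLp_sub]

lemma PT1_smul (M : M3) (c : ℝ) (v : E3) : act M (c • v) = c • act M v := by
  unfold act
  rw [WithLp.ofLp_smul, Matrix.mulVec_smul, WithLp.toLp_smul]

lemma PT1_opn0 (M : M3) : 0 ≤ opn M := norm_nonneg _

lemma PT1_opnT (hop : ∀ (M : M3) (v : E3), ‖act M v‖ ≤ opn M * ‖v‖) (A : M3) (w : E3) :
    ‖act A.transpose w‖ ≤ opn A * ‖w‖ := by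
  have h1 : ‖act A.transpose w‖ ^ 2 ≤ (opn A * ‖w‖) * ‖act A.transpose w‖ := by
    rw [← real_inner_self_eq_norm_sq, ← PT1_adj]
    calc inner ℝ (act A (act A.transpose w)) w ≤ ‖act A (act A.transpose w)‖ * ‖w‖ :=
          real_inner_le_norm _ _
      _ ≤ (opn A * ‖act A.transpose w‖) * ‖w‖ :=
          mul_le_mul_of_nonneg_right (hop _ _) (norm_nonneg _)
      _ = (opn A * ‖w‖) * ‖act A.transpose w‖ := by ring
  rcases (norm_nonneg (act A.transpose w)).lt_or_eq with h | h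
  · nlinarith
  · rw [← h]
    exact mul_nonneg (PT1_opn0 A) (norm_nonneg _)

/-- the numbers in the first case -/
lemma PT1_case1 {t q j k a e V : ℝ} (ht : 0 ≤ t) (ht6 : t ^ 2 ≤ 1 / 6) (hq : 1 / 2 ≤ q)
    (hq1 : (q - 1) ^ 2 ≤ (3 / 2) * t ^ 2) (hj0 : q ^ 3 ≤ j) (hj1 : j - q ^ 3 ≤ (3 / 4) * t ^ 2)
    (hk : k * q ^ 2 = j) (ha : a ≤ 2 * k) (he0 : 0 ≤ e) (he : e ≤ 2 * t)
    (hV0 : 0 ≤ V) (hV : V ≤ a * e + |k - 1|) : V ^ 2 ≤ 225 * t ^ 2 := by
  have hq0 : 0 < q := by linarith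
  have ht2 : t ≤ 1 / 2 := by nlinarith
  have h1 : |q - 1| ≤ (5 / 4) * t := by
    refine abs_le_of_sq_le_sq ?_ (by positivity)
    nlinarith [sq_nonneg t]
  have h2 := abs_le.mp h1
  have hkq : q ≤ k := by
    by_contra h
    push Not at h
    have : k * q ^ 2 < q * q ^ 2 := mul_lt_mul_of_pos_right h (by positivity)
    nlinarith
  have hkq' : k ≤ q + 3 * t ^ 2 := by
    by_contra h
    push Not at h
    have h3 : (q + 3 * t ^ 2) * q ^ 2 < k * q ^ 2 := mul_lt_mul_of_pos_right h (by positivity)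
    have h4 : 1 / 4 ≤ q ^ 2 := by nlinarith
    have h5 : 3 * t ^ 2 * (1 / 4) ≤ 3 * t ^ 2 * q ^ 2 :=
      mul_le_mul_of_nonneg_left h4 (by positivity)
    nlinarith
  have h6 : t ^ 2 ≤ t / 2 := by nlinarith
  have hk1 : |k - 1| ≤ 3 * t := by
    rw [abs_le]
    constructor <;> linarith
  have hk3 : k ≤ 3 := by linarith
  have hk0 : 0 ≤ k := by linarith
  have h7 : a * e ≤ 6 * (2 * t) := by
    calc a * e ≤ (2 * k) * e := mul_le_mul_of_nonneg_right ha he0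
      _ ≤ 6 * e := mul_le_mul_of_nonneg_right (by linarith) he0
      _ ≤ 6 * (2 * t) := mul_le_mul_of_nonneg_left he (by norm_num)
  have h8 : V ≤ 15 * t := by linarith
  calc V ^ 2 ≤ (15 * t) ^ 2 := pow_le_pow_left₀ hV0 h8 2
    _ = 225 * t ^ 2 := by ring

/-- the numbers in the second case -/
lemma PT1_case2 {t q j a V : ℝ} (ht : 0 ≤ t) (ht6 : 1 / 6 ≤ t ^ 2) (hq0 : 0 ≤ q)
    (hq1 : (q - 1) ^ 2 ≤ (3 / 2) * t ^ 2) (hj1 : j - q ^ 3 ≤ (3 / 4) * t ^ 2)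
    (ha : a ^ 3 ≤ 8 * j) (hV0 : 0 ≤ V) (hV : V ≤ a + 1) : V ^ 2 ≤ 225 * t ^ 2 := by
  have ht4 : 2 / 5 ≤ t := by
    by_contra h
    push Not at h
    nlinarith
  have h1 : |q - 1| ≤ (5 / 4) * t := by
    refine abs_le_of_sq_le_sq ?_ (by positivity)
    nlinarith [sq_nonneg t]
  have h2 := abs_le.mp h1
  have hq4 : q ≤ 4 * t := by linarith
  have h3 : q ^ 3 ≤ 64 * t ^ 3 := by
    calc q ^ 3 ≤ (4 * t) ^ 3 := pow_le_pow_left₀ hq0 hq4 3
      _ = 64 * t ^ 3 := by ring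
  have h4 : (3 / 4) * t ^ 2 ≤ 2 * t ^ 3 := by nlinarith [sq_nonneg t]
  have h5 : a ^ 3 ≤ (9 * t) ^ 3 := by
    have h6 : (9 * t) ^ 3 = 729 * t ^ 3 := by ring
    have h7 : 0 ≤ t ^ 3 := by positivity
    rw [h6]
    linarith
  have h8 : a ≤ 9 * t := le_of_pow_le_pow_left₀ (by norm_num) (by positivity) h5
  have h9 : V ≤ 15 * t := by linarith
  calc V ^ 2 ≤ (15 * t) ^ 2 := pow_le_pow_left₀ hV0 h9 2
    _ = 225 * t ^ 2 := by ring

theorem p_PT1 (hTHREE : Pool.Mart.Stmt_THREE) (hAB : Pool.Mart.Stmt_AB)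
    (hBAS : Pool.Mart.Stmt_BAS) : Stmt_PT1 := by
  obtain ⟨hop, _, hcp, hin, _, _, _⟩ := hBAS
  refine ⟨225, by norm_num, ?_⟩
  intro A X Y hG hX hY
  have nX : 0 < ‖X‖ := norm_pos_iff.mpr hX
  have nY : 0 < ‖Y‖ := norm_pos_iff.mpr hY
  obtain ⟨s, hs⟩ : ∃ s : ℝ, s = ‖Y‖ / ‖X‖ := ⟨_, rfl⟩
  have hs0 : 0 < s := by rw [hs]; positivity
  have hsi : ‖X‖ / ‖Y‖ = s⁻¹ := by rw [hs, inv_div]
  obtain ⟨b, hb⟩ : ∃ b : E3, b = ‖X‖⁻¹ • X := ⟨_, rfl⟩
  obtain ⟨y, hy⟩ : ∃ y : E3, y = ‖Y‖⁻¹ • Y := ⟨_, rfl⟩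
  have hbn : ‖b‖ = 1 := by
    rw [hb, norm_smul, norm_inv, norm_norm, inv_mul_cancel₀ nX.ne']
  have hyn : ‖y‖ = 1 := by
    rw [hy, norm_smul, norm_inv, norm_norm, inv_mul_cancel₀ nY.ne']
  obtain ⟨δ, hδ⟩ : ∃ δ : ℝ, δ = dfc A X Y := ⟨_, rfl⟩
  have hδ' : δ = (2 / 3) * A.det / s ^ 3 + 2 / 3 - cpair A y b / s ^ 2 := by
    rw [hδ]
    unfold dfc
    rw [hsi, ← hb, ← hy, inv_pow, inv_pow]
    ring
  rw [hsi, ← hb, ← hy, ← hδ]
  obtain ⟨d0, d1, d2, d3⟩ := hTHREE A b y s δ hG hs0 hbn hyn hδ'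
  obtain ⟨N, hN⟩ : ∃ N : ℝ, N = opn (cofm A) := ⟨_, rfl⟩
  have hN0 : 0 ≤ N := by rw [hN]; exact PT1_opn0 _
  rw [← hN] at d1 d2 d3
  obtain ⟨q, hq⟩ : ∃ q : ℝ, q = Real.sqrt (N / (2 * s ^ 2)) := ⟨_, rfl⟩
  have hq0 : 0 ≤ q := by rw [hq]; exact Real.sqrt_nonneg _
  have hqq : q ^ 2 = N / (2 * s ^ 2) := by rw [hq]; exact Real.sq_sqrt (by positivity)
  rw [← hq] at d2 d3
  obtain ⟨j, hj⟩ : ∃ j : ℝ, j = A.det / (2 * s ^ 3) := ⟨_, rfl⟩
  rw [← hj] at d3
  have hdet0 : 0 ≤ A.det := by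
    have h1 := hG.2
    have h2 : 0 ≤ opn A ^ 3 := pow_nonneg (PT1_opn0 A) 3
    linarith
  have hj0 : 0 ≤ j := by rw [hj]; positivity
  have hqj : q ^ 3 ≤ j := by
    have h1 : (q ^ 3) ^ 2 ≤ j ^ 2 := by
      have e1 : (q ^ 3) ^ 2 = (q ^ 2) ^ 3 := by ring
      have hG1 := hG.1
      rw [← hN] at hG1
      rw [e1, hqq, hj, div_pow, div_pow, div_le_div_iff₀ (by positivity) (by positivity)]
      have e2 : A.det ^ 2 * (2 * s ^ 2) ^ 3 = (2 * A.det ^ 2) * (4 * s ^ 6) := by ring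
      have e3 : N ^ 3 * (2 * s ^ 3) ^ 2 = N ^ 3 * (4 * s ^ 6) := by ring
      rw [e2, e3]
      exact mul_le_mul_of_nonneg_right hG1 (by positivity)
    exact (pow_le_pow_iff_left₀ (by positivity) hj0 (by norm_num)).mp h1
  obtain ⟨t, ht⟩ : ∃ t : ℝ, t = Real.sqrt δ := ⟨_, rfl⟩
  have ht0 : 0 ≤ t := by rw [ht]; exact Real.sqrt_nonneg _
  have htt : t ^ 2 = δ := by rw [ht]; exact Real.sq_sqrt d0
  rw [← htt] at d2 d3 ⊢
  rcases le_total (t ^ 2) (1 / 6) with hc | hc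
  · -- first case
    have hqh : 1 / 2 ≤ q := by
      by_contra h
      push Not at h
      nlinarith
    have hNp : 0 < N := by
      have h1 : 0 < N / (2 * s ^ 2) := by
        rw [← hqq]
        positivity
      have h2 := (div_pos_iff_of_pos_right (show 0 < 2 * s ^ 2 by positivity)).mp h1
      exact h2
    have hjp : 0 < j := lt_of_lt_of_le (by positivity) hqj
    have hdet : 0 < A.det := by
      rw [hj] at hjp
      exact (div_pos_iff_of_pos_right (by positivity)).mp hjp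
    have hη : opn (cofm A) - δ * s ^ 2 ≤ cpair A y b := by
      rw [← hN]
      linarith
    obtain ⟨_, _, hAop⟩ := hAB A b y (δ * s ^ 2) hG hdet hbn hyn
      (mul_nonneg d0 (by positivity)) hη
    obtain ⟨τ, hτ⟩ : ∃ τ : ℝ, τ = A.det / N := ⟨_, rfl⟩
    have htau : tau A = τ := by rw [hτ, hN]; rfl
    rw [htau] at hAop
    obtain ⟨u, hu⟩ : ∃ u : E3, u = N⁻¹ • act (cofm A) b := ⟨_, rfl⟩
    have hun : ‖u‖ ≤ 1 := by
      have h1 := hop (cofm A) b
      rw [hbn, mul_one, ← hN] at h1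
      rw [hu, norm_smul, norm_inv, Real.norm_eq_abs, abs_of_pos hNp]
      calc N⁻¹ * ‖act (cofm A) b‖ ≤ N⁻¹ * N := mul_le_mul_of_nonneg_left h1 (by positivity)
        _ = 1 := inv_mul_cancel₀ hNp.ne'
    have huy : inner ℝ y u = cpair A y b / N := by
      rw [hu, real_inner_smul_right, ← hcp]
      ring
    have hdist : ‖y - u‖ ^ 2 ≤ 4 * t ^ 2 := by
      have h1 : ‖y - u‖ ^ 2 = 1 - 2 * (cpair A y b / N) + ‖u‖ ^ 2 := by
        rw [norm_sub_sq_real, hyn, huy]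
        ring
      have h2 : ‖u‖ ^ 2 ≤ 1 := pow_le_one₀ (norm_nonneg _) hun
      have h3 : 1 - cpair A y b / N ≤ δ * s ^ 2 / N := by
        rw [← sub_nonneg]
        have e1 : δ * s ^ 2 / N - (1 - cpair A y b / N) =
            (δ * s ^ 2 - (N - cpair A y b)) / N := by
          field_simp
        rw [e1]
        exact div_nonneg (by linarith) hNp.le
      have h4 : δ * s ^ 2 / N ≤ 2 * δ := by
        have e2 : N = q ^ 2 * (2 * s ^ 2) := by
          rw [hqq]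
          field_simp
        have e3 : 1 / 4 ≤ q ^ 2 := by nlinarith
        rw [div_le_iff₀ hNp]
        have e4 : s ^ 2 / 2 ≤ N := by
          rw [e2]
          nlinarith [sq_nonneg s]
        nlinarith
      rw [h1, htt]
      linarith
    have hdist' : ‖y - u‖ ≤ 2 * t := by
      refine (pow_le_pow_iff_left₀ (norm_nonneg _) (by positivity) (two_ne_zero)).mp ?_
      rw [mul_pow]
      norm_num
      exact hdist
    have hAB2 : act A.transpose (act (cofm A) b) = A.det • b := by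
      refine ext_inner_left ℝ fun v => ?_
      rw [← PT1_adj, hin, real_inner_smul_right]
    have hAu : act A.transpose u = τ • b := by
      rw [hu, PT1_smul, hAB2, smul_smul, hτ]
      congr 1
      ring
    have hVe : s⁻¹ • act A.transpose y - b =
        s⁻¹ • act A.transpose (y - u) + (s⁻¹ * τ - 1) • b := by
      rw [PT1_sub, hAu, smul_sub, smul_smul, sub_smul, one_smul]
      abel
    have hVn : ‖s⁻¹ • act A.transpose y - b‖ ≤ (s⁻¹ * opn A) * ‖y - u‖ + |s⁻¹ * τ - 1| := by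
      rw [hVe]
      refine (norm_add_le _ _).trans (add_le_add ?_ ?_)
      · rw [norm_smul, norm_inv, Real.norm_eq_abs, abs_of_pos hs0, mul_assoc]
        exact mul_le_mul_of_nonneg_left (PT1_opnT hop A _) (by positivity)
      · rw [norm_smul, hbn, mul_one, Real.norm_eq_abs]
    refine PT1_case1 (t := t) (q := q) (j := j) (k := s⁻¹ * τ) (a := s⁻¹ * opn A)
      (e := ‖y - u‖) ht0 hc hqh d2 hqj d3 ?_ ?_ (norm_nonneg _) hdist' (norm_nonneg _) hVn
    · rw [hqq, hτ, hj]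
      field_simp
    · calc s⁻¹ * opn A ≤ s⁻¹ * (2 * τ) := mul_le_mul_of_nonneg_left hAop (by positivity)
        _ = 2 * (s⁻¹ * τ) := by ring
  · -- second case
    refine PT1_case2 (t := t) (q := q) (j := j) (a := s⁻¹ * opn A) ht0 hc hq0 d2 d3 ?_
      (norm_nonneg _) ?_
    · have h1 := hG.2
      rw [mul_pow, hj]
      have e1 : 8 * (A.det / (2 * s ^ 3)) = s⁻¹ ^ 3 * (4 * A.det) := by
        field_simp
        ring
      rw [e1]
      exact mul_le_mul_of_nonneg_left h1 (by positivity)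
    · refine (norm_sub_le _ _).trans ?_
      rw [hbn, norm_smul, norm_inv, Real.norm_eq_abs, abs_of_pos hs0]
      have h1 := PT1_opnT hop A y
      rw [hyn, mul_one] at h1
      have hsi0 : 0 ≤ s⁻¹ := inv_nonneg.mpr hs0.le
      exact add_le_add (mul_le_mul_of_nonneg_left h1 hsi0) le_rfl

end Pool.Flat
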