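import Pool.Agent.Work.MP_680515_fl.Iface3
import Pool.Agent.Work.MP_680515_an.B.PWS

/-!
# MP_680515_an, THEOREM FB, block PT2: the gradient of the angle and the two defects
-/

open MeasureTheory Set Filter Topology

namespace Pool.Flat

open Pool.Mart Pool.Mart.PWS_

theorem PT2_nd (X Y : E3) (a b : ℝ) (h1 : |rad Y - rad X| ≤ a) (h2 : |Y 2 - X 2| ≤ b) :
    ‖Y‖ ≤ ‖X‖ + (a + b) := by
  have ha : 0 ≤ a := (abs_nonneg _).trans h1
  have hb : 0 ≤ b := (abs_nonneg _).trans h2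
  have h3 := abs_le.1 h1
  have h4 : |Y 2| ≤ |X 2| + b := by
    have h5 := abs_sub_abs_le_abs_sub (Y 2) (X 2)
    linarith
  have hrX := rad_nonneg X
  have hrY := rad_nonneg Y
  have e1 : ‖X‖ ^ 2 = rad X ^ 2 + |X 2| ^ 2 := by rw [nsq, rad_sq, sq_abs]
  have e2 : ‖Y‖ ^ 2 = rad Y ^ 2 + |Y 2| ^ 2 := by rw [nsq, rad_sq, sq_abs]
  have hX := norm_nonneg X
  have hx2 := abs_nonneg (X 2)
  have hy2 := abs_nonneg (Y 2)
  have h6 : rad X ≤ ‖X‖ := rad_le_norm X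
  have h7 : |X 2| ≤ ‖X‖ := by
    refine abs_le_of_sq_le_sq' ?_ hX |>.2
    rw [e1]
    nlinarith [sq_nonneg (rad X)]
  have h8 : ‖Y‖ ^ 2 ≤ (‖X‖ + (a + b)) ^ 2 := by
    have h9 : rad Y ^ 2 ≤ (rad X + a) ^ 2 := pow_le_pow_left₀ hrY (by linarith [h3.2]) 2
    have h10 : |Y 2| ^ 2 ≤ (|X 2| + b) ^ 2 := pow_le_pow_left₀ hy2 h4 2
    rw [e2]
    have h11 : a * rad X ≤ a * ‖X‖ := mul_le_mul_of_nonneg_left h6 ha
    have h12 : b * |X 2| ≤ b * ‖X‖ := mul_le_mul_of_nonneg_left h7 hb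
    nlinarith [mul_nonneg ha hb]
  exact (pow_le_pow_iff_left₀ (norm_nonneg _) (by positivity) (by norm_num)).1 h8

theorem PT2_act (M : M3) (v : E3) (i : Fin 3) :
    act M v i = M i 0 * v 0 + M i 1 * v 1 + M i 2 * v 2 := by
  simp [act, Matrix.mulVec, dotProduct, Fin.sum_univ_three]

theorem PT2_tr (M : M3) (v w : E3) :
    (inner ℝ (act M.transpose v) w : ℝ) = inner ℝ v (act M w) := by
  rw [inn, inn]
  simp only [PT2_act, Matrix.transpose_apply]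
  ring

theorem PT2_er (X : E3) (i : Fin 3) : er X i = ![X 0 / rad X, X 1 / rad X, 0] i := by
  fin_cases i <;> simp [er]

theorem PT2_et (X : E3) (i : Fin 3) : et X i = ![-(X 1) / rad X, X 0 / rad X, 0] i := by
  fin_cases i <;> simp [et]

theorem PT2_unit (X : E3) (h : 0 < rad X) : (X 0 / rad X) ^ 2 + (X 1 / rad X) ^ 2 = 1 := by
  have h1 := rad_sq X
  rw [div_pow, div_pow, ← add_div, ← h1, div_self (by positivity)]

/-- Coordinates in the frame. -/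
theorem PT2_sum (X ξ : E3) (h : 0 < rad X) : ‖ξ‖ ^ 2 =
    (inner ℝ (er X) ξ : ℝ) ^ 2 + (inner ℝ (et X) ξ : ℝ) ^ 2 + (inner ℝ e3 ξ : ℝ) ^ 2 := by
  have h1 := PT2_unit X h
  rw [nsq, inn, inn, inn, e3_0, e3_1, e3_2]
  simp only [PT2_er, PT2_et, Matrix.cons_val_zero, Matrix.cons_val_one, Matrix.cons_val, neg_div]
  linear_combination (-(ξ 0 ^ 2 + ξ 1 ^ 2)) * h1

/-- The determinant in the frames. -/
theorem PT2_det (A : M3) (X Y : E3) (hX : 0 < rad X) (hY : 0 < rad Y) : A.det =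
    (inner ℝ (er Y) (act A (er X)) : ℝ) * ((inner ℝ (et Y) (act A (et X)) : ℝ) *
      (inner ℝ e3 (act A e3) : ℝ) - (inner ℝ e3 (act A (et X)) : ℝ) *
      (inner ℝ (et Y) (act A e3) : ℝ)) -
    (inner ℝ (er Y) (act A (et X)) : ℝ) * ((inner ℝ (et Y) (act A (er X)) : ℝ) *
      (inner ℝ e3 (act A e3) : ℝ) - (inner ℝ e3 (act A (er X)) : ℝ) *
      (inner ℝ (et Y) (act A e3) : ℝ)) +
    (inner ℝ (er Y) (act A e3) : ℝ) * ((inner ℝ (et Y) (act A (er X)) : ℝ) *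
      (inner ℝ e3 (act A (et X)) : ℝ) - (inner ℝ e3 (act A (er X)) : ℝ) *
      (inner ℝ (et Y) (act A (et X)) : ℝ)) := by
  have h1 := PT2_unit X hX
  have h2 := PT2_unit Y hY
  simp only [inn, PT2_act, e3_0, e3_1, e3_2, PT2_er, PT2_et, Matrix.cons_val_zero,
    Matrix.cons_val_one, Matrix.cons_val, neg_div]
  rw [Matrix.det_fin_three]
  generalize X 0 / rad X = c at h1 ⊢
  generalize X 1 / rad X = s at h1 ⊢
  generalize Y 0 / rad Y = c' at h2 ⊢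
  generalize Y 1 / rad Y = s' at h2 ⊢
  have e : ∀ D : ℝ, D = (c ^ 2 + s ^ 2) * (c' ^ 2 + s' ^ 2) * D := by
    intro D
    rw [h1, h2, one_mul, one_mul]
  rw [e (A 0 0 * A 1 1 * A 2 2 - A 0 0 * A 1 2 * A 2 1 - A 0 1 * A 1 0 * A 2 2 +
    A 0 1 * A 1 2 * A 2 0 + A 0 2 * A 1 0 * A 2 1 - A 0 2 * A 1 1 * A 2 0)]
  ring

theorem PT2_m {x y A B : ℝ} (hx : |x| ≤ A) (hy : |y| ≤ B) : |x * y| ≤ A * B := by
  rw [abs_mul]
  exact mul_le_mul hx hy (abs_nonneg _) ((abs_nonneg _).trans hx)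

/-- Abstract estimate of the angular entry. -/
theorem PT2_lam (uE uT uZ gE gT gZ vE vT vZ Q d : ℝ) (hQ0 : 0 ≤ Q) (hQ1 : Q ≤ 1 / 10)
    (hd : d = uE * (gT * vZ - gZ * vT) - gE * (uT * vZ - uZ * vT) + vE * (uT * gZ - uZ * gT))
    (h1 : |uE - 1| ≤ 30 * Q) (h2 : |uT| ≤ 4 * Q) (h3 : |uZ| ≤ 30 * Q) (h4 : |gE| ≤ 130 * Q)
    (h5 : |gT| ≤ 3) (h6 : |gZ| ≤ 130 * Q) (h7 : |vE| ≤ Q) (h8 : |vT| ≤ Q) (h9 : |vZ - 1| ≤ Q)
    (h10 : |d - 2| ≤ 400 * Q) : |gT - 2| ≤ 700 * Q := by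
  have k1 : |vZ| ≤ 11 / 10 := by
    have := abs_le.1 h9
    rw [abs_le]
    constructor <;> linarith [this.1, this.2]
  have k2 : |uE| ≤ 4 := by
    have := abs_le.1 h1
    rw [abs_le]
    constructor <;> linarith [this.1, this.2]
  have k3 : |gZ| ≤ 13 := by linarith
  have k4 : |gE| ≤ 13 := by linarith
  have k5 : |uZ| ≤ 3 := by linarith
  have k6 : |uT| ≤ 4 / 10 := by linarith
  have m1 := abs_le.1 (PT2_m h5 (PT2_m h1 k1))
  have m2 := abs_le.1 (PT2_m h5 h9)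
  have m3 := abs_le.1 (PT2_m k2 (PT2_m k3 h8))
  have m4 := abs_le.1 (PT2_m k4 (PT2_m h2 k1))
  have m5 := abs_le.1 (PT2_m k4 (PT2_m k5 h8))
  have m6 := abs_le.1 (PT2_m h7 (PT2_m k6 k3))
  have m7 := abs_le.1 (PT2_m h7 (PT2_m k5 h5))
  have m8 := abs_le.1 h10
  have e : gT - 2 = (d - 2) - gT * ((uE - 1) * vZ) - gT * (vZ - 1) + uE * (gZ * vT) +
      gE * (uT * vZ) - gE * (uZ * vT) - vE * (uT * gZ) + vE * (uZ * gT) := by
    rw [hd]
    ring
  rw [e, abs_le]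
  constructor
  · linarith [m1.1, m1.2, m2.1, m2.2, m3.1, m3.2, m4.1, m4.2, m5.1, m5.2, m6.1, m6.2, m7.1,
      m7.2, m8.1, m8.2]
  · linarith [m1.1, m1.2, m2.1, m2.2, m3.1, m3.2, m4.1, m4.2, m5.1, m5.2, m6.1, m6.2, m7.1,
      m7.2, m8.1, m8.2]

theorem PT2_ratio (X Y : E3) (hX : 0 < ‖X‖) (Q : ℝ) (h1 : |‖Y‖ - ‖X‖| ≤ Q * ‖X‖) :
    |‖Y‖ / ‖X‖ - 1| ≤ Q := by
  have e : ‖Y‖ / ‖X‖ - 1 = (‖Y‖ - ‖X‖) / ‖X‖ := by
    field_simp
  rw [e, abs_div, abs_of_pos hX, div_le_iff₀ hX]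
  exact h1

/-- Estimate of the determinant. -/
theorem PT2_det2 (N s r τ D Q d nv : ℝ) (hQ0 : 0 ≤ Q) (hQ1 : Q ≤ 1 / 10) (hD0 : 0 ≤ D)
    (hDQ : 7000 * D ≤ Q) (hs0 : 0 ≤ s) (hs1 : s ≤ 17 / 16) (hs : |s - 1| ≤ 68 * Q)
    (hr0 : 0 ≤ r) (hr : |r - 1| ≤ 5 / 4 * D) (hN : N = 2 * s ^ 2 * r ^ 2) (hN3 : N ≤ 3)
    (hτ0 : 0 ≤ τ) (hd : d = τ * N) (hv : |nv - 1| ≤ Q) (hvt : |nv ^ 2 - τ ^ 2| ≤ 12 * Q ^ 2) :
    |d - 2| ≤ 400 * Q := by
  have hN0 : 0 ≤ N := by rw [hN]; positivity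
  have a1 := abs_le.1 hv
  have hQ2 : Q ^ 2 ≤ Q / 10 := by nlinarith
  have a2 : |nv + 1| ≤ 21 / 10 := by
    rw [abs_le]
    constructor <;> linarith [a1.1, a1.2]
  have a3 := abs_le.1 (PT2_m hv a2)
  have a4 := abs_le.1 hvt
  have a5 : |τ ^ 2 - 1| ≤ 33 / 10 * Q := by
    rw [abs_le]
    constructor <;> nlinarith [a3.1, a3.2, a4.1, a4.2]
  have a6 : |τ - 1| ≤ 33 / 10 * Q := by
    have e1 : |τ ^ 2 - 1| = |τ - 1| * (τ + 1) := by
      rw [show τ ^ 2 - 1 = (τ - 1) * (τ + 1) by ring, abs_mul,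
        abs_of_nonneg (by linarith : 0 ≤ τ + 1)]
    have e2 : |τ - 1| * 1 ≤ |τ - 1| * (τ + 1) :=
      mul_le_mul_of_nonneg_left (by linarith) (abs_nonneg _)
    linarith
  have hD1 : D ≤ 1 / 70000 := by linarith
  have b1 := abs_le.1 hr
  have b2 : |r + 1| ≤ 17 / 8 := by
    rw [abs_le]
    constructor <;> linarith [b1.1, b1.2]
  have b3 : |r ^ 2| ≤ 81 / 64 := by
    rw [abs_of_nonneg (by positivity)]
    have : r ≤ 9 / 8 := by linarith [b1.2]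
    nlinarith
  have b4 : |s + 1| ≤ 33 / 16 := by
    rw [abs_of_nonneg (by linarith)]
    linarith
  have c1 := abs_le.1 (PT2_m hs (PT2_m b4 b3))
  have c2 := abs_le.1 (PT2_m hr b2)
  have c3 : |N| ≤ 3 := by rw [abs_of_nonneg hN0]; exact hN3
  have c4 := abs_le.1 (PT2_m a6 c3)
  have e : d - 2 = (τ - 1) * N + 2 * ((s - 1) * ((s + 1) * r ^ 2)) + 2 * ((r - 1) * (r + 1)) := by
    rw [hd]
    have : N - 2 = 2 * ((s - 1) * ((s + 1) * r ^ 2)) + 2 * ((r - 1) * (r + 1)) := by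
      rw [hN]; ring
    linear_combination this
  rw [e, abs_le]
  constructor
  · linarith [c1.1, c2.1, c4.1]
  · linarith [c1.2, c2.2, c4.2]

/-- Norms are comparable. -/
theorem PT2_cmp (ρ : ℝ) (X Y : E3) (hρ : 0 < ρ) (hX : ρ < rad X)
    (h1 : |rad Y - rad X| ≤ ρ / 100) (h2 : |Y 2 - X 2| ≤ ρ / 100) :
    15 / 16 * ‖X‖ ≤ ‖Y‖ ∧ ‖Y‖ ≤ 17 / 16 * ‖X‖ ∧ ρ < ‖X‖ := by
  have h0 : ρ < ‖X‖ := hX.trans_le (rad_le_norm X)
  have h3 := PT2_nd X Y _ _ h1 h2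
  have h4 := PT2_nd Y X (ρ / 100) (ρ / 100) (by rw [abs_sub_comm]; exact h1)
    (by rw [abs_sub_comm]; exact h2)
  refine ⟨by linarith, by linarith, h0⟩

theorem PT2_shift_rad (X : E3) : rad (X - e3) = rad X := by
  unfold rad
  simp [e3_0, e3_1]

theorem PT2_shift_two (X : E3) : (X - e3) 2 = X 2 - 1 := by
  simp [e3_2]

theorem PT2_small (hTHREE : Stmt_THREE) (hAB : Stmt_AB) (hSTAR : Stmt_STAR) (hQF : Stmt_QF)
    (hBAS : Stmt_BAS) (ρ : ℝ) (hρ0 : 0 < ρ) (hρ1 : ρ ≤ 1) : ∃ κ C : ℝ, 0 < κ ∧ 0 < C ∧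
    ∀ (A : M3) (X Y : E3), Good A → ρ < rad X → ‖X‖ ≤ 80 → |rad Y - rad X| ≤ ρ / 100 →
    |Y 2 - X 2| ≤ ρ / 100 → 0 ≤ dfc A X Y → 0 ≤ dfc A (X - e3) (Y - e3) →
    dfc A X Y + dfc A (X - e3) (Y - e3) ≤ κ →
    ‖act A.transpose (et Y) - (2 : ℝ) • et X‖ ^ 2
      ≤ C * (dfc A X Y + dfc A (X - e3) (Y - e3)) := by
  set M : ℝ := 40000 / ρ with hM
  have hM1 : 40000 ≤ M := by
    rw [hM, le_div_iff₀ hρ0]; nlinarith
  have hM0 : 0 < M := by linarith
  have hMρ : M * ρ = 40000 := by rw [hM]; field_simp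
  refine ⟨1 / (100 * M ^ 2), 500000 * M ^ 2, by positivity, by positivity, ?_⟩
  intro A X Y hA hX hX80 hYr hY2 n0 n1 hδ
  have hr : 0 < rad X := hρ0.trans hX
  have hrY : 0 < rad Y := by have := (abs_le.1 hYr).1; linarith
  obtain ⟨x1, x2, hX0⟩ := PT2_cmp ρ X Y hρ0 hX hYr hY2
  obtain ⟨x3, x4, hX1⟩ := PT2_cmp ρ (X - e3) (Y - e3) hρ0 (by rw [PT2_shift_rad]; exact hX)
    (by rw [PT2_shift_rad, PT2_shift_rad]; exact hYr)
    (by rw [PT2_shift_two, PT2_shift_two, sub_sub_sub_cancel_right]; exact hY2)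
  have hXu : ‖X - e3‖ ≤ 81 := by
    have := norm_sub_le X e3
    rw [norm_e3] at this
    linarith
  set δ := dfc A X Y + dfc A (X - e3) (Y - e3) with hδd
  have hXp : 0 < ‖X‖ := hρ0.trans hX0
  have hX1p : 0 < ‖X - e3‖ := hρ0.trans hX1
  have hδ0 : 0 ≤ δ := by linarith
  set D := Real.sqrt δ with hD
  have hD0 : 0 ≤ D := Real.sqrt_nonneg _
  have hD2 : D ^ 2 = δ := Real.sq_sqrt hδ0
  have hDM : M * D ≤ 1 / 10 := by
    have h1 : (M * D) ^ 2 ≤ (1 / 10) ^ 2 := by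
      rw [mul_pow, hD2]
      calc M ^ 2 * δ ≤ M ^ 2 * (1 / (100 * M ^ 2)) := mul_le_mul_of_nonneg_left hδ (by positivity)
        _ = (1 / 10) ^ 2 := by field_simp; norm_num
    exact (pow_le_pow_iff_left₀ (by positivity) (by norm_num) (by norm_num)).1 h1
  have hD1 : D ≤ 1 / 10 := by nlinarith
  obtain ⟨a1, a2, a3, a4, a5, a6, a7, a8⟩ := one_pt hTHREE hQF hAB A X Y D hA hD0 hD1 hXp
    x1 x2 (by linarith)
  obtain ⟨-, -, -, -, -, -, b7, b8⟩ := one_pt hTHREE hQF hAB A (X - e3) (Y - e3) D hA hD0 hD1 hX1p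
    x3 x4 (by linarith)
  have c7 : ‖act A X - Y‖ ≤ 730 * D := by
    have : 9 * D * ‖X‖ ≤ 9 * D * 81 := mul_le_mul_of_nonneg_left (by linarith) (by positivity)
    linarith
  have d7 : ‖act A (X - e3) - (Y - e3)‖ ≤ 730 * D := by
    have : 9 * D * ‖X - e3‖ ≤ 9 * D * 81 := mul_le_mul_of_nonneg_left hXu (by positivity)
    linarith
  have c8 : Real.sqrt (qf A X) ≤ 243 * D := by
    have : 3 * D * ‖X‖ ≤ 3 * D * 81 := mul_le_mul_of_nonneg_left (by linarith) (by positivity)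
    linarith
  have d8 : Real.sqrt (qf A (X - e3)) ≤ 243 * D := by
    have : 3 * D * ‖X - e3‖ ≤ 3 * D * 81 := mul_le_mul_of_nonneg_left hXu (by positivity)
    linarith
  set Q := M * D with hQ
  have hQ0 : 0 ≤ Q := by positivity
  have hQD : 40000 * D ≤ Q := mul_le_mul_of_nonneg_right hM1 hD0
  have hQD2 : ρ * Q = 40000 * D := by rw [hQ, ← mul_assoc, mul_comm ρ M, hMρ]
  -- the vector e3
  have hq : ‖act A e3 - e3‖ ≤ 1460 * D := by
    have e1 : act A e3 - e3 = (act A X - Y) - (act A (X - e3) - (Y - e3)) := by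
      rw [act_sub]; abel
    rw [e1]
    refine (norm_sub_le _ _).trans ?_
    linarith
  have hqfe : Real.sqrt (qf A e3) ≤ 486 * D := by
    have h1 := (hQF A).2 X (X - e3) 1 (-1)
    have e1 : (1 : ℝ) • X + (-1 : ℝ) • (X - e3) = e3 := by
      rw [one_smul, neg_one_smul]; abel
    rw [e1, abs_one, abs_neg, abs_one, one_mul, one_mul] at h1
    linarith
  have hX2 : |X 2| ≤ 80 := by
    have h1 : X 2 ^ 2 ≤ ‖X‖ ^ 2 := by rw [nsq]; nlinarith [sq_nonneg (X 0), sq_nonneg (X 1)]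
    have h2 := abs_le_of_sq_le_sq' h1 (norm_nonneg _)
    rw [abs_le]
    constructor <;> linarith [h2.1, h2.2]
  have her : er X = (rad X)⁻¹ • X + (-(X 2) / rad X) • e3 := by
    have h1 := decomp X hr
    have h2 : (rad X)⁻¹ • X = (rad X)⁻¹ • (rad X • er X + X 2 • e3) := congrArg _ h1
    rw [smul_add, smul_smul, smul_smul, inv_mul_cancel₀ hr.ne', one_smul] at h2
    rw [h2, neg_div, neg_smul, div_eq_inv_mul]
    abel
  have hqfr : Real.sqrt (qf A (er X)) ≤ Q := by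
    have h1 := (hQF A).2 X e3 (rad X)⁻¹ (-(X 2) / rad X)
    rw [← her, abs_inv, abs_of_pos hr, abs_div, abs_neg, abs_of_pos hr] at h1
    have h2 : (rad X)⁻¹ * Real.sqrt (qf A X) + |X 2| / rad X * Real.sqrt (qf A e3)
        = (Real.sqrt (qf A X) + |X 2| * Real.sqrt (qf A e3)) / rad X := by
      field_simp
    rw [h2] at h1
    refine h1.trans ?_
    rw [div_le_iff₀ hr]
    have h3 : |X 2| * Real.sqrt (qf A e3) ≤ 80 * (486 * D) :=
      mul_le_mul hX2 hqfe (Real.sqrt_nonneg _) (by norm_num)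
    have h4 : Q * ρ ≤ Q * rad X := mul_le_mul_of_nonneg_left hX.le hQ0
    have h5 : Q * ρ = 40000 * D := by rw [mul_comm]; exact hQD2
    linarith
  have hqfe' : Real.sqrt (qf A e3) ≤ Q := by linarith
  -- STAR
  have hN0 : 0 < opn (cofm A) := by linarith
  have hcoef : 5 * tau A ^ 2 / opn (cofm A) ^ 2 ≤ 12 := by
    rw [div_le_iff₀ (by positivity)]
    have h1 : tau A ^ 2 ≤ (3 / 2) ^ 2 := pow_le_pow_left₀ a4 a5 2
    have h2 : (1 : ℝ) ^ 2 ≤ opn (cofm A) ^ 2 := pow_le_pow_left₀ (by norm_num) a2 2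
    linarith
  have hstar : ∀ (ξ ξ' : E3) (B B' : ℝ), Real.sqrt (qf A ξ) ≤ B → Real.sqrt (qf A ξ') ≤ B' →
      |(inner ℝ (act A ξ) (act A ξ') : ℝ) - tau A ^ 2 * inner ℝ ξ ξ'| ≤ 12 * (B * B') := by
    intro ξ ξ' B B' hB hB'
    refine (hSTAR A hA a1 ξ ξ').trans ?_
    have hB0 : 0 ≤ B := (Real.sqrt_nonneg _).trans hB
    apply mul_le_mul hcoef _ (by positivity) (by norm_num)
    exact mul_le_mul hB hB' (Real.sqrt_nonneg _) hB0
  have hs1 : |‖act A (er X)‖ ^ 2 - tau A ^ 2| ≤ 12 * Q ^ 2 := by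
    have h1 := hstar (er X) (er X) Q Q hqfr hqfr
    rw [real_inner_self_eq_norm_sq, real_inner_self_eq_norm_sq, norm_er X hr, one_pow,
      mul_one] at h1
    rw [sq Q]
    exact h1
  have hs2 : |‖act A e3‖ ^ 2 - tau A ^ 2| ≤ 12 * Q ^ 2 := by
    have h1 := hstar e3 e3 Q Q hqfe' hqfe'
    rw [real_inner_self_eq_norm_sq, real_inner_self_eq_norm_sq, norm_e3, one_pow,
      mul_one] at h1
    rw [sq Q]
    exact h1
  have hs3 : |(inner ℝ (act A (er X)) (act A e3) : ℝ)| ≤ 12 * Q ^ 2 := by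
    have h1 := hstar (er X) e3 Q Q hqfr hqfe'
    rw [inner_er_e3, mul_zero, sub_zero] at h1
    rw [sq Q]
    exact h1
  have hqft : Real.sqrt (qf A (et X)) ≤ 3 := by
    rw [Real.sqrt_le_left (by norm_num)]
    have h1 := ((hQF A).1 (et X)).2
    rw [norm_et X hr, one_pow, mul_one] at h1
    have h2 : opn (cofm A) ^ 2 ≤ 3 ^ 2 := pow_le_pow_left₀ hN0.le a3 2
    linarith
  have hs4 : |(inner ℝ (act A (et X)) (act A (er X)) : ℝ)| ≤ 36 * Q := by
    have h1 := hstar (et X) (er X) 3 Q hqft hqfr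
    rw [inner_et_er, mul_zero, sub_zero] at h1
    linarith
  have hs5 : |(inner ℝ (act A (et X)) (act A e3) : ℝ)| ≤ 36 * Q := by
    have h1 := hstar (et X) e3 3 Q hqft hqfe'
    rw [inner_et_e3, mul_zero, sub_zero] at h1
    linarith
  have hact : ∀ v : E3, ‖v‖ = 1 → ‖act A v‖ ≤ 3 := by
    intro v hv
    have h1 := hBAS.1 A v
    rw [hv, mul_one] at h1
    linarith
  -- decomposition of `A er`
  set w : E3 := (rad X)⁻¹ • ((act A X - Y) - X 2 • (act A e3 - e3)) with hw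
  have hwn : ‖w‖ ≤ 4 * Q := by
    rw [hw, norm_smul, norm_inv, Real.norm_eq_abs, abs_of_pos hr, inv_mul_le_iff₀ hr]
    have h1 : ‖(act A X - Y) - X 2 • (act A e3 - e3)‖ ≤ 730 * D + 80 * (1460 * D) := by
      refine (norm_sub_le _ _).trans (add_le_add c7 ?_)
      rw [norm_smul, Real.norm_eq_abs]
      exact mul_le_mul hX2 hq (norm_nonneg _) (by norm_num)
    have h2 : ρ * (4 * Q) ≤ rad X * (4 * Q) := mul_le_mul_of_nonneg_right hX.le (by positivity)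
    have h3 : ρ * (4 * Q) = 160000 * D := by linarith
    linarith
  have hu : act A (er X) = (rad Y / rad X) • er Y + ((Y 2 - X 2) / rad X) • e3 + w := by
    have h1 : act A (er X) = (rad X)⁻¹ • act A X + (-(X 2) / rad X) • act A e3 := by
      conv_lhs => rw [her]
      rw [act_comb]
    have h2 := decomp Y hrY
    rw [h1, hw]
    have h3 : (rad X)⁻¹ • Y = (rad X)⁻¹ • (rad Y • er Y + Y 2 • e3) := congrArg _ h2
    rw [smul_add, smul_smul, smul_smul] at h3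
    rw [smul_sub, smul_sub, h3, smul_smul, smul_sub]
    rw [show rad Y / rad X = (rad X)⁻¹ * rad Y by ring,
      show (Y 2 - X 2) / rad X = (rad X)⁻¹ * Y 2 - (rad X)⁻¹ * X 2 by ring,
      show -(X 2) / rad X = -((rad X)⁻¹ * X 2) by ring, neg_smul, sub_smul]
    abel
  have hQ1 : Q ≤ 1 / 10 := hDM
  have hv : ‖act A e3 - e3‖ ≤ Q := by linarith
  obtain ⟨-, -, r3, r4, r5, r6, r7, r8⟩ := fin_comp (act A (er X)) (act A e3) (act A (et X))
    (er Y) e3 w (rad Y / rad X) ((Y 2 - X 2) / rad X) Q (tau A ^ 2) hQ0 hQ1 (norm_er Y hrY)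
    norm_e3 (inner_er_e3 Y) (by positivity) hu hwn hv (hact _ (norm_er X hr))
    (hact _ norm_e3) (hact _ (norm_et X hr)) hs1 hs2 hs3 hs4 hs5
  -- the entries for `et Y`
  have cs : ∀ x y : E3, |(inner ℝ x y : ℝ)| ≤ ‖x‖ * ‖y‖ := abs_real_inner_le_norm
  have huT : (inner ℝ (et Y) (act A (er X)) : ℝ) = inner ℝ (et Y) w := by
    rw [hu, inner_add_right, inner_add_right, inner_smul_right, inner_smul_right, inner_et_er,
      inner_et_e3]
    ring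
  have t1 : |(inner ℝ (et Y) (act A (er X)) : ℝ)| ≤ 4 * Q := by
    rw [huT]
    have := cs (et Y) w
    rw [norm_et Y hrY, one_mul] at this
    linarith
  have t2 : |(inner ℝ (et Y) (act A e3) : ℝ)| ≤ Q := by
    have e1 : (inner ℝ (et Y) (act A e3) : ℝ) = inner ℝ (et Y) (act A e3 - e3) := by
      rw [inner_sub_right, inner_et_e3, sub_zero]
    rw [e1]
    have := cs (et Y) (act A e3 - e3)
    rw [norm_et Y hrY, one_mul] at this
    linarith
  have t3 : |(inner ℝ (et Y) (act A (et X)) : ℝ)| ≤ 3 := by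
    have h1 := cs (et Y) (act A (et X))
    have h2 := hact _ (norm_et X hr)
    rw [norm_et Y hrY, one_mul] at h1
    linarith
  -- the ratio of the norms
  have hEw : |(inner ℝ (er Y) w : ℝ)| ≤ 4 * Q := by
    have := cs (er Y) w
    rw [norm_er Y hrY, one_mul] at this
    linarith
  have hZw : |(inner ℝ e3 w : ℝ)| ≤ 4 * Q := by
    have := cs e3 w
    rw [norm_e3, one_mul] at this
    linarith
  have hee : (inner ℝ (er Y) (er Y) : ℝ) = 1 := by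
    rw [real_inner_self_eq_norm_sq, norm_er Y hrY, one_pow]
  have hzz : (inner ℝ e3 e3 : ℝ) = 1 := by
    rw [real_inner_self_eq_norm_sq, norm_e3, one_pow]
  have hze : (inner ℝ e3 (er Y) : ℝ) = 0 := by rw [real_inner_comm]; exact inner_er_e3 Y
  have hEu : (inner ℝ (er Y) (act A (er X)) : ℝ) = rad Y / rad X + inner ℝ (er Y) w := by
    rw [hu, inner_add_right, inner_add_right, inner_smul_right, inner_smul_right, hee,
      inner_er_e3]
    ring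
  have hZu : (inner ℝ e3 (act A (er X)) : ℝ) = (Y 2 - X 2) / rad X + inner ℝ e3 w := by
    rw [hu, inner_add_right, inner_add_right, inner_smul_right, inner_smul_right, hze, hzz]
    ring
  have s1 : |rad Y / rad X - 1| ≤ 34 * Q := by
    have g1 := abs_le.1 hEw
    have g2 := abs_le.1 r3
    rw [hEu] at g2
    rw [abs_le]
    constructor <;> linarith [g1.1, g1.2, g2.1, g2.2]
  have s2 : |(Y 2 - X 2) / rad X| ≤ 34 * Q := by
    have g1 := abs_le.1 hZw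
    have g2 := abs_le.1 r4
    rw [hZu] at g2
    rw [abs_le]
    constructor <;> linarith [g1.1, g1.2, g2.1, g2.2]
  have s3 : |rad Y - rad X| ≤ 34 * Q * rad X := by
    have e1 : rad Y - rad X = (rad Y / rad X - 1) * rad X := by field_simp
    rw [e1, abs_mul, abs_of_pos hr]
    exact mul_le_mul_of_nonneg_right s1 hr.le
  have s4 : |Y 2 - X 2| ≤ 34 * Q * rad X := by
    have e1 : Y 2 - X 2 = ((Y 2 - X 2) / rad X) * rad X := by field_simp
    rw [e1, abs_mul, abs_of_pos hr]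
    exact mul_le_mul_of_nonneg_right s2 hr.le
  have s5 : |‖Y‖ - ‖X‖| ≤ 68 * Q * ‖X‖ := by
    have g1 := PT2_nd X Y _ _ s3 s4
    have g2 := PT2_nd Y X (34 * Q * rad X) (34 * Q * rad X) (by rw [abs_sub_comm]; exact s3)
      (by rw [abs_sub_comm]; exact s4)
    have g3 : 34 * Q * rad X ≤ 34 * Q * ‖X‖ :=
      mul_le_mul_of_nonneg_left (rad_le_norm X) (by positivity)
    rw [abs_le]
    constructor <;> linarith
  have s6 := PT2_ratio X Y hXp _ s5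
  -- the determinant
  have hYp : 0 < ‖Y‖ := by linarith
  set s : ℝ := ‖Y‖ / ‖X‖ with hs
  have hs0 : 0 < s := div_pos hYp hXp
  have hs17 : s ≤ 17 / 16 := by rw [hs, div_le_iff₀ hXp]; exact x2
  have hbn : ‖‖X‖⁻¹ • X‖ = 1 := by
    rw [norm_smul, norm_inv, norm_norm]; exact inv_mul_cancel₀ hXp.ne'
  have hyn : ‖‖Y‖⁻¹ • Y‖ = 1 := by
    rw [norm_smul, norm_inv, norm_norm]; exact inv_mul_cancel₀ hYp.ne'
  have hdf : dfc A X Y = (2 / 3) * A.det / s ^ 3 + 2 / 3 -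
      cpair A (‖Y‖⁻¹ • Y) (‖X‖⁻¹ • X) / s ^ 2 := by
    unfold dfc
    have e1 : ‖X‖ / ‖Y‖ = 1 / s := by rw [hs]; field_simp
    rw [e1]
    field_simp
  obtain ⟨-, -, p2, -⟩ := hTHREE A _ _ s (dfc A X Y) hA hs0 hbn hyn hdf
  set N := opn (cofm A) with hN
  set r := Real.sqrt (N / (2 * s ^ 2)) with hr'
  have hr0 : 0 ≤ r := Real.sqrt_nonneg _
  have hr2 : r ^ 2 = N / (2 * s ^ 2) := Real.sq_sqrt (by positivity)
  have hNr : N = 2 * s ^ 2 * r ^ 2 := by rw [hr2]; field_simp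
  have hr1 : (r - 1) ^ 2 ≤ (5 / 4 * D) ^ 2 := by nlinarith
  have hrabs : |r - 1| ≤ 5 / 4 * D := by
    have := Real.sqrt_le_sqrt hr1
    rwa [Real.sqrt_sq_eq_abs, Real.sqrt_sq (by positivity)] at this
  have hdt : A.det = tau A * N := by
    unfold tau
    rw [← hN]
    field_simp
  have hnv : |‖act A e3‖ - 1| ≤ Q := by
    have := abs_norm_sub_norm_le (act A e3) e3
    rw [norm_e3] at this
    exact this.trans hv
  have hdet := PT2_det2 N s r (tau A) D Q A.det ‖act A e3‖ hQ0 hQ1 hD0 (by linarith) hs0.le hs17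
    s6 hr0 hrabs hNr a3 a4 hdt hnv hs2
  have hlam := PT2_lam _ _ _ _ _ _ _ _ _ Q A.det hQ0 hQ1 (PT2_det A X Y hr hrY) r3 t1 r4 r7 t3 r8
    r5 t2 r6 hdet
  -- conclusion
  have z1 : (inner ℝ (er X) (act A.transpose (et Y) - (2 : ℝ) • et X) : ℝ) =
      inner ℝ (et Y) (act A (er X)) := by
    rw [inner_sub_right, inner_smul_right, real_inner_comm (act A.transpose (et Y)), PT2_tr,
      real_inner_comm (et X), inner_et_er]
    ring
  have z2 : (inner ℝ (et X) (act A.transpose (et Y) - (2 : ℝ) • et X) : ℝ) =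
      inner ℝ (et Y) (act A (et X)) - 2 := by
    rw [inner_sub_right, inner_smul_right, real_inner_comm (act A.transpose (et Y)), PT2_tr,
      real_inner_self_eq_norm_sq, norm_et X hr]
    ring
  have z3 : (inner ℝ e3 (act A.transpose (et Y) - (2 : ℝ) • et X) : ℝ) =
      inner ℝ (et Y) (act A e3) := by
    rw [inner_sub_right, inner_smul_right, real_inner_comm (act A.transpose (et Y)), PT2_tr,
      real_inner_comm (et X), inner_et_e3]
    ring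
  rw [PT2_sum X _ hr, z1, z2, z3]
  have y1 : (inner ℝ (et Y) (act A (er X)) : ℝ) ^ 2 ≤ (4 * Q) ^ 2 := by
    rw [← sq_abs]; exact pow_le_pow_left₀ (abs_nonneg _) t1 2
  have y2 : ((inner ℝ (et Y) (act A (et X)) : ℝ) - 2) ^ 2 ≤ (700 * Q) ^ 2 := by
    rw [← sq_abs]; exact pow_le_pow_left₀ (abs_nonneg _) hlam 2
  have y3 : (inner ℝ (et Y) (act A e3) : ℝ) ^ 2 ≤ Q ^ 2 := by
    rw [← sq_abs]; exact pow_le_pow_left₀ (abs_nonneg _) t2 2
  have hQδ : Q ^ 2 = M ^ 2 * δ := by rw [hQ, mul_pow, hD2]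
  have hQδ0 : 0 ≤ Q ^ 2 := by positivity
  have h4 : 500000 * M ^ 2 * δ = 500000 * Q ^ 2 := by rw [hQδ]; ring
  rw [h4]
  linarith

theorem p_PT2 (hTHREE : Pool.Mart.Stmt_THREE) (hAB : Pool.Mart.Stmt_AB)
    (hSTAR : Pool.Mart.Stmt_STAR) (hQF : Pool.Mart.Stmt_QF) (hENB : Pool.Mart.Stmt_ENB)
    (hBAS : Pool.Mart.Stmt_BAS) : Stmt_PT2 := by
  intro ρ hρ0 hρ1
  obtain ⟨κ, C, hκ, hC, hsmall⟩ := PT2_small hTHREE hAB hSTAR hQF hBAS ρ hρ0 hρ1
  obtain ⟨C', hC', henb⟩ := hENB (1 / 2) (by norm_num)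
  refine ⟨C + (6 * (1 + C' * (1 + κ)) + 8) / κ, by positivity, ?_⟩
  intro A X Y hA hX hX80 hYr hY2
  have hr : 0 < rad X := hρ0.trans hX
  have hrY : 0 < rad Y := by have := (abs_le.1 hYr).1; linarith
  obtain ⟨x1, x2, hX0⟩ := PT2_cmp ρ X Y hρ0 hX hYr hY2
  obtain ⟨x3, x4, hX1⟩ := PT2_cmp ρ (X - e3) (Y - e3) hρ0 (by rw [PT2_shift_rad]; exact hX)
    (by rw [PT2_shift_rad, PT2_shift_rad]; exact hYr)
    (by rw [PT2_shift_two, PT2_shift_two, sub_sub_sub_cancel_right]; exact hY2)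
  have hXp : 0 < ‖X‖ := hρ0.trans hX0
  have hX1p : 0 < ‖X - e3‖ := hρ0.trans hX1
  obtain ⟨n0, m0, -⟩ := henb A X Y hA (norm_pos_iff.1 hXp) (by linarith) (by linarith)
  obtain ⟨n1, -, -⟩ := henb A (X - e3) (Y - e3) hA (norm_pos_iff.1 hX1p) (by linarith)
    (by linarith)
  refine ⟨n0, n1, ?_⟩
  set δ := dfc A X Y + dfc A (X - e3) (Y - e3) with hδd
  have hδ0 : 0 ≤ δ := by linarith
  have hE : 0 ≤ (6 * (1 + C' * (1 + κ)) + 8) / κ := by positivity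
  rcases le_total δ κ with hle | hle
  · have h1 := hsmall A X Y hA hX hX80 hYr hY2 n0 n1 hle
    rw [← hδd] at h1
    refine h1.trans ?_
    rw [add_mul]
    have := mul_nonneg hE hδ0
    linarith
  · -- large defect
    have ho : 0 ≤ opn A := norm_nonneg _
    have o1 : opn A ^ 2 ≤ 1 + opn A ^ 3 := by
      rcases le_total (opn A) 1 with h | h
      · have h2 : opn A ^ 2 ≤ 1 := by nlinarith
        have h3 : 0 ≤ opn A ^ 3 := by positivity
        linarith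
      · have h3 : opn A ^ 2 ≤ opn A ^ 3 := pow_le_pow_right₀ h (by norm_num)
        linarith
    have o2 : opn A ^ 3 ≤ C' * (1 + δ) := by
      refine m0.trans (mul_le_mul_of_nonneg_left (by linarith) hC'.le)
    have cs : ∀ x y : E3, |(inner ℝ x y : ℝ)| ≤ ‖x‖ * ‖y‖ := abs_real_inner_le_norm
    have k0 : ∀ v : E3, ‖v‖ = 1 → (inner ℝ v (act A.transpose (et Y)) : ℝ) ^ 2 ≤ opn A ^ 2 := by
      intro v hv
      rw [real_inner_comm, PT2_tr]
      have h1 := cs (et Y) (act A v)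
      have h2 := hBAS.1 A v
      rw [norm_et Y hrY, one_mul] at h1
      rw [hv, mul_one] at h2
      rw [← sq_abs]
      exact pow_le_pow_left₀ (abs_nonneg _) (h1.trans h2) 2
    have k1 : ‖act A.transpose (et Y)‖ ^ 2 ≤ 3 * opn A ^ 2 := by
      rw [PT2_sum X _ hr]
      have := k0 _ (norm_er X hr)
      have := k0 _ (norm_et X hr)
      have := k0 _ norm_e3
      linarith
    have k2 : ‖act A.transpose (et Y) - (2 : ℝ) • et X‖ ^ 2 ≤
        2 * ‖act A.transpose (et Y)‖ ^ 2 + 8 := by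
      have h1 := norm_sub_le (act A.transpose (et Y)) ((2 : ℝ) • et X)
      rw [norm_smul, norm_et X hr] at h1
      have h2 : ‖(2 : ℝ)‖ * 1 = 2 := by norm_num
      rw [h2] at h1
      have h3 : ‖act A.transpose (et Y) - (2 : ℝ) • et X‖ ^ 2 ≤
          (‖act A.transpose (et Y)‖ + 2) ^ 2 := pow_le_pow_left₀ (norm_nonneg _) h1 2
      nlinarith [sq_nonneg (‖act A.transpose (et Y)‖ - 2)]
    have k3 : ‖act A.transpose (et Y) - (2 : ℝ) • et X‖ ^ 2 ≤ 6 * (1 + C' * (1 + δ)) + 8 := by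
      linarith
    refine k3.trans ?_
    have k4 : 6 * (1 + C' * (1 + δ)) + 8 ≤ (6 * (1 + C' * (1 + κ)) + 8) / κ * δ := by
      rw [div_mul_eq_mul_div, le_div_iff₀ hκ]
      have u1 : 0 ≤ C' * (δ - κ) := mul_nonneg hC'.le (by linarith)
      nlinarith
    rw [add_mul]
    have := mul_nonneg hC.le hδ0
    linarith

end Pool.Flat
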