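import Pool.Agent.Work.MP_680515_fl.Iface3

/-!
# MP_680515_an, THEOREM FB, block QGR: calculus of `qre`, `qim`
-/

open MeasureTheory Set Filter Topology

namespace Pool.Flat

open Pool.Mart

theorem QGR_core (a b c e a' b' c' e' : ℝ) (fa fb fc fe : ℝ → ℝ) (ha : HasDerivAt fa a' 0)
    (hb : HasDerivAt fb b' 0) (hc : HasDerivAt fc c' 0) (he : HasDerivAt fe e' 0)
    (ha0 : fa 0 = a) (hb0 : fb 0 = b) (hc0 : fc 0 = c) (he0 : fe 0 = e)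
    (hR : 0 < a ^ 2 + b ^ 2) (hS : 0 < c ^ 2 + e ^ 2) :
    HasDerivAt (fun t => (fc t * (fa t ^ 2 - fb t ^ 2) + fe t * (2 * fa t * fb t)) /
      (Real.sqrt (fc t ^ 2 + fe t ^ 2) * Real.sqrt (fa t ^ 2 + fb t ^ 2) ^ 2))
      (-((e * (a ^ 2 - b ^ 2) - c * (2 * a * b)) /
        (Real.sqrt (c ^ 2 + e ^ 2) * Real.sqrt (a ^ 2 + b ^ 2) ^ 2)) *
        ((c * e' - e * c') / (c ^ 2 + e ^ 2) - 2 * ((a * b' - b * a') / (a ^ 2 + b ^ 2)))) 0 := by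
  subst ha0 hb0 hc0 he0
  have hS2 : HasDerivAt (fun t => fc t ^ 2 + fe t ^ 2) (2 * fc 0 * c' + 2 * fe 0 * e') 0 := by
    refine ((hc.pow 2).add (he.pow 2)).congr_deriv ?_
    simp
  have hR2 : HasDerivAt (fun t => fa t ^ 2 + fb t ^ 2) (2 * fa 0 * a' + 2 * fb 0 * b') 0 := by
    refine ((ha.pow 2).add (hb.pow 2)).congr_deriv ?_
    simp
  have h1 := hS2.sqrt hS.ne'
  have h2 := (hR2.sqrt hR.ne').pow 2
  have hRp : 0 < Real.sqrt (fa 0 ^ 2 + fb 0 ^ 2) := Real.sqrt_pos.2 hR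
  have hSp : 0 < Real.sqrt (fc 0 ^ 2 + fe 0 ^ 2) := Real.sqrt_pos.2 hS
  have hRq : Real.sqrt (fa 0 ^ 2 + fb 0 ^ 2) ^ 2 = fa 0 ^ 2 + fb 0 ^ 2 := Real.sq_sqrt hR.le
  have hSq : Real.sqrt (fc 0 ^ 2 + fe 0 ^ 2) ^ 2 = fc 0 ^ 2 + fe 0 ^ 2 := Real.sq_sqrt hS.le
  have h3 : HasDerivAt (fun t => fc t * (fa t ^ 2 - fb t ^ 2) + fe t * (2 * fa t * fb t))
      (c' * (fa 0 ^ 2 - fb 0 ^ 2) + fc 0 * (2 * fa 0 * a' - 2 * fb 0 * b') +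
        (e' * (2 * fa 0 * fb 0) + fe 0 * (2 * a' * fb 0 + 2 * fa 0 * b'))) 0 := by
    refine ((hc.mul ((ha.pow 2).sub (hb.pow 2))).add
      (he.mul ((ha.const_mul 2).mul hb))).congr_deriv ?_
    simp
  have h4 := h3.div (h1.mul h2) (mul_pos hSp (pow_pos hRp 2)).ne'
  refine h4.congr_deriv ?_
  simp only [Pi.mul_apply, Pi.pow_apply]
  generalize Real.sqrt (fa 0 ^ 2 + fb 0 ^ 2) = R at *
  generalize Real.sqrt (fc 0 ^ 2 + fe 0 ^ 2) = S at *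
  rw [← hRq, ← hSq]
  have hR0 : R ≠ 0 := hRp.ne'
  have hS0 : S ≠ 0 := hSp.ne'
  field_simp
  norm_num
  linear_combination (exp := 1)
    R * ((c' * (fa 0 ^ 2 - fb 0 ^ 2) + fc 0 * 2 * (fa 0 * a' - fb 0 * b') +
      2 * (fa 0 * fb 0 * e' + fe 0 * (fb 0 * a' + fa 0 * b'))) * S ^ 2 -
      ((fa 0 ^ 2 - fb 0 ^ 2) * fc 0 + fa 0 * fb 0 * 2 * fe 0) * (c' * fc 0 + e' * fe 0) +
      ((fa 0 ^ 2 - fb 0 ^ 2) * fe 0 - fa 0 * fb 0 * fc 0 * 2) * (fc 0 * e' - c' * fe 0)) * hRq +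
    R * ((c' * (fa 0 ^ 2 - fb 0 ^ 2) + fc 0 * 2 * (fa 0 * a' - fb 0 * b') +
      2 * (fa 0 * fb 0 * e' + fe 0 * (fb 0 * a' + fa 0 * b'))) * (fa 0 ^ 2 + fb 0 ^ 2) -
      2 * ((fa 0 ^ 2 - fb 0 ^ 2) * fc 0 + fa 0 * fb 0 * 2 * fe 0) * (fa 0 * a' + fb 0 * b') -
      2 * ((fa 0 ^ 2 - fb 0 ^ 2) * fe 0 - fa 0 * fb 0 * fc 0 * 2) * (fa 0 * b' - fb 0 * a')) * hSq

/-- the line through a pair of points -/
theorem QGR_line (X v : E3) (j : Fin 3) : HasDerivAt (fun t : ℝ => (X + t • v) j) (v j) 0 := by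
  have h : (fun t : ℝ => (X + t • v) j) = fun t => X j + t * v j := by
    funext t
    simp
  rw [h]
  simpa using ((hasDerivAt_id (0 : ℝ)).mul_const (v j)).const_add (X j)

theorem QGR_coord (p : E3 × E3) (j : Fin 3) :
    ContDiffAt ℝ 1 (fun q : E3 × E3 => q.1 j) p ∧ ContDiffAt ℝ 1 (fun q : E3 × E3 => q.2 j) p := by
  have h : ContDiff ℝ 1 (fun x : E3 => x j) := (EuclideanSpace.proj (𝕜 := ℝ) j).contDiff
  exact ⟨(h.comp contDiff_fst).contDiffAt, (h.comp contDiff_snd).contDiffAt⟩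

theorem QGR_cd (X Y : E3) (hX : 0 < rad X) (hY : 0 < rad Y) :
    ContDiffAt ℝ 1 (fun q : E3 × E3 => qre q.1 q.2) (X, Y) ∧
    ContDiffAt ℝ 1 (fun q : E3 × E3 => qim q.1 q.2) (X, Y) := by
  have hX' : X 0 ^ 2 + X 1 ^ 2 ≠ 0 := (Real.sqrt_pos.1 hX).ne'
  have hY' : Y 0 ^ 2 + Y 1 ^ 2 ≠ 0 := (Real.sqrt_pos.1 hY).ne'
  have a0 := QGR_coord (X, Y) 0
  have a1 := QGR_coord (X, Y) 1
  have hr1 : ContDiffAt ℝ 1 (fun q : E3 × E3 => rad q.1) (X, Y) :=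
    ((a0.1.pow 2).add (a1.1.pow 2)).sqrt hX'
  have hr2 : ContDiffAt ℝ 1 (fun q : E3 × E3 => rad q.2) (X, Y) :=
    ((a0.2.pow 2).add (a1.2.pow 2)).sqrt hY'
  have hd : ContDiffAt ℝ 1 (fun q : E3 × E3 => rad q.2 * rad q.1 ^ 2) (X, Y) := hr2.mul (hr1.pow 2)
  have hne : rad Y * rad X ^ 2 ≠ 0 := (mul_pos hY (pow_pos hX 2)).ne'
  have hs : ContDiffAt ℝ 1 (fun q : E3 × E3 => q.1 0 ^ 2 - q.1 1 ^ 2) (X, Y) :=
    (a0.1.pow 2).sub (a1.1.pow 2)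
  have hp : ContDiffAt ℝ 1 (fun q : E3 × E3 => 2 * q.1 0 * q.1 1) (X, Y) :=
    (contDiffAt_const.mul a0.1).mul a1.1
  exact ⟨((a0.2.mul hs).add (a1.2.mul hp)).div hd hne,
    ((a1.2.mul hs).sub (a0.2.mul hp)).div hd hne⟩

theorem QGR_in (X v : E3) (_hX : 0 < rad X) : inner ℝ (et X) v / rad X =
    (X 0 * v 1 - X 1 * v 0) / (X 0 ^ 2 + X 1 ^ 2) := by
  have h0 : 0 < X 0 ^ 2 + X 1 ^ 2 := Real.sqrt_pos.1 _hX
  have h1 : rad X ^ 2 = X 0 ^ 2 + X 1 ^ 2 := Real.sq_sqrt h0.le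
  rw [← h1]
  have h2 : inner ℝ (et X) v = (X 0 * v 1 - X 1 * v 0) / rad X := by
    simp only [et, PiLp.inner_apply, Fin.sum_univ_three]
    simp
    ring
  rw [h2, div_div, ← pow_two]

theorem p_QGR : Stmt_QGR := by
  intro X Y hX hY
  have hX0 : 0 < X 0 ^ 2 + X 1 ^ 2 := Real.sqrt_pos.1 hX
  have hY0 : 0 < Y 0 ^ 2 + Y 1 ^ 2 := Real.sqrt_pos.1 hY
  have hXq : rad X ^ 2 = X 0 ^ 2 + X 1 ^ 2 := Real.sq_sqrt hX0.le
  have hYq : rad Y ^ 2 = Y 0 ^ 2 + Y 1 ^ 2 := Real.sq_sqrt hY0.le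
  have hX1 := hX.ne'
  have hY1 := hY.ne'
  obtain ⟨c1, c2⟩ := QGR_cd X Y hX hY
  refine ⟨?_, c1, c2, ?_, ?_, ?_, ?_⟩
  · unfold qre qim
    rw [div_pow, div_pow, ← add_div, div_eq_one_iff_eq (pow_ne_zero 2 (mul_ne_zero hY1
      (pow_ne_zero 2 hX1)))]
    have : (rad Y * rad X ^ 2) ^ 2 = (Y 0 ^ 2 + Y 1 ^ 2) * (X 0 ^ 2 + X 1 ^ 2) ^ 2 := by
      rw [mul_pow, hXq, hYq]
    rw [this]
    ring
  · intro v w
    have hd := (c1.differentiableAt one_ne_zero).hasFDerivAt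
    have hl : HasDerivAt (fun t : ℝ => ((X, Y) : E3 × E3) + t • (v, w)) (v, w) 0 := by
      simpa using ((hasDerivAt_id (0 : ℝ)).smul_const ((v, w) : E3 × E3)).const_add
        ((X, Y) : E3 × E3)
    have h0 : ((X, Y) : E3 × E3) + (0 : ℝ) • (v, w) = (X, Y) := by simp
    rw [← h0] at hd
    have h1 := hd.comp_hasDerivAt (0 : ℝ) hl
    rw [h0] at h1
    have h2 := QGR_core (X 0) (X 1) (Y 0) (Y 1) (v 0) (v 1) (w 0) (w 1) _ _ _ _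
      (QGR_line X v 0) (QGR_line X v 1) (QGR_line Y w 0) (QGR_line Y w 1) (by simp) (by simp)
      (by simp) (by simp) hX0 hY0
    refine (h1.unique h2).trans ?_
    rw [mul_div_assoc (2 : ℝ) (inner ℝ (et X) v) (rad X), QGR_in X v hX, QGR_in Y w hY]
    rfl
  · intro v w
    have hd := (c2.differentiableAt one_ne_zero).hasFDerivAt
    have hl : HasDerivAt (fun t : ℝ => ((X, Y) : E3 × E3) + t • (v, w)) (v, w) 0 := by
      simpa using ((hasDerivAt_id (0 : ℝ)).smul_const ((v, w) : E3 × E3)).const_add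
        ((X, Y) : E3 × E3)
    have h0 : ((X, Y) : E3 × E3) + (0 : ℝ) • (v, w) = (X, Y) := by simp
    rw [← h0] at hd
    have h1 := hd.comp_hasDerivAt (0 : ℝ) hl
    rw [h0] at h1
    have h2 := QGR_core (X 0) (X 1) (Y 1) (-(Y 0)) (v 0) (v 1) (w 1) (-(w 0)) _ _ _ _
      (QGR_line X v 0) (QGR_line X v 1) (QGR_line Y w 1) (QGR_line Y w 0).neg (by simp) (by simp)
      (by simp) (by simp) hX0 (by nlinarith)
    have h3 : ((fun q : E3 × E3 => qim q.1 q.2) ∘ fun t : ℝ => ((X, Y) : E3 × E3) + t • (v, w)) =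
        fun t => ((Y + t • w) 1 * ((X + t • v) 0 ^ 2 - (X + t • v) 1 ^ 2) +
          (-(fun t : ℝ => (Y + t • w) 0)) t * (2 * (X + t • v) 0 * (X + t • v) 1)) /
      (Real.sqrt ((Y + t • w) 1 ^ 2 + (-(fun t : ℝ => (Y + t • w) 0)) t ^ 2) *
        Real.sqrt ((X + t • v) 0 ^ 2 + (X + t • v) 1 ^ 2) ^ 2) := by
      funext t
      simp only [Function.comp, qim, rad, Pi.neg_apply, neg_sq, neg_mul, ← sub_eq_add_neg]
      rw [add_comm (((Y + t • w) 1) ^ 2)]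
      rfl
    rw [h3] at h1
    refine (h1.unique h2).trans ?_
    rw [mul_div_assoc (2 : ℝ) (inner ℝ (et X) v) (rad X), QGR_in X v hX, QGR_in Y w hY]
    unfold qre rad
    rw [neg_sq, add_comm (Y 1 ^ 2)]
    ring
  · unfold qre qim
    have h1 : rad Y * ((Y 0 * (X 0 ^ 2 - X 1 ^ 2) + Y 1 * (2 * X 0 * X 1)) /
        (rad Y * rad X ^ 2) * (X 0 ^ 2 - X 1 ^ 2) -
        (Y 1 * (X 0 ^ 2 - X 1 ^ 2) - Y 0 * (2 * X 0 * X 1)) / (rad Y * rad X ^ 2) *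
          (2 * X 0 * X 1)) / rad X ^ 2 = Y 0 * (X 0 ^ 2 + X 1 ^ 2) ^ 2 / (rad X ^ 2) ^ 2 := by
      field_simp
      ring
    rw [h1, hXq, mul_div_assoc, div_self (pow_ne_zero 2 hX0.ne'), mul_one]
  · unfold qre qim
    have h1 : rad Y * ((Y 1 * (X 0 ^ 2 - X 1 ^ 2) - Y 0 * (2 * X 0 * X 1)) /
        (rad Y * rad X ^ 2) * (X 0 ^ 2 - X 1 ^ 2) +
        (Y 0 * (X 0 ^ 2 - X 1 ^ 2) + Y 1 * (2 * X 0 * X 1)) / (rad Y * rad X ^ 2) *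
          (2 * X 0 * X 1)) / rad X ^ 2 = Y 1 * (X 0 ^ 2 + X 1 ^ 2) ^ 2 / (rad X ^ 2) ^ 2 := by
      field_simp
      ring
    rw [h1, hXq, mul_div_assoc, div_self (pow_ne_zero 2 hX0.ne'), mul_one]

end Pool.Flat
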