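import Pool.Agent.Work.MP_680515_fl.Iface1

/-!
# MP_680515_an, THEOREM FB: block RNG (the ring inequality)
-/

open MeasureTheory Set Filter Topology

namespace Pool.Flat

open Pool.Mart

theorem RNG_cpair_smul_left (A : M3) (c : ℝ) (H b : E3) :
    cpair A (c • H) b = c * cpair A H b := by
  unfold cpair
  rw [Finset.mul_sum]
  refine Finset.sum_congr rfl fun i _ => ?_
  rw [Finset.mul_sum]
  refine Finset.sum_congr rfl fun j _ => ?_
  simp only [PiLp.smul_apply, smul_eq_mul]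
  ring

theorem RNG_fx_eq (A : M3) (X Y : E3) :
    fx A X Y = (‖Y‖ ^ 2)⁻¹ * cpair A (‖Y‖⁻¹ • Y) (‖X‖⁻¹ • X) := by
  unfold fx
  rw [← RNG_cpair_smul_left, smul_smul, ← mul_inv, ← pow_succ]

theorem RNG_fx_bound (hB : Stmt_BAS) (M : M3) (X Y : E3) :
    |fx M X Y| ≤ (‖Y‖ ^ 2)⁻¹ * opn M ^ 2 := by
  rw [RNG_fx_eq, abs_mul, abs_of_nonneg (by positivity : (0 : ℝ) ≤ (‖Y‖ ^ 2)⁻¹)]
  refine mul_le_mul_of_nonneg_left ?_ (by positivity)
  rw [hB.2.2.1]
  have h0 : (0 : ℝ) ≤ opn (cofm M) := norm_nonneg _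
  have hu : ∀ v : E3, ‖‖v‖⁻¹ • v‖ ≤ 1 := by
    intro v
    rw [norm_smul, norm_inv, norm_norm]
    exact inv_mul_le_one
  calc |inner ℝ (‖Y‖⁻¹ • Y) (act (cofm M) (‖X‖⁻¹ • X))|
      ≤ ‖‖Y‖⁻¹ • Y‖ * ‖act (cofm M) (‖X‖⁻¹ • X)‖ := abs_real_inner_le_norm _ _
    _ ≤ 1 * (opn (cofm M) * 1) := by
        refine mul_le_mul (hu Y) ?_ (norm_nonneg _) zero_le_one
        exact (hB.1 _ _).trans (mul_le_mul_of_nonneg_left (hu X) h0)
    _ ≤ opn M ^ 2 := by rw [one_mul, mul_one]; exact hB.2.2.2.2.2.1 M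

theorem RNG_dfc_nonneg (hEN : Stmt_ENB) {M : M3} {X Y : E3} (hM : Good M) (hX : X ≠ 0)
    (hY : Y ≠ 0) : 0 ≤ dfc M X Y := by
  have hX' : 0 < ‖X‖ := norm_pos_iff.mpr hX
  have hY' : 0 < ‖Y‖ := norm_pos_iff.mpr hY
  obtain ⟨C, -, hC⟩ := hEN (min (‖Y‖ / ‖X‖) (‖X‖ / ‖Y‖))
    (lt_min (div_pos hY' hX') (div_pos hX' hY'))
  refine (hC M X Y hM hX ?_ ?_).1
  · calc min (‖Y‖ / ‖X‖) (‖X‖ / ‖Y‖) * ‖X‖ ≤ ‖Y‖ / ‖X‖ * ‖X‖ :=
        mul_le_mul_of_nonneg_right (min_le_left _ _) hX'.le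
      _ = ‖Y‖ := div_mul_cancel₀ _ hX'.ne'
  · calc min (‖Y‖ / ‖X‖) (‖X‖ / ‖Y‖) * ‖Y‖ ≤ ‖X‖ / ‖Y‖ * ‖Y‖ :=
        mul_le_mul_of_nonneg_right (min_le_right _ _) hY'.le
      _ = ‖X‖ := div_mul_cancel₀ _ hY'.ne'

/-- Young's inequality in the form needed. -/
theorem RNG_young {a s : ℝ} (ha : 0 ≤ a) (hs : 0 < s) : a ^ 2 ≤ s⁻¹ * a ^ 3 + s ^ 2 := by
  rcases le_total a s with h | h
  · have h1 : a ^ 2 ≤ s ^ 2 := pow_le_pow_left₀ ha h 2
    have h2 : 0 ≤ s⁻¹ * a ^ 3 := by positivity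
    linarith
  · have h1 : 1 ≤ s⁻¹ * a := by
      rw [inv_mul_eq_div, le_div_iff₀ hs, one_mul]
      exact h
    have h2 : a ^ 2 ≤ (s⁻¹ * a) * a ^ 2 := le_mul_of_one_le_left (by positivity) h1
    have h3 : (s⁻¹ * a) * a ^ 2 = s⁻¹ * a ^ 3 := by ring
    have h4 : 0 ≤ s ^ 2 := by positivity
    linarith

theorem RNG_err (hB : Stmt_BAS) {f : E3 → E3} {A : E3 → M3} {p : E3}
    {l K0 D F m τ E : ℝ} (hl : 0 < l) (hK0 : 0 ≤ K0) (hD : 1 ≤ D) (hF : 0 < F) (hτ : 0 ≤ τ)
    {k : ℝ → ℝ} (hk : ∀ s, |k s| ≤ K0 / l) (hk1 : ∀ s, s ≤ l / 2 → k s = 0)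
    (hk2 : ∀ s, 2 * l ≤ s → k s = 0)
    (hlow : ∀ x, l / 2 ≤ ‖x - p‖ → ‖x - p‖ ≤ 2 * l → F ≤ D ^ 2 * ‖f x - f p‖)
    (hlog : ∀ x, l / 2 ≤ ‖x - p‖ → ‖x - p‖ ≤ 2 * l →
      |Real.log (‖f x - f p‖ / ‖x - p‖) - m| ≤ τ)
    (hI : IntegrableOn (fun x => opn (A x) ^ 3) (Metric.ball p (2 * l)))
    (hE : ∫ x in Metric.ball p (2 * l), opn (A x) ^ 3 ≤ E * F ^ 3) :
    |∫ x, k ‖x - p‖ * fx (A x) (x - p) (f x - f p) *
      (Real.log (‖f x - f p‖ / ‖x - p‖) - m)|
      ≤ K0 * τ * D ^ 4 * (E + 8 * volume.real (Metric.ball (0 : E3) 1)) := by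
  have hD0 : 0 < D := by linarith
  set c1 : ℝ := K0 * τ * D ^ 4 / (l * F ^ 2) with hc1
  have hc10 : 0 ≤ c1 := by positivity
  have h2 : ∀ x : E3, ‖k ‖x - p‖ * fx (A x) (x - p) (f x - f p) *
      (Real.log (‖f x - f p‖ / ‖x - p‖) - m)‖ ≤ (Metric.ball p (2 * l)).indicator
      (fun x => c1 * (l / F * opn (A x) ^ 3 + (F / l) ^ 2)) x := by
    intro x
    have hop : (0 : ℝ) ≤ opn (A x) := norm_nonneg _
    have hnn : 0 ≤ (Metric.ball p (2 * l)).indicator
        (fun x => c1 * (l / F * opn (A x) ^ 3 + (F / l) ^ 2)) x := by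
      refine Set.indicator_nonneg (fun y _ => ?_) x
      have : (0 : ℝ) ≤ opn (A y) := norm_nonneg _
      positivity
    by_cases hX1 : ‖x - p‖ ≤ l / 2
    · rw [hk1 _ hX1, zero_mul, zero_mul, norm_zero]
      exact hnn
    by_cases hX2 : 2 * l ≤ ‖x - p‖
    · rw [hk2 _ hX2, zero_mul, zero_mul, norm_zero]
      exact hnn
    push Not at hX1 hX2
    rw [Set.indicator_of_mem (by rw [Metric.mem_ball, dist_eq_norm]; exact hX2)]
    rw [norm_mul, norm_mul, Real.norm_eq_abs, Real.norm_eq_abs, Real.norm_eq_abs]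
    have hlo := hlow x hX1.le hX2.le
    have hlg := hlog x hX1.le hX2.le
    have hY : 0 < ‖f x - f p‖ := by
      by_contra h
      have h0 : ‖f x - f p‖ = 0 := le_antisymm (not_lt.1 h) (norm_nonneg _)
      rw [h0, mul_zero] at hlo
      linarith
    have e2 : (‖f x - f p‖ ^ 2)⁻¹ ≤ D ^ 4 / F ^ 2 := by
      rw [inv_eq_one_div, div_le_div_iff₀ (by positivity) (by positivity), one_mul]
      calc F ^ 2 ≤ (D ^ 2 * ‖f x - f p‖) ^ 2 := pow_le_pow_left₀ hF.le hlo 2
        _ = D ^ 4 * ‖f x - f p‖ ^ 2 := by ring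
    have e1 : |fx (A x) (x - p) (f x - f p)| ≤
        D ^ 4 / F ^ 2 * (l / F * opn (A x) ^ 3 + (F / l) ^ 2) := by
      refine (RNG_fx_bound hB _ _ _).trans ?_
      have h3 := RNG_young hop (div_pos hF hl)
      rw [inv_div] at h3
      exact mul_le_mul e2 h3 (by positivity) (by positivity)
    calc |k ‖x - p‖| * |fx (A x) (x - p) (f x - f p)| *
          |Real.log (‖f x - f p‖ / ‖x - p‖) - m|
        ≤ (K0 / l) * (D ^ 4 / F ^ 2 * (l / F * opn (A x) ^ 3 + (F / l) ^ 2)) * τ := by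
          refine mul_le_mul (mul_le_mul (hk _) e1 (abs_nonneg _) (by positivity)) hlg
            (abs_nonneg _) (by positivity)
      _ = c1 * (l / F * opn (A x) ^ 3 + (F / l) ^ 2) := by
          rw [hc1]; field_simp
  have hconst : IntegrableOn (fun _ : E3 => (F / l) ^ 2) (Metric.ball p (2 * l)) :=
    integrableOn_const measure_ball_lt_top.ne
  have hI1 : IntegrableOn (fun x => l / F * opn (A x) ^ 3 + (F / l) ^ 2)
      (Metric.ball p (2 * l)) := (hI.const_mul _).add hconst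
  have h3 : Integrable ((Metric.ball p (2 * l)).indicator
      (fun x => c1 * (l / F * opn (A x) ^ 3 + (F / l) ^ 2))) :=
    (integrable_indicator_iff measurableSet_ball).mpr (hI1.const_mul _)
  have h4 := norm_integral_le_of_norm_le h3 (Filter.Eventually.of_forall h2)
  rw [integral_indicator measurableSet_ball, integral_const_mul,
    integral_add (hI.const_mul _) hconst, integral_const_mul, setIntegral_const, smul_eq_mul,
    ← Measure.addHaar_real_closedBall_eq_addHaar_real_ball,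
    Measure.addHaar_real_closedBall _ _ (by positivity), finrank_euclideanSpace_fin,
    Real.norm_eq_abs] at h4
  refine h4.trans ?_
  set V : ℝ := volume.real (Metric.ball (0 : E3) 1) with hV
  have h5 : l / F * ∫ x in Metric.ball p (2 * l), opn (A x) ^ 3 ≤ l / F * (E * F ^ 3) :=
    mul_le_mul_of_nonneg_left hE (by positivity)
  calc c1 * (l / F * (∫ x in Metric.ball p (2 * l), opn (A x) ^ 3) +
        (2 * l) ^ 3 * V * (F / l) ^ 2)
      ≤ c1 * (l / F * (E * F ^ 3) + (2 * l) ^ 3 * V * (F / l) ^ 2) := by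
        refine mul_le_mul_of_nonneg_left ?_ hc10
        linarith
    _ = K0 * τ * D ^ 4 * (E + 8 * V) := by
        rw [hc1]; field_simp; ring

/-! ### The cut-off -/

/-- Smooth step. -/
noncomputable abbrev RNG_S : ℝ → ℝ := Real.smoothTransition

theorem RNG_S_cd : ContDiff ℝ 1 RNG_S := Real.smoothTransition.contDiff

theorem RNG_dS_cont : Continuous (deriv RNG_S) := RNG_S_cd.continuous_deriv le_rfl

theorem RNG_S_hd (s : ℝ) : HasDerivAt RNG_S (deriv RNG_S s) s :=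
  (RNG_S_cd.differentiable one_ne_zero s).hasDerivAt

theorem RNG_dS_zero_left {s : ℝ} (hs : s ≤ 0) : deriv RNG_S s = 0 := by
  refine IsLocalMin.deriv_eq_zero (Filter.Eventually.of_forall fun y => ?_)
  rw [show RNG_S s = 0 from Real.smoothTransition.zero_of_nonpos hs]
  exact Real.smoothTransition.nonneg y

theorem RNG_dS_zero_right {s : ℝ} (hs : 1 ≤ s) : deriv RNG_S s = 0 := by
  refine IsLocalMax.deriv_eq_zero (Filter.Eventually.of_forall fun y => ?_)
  rw [show RNG_S s = 1 from Real.smoothTransition.one_of_one_le hs]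
  exact Real.smoothTransition.le_one y

theorem RNG_dS_bd : ∃ CS : ℝ, 0 < CS ∧ ∀ s, |deriv RNG_S s| ≤ CS := by
  obtain ⟨C, hC⟩ := isCompact_Icc.exists_bound_of_continuousOn (s := Icc (0 : ℝ) 1)
    (RNG_dS_cont.continuousOn)
  refine ⟨|C| + 1, by positivity, fun s => ?_⟩
  by_cases h0 : s ≤ 0
  · rw [RNG_dS_zero_left h0, abs_zero]; positivity
  by_cases h1 : 1 ≤ s
  · rw [RNG_dS_zero_right h1, abs_zero]; positivity
  push Not at h0 h1
  have := hC s ⟨h0.le, h1.le⟩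
  rw [Real.norm_eq_abs] at this
  linarith [le_abs_self C]

/-- Inner part of the derivative of the cut-off. -/
noncomputable def RNG_K1 (l : ℝ) (s : ℝ) : ℝ := 2 / l * deriv RNG_S (2 / l * s - 1)

/-- Outer part of the derivative of the cut-off. -/
noncomputable def RNG_K2 (r : ℝ) (s : ℝ) : ℝ := 1 / r * deriv RNG_S (2 - 1 / r * s)

/-- The cut-off. -/
noncomputable def RNG_et (l r : ℝ) (s : ℝ) : ℝ :=
  RNG_S (2 / l * s - 1) * RNG_S (2 - 1 / r * s)

theorem RNG_hdu (l s : ℝ) : HasDerivAt (fun s => RNG_S (2 / l * s - 1)) (RNG_K1 l s) s := by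
  have h1 : HasDerivAt (fun s => 2 / l * s - 1) (2 / l) s := by
    simpa using ((hasDerivAt_id s).const_mul (2 / l)).sub_const 1
  have h2 := (RNG_S_hd (2 / l * s - 1)).comp s h1
  rw [mul_comm] at h2
  exact h2

theorem RNG_hdv (r s : ℝ) : HasDerivAt (fun s => RNG_S (2 - 1 / r * s)) (-RNG_K2 r s) s := by
  have h1 : HasDerivAt (fun s => 2 - 1 / r * s) (-(1 / r)) s := by
    simpa using ((hasDerivAt_id s).const_mul (1 / r)).const_sub 2
  have h2 := (RNG_S_hd (2 - 1 / r * s)).comp s h1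
  have e : -RNG_K2 r s = deriv RNG_S (2 - 1 / r * s) * -(1 / r) := by
    unfold RNG_K2; ring
  rw [e]
  exact h2

theorem RNG_K1_zero_left {l s : ℝ} (hl : 0 < l) (hs : s ≤ l / 2) : RNG_K1 l s = 0 := by
  unfold RNG_K1
  rw [RNG_dS_zero_left, mul_zero]
  have : 2 / l * s ≤ 2 / l * (l / 2) := mul_le_mul_of_nonneg_left hs (by positivity)
  have e : 2 / l * (l / 2) = 1 := by field_simp
  linarith

theorem RNG_K1_zero_right {l s : ℝ} (hl : 0 < l) (hs : l ≤ s) : RNG_K1 l s = 0 := by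
  unfold RNG_K1
  rw [RNG_dS_zero_right, mul_zero]
  have : 2 / l * l ≤ 2 / l * s := mul_le_mul_of_nonneg_left hs (by positivity)
  have e : 2 / l * l = 2 := by field_simp
  linarith

theorem RNG_K2_zero_left {r s : ℝ} (hr : 0 < r) (hs : s ≤ r) : RNG_K2 r s = 0 := by
  unfold RNG_K2
  rw [RNG_dS_zero_right, mul_zero]
  have : 1 / r * s ≤ 1 / r * r := mul_le_mul_of_nonneg_left hs (by positivity)
  have e : 1 / r * r = 1 := by field_simp
  linarith

theorem RNG_K2_zero_right {r s : ℝ} (hr : 0 < r) (hs : 2 * r ≤ s) : RNG_K2 r s = 0 := by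
  unfold RNG_K2
  rw [RNG_dS_zero_left, mul_zero]
  have : 1 / r * (2 * r) ≤ 1 / r * s := mul_le_mul_of_nonneg_left hs (by positivity)
  have e : 1 / r * (2 * r) = 2 := by field_simp
  linarith

theorem RNG_K1_cont (l : ℝ) : Continuous (RNG_K1 l) := by
  unfold RNG_K1
  exact continuous_const.mul (RNG_dS_cont.comp (by fun_prop))

theorem RNG_K2_cont (r : ℝ) : Continuous (RNG_K2 r) := by
  unfold RNG_K2
  exact continuous_const.mul (RNG_dS_cont.comp (by fun_prop))

theorem RNG_K1_bd {CS l : ℝ} (hl : 0 < l) (h : ∀ s, |deriv RNG_S s| ≤ CS) (s : ℝ) :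
    |RNG_K1 l s| ≤ 2 * CS / l := by
  unfold RNG_K1
  rw [abs_mul, abs_of_pos (by positivity)]
  calc 2 / l * |deriv RNG_S (2 / l * s - 1)| ≤ 2 / l * CS :=
        mul_le_mul_of_nonneg_left (h _) (by positivity)
    _ = 2 * CS / l := by ring

theorem RNG_K2_bd {CS r : ℝ} (hr : 0 < r) (hCS : 0 < CS) (h : ∀ s, |deriv RNG_S s| ≤ CS)
    (s : ℝ) : |RNG_K2 r s| ≤ 2 * CS / r := by
  unfold RNG_K2
  rw [abs_mul, abs_of_pos (by positivity)]
  calc 1 / r * |deriv RNG_S (2 - 1 / r * s)| ≤ 1 / r * CS :=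
        mul_le_mul_of_nonneg_left (h _) (by positivity)
    _ = CS / r := by field_simp
    _ ≤ 2 * CS / r := by
        apply div_le_div_of_nonneg_right _ hr.le
        linarith

theorem RNG_S_one {s : ℝ} (h : 1 ≤ s) : RNG_S s = 1 := Real.smoothTransition.one_of_one_le h

theorem RNG_S_zero {s : ℝ} (h : s ≤ 0) : RNG_S s = 0 := Real.smoothTransition.zero_of_nonpos h

theorem RNG_K1_int {l : ℝ} (hl : 0 < l) : ∫ s, RNG_K1 l s = 1 := by
  have h1 : Function.support (RNG_K1 l) ⊆ Ioc 0 (2 * l) := by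
    intro s hs
    by_contra h
    apply hs
    by_cases h0 : s ≤ 0
    · exact RNG_K1_zero_left hl (by linarith)
    · refine RNG_K1_zero_right hl ?_
      by_contra h2
      exact h ⟨not_le.mp h0, by linarith⟩
  rw [← intervalIntegral.integral_eq_integral_of_support_subset h1,
    intervalIntegral.integral_eq_sub_of_hasDerivAt (fun s _ => RNG_hdu l s)
      ((RNG_K1_cont l).intervalIntegrable _ _)]
  rw [RNG_S_one, RNG_S_zero]
  · norm_num
  · norm_num
  · have e : 2 / l * (2 * l) = 4 := by field_simp; norm_num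
    linarith

theorem RNG_K2_int {r : ℝ} (hr : 0 < r) : ∫ s, RNG_K2 r s = 1 := by
  have h1 : Function.support (RNG_K2 r) ⊆ Ioc 0 (3 * r) := by
    intro s hs
    by_contra h
    apply hs
    by_cases h0 : s ≤ 0
    · exact RNG_K2_zero_left hr (by linarith)
    · refine RNG_K2_zero_right hr ?_
      by_contra h2
      exact h ⟨not_le.mp h0, by linarith⟩
  have h2 : ∀ s ∈ uIcc 0 (3 * r),
      HasDerivAt (fun s => -RNG_S (2 - 1 / r * s)) (RNG_K2 r s) s := by
    intro s _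
    have := (RNG_hdv r s).neg
    rwa [neg_neg] at this
  rw [← intervalIntegral.integral_eq_integral_of_support_subset h1,
    intervalIntegral.integral_eq_sub_of_hasDerivAt h2 ((RNG_K2_cont r).intervalIntegrable _ _)]
  rw [RNG_S_zero, RNG_S_one]
  · norm_num
  · norm_num
  · have e : 1 / r * (3 * r) = 3 := by field_simp
    linarith

theorem RNG_et_deriv {l r : ℝ} (hl : 0 < l) (hlr : l ≤ r) (s : ℝ) :
    deriv (RNG_et l r) s = RNG_K1 l s - RNG_K2 r s := by
  have hr : 0 < r := hl.trans_le hlr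
  have h := (RNG_hdu l s).mul (RNG_hdv r s)
  have h2 : deriv (RNG_et l r) s = RNG_K1 l s * RNG_S (2 - 1 / r * s)
      + RNG_S (2 / l * s - 1) * -RNG_K2 r s := h.deriv
  rw [h2]
  by_cases hs : s ≤ r
  · rw [RNG_K2_zero_left hr hs, RNG_S_one (s := 2 - 1 / r * s)]
    · ring
    · have : 1 / r * s ≤ 1 / r * r := mul_le_mul_of_nonneg_left hs (by positivity)
      have e : 1 / r * r = 1 := by field_simp
      linarith
  · push Not at hs
    rw [RNG_K1_zero_right hl (by linarith), RNG_S_one (s := 2 / l * s - 1)]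
    · ring
    · have : 2 / l * l ≤ 2 / l * s := mul_le_mul_of_nonneg_left (by linarith) (by positivity)
      have e : 2 / l * l = 2 := by field_simp
      linarith

theorem RNG_et_cd (l r : ℝ) : ContDiff ℝ 1 (RNG_et l r) := by
  unfold RNG_et
  exact (RNG_S_cd.comp (by fun_prop)).mul (RNG_S_cd.comp (by fun_prop))

theorem RNG_et_nonneg (l r s : ℝ) : 0 ≤ RNG_et l r s :=
  mul_nonneg (Real.smoothTransition.nonneg _) (Real.smoothTransition.nonneg _)

theorem RNG_et_zero_left {l r s : ℝ} (hl : 0 < l) (hs : s ≤ l / 2) : RNG_et l r s = 0 := by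
  unfold RNG_et
  rw [RNG_S_zero (s := 2 / l * s - 1), zero_mul]
  have : 2 / l * s ≤ 2 / l * (l / 2) := mul_le_mul_of_nonneg_left hs (by positivity)
  have e : 2 / l * (l / 2) = 1 := by field_simp
  linarith

theorem RNG_et_zero_right {l r s : ℝ} (hr : 0 < r) (hs : 2 * r ≤ s) : RNG_et l r s = 0 := by
  unfold RNG_et
  rw [RNG_S_zero (s := 2 - 1 / r * s), mul_zero]
  have : 1 / r * (2 * r) ≤ 1 / r * s := mul_le_mul_of_nonneg_left hs (by positivity)
  have e : 1 / r * (2 * r) = 2 := by field_simp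
  linarith

theorem RNG_et_one {l r s : ℝ} (hl : 0 < l) (hr : 0 < r) (h1 : l ≤ s) (h2 : s ≤ r) :
    RNG_et l r s = 1 := by
  unfold RNG_et
  have a1 : 2 / l * l ≤ 2 / l * s := mul_le_mul_of_nonneg_left h1 (by positivity)
  have e : 2 / l * l = 2 := by field_simp
  have a2 : 1 / r * s ≤ 1 / r * r := mul_le_mul_of_nonneg_left h2 (by positivity)
  have e2 : 1 / r * r = 1 := by field_simp
  rw [RNG_S_one (by linarith), RNG_S_one (by linarith), mul_one]

theorem RNG_supp_Icc {k : ℝ → ℝ} {a b : ℝ} (h0 : ∀ s, s < a → k s = 0)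
    (h1 : ∀ s, b < s → k s = 0) : HasCompactSupport k ∧ tsupport k ⊆ Icc a b := by
  have hz : ∀ s, s ∉ Icc a b → k s = 0 := by
    intro s hs
    by_contra h
    apply hs
    constructor
    · by_contra h2
      exact h (h0 _ (not_le.mp h2))
    · by_contra h2
      exact h (h1 _ (not_le.mp h2))
  refine ⟨HasCompactSupport.intro isCompact_Icc fun s hs => hz s hs, ?_⟩
  refine closure_minimal ?_ isClosed_Icc
  intro s hs
  by_contra h
  exact hs (hz s h)

/-- The logarithmic integral of the cut-off. -/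
theorem RNG_log {l r : ℝ} (hl : 0 < l) (hlr : l < r) :
    Real.log (r / l) ≤ ∫ s, RNG_et l r s / s := by
  have hr : 0 < r := hl.trans hlr
  have hI : Integrable (fun s => RNG_et l r s / s) := by
    refine IntegrableOn.integrable_of_forall_notMem_eq_zero (s := Icc (l / 2) (2 * r)) ?_ ?_
    · refine ContinuousOn.integrableOn_compact isCompact_Icc ?_
      refine (RNG_et_cd l r).continuous.continuousOn.div continuousOn_id fun s hs => ?_
      have : 0 < s := lt_of_lt_of_le (by positivity) hs.1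
      exact this.ne'
    · intro s hs
      have : RNG_et l r s = 0 := by
        by_cases h : s ≤ l / 2
        · exact RNG_et_zero_left hl h
        · refine RNG_et_zero_right hr ?_
          by_contra h2
          exact hs ⟨(not_le.1 h).le, (not_le.1 h2).le⟩
      rw [this, zero_div]
  have hnn : ∀ s, 0 ≤ RNG_et l r s / s := by
    intro s
    by_cases h : s ≤ l / 2
    · rw [RNG_et_zero_left hl h, zero_div]
    · have : 0 < s := lt_trans (by positivity) (not_le.1 h)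
      exact div_nonneg (RNG_et_nonneg _ _ _) this.le
  have h1 : ∫ s in Ioc l r, RNG_et l r s / s ≤ ∫ s, RNG_et l r s / s :=
    setIntegral_le_integral hI (Filter.Eventually.of_forall hnn)
  have h2 : ∫ s in Ioc l r, RNG_et l r s / s = ∫ s in Ioc l r, s⁻¹ := by
    refine setIntegral_congr_fun measurableSet_Ioc fun s hs => ?_
    rw [RNG_et_one hl hr hs.1.le hs.2, one_div]
  rw [h2, ← intervalIntegral.integral_of_le hlr.le, integral_inv_of_pos hl hr] at h1
  exact h1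

/-! ### Integrability -/

/-- The closed ring. -/
def RNG_kr (p : E3) (a b : ℝ) : Set E3 := {x | a ≤ ‖x - p‖ ∧ ‖x - p‖ ≤ b}

theorem RNG_kr_compact (p : E3) (a b : ℝ) : IsCompact (RNG_kr p a b) := by
  have h1 : IsClosed (RNG_kr p a b) := by
    have : RNG_kr p a b = (fun x : E3 => ‖x - p‖) ⁻¹' (Icc a b) := rfl
    rw [this]
    exact isClosed_Icc.preimage (by fun_prop)
  refine (isCompact_closedBall p b).of_isClosed_subset h1 fun x hx => ?_
  rw [Metric.mem_closedBall, dist_eq_norm]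
  exact hx.2

/-- Global integrability of a product with a function supported in a ring. -/
theorem RNG_glob (hP : Stmt_PIOI) {Ω : Set E3} {f : E3 → E3} {A : E3 → M3} {p : E3} {r0 : ℝ}
    (hop : IsOpen Ω) (hc : ContinuousOn f Ω) (hwg : WeakGrad Ω f A)
    (hsub : Metric.closedBall p r0 ⊆ Ω)
    (hne : ∀ x ∈ Metric.closedBall p r0, f x = f p → x = p)
    {a b : ℝ} (ha : 0 < a) (hb : b ≤ r0) {k : ℝ → ℝ} (hk : Continuous k)
    (h0 : ∀ s, s < a → k s = 0) (h1 : ∀ s, b < s → k s = 0) :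
    Integrable (fun x => k ‖x - p‖ * fx (A x) (x - p) (f x - f p)) ∧
    Integrable (fun x => k ‖x - p‖ * fx (A x) (x - p) (f x - f p) *
      Real.log (‖f x - f p‖ / ‖x - p‖)) := by
  have hK := RNG_kr_compact p a b
  have hKs : RNG_kr p a b ⊆ Ω := by
    intro x hx
    apply hsub
    rw [Metric.mem_closedBall, dist_eq_norm]
    exact hx.2.trans hb
  have hkne : ∀ x ∈ RNG_kr p a b, 0 < ‖x - p‖ ∧ 0 < ‖f x - f p‖ := by
    intro x hx
    have h2 : 0 < ‖x - p‖ := lt_of_lt_of_le ha hx.1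
    refine ⟨h2, norm_pos_iff.mpr (sub_ne_zero.mpr fun he => ?_)⟩
    have h3 := hne x (by
      rw [Metric.mem_closedBall, dist_eq_norm]
      exact hx.2.trans hb) he
    rw [h3, sub_self, norm_zero] at h2
    exact lt_irrefl _ h2
  have hcf : ContinuousOn (fun x => f x - f p) (RNG_kr p a b) :=
    (hc.mono hKs).sub continuousOn_const
  have hph : IntegrableOn (fun x => fx (A x) (x - p) (f x - f p)) (RNG_kr p a b) := by
    have h := (hP Ω f A hop hc hwg (RNG_kr p a b) hK hKs).2.2.2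
    refine h (fun x => (‖f x - f p‖ ^ 3)⁻¹ • (f x - f p)) (fun x => ‖x - p‖⁻¹ • (x - p)) ?_ ?_
    · refine ContinuousOn.smul (ContinuousOn.inv₀ (hcf.norm.pow 3) ?_) hcf
      intro x hx
      exact pow_ne_zero 3 (hkne x hx).2.ne'
    · have h1 : ContinuousOn (fun x : E3 => ‖x - p‖) (RNG_kr p a b) := by fun_prop
      have h2 : ContinuousOn (fun x : E3 => x - p) (RNG_kr p a b) := by fun_prop
      exact (h1.inv₀ fun x hx => (hkne x hx).1.ne').smul h2
  have hz : ∀ x, x ∉ RNG_kr p a b → k ‖x - p‖ = 0 := by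
    intro x hx
    by_contra h
    apply hx
    constructor
    · by_contra h2
      exact h (h0 _ (not_le.mp h2))
    · by_contra h2
      exact h (h1 _ (not_le.mp h2))
  have hkc : ContinuousOn (fun x : E3 => k ‖x - p‖) (RNG_kr p a b) := by fun_prop
  have i1 : IntegrableOn (fun x => k ‖x - p‖ * fx (A x) (x - p) (f x - f p)) (RNG_kr p a b) :=
    IntegrableOn.continuousOn_mul hkc hph hK
  refine ⟨i1.integrable_of_forall_notMem_eq_zero ?_, ?_⟩
  · intro x hx
    rw [hz x hx, zero_mul]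
  · refine IntegrableOn.integrable_of_forall_notMem_eq_zero (s := RNG_kr p a b) ?_ ?_
    · refine IntegrableOn.mul_continuousOn i1 ?_ hK
      refine ContinuousOn.log (ContinuousOn.div hcf.norm (by fun_prop) ?_) ?_
      · intro x hx
        exact (hkne x hx).1.ne'
      · intro x hx
        obtain ⟨h2, h3⟩ := hkne x hx
        exact (div_pos h3 h2).ne'
    · intro x hx
      rw [hz x hx, zero_mul, zero_mul]

theorem p_RNG (hIDC : Stmt_IDC) (hENC : Stmt_ENC) (hE1 : Stmt_E1)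
    (_hTHREE : Pool.Mart.Stmt_THREE) (hPIOI : Pool.Mart.Stmt_PIOI) (hENB : Pool.Mart.Stmt_ENB)
    (hBAS : Pool.Mart.Stmt_BAS) : Stmt_RNG := by
  intro H hH
  obtain ⟨CE, δ1, hCE, hδ0, hδ1, hEnc⟩ := hENC H hH
  obtain ⟨D, hD1, hDE⟩ := hE1 H hH
  obtain ⟨CS, hCS, hS⟩ := RNG_dS_bd
  have hD0 : 0 < D := by linarith
  set V : ℝ := volume.real (Metric.ball (0 : E3) 1) with hVd
  have hV0 : 0 ≤ V := measureReal_nonneg
  refine ⟨8 / 3 * CS * D ^ 4 * (CE + 8 * V), δ1, by positivity, hδ0, hδ1, ?_⟩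
  intro ε r0 Ω S f A γ hε0 hε1 hT t ht c hdeg r1 r2 m1 m2 τ hr1 hr12 hr2 hτ hRC1 hRC2
  set p : E3 := γ t with hp
  have hr0 : 0 < r0 := hT.rpos
  have ht2 : t ∈ Icc (-2 : ℝ) 2 := ⟨by linarith [ht.1], by linarith [ht.2]⟩
  have hr2p : 0 < r2 := hr1.trans hr12
  have hr28 : r2 ≤ 1 / 8 * r0 := hr2.trans (mul_le_mul_of_nonneg_right hδ1 hr0.le)
  have hsub8 : Metric.closedBall p (8 * r0) ⊆ Ω := hT.sub t ht2
  have hsub : Metric.closedBall p r0 ⊆ Ω :=
    (Metric.closedBall_subset_closedBall (by linarith)).trans hsub8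
  have hne : ∀ x ∈ Metric.closedBall p r0, f x = f p → x = p := fun x hx he =>
    hT.inj t ht2 x (Metric.closedBall_subset_closedBall (by linarith) hx) he
  have hc2 : (2 : ℝ) ≤ c := by exact_mod_cast hdeg.two
  -- points at given distance
  have hpt : ∀ l : ℝ, 0 < l → ∃ y : E3, ‖y - p‖ = l := by
    intro l hl
    refine ⟨p + EuclideanSpace.single (0 : Fin 3) l, ?_⟩
    rw [add_sub_cancel_left, EuclideanSpace.norm_single, Real.norm_of_nonneg hl.le]
  -- the error of one scale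
  have herr : ∀ (l m : ℝ) (k : ℝ → ℝ), 0 < l → l ≤ δ1 * r0 → RC f p l 2 m τ →
      (∀ s, |k s| ≤ 2 * CS / l) → (∀ s, s ≤ l / 2 → k s = 0) → (∀ s, 2 * l ≤ s → k s = 0) →
      |∫ x, k ‖x - p‖ * fx (A x) (x - p) (f x - f p) *
        (Real.log (‖f x - f p‖ / ‖x - p‖) - m)|
        ≤ 2 * CS * τ * D ^ 4 * (CE * c + 8 * V) := by
    intro l m k hl hl1 hRC hk hk1 hk2
    obtain ⟨y, hy⟩ := hpt l hl
    have hl8 : l ≤ 1 / 8 * r0 := hl1.trans (mul_le_mul_of_nonneg_right hδ1 hr0.le)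
    obtain ⟨hI, hE⟩ := hEnc ε r0 Ω S f A γ hε0 hε1 hT t ht c hdeg l hl hl1 y hy
    have hyb : y ∈ Metric.closedBall p (2 * r0) := by
      rw [Metric.mem_closedBall, dist_eq_norm, hy]; linarith
    have hyp : y ≠ p := by
      rintro rfl
      rw [sub_self, norm_zero] at hy
      linarith
    have hF : 0 < ‖f y - f p‖ := by
      rw [norm_pos_iff, sub_ne_zero]
      intro he
      refine hyp (hT.inj t ht2 y ?_ he)
      exact Metric.closedBall_subset_closedBall (by linarith) hyb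
    refine RNG_err hBAS hl (by positivity) hD1 hF hτ hk hk1 hk2 ?_ ?_ hI hE
    · intro x hx1 hx2
      exact hDE ε r0 Ω S f A γ hε0 hε1 hT t ht2 1 y hyb x (by
        rw [Metric.mem_closedBall, dist_eq_norm]; linarith) (by
          rw [pow_one]
          have : ‖y - γ t‖ = l := hy
          rw [this]
          linarith)
    · intro x hx1 hx2
      exact hRC x hx1 (by linarith)
  -- the cut-off
  have z1 : ∀ s, s < r1 / 2 → RNG_et r1 r2 s = 0 := fun s hs => RNG_et_zero_left hr1 hs.le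
  have z2 : ∀ s, 2 * r2 < s → RNG_et r1 r2 s = 0 := fun s hs => RNG_et_zero_right hr2p hs.le
  obtain ⟨s1, s2⟩ := RNG_supp_Icc z1 z2
  have s3 : tsupport (RNG_et r1 r2) ⊆ Ioo 0 r0 := s2.trans fun s hs =>
    ⟨lt_of_lt_of_le (by positivity) hs.1, lt_of_le_of_lt hs.2 (by linarith)⟩
  obtain ⟨hηI, hid⟩ := hIDC Ω f A p r0 c hT.op hT.cont hT.wg hr0 hsub hne hdeg
    (RNG_et r1 r2) (RNG_et_cd r1 r2) s1 s3
  -- the two parts of the derivative
  have a1 : ∀ s, s < r1 / 2 → RNG_K1 r1 s = 0 := fun s hs => RNG_K1_zero_left hr1 hs.le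
  have a2 : ∀ s, r1 < s → RNG_K1 r1 s = 0 := fun s hs => RNG_K1_zero_right hr1 hs.le
  have b1 : ∀ s, s < r2 → RNG_K2 r2 s = 0 := fun s hs => RNG_K2_zero_left hr2p hs.le
  have b2 : ∀ s, 2 * r2 < s → RNG_K2 r2 s = 0 := fun s hs => RNG_K2_zero_right hr2p hs.le
  obtain ⟨i1, i2⟩ := RNG_glob hPIOI hT.op hT.cont hT.wg hsub hne (a := r1 / 2) (b := r1)
    (by positivity) (by linarith) (RNG_K1_cont r1) a1 a2
  obtain ⟨j1, j2⟩ := RNG_glob hPIOI hT.op hT.cont hT.wg hsub hne (a := r2) (b := 2 * r2)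
    hr2p (by linarith) (RNG_K2_cont r2) b1 b2
  obtain ⟨t1, t2⟩ := RNG_supp_Icc a1 a2
  obtain ⟨u1, u2⟩ := RNG_supp_Icc b1 b2
  have f1 := hdeg.flux (RNG_K1 r1) (RNG_K1_cont r1) t1 (t2.trans fun s hs =>
    ⟨lt_of_lt_of_le (by positivity) hs.1, lt_of_le_of_lt hs.2 (by linarith)⟩)
  have f2 := hdeg.flux (RNG_K2 r2) (RNG_K2_cont r2) u1 (u2.trans fun s hs =>
    ⟨lt_of_lt_of_le hr2p hs.1, lt_of_le_of_lt hs.2 (by linarith)⟩)
  rw [RNG_K1_int hr1, mul_one] at f1
  rw [RNG_K2_int hr2p, mul_one] at f2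
  have g1 : ∫ x, RNG_K1 r1 ‖x - p‖ * fx (A x) (x - p) (f x - f p) *
      (Real.log (‖f x - f p‖ / ‖x - p‖) - m1)
      = (∫ x, RNG_K1 r1 ‖x - p‖ * fx (A x) (x - p) (f x - f p) *
        Real.log (‖f x - f p‖ / ‖x - p‖)) - m1 * (4 * Real.pi * c) := by
    rw [← f1, ← integral_const_mul, ← integral_sub i2 (i1.const_mul _)]
    refine integral_congr_ae (Filter.Eventually.of_forall fun x => ?_)
    simp only
    ring
  have g2 : ∫ x, RNG_K2 r2 ‖x - p‖ * fx (A x) (x - p) (f x - f p) *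
      (Real.log (‖f x - f p‖ / ‖x - p‖) - m2)
      = (∫ x, RNG_K2 r2 ‖x - p‖ * fx (A x) (x - p) (f x - f p) *
        Real.log (‖f x - f p‖ / ‖x - p‖)) - m2 * (4 * Real.pi * c) := by
    rw [← f2, ← integral_const_mul, ← integral_sub j2 (j1.const_mul _)]
    refine integral_congr_ae (Filter.Eventually.of_forall fun x => ?_)
    simp only
    ring
  have g3 : ∫ x, deriv (RNG_et r1 r2) ‖x - p‖ * fx (A x) (x - p) (f x - f p) *
      Real.log (‖f x - f p‖ / ‖x - p‖)
      = (∫ x, RNG_K1 r1 ‖x - p‖ * fx (A x) (x - p) (f x - f p) *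
          Real.log (‖f x - f p‖ / ‖x - p‖))
        - ∫ x, RNG_K2 r2 ‖x - p‖ * fx (A x) (x - p) (f x - f p) *
          Real.log (‖f x - f p‖ / ‖x - p‖) := by
    rw [← integral_sub i2 j2]
    refine integral_congr_ae (Filter.Eventually.of_forall fun x => ?_)
    simp only [RNG_et_deriv hr1 hr12.le]
    ring
  have E1 := herr r1 m1 (RNG_K1 r1) hr1 (by linarith) hRC1 (RNG_K1_bd hr1 hS)
    (fun s hs => RNG_K1_zero_left hr1 hs) (fun s hs => RNG_K1_zero_right hr1 (by linarith))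
  have E2 := herr r2 m2 (RNG_K2 r2) hr2p hr2 hRC2 (RNG_K2_bd hr2p hCS hS)
    (fun s hs => RNG_K2_zero_left hr2p (by linarith)) (fun s hs => RNG_K2_zero_right hr2p hs)
  rw [g1] at E1
  rw [g2] at E2
  rw [g3] at hid
  -- nonnegativity
  have hgood : ∀ᵐ x : E3, x ∈ Ω → Good (A x) :=
    (ae_restrict_iff' hT.op.measurableSet).mp hT.good
  have hnn : ∀ᵐ x : E3, 0 < ‖x - p‖ → ‖x - p‖ ≤ r0 → 0 ≤ dens f A p x := by
    filter_upwards [hgood] with x hx h1 h2
    have hxb : x ∈ Metric.closedBall p r0 := by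
      rw [Metric.mem_closedBall, dist_eq_norm]; exact h2
    unfold dens
    refine div_nonneg (RNG_dfc_nonneg hENB (hx (hsub hxb)) (norm_pos_iff.1 h1) ?_)
      (by positivity)
    rw [sub_ne_zero]
    intro he
    rw [hne x hxb he, sub_self, norm_zero] at h1
    exact lt_irrefl _ h1
  have hUm : MeasurableSet (rg p r1 r2) := by
    have h1 : MeasurableSet {x : E3 | r1 < ‖x - p‖} :=
      measurableSet_lt measurable_const (by fun_prop)
    have h2 : MeasurableSet {x : E3 | ‖x - p‖ < r2} :=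
      measurableSet_lt (by fun_prop) measurable_const
    exact h1.inter h2
  have hUI : IntegrableOn (dens f A p) (rg p r1 r2) := by
    refine (hηI.integrableOn (s := rg p r1 r2)).congr_fun ?_ hUm
    intro x hx
    simp only
    rw [RNG_et_one hr1 hr2p hx.1.le hx.2.le, one_mul]
  have hle : DR f A p r1 r2 ≤ ∫ x, RNG_et r1 r2 ‖x - p‖ * dens f A p x := by
    unfold DR
    rw [← integral_indicator hUm]
    refine integral_mono_ae ((integrable_indicator_iff hUm).mpr hUI) hηI ?_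
    filter_upwards [hnn] with x hx
    by_cases hxU : x ∈ rg p r1 r2
    · rw [Set.indicator_of_mem hxU, RNG_et_one hr1 hr2p hxU.1.le hxU.2.le, one_mul]
    · rw [Set.indicator_of_notMem hxU]
      by_cases h1 : ‖x - p‖ ≤ r1 / 2
      · rw [RNG_et_zero_left hr1 h1, zero_mul]
      by_cases h2 : 2 * r2 ≤ ‖x - p‖
      · rw [RNG_et_zero_right hr2p h2, zero_mul]
      push Not at h1 h2
      exact mul_nonneg (RNG_et_nonneg _ _ _) (hx (by linarith) (by linarith))
  refine ⟨hUI, ?_, ?_⟩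
  · unfold DR
    refine integral_nonneg_of_ae ?_
    rw [Filter.EventuallyLE, ae_restrict_iff' hUm]
    filter_upwards [hnn] with x hx hxU
    exact hx (hr1.trans hxU.1) (by linarith [hxU.2])
  refine hle.trans ?_
  rw [hid]
  have hJ := RNG_log hr1 hr12
  have A1 := (abs_le.mp E1).1
  have A2 := (abs_le.mp E2).2
  have hBB : 2 * CS * τ * D ^ 4 * (CE * c + 8 * V) ≤ 2 * CS * τ * D ^ 4 * ((CE + 8 * V) * c) := by
    refine mul_le_mul_of_nonneg_left ?_ (by positivity)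
    nlinarith
  have hJ2 : (4 * Real.pi / 3) * (c - 2) * Real.log (r2 / r1) ≤
      (4 * Real.pi / 3) * (c - 2) * ∫ s, RNG_et r1 r2 s / s := by
    refine mul_le_mul_of_nonneg_left hJ ?_
    exact mul_nonneg (by positivity) (by linarith)
  generalize (∫ x, RNG_K1 r1 ‖x - p‖ * fx (A x) (x - p) (f x - f p) *
    Real.log (‖f x - f p‖ / ‖x - p‖)) = I1 at *
  generalize (∫ x, RNG_K2 r2 ‖x - p‖ * fx (A x) (x - p) (f x - f p) *
    Real.log (‖f x - f p‖ / ‖x - p‖)) = I2 at *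
  have hfin : -(2 / 3) * (I1 - I2) ≤ (8 * Real.pi * c / 3) * (m2 - m1) +
      4 / 3 * (2 * CS * τ * D ^ 4 * ((CE + 8 * V) * c)) := by
    have e : (8 * Real.pi * (c : ℝ) / 3) * (m2 - m1) =
      2 / 3 * (m2 * (4 * Real.pi * c) - m1 * (4 * Real.pi * c)) := by ring
    rw [e]
    linarith
  have e2 : 4 / 3 * (2 * CS * τ * D ^ 4 * ((CE + 8 * V) * c)) =
      8 / 3 * CS * D ^ 4 * (CE + 8 * V) * c * τ := by ring
  rw [e2] at hfin
  linarith

end Pool.Flat
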