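import Pool.Agent.Work.MP_680515_fl.Iface4

/-!
# MP_680515_fl, block ROS: rotation invariance of the integral over spheres
-/

open MeasureTheory Set Filter Topology

namespace Pool.Flat

open Pool.Mart

theorem ROS_cont (t : ℝ) : Continuous fun p : ℝ × ℝ => sph t p.1 p.2 := by
  unfold sph
  refine (PiLp.continuous_toLp 2 _).comp (continuous_pi fun i => ?_)
  fin_cases i
  · show Continuous fun p : ℝ × ℝ => t * Real.sqrt (1 - p.1 ^ 2) * Real.cos p.2
    fun_prop
  · show Continuous fun p : ℝ × ℝ => t * Real.sqrt (1 - p.1 ^ 2) * Real.sin p.2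
    fun_prop
  · show Continuous fun p : ℝ × ℝ => t * p.1
    fun_prop

theorem ROS_norm {t u : ℝ} (ht : 0 < t) (hu : u ∈ Ioo (-1 : ℝ) 1) (θ : ℝ) :
    ‖sph t u θ‖ = t := by
  have h1 : 0 ≤ 1 - u ^ 2 := by nlinarith [hu.1, hu.2]
  have h2 : ‖sph t u θ‖ ^ 2 = t ^ 2 := by
    have e0 : sph t u θ 0 = t * Real.sqrt (1 - u ^ 2) * Real.cos θ := rfl
    have e1 : sph t u θ 1 = t * Real.sqrt (1 - u ^ 2) * Real.sin θ := rfl
    have e2 : sph t u θ 2 = t * u := rfl
    rw [EuclideanSpace.norm_sq_eq, Fin.sum_univ_three, e0, e1, e2]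
    simp only [Real.norm_eq_abs, sq_abs]
    rw [mul_pow, mul_pow, mul_pow, mul_pow, mul_pow, Real.sq_sqrt h1]
    have h3 := Real.sin_sq_add_cos_sq θ
    linear_combination t ^ 2 * (1 - u ^ 2) * h3
  exact (sq_eq_sq₀ (norm_nonneg _) ht.le).1 h2

theorem ROS_smul (t ρ u θ : ℝ) : ρ • sph t u θ = sph (ρ * t) u θ := by
  ext i
  fin_cases i
  · show ρ * (t * Real.sqrt (1 - u ^ 2) * Real.cos θ) = ρ * t * Real.sqrt (1 - u ^ 2) * Real.cos θ
    ring
  · show ρ * (t * Real.sqrt (1 - u ^ 2) * Real.sin θ) = ρ * t * Real.sqrt (1 - u ^ 2) * Real.sin θ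
    ring
  · show ρ * (t * u) = ρ * t * u
    ring

/-- the measure on the sphere of radius `ρ` -/
noncomputable def ROS_nu (ρ : ℝ) : Measure E3 :=
  ((volume.restrict (Ioo (-1 : ℝ) 1)).prod (volume.restrict (Ioo (0 : ℝ) (2 * Real.pi)))).map
    fun p => sph ρ p.1 p.2

theorem ROS_lint (ρ : ℝ) (G : E3 → ENNReal) (hG : Measurable G) :
    ∫⁻ y, G y ∂(ROS_nu ρ) = ∫⁻ u in Ioo (-1 : ℝ) 1, ∫⁻ θ in Ioo (0 : ℝ) (2 * Real.pi),
      G (sph ρ u θ) := by
  have hm : Measurable fun p : ℝ × ℝ => G (sph ρ p.1 p.2) := hG.comp (ROS_cont ρ).measurable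
  unfold ROS_nu
  rw [lintegral_map hG (ROS_cont ρ).measurable, lintegral_prod _ hm.aemeasurable]

theorem ROS_SI (ρ : ℝ) (g : E3 → ℝ) (hg : Continuous g) : SI 0 ρ g = ∫ y, g y ∂(ROS_nu ρ) := by
  have hc : Continuous fun p : ℝ × ℝ => g (sph ρ p.1 p.2) := hg.comp (ROS_cont ρ)
  have hint : Integrable (fun p : ℝ × ℝ => g (sph ρ p.1 p.2))
      ((volume.restrict (Ioo (-1 : ℝ) 1)).prod (volume.restrict (Ioo (0 : ℝ) (2 * Real.pi)))) := by
    rw [Measure.prod_restrict, ← Measure.volume_eq_prod]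
    have h1 : IntegrableOn (fun p : ℝ × ℝ => g (sph ρ p.1 p.2))
        (Icc (-1 : ℝ) 1 ×ˢ Icc (0 : ℝ) (2 * Real.pi)) :=
      hc.continuousOn.integrableOn_compact (isCompact_Icc.prod isCompact_Icc)
    exact h1.mono_set (prod_mono Ioo_subset_Icc_self Ioo_subset_Icc_self)
  unfold ROS_nu SI
  rw [integral_map (ROS_cont ρ).measurable.aemeasurable hg.aestronglyMeasurable,
    integral_prod _ hint, intervalIntegral.integral_of_le (by norm_num),
    integral_Ioc_eq_integral_Ioo]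
  refine setIntegral_congr_fun measurableSet_Ioo fun u _ => ?_
  show (∫ θ in (0 : ℝ)..(2 * Real.pi), g (0 + sph ρ u θ)) =
    ∫ θ in Ioo (0 : ℝ) (2 * Real.pi), g (sph ρ u θ)
  rw [intervalIntegral.integral_of_le (by positivity), integral_Ioc_eq_integral_Ioo]
  simp only [zero_add]

theorem ROS_cone (hSPH : Stmt_SPH) (ρ : ℝ) (G : E3 → ENNReal) (hG : Measurable G) :
    ∫⁻ y, (Ioo (1 : ℝ) 2).indicator (fun _ => (1 : ENNReal)) ‖y‖ * G ((ρ / ‖y‖) • y) =
      (∫⁻ t in Ioo (1 : ℝ) 2, ENNReal.ofReal (t ^ 2)) * ∫⁻ y, G y ∂(ROS_nu ρ) := by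
  have hm : Measurable fun y : E3 =>
      (Ioo (1 : ℝ) 2).indicator (fun _ => (1 : ENNReal)) ‖y‖ * G ((ρ / ‖y‖) • y) := by
    refine Measurable.mul ?_ ?_
    · exact (measurable_const.indicator measurableSet_Ioo).comp measurable_norm
    · exact hG.comp ((measurable_const.div measurable_norm).smul measurable_id)
  rw [hSPH _ hm, ROS_lint ρ G hG]
  have hin : Measurable fun t : ℝ => ENNReal.ofReal (t ^ 2) := by fun_prop
  rw [← lintegral_mul_const _ hin, ← lintegral_indicator measurableSet_Ioo,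
    ← lintegral_indicator measurableSet_Ioi]
  refine lintegral_congr fun t => ?_
  by_cases ht : t ∈ Ioi (0 : ℝ)
  · rw [indicator_of_mem ht]
    have h1 : ∀ u ∈ Ioo (-1 : ℝ) 1, (∫⁻ θ in Ioo (0 : ℝ) (2 * Real.pi), ENNReal.ofReal (t ^ 2) *
        ((Ioo (1 : ℝ) 2).indicator (fun _ => (1 : ENNReal)) ‖sph t u θ‖ *
          G ((ρ / ‖sph t u θ‖) • sph t u θ))) =
        (Ioo (1 : ℝ) 2).indicator (fun t => ENNReal.ofReal (t ^ 2)) t *
          ∫⁻ θ in Ioo (0 : ℝ) (2 * Real.pi), G (sph ρ u θ) := by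
      intro u hu
      have hm3 : Measurable fun θ : ℝ => G (sph ρ u θ) := hG.comp ((ROS_cont ρ).comp
        (Continuous.prodMk_right u)).measurable
      rw [← lintegral_const_mul _ hm3]
      refine lintegral_congr fun θ => ?_
      rw [ROS_norm ht hu θ, ROS_smul, div_mul_cancel₀ _ (ne_of_gt ht)]
      by_cases h2 : t ∈ Ioo (1 : ℝ) 2
      · rw [indicator_of_mem h2, indicator_of_mem h2, one_mul]
      · simp only [indicator_of_notMem h2, zero_mul, mul_zero]
    rw [setLIntegral_congr_fun measurableSet_Ioo h1]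
    have hm2 : Measurable fun u : ℝ => ∫⁻ θ in Ioo (0 : ℝ) (2 * Real.pi), G (sph ρ u θ) :=
      Measurable.lintegral_prod_right (hG.comp (ROS_cont ρ).measurable)
    rw [lintegral_const_mul _ hm2]
    by_cases h2 : t ∈ Ioo (1 : ℝ) 2
    · rw [indicator_of_mem h2, indicator_of_mem h2]
    · rw [indicator_of_notMem h2, indicator_of_notMem h2, zero_mul]
  · rw [indicator_of_notMem ht, indicator_of_notMem]
    intro h2
    exact ht (lt_trans one_pos h2.1)

theorem p_ROS (hSPH : Stmt_SPH) : Stmt_ROS := by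
  intro R ρ g hρ hg
  have hRm : Measurable R := R.continuous.measurable
  have key : (ROS_nu ρ).map R = ROS_nu ρ := by
    ext B hB
    have hG : Measurable (B.indicator (fun _ => (1 : ENNReal))) := measurable_const.indicator hB
    have e1 := ROS_cone hSPH ρ _ hG
    have e2 := ROS_cone hSPH ρ _ (hG.comp hRm)
    have e3 : (∫⁻ y, (Ioo (1 : ℝ) 2).indicator (fun _ => (1 : ENNReal)) ‖y‖ *
        ((B.indicator (fun _ => (1 : ENNReal))) ∘ R) ((ρ / ‖y‖) • y)) =
        ∫⁻ y, (Ioo (1 : ℝ) 2).indicator (fun _ => (1 : ENNReal)) ‖y‖ *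
          B.indicator (fun _ => (1 : ENNReal)) ((ρ / ‖y‖) • y) := by
      rw [← R.measurePreserving.lintegral_comp_emb R.toHomeomorph.measurableEmbedding
        (fun y => (Ioo (1 : ℝ) 2).indicator (fun _ => (1 : ENNReal)) ‖y‖ *
          B.indicator (fun _ => (1 : ENNReal)) ((ρ / ‖y‖) • y))]
      refine lintegral_congr fun y => ?_
      rw [R.norm_map, Function.comp_apply, map_smul]
    have h0 : (∫⁻ t in Ioo (1 : ℝ) 2, ENNReal.ofReal (t ^ 2)) ≠ 0 := by
      intro h
      rw [setLIntegral_eq_zero_iff measurableSet_Ioo (by fun_prop)] at h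
      have h3 : volume (Ioo (1 : ℝ) 2) = 0 := by
        refine measure_mono_null ?_ h
        intro t ht hcon
        have := hcon ht
        rw [ENNReal.ofReal_eq_zero] at this
        nlinarith [ht.1]
      rw [Real.volume_Ioo] at h3
      norm_num at h3
    have h1 : (∫⁻ t in Ioo (1 : ℝ) 2, ENNReal.ofReal (t ^ 2)) ≠ ⊤ := by
      refine ne_of_lt (lt_of_le_of_lt (setLIntegral_mono (g := fun _ => ENNReal.ofReal 4)
        measurable_const fun t ht => ?_) ?_)
      · exact ENNReal.ofReal_le_ofReal (by nlinarith [ht.1, ht.2])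
      · rw [setLIntegral_const, Real.volume_Ioo]
        exact ENNReal.mul_lt_top ENNReal.ofReal_lt_top ENNReal.ofReal_lt_top
    rw [e3, e1] at e2
    have e4 := (ENNReal.mul_right_inj h0 h1).1 e2
    rw [Measure.map_apply hRm hB, ← lintegral_indicator_one (hRm hB), ← lintegral_indicator_one hB]
    rw [show (B.indicator (1 : E3 → ENNReal)) = B.indicator (fun _ => (1 : ENNReal)) from rfl, e4]
    rfl
  rw [ROS_SI ρ g hg, ROS_SI ρ (fun y => g (R y)) (hg.comp R.continuous)]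
  conv_rhs => rw [← key]
  rw [integral_map hRm.aemeasurable hg.aestronglyMeasurable]

end Pool.Flat
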