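import Pool.Agent.Work.MP_680515_fl.Iface3

open MeasureTheory Set Filter Topology

namespace Pool.Flat

open Pool.Mart

theorem RZA_norm (Y : E3) : ‖Y‖ ^ 2 = rad Y ^ 2 + Y 2 ^ 2 := by
  rw [EuclideanSpace.norm_sq_eq, Fin.sum_univ_three, rad, Real.sq_sqrt (by positivity)]
  simp only [Real.norm_eq_abs, sq_abs]

theorem RZA_e3 (Y : E3) : 2 * Y 2 = ‖Y‖ ^ 2 - ‖Y - e3‖ ^ 2 + 1 := by
  rw [norm_sub_sq_real, e3, EuclideanSpace.inner_single_right]
  simp
  ring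

theorem RZA_abs {a b t : ℝ} (h : |b - a| ≤ t) (ha : 0 ≤ a) (ht : t ≤ 1) (h1 : a ≤ 81) :
    |b ^ 2 - a ^ 2| ≤ 163 * t := by
  have h2 : b ^ 2 - a ^ 2 = (b - a) * (b + a) := by ring
  have h3 : |b + a| ≤ 163 := by
    have := abs_le.1 h
    rw [abs_le]
    constructor <;> linarith
  rw [h2, abs_mul, mul_comm]
  exact mul_le_mul h3 h (abs_nonneg _) (by norm_num)

theorem p_RZA : Stmt_RZA := by
  intro τ1 h1
  refine ⟨min 1 (min (τ1 / 200) (τ1 ^ 2 / 60000)), by positivity, ?_⟩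
  intro X Y hX hn he
  set τ := min 1 (min (τ1 / 200) (τ1 ^ 2 / 60000)) with hτ
  have t1 : τ ≤ 1 := min_le_left _ _
  have t2 : τ ≤ τ1 / 200 := (min_le_right _ _).trans (min_le_left _ _)
  have t3 : τ ≤ τ1 ^ 2 / 60000 := (min_le_right _ _).trans (min_le_right _ _)
  have t0 : 0 < τ := by positivity
  have hE : ‖X - e3‖ ≤ 81 := by
    have h := norm_sub_le X e3
    have h' : ‖e3‖ = 1 := by
      rw [e3, EuclideanSpace.single, PiLp.norm_single]
      simp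
    linarith
  have a1 := RZA_abs hn (norm_nonneg X) t1 (by linarith)
  have a2 := RZA_abs he (norm_nonneg _) t1 hE
  have e1 := RZA_e3 X
  have e2 := RZA_e3 Y
  have a3 : |Y 2 - X 2| ≤ 163 * τ := by
    rw [abs_le] at a1 a2 ⊢
    constructor <;> linarith [a1.1, a1.2, a2.1, a2.2]
  have n1 := RZA_norm X
  have n2 := RZA_norm Y
  have x2 : |X 2| ≤ 80 := by
    apply abs_le_of_sq_le_sq _ (by norm_num)
    have : ‖X‖ ^ 2 ≤ 80 ^ 2 := pow_le_pow_left₀ (norm_nonneg _) hX 2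
    nlinarith [sq_nonneg (rad X)]
  have y2 : |Y 2 + X 2| ≤ 163 + 160 := by
    have := abs_le.1 a3
    have := abs_le.1 x2
    rw [abs_le]
    constructor <;> linarith
  have a4 : |Y 2 ^ 2 - X 2 ^ 2| ≤ 323 * (163 * τ) := by
    have h2 : Y 2 ^ 2 - X 2 ^ 2 = (Y 2 - X 2) * (Y 2 + X 2) := by ring
    rw [h2, abs_mul, mul_comm]
    exact mul_le_mul (by linarith) a3 (abs_nonneg _) (by norm_num)
  have a5 : |rad Y ^ 2 - rad X ^ 2| ≤ 60000 * τ := by
    have h2 : rad Y ^ 2 - rad X ^ 2 = (‖Y‖ ^ 2 - ‖X‖ ^ 2) - (Y 2 ^ 2 - X 2 ^ 2) := by linarith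
    rw [h2]
    refine (abs_sub _ _).trans ?_
    linarith
  have p1 : 0 ≤ rad X := Real.sqrt_nonneg _
  have p2 : 0 ≤ rad Y := Real.sqrt_nonneg _
  have a6 : |rad Y - rad X| ^ 2 ≤ |rad Y ^ 2 - rad X ^ 2| := by
    have h2 : rad Y ^ 2 - rad X ^ 2 = (rad Y - rad X) * (rad Y + rad X) := by ring
    have h3 : |rad Y - rad X| ≤ rad Y + rad X := by
      rw [abs_le]
      constructor <;> linarith
    rw [h2, abs_mul, abs_of_nonneg (add_nonneg p2 p1), sq]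
    exact mul_le_mul_of_nonneg_left h3 (abs_nonneg _)
  constructor
  · refine (sq_le_sq₀ (abs_nonneg _) h1.le).1 ?_
    linarith
  · linarith

end Pool.Flat
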