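import Pool.Agent.Work.MP_680515_fl.Iface3
import Pool.Agent.Work.MP_680515_an.B.CHV

/-! # Block SDF: the defect of the normalised map -/

open MeasureTheory Set Filter Topology

namespace Pool.Flat

open Pool.Mart

theorem SDF_nn (hTHREE : Pool.Mart.Stmt_THREE) (A : M3) (X Y : E3) (hG : Good A) (hX : X ≠ 0)
    (hY : Y ≠ 0) : 0 ≤ dfc A X Y := by
  have hx : 0 < ‖X‖ := norm_pos_iff.2 hX
  have hy : 0 < ‖Y‖ := norm_pos_iff.2 hY
  refine (hTHREE A (‖X‖⁻¹ • X) (‖Y‖⁻¹ • Y) (‖Y‖ / ‖X‖) (dfc A X Y) hG (div_pos hy hx) ?_ ?_ ?_).1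
  · rw [norm_smul, norm_inv, norm_norm, inv_mul_cancel₀ hx.ne']
  · rw [norm_smul, norm_inv, norm_norm, inv_mul_cancel₀ hy.ne']
  · unfold dfc
    generalize cpair A (‖Y‖⁻¹ • Y) (‖X‖⁻¹ • X) = q
    field_simp

theorem SDF_int (p : E3) (l : ℝ) (O : M3) (hl : 0 < l)
    (hO : O ∈ Matrix.specialOrthogonalGroup (Fin 3) ℝ) (G : E3 → ℝ) (hG : Integrable G) :
    Integrable (fun X => G (p + l • act O X)) := by
  have h1 : Integrable (fun x => G (p + x)) := hG.comp_add_left p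
  have h2 : Integrable (fun x => G (p + l • x)) :=
    (integrable_comp_smul_iff volume (fun x => G (p + x)) hl.ne').2 h1
  have h3 := ((CHV_.iso hO).measurePreserving.integrable_comp_emb
    (CHV_.iso hO).toHomeomorph.measurableEmbedding (g := fun x => G (p + l • x))).2 h2
  exact h3

theorem SDF_rad_le (X : E3) : rad X ≤ ‖X‖ := by
  unfold rad
  rw [EuclideanSpace.norm_eq, Fin.sum_univ_three]
  refine Real.sqrt_le_sqrt ?_
  simp only [Real.norm_eq_abs, sq_abs]
  linarith [sq_nonneg (X 2)]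

theorem SDF_rad_sub (X : E3) : rad (X - e3) = rad X := by
  unfold rad e3
  simp

theorem SDF_norm_e3 : ‖e3‖ = 1 := by
  unfold e3
  simp

theorem SDF_rg_meas (p : E3) (a b : ℝ) : MeasurableSet (rg p a b) := by
  have h0 : Continuous fun x : E3 => ‖x - p‖ := by fun_prop
  have h1 : IsOpen {x : E3 | a < ‖x - p‖} := isOpen_lt continuous_const h0
  have h2 : IsOpen {x : E3 | ‖x - p‖ < b} := isOpen_lt h0 continuous_const
  exact (h1.inter h2).measurableSet

theorem p_SDF (hROT : Pool.Mart.Stmt_ROT) (hCHV : Pool.Mart.Stmt_CHV)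
    (hTHREE : Pool.Mart.Stmt_THREE) : Stmt_SDF := by
  intro Ω f A p b l l' ρ O O' hΩ hf hWG hgood hρ hρ1 hl hl' hO hO' hbp hfb hsub hinjp hinjb hip
    hib
  obtain ⟨-, hnO, -, htO, -⟩ := hCHV (fun _ => 0) p l O hl hO
  obtain ⟨-, -, -, htO', -⟩ := hCHV (fun _ => 0) p l O' hl hO'
  obtain ⟨σ, hσ⟩ : ∃ σ : E3 → E3, ∀ X, σ X = p + l • act O X := ⟨_, fun _ => rfl⟩
  have hσc : Continuous σ := by
    have h1 : σ = fun X => p + l • CHV_.iso hO X := funext fun X => hσ X
    rw [h1]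
    fun_prop
  have actsub : ∀ (B : M3) (v w : E3), act B (v - w) = act B v - act B w := by
    intro B v w
    have h1 := CHV_.act_add B (v - w) w
    rw [sub_add_cancel] at h1
    rw [h1, add_sub_cancel_right]
  have hσp : ∀ X, σ X - p = l • act O X := fun X => by rw [hσ, add_sub_cancel_left]
  have hσb : ∀ X, σ X - b = l • act O (X - e3) := by
    intro X
    have h1 : σ X - b = (σ X - p) - (b - p) := (sub_sub_sub_cancel_right _ _ _).symm
    rw [h1, hσp, hbp, actsub, smul_sub]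
  have hnp : ∀ X, ‖σ X - p‖ = l * ‖X‖ := by
    intro X
    rw [hσp, norm_smul, hnO, Real.norm_of_nonneg hl.le]
  have hnb : ∀ X, ‖σ X - b‖ = l * ‖X - e3‖ := by
    intro X
    rw [hσb, norm_smul, hnO, Real.norm_of_nonneg hl.le]
  -- the integrand
  have key : ∀ X, dl (nf f p l l' O O') (na A p l l' O O') X =
      dfc (A (σ X)) (σ X - p) (f (σ X) - f p) + dfc (A (σ X)) (σ X - b) (f (σ X) - f b) := by
    intro X
    have hR := (hROT (A (σ X)) O O' (l / l') l l' (div_pos hl hl') hl hl' rfl hO hO').2.1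
    have h1 := hR (σ X - p) (f (σ X) - f p)
    have h2 := hR (σ X - b) (f (σ X) - f b)
    have e1 : l⁻¹ • act O.transpose (σ X - p) = X := by
      rw [hσp, CHV_.act_smul, htO, smul_smul, inv_mul_cancel₀ hl.ne', one_smul]
    have e2 : l⁻¹ • act O.transpose (σ X - b) = X - e3 := by
      rw [hσb, CHV_.act_smul, htO, smul_smul, inv_mul_cancel₀ hl.ne', one_smul]
    have e3' : l'⁻¹ • act O'.transpose (f (σ X) - f b) =
        l'⁻¹ • act O'.transpose (f (σ X) - f p) - e3 := by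
      have h3 : f (σ X) - f b = (f (σ X) - f p) - (f b - f p) :=
        (sub_sub_sub_cancel_right _ _ _).symm
      rw [h3, hfb, actsub, smul_sub, CHV_.act_smul, htO', smul_smul, inv_mul_cancel₀ hl'.ne',
        one_smul]
    rw [e1] at h1
    rw [e2, e3'] at h2
    unfold dl nf na
    rw [← hσ X, h1, h2]
  -- the region
  obtain ⟨W, hW⟩ : ∃ W : Set E3, W = {X : E3 | ρ / 4 < rad X ∧ ‖X‖ < 70} := ⟨_, rfl⟩
  rw [← hW]
  have hradc : Continuous rad := by
    unfold rad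
    fun_prop
  have hWm : MeasurableSet W := by
    rw [hW]
    exact ((isOpen_lt continuous_const hradc).inter
      (isOpen_lt continuous_norm continuous_const)).measurableSet
  have hWmem : ∀ X ∈ W, ρ / 4 < rad X ∧ ‖X‖ < 70 := by
    intro X hX
    rw [hW] at hX
    exact hX
  have hWp : ∀ X ∈ W, σ X ∈ rg p (ρ / 4 * l) (71 * l) := by
    intro X hX
    obtain ⟨h1, h2⟩ := hWmem X hX
    have h3 := SDF_rad_le X
    constructor
    · rw [hnp, mul_comm]
      exact mul_lt_mul_of_pos_left (lt_of_lt_of_le h1 h3) hl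
    · rw [hnp, mul_comm 71]
      exact mul_lt_mul_of_pos_left (by linarith) hl
  have hWb : ∀ X ∈ W, σ X ∈ rg b (ρ / 4 * l) (71 * l) := by
    intro X hX
    obtain ⟨h1, h2⟩ := hWmem X hX
    have h3 := SDF_rad_le (X - e3)
    rw [SDF_rad_sub] at h3
    have h4 : ‖X - e3‖ < 71 := by
      have := norm_sub_le X e3
      rw [SDF_norm_e3] at this
      linarith
    constructor
    · rw [hnb, mul_comm]
      exact mul_lt_mul_of_pos_left (lt_of_lt_of_le h1 h3) hl
    · rw [hnb, mul_comm 71]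
      exact mul_lt_mul_of_pos_left h4 hl
  obtain ⟨Dp, hDp⟩ : ∃ Dp : E3 → ℝ, Dp = (rg p (ρ / 4 * l) (71 * l)).indicator (dens f A p) :=
    ⟨_, rfl⟩
  obtain ⟨Db, hDb⟩ : ∃ Db : E3 → ℝ, Db = (rg b (ρ / 4 * l) (71 * l)).indicator (dens f A b) :=
    ⟨_, rfl⟩
  have hDpi : Integrable Dp := by
    rw [hDp]
    exact (integrable_indicator_iff (SDF_rg_meas _ _ _)).2 hip
  have hDbi : Integrable Db := by
    rw [hDb]
    exact (integrable_indicator_iff (SDF_rg_meas _ _ _)).2 hib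
  have hpos : 0 < ρ / 4 * l := by positivity
  -- nonnegativity
  have hga : ∀ᵐ x : E3, x ∈ Ω → Good (A x) := (ae_restrict_iff' hΩ.measurableSet).1 hgood
  have hnn : ∀ q : E3, (∀ x ∈ rg q (ρ / 4 * l) (71 * l), x ∈ Metric.closedBall p (80 * l)) →
      (∀ x ∈ Metric.closedBall p (80 * l), f x = f q → x = q) →
      ∀ᵐ x : E3, 0 ≤ (rg q (ρ / 4 * l) (71 * l)).indicator (dens f A q) x := by
    intro q hq1 hq2
    filter_upwards [hga] with x hx
    by_cases hxr : x ∈ rg q (ρ / 4 * l) (71 * l)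
    swap
    · rw [indicator_of_notMem hxr]
    rw [indicator_of_mem hxr]
    have h1 := hq1 x hxr
    have h2 : x ≠ q := by
      intro h
      have h3 := hxr.1
      rw [h, sub_self, norm_zero] at h3
      linarith
    have h4 : f x ≠ f q := fun h => h2 (hq2 x h1 h)
    unfold dens
    exact div_nonneg (SDF_nn hTHREE _ _ _ (hx (hsub h1)) (sub_ne_zero.2 h2) (sub_ne_zero.2 h4))
      (by positivity)
  have hDp0 : ∀ᵐ x : E3, 0 ≤ Dp x := by
    rw [hDp]
    refine hnn p ?_ hinjp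
    intro x hx
    rw [mem_closedBall_iff_norm]
    linarith [hx.2]
  have hDb0 : ∀ᵐ x : E3, 0 ≤ Db x := by
    rw [hDb]
    refine hnn b ?_ hinjb
    intro x hx
    rw [mem_closedBall_iff_norm]
    have h1 : ‖b - p‖ = l := by
      rw [hbp, norm_smul, hnO, SDF_norm_e3, mul_one, Real.norm_of_nonneg hl.le]
    have h2 : ‖x - p‖ ≤ ‖x - b‖ + ‖b - p‖ := by
      have := norm_add_le (x - b) (b - p)
      rwa [sub_add_sub_cancel] at this
    linarith [hx.2]
  have hEW : ∀ X ∈ W, dl (nf f p l l' O O') (na A p l l' O O') X =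
      ‖σ X - p‖ ^ 3 * Dp (σ X) + ‖σ X - b‖ ^ 3 * Db (σ X) := by
    intro X hX
    have h1 : 0 < ‖σ X - p‖ := lt_trans hpos (hWp X hX).1
    have h2 : 0 < ‖σ X - b‖ := lt_trans hpos (hWb X hX).1
    rw [key, hDp, hDb, indicator_of_mem (hWp X hX), indicator_of_mem (hWb X hX)]
    unfold dens
    field_simp
  have hip' : Integrable (fun X => Dp (σ X)) := by
    have h1 := SDF_int p l O hl hO Dp hDpi
    simp only [← hσ] at h1
    exact h1
  have hib' : Integrable (fun X => Db (σ X)) := by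
    have h1 := SDF_int p l O hl hO Db hDbi
    simp only [← hσ] at h1
    exact h1
  have hWsub : W ⊆ Metric.closedBall (0 : E3) 70 := by
    intro X hX
    rw [mem_closedBall_zero_iff]
    exact (hWmem X hX).2.le
  have hI1 : IntegrableOn (fun X => ‖σ X - p‖ ^ 3 * Dp (σ X)) W := by
    have h1 : ContinuousOn (fun X => ‖σ X - p‖ ^ 3) (Metric.closedBall (0 : E3) 70) := by
      fun_prop
    exact (hip'.integrableOn.continuousOn_mul h1 (isCompact_closedBall _ _)).mono_set hWsub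
  have hI2 : IntegrableOn (fun X => ‖σ X - b‖ ^ 3 * Db (σ X)) W := by
    have h1 : ContinuousOn (fun X => ‖σ X - b‖ ^ 3) (Metric.closedBall (0 : E3) 70) := by
      fun_prop
    exact (hib'.integrableOn.continuousOn_mul h1 (isCompact_closedBall _ _)).mono_set hWsub
  have hI : IntegrableOn (fun X => ‖σ X - p‖ ^ 3 * Dp (σ X) + ‖σ X - b‖ ^ 3 * Db (σ X)) W :=
    hI1.add hI2
  refine ⟨hI.congr_fun (fun X hX => (hEW X hX).symm) hWm, ?_⟩
  rw [setIntegral_congr_fun hWm hEW]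
  have haep : ∀ᵐ X : E3, 0 ≤ Dp (σ X) := by
    have h1 := (hCHV (fun _ => 0) p l O hl hO).2.2.2.2 (fun x => 0 ≤ Dp x) hDp0
    simp only [← hσ] at h1
    exact h1
  have haeb : ∀ᵐ X : E3, 0 ≤ Db (σ X) := by
    have h1 := (hCHV (fun _ => 0) p l O hl hO).2.2.2.2 (fun x => 0 ≤ Db x) hDb0
    simp only [← hσ] at h1
    exact h1
  have hGi : Integrable (fun X => 71 ^ 3 * l ^ 3 * (Dp (σ X) + Db (σ X))) :=
    (hip'.add hib').const_mul _
  have hstep1 : ∫ X in W, (‖σ X - p‖ ^ 3 * Dp (σ X) + ‖σ X - b‖ ^ 3 * Db (σ X)) ≤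
      ∫ X in W, 71 ^ 3 * l ^ 3 * (Dp (σ X) + Db (σ X)) := by
    refine setIntegral_mono_on_ae hI hGi.integrableOn hWm ?_
    filter_upwards [haep, haeb] with X h1 h2 hX
    have h3 : ‖σ X - p‖ ^ 3 ≤ 71 ^ 3 * l ^ 3 := by
      rw [← mul_pow]
      exact pow_le_pow_left₀ (norm_nonneg _) (hWp X hX).2.le 3
    have h4 : ‖σ X - b‖ ^ 3 ≤ 71 ^ 3 * l ^ 3 := by
      rw [← mul_pow]
      exact pow_le_pow_left₀ (norm_nonneg _) (hWb X hX).2.le 3
    rw [mul_add]
    exact add_le_add (mul_le_mul_of_nonneg_right h3 h1) (mul_le_mul_of_nonneg_right h4 h2)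
  have hstep2 : ∫ X in W, 71 ^ 3 * l ^ 3 * (Dp (σ X) + Db (σ X)) ≤
      ∫ X, 71 ^ 3 * l ^ 3 * (Dp (σ X) + Db (σ X)) := by
    refine setIntegral_le_integral hGi ?_
    filter_upwards [haep, haeb] with X h1 h2
    exact mul_nonneg (by positivity) (add_nonneg h1 h2)
  have hstep3 : ∫ X, 71 ^ 3 * l ^ 3 * (Dp (σ X) + Db (σ X)) =
      71 ^ 3 * ((∫ x, Dp x) + ∫ x, Db x) := by
    have h1 := (hCHV (fun x => 71 ^ 3 * l ^ 3 * (Dp x + Db x)) p l O hl hO).1
    simp only [← hσ] at h1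
    rw [h1, integral_const_mul, integral_add hDpi hDbi]
    field_simp
  have hDpI : ∫ x, Dp x = DR f A p (ρ / 4 * l) (71 * l) := by
    rw [hDp, integral_indicator (SDF_rg_meas _ _ _)]
    rfl
  have hDbI : ∫ x, Db x = DR f A b (ρ / 4 * l) (71 * l) := by
    rw [hDb, integral_indicator (SDF_rg_meas _ _ _)]
    rfl
  rw [hDpI, hDbI] at hstep3
  exact (hstep1.trans hstep2).trans hstep3.le

end Pool.Flat
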