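import Pool.Agent.Work.MP_680515_fl.Iface4

/-!
# Block SEC: local inverse on a ball which does not meet the image of the branch set (helper4)
-/

open MeasureTheory Set Filter Topology

namespace Pool.Flat

open Pool.Mart

/-- the point of `E3` with the square root `h` -/
noncomputable def SEC_P (h : ℂ) (c : ℝ) : E3 := !₂[‖h‖ * h.re, ‖h‖ * h.im, c]

theorem SEC_vec_cont {X : Type} [TopologicalSpace X] {a b c : X → ℝ} {s : Set X}
    (ha : ContinuousOn a s) (hb : ContinuousOn b s) (hc : ContinuousOn c s) :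
    ContinuousOn (fun x => (!₂[a x, b x, c x] : E3)) s := by
  refine (PiLp.continuous_toLp 2 (fun _ : Fin 3 => ℝ)).comp_continuousOn
    (continuousOn_pi.2 fun i => ?_)
  fin_cases i
  · exact ha
  · exact hb
  · exact hc

theorem SEC_coord {X : Type} [TopologicalSpace X] {u : X → E3} {s : Set X} (hu : ContinuousOn u s)
    (i : Fin 3) : ContinuousOn (fun x => u x i) s :=
  (EuclideanSpace.proj (𝕜 := ℝ) i).continuous.comp_continuousOn hu

theorem SEC_neg (h : ℂ) (c : ℝ) : SEC_P (-h) c = sg (SEC_P h c) := by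
  ext i
  fin_cases i <;> simp [SEC_P, sg]

theorem SEC_sgsg (y : E3) : sg (sg y) = y := by
  ext i
  fin_cases i <;> simp [sg]

theorem SEC_sg_cont : Continuous sg := by
  rw [← continuousOn_univ]
  exact SEC_vec_cont (SEC_coord continuousOn_id 0).neg (SEC_coord continuousOn_id 1).neg
    (SEC_coord continuousOn_id 2)

theorem p_SEC (hSQR : Stmt_SQR) (hWOP : Stmt_WOP) (hFOP : Stmt_FOP) : Stmt_SEC := by
  intro φ ψ x0 z s0 s1 hsrc hx0 hs0 hφt hψt hz hzx0 hs1 hs10 hfar
  obtain ⟨-, -, -, hw4, hw5, hw6, -, hw8, hw9⟩ := hWOP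
  obtain ⟨hfc, -, -⟩ := hFOP φ ψ hsrc
  set B := Metric.closedBall (fm φ ψ z) s1 with hB
  have hBt : B ⊆ Metric.closedBall (fm φ ψ x0) (3 * s0) := by
    intro y hy
    rw [hB, Metric.mem_closedBall, dist_eq_norm] at hy
    rw [Metric.mem_closedBall, dist_eq_norm]
    have h1 : y - fm φ ψ x0 = (y - fm φ ψ z) + (fm φ ψ z - fm φ ψ x0) := by abel
    rw [h1]
    refine (norm_add_le _ _).trans ?_
    linarith
  have hBφ : B ⊆ φ.target := hBt.trans hφt
  have huc : ContinuousOn φ.symm B := φ.continuousOn_symm.mono hBφ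
  set g : E3 → ℂ := fun y => ⟨φ.symm y 0, φ.symm y 1⟩ with hg
  have hgc : ContinuousOn g B := by
    have h1 : ContinuousOn (fun y => ((φ.symm y 0 : ℝ) : ℂ) + ((φ.symm y 1 : ℝ) : ℂ) * Complex.I) B :=
      (Complex.continuous_ofReal.comp_continuousOn (SEC_coord huc 0)).add
        ((Complex.continuous_ofReal.comp_continuousOn (SEC_coord huc 1)).mul continuousOn_const)
    refine h1.congr fun y _ => ?_
    rw [hg]
    apply Complex.ext <;> simp
  -- points over the ball
  have hlift : ∀ y ∈ B, ∀ v : E3, wind v = φ.symm y → v ∈ ψ.target ∧ ψ.symm v ∈ ψ.source ∧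
      ψ (ψ.symm v) = v ∧ fm φ ψ (ψ.symm v) = y := by
    intro y hy v hv
    have h1 : v ∈ ψ.target := hψt ⟨y, hBt hy, hv.symm⟩
    have h2 : ψ (ψ.symm v) = v := ψ.right_inv h1
    refine ⟨h1, ψ.map_target h1, h2, ?_⟩
    unfold fm
    rw [h2, hv]
    exact φ.right_inv (hBφ hy)
  have hg0 : ∀ y ∈ B, g y ≠ 0 := by
    intro y hy h0
    have h1 : φ.symm y 0 = 0 := congrArg Complex.re h0
    have h2 : φ.symm y 1 = 0 := congrArg Complex.im h0
    have h3 : rad (φ.symm y) = 0 := by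
      unfold rad
      rw [h1, h2]
      simp
    obtain ⟨h4, h5, h6, h7⟩ := hlift y hy (φ.symm y) (hw6 _ h3)
    have h8 := hfar (ψ.symm (φ.symm y)) ⟨h5, by rw [h6]; exact h3⟩
    rw [h7] at h8
    rw [hB, Metric.mem_closedBall, dist_comm, dist_eq_norm] at hy
    exact absurd hy (not_le.2 h8)
  obtain ⟨h, hhc, hhg⟩ := hSQR g (fm φ ψ z) s1 hs1.le hgc hg0
  have hwindP : ∀ (h : E3 → ℂ), (∀ y ∈ B, h y ^ 2 = g y) → ∀ y ∈ B,
      wind (SEC_P (h y) (φ.symm y 2)) = φ.symm y := by
    intro h hh y hy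
    have h1 := hw9 (g y) (h y) (φ.symm y 2) (hh y hy)
    unfold SEC_P
    rw [h1]
    ext i
    fin_cases i <;> simp [hg]
  have hzB : fm φ ψ z ∈ B := Metric.mem_closedBall_self hs1.le
  have hsym : ∀ x ∈ ψ.source, φ.symm (fm φ ψ x) = wind (ψ x) := fun x hx =>
    φ.left_inv (hsrc x hx)
  -- choice of the sign
  obtain ⟨k, hkc, hkg, hkz⟩ : ∃ k : E3 → ℂ, ContinuousOn k B ∧ (∀ y ∈ B, k y ^ 2 = g y) ∧
      SEC_P (k (fm φ ψ z)) (φ.symm (fm φ ψ z) 2) = ψ z := by
    have h1 : wind (ψ z) = wind (SEC_P (h (fm φ ψ z)) (φ.symm (fm φ ψ z) 2)) := by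
      rw [hwindP h hhg _ hzB, hsym z hz]
    rcases hw5 _ _ h1 with h2 | h2
    · exact ⟨h, hhc, hhg, h2⟩
    · refine ⟨fun y => -h y, hhc.neg, fun y hy => by rw [neg_sq]; exact hhg y hy, ?_⟩
      rw [SEC_neg, h2, SEC_sgsg]
  set P : E3 → E3 := fun y => SEC_P (k y) (φ.symm y 2) with hP
  have hPc : ContinuousOn P B := by
    refine SEC_vec_cont (hkc.norm.mul (Complex.continuous_re.comp_continuousOn hkc))
      (hkc.norm.mul (Complex.continuous_im.comp_continuousOn hkc)) (SEC_coord huc 2)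
  have hPw : ∀ y ∈ B, wind (P y) = φ.symm y := hwindP k hkg
  have hPl := fun y (hy : y ∈ B) => hlift y hy (P y) (hPw y hy)
  refine ⟨fun y => ψ.symm (P y), ?_, fun y hy => ⟨(hPl y hy).2.1, (hPl y hy).2.2.2⟩, ?_, ?_⟩
  · exact ψ.continuousOn_symm.comp hPc fun y hy => (hPl y hy).1
  · show ψ.symm (P (fm φ ψ z)) = z
    have h1 : P (fm φ ψ z) = ψ z := hkz
    rw [h1]
    exact ψ.left_inv hz
  · intro C hC hCs hzC hCB
    have hdich : ∀ x ∈ C, P (fm φ ψ x) = ψ x ∨ P (fm φ ψ x) = sg (ψ x) := by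
      intro x hx
      refine hw5 _ _ ?_
      rw [hPw _ (hCB x hx), hsym x (hCs hx)]
    have hdisj : ∀ x ∈ C, sg (ψ x) ≠ ψ x := by
      intro x hx h0
      have h1 := hfar x ⟨hCs hx, (hw8 _).1 h0⟩
      have h2 := hCB x hx
      rw [hB, Metric.mem_closedBall, dist_comm, dist_eq_norm] at h2
      exact absurd h2 (not_le.2 h1)
    have hconn : PreconnectedSpace C := isPreconnected_iff_preconnectedSpace.1 hC
    have c1 : Continuous fun x : C => P (fm φ ψ x) := by
      have h1 : ContinuousOn (fun x => P (fm φ ψ x)) C := hPc.comp (hfc.mono hCs) hCB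
      exact continuousOn_iff_continuous_domRestrict.1 h1
    have c2 : Continuous fun x : C => ψ x := by
      have h1 : ContinuousOn ψ C := ψ.continuousOn.mono hCs
      exact continuousOn_iff_continuous_domRestrict.1 h1
    have c3 : Continuous fun x : C => sg (ψ x) := SEC_sg_cont.comp c2
    set A1 : Set C := {x | P (fm φ ψ x) = ψ x} with hA1
    have hA1c : IsClosed A1 := isClosed_eq c1 c2
    have hA2 : A1ᶜ = {x : C | P (fm φ ψ x) = sg (ψ x)} := by
      ext x
      constructor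
      · intro hx
        exact (hdich x.1 x.2).resolve_left hx
      · intro hx hx1
        have hx' : P (fm φ ψ x) = sg (ψ x) := hx
        have hx1' : P (fm φ ψ x) = ψ x := hx1
        exact hdisj x.1 x.2 (hx'.symm.trans hx1')
    have hA1o : IsOpen A1 := by
      rw [← isClosed_compl_iff, hA2]
      exact isClosed_eq c1 c3
    have hclopen : IsClopen A1 := ⟨hA1c, hA1o⟩
    have huniv : A1 = univ := by
      rcases isClopen_iff.1 hclopen with h | h
      · exfalso
        have : (⟨z, hzC⟩ : C) ∈ A1 := hkz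
        rw [h] at this
        exact this
      · exact h
    intro x hx
    have h1 : (⟨x, hx⟩ : C) ∈ A1 := by rw [huniv]; exact mem_univ _
    have h2 : P (fm φ ψ x) = ψ x := h1
    show ψ.symm (P (fm φ ψ x)) = x
    rw [h2]
    exact ψ.left_inv (hCs hx)

end Pool.Flat
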