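import Pool.Agent.Work.MP_680515_fl.Iface3

/-! # SEG: chains of segments in a shell (helper22) -/

set_option autoImplicit false

open MeasureTheory Set Filter Topology

namespace Pool.Flat

open Pool.Mart

theorem SEG_orth (u y : E3) : ∃ v : E3, inner ℝ u v = 0 ∧ ‖v‖ = 1 ∧ 0 ≤ inner ℝ v y := by
  obtain ⟨v, h1, h2⟩ : ∃ v : E3, inner ℝ u v = 0 ∧ v ≠ 0 := by
    by_cases h : u 0 = 0 ∧ u 1 = 0
    · refine ⟨EuclideanSpace.single 0 1, ?_, ?_⟩
      · simp [EuclideanSpace.inner_single_right, h.1]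
      · intro h3
        have := congrArg (fun z : E3 => z 0) h3
        simp at this
    · refine ⟨!₂[-u 1, u 0, 0], ?_, ?_⟩
      · simp [PiLp.inner_apply, Fin.sum_univ_three]
        ring
      · intro h3
        have h4 := congrArg (fun z : E3 => z 0) h3
        have h5 := congrArg (fun z : E3 => z 1) h3
        simp at h4 h5
        exact h ⟨h5, h4⟩
  have h3 : 0 < ‖v‖ := norm_pos_iff.2 h2
  have h4 : ‖‖v‖⁻¹ • v‖ = 1 := by
    rw [norm_smul, norm_inv, norm_norm, inv_mul_cancel₀ h3.ne']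
  have h5 : inner ℝ u (‖v‖⁻¹ • v) = 0 := by rw [inner_smul_right, h1, mul_zero]
  by_cases h6 : 0 ≤ inner ℝ (‖v‖⁻¹ • v) y
  · exact ⟨_, h5, h4, h6⟩
  · refine ⟨-(‖v‖⁻¹ • v), ?_, ?_, ?_⟩
    · rw [inner_neg_right, h5, neg_zero]
    · rw [norm_neg, h4]
    · rw [inner_neg_left]
      linarith

theorem SEG_chord {ρ : ℝ} {u w : E3} (h1 : ‖u‖ = ρ) (h2 : ‖w‖ = ρ) (h3 : 0 ≤ inner ℝ u w)
    {s : ℝ} (hs : s ∈ Icc (0 : ℝ) 1) : ρ / 2 ≤ ‖u + s • (w - u)‖ ∧ ‖u + s • (w - u)‖ ≤ ρ := by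
  have hρ : 0 ≤ ρ := by rw [← h1]; exact norm_nonneg u
  have e : ‖u + s • (w - u)‖ ^ 2 =
      (1 - s) ^ 2 * ρ ^ 2 + s ^ 2 * ρ ^ 2 + 2 * s * (1 - s) * inner ℝ u w := by
    have : u + s • (w - u) = (1 - s) • u + s • w := by
      rw [smul_sub, sub_smul, one_smul]
      abel
    rw [this, ← real_inner_self_eq_norm_sq, inner_add_left, inner_add_right, inner_add_right]
    simp only [inner_smul_left, inner_smul_right, conj_trivial, real_inner_self_eq_norm_sq]
    rw [real_inner_comm u w, h1, h2]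
    ring
  constructor
  · apply le_of_sq_le_sq _ (norm_nonneg _)
    rw [e]
    have := mul_nonneg (mul_nonneg (mul_nonneg zero_le_two hs.1) (sub_nonneg.2 hs.2)) h3
    nlinarith [sq_nonneg ((1 - 2 * s) * ρ), sq_nonneg ρ]
  · have h4 : ‖u + s • (w - u)‖ ≤ (1 - s) * ‖u‖ + s * ‖w‖ := by
      have : u + s • (w - u) = (1 - s) • u + s • w := by
        rw [smul_sub, sub_smul, one_smul]
        abel
      rw [this]
      refine (norm_add_le _ _).trans ?_
      rw [norm_smul, norm_smul, Real.norm_of_nonneg hs.1, Real.norm_of_nonneg (sub_nonneg.2 hs.2)]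
    rw [h1, h2] at h4
    linarith

theorem p_SEG : Stmt_SEG := by
  intro a b x y ha hx1 hx2 hy1 hy2
  have hx : 0 < ‖x‖ := ha.trans_le hx1
  have hy : 0 < ‖y‖ := ha.trans_le hy1
  obtain ⟨z1, hz1, hz1'⟩ : ∃ z1 : E3, z1 = (‖y‖ / ‖x‖) • x ∧ ‖z1‖ = ‖y‖ := by
    refine ⟨_, rfl, ?_⟩
    rw [norm_smul, norm_div, norm_norm, norm_norm, div_mul_cancel₀ _ hx.ne']
  obtain ⟨z2, hz2, h12, h2y⟩ : ∃ z2 : E3, ‖z2‖ = ‖y‖ ∧ 0 ≤ inner ℝ z1 z2 ∧ 0 ≤ inner ℝ z2 y := by
    by_cases h : 0 ≤ inner ℝ z1 y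
    · exact ⟨y, rfl, h, real_inner_self_nonneg⟩
    · obtain ⟨v, h1, h2, h3⟩ := SEG_orth z1 y
      refine ⟨‖y‖ • v, ?_, ?_, ?_⟩
      · rw [norm_smul, norm_norm, h2, mul_one]
      · rw [inner_smul_right, h1, mul_zero]
      · rw [inner_smul_left]
        exact mul_nonneg hy.le h3
  refine ⟨fun i => if i = 0 then x else if i = 1 then z1 else if i = 2 then z2 else y,
    by simp, by simp, ?_, ?_⟩
  · intro i hi
    interval_cases i
    · exact ⟨hx1, hx2⟩
    · simpa [hz1'] using ⟨hy1, hy2⟩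
    · simpa [hz2] using ⟨hy1, hy2⟩
    · exact ⟨hy1, hy2⟩
    · exact ⟨hy1, hy2⟩
  · intro i hi s hs
    interval_cases i
    · have e : x + s • (z1 - x) = ((1 - s) + s * (‖y‖ / ‖x‖)) • x := by
        rw [hz1]
        module
      have e2 : ‖x + s • (z1 - x)‖ = (1 - s) * ‖x‖ + s * ‖y‖ := by
        have h0 : 0 ≤ (1 - s) + s * (‖y‖ / ‖x‖) := by
          have := hs.1
          have := sub_nonneg.2 hs.2
          positivity
        rw [e, norm_smul, Real.norm_of_nonneg h0]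
        field_simp
      have h1 := hs.1
      have h2 := sub_nonneg.2 hs.2
      simp only [zero_add, if_true, one_ne_zero, if_false]
      rw [e2]
      constructor <;> nlinarith
    · have h := SEG_chord hz1' hz2 h12 hs
      exact ⟨by simpa using (by linarith : a / 2 ≤ ‖z1 + s • (z2 - z1)‖),
        by simpa using (by linarith : ‖z1 + s • (z2 - z1)‖ ≤ b)⟩
    · have h := SEG_chord hz2 rfl h2y hs
      exact ⟨by simpa using (by linarith : a / 2 ≤ ‖z2 + s • (y - z2)‖),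
        by simpa using (by linarith : ‖z2 + s • (y - z2)‖ ≤ b)⟩
    · simp
      constructor <;> linarith

end Pool.Flat
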