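import Pool.Agent.Work.MP_680515_fl.Iface3

/-!
Block SEGC: chains of three segments off the axis.
-/

open MeasureTheory Set Filter Topology

namespace Pool.Flat

open Pool.Mart

/-- square of the distance to the axis -/
theorem SEGC_sq (z : E3) : rad z ^ 2 = z 0 ^ 2 + z 1 ^ 2 :=
  Real.sq_sqrt (by positivity)

/-- distance to the axis is not negative -/
theorem SEGC_nn (z : E3) : 0 ≤ rad z := Real.sqrt_nonneg _

/-- square of the norm -/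
theorem SEGC_norm (z : E3) : ‖z‖ ^ 2 = z 0 ^ 2 + z 1 ^ 2 + z 2 ^ 2 := by
  rw [EuclideanSpace.norm_sq_eq]
  simp [Fin.sum_univ_three]

/-- the quarter turn keeps the distance to the axis, with a choice of sign -/
theorem SEGC_turn (ρ R : ℝ) (X X' : E3) (h1 : ρ ≤ rad X) (h2 : ‖X‖ ≤ R) :
    ∃ Z : E3, ρ ≤ rad Z ∧ ‖Z‖ ≤ R ∧ 0 ≤ X 0 * Z 0 + X 1 * Z 1 ∧
      0 ≤ Z 0 * X' 0 + Z 1 * X' 1 := by
  have key : ∀ e : ℝ, e ^ 2 = 1 → 0 ≤ e * (X 0 * X' 1 - X 1 * X' 0) →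
      ∃ Z : E3, ρ ≤ rad Z ∧ ‖Z‖ ≤ R ∧ 0 ≤ X 0 * Z 0 + X 1 * Z 1 ∧
      0 ≤ Z 0 * X' 0 + Z 1 * X' 1 := by
    intro e he hpos
    have c0 : (!₂[-(e * X 1), e * X 0, X 2] : E3) 0 = -(e * X 1) := rfl
    have c1 : (!₂[-(e * X 1), e * X 0, X 2] : E3) 1 = e * X 0 := rfl
    have c2 : (!₂[-(e * X 1), e * X 0, X 2] : E3) 2 = X 2 := rfl
    refine ⟨!₂[-(e * X 1), e * X 0, X 2], ?_, ?_, ?_, ?_⟩
    · have h3 : rad (!₂[-(e * X 1), e * X 0, X 2] : E3) = rad X := by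
        unfold rad
        rw [c0, c1]
        congr 1
        calc (-(e * X 1)) ^ 2 + (e * X 0) ^ 2 = e ^ 2 * (X 0 ^ 2 + X 1 ^ 2) := by ring
          _ = X 0 ^ 2 + X 1 ^ 2 := by rw [he, one_mul]
      rw [h3]
      exact h1
    · have h3 : ‖(!₂[-(e * X 1), e * X 0, X 2] : E3)‖ ^ 2 = ‖X‖ ^ 2 := by
        rw [SEGC_norm, SEGC_norm, c0, c1, c2]
        calc (-(e * X 1)) ^ 2 + (e * X 0) ^ 2 + X 2 ^ 2
            = e ^ 2 * (X 0 ^ 2 + X 1 ^ 2) + X 2 ^ 2 := by ring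
          _ = X 0 ^ 2 + X 1 ^ 2 + X 2 ^ 2 := by rw [he, one_mul]
      have h4 : ‖(!₂[-(e * X 1), e * X 0, X 2] : E3)‖ = ‖X‖ :=
        (sq_eq_sq₀ (norm_nonneg _) (norm_nonneg _)).1 h3
      rw [h4]
      exact h2
    · rw [c0, c1]
      apply le_of_eq
      ring
    · rw [c0, c1]
      calc (0 : ℝ) ≤ e * (X 0 * X' 1 - X 1 * X' 0) := hpos
        _ = -(e * X 1) * X' 0 + e * X 0 * X' 1 := by ring
  rcases le_total 0 (X 0 * X' 1 - X 1 * X' 0) with h | h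
  · exact key 1 (by norm_num) (by linarith)
  · exact key (-1) (by norm_num) (by linarith)

/-- one segment -/
theorem SEGC_seg (ρ R : ℝ) (P Q : E3) (hρ : 0 < ρ) (h1 : ρ ≤ rad P) (h2 : ‖P‖ ≤ R)
    (h3 : ρ ≤ rad Q) (h4 : ‖Q‖ ≤ R) (h5 : 0 ≤ P 0 * Q 0 + P 1 * Q 1) :
    ∀ s ∈ Icc (0 : ℝ) 1, ρ / 2 ≤ rad (P + s • (Q - P)) ∧ ‖P + s • (Q - P)‖ ≤ R := by
  intro s hs
  obtain ⟨s0, s1⟩ := hs
  constructor
  · have e0 : (P + s • (Q - P)) 0 = P 0 + s * (Q 0 - P 0) := rfl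
    have e1 : (P + s • (Q - P)) 1 = P 1 + s * (Q 1 - P 1) := rfl
    have hP : ρ ^ 2 ≤ P 0 ^ 2 + P 1 ^ 2 := by
      rw [← SEGC_sq]
      exact pow_le_pow_left₀ hρ.le h1 2
    have hQ : ρ ^ 2 ≤ Q 0 ^ 2 + Q 1 ^ 2 := by
      rw [← SEGC_sq]
      exact pow_le_pow_left₀ hρ.le h3 2
    have hsq : (ρ / 2) ^ 2 ≤ rad (P + s • (Q - P)) ^ 2 := by
      rw [SEGC_sq, e0, e1]
      have t1 : 0 ≤ (1 - s) ^ 2 * (P 0 ^ 2 + P 1 ^ 2 - ρ ^ 2) :=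
        mul_nonneg (sq_nonneg _) (by linarith)
      have t2 : 0 ≤ s ^ 2 * (Q 0 ^ 2 + Q 1 ^ 2 - ρ ^ 2) :=
        mul_nonneg (sq_nonneg _) (by linarith)
      have t3 : 0 ≤ s * (1 - s) * (P 0 * Q 0 + P 1 * Q 1) :=
        mul_nonneg (mul_nonneg s0 (by linarith)) h5
      have t4 : 0 ≤ (2 * s - 1) ^ 2 * ρ ^ 2 := by positivity
      have t5 : 0 ≤ ρ ^ 2 := by positivity
      have t6 : (P 0 + s * (Q 0 - P 0)) ^ 2 + (P 1 + s * (Q 1 - P 1)) ^ 2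
          = (1 - s) ^ 2 * (P 0 ^ 2 + P 1 ^ 2 - ρ ^ 2) + s ^ 2 * (Q 0 ^ 2 + Q 1 ^ 2 - ρ ^ 2)
            + 2 * (s * (1 - s) * (P 0 * Q 0 + P 1 * Q 1))
            + ((2 * s - 1) ^ 2 * ρ ^ 2 + ρ ^ 2) / 2 := by ring
      rw [t6]
      have t7 : (ρ / 2) ^ 2 = ρ ^ 2 / 4 := by ring
      rw [t7]
      linarith
    exact (pow_le_pow_iff_left₀ (by positivity) (SEGC_nn _) (by norm_num)).1 hsq
  · have e : P + s • (Q - P) = (1 - s) • P + s • Q := by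
      rw [smul_sub, sub_smul, one_smul]
      abel
    rw [e]
    calc ‖(1 - s) • P + s • Q‖ ≤ ‖(1 - s) • P‖ + ‖s • Q‖ := norm_add_le _ _
      _ = (1 - s) * ‖P‖ + s * ‖Q‖ := by
          rw [norm_smul, norm_smul, Real.norm_of_nonneg (by linarith), Real.norm_of_nonneg s0]
      _ ≤ (1 - s) * R + s * R := by
          gcongr
      _ = R := by ring

/-- Chains of segments off the axis. -/
theorem p_SEGC : Stmt_SEGC := by
  intro ρ R X X' hρ h1 h2 h3 h4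
  obtain ⟨Z, z1, z2, z3, z4⟩ := SEGC_turn ρ R X X' h1 h2
  refine ⟨fun i => if i = 0 then X else if i = 1 then Z else X', ?_, ?_, ?_, ?_⟩
  · simp
  · simp
  · intro i hi
    interval_cases i
    · simpa using ⟨h1, h2⟩
    · simpa using ⟨z1, z2⟩
    · simpa using ⟨h3, h4⟩
    · simpa using ⟨h3, h4⟩
  · intro i hi
    interval_cases i
    · simpa using SEGC_seg ρ R X Z hρ h1 h2 z1 z2 z3
    · simpa using SEGC_seg ρ R Z X' hρ z1 z2 h3 h4 z4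
    · have h5 : 0 ≤ X' 0 * X' 0 + X' 1 * X' 1 :=
        add_nonneg (mul_self_nonneg _) (mul_self_nonneg _)
      simpa using SEGC_seg ρ R X' X' hρ h3 h4 h3 h4 h5

end Pool.Flat
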