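import Pool.Agent.Work.MP_680515_fl.Iface3

/-!
# MP_680515_an, THEOREM FB: block SFX (the normalised map has small defect)
-/

open MeasureTheory Set Filter Topology

namespace Pool.Flat

open Pool.Mart

theorem SFX_act_sub (A : M3) (v w : E3) : act A (v - w) = act A v - act A w := by
  have h := map_sub (Matrix.toEuclideanLin A) v w
  exact h

theorem SFX_act_smul (A : M3) (c : ℝ) (v : E3) : act A (c • v) = c • act A v := by
  have h := map_smul (Matrix.toEuclideanLin A) c v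
  exact h

theorem SFX_act_cont (A : M3) : Continuous (fun v : E3 => act A v) := by
  have h := (Matrix.toEuclideanLin A).continuous_of_finiteDimensional
  exact h

theorem SFX_norm_e3 : ‖e3‖ = 1 := by
  simp [e3]

/-- Weak gradients on smaller sets. -/
theorem SFX_mono {Ω Ω' : Set E3} {f : E3 → E3} {A : E3 → M3} (h : WeakGrad Ω f A) (hs : Ω' ⊆ Ω) :
    WeakGrad Ω' f A :=
  ⟨fun K hK hKs => h.loc K hK (hKs.trans hs), fun φ h1 h2 h3 => h.ibp φ h1 h2 (h3.trans hs)⟩

/-- The chord is not zero. -/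
theorem SFX_chord {ε : ℝ} {γ : ℝ → E3} (_h0 : 0 ≤ ε) (h1 : ε ≤ 1 / 1000) (hl : NearLin ε γ 2 1)
    {t s : ℝ} (ht : t ∈ Icc (-2 : ℝ) 2) (hs : s ≠ 0) (hs1 : |s| ≤ 1)
    (hts : t + s ∈ Icc (-2 : ℝ) 2) : 0 < ‖cv γ t s‖ := by
  obtain ⟨v, hv, hv1⟩ := hl t ht |s| (abs_pos.2 hs) hs1
  have h2 := hv1 s le_rfl hts
  rw [norm_pos_iff]
  intro h3
  unfold cv at h3
  rw [h3, zero_sub, norm_neg, norm_smul, Real.norm_eq_abs] at h2
  have h4 : 0 < |s| * ‖v‖ := mul_pos (abs_pos.2 hs) (norm_pos_iff.2 hv)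
  nlinarith

theorem p_SFX (hNR1 : Stmt_NR1) (hRZA : Stmt_RZA) (hE3 : Stmt_E3) (hSML : Stmt_SML)
    (hSDF : Stmt_SDF) (hFRM : Stmt_FRM) (hWGC : Stmt_WGC) (hROT : Pool.Mart.Stmt_ROT)
    (hCHV : Pool.Mart.Stmt_CHV) : Stmt_SFX := by
  intro H ρ σ hH hρ hρ1 hσ
  obtain ⟨δ, hδ, hE⟩ := hE3 H 73 σ hH (by norm_num) hσ
  refine ⟨min δ σ, lt_min hδ hσ, min_le_right _ _, ?_⟩
  intro τ1 η hτ1 hη
  obtain ⟨τ, hτ, hRZ⟩ := hRZA τ1 hτ1
  obtain ⟨ε2, δ2, hε2, hε2', hδ2, hδ2', hN⟩ := hNR1 H τ 81 hH hτ (by norm_num)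
  -- the constants for `SML`
  set M : ℝ := Real.sqrt (284 / ρ) with hM
  set κ : ℝ := Real.sqrt (71 * ρ / 4) with hκ
  have hMpos : 0 < M := Real.sqrt_pos.2 (by positivity)
  have hκpos : 0 < κ := Real.sqrt_pos.2 (by positivity)
  have hM1 : 1 ≤ M := by
    rw [hM, Real.one_le_sqrt, le_div_iff₀ hρ]
    linarith
  have hκ5 : κ ≤ 5 := by
    rw [hκ, Real.sqrt_le_left (by norm_num)]
    nlinarith
  have hMM : M ^ 2 = 284 / ρ := Real.sq_sqrt (by positivity)
  have hκκ : κ ^ 2 = 71 * ρ / 4 := Real.sq_sqrt (by positivity)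
  have hκM : M * κ = 71 := by
    have h1 : (M * κ) ^ 2 = 71 ^ 2 := by
      rw [mul_pow, hMM, hκκ]
      field_simp
      norm_num
    have h2 : 0 ≤ M * κ := by positivity
    nlinarith
  have hκdM : κ / M = ρ / 4 := by
    rw [div_eq_iff hMpos.ne']
    have h1 : M * (ρ / 4 * M) = M * κ := by
      have : M * (ρ / 4 * M) = ρ / 4 * M ^ 2 := by ring
      rw [this, hMM, hκM]
      field_simp
      norm_num
    exact (mul_left_cancel₀ hMpos.ne' h1).symm
  have hη' : 0 < η / (2 * 71 ^ 3) := by positivity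
  obtain ⟨ε3, δ3, hε3, hε3', hδ3, hδ3', hS⟩ := hSML H (η / (2 * 71 ^ 3)) M hH hη' hM1
  refine ⟨min ε2 ε3, min (min δ2 (δ3 / 5)) (1 / 800), lt_min hε2 hε3,
    (min_le_left _ _).trans hε2', lt_min (lt_min hδ2 (by positivity)) (by norm_num),
    (min_le_right _ _).trans (by norm_num), ?_⟩
  intro ε r0 Ω S f A γ hε0 hε1 hT t ht s hs hs1 hts hcv O hO hcvO
  have hεa : ε ≤ ε2 := hε1.trans (min_le_left _ _)
  have hεb : ε ≤ ε3 := hε1.trans (min_le_right _ _)
  have hεc : ε ≤ 1 / 1000 := hεa.trans hε2'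
  have hr0 := hT.rpos
  have ht2 : t ∈ Icc (-2 : ℝ) 2 := ⟨by linarith [ht.1], by linarith [ht.2]⟩
  have hts2 : t + s ∈ Icc (-2 : ℝ) 2 := ⟨by linarith [hts.1], by linarith [hts.2]⟩
  have hlpos := SFX_chord hε0 hεc hT.lin ht2 hs hs1 hts2
  -- names
  obtain ⟨p, hp⟩ : ∃ p : E3, p = γ t := ⟨_, rfl⟩
  obtain ⟨b, hb⟩ : ∃ b : E3, b = γ (t + s) := ⟨_, rfl⟩
  have hcvb : cv γ t s = b - p := by rw [hb, hp]; rfl
  rw [hcvb] at hcv hcvO hlpos ⊢
  rw [← hp, ← hb]
  obtain ⟨l, hl⟩ : ∃ l : ℝ, l = ‖b - p‖ := ⟨_, rfl⟩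
  rw [← hl] at hcv hcvO hlpos ⊢
  have hla : l ≤ δ2 * r0 := hcv.trans (mul_le_mul_of_nonneg_right
    ((min_le_left _ _).trans (min_le_left _ _)) hr0.le)
  have hlb : l ≤ δ3 / 5 * r0 := hcv.trans (mul_le_mul_of_nonneg_right
    ((min_le_left _ _).trans (min_le_right _ _)) hr0.le)
  have hlc : l ≤ 1 / 800 * r0 := hcv.trans (mul_le_mul_of_nonneg_right (min_le_right _ _) hr0.le)
  have hbp : b ≠ p := by
    intro h0
    rw [hl, h0, sub_self, norm_zero] at hlpos
    exact lt_irrefl _ hlpos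
  have hbpn : ‖b - p‖ = l := hl.symm
  have hpbn : ‖p - b‖ = l := by rw [norm_sub_rev, hbpn]
  have hinjp : ∀ x ∈ Metric.closedBall p (8 * r0), f x = f p → x = p := by
    rw [hp]; exact hT.inj t ht2
  have hinjb : ∀ x ∈ Metric.closedBall b (8 * r0), f x = f b → x = b := by
    rw [hb]; exact hT.inj (t + s) hts2
  have hl'pos : 0 < ‖f b - f p‖ := by
    rw [norm_pos_iff, sub_ne_zero]
    intro h0
    exact hbp (hinjp b (by rw [Metric.mem_closedBall, dist_eq_norm, hbpn]; linarith) h0)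
  refine ⟨hl'pos, ?_⟩
  obtain ⟨O', hO', hfO⟩ := hFRM (f b - f p) (norm_pos_iff.1 hl'pos)
  refine ⟨O', hO', hfO, ?_⟩
  obtain ⟨l', hl'⟩ : ∃ l' : ℝ, l' = ‖f b - f p‖ := ⟨_, rfl⟩
  rw [← hl'] at hl'pos hfO ⊢
  -- the rotations
  have hOn : ∀ v : E3, ‖act O v‖ = ‖v‖ := (hCHV (fun _ => 0) p l O hlpos hO).2.1
  have hOae := (hCHV (fun _ => 0) p l O hlpos hO).2.2.2.2
  have hO'n0 : ∀ v : E3, ‖act O' v‖ = ‖v‖ := (hCHV (fun _ => 0) p l O' hlpos hO').2.1
  have hO'1 : ∀ v : E3, act O' (act O'.transpose v) = v :=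
    (hCHV (fun _ => 0) p l O' hlpos hO').2.2.1
  have hO'2 : ∀ v : E3, act O'.transpose (act O' v) = v :=
    (hCHV (fun _ => 0) p l O' hlpos hO').2.2.2.1
  have hO'n : ∀ v : E3, ‖act O'.transpose v‖ = ‖v‖ := by
    intro v
    rw [← hO'n0 (act O'.transpose v), hO'1]
  have hxp : ∀ X : E3, p + l • act O X - p = l • act O X := fun X => by abel
  have hnx : ∀ X : E3, ‖p + l • act O X - p‖ = l * ‖X‖ := by
    intro X
    rw [hxp, norm_smul, Real.norm_eq_abs, abs_of_pos hlpos, hOn]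
  have hxb : ∀ X : E3, p + l • act O X - b = l • act O (X - e3) := by
    intro X
    have h1 : p + l • act O X - b = l • act O X - (b - p) := by abel
    rw [h1, hcvO, SFX_act_sub, smul_sub]
  have hnxb : ∀ X : E3, ‖p + l • act O X - b‖ = l * ‖X - e3‖ := by
    intro X
    rw [hxb, norm_smul, Real.norm_eq_abs, abs_of_pos hlpos, hOn]
  have hnF : ∀ X : E3, ‖nf f p l l' O O' X‖ = ‖f (p + l • act O X) - f p‖ / l' := by
    intro X
    unfold nf
    rw [norm_smul, norm_inv, Real.norm_eq_abs, abs_of_pos hl'pos, hO'n]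
    field_simp
  have hnFb : ∀ X : E3, ‖nf f p l l' O O' X - e3‖ = ‖f (p + l • act O X) - f b‖ / l' := by
    intro X
    have h1 : e3 = l'⁻¹ • act O'.transpose (f b - f p) := by
      rw [hfO, SFX_act_smul, hO'2, smul_smul, inv_mul_cancel₀ hl'pos.ne', one_smul]
    have h2 : nf f p l l' O O' X - e3 =
        l'⁻¹ • act O'.transpose (f (p + l • act O X) - f b) := by
      conv_lhs => rw [h1]
      unfold nf
      rw [← smul_sub, ← SFX_act_sub]
      congr 2
      abel
    rw [h2, norm_smul, norm_inv, Real.norm_eq_abs, abs_of_pos hl'pos, hO'n]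
    field_simp
  have hsubp : Metric.closedBall p (8 * r0) ⊆ Ω := by rw [hp]; exact hT.sub t ht2
  have hmem : ∀ X ∈ Metric.ball (0 : E3) 80, p + l • act O X ∈ Ω := by
    intro X hX
    rw [mem_ball_zero_iff] at hX
    apply hsubp
    rw [Metric.mem_closedBall, dist_eq_norm, hnx]
    nlinarith
  have he3 := SFX_norm_e3
  have hXe : ∀ X ∈ Metric.ball (0 : E3) 80, ‖X - e3‖ ≤ 81 := by
    intro X hX
    rw [mem_ball_zero_iff] at hX
    have := norm_sub_le X e3
    rw [he3] at this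
    linarith
  have hradax : ∀ X ∈ Metric.ball (0 : E3) 80,
      |rad (nf f p l l' O O' X) - rad X| ≤ τ1 ∧ |nf f p l l' O O' X 2 - X 2| ≤ τ1 := by
    intro X hX
    have hX' := hX
    rw [mem_ball_zero_iff] at hX'
    apply hRZ X _ hX'.le
    · have h1 := hN ε r0 Ω S f A γ hε0 hεa hT t ht b (by rw [← hp]; exact hbp)
        (by rw [← hp, hbpn]; exact hla) (p + l • act O X) (by
          rw [← hp, hnx, hbpn]
          nlinarith)
      rw [← hp, hnx, hbpn, ← hl', mul_div_cancel_left₀ _ hlpos.ne'] at h1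
      rw [hnF]
      exact h1
    · have h1 := hN ε r0 Ω S f A γ hε0 hεa hT (t + s) hts p (by rw [← hb]; exact hbp.symm)
        (by rw [← hb, hpbn]; exact hla) (p + l • act O X) (by
          rw [← hb, hnxb, hpbn]
          have := hXe X hX
          nlinarith)
      rw [← hb, hnxb, hpbn, norm_sub_rev (f p) (f b), ← hl',
        mul_div_cancel_left₀ _ hlpos.ne'] at h1
      rw [hnFb]
      exact h1
  have hsdf := hSDF Ω f A p b l l' ρ O O' hT.op hT.cont hT.wg hT.good hρ hρ1 hlpos hl'pos hO hO'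
    hcvO hfO
    (fun x hx => hsubp (Metric.closedBall_subset_closedBall (by linarith) hx))
    (fun x hx => hinjp x (Metric.closedBall_subset_closedBall (by linarith) hx))
    (fun x hx => hinjb x (by
      rw [Metric.mem_closedBall] at hx ⊢
      have h1 := dist_triangle x p b
      have h2 : dist p b = l := by rw [dist_eq_norm, hpbn]
      rw [h2] at h1
      linarith))
  have hr : 0 < κ * l := mul_pos hκpos hlpos
  have hr' : κ * l ≤ δ3 * r0 := by
    have h1 : κ * l ≤ 5 * (δ3 / 5 * r0) := mul_le_mul hκ5 hlb hlpos.le (by norm_num)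
    linarith
  have hrM : κ * l / M = ρ / 4 * l := by
    rw [mul_div_right_comm, hκdM]
  have hrM' : M * (κ * l) = 71 * l := by
    rw [← mul_assoc, hκM]
  have hSp := hS ε r0 Ω S f A γ hε0 hεb hT t ht (κ * l) hr hr'
  have hSb := hS ε r0 Ω S f A γ hε0 hεb hT (t + s) hts (κ * l) hr hr'
  rw [hrM, hrM', ← hp] at hSp
  rw [hrM, hrM', ← hb] at hSb
  obtain ⟨hint, hdl⟩ := hsdf hSp.1 hSb.1
  refine ⟨?_, ?_, ?_, fun X hX => (hradax X hX).1, fun X hX => (hradax X hX).2, ?_, hint, ?_⟩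
  · -- continuity
    have h1 : ContinuousOn (fun X : E3 => f (p + l • act O X)) (Metric.ball 0 80) := by
      apply hT.cont.comp (f := fun X : E3 => p + l • act O X)
      · have := SFX_act_cont O
        fun_prop
      · exact fun X hX => hmem X hX
    have h2 : ContinuousOn (fun X : E3 => act O'.transpose (f (p + l • act O X) - f p))
        (Metric.ball 0 80) :=
      (SFX_act_cont O'.transpose).comp_continuousOn (h1.sub continuousOn_const)
    exact h2.const_smul l'⁻¹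
  · -- weak gradient
    have h1 := hWGC Ω f A p (f p) l l'⁻¹ O O'.transpose hT.op hlpos hO hT.cont hT.wg
    have h2 := SFX_mono h1 (fun X hX => hmem X hX : Metric.ball (0 : E3) 80 ⊆ _)
    have h3 : (fun X : E3 => (l'⁻¹ * l) • (O'.transpose * A (p + l • act O X) * O)) =
        na A p l l' O O' := by
      funext X
      unfold na
      congr 1
      field_simp
    rw [h3] at h2
    exact h2
  · -- good
    have h1 : ∀ᵐ x : E3, x ∈ Ω → Good (A x) :=
      (ae_restrict_iff' hT.op.measurableSet).1 hT.good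
    have h2 := hOae (fun x => x ∈ Ω → Good (A x)) h1
    rw [ae_restrict_iff' Metric.isOpen_ball.measurableSet]
    filter_upwards [h2] with X hX hXb
    exact (hROT (A (p + l • act O X)) O O' (l / l') l l' (div_pos hlpos hl'pos) hlpos hl'pos rfl
      hO hO').1 (hX (hmem X hXb))
  · -- modulus
    intro X hX X' hX' hXX
    rw [mem_ball_zero_iff] at hX hX'
    have h1 := hE ε r0 Ω S f A γ hε0 hεc hT t ht l hlpos (by linarith) b
      (by rw [← hp, hbpn]) (p + l • act O X) (p + l • act O X')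
      (by rw [← hp, hnx]; nlinarith) (by rw [← hp, hnx]; nlinarith) (by
        have h2 : p + l • act O X - (p + l • act O X') = l • act O (X - X') := by
          rw [SFX_act_sub, smul_sub]; abel
        rw [h2, norm_smul, Real.norm_eq_abs, abs_of_pos hlpos, hOn]
        have h3 : ‖X - X'‖ ≤ δ := hXX.trans (min_le_left _ _)
        nlinarith)
    rw [← hp, ← hl'] at h1
    have h2 : nf f p l l' O O' X - nf f p l l' O O' X' =
        l'⁻¹ • act O'.transpose (f (p + l • act O X) - f (p + l • act O X')) := by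
      unfold nf
      rw [← smul_sub, ← SFX_act_sub]
      congr 2
      abel
    rw [h2, norm_smul, norm_inv, Real.norm_eq_abs, abs_of_pos hl'pos, hO'n,
      inv_mul_le_iff₀ hl'pos, mul_comm l' σ]
    exact h1
  · -- the defect
    refine hdl.trans ?_
    have h1 := hSp.2
    have h2 := hSb.2
    have h3 : (71 : ℝ) ^ 3 * (DR f A p (ρ / 4 * l) (71 * l) + DR f A b (ρ / 4 * l) (71 * l)) ≤
        71 ^ 3 * (η / (2 * 71 ^ 3) + η / (2 * 71 ^ 3)) :=
      mul_le_mul_of_nonneg_left (add_le_add h1 h2) (by norm_num)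
    refine h3.trans (le_of_eq ?_)
    field_simp
    ring

end Pool.Flat
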