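import Pool.Agent.Work.MP_680515_fl.Iface3

/-!
# MP_680515_an, THEOREM FB, block SHP: the sharp version of the bound of the defect
-/

open MeasureTheory Set Filter Topology

namespace Pool.Flat

open Pool.Mart

theorem SHP_sphere (p : E3) (r : ℝ) (hr : 0 ≤ r) : ∃ y : E3, ‖y - p‖ = r := by
  obtain ⟨y, hy⟩ := NormedSpace.sphere_nonempty (x := p) (r := r) |>.2 hr
  exact ⟨y, by rwa [mem_sphere_iff_norm] at hy⟩

theorem SHP_up (a b m τ : ℝ) (ha : 0 < a) (hb : 0 < b) (h : |Real.log (a / b) - m| ≤ τ) :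
    a ≤ Real.exp (m + τ) * b ∧ Real.exp (m - τ) * b ≤ a := by
  have h1 := abs_le.1 h
  have hab : 0 < a / b := div_pos ha hb
  constructor
  · have h2 : a / b ≤ Real.exp (m + τ) := by
      rw [← Real.log_le_iff_le_exp hab]
      linarith [h1.2]
    rwa [div_le_iff₀ hb] at h2
  · have h2 : Real.exp (m - τ) ≤ a / b := by
      rw [← Real.le_log_iff_exp_le hab]
      linarith [h1.1]
    rwa [le_div_iff₀ hb] at h2

theorem p_SHP (hE2 : Stmt_E2) (hWIN : Stmt_WIN) (hARM : Stmt_ARM) (hRNG : Stmt_RNG) : Stmt_SHP := by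
  intro H η hH hη
  obtain ⟨δE, hδE0, hδE1, hE⟩ := hE2 H 1 hH one_pos
  obtain ⟨C, δR, hC, hδR, hδR8, hR⟩ := hRNG H hH
  have hpi := Real.pi_pos
  set τ : ℝ := η / (3 * (32 * Real.pi / 3 + 2 * C)) with hτ
  have hτd : 0 < 32 * Real.pi / 3 + 2 * C := by positivity
  have hτ0 : 0 < τ := by positivity
  have hτe : (32 * Real.pi / 3 + 2 * C) * τ = η / 3 := by
    rw [hτ]
    field_simp
  set M : ℝ := max 2 (1 / δE) with hM
  have hM2 : 2 ≤ M := le_max_left _ _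
  have hM0 : 0 < M := by linarith
  have hMδ : 1 / M ≤ δE := by
    rw [div_le_iff₀ hM0, mul_comm]
    have h1 : 1 / δE ≤ M := le_max_right _ _
    rwa [div_le_iff₀ hδE0] at h1
  refine ⟨τ, M, hτ0, hM2, fun L hL => ?_⟩
  set w : ℝ := η / (16 * Real.pi) with hw
  have hw0 : 0 < w := by positivity
  have hwe : 16 * Real.pi / 3 * w = η / 3 := by
    rw [hw]
    field_simp
  set κ : ℝ := min (1 / 6) (η / (96 * Real.pi * L)) with hκ
  have hκ0 : 0 < κ := lt_min (by norm_num) (by positivity)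
  have hκ6 : κ ≤ 1 / 6 := min_le_left _ _
  have hκe : 32 * Real.pi * κ * L ≤ η / 3 := by
    have h1 : κ ≤ η / (96 * Real.pi * L) := min_le_right _ _
    rw [le_div_iff₀ (by positivity)] at h1
    nlinarith
  obtain ⟨δA, hδA, hA⟩ := hARM H κ w hH hκ0 (by linarith) hw0
  obtain ⟨ε1, hε1, hε1', hW⟩ := hWIN δA L hδA hL
  refine ⟨ε1, δR, hε1, hε1', hδR, hδR8, ?_⟩
  intro ε r0 Ω S f A γ hε0 hε T t ht hdeg r1 r2 m1 m2 hr1 hr12 hr2 hlog hRC1 hRC2
  have hε' : ε ≤ 1 / 1000 := hε.trans hε1'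
  have hr0 := T.rpos
  have ht2 : t ∈ Icc (-2 : ℝ) 2 := ⟨by linarith [ht.1], by linarith [ht.2]⟩
  have hr2p : 0 < r2 := hr1.trans hr12
  have hr28 : r2 ≤ r0 / 8 := by
    have := mul_le_mul_of_nonneg_right hδR8 hr0.le
    linarith
  have hr2r0 : r2 ≤ r0 := by linarith
  set p := γ t with hp
  set ℓ := Real.log (r2 / r1) with hℓ
  have hℓ0 : 0 < ℓ := Real.log_pos (by rw [lt_div_iff₀ hr1]; linarith)
  -- positivity of the distances of the images
  have hpos : ∀ x : E3, ‖x - p‖ ≤ 8 * r0 → 0 < ‖x - p‖ → 0 < ‖f x - f p‖ := by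
    intro x hx hx0
    rw [norm_pos_iff, sub_ne_zero]
    intro he
    have := T.inj t ht2 x (by rwa [mem_closedBall_iff_norm]) he
    rw [this, ← hp, sub_self, norm_zero] at hx0
    exact lt_irrefl _ hx0
  have hball : ∀ x : E3, ‖x - p‖ ≤ r0 → x ∈ Metric.closedBall (γ t) (2 * r0) := by
    intro x hx
    rw [mem_closedBall_iff_norm]
    change ‖x - p‖ ≤ 2 * r0
    linarith
  set t1 : ℝ := Real.exp (m1 + τ) * r1 with ht1
  set t2 : ℝ := Real.exp (m2 - τ) * r2 with ht2'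
  have ht1p : 0 < t1 := mul_pos (Real.exp_pos _) hr1
  have ht2p : 0 < t2 := mul_pos (Real.exp_pos _) hr2p
  have hdiv1 : ∀ r : ℝ, 0 < r → r / M ≤ r := fun r hr => by
    rw [div_le_iff₀ hM0]
    nlinarith
  -- inner ball
  have hin0 : ∀ x : E3, r1 / M ≤ ‖x - p‖ → ‖x - p‖ ≤ r1 → ‖f x - f p‖ ≤ t1 := by
    intro x hx1 hx2
    have hx0 : 0 < ‖x - p‖ := lt_of_lt_of_le (div_pos hr1 hM0) hx1
    have h1 := hRC1 x hx1 (by nlinarith)
    have h2 := (SHP_up _ _ _ _ (hpos x (by linarith) hx0) hx0 h1).1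
    exact h2.trans (mul_le_mul_of_nonneg_left hx2 (Real.exp_pos _).le)
  have hin : ∀ x ∈ Metric.closedBall p r0, ‖x - p‖ ≤ r1 → ‖f x - f p‖ ≤ t1 := by
    intro x _ hx
    rcases le_or_gt (r1 / M) ‖x - p‖ with h | h
    · exact hin0 x h hx
    · obtain ⟨y, hy⟩ := SHP_sphere p r1 hr1.le
      have h1 : ‖x - p‖ ≤ δE * ‖y - p‖ := by
        rw [hy]
        refine h.le.trans ?_
        rw [div_eq_inv_mul, ← one_div]
        exact mul_le_mul_of_nonneg_right hMδ hr1.le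
      have h2 := hE ε r0 Ω S f A γ hε0 hε' T t ht2 x (hball x (by linarith)) y
        (hball y (by linarith)) h1
      rw [one_mul] at h2
      exact h2.trans (hin0 y (by rw [hy]; exact hdiv1 r1 hr1) hy.le)
  -- outer region
  have hout0 : ∀ x : E3, ‖x - p‖ ≤ r0 → r2 ≤ ‖x - p‖ → ‖x - p‖ ≤ M * r2 → t2 ≤ ‖f x - f p‖ := by
    intro x hx hx1 hx2
    have hx0 : 0 < ‖x - p‖ := lt_of_lt_of_le hr2p hx1
    have h1 := hRC2 x ((hdiv1 r2 hr2p).trans hx1) hx2
    have h2 := (SHP_up _ _ _ _ (hpos x (by linarith) hx0) hx0 h1).2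
    exact le_trans (mul_le_mul_of_nonneg_left hx1 (Real.exp_pos _).le) h2
  have hout : ∀ x ∈ Metric.closedBall p r0, r2 ≤ ‖x - p‖ → t2 ≤ ‖f x - f p‖ := by
    intro x hx hx1
    rw [mem_closedBall_iff_norm] at hx
    rcases le_or_gt ‖x - p‖ (M * r2) with h | h
    · exact hout0 x hx hx1 h
    · obtain ⟨y, hy⟩ := SHP_sphere p r2 hr2p.le
      have h1 : ‖y - p‖ ≤ δE * ‖x - p‖ := by
        rw [hy]
        have h3 : r2 ≤ 1 / M * ‖x - p‖ := by
          rw [div_mul_eq_mul_div, one_mul, le_div_iff₀ hM0, mul_comm]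
          exact h.le
        exact h3.trans (mul_le_mul_of_nonneg_right hMδ (norm_nonneg _))
      have h2 := hE ε r0 Ω S f A γ hε0 hε' T t ht2 y (hball y (by linarith)) x
        (hball x hx) h1
      rw [one_mul] at h2
      exact (hout0 y (by linarith) hy.ge (by rw [hy]; nlinarith)).trans h2
  -- comparison of the constants
  have hlogt : Real.log (t2 / t1) = m2 - m1 - 2 * τ + ℓ := by
    rw [Real.log_div ht2p.ne' ht1p.ne', ht1, ht2', Real.log_mul (Real.exp_pos _).ne' hr1.ne',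
      Real.log_mul (Real.exp_pos _).ne' hr2p.ne', Real.log_exp, Real.log_exp, hℓ,
      Real.log_div hr2p.ne' hr1.ne']
    ring
  have hκL : κ * ℓ ≤ κ * L := mul_le_mul_of_nonneg_left hlog hκ0.le
  have hm : m2 - m1 ≤ 2 * τ + w + 6 * κ * L := by
    rcases lt_or_ge t1 t2 with h | h
    · obtain ⟨v, hv, hcone⟩ := hW H ε r0 Ω S f A γ hε0 hε T t ht r1 r2 hr1 hr12.le hr2r0 hlog
      have h1 := hA ε r0 Ω S f A γ hε0 hε' T t ht 2 hdeg v r1 r2 t1 t2 hv hr1 hr12 hr28 ht1p h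
        hin hout hcone
      rw [hlogt] at h1
      push_cast at h1
      have h2 : (1 - 3 * κ) * (m2 - m1 - 2 * τ + ℓ - w) ≤ ℓ := by linarith
      by_contra hcon
      push Not at hcon
      have h3 : 6 * κ * ℓ + ℓ < m2 - m1 - 2 * τ + ℓ - w := by nlinarith
      have h4 : (1 - 3 * κ) * (6 * κ * ℓ + ℓ) < (1 - 3 * κ) * (m2 - m1 - 2 * τ + ℓ - w) :=
        mul_lt_mul_of_pos_left h3 (by linarith)
      have h5 : ℓ ≤ (1 - 3 * κ) * (6 * κ * ℓ + ℓ) := by
        have h6 : 0 ≤ 3 * κ * ℓ * (1 - 6 * κ) :=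
          mul_nonneg (by positivity) (by linarith)
        nlinarith
      linarith
    · have h1 : Real.log (t2 / t1) ≤ 0 :=
        Real.log_nonpos (div_pos ht2p ht1p).le (by rw [div_le_one ht1p]; exact h)
      rw [hlogt] at h1
      have h2 : 0 < κ * L := mul_pos hκ0 hL
      nlinarith
  -- the ring inequality
  have hsub : ∀ (r m : ℝ), 0 < r → RC f p r M m τ → RC f p r 2 m τ := by
    intro r m hr h x hx1 hx2
    refine h x (le_trans ?_ hx1) (hx2.trans ?_)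
    · exact div_le_div_of_nonneg_left hr.le two_pos hM2
    · exact mul_le_mul_of_nonneg_right hM2 hr.le
  obtain ⟨-, -, h3⟩ := hR ε r0 Ω S f A γ hε0 hε' T t ht 2 hdeg r1 r2 m1 m2 τ hr1 hr12 hr2 hτ0.le
    (hsub r1 m1 hr1 hRC1) (hsub r2 m2 hr2p hRC2)
  refine h3.trans ?_
  push_cast
  have h4 : 8 * Real.pi * 2 / 3 * (m2 - m1) ≤ 8 * Real.pi * 2 / 3 * (2 * τ + w + 6 * κ * L) :=
    mul_le_mul_of_nonneg_left hm (by positivity)
  nlinarith

end Pool.Flat
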