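import Pool.Agent.Work.MP_680515_fl.Iface3

/-!
# MP_680515_an, THEOREM FB: block SML (small defect at all small scales)
-/

open MeasureTheory Set Filter Topology

namespace Pool.Flat

open Pool.Mart

theorem SML_dfc (hTHREE : Pool.Mart.Stmt_THREE) {A : M3} {X Y : E3} (hA : Good A) (hX : X ≠ 0)
    (hY : Y ≠ 0) : 0 ≤ dfc A X Y := by
  have hx : 0 < ‖X‖ := norm_pos_iff.2 hX
  have hy : 0 < ‖Y‖ := norm_pos_iff.2 hY
  refine (hTHREE A (‖X‖⁻¹ • X) (‖Y‖⁻¹ • Y) (‖Y‖ / ‖X‖) (dfc A X Y) hA (by positivity) ?_ ?_ ?_).1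
  · rw [norm_smul, norm_inv, norm_norm, inv_mul_cancel₀ hx.ne']
  · rw [norm_smul, norm_inv, norm_norm, inv_mul_cancel₀ hy.ne']
  · unfold dfc
    generalize cpair A (‖Y‖⁻¹ • Y) (‖X‖⁻¹ • X) = c
    have hx' := hx.ne'
    have hy' := hy.ne'
    field_simp

theorem SML_open (p : E3) (a b : ℝ) : IsOpen (rg p a b) := by
  have hc : Continuous fun x : E3 => ‖x - p‖ := (continuous_id.sub continuous_const).norm
  exact (isOpen_lt continuous_const hc).inter (isOpen_lt hc continuous_const)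

theorem SML_nonneg (hTHREE : Pool.Mart.Stmt_THREE) {H ε r0 : ℝ} {Ω S : Set E3} {f : E3 → E3}
    {A : E3 → M3} {γ : ℝ → E3} (hT : Tube H ε r0 Ω S f A γ) {t : ℝ} (ht : t ∈ Icc (-1 : ℝ) 1)
    {a b : ℝ} (ha : 0 < a) (hb : b ≤ 8 * r0) :
    ∀ᵐ x ∂(volume.restrict (rg (γ t) a b)), 0 ≤ dens f A (γ t) x := by
  have ht2 : t ∈ Icc (-2 : ℝ) 2 := ⟨by linarith [ht.1], by linarith [ht.2]⟩
  have hsub : rg (γ t) a b ⊆ Ω := by
    intro x hx
    apply hT.sub t ht2
    rw [Metric.mem_closedBall, dist_eq_norm]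
    linarith [hx.2]
  have h1 := ae_restrict_of_ae_restrict_of_subset hsub hT.good
  have h2 := ae_restrict_mem (μ := volume) (SML_open (γ t) a b).measurableSet
  filter_upwards [h1, h2] with x hx1 hx2
  have hX : 0 < ‖x - γ t‖ := lt_trans ha hx2.1
  have hX0 : x - γ t ≠ 0 := norm_pos_iff.1 hX
  have hY0 : f x - f (γ t) ≠ 0 := by
    intro h
    have h3 := hT.inj t ht2 x (by
      rw [Metric.mem_closedBall, dist_eq_norm]
      linarith [hx2.2]) (sub_eq_zero.1 h)
    rw [h3, sub_self] at hX0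
    exact hX0 rfl
  unfold dens
  exact div_nonneg (SML_dfc hTHREE hx1 hX0 hY0) (by positivity)

theorem SML_super {f : E3 → E3} {A : E3 → M3} {p : E3} {a b c : ℝ} (hab : a ≤ b) (hbc : b ≤ c)
    (hi : IntegrableOn (dens f A p) (rg p a c))
    (hn : ∀ᵐ x ∂(volume.restrict (rg p a c)), 0 ≤ dens f A p x) :
    DR f A p a b + DR f A p b c ≤ DR f A p a c := by
  have h1 : rg p a b ⊆ rg p a c := fun x hx => ⟨hx.1, lt_of_lt_of_le hx.2 hbc⟩
  have h2 : rg p b c ⊆ rg p a c := fun x hx => ⟨lt_of_le_of_lt hab hx.1, hx.2⟩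
  have hd : Disjoint (rg p a b) (rg p b c) := by
    rw [Set.disjoint_left]
    intro x hx hx'
    exact absurd (lt_trans hx.2 hx'.1) (lt_irrefl _)
  unfold DR
  rw [← setIntegral_union hd (SML_open p b c).measurableSet (hi.mono_set h1) (hi.mono_set h2)]
  exact setIntegral_mono_set hi hn (Set.union_subset h1 h2).eventuallyLE

theorem SML_mono {f : E3 → E3} {A : E3 → M3} {p : E3} {a b c d : ℝ} (hab : a ≤ b) (hcd : c ≤ d)
    (hi : IntegrableOn (dens f A p) (rg p a d))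
    (hn : ∀ᵐ x ∂(volume.restrict (rg p a d)), 0 ≤ dens f A p x) :
    DR f A p b c ≤ DR f A p a d := by
  have h1 : rg p b c ⊆ rg p a d := fun x hx =>
    ⟨lt_of_le_of_lt hab hx.1, lt_of_lt_of_le hx.2 hcd⟩
  unfold DR
  exact setIntegral_mono_set hi hn h1.eventuallyLE

theorem SML_pig (hTHREE : Pool.Mart.Stmt_THREE) {H ε r0 : ℝ} {Ω S : Set E3} {f : E3 → E3}
    {A : E3 → M3} {γ : ℝ → E3} (hT : Tube H ε r0 Ω S f A γ) {t : ℝ} (ht : t ∈ Icc (-1 : ℝ) 1)
    {M' τ η1 B L δa P : ℝ} {N : ℕ} (hM' : 2 ≤ M') (hP : P = (4 * M') * (4 * M'))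
    (hN : 1 ≤ N) (hNB : B ≤ N * η1)
    (hONE : ∀ r : ℝ, 0 < r → 128 * M' * r ≤ r0 →
      IntegrableOn (dens f A (γ t)) (rg (γ t) (r / (4 * M')) (4 * M' * r)) →
      DR f A (γ t) (r / (4 * M')) (4 * M' * r) ≤ η1 → ∃ m : ℝ, RC f (γ t) r M' m τ)
    (hCRU : ∀ r1 r2 : ℝ, 0 < r1 → r1 < r2 → r2 ≤ δa * r0 → Real.log (r2 / r1) ≤ L →
      IntegrableOn (dens f A (γ t)) (rg (γ t) r1 r2) ∧ DR f A (γ t) r1 r2 ≤ B)
    (hL : N * Real.log P ≤ L) {T : ℝ} (hT0 : 0 < T) (hTa : T ≤ δa * r0)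
    (hTr : 128 * M' * T ≤ r0) :
    ∃ ρ m, T / P ^ N < ρ ∧ ρ < T ∧ RC f (γ t) ρ M' m τ := by
  have hP1 : 64 ≤ P := by rw [hP]; nlinarith
  have hP0 : 0 < P := by linarith
  have hlog : 0 < Real.log P := Real.log_pos (by linarith)
  have hr0 := hT.rpos
  by_contra hcon
  push Not at hcon
  -- logarithms
  have hint : ∀ k n : ℕ, k < n → n ≤ N →
      IntegrableOn (dens f A (γ t)) (rg (γ t) (T / P ^ n) (T / P ^ k)) ∧
        DR f A (γ t) (T / P ^ n) (T / P ^ k) ≤ B := by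
    intro k n hkn hnN
    have hPk : 0 < P ^ k := by positivity
    have hPn : 0 < P ^ n := by positivity
    have hlt : P ^ k < P ^ n := pow_lt_pow_right₀ (by linarith) hkn
    have hk1 : 1 ≤ P ^ k := one_le_pow₀ (by linarith)
    refine hCRU _ _ (by positivity) (div_lt_div_of_pos_left hT0 hPk hlt)
      (le_trans (div_le_self hT0.le hk1) hTa) ?_
    have e1 : T / P ^ k / (T / P ^ n) = P ^ n / P ^ k := by
      field_simp
    have e2 : P ^ n / P ^ k ≤ P ^ n := div_le_self hPn.le hk1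
    rw [e1]
    refine le_trans (Real.log_le_log (by positivity) e2) ?_
    rw [Real.log_pow]
    refine le_trans (mul_le_mul_of_nonneg_right ?_ hlog.le) hL
    exact_mod_cast hnN
  have hnn : ∀ k n : ℕ, ∀ᵐ x ∂(volume.restrict (rg (γ t) (T / P ^ n) (T / P ^ k))),
      0 ≤ dens f A (γ t) x := by
    intro k n
    refine SML_nonneg hTHREE hT ht (by positivity) ?_
    have hk1 : 1 ≤ P ^ k := one_le_pow₀ (by linarith)
    have h1 := div_le_self hT0.le hk1
    have h2 : T ≤ 128 * M' * T := by nlinarith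
    linarith
  -- each window has a large defect
  have hwin : ∀ n : ℕ, n < N → η1 < DR f A (γ t) (T / P ^ (n + 1)) (T / P ^ n) := by
    intro n hn
    by_contra hle
    push Not at hle
    have hPn : 0 < P ^ n := by positivity
    have hM4 : 0 < 4 * M' := by linarith
    have e1 : T / (P ^ n * (4 * M')) / (4 * M') = T / P ^ (n + 1) := by
      rw [div_div, pow_succ, mul_assoc]
      congr 2
      exact hP.symm
    have e2 : 4 * M' * (T / (P ^ n * (4 * M'))) = T / P ^ n := by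
      field_simp
    have hn1 : 1 ≤ P ^ n := one_le_pow₀ (by linarith)
    have h1 : T / (P ^ n * (4 * M')) < T := by
      rw [div_lt_iff₀ (by positivity)]
      have : 1 < P ^ n * (4 * M') := by nlinarith
      nlinarith
    have h2 : T / P ^ N < T / (P ^ n * (4 * M')) := by
      apply div_lt_div_of_pos_left hT0 (by positivity)
      have h3 : P ^ (n + 1) ≤ P ^ N := pow_le_pow_right₀ (by linarith) hn
      have h4 : P ^ n * (4 * M') < P ^ (n + 1) := by
        rw [pow_succ]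
        apply mul_lt_mul_of_pos_left _ hPn
        rw [hP]
        nlinarith
      linarith
    obtain ⟨m, hm⟩ := hONE (T / (P ^ n * (4 * M'))) (by positivity) (by
      have : 128 * M' * (T / (P ^ n * (4 * M'))) ≤ 128 * M' * T :=
        mul_le_mul_of_nonneg_left h1.le (by positivity)
      linarith) (by
      rw [e1, e2]
      exact (hint n (n + 1) (Nat.lt_succ_self n) hn).1) (by
      rw [e1, e2]
      exact hle)
    exact hcon _ m h2 h1 hm
  have hsum : ∀ n : ℕ, n + 1 ≤ N →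
      ((n : ℝ) + 1) * η1 < DR f A (γ t) (T / P ^ (n + 1)) (T / P ^ 0) := by
    intro n
    induction n with
    | zero =>
      intro hn
      have := hwin 0 hn
      rw [Nat.cast_zero, zero_add, one_mul]
      exact this
    | succ n ih =>
      intro hn
      have h1 := ih (by omega)
      have h2 := hwin (n + 1) hn
      have hPn : 0 < P ^ (n + 1) := by positivity
      have h3 := SML_super (f := f) (A := A) (p := γ t) (a := T / P ^ (n + 1 + 1))
        (b := T / P ^ (n + 1)) (c := T / P ^ 0)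
        (div_le_div_of_nonneg_left hT0.le hPn (pow_le_pow_right₀ (by linarith) (by omega)))
        (div_le_div_of_nonneg_left hT0.le (by positivity)
          (pow_le_pow_right₀ (by linarith) (by omega)))
        (hint 0 (n + 1 + 1) (by omega) hn).1 (hnn 0 (n + 1 + 1))
      push_cast
      linarith
  obtain ⟨n, rfl⟩ := Nat.exists_eq_succ_of_ne_zero (by omega : N ≠ 0)
  have h1 := hsum n (le_refl _)
  have h2 := (hint 0 (n + 1) (by omega) (le_refl _)).2
  push_cast at hNB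
  linarith

theorem p_SML (hCRU : Stmt_CRU) (hSHP : Stmt_SHP) (hONE : Stmt_ONE) (hDEG : Stmt_DEG)
    (hTHREE : Pool.Mart.Stmt_THREE) : Stmt_SML := by
  intro H η M hH hη hM
  obtain ⟨B, L0, hB, hL0, hC⟩ := hCRU H hH
  obtain ⟨τ, M', hτ, hM', hS⟩ := hSHP H η hH hη
  obtain ⟨η1, hη1, hO⟩ := hONE H M' τ hH (by linarith) hτ
  obtain ⟨N, hN⟩ := exists_nat_ge (B / η1)
  obtain ⟨P, hP⟩ : ∃ P : ℝ, P = (4 * M') * (4 * M') := ⟨_, rfl⟩
  have hNB : B ≤ ((N + 1 : ℕ) : ℝ) * η1 := by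
    rw [div_le_iff₀ hη1] at hN
    push_cast
    nlinarith
  have hP1 : 64 ≤ P := by rw [hP]; nlinarith
  have hP0 : 0 < P := by linarith
  have hlog : 0 < Real.log P := Real.log_pos (by linarith)
  have hlogM : 0 ≤ Real.log M := Real.log_nonneg hM
  obtain ⟨L, hL⟩ : ∃ L : ℝ, L = max L0 (2 * (((N + 1 : ℕ) : ℝ) * Real.log P) +
    2 * Real.log M + 1) := ⟨_, rfl⟩
  have hLL0 : L0 ≤ L := by rw [hL]; exact le_max_left _ _
  have hL1 : 2 * (((N + 1 : ℕ) : ℝ) * Real.log P) + 2 * Real.log M + 1 ≤ L := by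
    rw [hL]; exact le_max_right _ _
  have hLpos : 0 < L := lt_of_lt_of_le hL0 hLL0
  have hNlog : 0 ≤ ((N + 1 : ℕ) : ℝ) * Real.log P := by positivity
  obtain ⟨εa, δa, hεa, hεa', hδa, hδa', hCa⟩ := hC L hLL0
  obtain ⟨εb, δb, hεb, hεb', hδb, hδb', hSb⟩ := hS L hLpos
  obtain ⟨D, hD⟩ : ∃ D : ℝ, D = M * P ^ (N + 1) := ⟨_, rfl⟩
  have hPN1 : 1 ≤ P ^ (N + 1) := one_le_pow₀ (by linarith)
  have hD1 : 1 ≤ D := by rw [hD]; nlinarith
  have hden : 1 ≤ 128 * M' * D := by nlinarith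
  have hden0 : 0 < 128 * M' * D := by linarith
  have hmin0 : 0 < min δa δb := lt_min hδa hδb
  refine ⟨min εa εb, min δa δb / (128 * M' * D), lt_min hεa hεb,
    le_trans (min_le_left _ _) hεa', by positivity,
    le_trans (div_le_self hmin0.le hden) (le_trans (min_le_left _ _) hδa'), ?_⟩
  intro ε r0 Ω S f A γ hε hε1 hT t ht r hr hrr
  have hr0 := hT.rpos
  have hεle : ε ≤ 1 / 1000 := le_trans hε1 (le_trans (min_le_left _ _) hεa')
  obtain ⟨c, hc⟩ := hDEG H ε r0 Ω S f A γ hT t ht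
  obtain ⟨hc2, hCR⟩ := hCa ε r0 Ω S f A γ hε (le_trans hε1 (min_le_left _ _)) hT t ht c hc
  rw [hc2] at hc
  have hSH := hSb ε r0 Ω S f A γ hε (le_trans hε1 (min_le_right _ _)) hT t ht hc
  have hON := hO ε r0 Ω S f A γ hε hεle hT t ht
  -- sizes
  have hup : 128 * M' * (D * r) ≤ min δa δb * r0 := by
    have h1 : 128 * M' * D * r ≤ 128 * M' * D * (min δa δb / (128 * M' * D) * r0) :=
      mul_le_mul_of_nonneg_left hrr hden0.le
    have h2 : 128 * M' * D * (min δa δb / (128 * M' * D) * r0) = min δa δb * r0 := by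
      field_simp
    linarith
  have hDr : 0 < D * r := by positivity
  have hmin1 : min δa δb ≤ 1 := by
    have := min_le_left δa δb
    linarith
  have hup1 : 128 * M' * (D * r) ≤ r0 := by nlinarith
  have hDr2 : D * r ≤ 128 * M' * (D * r) := by nlinarith
  have hupa : D * r ≤ δa * r0 := by
    have h1 : min δa δb * r0 ≤ δa * r0 := mul_le_mul_of_nonneg_right (min_le_left _ _) hr0.le
    linarith
  have hupb : D * r ≤ δb * r0 := by
    have h1 : min δa δb * r0 ≤ δb * r0 := mul_le_mul_of_nonneg_right (min_le_right _ _) hr0.le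
    linarith
  have hlow : r / M ≤ r := div_le_self hr.le hM
  have hrD : r ≤ D * r := by nlinarith
  have hM0 : 0 < M := by linarith
  have hLN : ((N + 1 : ℕ) : ℝ) * Real.log P ≤ L := by linarith
  obtain ⟨ρ, m, hρ1, hρ2, hRC⟩ := SML_pig hTHREE hT ht hM' hP (Nat.succ_le_succ (Nat.zero_le N))
    hNB hON hCR hLN (T := r / M) (by positivity) (by linarith) (by
      have : 128 * M' * (r / M) ≤ 128 * M' * (D * r) :=
        mul_le_mul_of_nonneg_left (by linarith) (by positivity)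
      linarith)
  obtain ⟨ρ', m', hρ1', hρ2', hRC'⟩ := SML_pig hTHREE hT ht hM' hP
    (Nat.succ_le_succ (Nat.zero_le N)) hNB hON hCR hLN (T := D * r) hDr hupa hup1
  have hPN0 : 0 < P ^ (N + 1) := by positivity
  have e1 : D * r / P ^ (N + 1) = M * r := by
    rw [hD]
    field_simp
  rw [e1] at hρ1'
  have hρ0 : 0 < ρ := lt_trans (by positivity) hρ1
  have hMr : r ≤ M * r := by nlinarith
  have hlt : ρ < ρ' := by linarith
  have hlogr : Real.log (ρ' / ρ) ≤ L := by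
    have h1 : ρ' / ρ ≤ D * r / (r / M / P ^ (N + 1)) :=
      div_le_div₀ hDr.le hρ2'.le (by positivity) hρ1.le
    have h2 : D * r / (r / M / P ^ (N + 1)) = M ^ 2 * (P ^ (N + 1)) ^ 2 := by
      rw [hD]
      field_simp
    rw [h2] at h1
    refine le_trans (Real.log_le_log (div_pos (lt_trans hρ0 hlt) hρ0) h1) ?_
    rw [Real.log_mul (by positivity) (by positivity), Real.log_pow, Real.log_pow, Real.log_pow]
    push_cast at hL1 ⊢
    linarith
  have hDR := hSH ρ ρ' m m' hρ0 hlt (by linarith) hlogr hRC hRC'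
  obtain ⟨hI, -⟩ := hCR ρ ρ' hρ0 hlt (by linarith) hlogr
  have hnn := SML_nonneg hTHREE hT ht (b := ρ') hρ0 (by linarith)
  have hsub : rg (γ t) (r / M) (M * r) ⊆ rg (γ t) ρ ρ' := fun x hx =>
    ⟨lt_trans hρ2 hx.1, lt_trans hx.2 hρ1'⟩
  exact ⟨hI.mono_set hsub, le_trans (SML_mono hρ2.le hρ1'.le hI hnn) hDR⟩

end Pool.Flat
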