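import Pool.Agent.Work.MP_680515_fl.Iface2

/-!
# MP_680515_fl, block SPH: integration in spherical coordinates
-/

open MeasureTheory Set Filter Topology

namespace Pool.Flat

open Pool.Mart

theorem SPH_image : Real.sin '' Ioo (-(Real.pi / 2)) (Real.pi / 2) = Ioo (-1) 1 := by
  ext u
  constructor
  · rintro ⟨φ, hφ, rfl⟩
    constructor
    · have h := Real.sin_lt_sin_of_lt_of_le_pi_div_two (le_refl (-(Real.pi / 2))) hφ.2.le hφ.1
      rwa [Real.sin_neg, Real.sin_pi_div_two] at h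
    · have h := Real.sin_lt_sin_of_lt_of_le_pi_div_two hφ.1.le le_rfl hφ.2
      rwa [Real.sin_pi_div_two] at h
  · intro hu
    exact ⟨Real.arcsin u, ⟨Real.neg_pi_div_two_lt_arcsin.2 hu.1,
      Real.arcsin_lt_pi_div_two.2 hu.2⟩, Real.sin_arcsin hu.1.le hu.2.le⟩

theorem SPH_sub (F : ℝ → ENNReal) : ∫⁻ u in Ioo (-1 : ℝ) 1, F u =
    ∫⁻ φ in Ioo (-(Real.pi / 2)) (Real.pi / 2), ENNReal.ofReal (Real.cos φ) * F (Real.sin φ) := by
  rw [← SPH_image, lintegral_image_eq_lintegral_abs_deriv_mul measurableSet_Ioo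
    (fun x _ => (Real.hasDerivAt_sin x).hasDerivWithinAt)
    (Real.injOn_sin.mono Ioo_subset_Icc_self)]
  refine setLIntegral_congr_fun measurableSet_Ioo fun φ hφ => ?_
  show ENNReal.ofReal |Real.cos φ| * F (Real.sin φ) = _
  rw [abs_of_nonneg (Real.cos_nonneg_of_mem_Icc ⟨hφ.1.le, hφ.2.le⟩)]

theorem SPH_cos {φ : ℝ} (h : φ ∈ Ioo (-Real.pi) Real.pi)
    (h' : φ ∉ Ioo (-(Real.pi / 2)) (Real.pi / 2)) : Real.cos φ ≤ 0 := by
  have hp := Real.pi_pos
  by_cases h1 : φ ≤ -(Real.pi / 2)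
  · rw [← Real.cos_neg]
    exact Real.cos_nonpos_of_pi_div_two_le_of_le (by linarith) (by linarith [h.1])
  · push Not at h1
    have h2 : Real.pi / 2 ≤ φ := by
      by_contra hcon
      push Not at hcon
      exact h' ⟨h1, hcon⟩
    exact Real.cos_nonpos_of_pi_div_two_le_of_le h2 (by linarith [h.2])

theorem SPH_polar (H : ℂ → ENNReal) (hH : Measurable H) (h0 : ∀ ζ : ℂ, ζ.re ≤ 0 → H ζ = 0) :
    ∫⁻ ζ, H ζ = ∫⁻ t in Ioi (0 : ℝ), ∫⁻ φ in Ioo (-(Real.pi / 2)) (Real.pi / 2),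
      ENNReal.ofReal t * H ((t : ℂ) * ((Real.cos φ : ℂ) + (Real.sin φ : ℂ) * Complex.I)) := by
  have hcont : Continuous fun p : ℝ × ℝ =>
      ((p.1 : ℂ) * ((Real.cos p.2 : ℂ) + (Real.sin p.2 : ℂ) * Complex.I)) :=
    (Complex.continuous_ofReal.comp continuous_fst).mul
      ((Complex.continuous_ofReal.comp (Real.continuous_cos.comp continuous_snd)).add
        ((Complex.continuous_ofReal.comp (Real.continuous_sin.comp continuous_snd)).mul
          continuous_const))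
  have hm : Measurable fun p : ℝ × ℝ => ENNReal.ofReal p.1 •
      H ((p.1 : ℂ) * ((Real.cos p.2 : ℂ) + (Real.sin p.2 : ℂ) * Complex.I)) :=
    (measurable_fst.ennreal_ofReal).mul (hH.comp hcont.measurable)
  rw [← Complex.lintegral_comp_polarCoord_symm]
  simp only [Complex.polarCoord_symm_apply]
  rw [polarCoord_target, Measure.volume_eq_prod, ← Measure.prod_restrict,
    lintegral_prod _ hm.aemeasurable]
  refine setLIntegral_congr_fun measurableSet_Ioi fun t ht => ?_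
  have hsub : Ioo (-(Real.pi / 2)) (Real.pi / 2) ⊆ Ioo (-Real.pi) Real.pi :=
    Ioo_subset_Ioo (by linarith [Real.pi_pos]) (by linarith [Real.pi_pos])
  have h1 : ∫⁻ φ in Ioo (-Real.pi) Real.pi, ENNReal.ofReal t *
        H ((t : ℂ) * ((Real.cos φ : ℂ) + (Real.sin φ : ℂ) * Complex.I)) =
      ∫⁻ φ in Ioo (-Real.pi) Real.pi, (Ioo (-(Real.pi / 2)) (Real.pi / 2)).indicator
        (fun φ => ENNReal.ofReal t *
          H ((t : ℂ) * ((Real.cos φ : ℂ) + (Real.sin φ : ℂ) * Complex.I))) φ := by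
    refine setLIntegral_congr_fun measurableSet_Ioo fun φ hφ => ?_
    by_cases h : φ ∈ Ioo (-(Real.pi / 2)) (Real.pi / 2)
    · rw [indicator_of_mem h]
    · rw [indicator_of_notMem h]
      have h2 : ((t : ℂ) * ((Real.cos φ : ℂ) + (Real.sin φ : ℂ) * Complex.I)).re ≤ 0 := by
        have h3 : ((t : ℂ) * ((Real.cos φ : ℂ) + (Real.sin φ : ℂ) * Complex.I)).re =
            t * Real.cos φ := by
          rw [Complex.re_ofReal_mul, Complex.add_re, Complex.ofReal_re, Complex.re_ofReal_mul,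
            Complex.I_re, mul_zero, add_zero]
        rw [h3]
        exact mul_nonpos_of_nonneg_of_nonpos (le_of_lt ht) (SPH_cos hφ h)
      show ENNReal.ofReal t * _ = 0
      rw [h0 _ h2, mul_zero]
  show ∫⁻ φ in Ioo (-Real.pi) Real.pi, ENNReal.ofReal t *
        H ((t : ℂ) * ((Real.cos φ : ℂ) + (Real.sin φ : ℂ) * Complex.I)) = _
  rw [h1, setLIntegral_indicator measurableSet_Ioo, inter_eq_self_of_subset_left hsub]

theorem p_SPH (hC : Stmt_CYLM) : Stmt_SPH := by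
  intro g hg
  obtain ⟨hcyl, hmap⟩ := hC
  have hm : Measurable (fun p : ℂ × ℝ => g (cyl p.1 p.2)) := hg.comp hcyl.measurable
  have hΨ : Measurable (fun ζ : ℂ => ∫⁻ θ in Ioo (0 : ℝ) (2 * Real.pi), g (cyl ζ θ)) :=
    hm.lintegral_prod_right'
  have hre : Measurable (fun ζ : ℂ => ENNReal.ofReal ζ.re) :=
    Complex.measurable_re.ennreal_ofReal
  have hS : MeasurableSet {ζ : ℂ | 0 < ζ.re} :=
    measurableSet_lt measurable_const Complex.measurable_re
  have h1 : ∫⁻ y, g y = ∫⁻ ζ, {ζ : ℂ | 0 < ζ.re}.indicator (fun ζ => ENNReal.ofReal ζ.re *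
      ∫⁻ θ in Ioo (0 : ℝ) (2 * Real.pi), g (cyl ζ θ)) ζ := by
    rw [lintegral_indicator hS]
    conv_lhs => rw [← hmap]
    rw [lintegral_map hg hcyl.measurable, lintegral_prod _ hm.aemeasurable,
      lintegral_withDensity_eq_lintegral_mul _ hre hΨ]
    rfl
  have hH : Measurable ({ζ : ℂ | 0 < ζ.re}.indicator (fun ζ => ENNReal.ofReal ζ.re *
      ∫⁻ θ in Ioo (0 : ℝ) (2 * Real.pi), g (cyl ζ θ))) := (hre.mul hΨ).indicator hS
  have hzero : ∀ ζ : ℂ, ζ.re ≤ 0 → {ζ : ℂ | 0 < ζ.re}.indicator (fun ζ =>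
      ENNReal.ofReal ζ.re * ∫⁻ θ in Ioo (0 : ℝ) (2 * Real.pi), g (cyl ζ θ)) ζ = 0 := by
    intro ζ hζ
    have h : ζ ∉ {ζ : ℂ | 0 < ζ.re} := fun h => absurd (show 0 < ζ.re from h) (not_lt.mpr hζ)
    rw [indicator_of_notMem h]
  rw [h1, SPH_polar _ hH hzero]
  refine setLIntegral_congr_fun measurableSet_Ioi fun t ht => ?_
  have ht' : (0 : ℝ) < t := ht
  show _ = ∫⁻ u in Ioo (-1 : ℝ) 1, ∫⁻ θ in Ioo (0 : ℝ) (2 * Real.pi),
      ENNReal.ofReal (t ^ 2) * g (sph t u θ)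
  rw [SPH_sub]
  refine setLIntegral_congr_fun measurableSet_Ioo fun φ hφ => ?_
  have hcos : 0 < Real.cos φ := Real.cos_pos_of_mem_Ioo hφ
  have hsq : Real.sqrt (1 - Real.sin φ ^ 2) = Real.cos φ := by
    rw [← Real.cos_sq', Real.sqrt_sq hcos.le]
  have hz : ((t : ℂ) * ((Real.cos φ : ℂ) + (Real.sin φ : ℂ) * Complex.I)).re =
      t * Real.cos φ := by
    rw [Complex.re_ofReal_mul, Complex.add_re, Complex.ofReal_re, Complex.re_ofReal_mul,
      Complex.I_re, mul_zero, add_zero]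
  have hz' : ((t : ℂ) * ((Real.cos φ : ℂ) + (Real.sin φ : ℂ) * Complex.I)).im =
      t * Real.sin φ := by
    rw [Complex.im_ofReal_mul, Complex.add_im, Complex.ofReal_im, Complex.im_ofReal_mul,
      Complex.I_im, mul_one, zero_add]
  have hmem : ((t : ℂ) * ((Real.cos φ : ℂ) + (Real.sin φ : ℂ) * Complex.I)) ∈
      {ζ : ℂ | 0 < ζ.re} := by
    rw [mem_setOf_eq, hz]
    exact mul_pos ht' hcos
  have hcs : ∀ θ, cyl ((t : ℂ) * ((Real.cos φ : ℂ) + (Real.sin φ : ℂ) * Complex.I)) θ =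
      sph t (Real.sin φ) θ := by
    intro θ
    unfold cyl sph
    rw [hz, hz', hsq]
  show ENNReal.ofReal t * _ = ENNReal.ofReal (Real.cos φ) * _
  rw [indicator_of_mem hmem, hz]
  simp only [hcs]
  rw [lintegral_const_mul' _ _ ENNReal.ofReal_ne_top, ← mul_assoc, ← mul_assoc,
    ← ENNReal.ofReal_mul ht'.le, ← ENNReal.ofReal_mul hcos.le]
  congr 2
  ring

end Pool.Flat
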