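import Pool.Agent.Work.MP_680515_fl.Iface4

/-!
# MP_680515_an, THEOREM FC: block SQR (continuous square root on a ball)
-/

open MeasureTheory Set Filter Topology

namespace Pool.Flat

open Pool.Mart

theorem SQR_mem {c y : E3} {s t : ℝ} (ht0 : 0 ≤ t) (ht1 : t ≤ 1) (hs : 0 ≤ s)
    (hy : y ∈ Metric.closedBall c s) : c + t • (y - c) ∈ Metric.closedBall c s := by
  rw [Metric.mem_closedBall, dist_eq_norm] at hy ⊢
  rw [add_sub_cancel_left, norm_smul, Real.norm_eq_abs, abs_of_nonneg ht0]
  calc t * ‖y - c‖ ≤ 1 * ‖y - c‖ := mul_le_mul_of_nonneg_right ht1 (norm_nonneg _)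
    _ ≤ s := by rw [one_mul]; exact hy

/-- block SQR -/
theorem p_SQR : Stmt_SQR := by
  intro g c s hs hg hg0
  have hK : IsCompact (Metric.closedBall c s) := isCompact_closedBall c s
  have hc : c ∈ Metric.closedBall c s := Metric.mem_closedBall_self hs
  obtain ⟨y0, hy0, hmin⟩ := hK.exists_isMinOn ⟨c, hc⟩ hg.norm
  set m : ℝ := ‖g y0‖ with hm
  have hm0 : 0 < m := norm_pos_iff.2 (hg0 y0 hy0)
  have hmle : ∀ y ∈ Metric.closedBall c s, m ≤ ‖g y‖ := fun y hy => hmin hy
  obtain ⟨δ, hδ, hδg⟩ := Metric.uniformContinuousOn_iff.1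
    (hK.uniformContinuousOn_of_continuous hg) (m / 2) (by positivity)
  obtain ⟨N, hN⟩ := exists_nat_gt (s / δ)
  have hN0 : 0 < (N : ℝ) := lt_of_le_of_lt (by positivity) hN
  have hsN : s / N < δ := by
    rw [div_lt_iff₀ hN0]
    rw [div_lt_iff₀ hδ] at hN
    linarith
  set P : ℕ → E3 → E3 := fun k y => c + ((k : ℝ) / N) • (y - c) with hP
  have hPm : ∀ k ≤ N, ∀ y ∈ Metric.closedBall c s, P k y ∈ Metric.closedBall c s := by
    intro k hk y hy
    refine SQR_mem (by positivity) ?_ hs hy
    rw [div_le_one hN0]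
    exact_mod_cast hk
  have hPc : ∀ k ≤ N, ContinuousOn (fun y => g (P k y)) (Metric.closedBall c s) := by
    intro k hk
    refine hg.comp (Continuous.continuousOn (by fun_prop)) fun y hy => hPm k hk y hy
  have hP0 : ∀ y, P 0 y = c := by
    intro y
    simp [hP]
  have hPN : ∀ y, P N y = y := by
    intro y
    simp only [hP]
    rw [div_self hN0.ne', one_smul]
    abel
  have hre : ∀ k < N, ∀ y ∈ Metric.closedBall c s,
      g (P (k + 1) y) / g (P k y) ∈ Complex.slitPlane := by
    intro k hk y hy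
    have h1 : P k y ∈ Metric.closedBall c s := hPm k hk.le y hy
    have h2 : P (k + 1) y ∈ Metric.closedBall c s := hPm (k + 1) hk y hy
    have h3 : dist (P (k + 1) y) (P k y) < δ := by
      have h4 : P (k + 1) y - P k y = (1 / (N : ℝ)) • (y - c) := by
        simp only [hP]
        rw [add_sub_add_left_eq_sub, ← sub_smul]
        congr 1
        push_cast
        ring
      rw [dist_eq_norm, h4, norm_smul, Real.norm_eq_abs, abs_of_nonneg (by positivity)]
      rw [Metric.mem_closedBall, dist_eq_norm] at hy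
      calc 1 / (N : ℝ) * ‖y - c‖ ≤ 1 / (N : ℝ) * s :=
            mul_le_mul_of_nonneg_left hy (by positivity)
        _ = s / N := by ring
        _ < δ := hsN
    have h5 := hδg _ h2 _ h1 h3
    rw [dist_eq_norm] at h5
    have h6 := hmle _ h1
    have hne : g (P k y) ≠ 0 := hg0 _ h1
    have h7 : ‖g (P (k + 1) y) / g (P k y) - 1‖ < 1 := by
      have e : g (P (k + 1) y) / g (P k y) - 1 = (g (P (k + 1) y) - g (P k y)) / g (P k y) := by
        field_simp
      rw [e, norm_div, div_lt_one (norm_pos_iff.2 hne)]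
      linarith
    left
    have h8 := Complex.abs_re_le_norm (g (P (k + 1) y) / g (P k y) - 1)
    rw [Complex.sub_re, Complex.one_re] at h8
    have h9 := abs_lt.1 (lt_of_le_of_lt h8 h7)
    linarith [h9.1]
  obtain ⟨w, hw⟩ := IsAlgClosed.exists_pow_nat_eq (g c) (n := 2) (by norm_num)
  refine ⟨fun y => w * ∏ k ∈ Finset.range N, (g (P (k + 1) y) / g (P k y)) ^ (1 / 2 : ℂ), ?_, ?_⟩
  · refine continuousOn_const.mul (continuousOn_finsetProd _ fun k hk => ?_)
    have hk' : k < N := Finset.mem_range.1 hk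
    refine ContinuousOn.cpow_const ?_ (hre k hk')
    exact (hPc (k + 1) hk').div (hPc k hk'.le) fun y hy => hg0 _ (hPm k hk'.le y hy)
  · intro y hy
    have hsq : ∀ z : ℂ, (z ^ (1 / 2 : ℂ)) ^ 2 = z := by
      intro z
      have := Complex.cpow_nat_inv_pow z (n := 2) (by norm_num)
      simpa using this
    rw [mul_pow, hw, ← Finset.prod_pow]
    simp only [hsq]
    have hprod : ∀ n ≤ N, g c * ∏ k ∈ Finset.range n, (g (P (k + 1) y) / g (P k y)) =
        g (P n y) := by
      intro n
      induction n with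
      | zero => intro _; simp [hP0]
      | succ n ih =>
        intro hn
        rw [Finset.prod_range_succ, ← mul_assoc, ih (by omega), mul_div_assoc']
        rw [mul_div_cancel_left₀ _ (hg0 _ (hPm n (by omega) y hy))]
    rw [hprod N le_rfl, hPN]

end Pool.Flat
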