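import Pool.Agent.Work.MP_680515_fl.Iface2

open MeasureTheory Set Filter Topology

namespace Pool.Flat

open Pool.Mart

/-- The cut-off. -/
noncomputable def SRC_chi (δ u : ℝ) : ℝ := max 0 (min 1 ((1 - δ - |u|) / δ))

/-- The truncated density. -/
noncomputable def SRC_g (δ u : ℝ) : ℝ :=
  SRC_chi δ u * (max (1 - u ^ 2) (1 - (1 - δ) ^ 2)) ^ (-(3 / 4) : ℝ)

/-- The primitive. -/
noncomputable def SRC_G (δ u : ℝ) : ℝ := ∫ s in (0 : ℝ)..u, SRC_g δ s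

theorem SRC_cpos {δ : ℝ} (h0 : 0 < δ) (h1 : δ < 1) : 0 < 1 - (1 - δ) ^ 2 := by nlinarith

theorem SRC_g_cont {δ : ℝ} (h0 : 0 < δ) (h1 : δ < 1) : Continuous (SRC_g δ) := by
  unfold SRC_g SRC_chi
  refine Continuous.mul (by fun_prop) ?_
  refine Continuous.rpow_const (by fun_prop) fun u => Or.inl ?_
  exact (lt_of_lt_of_le (SRC_cpos h0 h1) (le_max_right _ _)).ne'

theorem SRC_g_zero {δ u : ℝ} (h0 : 0 < δ) (hu : 1 - δ ≤ |u|) : SRC_g δ u = 0 := by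
  have h : SRC_chi δ u = 0 := by
    unfold SRC_chi
    apply max_eq_left
    refine (min_le_right _ _).trans ?_
    exact div_nonpos_of_nonpos_of_nonneg (by linarith) h0.le
  rw [SRC_g, h, zero_mul]

theorem SRC_g_nonneg {δ : ℝ} (h0 : 0 < δ) (h1 : δ < 1) (u : ℝ) : 0 ≤ SRC_g δ u := by
  refine mul_nonneg (le_max_left _ _) (Real.rpow_nonneg ?_ _)
  exact (lt_of_lt_of_le (SRC_cpos h0 h1) (le_max_right _ _)).le

theorem SRC_max {δ u : ℝ} (hu : |u| ≤ 1 - δ) :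
    max (1 - u ^ 2) (1 - (1 - δ) ^ 2) = 1 - u ^ 2 := by
  apply max_eq_left
  have : u ^ 2 ≤ (1 - δ) ^ 2 :=
    sq_le_sq' (by linarith [neg_abs_le u]) (by linarith [le_abs_self u])
  linarith

theorem SRC_pos {u : ℝ} (hu : |u| < 1) : 0 < 1 - u ^ 2 := by
  have := (sq_lt_one_iff_abs_lt_one u).2 hu
  linarith

theorem SRC_g_le {δ u : ℝ} (h0 : 0 < δ) (hu : |u| < 1) :
    SRC_g δ u ≤ (1 - u ^ 2) ^ (-(3 / 4) : ℝ) := by
  have hp := SRC_pos hu
  by_cases h : |u| ≤ 1 - δ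
  · rw [SRC_g, SRC_max h]
    have : SRC_chi δ u ≤ 1 := max_le zero_le_one (min_le_left _ _)
    calc SRC_chi δ u * (1 - u ^ 2) ^ (-(3 / 4) : ℝ) ≤ 1 * (1 - u ^ 2) ^ (-(3 / 4) : ℝ) :=
          mul_le_mul_of_nonneg_right this (Real.rpow_nonneg hp.le _)
      _ = _ := one_mul _
  · rw [SRC_g_zero h0 (by linarith)]
    exact Real.rpow_nonneg hp.le _

theorem SRC_g_eq {δ u : ℝ} (h0 : 0 < δ) (hu : |u| ≤ 1 - 2 * δ) :
    SRC_g δ u = (1 - u ^ 2) ^ (-(3 / 4) : ℝ) := by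
  have h : SRC_chi δ u = 1 := by
    unfold SRC_chi
    have : 1 ≤ (1 - δ - |u|) / δ := by
      rw [le_div_iff₀ h0]
      linarith
    rw [min_eq_left this, max_eq_right zero_le_one]
  rw [SRC_g, h, one_mul, SRC_max (by linarith)]

theorem SRC_g_even (δ u : ℝ) : SRC_g δ (-u) = SRC_g δ u := by
  simp [SRC_g, SRC_chi]

theorem SRC_G_deriv {δ : ℝ} (h0 : 0 < δ) (h1 : δ < 1) (u : ℝ) :
    HasDerivAt (SRC_G δ) (SRC_g δ u) u :=
  intervalIntegral.integral_hasDerivAt_right ((SRC_g_cont h0 h1).intervalIntegrable _ _)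
    ((SRC_g_cont h0 h1).stronglyMeasurableAtFilter _ _) (SRC_g_cont h0 h1).continuousAt

theorem SRC_G_cd {δ : ℝ} (h0 : 0 < δ) (h1 : δ < 1) : ContDiff ℝ 1 (SRC_G δ) := by
  rw [contDiff_one_iff_deriv]
  refine ⟨fun u => (SRC_G_deriv h0 h1 u).differentiableAt, ?_⟩
  have : deriv (SRC_G δ) = SRC_g δ := funext fun u => (SRC_G_deriv h0 h1 u).deriv
  rw [this]
  exact SRC_g_cont h0 h1

theorem SRC_G_top {δ u : ℝ} (h0 : 0 < δ) (h1 : δ < 1) (hu : 1 - δ ≤ u) :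
    SRC_G δ u = SRC_G δ 1 := by
  have hi := fun a b : ℝ => (SRC_g_cont h0 h1).intervalIntegrable (μ := volume) a b
  have h : SRC_G δ u - SRC_G δ 1 = ∫ s in (1 : ℝ)..u, SRC_g δ s :=
    intervalIntegral.integral_interval_sub_left (hi 0 u) (hi 0 1)
  have h2 : ∫ s in (1 : ℝ)..u, SRC_g δ s = ∫ s in (1 : ℝ)..u, (0 : ℝ) := by
    apply intervalIntegral.integral_congr
    intro s hs
    have h3 : 1 - δ ≤ s := by
      rcases le_total 1 u with hh | hh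
      · rw [uIcc_of_le hh] at hs
        linarith [hs.1]
      · rw [uIcc_of_ge hh] at hs
        linarith [hs.1]
    exact SRC_g_zero h0 (h3.trans (le_abs_self s))
  rw [h2, intervalIntegral.integral_zero] at h
  linarith

theorem SRC_G_odd (δ u : ℝ) : SRC_G δ (-u) = - SRC_G δ u := by
  have h : (∫ s in (0 : ℝ)..(-u), SRC_g δ (-s)) = ∫ s in (- -u)..(-0), SRC_g δ s :=
    intervalIntegral.integral_comp_neg _
  have h2 : (∫ s in (0 : ℝ)..(-u), SRC_g δ (-s)) = SRC_G δ (-u) := by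
    unfold SRC_G
    congr 1
    funext s
    exact SRC_g_even δ s
  rw [← h2, h, neg_neg, neg_zero, intervalIntegral.integral_symm]
  rfl

theorem SRC_G_mono {δ : ℝ} (h0 : 0 < δ) (h1 : δ < 1) : Monotone (SRC_G δ) := by
  apply monotone_of_deriv_nonneg
  · exact fun u => (SRC_G_deriv h0 h1 u).differentiableAt
  · intro u
    rw [(SRC_G_deriv h0 h1 u).deriv]
    exact SRC_g_nonneg h0 h1 u

theorem SRC_G_le {δ : ℝ} (h0 : 0 < δ) (h1 : δ < 1) (u : ℝ) : SRC_G δ u ≤ SRC_G δ 1 := by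
  have h : SRC_G δ (max u 1) = SRC_G δ 1 :=
    SRC_G_top h0 h1 (by linarith [le_max_right u 1])
  rw [← h]
  exact SRC_G_mono h0 h1 (le_max_left _ _)

theorem SRC_two {δ : ℝ} (h0 : 0 < δ) (h1 : δ < 1) :
    ∫ u in Ioo (-1 : ℝ) 1, SRC_g δ u = 2 * SRC_G δ 1 := by
  have hi := fun a b : ℝ => (SRC_g_cont h0 h1).intervalIntegrable (μ := volume) a b
  rw [← integral_Ioc_eq_integral_Ioo, ← intervalIntegral.integral_of_le (by norm_num),
    ← intervalIntegral.integral_add_adjacent_intervals (hi (-1) 0) (hi 0 1),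
    intervalIntegral.integral_symm]
  have h := SRC_G_odd δ 1
  unfold SRC_G at h ⊢
  linarith

theorem SRC_lim (hI : IntegrableOn (fun u : ℝ => (1 - u ^ 2) ^ (-(3 / 4) : ℝ)) (Ioo (-1) 1)) :
    Tendsto (fun n : ℕ => ∫ u in Ioo (-1 : ℝ) 1, SRC_g (1 / ((n : ℝ) + 2)) u) atTop
      (𝓝 (∫ u in Ioo (-1 : ℝ) 1, (1 - u ^ 2) ^ (-(3 / 4) : ℝ))) := by
  have hp : ∀ n : ℕ, 0 < 1 / ((n : ℝ) + 2) := fun n => by positivity
  have hl : ∀ n : ℕ, 1 / ((n : ℝ) + 2) < 1 := fun n => by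
    rw [div_lt_one (by positivity)]
    have : (0 : ℝ) ≤ n := Nat.cast_nonneg n
    linarith
  apply tendsto_integral_of_dominated_convergence (fun u : ℝ => (1 - u ^ 2) ^ (-(3 / 4) : ℝ))
  · intro n
    exact (SRC_g_cont (hp n) (hl n)).aestronglyMeasurable
  · exact hI
  · intro n
    filter_upwards [ae_restrict_mem measurableSet_Ioo] with u hu
    rw [Real.norm_of_nonneg (SRC_g_nonneg (hp n) (hl n) u)]
    exact SRC_g_le (hp n) (abs_lt.2 hu)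
  · filter_upwards [ae_restrict_mem measurableSet_Ioo] with u hu
    have h1 : Tendsto (fun n : ℕ => 1 / ((n : ℝ) + 2)) atTop (𝓝 0) := by
      have h2 : Tendsto (fun n : ℕ => (n : ℝ) + 2) atTop atTop :=
        tendsto_natCast_atTop_atTop.atTop_add tendsto_const_nhds
      simpa only [one_div, Function.comp_def] using tendsto_inv_atTop_zero.comp h2
    have h3 : (0 : ℝ) < (1 - |u|) / 2 := by
      have := abs_lt.2 hu
      linarith
    apply tendsto_const_nhds.congr'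
    filter_upwards [h1.eventually_lt_const h3] with n hn
    exact (SRC_g_eq (hp n) (by linarith)).symm

theorem SRC_fd {v x : E3} (hx : x ≠ 0) :
    HasFDerivAt (fun x : E3 => inner ℝ x v / ‖x‖)
      (‖x‖⁻¹ • innerSL ℝ v - (inner ℝ x v / ‖x‖ ^ 3) • innerSL ℝ x) x := by
  have hn : ‖x‖ ≠ 0 := norm_ne_zero_iff.2 hx
  have h1 : HasFDerivAt (fun x : E3 => ‖x‖ ^ 2) (2 • innerSL ℝ x) x :=
    (hasStrictFDerivAt_norm_sq x).hasFDerivAt
  have h2 : HasFDerivAt (fun x : E3 => ‖x‖) (‖x‖⁻¹ • innerSL ℝ x) x := by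
    have h3 := h1.sqrt (pow_ne_zero 2 hn)
    have e : (fun y : E3 => √(‖y‖ ^ 2)) = fun y : E3 => ‖y‖ := by
      funext y
      exact Real.sqrt_sq (norm_nonneg y)
    rw [e, Real.sqrt_sq (norm_nonneg x)] at h3
    refine h3.congr_fderiv ?_
    ext w
    simp only [smul_apply, innerSL_apply_apply, smul_eq_mul, nsmul_eq_mul,
      Nat.cast_ofNat]
    field_simp
  have h4 : HasFDerivAt (fun x : E3 => ‖x‖⁻¹) (-(‖x‖ ^ 2)⁻¹ • (‖x‖⁻¹ • innerSL ℝ x)) x :=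
    (hasDerivAt_inv hn).comp_hasFDerivAt x h2
  have h5 : HasFDerivAt (fun x : E3 => (inner ℝ x v : ℝ)) (innerSL ℝ v) x := by
    have := (innerSL ℝ v).hasFDerivAt (x := x)
    refine this.congr_of_eventuallyEq (Eventually.of_forall fun y => ?_)
    simp only [innerSL_apply_apply]
    exact real_inner_comm _ _
  have h6 := h5.mul h4
  refine (h6.congr_fderiv ?_).congr_of_eventuallyEq (Eventually.of_forall fun y => ?_)
  · ext w
    simp only [smul_apply, innerSL_apply_apply, smul_eq_mul,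
      add_apply, sub_apply]
    field_simp
    ring
  · simp only [Pi.mul_apply, div_eq_mul_inv]

theorem SRC_grad {v x : E3} (hx : x ≠ 0) {G : ℝ → ℝ} {d : ℝ}
    (hG : HasDerivAt G d (inner ℝ x v / ‖x‖)) :
    gradv (fun x : E3 => G (inner ℝ x v / ‖x‖)) x =
      d • (‖x‖⁻¹ • v - (inner ℝ x v / ‖x‖ ^ 3) • x) := by
  have h := (hG.comp_hasFDerivAt x (SRC_fd (v := v) hx)).fderiv
  have h' : fderiv ℝ (fun x : E3 => G (inner ℝ x v / ‖x‖)) x =
      d • (‖x‖⁻¹ • innerSL ℝ v - (inner ℝ x v / ‖x‖ ^ 3) • innerSL ℝ x) := h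
  ext j
  simp only [gradv, h', smul_apply, sub_apply,
    innerSL_apply_apply, smul_eq_mul, PiLp.smul_apply, PiLp.sub_apply,
    EuclideanSpace.inner_single_right]
  simp

theorem SRC_norm {v x : E3} (hv : ‖v‖ = 1) (hx : x ≠ 0) :
    ‖‖x‖⁻¹ • v - (inner ℝ x v / ‖x‖ ^ 3) • x‖ ^ 2 =
      (1 - (inner ℝ x v / ‖x‖) ^ 2) / ‖x‖ ^ 2 := by
  have hn : ‖x‖ ≠ 0 := norm_ne_zero_iff.2 hx
  rw [norm_sub_sq_real, norm_smul, norm_smul, hv, real_inner_smul_left, real_inner_smul_right,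
    real_inner_comm x v, mul_pow, mul_pow, Real.norm_eq_abs, Real.norm_eq_abs, sq_abs, sq_abs]
  field_simp
  ring

theorem SRC_rpow {R s : ℝ} (hR : 0 < R) (hs : 0 < s) :
    R ^ (-(3 / 2) : ℝ) * ((R ^ 2 * s ^ 4)⁻¹) ^ (3 / 4 : ℝ) = (R ^ 3)⁻¹ * (s ^ 3)⁻¹ := by
  have e1 : (R ^ 2 : ℝ) ^ (3 / 4 : ℝ) = R ^ (3 / 2 : ℝ) := by
    rw [← Real.rpow_natCast R 2, ← Real.rpow_mul hR.le]
    norm_num
  have e2 : (s ^ 4 : ℝ) ^ (3 / 4 : ℝ) = s ^ 3 := by
    rw [← Real.rpow_natCast s 4, ← Real.rpow_mul hs.le, ← Real.rpow_natCast s 3]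
    norm_num
  have e3 : (R ^ (3 / 2 : ℝ)) * (R ^ (3 / 2 : ℝ)) = R ^ 3 := by
    rw [← Real.rpow_add hR, ← Real.rpow_natCast R 3]
    norm_num
  rw [Real.inv_rpow (by positivity), Real.mul_rpow (by positivity) (by positivity), e1, e2,
    Real.rpow_neg hR.le, mul_inv, ← mul_assoc, ← mul_inv, e3]

theorem SRC_main {δ : ℝ} (h0 : 0 < δ) (h1 : δ < 1) {v x : E3} (hv : ‖v‖ = 1) (hx : x ≠ 0) :
    ‖gradv (fun x : E3 => SRC_G δ (inner ℝ x v / ‖x‖)) x‖ ^ 3 ≤ wt (-v) v x := by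
  have hn : 0 < ‖x‖ := norm_pos_iff.2 hx
  rw [SRC_grad hx (SRC_G_deriv h0 h1 _), norm_smul, Real.norm_eq_abs,
    abs_of_nonneg (SRC_g_nonneg h0 h1 _)]
  have hN := SRC_norm hv hx
  set u : ℝ := inner ℝ x v / ‖x‖ with hu
  have hin : (inner ℝ x v : ℝ) = u * ‖x‖ := by
    rw [hu]
    field_simp
  have hab : |u| ≤ 1 := by
    rw [hu, abs_div, abs_of_pos hn, div_le_one hn]
    have := abs_real_inner_le_norm x v
    rwa [hv, mul_one] at this
  have hsq : sq2 (-v) v x = (‖x‖ ^ 2 * (1 - u ^ 2))⁻¹ := by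
    unfold sq2 dn
    rw [inner_neg_left, inner_neg_right, real_inner_self_eq_norm_sq, hv, hin]
    have e : 2 * (‖x‖ - -(u * ‖x‖)) * (‖x‖ - u * ‖x‖) = 2 * (‖x‖ ^ 2 * (1 - u ^ 2)) := by ring
    rw [e, one_pow, sub_neg_eq_add, one_add_one_eq_two, div_eq_mul_inv, mul_inv, ← mul_assoc,
      mul_inv_cancel₀ two_ne_zero, one_mul]
  rcases lt_or_eq_of_le hab with hlt | heq
  · have hp := SRC_pos hlt
    obtain ⟨s, hs, hs4⟩ : ∃ s : ℝ, 0 < s ∧ s ^ 4 = 1 - u ^ 2 := by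
      refine ⟨(1 - u ^ 2) ^ (1 / 4 : ℝ), Real.rpow_pos_of_pos hp _, ?_⟩
      rw [← Real.rpow_natCast, ← Real.rpow_mul hp.le]
      norm_num
    have hw : (1 - u ^ 2) ^ (-(3 / 4) : ℝ) = (s ^ 3)⁻¹ := by
      rw [← hs4, Real.rpow_neg (by positivity), ← Real.rpow_natCast s 4, ← Real.rpow_mul hs.le,
        ← Real.rpow_natCast s 3]
      norm_num
    have hg : SRC_g δ u ≤ (s ^ 3)⁻¹ := hw ▸ SRC_g_le h0 hlt
    have hN2 : ‖‖x‖⁻¹ • v - (inner ℝ x v / ‖x‖ ^ 3) • x‖ = s ^ 2 / ‖x‖ := by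
      rw [← hs4] at hN
      have : ‖‖x‖⁻¹ • v - (inner ℝ x v / ‖x‖ ^ 3) • x‖ ^ 2 = (s ^ 2 / ‖x‖) ^ 2 := by
        rw [hN]
        ring
      exact (sq_eq_sq₀ (norm_nonneg _) (by positivity)).1 this
    rw [hN2, wt, hsq, ← hs4, SRC_rpow hn hs]
    calc (SRC_g δ u * (s ^ 2 / ‖x‖)) ^ 3 ≤ ((s ^ 3)⁻¹ * (s ^ 2 / ‖x‖)) ^ 3 := by
          apply pow_le_pow_left₀ (mul_nonneg (SRC_g_nonneg h0 h1 _) (by positivity))
          exact mul_le_mul_of_nonneg_right hg (by positivity)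
      _ = _ := by
          field_simp
  · rw [SRC_g_zero h0 (by linarith), zero_mul, zero_pow three_ne_zero, wt]
    have : 0 ≤ sq2 (-v) v x := by
      rw [hsq]
      have : 0 ≤ 1 - u ^ 2 := by
        rw [← sq_abs, heq]
        norm_num
      positivity
    positivity

theorem SRC_smooth {δ : ℝ} (h0 : 0 < δ) (h1 : δ < 1) (v : E3) :
    ContDiffOn ℝ 1 (fun x : E3 => SRC_G δ (inner ℝ x v / ‖x‖)) {0}ᶜ := by
  intro x hx
  have hx' : x ≠ 0 := hx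
  apply ContDiffAt.contDiffWithinAt
  refine (SRC_G_cd h0 h1).contDiffAt.comp x ?_
  refine ContDiffAt.div ?_ (contDiffAt_norm ℝ hx') (norm_ne_zero_iff.2 hx')
  exact contDiffAt_id.inner ℝ contDiffAt_const

theorem p_SRC (hI : Stmt_I0X) : Stmt_SRC := by
  intro κ0 hκ hκ1
  obtain ⟨hint, hpos, heq⟩ := hI
  have hlim := SRC_lim hint
  rw [← heq] at hlim
  have hlt : (1 - κ0) * I0 < I0 := by nlinarith
  obtain ⟨n, hn⟩ := ((tendsto_order.1 hlim).1 _ hlt).exists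
  have h0 : 0 < 1 / ((n : ℝ) + 2) := by positivity
  have h1 : 1 / ((n : ℝ) + 2) < 1 := by
    rw [div_lt_one (by positivity)]
    have : (0 : ℝ) ≤ n := Nat.cast_nonneg n
    linarith
  rw [SRC_two h0 h1] at hn
  have hT : (1 - κ0) * I0 / 2 < SRC_G (1 / ((n : ℝ) + 2)) 1 := by linarith
  have hq : 0 < (1 - κ0) * I0 / 2 := by
    have : 0 < (1 - κ0) * I0 := mul_pos (by linarith) hpos
    linarith
  refine ⟨1 / ((n : ℝ) + 2), SRC_G (1 / ((n : ℝ) + 2)) 1, SRC_G (1 / ((n : ℝ) + 2)), h0, h1,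
    hq.trans hT, hT.le, SRC_G_cd h0 h1, fun u hu => SRC_G_top h0 h1 hu, ?_, ?_, ?_⟩
  · intro u hu
    have h2 := SRC_G_odd (1 / ((n : ℝ) + 2)) u
    rw [SRC_G_top h0 h1 (by linarith)] at h2
    linarith
  · intro u
    rw [abs_le]
    have h2 := SRC_G_odd (1 / ((n : ℝ) + 2)) u
    have h3 := SRC_G_le h0 h1 (-u)
    exact ⟨by linarith, SRC_G_le h0 h1 u⟩
  · intro v hv
    exact ⟨SRC_smooth h0 h1 v, fun x hx => SRC_main h0 h1 hv hx⟩

end Pool.Flat
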