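import Pool.Agent.Work.MP_680515_fl.Iface4

/-! # Block TPA: local topology near a branch point -/

open MeasureTheory Set Filter Topology

namespace Pool.Flat

open Pool.Mart

theorem TPA_shell (c : E3) (s s0 : ℝ) (hs : 0 < s) :
    IsPreconnected {y : E3 | s ≤ ‖y - c‖ ∧ ‖y - c‖ ≤ s0} := by
  have hrank : 1 < Module.rank ℝ E3 := by
    rw [← Module.finrank_eq_rank, finrank_euclideanSpace_fin]
    norm_num
  have h1 : IsPreconnected (Metric.sphere (0 : E3) 1) := isPreconnected_sphere hrank 0 1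
  have h2 : IsPreconnected (Metric.sphere (0 : E3) 1 ×ˢ Icc s s0) := h1.prod isPreconnected_Icc
  have hc : Continuous fun p : E3 × ℝ => c + p.2 • p.1 :=
    continuous_const.add (continuous_snd.smul continuous_fst)
  have h3 := h2.image (fun p : E3 × ℝ => c + p.2 • p.1) hc.continuousOn
  have h4 : {y : E3 | s ≤ ‖y - c‖ ∧ ‖y - c‖ ≤ s0} =
      (fun p : E3 × ℝ => c + p.2 • p.1) '' (Metric.sphere (0 : E3) 1 ×ˢ Icc s s0) := by
    ext y
    constructor
    · rintro ⟨h4, h5⟩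
      have h6 : ‖y - c‖ ≠ 0 := by
        have : 0 < ‖y - c‖ := lt_of_lt_of_le hs h4
        exact this.ne'
      refine ⟨(‖y - c‖⁻¹ • (y - c), ‖y - c‖), ⟨?_, h4, h5⟩, ?_⟩
      · rw [mem_sphere_zero_iff_norm, norm_smul, norm_inv, norm_norm, inv_mul_cancel₀ h6]
      · change c + ‖y - c‖ • (‖y - c‖⁻¹ • (y - c)) = y
        rw [smul_smul, mul_inv_cancel₀ h6, one_smul]
        abel
    · rintro ⟨⟨u, t⟩, ⟨hu, ht⟩, rfl⟩
      have hu' : ‖u‖ = 1 := mem_sphere_zero_iff_norm.1 hu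
      have ht1 : s ≤ t := ht.1
      have ht2 : t ≤ s0 := ht.2
      have h7 : ‖(c + t • u) - c‖ = t := by
        rw [add_sub_cancel_left, norm_smul, hu', mul_one, Real.norm_eq_abs,
          abs_of_nonneg (by linarith)]
      exact ⟨by rw [h7]; exact ht1, by rw [h7]; exact ht2⟩
  rw [h4]
  exact h3

/-- the third basis vector -/
noncomputable def TPA_e3 : E3 := !₂[0, 0, 1]

theorem TPA_rad_add (a : E3) (t : ℝ) (h : rad a = 0) : rad (a + t • TPA_e3) = 0 := by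
  have h0 : (a + t • TPA_e3) 0 = a 0 := by simp [TPA_e3]
  have h1 : (a + t • TPA_e3) 1 = a 1 := by simp [TPA_e3]
  unfold rad at h ⊢
  rw [h0, h1]
  exact h

theorem TPA_norm_e3 : ‖TPA_e3‖ = 1 := by
  rw [EuclideanSpace.norm_eq, Fin.sum_univ_three]
  simp [TPA_e3]

theorem TPA_exit (φ : OpenPartialHomeomorph E3 E3) (b : E3) (s0 : ℝ) (hs0 : 0 < s0)
    (hb : Metric.closedBall b s0 ⊆ φ.target) (hax : rad (φ.symm b) = 0) :
    ∃ b' : E3, ‖b' - b‖ = s0 ∧ rad (φ.symm b') = 0 := by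
  by_contra hno
  push Not at hno
  have hK : IsCompact (φ.symm '' Metric.closedBall b s0) :=
    (isCompact_closedBall b s0).image_of_continuousOn (φ.continuousOn_symm.mono hb)
  have hV : IsOpen (φ.symm '' Metric.ball b s0) :=
    φ.symm.isOpen_image_of_subset_source Metric.isOpen_ball
      (Metric.ball_subset_closedBall.trans hb)
  have hLc : Continuous fun t : ℝ => φ.symm b + t • TPA_e3 :=
    continuous_const.add (continuous_id.smul continuous_const)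
  have hL : IsPreconnected ((fun t : ℝ => φ.symm b + t • TPA_e3) '' Ici 0) :=
    isPreconnected_Ici.image _ hLc.continuousOn
  have h1 : ((fun t : ℝ => φ.symm b + t • TPA_e3) '' Ici 0) ⊆
      (φ.symm '' Metric.ball b s0) ∪ (φ.symm '' Metric.closedBall b s0)ᶜ := by
    rintro p ⟨t, _, rfl⟩
    by_cases hp : φ.symm b + t • TPA_e3 ∈ φ.symm '' Metric.closedBall b s0
    · left
      obtain ⟨b', hb', hbp⟩ := hp
      refine ⟨b', ?_, hbp⟩
      rw [mem_ball_iff_norm]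
      refine lt_of_le_of_ne (mem_closedBall_iff_norm.1 hb') ?_
      intro h2
      refine hno b' h2 ?_
      rw [hbp]
      exact TPA_rad_add _ _ hax
    · right
      exact hp
  have h2 : (((fun t : ℝ => φ.symm b + t • TPA_e3) '' Ici 0) ∩
      (φ.symm '' Metric.ball b s0)).Nonempty := by
    refine ⟨φ.symm b, ⟨0, mem_Ici.2 le_rfl, by simp⟩, b, Metric.mem_ball_self hs0, rfl⟩
  obtain ⟨M, hM⟩ := hK.isBounded.exists_norm_le
  have h3 : (((fun t : ℝ => φ.symm b + t • TPA_e3) '' Ici 0) ∩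
      (φ.symm '' Metric.closedBall b s0)ᶜ).Nonempty := by
    refine ⟨φ.symm b + (|M| + ‖φ.symm b‖ + 1) • TPA_e3,
      ⟨|M| + ‖φ.symm b‖ + 1, mem_Ici.2 (by positivity), rfl⟩, ?_⟩
    intro h4
    have h5 := hM _ h4
    have h6 : ‖(|M| + ‖φ.symm b‖ + 1) • TPA_e3‖ = |M| + ‖φ.symm b‖ + 1 := by
      rw [norm_smul, TPA_norm_e3, mul_one, Real.norm_eq_abs, abs_of_nonneg (by positivity)]
    have h7 : ‖(|M| + ‖φ.symm b‖ + 1) • TPA_e3‖ ≤
        ‖φ.symm b + (|M| + ‖φ.symm b‖ + 1) • TPA_e3‖ + ‖φ.symm b‖ := by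
      have := norm_sub_le (φ.symm b + (|M| + ‖φ.symm b‖ + 1) • TPA_e3) (φ.symm b)
      rwa [add_sub_cancel_left] at this
    rw [h6] at h7
    have h8 := le_abs_self M
    linarith
  obtain ⟨p, _, hp1, hp2⟩ := hL _ _ hV hK.isClosed.isOpen_compl h1 h2 h3
  exact hp2 (image_mono Metric.ball_subset_closedBall hp1)

theorem p_TPA (hWOP : Stmt_WOP) (hWCN : Stmt_WCN) : Stmt_TPA := by
  intro φ ψ x0 hsrc hx0
  obtain ⟨hwc, -, -, -, -, hwax, hwn, -, -⟩ := hWOP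
  obtain ⟨hx0s, hx0r⟩ := hx0
  have hw0 : wind (ψ x0) = ψ x0 := hwax _ hx0r
  have hf0 : fm φ ψ x0 = φ (ψ x0) := by rw [fm, hw0]
  have ha0 : ψ x0 ∈ φ.source := by
    have := hsrc x0 hx0s
    rwa [hw0] at this
  have hf0t : fm φ ψ x0 ∈ φ.target := by
    rw [hf0]
    exact φ.map_source ha0
  have hsf0 : φ.symm (fm φ ψ x0) = ψ x0 := by
    rw [hf0]
    exact φ.left_inv ha0
  have hcs : ContinuousAt φ.symm (fm φ ψ x0) := φ.continuousAt_symm hf0t
  obtain ⟨r, hr, hrt⟩ := Metric.isOpen_iff.1 ψ.open_target (ψ x0) (ψ.map_source hx0s)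
  have hev : ∀ r' : ℝ, 0 < r' → ∃ ε : ℝ, 0 < ε ∧ Metric.closedBall (fm φ ψ x0) ε ⊆ φ.target ∧
      ∀ y ∈ Metric.closedBall (fm φ ψ x0) ε, φ.symm y ∈ Metric.ball (ψ x0) r' := by
    intro r' hr'
    have h1 : ∀ᶠ y in 𝓝 (fm φ ψ x0), y ∈ φ.target := φ.open_target.mem_nhds hf0t
    have h2 : ∀ᶠ y in 𝓝 (fm φ ψ x0), φ.symm y ∈ Metric.ball (ψ x0) r' := by
      refine hcs.eventually ?_
      rw [hsf0]
      exact Metric.ball_mem_nhds _ hr'
    obtain ⟨ε, hε, hε2⟩ := Metric.nhds_basis_closedBall.mem_iff.1 (h1.and h2)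
    exact ⟨ε, hε, fun y hy => (hε2 hy).1, fun y hy => (hε2 hy).2⟩
  obtain ⟨ε, hε, hεt, hεb⟩ := hev r hr
  have h3s : 3 * (ε / 3) = ε := by ring
  -- preimages of balls around the axis point
  have hwb : ∀ (y : E3) (r' : ℝ), wind y ∈ Metric.ball (ψ x0) r' → y ∈ Metric.ball (ψ x0) r' := by
    intro y r' hy
    rw [mem_ball_iff_norm] at hy ⊢
    rwa [hwn y (ψ x0) hx0r] at hy
  have hwt : wind ⁻¹' (φ.symm '' Metric.closedBall (fm φ ψ x0) ε) ⊆ ψ.target := by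
    rintro y ⟨b, hb, hby⟩
    refine hrt (hwb y r ?_)
    rw [← hby]
    exact hεb b hb
  -- continuity at `x0`
  have hfc : ContinuousAt (fm φ ψ) x0 := by
    have h1 : ContinuousAt ψ x0 := ψ.continuousAt hx0s
    have h2 : ContinuousAt (fun x => wind (ψ x)) x0 := hwc.continuousAt.comp h1
    exact ContinuousAt.comp (f := fun x => wind (ψ x)) (g := φ)
      (φ.continuousAt (hsrc x0 hx0s)) h2
  have hR : ∃ R0 : ℝ, 0 < R0 ∧ Metric.closedBall x0 R0 ⊆ ψ.source ∧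
      ∀ x ∈ Metric.closedBall x0 R0, ‖fm φ ψ x - fm φ ψ x0‖ ≤ ε / 3 / 4 := by
    have h1 : ∀ᶠ x in 𝓝 x0, x ∈ ψ.source := ψ.open_source.mem_nhds hx0s
    have h2 : ∀ᶠ x in 𝓝 x0, fm φ ψ x ∈ Metric.closedBall (fm φ ψ x0) (ε / 3 / 4) :=
      hfc.eventually (Metric.closedBall_mem_nhds _ (by positivity))
    obtain ⟨R0, hR0, hR1⟩ := Metric.nhds_basis_closedBall.mem_iff.1 (h1.and h2)
    exact ⟨R0, hR0, fun y hy => (hR1 hy).1, fun y hy => mem_closedBall_iff_norm.1 (hR1 hy).2⟩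
  obtain ⟨R0, hR0, hR1, hR2⟩ := hR
  -- the description of preimages
  have hpre : ∀ B : Set E3, B ⊆ Metric.closedBall (fm φ ψ x0) ε →
      {x | x ∈ ψ.source ∧ fm φ ψ x ∈ B} = ψ.symm '' (wind ⁻¹' (φ.symm '' B)) := by
    intro B hB
    ext x
    constructor
    · rintro ⟨hx, hfx⟩
      refine ⟨ψ x, ⟨fm φ ψ x, hfx, ?_⟩, ψ.left_inv hx⟩
      exact φ.left_inv (hsrc x hx)
    · rintro ⟨y, ⟨b, hb, hby⟩, rfl⟩
      have hyt : y ∈ ψ.target := hwt ⟨b, hB hb, hby⟩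
      refine ⟨ψ.map_target hyt, ?_⟩
      have : fm φ ψ (ψ.symm y) = b := by
        rw [fm, ψ.right_inv hyt, ← hby, φ.right_inv (hεt (hB hb))]
      rw [this]
      exact hb
  have hconn : ∀ B : Set E3, B ⊆ Metric.closedBall (fm φ ψ x0) ε → IsPreconnected B →
      (∃ b ∈ B, rad (φ.symm b) = 0) → IsPreconnected {x | x ∈ ψ.source ∧ fm φ ψ x ∈ B} := by
    intro B hB hBc ⟨b, hb, hbr⟩
    rw [hpre B hB]
    have h1 : IsPreconnected (φ.symm '' B) :=
      hBc.image _ (φ.continuousOn_symm.mono (hB.trans hεt))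
    have h2 : IsPreconnected (wind ⁻¹' (φ.symm '' B)) := hWCN _ h1 ⟨φ.symm b, ⟨b, hb, rfl⟩, hbr⟩
    refine h2.image _ (ψ.continuousOn_symm.mono ?_)
    exact (preimage_mono (image_mono hB)).trans hwt
  refine ⟨ε / 3, R0, by positivity, hR0, by rw [h3s]; exact hεt, by rw [h3s]; exact hwt, hR1, hR2,
    ?_, ?_⟩
  · rintro z ⟨hzs, hzr⟩ hz
    have hwz : wind (ψ z) = ψ z := hwax _ hzr
    have hsfz : φ.symm (fm φ ψ z) = ψ z := by
      have h1 : φ.symm (φ (wind (ψ z))) = wind (ψ z) := φ.left_inv (hsrc z hzs)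
      rw [hwz] at h1
      rw [fm, hwz]
      exact h1
    have hsub : Metric.closedBall (fm φ ψ z) (ε / 3) ⊆ Metric.closedBall (fm φ ψ x0) ε := by
      refine Metric.closedBall_subset_closedBall' ?_
      rw [dist_eq_norm]
      linarith
    obtain ⟨b', hb', hb'r⟩ := TPA_exit φ (fm φ ψ z) (ε / 3) (by positivity) (hsub.trans hεt)
      (by rw [hsfz]; exact hzr)
    refine ⟨?_, ?_, ?_⟩
    · intro s hs0 hs1
      have h1 := hconn (Metric.closedBall (fm φ ψ z) s)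
        ((Metric.closedBall_subset_closedBall hs1).trans hsub)
        (convex_closedBall _ _).isPreconnected
        ⟨fm φ ψ z, Metric.mem_closedBall_self hs0, by rw [hsfz]; exact hzr⟩
      have h2 : {x | x ∈ ψ.source ∧ ‖fm φ ψ x - fm φ ψ z‖ ≤ s} =
          {x | x ∈ ψ.source ∧ fm φ ψ x ∈ Metric.closedBall (fm φ ψ z) s} := by
        ext x
        exact and_congr_right fun _ => (mem_closedBall_iff_norm).symm
      rw [h2]
      exact h1
    · intro s hs0 hs1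
      have h1 := hconn {y : E3 | s ≤ ‖y - fm φ ψ z‖ ∧ ‖y - fm φ ψ z‖ ≤ ε / 3}
        (fun y hy => hsub (mem_closedBall_iff_norm.2 hy.2))
        (TPA_shell _ _ _ hs0)
        ⟨b', ⟨by rw [hb']; exact hs1, by rw [hb']⟩, hb'r⟩
      exact h1
    · have hbt : b' ∈ Metric.closedBall (fm φ ψ x0) ε :=
        hsub (mem_closedBall_iff_norm.2 hb'.le)
      have hwb' : wind (φ.symm b') = φ.symm b' := hwax _ hb'r
      have hbt2 : φ.symm b' ∈ ψ.target := hwt ⟨b', hbt, hwb'.symm⟩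
      refine ⟨ψ.symm (φ.symm b'), ψ.map_target hbt2, ?_⟩
      have : fm φ ψ (ψ.symm (φ.symm b')) = b' := by
        rw [fm, ψ.right_inv hbt2, hwb', φ.right_inv (hεt hbt)]
      rw [this, hb']
  · intro R1 hR1'
    have h1 : ∀ᶠ y in 𝓝 (ψ x0), ψ.symm y ∈ Metric.ball x0 R1 := by
      have h2 : ContinuousAt ψ.symm (ψ x0) := ψ.continuousAt_symm (ψ.map_source hx0s)
      refine h2.eventually ?_
      rw [ψ.left_inv hx0s]
      exact Metric.ball_mem_nhds _ hR1'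
    obtain ⟨r1, hr1, hr2⟩ := Metric.nhds_basis_ball.mem_iff.1 h1
    obtain ⟨s2, hs2, -, hs3⟩ := hev r1 hr1
    refine ⟨s2, hs2, ?_⟩
    intro x hx hfx
    have h3 : φ.symm (fm φ ψ x) = wind (ψ x) := φ.left_inv (hsrc x hx)
    have h4 := hs3 (fm φ ψ x) (mem_closedBall_iff_norm.2 hfx)
    rw [h3] at h4
    have h5 : ψ.symm (ψ x) ∈ Metric.ball x0 R1 := hr2 (hwb _ _ h4)
    rw [ψ.left_inv hx, mem_ball_iff_norm] at h5
    exact h5

end Pool.Flat
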