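import Pool.Agent.Work.MP_680515_fl.Iface3

/-!
# Block UCO: modulus of continuity of the logarithmic ratio
-/

open MeasureTheory Set Filter Topology

namespace Pool.Flat

open Pool.Mart

theorem UCO_unit : ∃ e : E3, ‖e‖ = 1 := ⟨EuclideanSpace.single 0 1, by simp⟩

theorem UCO_log (a b u : ℝ) (ha : 0 < a) (hu0 : 0 ≤ u) (hu : u ≤ 1 / 2)
    (h : |b - a| ≤ u * a) : 0 < b ∧ |Real.log b - Real.log a| ≤ 2 * u := by
  obtain ⟨h1, h2⟩ := abs_le.1 h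
  have hb : 0 < b := by nlinarith
  refine ⟨hb, ?_⟩
  have h3 : Real.log (b / a) ≤ b / a - 1 := Real.log_le_sub_one_of_pos (div_pos hb ha)
  have h4 : Real.log (a / b) ≤ a / b - 1 := Real.log_le_sub_one_of_pos (div_pos ha hb)
  rw [Real.log_div hb.ne' ha.ne'] at h3
  rw [Real.log_div ha.ne' hb.ne'] at h4
  have h5 : b / a - 1 ≤ u := by
    rw [sub_le_iff_le_add, div_le_iff₀ ha]
    linarith
  have h6 : a / b - 1 ≤ 2 * u := by
    rw [sub_le_iff_le_add, div_le_iff₀ hb]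
    nlinarith [mul_nonneg hu0 ha.le]
  rw [abs_le]
  constructor <;> linarith

theorem p_UCO (hE1 : Stmt_E1) (hE3 : Stmt_E3) : Stmt_UCO := by
  intro H M σ hH hM hσ
  have hM0 : 0 < M := by linarith
  obtain ⟨D, hD1, hD⟩ := hE1 H hH
  obtain ⟨k, hk⟩ := pow_unbounded_of_one_lt M (one_lt_two : (1 : ℝ) < 2)
  obtain ⟨C, hCd⟩ : ∃ C, C = D ^ (k + 1) := ⟨_, rfl⟩
  have hC1 : 1 ≤ C := by
    rw [hCd]
    exact one_le_pow₀ hD1
  have hC0 : 0 < C := by linarith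
  obtain ⟨u, hu0, hu1, hu2⟩ : ∃ u : ℝ, 0 < u ∧ u ≤ 1 / 2 ∧ u ≤ σ / 4 :=
    ⟨min (1 / 2) (σ / 4), by positivity, min_le_left _ _, min_le_right _ _⟩
  obtain ⟨δ3, hδ30, hδ3⟩ := hE3 H (2 * M) (u / C) hH (by linarith) (by positivity)
  obtain ⟨δ, hδ0, hδa, hδb, hδc⟩ : ∃ δ : ℝ, 0 < δ ∧ δ ≤ δ3 ∧ δ ≤ 1 / (8 * M) ∧
      δ ≤ σ / (4 * M) :=
    ⟨min δ3 (min (1 / (8 * M)) (σ / (4 * M))), by positivity, min_le_left _ _,
      (min_le_right _ _).trans (min_le_left _ _), (min_le_right _ _).trans (min_le_right _ _)⟩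
  have hδb' : δ * M ≤ 1 / 8 := by
    rw [le_div_iff₀ (by positivity)] at hδb
    linarith
  have hδc' : δ * M ≤ σ / 4 := by
    rw [le_div_iff₀ (by positivity)] at hδc
    linarith
  refine ⟨δ, hδ0, hδb, ?_⟩
  intro ε r0 Ω S f A γ hε hε1 hT t ht r hr hMr x z hx1 hx2 hzx
  have ht2 : t ∈ Icc (-2 : ℝ) 2 := ⟨by linarith [ht.1], by linarith [ht.2]⟩
  have hMr1 : r ≤ M * r := by nlinarith
  have hMr2 : 32 * (M * r) ≤ r0 := by linarith
  have hx0 : 0 < ‖x - γ t‖ := lt_of_lt_of_le (by positivity) hx1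
  have hrx : r ≤ M * ‖x - γ t‖ := by
    rw [div_le_iff₀ hM0] at hx1
    linarith
  have hδM : δ ≤ 1 / 8 := by nlinarith
  have hδr : δ * r ≤ M * r := by nlinarith
  have hzp : ‖z - γ t‖ ≤ 2 * M * r := by
    calc ‖z - γ t‖ = ‖(z - x) + (x - γ t)‖ := by rw [sub_add_sub_cancel]
      _ ≤ ‖z - x‖ + ‖x - γ t‖ := norm_add_le _ _
      _ ≤ 2 * M * r := by linarith
  -- the point at distance `r`
  obtain ⟨e, he⟩ := UCO_unit
  obtain ⟨y0, hy0⟩ : ∃ y0 : E3, ‖y0 - γ t‖ = r :=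
    ⟨γ t + r • e, by rw [add_sub_cancel_left, norm_smul, he, Real.norm_of_nonneg hr.le, mul_one]⟩
  have hfx : 0 < ‖f x - f (γ t)‖ := by
    rw [norm_pos_iff, sub_ne_zero]
    intro h
    have h1 := hT.inj t ht2 x (mem_closedBall_iff_norm.2 (by linarith)) h
    rw [h1, sub_self, norm_zero] at hx0
    linarith
  have h1 : ‖f y0 - f (γ t)‖ ≤ C * ‖f x - f (γ t)‖ := by
    rw [hCd]
    refine hD ε r0 Ω S f A γ hε hε1 hT t ht2 k y0 (mem_closedBall_iff_norm.2 (by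
      rw [hy0]; linarith)) x (mem_closedBall_iff_norm.2 (by linarith)) ?_
    rw [hy0]
    refine hrx.trans (mul_le_mul_of_nonneg_right hk.le hx0.le)
  have h2 : ‖f z - f x‖ ≤ u / C * ‖f y0 - f (γ t)‖ := by
    refine hδ3 ε r0 Ω S f A γ hε hε1 hT t ht r hr (by linarith) y0 hy0 z x hzp (by
      nlinarith) (hzx.trans (mul_le_mul_of_nonneg_right hδa hr.le))
  have h3 : ‖f z - f x‖ ≤ u * ‖f x - f (γ t)‖ := by
    calc ‖f z - f x‖ ≤ u / C * ‖f y0 - f (γ t)‖ := h2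
      _ ≤ u / C * (C * ‖f x - f (γ t)‖) := mul_le_mul_of_nonneg_left h1 (by positivity)
      _ = u * ‖f x - f (γ t)‖ := by field_simp
  have h4 : |‖f z - f (γ t)‖ - ‖f x - f (γ t)‖| ≤ u * ‖f x - f (γ t)‖ := by
    refine (abs_norm_sub_norm_le _ _).trans ?_
    rw [sub_sub_sub_cancel_right]
    exact h3
  have h5 : |‖z - γ t‖ - ‖x - γ t‖| ≤ (δ * M) * ‖x - γ t‖ := by
    refine (abs_norm_sub_norm_le _ _).trans ?_
    rw [sub_sub_sub_cancel_right]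
    calc ‖z - x‖ ≤ δ * r := hzx
      _ ≤ δ * (M * ‖x - γ t‖) := mul_le_mul_of_nonneg_left hrx hδ0.le
      _ = (δ * M) * ‖x - γ t‖ := by ring
  obtain ⟨h6, h7⟩ := UCO_log _ _ u hfx hu0.le hu1 h4
  obtain ⟨h8, h9⟩ := UCO_log _ _ (δ * M) hx0 (by positivity) (by linarith) h5
  have e1 : lr f (γ t) z = Real.log ‖f z - f (γ t)‖ - Real.log ‖z - γ t‖ := by
    unfold lr
    exact Real.log_div h6.ne' h8.ne'
  have e2 : lr f (γ t) x = Real.log ‖f x - f (γ t)‖ - Real.log ‖x - γ t‖ := by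
    unfold lr
    exact Real.log_div hfx.ne' hx0.ne'
  rw [e1, e2]
  rw [abs_le] at h7 h9 ⊢
  constructor <;> linarith [h7.1, h7.2, h9.1, h9.2]

end Pool.Flat
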