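import Pool.Agent.Work.MP_680515_fl.Iface1

/-! # Block WIN: in a window of scales the curve is in a narrow double cone -/

open MeasureTheory Set Filter Topology

namespace Pool.Flat

open Pool.Mart

theorem WIN_mem {t s : ℝ} (ht : t ∈ Icc (-1 : ℝ) 1) (hs : |s| ≤ 1) : t + s ∈ Icc (-2 : ℝ) 2 := by
  obtain ⟨h1, h2⟩ := abs_le.1 hs
  exact ⟨by linarith [ht.1], by linarith [ht.2]⟩

theorem WIN_le {ε : ℝ} {γ : ℝ → E3} (hLINP : Stmt_LINP) (h0 : 0 ≤ ε) (h1 : ε ≤ 1 / 1000)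
    (hγ : NearLin ε γ 2 1) {t : ℝ} (ht : t ∈ Icc (-1 : ℝ) 1) {s s' : ℝ} (hs0 : s ≠ 0)
    (hs : |s| ≤ 1) (hs' : |s'| ≤ |s|) :
    ‖cv γ t s'‖ ≤ (|s' / s| + 4 * ε) * ‖cv γ t s‖ ∧
      |s' / s| * ‖cv γ t s‖ ≤ ‖cv γ t s'‖ + 4 * ε * ‖cv γ t s‖ := by
  have ht2 : t ∈ Icc (-2 : ℝ) 2 := ⟨by linarith [ht.1], by linarith [ht.2]⟩
  have h2 := (hLINP ε γ h0 h1 hγ t ht2 s hs0 hs (WIN_mem ht hs)).2 s' hs'
    (WIN_mem ht (hs'.trans hs))
  have h3 : ‖(s' / s) • cv γ t s‖ = |s' / s| * ‖cv γ t s‖ := by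
    rw [norm_smul, Real.norm_eq_abs]
  constructor
  · calc ‖cv γ t s'‖ = ‖(cv γ t s' - (s' / s) • cv γ t s) + (s' / s) • cv γ t s‖ := by
          rw [sub_add_cancel]
      _ ≤ ‖cv γ t s' - (s' / s) • cv γ t s‖ + ‖(s' / s) • cv γ t s‖ := norm_add_le _ _
      _ ≤ 4 * ε * ‖cv γ t s‖ + |s' / s| * ‖cv γ t s‖ := by
          rw [h3]
          exact add_le_add h2 le_rfl
      _ = _ := by ring
  · calc |s' / s| * ‖cv γ t s‖ = ‖cv γ t s' - (cv γ t s' - (s' / s) • cv γ t s)‖ := by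
          rw [sub_sub_cancel, h3]
      _ ≤ ‖cv γ t s'‖ + ‖cv γ t s' - (s' / s) • cv γ t s‖ := norm_sub_le _ _
      _ ≤ _ := by linarith

theorem p_WIN (hLINP : Stmt_LINP) (hCONE : Stmt_CONE) (hARX : Stmt_ARX) : Stmt_WIN := by
  intro δ L hδ hL
  obtain ⟨k, hk⟩ := exists_pow_lt_of_lt_one (show (0 : ℝ) < 1 / (5 * Real.exp L) by positivity)
    (show (51 / 100 : ℝ) < 1 by norm_num)
  have hk' : 5 * Real.exp L * (51 / 100 : ℝ) ^ k < 1 := by
    rw [lt_div_iff₀ (by positivity)] at hk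
    linarith
  refine ⟨min (1 / 1000) (δ / (40 * (k + 1))), by positivity, min_le_left _ _, ?_⟩
  intro H ε r0 Ω S f A γ h0 h1 hT t ht r1 r2 hr1 hr12 hr20 hlog
  have hε : ε ≤ 1 / 1000 := h1.trans (min_le_left _ _)
  have hε2 : 40 * ((k : ℝ) + 1) * ε ≤ δ := by
    have h3 : ε ≤ δ / (40 * (k + 1)) := h1.trans (min_le_right _ _)
    rw [le_div_iff₀ (by positivity)] at h3
    linarith
  have ht2 : t ∈ Icc (-2 : ℝ) 2 := ⟨by linarith [ht.1], by linarith [ht.2]⟩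
  have hr2 : 0 < r2 := lt_of_lt_of_le hr1 hr12
  have hr21 : r2 ≤ Real.exp L * r1 := by
    have h3 : r2 / r1 ≤ Real.exp L := by
      rw [← Real.log_le_iff_le_exp (by positivity)]
      exact hlog
    rwa [div_le_iff₀ hr1] at h3
  have hc0 : cv γ t 0 = 0 := by simp [cv]
  obtain ⟨s2, hs2, hs2r⟩ := hARX H ε r0 Ω S f A γ hT t ht2 1 (by norm_num)
    (WIN_mem ht (by norm_num)) (4 * r2) (by linarith) (by linarith [hT.rpos])
  rw [one_mul] at hs2r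
  have hs2p : 0 < s2 := by
    rcases lt_or_eq_of_le hs2.1 with h | h
    · exact h
    · exfalso
      rw [← h, hc0, norm_zero] at hs2r
      linarith
  have hs2a : |s2| = s2 := abs_of_pos hs2p
  refine ⟨un (cv γ t s2), ?_, fun s hs hs1 hs3 => ?_⟩
  · unfold un
    rw [norm_smul, norm_inv, norm_norm, inv_mul_cancel₀]
    rw [hs2r]
    linarith
  have hs0 : s ≠ 0 := by
    rintro rfl
    rw [hc0, norm_zero] at hs1
    linarith
  have hsp : 0 < |s| := abs_pos.2 hs0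
  -- claim 1
  have c1 : |s| ≤ s2 := by
    by_contra hcon
    rw [not_le] at hcon
    rcases lt_or_gt_of_ne hs0 with hneg | hpos
    · have e1 := (WIN_le hLINP h0 hε hT.lin ht hs0 hs (s' := -s2)
        (by rw [abs_neg, hs2a]; exact hcon.le)).1
      have e2 := (WIN_le hLINP h0 hε hT.lin ht hs2p.ne' (by rw [hs2a]; exact hs2.2) (s' := -s2)
        (by rw [abs_neg])).2
      have e3 : |-s2 / s| ≤ 1 := by
        rw [abs_div, abs_neg, hs2a]
        exact div_le_one_of_le₀ hcon.le hsp.le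
      have e4 : |-s2 / s2| = 1 := by
        rw [neg_div, div_self hs2p.ne', abs_neg, abs_one]
      rw [e4, hs2r] at e2
      have e5 : (|-s2 / s| + 4 * ε) * ‖cv γ t s‖ ≤ (1 + 4 * (1 / 1000)) * r2 := by
        apply mul_le_mul (by linarith) hs3 (norm_nonneg _) (by norm_num)
      have e6 : 4 * ε * (4 * r2) ≤ 4 * (1 / 1000) * (4 * r2) := by
        apply mul_le_mul_of_nonneg_right (by linarith) (by linarith)
      linarith
    · have e1 := (WIN_le hLINP h0 hε hT.lin ht hs0 hs (s' := s2)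
        (by rw [hs2a]; exact hcon.le)).1
      have e3 : |s2 / s| ≤ 1 := by
        rw [abs_div, hs2a]
        exact div_le_one_of_le₀ hcon.le hsp.le
      have e5 : (|s2 / s| + 4 * ε) * ‖cv γ t s‖ ≤ (1 + 4 * (1 / 1000)) * r2 := by
        apply mul_le_mul (by linarith) hs3 (norm_nonneg _) (by norm_num)
      rw [hs2r] at e1
      linarith
  -- the dyadic points
  have c2 : ∀ j : ℕ, ‖cv γ t ((2 : ℝ)⁻¹ ^ j * s2)‖ ≤ (51 / 100 : ℝ) ^ j * (4 * r2) := by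
    intro j
    induction j with
    | zero => simp [hs2r]
    | succ j ih =>
      have hj : 0 < (2 : ℝ)⁻¹ ^ j * s2 := by positivity
      have hj1 : (2 : ℝ)⁻¹ ^ j ≤ 1 := pow_le_one₀ (by norm_num) (by norm_num)
      have hj2 : |(2 : ℝ)⁻¹ ^ j * s2| ≤ 1 := by
        rw [abs_of_pos hj]
        exact mul_le_one₀ hj1 hs2.1 hs2.2
      have e0 : (2 : ℝ)⁻¹ ^ (j + 1) * s2 = 2⁻¹ * ((2 : ℝ)⁻¹ ^ j * s2) := by ring
      have e1 := (WIN_le hLINP h0 hε hT.lin ht hj.ne' hj2 (s' := (2 : ℝ)⁻¹ ^ (j + 1) * s2) (by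
        rw [e0, abs_mul, abs_of_pos hj, abs_of_pos (by norm_num : (0 : ℝ) < 2⁻¹)]
        linarith)).1
      have e2 : |(2 : ℝ)⁻¹ ^ (j + 1) * s2 / ((2 : ℝ)⁻¹ ^ j * s2)| = 2⁻¹ := by
        rw [e0, mul_div_assoc, div_self hj.ne', mul_one, abs_of_pos (by norm_num)]
      rw [e2] at e1
      calc ‖cv γ t ((2 : ℝ)⁻¹ ^ (j + 1) * s2)‖
          ≤ (2⁻¹ + 4 * ε) * ‖cv γ t ((2 : ℝ)⁻¹ ^ j * s2)‖ := e1
        _ ≤ (51 / 100) * ((51 / 100 : ℝ) ^ j * (4 * r2)) := by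
            apply mul_le_mul (by linarith) ih (norm_nonneg _) (by norm_num)
        _ = _ := by ring
  -- claim 2
  have c3 : (2 : ℝ)⁻¹ ^ k * s2 ≤ |s| := by
    by_contra hcon
    rw [not_le] at hcon
    have hj : 0 < (2 : ℝ)⁻¹ ^ k * s2 := by positivity
    have hj1 : (2 : ℝ)⁻¹ ^ k ≤ 1 := pow_le_one₀ (by norm_num) (by norm_num)
    have hj2 : |(2 : ℝ)⁻¹ ^ k * s2| ≤ 1 := by
      rw [abs_of_pos hj]
      exact mul_le_one₀ hj1 hs2.1 hs2.2
    have e1 := (WIN_le hLINP h0 hε hT.lin ht hj.ne' hj2 (s' := s)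
      (by rw [abs_of_pos hj]; exact hcon.le)).1
    have e2 : |s / ((2 : ℝ)⁻¹ ^ k * s2)| ≤ 1 := by
      rw [abs_div, abs_of_pos hj]
      exact div_le_one_of_le₀ hcon.le hj.le
    have e3 : ‖cv γ t s‖ ≤ (1 + 4 * (1 / 1000)) * ((51 / 100 : ℝ) ^ k * (4 * r2)) :=
      e1.trans (mul_le_mul (by linarith) (c2 k) (norm_nonneg _) (by norm_num))
    have e4 : (51 / 100 : ℝ) ^ k * r2 ≤ (51 / 100 : ℝ) ^ k * (Real.exp L * r1) :=
      mul_le_mul_of_nonneg_left hr21 (by positivity)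
    have e5 : 5 * Real.exp L * (51 / 100 : ℝ) ^ k * r1 < 1 * r1 :=
      mul_lt_mul_of_pos_right hk' hr1
    have e6 : 0 ≤ (51 / 100 : ℝ) ^ k * r2 := by positivity
    nlinarith
  refine (hCONE ε γ h0 hε hT.lin t ht s2 k s hs2p hs2.2 c3 c1).trans hε2

end Pool.Flat
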