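import Pool.Agent.Work.MP_680515_fl.Iface4
import Pool.Agent.Work.MP_680515_an.B.WIN1

/-! # MP_680515_an, THEOREM FC: block WOP (the winding map is open and two to one) -/

set_option autoImplicit false

open MeasureTheory Set Filter Topology

namespace Pool.Flat

open Pool.Mart

open Pool.Mart.WIN1_ (w0 w1 w2 rad_nonneg rad_sq normsq zero_of_rad norm_wind rad_wind lip ext3
  wind_add e3_0 e3_1 e3_2)

lemma WOP_sg0 (y : E3) : sg y 0 = -(y 0) := rfl
lemma WOP_sg1 (y : E3) : sg y 1 = -(y 1) := rfl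
lemma WOP_sg2 (y : E3) : sg y 2 = y 2 := rfl

lemma WOP_sgsg (y : E3) : sg (sg y) = y := by
  apply ext3
  · rw [WOP_sg0, WOP_sg0, neg_neg]
  · rw [WOP_sg1, WOP_sg1, neg_neg]
  · rw [WOP_sg2, WOP_sg2]

lemma WOP_cont : Continuous wind := by
  have h : LipschitzWith 2 wind := by
    refine LipschitzWith.of_dist_le_mul fun X Y => ?_
    rw [dist_eq_norm, dist_eq_norm]
    exact lip X Y
  exact h.continuous

lemma WOP_sgcont : Continuous sg := by
  have h : LipschitzWith 1 sg := by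
    refine LipschitzWith.of_dist_le_mul fun X Y => ?_
    rw [dist_eq_norm, dist_eq_norm, NNReal.coe_one, one_mul]
    have h1 : ‖sg X - sg Y‖ ^ 2 = ‖X - Y‖ ^ 2 := by
      rw [normsq, normsq]
      have e0 : (sg X - sg Y) 0 = -(X 0) - -(Y 0) := rfl
      have e1 : (sg X - sg Y) 1 = -(X 1) - -(Y 1) := rfl
      have e2 : (sg X - sg Y) 2 = X 2 - Y 2 := rfl
      have f0 : (X - Y) 0 = X 0 - Y 0 := rfl
      have f1 : (X - Y) 1 = X 1 - Y 1 := rfl
      have f2 : (X - Y) 2 = X 2 - Y 2 := rfl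
      rw [e0, e1, e2, f0, f1, f2]
      ring
    exact ((sq_eq_sq₀ (norm_nonneg _) (norm_nonneg _)).mp h1).le
  exact h.continuous

lemma WOP_nine (g h : ℂ) (c : ℝ) (hg : h ^ 2 = g) :
    wind (!₂[‖h‖ * h.re, ‖h‖ * h.im, c]) = !₂[g.re, g.im, c] := by
  have x0 : (!₂[‖h‖ * h.re, ‖h‖ * h.im, c] : E3) 0 = ‖h‖ * h.re := rfl
  have x1 : (!₂[‖h‖ * h.re, ‖h‖ * h.im, c] : E3) 1 = ‖h‖ * h.im := rfl
  have x2 : (!₂[‖h‖ * h.re, ‖h‖ * h.im, c] : E3) 2 = c := rfl
  have hn : ‖h‖ ^ 2 = h.re ^ 2 + h.im ^ 2 := by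
    rw [Complex.sq_norm, Complex.normSq_apply]
    ring
  have hr : rad (!₂[‖h‖ * h.re, ‖h‖ * h.im, c] : E3) = ‖h‖ ^ 2 := by
    unfold rad
    rw [x0, x1]
    have : (‖h‖ * h.re) ^ 2 + (‖h‖ * h.im) ^ 2 = (‖h‖ ^ 2) ^ 2 := by
      rw [mul_pow, mul_pow, ← mul_add, ← hn]
      ring
    rw [this, Real.sqrt_sq (sq_nonneg _)]
  have gre : g.re = h.re ^ 2 - h.im ^ 2 := by
    rw [← hg, sq, Complex.mul_re]
    ring
  have gim : g.im = 2 * h.re * h.im := by
    rw [← hg, sq, Complex.mul_im]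
    ring
  have y0 : (!₂[g.re, g.im, c] : E3) 0 = g.re := rfl
  have y1 : (!₂[g.re, g.im, c] : E3) 1 = g.im := rfl
  have y2 : (!₂[g.re, g.im, c] : E3) 2 = c := rfl
  by_cases hz : h = 0
  · have hre : h.re = 0 := by rw [hz]; rfl
    have him : h.im = 0 := by rw [hz]; rfl
    apply ext3
    · rw [w0, y0, gre, x0, x1, hre, him]
      simp
    · rw [w1, y1, gim, x0, x1, hre, him]
      simp
    · rw [w2, x2, y2]
  · have hp : 0 < ‖h‖ := norm_pos_iff.mpr hz
    apply ext3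
    · rw [w0, y0, gre, x0, x1, hr]
      field_simp
    · rw [w1, y1, gim, x0, x1, hr]
      field_simp
    · rw [w2, x2, y2]

lemma WOP_surj (y : E3) : ∃ y' : E3, wind y' = y := by
  obtain ⟨h, hh⟩ := IsAlgClosed.exists_pow_nat_eq (⟨y 0, y 1⟩ : ℂ) (n := 2) (by norm_num)
  refine ⟨!₂[‖h‖ * h.re, ‖h‖ * h.im, y 2], ?_⟩
  rw [WOP_nine _ h (y 2) hh]
  exact ext3 rfl rfl rfl

lemma WOP_rsg (y : E3) : rad (sg y) = rad y := by
  unfold rad
  rw [WOP_sg0, WOP_sg1, neg_sq, neg_sq]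

lemma WOP_four (y : E3) : wind (sg y) = wind y := by
  apply ext3
  · rw [w0, w0, WOP_rsg, WOP_sg0, WOP_sg1, neg_sq, neg_sq]
  · rw [w1, w1, WOP_rsg, WOP_sg0, WOP_sg1]
    congr 1
    ring
  · rw [w2, w2, WOP_sg2]

lemma WOP_five (y y' : E3) (h : wind y = wind y') : y' = y ∨ y' = sg y := by
  have h2 : y 2 = y' 2 := by rw [← w2, h, w2]
  have hr : rad y = rad y' := by rw [← rad_wind, h, rad_wind]
  by_cases h0 : rad y = 0
  · left
    obtain ⟨a0, a1⟩ := zero_of_rad h0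
    obtain ⟨b0, b1⟩ := zero_of_rad (hr ▸ h0)
    exact ext3 (by rw [a0, b0]) (by rw [a1, b1]) h2.symm
  · have k0 : y 0 ^ 2 - y 1 ^ 2 = y' 0 ^ 2 - y' 1 ^ 2 := by
      have := congrArg (fun v : E3 => v 0) h
      simp only [w0, ← hr] at this
      field_simp at this
      exact this
    have k1 : y 0 * y 1 = y' 0 * y' 1 := by
      have := congrArg (fun v : E3 => v 1) h
      simp only [w1, ← hr] at this
      field_simp at this
      linarith
    have hz : (⟨y' 0, y' 1⟩ : ℂ) ^ 2 = (⟨y 0, y 1⟩ : ℂ) ^ 2 := by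
      apply Complex.ext
      · rw [sq, sq, Complex.mul_re, Complex.mul_re]
        dsimp only
        nlinarith
      · rw [sq, sq, Complex.mul_im, Complex.mul_im]
        dsimp only
        nlinarith
    rcases sq_eq_sq_iff_eq_or_eq_neg.mp hz with e | e
    · left
      exact ext3 (congrArg Complex.re e) (congrArg Complex.im e) h2.symm
    · right
      refine ext3 ?_ ?_ ?_
      · rw [WOP_sg0]
        exact congrArg Complex.re e
      · rw [WOP_sg1]
        exact congrArg Complex.im e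
      · rw [WOP_sg2]
        exact h2.symm

lemma WOP_six (y : E3) (h : rad y = 0) : wind y = y := by
  obtain ⟨a0, a1⟩ := zero_of_rad h
  apply ext3
  · rw [w0, a0, a1]
    simp
  · rw [w1, a0, a1]
    simp
  · rw [w2]

lemma WOP_seven (y a : E3) (h : rad a = 0) : ‖wind y - a‖ = ‖y - a‖ := by
  obtain ⟨a0, a1⟩ := zero_of_rad h
  have ha : a = (a 2) • e3 := by
    apply ext3
    · have : ((a 2) • e3) 0 = a 2 * e3 0 := rfl
      rw [this, e3_0, a0, mul_zero]
    · have : ((a 2) • e3) 1 = a 2 * e3 1 := rfl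
      rw [this, e3_1, a1, mul_zero]
    · have : ((a 2) • e3) 2 = a 2 * e3 2 := rfl
      rw [this, e3_2, mul_one]
  have h1 := wind_add (-(a 2)) y
  have h2 : y + (-(a 2)) • e3 = y - a := by
    conv_rhs => rw [ha]
    rw [neg_smul, sub_eq_add_neg]
  have h3 : wind y + (-(a 2)) • e3 = wind y - a := by
    conv_rhs => rw [ha]
    rw [neg_smul, sub_eq_add_neg]
  rw [h2, h3] at h1
  rw [← h1, norm_wind]

lemma WOP_eight (y : E3) : sg y = y ↔ rad y = 0 := by
  constructor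
  · intro h
    have h0 : -(y 0) = y 0 := congrArg (fun v : E3 => v 0) h
    have h1 : -(y 1) = y 1 := congrArg (fun v : E3 => v 1) h
    have a0 : y 0 = 0 := by linarith
    have a1 : y 1 = 0 := by linarith
    unfold rad
    rw [a0, a1]
    simp
  · intro h
    obtain ⟨a0, a1⟩ := zero_of_rad h
    refine ext3 ?_ ?_ ?_
    · rw [WOP_sg0, a0, neg_zero]
    · rw [WOP_sg1, a1, neg_zero]
    · rw [WOP_sg2]

lemma WOP_closed : IsClosedMap wind := by
  have h : IsProperMap wind := by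
    rw [isProperMap_iff_isCompact_preimage]
    refine ⟨WOP_cont, fun K hK => ?_⟩
    refine Metric.isCompact_of_isClosed_isBounded (hK.isClosed.preimage WOP_cont) ?_
    obtain ⟨R, hR⟩ := hK.isBounded.exists_norm_le
    refine isBounded_iff_forall_norm_le.mpr ⟨R, fun x hx => ?_⟩
    rw [← norm_wind]
    exact hR _ hx
  exact h.isClosedMap

lemma WOP_open (U : Set E3) (hU : IsOpen U) : IsOpen (wind '' U) := by
  have hV : wind ⁻¹' (wind '' U) = U ∪ sg ⁻¹' U := by
    ext x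
    constructor
    · rintro ⟨u, hu, hux⟩
      rcases WOP_five u x hux with e | e
      · left
        rw [e]
        exact hu
      · right
        show sg x ∈ U
        rw [e, WOP_sgsg]
        exact hu
    · rintro (hx | hx)
      · exact ⟨x, hx, rfl⟩
      · exact ⟨sg x, hx, WOP_four x⟩
  have hVo : IsOpen (wind ⁻¹' (wind '' U)) := by
    rw [hV]
    exact hU.union (hU.preimage WOP_sgcont)
  have hc : (wind '' U)ᶜ = wind '' (wind ⁻¹' (wind '' U))ᶜ := by
    ext p
    constructor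
    · intro hp
      obtain ⟨x, hx⟩ := WOP_surj p
      refine ⟨x, fun h => hp ?_, hx⟩
      rw [← hx]
      exact h
    · rintro ⟨x, hx, rfl⟩ h
      exact hx h
  rw [← isClosed_compl_iff, hc]
  exact WOP_closed _ hVo.isClosed_compl

theorem p_WOP : Stmt_WOP :=
  ⟨WOP_cont, WOP_open, WOP_surj, WOP_four, WOP_five, WOP_six, WOP_seven, WOP_eight, WOP_nine⟩

end Pool.Flat
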