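import Pool.Agent.Work.MP_680515_fl.Iface2

/-! # Block YNG: Young inequality -/

open MeasureTheory Set Filter Topology

namespace Pool.Flat

open Pool.Mart

theorem YNG_opn (A : M3) : 0 ≤ opn A := norm_nonneg _

theorem p_YNG : Stmt_YNG := by
  intro A V G hA hV hG
  obtain ⟨h1, h2⟩ := hA
  have hN : 0 ≤ opn (cofm A) := YNG_opn _
  have hJ : 0 ≤ A.det := by
    have := pow_nonneg (YNG_opn A) 3
    linarith
  have hw : 0 ≤ Real.sqrt V := Real.sqrt_nonneg V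
  have hVw : V = Real.sqrt V ^ 2 := (Real.sq_sqrt hV).symm
  have hV3 : V ^ (3 / 2 : ℝ) = Real.sqrt V ^ 3 := by
    rw [Real.rpow_div_two_eq_sqrt 3 hV]
    exact_mod_cast Real.rpow_natCast (Real.sqrt V) 3
  rw [hV3]
  obtain ⟨w, hw'⟩ : ∃ w, w = Real.sqrt V := ⟨_, rfl⟩
  rw [← hw'] at hw hVw ⊢
  rw [hVw]
  obtain ⟨N, hN'⟩ : ∃ N, N = opn (cofm A) := ⟨_, rfl⟩
  obtain ⟨J, hJ'⟩ : ∃ J, J = A.det := ⟨_, rfl⟩
  rw [← hN'] at hN h1 ⊢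
  rw [← hJ'] at hJ h1 ⊢
  have ha : 0 ≤ J * w ^ 3 := mul_nonneg hJ (pow_nonneg hw 3)
  have hb : 0 ≤ G ^ 3 := pow_nonneg hG 3
  refine le_of_pow_le_pow_left₀ (n := 3) (by norm_num) (by positivity) ?_
  have e1 : (N * w ^ 2 * G) ^ 3 ≤ 2 * (J * w ^ 3) ^ 2 * G ^ 3 := by
    have e2 : (N * w ^ 2 * G) ^ 3 = N ^ 3 * (w ^ 6 * G ^ 3) := by ring
    have e3 : 2 * (J * w ^ 3) ^ 2 * G ^ 3 = 2 * J ^ 2 * (w ^ 6 * G ^ 3) := by ring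
    rw [e2, e3]
    exact mul_le_mul_of_nonneg_right h1 (mul_nonneg (pow_nonneg hw 6) hb)
  refine e1.trans ?_
  obtain ⟨a, ha'⟩ : ∃ a, a = J * w ^ 3 := ⟨_, rfl⟩
  obtain ⟨b, hb'⟩ : ∃ b, b = G ^ 3 := ⟨_, rfl⟩
  rw [← ha'] at ha ⊢
  rw [← hb'] at hb ⊢
  have e4 : 0 ≤ (a - 2 * b) ^ 2 * (4 * a + b) := by positivity
  nlinarith [e4]

end Pool.Flat
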