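import Pool.Agent.Work.MP_680515_an.Final
import Pool.Agent.Work.MP_680515_fl.B_LOC
import Pool.Agent.Work.MP_680515_fl.B_CHR
import Pool.Agent.Work.MP_680515_fl.B_PT2
import Pool.Agent.Work.MP_680515_fl.B_QGR
import Pool.Agent.Work.MP_680515_fl.B_AGW
import Pool.Agent.Work.MP_680515_fl.B_OSC
import Pool.Agent.Work.MP_680515_fl.B_SEGC
import Pool.Agent.Work.MP_680515_fl.B_ANG
import Pool.Agent.Work.MP_680515_fl.B_LINP
import Pool.Agent.Work.MP_680515_fl.B_CONE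
import Pool.Agent.Work.MP_680515_fl.B_ARX
import Pool.Agent.Work.MP_680515_fl.B_WIN
import Pool.Agent.Work.MP_680515_fl.B_I0X
import Pool.Agent.Work.MP_680515_fl.B_SRC
import Pool.Agent.Work.MP_680515_fl.B_E1
import Pool.Agent.Work.MP_680515_fl.B_LQP
import Pool.Agent.Work.MP_680515_fl.B_GL3
import Pool.Agent.Work.MP_680515_fl.B_CTM
import Pool.Agent.Work.MP_680515_fl.B_GL1
import Pool.Agent.Work.MP_680515_fl.B_GL2
import Pool.Agent.Work.MP_680515_fl.B_FLD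
import Pool.Agent.Work.MP_680515_fl.B_LPI
import Pool.Agent.Work.MP_680515_fl.B_YNG
import Pool.Agent.Work.MP_680515_fl.B_SPH
import Pool.Agent.Work.MP_680515_fl.B_BS1
import Pool.Agent.Work.MP_680515_fl.B_BS2
import Pool.Agent.Work.MP_680515_fl.B_BS3
import Pool.Agent.Work.MP_680515_fl.B_ISO
import Pool.Agent.Work.MP_680515_fl.B_CV1
import Pool.Agent.Work.MP_680515_fl.B_POI
import Pool.Agent.Work.MP_680515_fl.B_CV2
import Pool.Agent.Work.MP_680515_fl.B_SHL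
import Pool.Agent.Work.MP_680515_fl.B_LGP
import Pool.Agent.Work.MP_680515_fl.B_ARM
import Pool.Agent.Work.MP_680515_fl.B_CRC
import Pool.Agent.Work.MP_680515_fl.B_IDC
import Pool.Agent.Work.MP_680515_fl.B_PKG
import Pool.Agent.Work.MP_680515_fl.B_E2
import Pool.Agent.Work.MP_680515_fl.B_ENC
import Pool.Agent.Work.MP_680515_fl.B_RNG
import Pool.Agent.Work.MP_680515_fl.B_CRU
import Pool.Agent.Work.MP_680515_fl.B_SHP
import Pool.Agent.Work.MP_680515_fl.B_E3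
import Pool.Agent.Work.MP_680515_fl.B_UCO
import Pool.Agent.Work.MP_680515_fl.B_PT1
import Pool.Agent.Work.MP_680515_fl.B_LGW
import Pool.Agent.Work.MP_680515_fl.B_SEG
import Pool.Agent.Work.MP_680515_fl.B_ONE
import Pool.Agent.Work.MP_680515_fl.B_DEGF
import Pool.Agent.Work.MP_680515_fl.B_SINT
import Pool.Agent.Work.MP_680515_fl.B_INTG
import Pool.Agent.Work.MP_680515_fl.B_POS
import Pool.Agent.Work.MP_680515_fl.B_DEG2
import Pool.Agent.Work.MP_680515_fl.B_DEG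
import Pool.Agent.Work.MP_680515_fl.B_SML
import Pool.Agent.Work.MP_680515_fl.B_NR1
import Pool.Agent.Work.MP_680515_fl.B_RZA
import Pool.Agent.Work.MP_680515_fl.B_SDF
import Pool.Agent.Work.MP_680515_fl.B_FRM
import Pool.Agent.Work.MP_680515_fl.B_SFX
import Pool.Agent.Work.MP_680515_fl.B_CLO
import Pool.Agent.Work.MP_680515_fl.B_PKF
import Pool.Agent.Work.MP_680515_fl.B_FIN
import Pool.Agent.Work.MP_680515_fl.B_ROS
import Pool.Agent.Work.MP_680515_fl.B_MOR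
import Pool.Agent.Work.MP_680515_fl.B_OSL
import Pool.Agent.Work.MP_680515_fl.B_LEB
import Pool.Agent.Work.MP_680515_fl.B_PMN
import Pool.Agent.Work.MP_680515_fl.B_DAE
import Pool.Agent.Work.MP_680515_fl.B_WOP
import Pool.Agent.Work.MP_680515_fl.B_FOP
import Pool.Agent.Work.MP_680515_fl.B_ARE
import Pool.Agent.Work.MP_680515_fl.B_CPI
import Pool.Agent.Work.MP_680515_fl.B_RGC
import Pool.Agent.Work.MP_680515_fl.B_LOE
import Pool.Agent.Work.MP_680515_fl.B_WCN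
import Pool.Agent.Work.MP_680515_fl.B_TPA
import Pool.Agent.Work.MP_680515_fl.B_LDA
import Pool.Agent.Work.MP_680515_fl.B_EQC
import Pool.Agent.Work.MP_680515_fl.B_SQR
import Pool.Agent.Work.MP_680515_fl.B_SEC
import Pool.Agent.Work.MP_680515_fl.B_LDB
import Pool.Agent.Work.MP_680515_fl.B_LDC
import Pool.Agent.Work.MP_680515_fl.B_FI2

/-!
# MP_680515_an: assembly of the theorem on flat branch curves
-/

namespace Pool.Flat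

open Pool.Mart

theorem f_WGC : Stmt_WGC := pf_WGTc

theorem f_LOC : Stmt_LOC :=
  p_LOC pf_LIN4 pf_WIN1

theorem f_CHR : Stmt_CHR :=
  p_CHR pf_MOLL

theorem f_PT2 : Stmt_PT2 :=
  p_PT2 pf_THREE pf_AB pf_STAR pf_QF pf_ENB pf_BAS

theorem f_QGR : Stmt_QGR :=
  p_QGR

theorem f_AGW : Stmt_AGW :=
  p_AGW f_CHR f_PT2 f_QGR

theorem f_OSC : Stmt_OSC :=
  p_OSC

theorem f_SEGC : Stmt_SEGC :=
  p_SEGC

theorem f_ANG : Stmt_ANG :=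
  p_ANG f_AGW f_OSC f_SEGC f_QGR pf_WIN1

theorem f_LINP : Stmt_LINP :=
  p_LINP

theorem f_CONE : Stmt_CONE :=
  p_CONE f_LINP

theorem f_ARX : Stmt_ARX :=
  p_ARX

theorem f_WIN : Stmt_WIN :=
  p_WIN f_LINP f_CONE f_ARX

theorem f_I0X : Stmt_I0X :=
  p_I0X

theorem f_SRC : Stmt_SRC :=
  p_SRC f_I0X

theorem f_E1 : Stmt_E1 :=
  p_E1 f_LINP f_ARX

theorem f_LQP : Stmt_LQP :=
  p_LQP f_E1

theorem f_GL3 : Stmt_GL3 :=
  p_GL3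

theorem f_CTM : Stmt_CTM :=
  p_CTM

theorem f_GL1 : Stmt_GL1 :=
  p_GL1

theorem f_GL2 : Stmt_GL2 :=
  p_GL2 f_GL1

theorem f_FLD : Stmt_FLD :=
  p_FLD f_GL1 f_GL2 f_GL3

theorem f_LPI : Stmt_LPI :=
  p_LPI pf_PIOW pf_PIOI

theorem f_YNG : Stmt_YNG :=
  p_YNG

theorem f_SPH : Stmt_SPH :=
  p_SPH pf_CYLM

theorem f_BS1 : Stmt_BS1 :=
  p_BS1

theorem f_BS2 : Stmt_BS2 :=
  p_BS2 f_BS1

theorem f_BS3 : Stmt_BS3 :=
  p_BS3 f_BS1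

theorem f_ISO : Stmt_ISO :=
  p_ISO

theorem f_CV1 : Stmt_CV1 :=
  p_CV1 f_SPH f_BS1 f_BS2 f_BS3 f_ISO

theorem f_POI : Stmt_POI :=
  p_POI

theorem f_CV2 : Stmt_CV2 :=
  p_CV2 f_SPH f_POI f_I0X f_BS1 f_BS2 f_BS3 f_ISO

theorem f_SHL : Stmt_SHL :=
  p_SHL f_SRC f_LQP f_GL3 f_CTM f_FLD f_LPI f_YNG f_CV1 f_CV2 f_I0X pf_BAS pf_PIOI

theorem f_LGP : Stmt_LGP :=
  p_LGP

theorem f_ARM : Stmt_ARM :=
  p_ARM f_SHL f_LGP f_ARX f_LINP f_CV2 f_I0X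

theorem f_CRC : Stmt_CRC :=
  p_CRC f_E1

theorem f_IDC : Stmt_IDC :=
  p_IDC pf_PIOW pf_PIOI pf_RADF pf_RINT

theorem f_PKG : Stmt_PKG :=
  p_PKG

theorem f_E2 : Stmt_E2 :=
  p_E2 f_ARX f_PKG

theorem f_ENC : Stmt_ENC :=
  p_ENC f_E1 f_E2 pf_PIOI

theorem f_RNG : Stmt_RNG :=
  p_RNG f_IDC f_ENC f_E1 pf_THREE pf_PIOI pf_ENB pf_BAS

theorem f_CRU : Stmt_CRU :=
  p_CRU f_WIN f_ARM f_CRC f_RNG

theorem f_SHP : Stmt_SHP :=
  p_SHP f_E2 f_WIN f_ARM f_RNG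

theorem f_E3 : Stmt_E3 :=
  p_E3 f_E1 f_E2 f_PKG

theorem f_UCO : Stmt_UCO :=
  p_UCO f_E1 f_E3

theorem f_PT1 : Stmt_PT1 :=
  p_PT1 pf_THREE pf_AB pf_BAS

theorem f_LGW : Stmt_LGW :=
  p_LGW f_CHR f_PT1 pf_THREE

theorem f_SEG : Stmt_SEG :=
  p_SEG

theorem f_ONE : Stmt_ONE :=
  p_ONE f_UCO f_LGW f_SEG f_OSC

theorem f_DEGF : Stmt_DEGF :=
  p_DEGF pf_PIOW pf_PIOI

theorem f_SINT : Stmt_SINT :=
  p_SINT f_DEGF

theorem f_INTG : Stmt_INTG :=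
  p_INTG f_DEGF f_SINT pf_MOLL pf_PIOI

theorem f_POS : Stmt_POS :=
  p_POS f_INTG f_OSC

theorem f_DEG2 : Stmt_DEG2 :=
  p_DEG2 f_INTG f_POS pf_PIOI

theorem f_DEG : Stmt_DEG :=
  p_DEG f_DEG2 pf_FLC pf_FLK pf_PIOW pf_PIOI pf_RADF pf_RINT

theorem f_SML : Stmt_SML :=
  p_SML f_CRU f_SHP f_ONE f_DEG pf_THREE

theorem f_NR1 : Stmt_NR1 :=
  p_NR1 f_SML f_ONE

theorem f_RZA : Stmt_RZA :=
  p_RZA

theorem f_SDF : Stmt_SDF :=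
  p_SDF pf_ROT pf_CHV pf_THREE

theorem f_FRM : Stmt_FRM :=
  p_FRM

theorem f_SFX : Stmt_SFX :=
  p_SFX f_NR1 f_RZA f_E3 f_SML f_SDF f_FRM f_WGC pf_ROT pf_CHV

theorem f_CLO : Stmt_CLO :=
  p_CLO f_ANG f_SFX pf_WIN1 pf_CHV

theorem f_PKF : Stmt_PKF :=
  p_PKF f_CLO f_LINP f_FRM

theorem f_FIN : Stmt_FinalFB :=
  p_FIN f_LOC f_PKF pf_END

theorem f_ROS : Stmt_ROS :=
  p_ROS f_SPH

theorem f_MOR : Stmt_MOR :=
  p_MOR f_ROS f_I0X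

theorem f_OSL : Stmt_OSL :=
  p_OSL f_MOR f_SPH pf_MOLL

theorem f_LEB : Stmt_LEB :=
  p_LEB

theorem f_PMN : Stmt_PMN :=
  p_PMN pf_MOLL

theorem f_DAE : Stmt_DAE :=
  p_DAE f_OSL f_LEB f_PMN

theorem f_WOP : Stmt_WOP :=
  p_WOP

theorem f_FOP : Stmt_FOP :=
  p_FOP f_WOP

theorem f_ARE : Stmt_ARE :=
  p_ARE f_DAE f_WOP f_FOP

theorem f_CPI : Stmt_CPI :=
  p_CPI f_OSL f_ARE f_FOP

theorem f_RGC : Stmt_RGC :=
  p_RGC f_CPI pf_RINT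

theorem f_LOE : Stmt_LOE :=
  p_LOE f_RGC

theorem f_WCN : Stmt_WCN :=
  p_WCN f_WOP

theorem f_TPA : Stmt_TPA :=
  p_TPA f_WOP f_WCN

theorem f_LDA : Stmt_LDA :=
  p_LDA f_LOE f_TPA f_FOP

theorem f_EQC : Stmt_EQC :=
  p_EQC f_CPI f_LDA f_FOP

theorem f_SQR : Stmt_SQR :=
  p_SQR

theorem f_SEC : Stmt_SEC :=
  p_SEC f_SQR f_WOP f_FOP

theorem f_LDB : Stmt_LDB :=
  p_LDB f_LDA f_EQC f_SEC f_LOE f_TPA f_FOP

theorem f_LDC : Stmt_LDC :=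
  p_LDC f_LDA f_LDB

theorem f_FI2 : Stmt_FinalFC :=
  p_FI2 f_FIN f_LDC pf_LIN4

end Pool.Flat
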