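import Pool.Agent.Work.MP_680515_fl.Iface5

/-!
# Block BTU: bounded turning of the branch curve
-/

open MeasureTheory Set Filter Topology

namespace Pool.Flat

open Pool.Mart

theorem BTU_pow {j k : ℕ} (h : j < k) : (4 : ℝ) * 4 ^ j ≤ 4 ^ k := by
  rw [← pow_succ']
  exact pow_le_pow_right₀ (by norm_num) h

theorem BTU_core (ψ : OpenPartialHomeomorph E3 E3) (x0 : E3) (H R' : ℝ) (hH : 1 ≤ H)
    (hsub : Metric.ball x0 R' ⊆ ψ.source)
    (hq : ∀ z ∈ Metric.ball x0 R', ∀ x ∈ Metric.ball x0 R', ∀ y ∈ Metric.ball x0 R',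
      ‖x - z‖ ≤ ‖y - z‖ → ‖ψ x - ψ z‖ ≤ H * ‖ψ y - ψ z‖) (P : ℕ)
    (hP : ∀ (n : ℕ) (z : Fin n → E3), (∀ i, ‖z i‖ ≤ H) →
      (∀ i j, i ≠ j → 1 / H ^ 2 ≤ ‖z i - z j‖) → n ≤ P)
    (z x y : E3) (hz : z ∈ Metric.ball x0 R') (hx : x ∈ Metric.ball x0 R')
    (hy : y ∈ Metric.ball x0 R') (hle : ‖ψ x - ψ z‖ ≤ ‖ψ y - ψ z‖) :
    ‖x - z‖ ≤ 4 ^ P * ‖y - z‖ := by
  by_contra hcon
  push Not at hcon
  have hH0 : 0 < H := by linarith
  have hpos : 0 ≤ (4 : ℝ) ^ P * ‖y - z‖ := by positivity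
  have hD0 : 0 < ‖x - z‖ := lt_of_le_of_lt hpos hcon
  have hxz : x ≠ z := sub_ne_zero.1 (norm_pos_iff.1 hD0)
  have hN0 : 0 < ‖ψ x - ψ z‖ := by
    rw [norm_pos_iff, sub_ne_zero]
    intro h
    exact hxz (ψ.injOn (hsub hx) (hsub hz) h)
  have hyz : y ≠ z := by
    intro h
    rw [h, sub_self, norm_zero] at hle
    linarith
  have hd0 : 0 < ‖y - z‖ := norm_pos_iff.2 (sub_ne_zero.2 hyz)
  obtain ⟨D, hD⟩ : ∃ D, D = ‖x - z‖ := ⟨_, rfl⟩
  obtain ⟨d, hd⟩ : ∃ d, d = ‖y - z‖ := ⟨_, rfl⟩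
  obtain ⟨N, hN⟩ : ∃ N, N = ‖ψ x - ψ z‖ := ⟨_, rfl⟩
  rw [← hD] at hcon hD0
  rw [← hd] at hcon hd0
  rw [← hN] at hle hN0
  obtain ⟨q, hqd⟩ : ∃ q : ℕ → E3, q = fun j => z + (4 ^ j * d / D) • (x - z) := ⟨_, rfl⟩
  have hqz : ∀ j, ‖q j - z‖ = 4 ^ j * d := by
    intro j
    rw [hqd]
    simp only
    rw [add_sub_cancel_left, norm_smul, Real.norm_of_nonneg (by positivity), ← hD]
    field_simp
  have hqq : ∀ j k, j < k → ‖q k - q j‖ = 4 ^ k * d - 4 ^ j * d := by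
    intro j k hjk
    have h1 := BTU_pow hjk
    have h2 : (0 : ℝ) < 4 ^ j := by positivity
    rw [hqd]
    simp only
    rw [add_sub_add_left_eq_sub, ← sub_smul, norm_smul, ← hD, Real.norm_of_nonneg]
    · field_simp
    · rw [← sub_div]
      apply div_nonneg _ hD0.le
      nlinarith
  have h4le : ∀ j, j ≤ P → (4 : ℝ) ^ j * d ≤ D := by
    intro j hj
    have h1 : (4 : ℝ) ^ j ≤ 4 ^ P := pow_le_pow_right₀ (by norm_num) hj
    nlinarith
  have hqb : ∀ j, j ≤ P → q j ∈ Metric.ball x0 R' := by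
    intro j hj
    have h1 : 4 ^ j * d / D ∈ Icc (0 : ℝ) 1 := by
      constructor
      · positivity
      · rw [div_le_one hD0]
        exact h4le j hj
    rw [hqd]
    exact (convex_ball x0 R').add_smul_sub_mem hz hx h1
  have e1 : ∀ j, j ≤ P → N ≤ H * ‖ψ (q j) - ψ z‖ := by
    intro j hj
    refine hle.trans (hq z hz y hy (q j) (hqb j hj) ?_)
    rw [hqz, ← hd]
    have h1 : (1 : ℝ) ≤ 4 ^ j := one_le_pow₀ (by norm_num)
    nlinarith
  have e2 : ∀ j k, j < k → k ≤ P → ‖ψ z - ψ (q j)‖ ≤ H * ‖ψ (q k) - ψ (q j)‖ := by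
    intro j k hjk hk
    refine hq (q j) (hqb j (by omega)) z hz (q k) (hqb k hk) ?_
    rw [hqq j k hjk, norm_sub_rev, hqz]
    have h1 := BTU_pow hjk
    have h2 : (0 : ℝ) < 4 ^ j := by positivity
    nlinarith
  have e3 : ∀ j, j ≤ P → ‖ψ (q j) - ψ z‖ ≤ H * N := by
    intro j hj
    rw [hN]
    refine hq z hz (q j) (hqb j hj) x hx ?_
    rw [hqz, ← hD]
    exact h4le j hj
  have e4 : ∀ j k, j < k → k ≤ P → 1 / H ^ 2 ≤ ‖N⁻¹ • (ψ (q k) - ψ z) - N⁻¹ • (ψ (q j) - ψ z)‖ := by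
    intro j k hjk hk
    rw [← smul_sub, sub_sub_sub_cancel_right, norm_smul, Real.norm_of_nonneg (by positivity),
      div_le_iff₀ (by positivity)]
    have h1 := e1 j (by omega)
    have h2 := e2 j k hjk hk
    rw [norm_sub_rev] at h2
    have h3 : N ≤ H ^ 2 * ‖ψ (q k) - ψ (q j)‖ := by
      calc N ≤ H * ‖ψ (q j) - ψ z‖ := h1
        _ ≤ H * (H * ‖ψ (q k) - ψ (q j)‖) := mul_le_mul_of_nonneg_left h2 hH0.le
        _ = H ^ 2 * ‖ψ (q k) - ψ (q j)‖ := by ring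
    calc (1 : ℝ) = N⁻¹ * N := (inv_mul_cancel₀ hN0.ne').symm
      _ ≤ N⁻¹ * (H ^ 2 * ‖ψ (q k) - ψ (q j)‖) := mul_le_mul_of_nonneg_left h3 (by positivity)
      _ = N⁻¹ * ‖ψ (q k) - ψ (q j)‖ * H ^ 2 := by ring
  have h := hP (P + 1) (fun i => N⁻¹ • (ψ (q i) - ψ z)) ?_ ?_
  · omega
  · intro i
    have hi : (i : ℕ) ≤ P := by omega
    rw [norm_smul, Real.norm_of_nonneg (by positivity)]
    calc N⁻¹ * ‖ψ (q i) - ψ z‖ ≤ N⁻¹ * (H * N) :=
          mul_le_mul_of_nonneg_left (e3 i hi) (by positivity)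
      _ = H := by field_simp
  · intro i j hij
    have hij' : (i : ℕ) ≠ (j : ℕ) := fun h => hij (Fin.ext h)
    rcases lt_or_gt_of_ne hij' with h | h
    · rw [norm_sub_rev]
      exact e4 i j h (by omega)
    · exact e4 j i h (by omega)

theorem p_BTU (hPSQ : Stmt_PSQ) (hPKG : Stmt_PKG) : Stmt_BTU := by
  intro ψ B x0 hψ hx0
  obtain ⟨H, R', hH, hR', hsub, hq⟩ := hPSQ ψ B x0 hψ hx0.1
  have hH0 : 0 < H := by linarith
  obtain ⟨P, hP⟩ := hPKG H (1 / H ^ 2) (by positivity)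
  refine ⟨4 ^ P, R', one_le_pow₀ (by norm_num), hR', ?_⟩
  intro a ha hball s hs t ht u hu hst htu
  have hval : ∀ t ∈ Icc (-2 : ℝ) 2, ψ (axc ψ x0 a t) = ψ x0 + (a * t) • e3 := by
    intro t ht
    unfold axc
    exact ψ.right_inv (hball t ht).1
  have hdist : ∀ t ∈ Icc (-2 : ℝ) 2, ∀ t' ∈ Icc (-2 : ℝ) 2,
      ‖ψ (axc ψ x0 a t) - ψ (axc ψ x0 a t')‖ = a * |t - t'| * ‖e3‖ := by
    intro t ht t' ht'
    rw [hval t ht, hval t' ht', add_sub_add_left_eq_sub, ← sub_smul, norm_smul, ← mul_sub,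
      Real.norm_eq_abs, abs_mul, abs_of_pos ha]
  constructor
  · refine BTU_core ψ x0 H R' hH hsub hq P hP _ _ _ (hball s hs).2 (hball t ht).2
      (hball u hu).2 ?_
    rw [hdist t ht s hs, hdist u hu s hs, abs_of_nonneg (by linarith), abs_of_nonneg (by linarith)]
    have h1 : a * (t - s) ≤ a * (u - s) := mul_le_mul_of_nonneg_left (by linarith) ha.le
    exact mul_le_mul_of_nonneg_right h1 (norm_nonneg _)
  · rw [norm_sub_rev (axc ψ x0 a u) (axc ψ x0 a t), norm_sub_rev (axc ψ x0 a u) (axc ψ x0 a s)]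
    refine BTU_core ψ x0 H R' hH hsub hq P hP _ _ _ (hball u hu).2 (hball t ht).2
      (hball s hs).2 ?_
    rw [hdist t ht u hu, hdist s hs u hu, abs_sub_comm t u, abs_sub_comm s u,
      abs_of_nonneg (by linarith), abs_of_nonneg (by linarith)]
    have h1 : a * (u - t) ≤ a * (u - s) := mul_le_mul_of_nonneg_left (by linarith) ha.le
    exact mul_le_mul_of_nonneg_right h1 (norm_nonneg _)

end Pool.Flat
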