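import Pool.Agent.Work.MP_680515_fl.Iface5

/-! # Block CNQ: multiplicity -/

open MeasureTheory Set Filter Topology

namespace Pool.Flat

open Pool.Mart

theorem p_CNQ (hPKG : Stmt_PKG) : Stmt_CNQ := by
  intro C τ hC hτ
  have hC0 : 0 < C := by linarith
  obtain ⟨P, hP⟩ := hPKG C (τ / C) (div_pos hτ hC0)
  refine ⟨P + 1, ?_⟩
  intro Γ ρ n a b y hBT hρ hab hord hlen hdist
  by_cases hn : n ≤ 1
  · omega
  have hmem : ∀ i < n, a i ∈ Icc (-2 : ℝ) 2 ∧ y i ∈ Icc (-2 : ℝ) 2 ∧ b i ∈ Icc (-2 : ℝ) 2 := by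
    intro i hi
    obtain ⟨h1, h2, h3, h4, h5⟩ := hab i hi
    exact ⟨⟨by linarith, by linarith⟩, ⟨by linarith, by linarith⟩, ⟨by linarith, by linarith⟩⟩
  have hy0 : ∀ i, 0 < i → i < n → y 0 ≤ a i := by
    intro i hi hin
    exact (hab 0 (by omega)).2.2.1.trans (hord 0 i hi hin)
  have hyn : ∀ i, i < n → a i ≤ y (n - 1) := by
    intro i hin
    by_cases h : i = n - 1
    · rw [h]
      exact (hab (n - 1) (by omega)).2.1
    · have h1 := hord i (n - 1) (by omega) (by omega)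
      have h2 := hab i hin
      have h3 := (hab (n - 1) (by omega)).2.1
      linarith [h2.2.2.2.2]
  have key := hP (n - 1) (fun i : Fin (n - 1) => ρ⁻¹ • (Γ (a ((i : ℕ) + 1)) - Γ (y 0))) ?_ ?_
  · omega
  · intro i
    have hi : (i : ℕ) + 1 < n := by
      have := i.2
      omega
    have h1 := (hBT (y 0) (hmem 0 (by omega)).2.1 (a ((i : ℕ) + 1)) (hmem _ hi).1 (y (n - 1))
      (hmem (n - 1) (by omega)).2.1 (hy0 _ (by omega) hi) (hyn _ hi)).1
    have h2 := hdist (n - 1) (by omega) 0 (by omega)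
    change ‖ρ⁻¹ • (Γ (a ((i : ℕ) + 1)) - Γ (y 0))‖ ≤ C
    rw [norm_smul, norm_inv, Real.norm_of_nonneg hρ.le, inv_mul_le_iff₀ hρ]
    calc ‖Γ (a ((i : ℕ) + 1)) - Γ (y 0)‖ ≤ C * ‖Γ (y (n - 1)) - Γ (y 0)‖ := h1
      _ ≤ C * ρ := by gcongr
      _ = ρ * C := mul_comm _ _
  · have hlt : ∀ i j : Fin (n - 1), (i : ℕ) < j →
        τ / C ≤ ‖ρ⁻¹ • (Γ (a ((i : ℕ) + 1)) - Γ (y 0)) - ρ⁻¹ • (Γ (a ((j : ℕ) + 1)) - Γ (y 0))‖ := by
      intro i j hij
      have hi : (i : ℕ) + 1 < n := by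
        have := i.2
        omega
      have hj : (j : ℕ) + 1 < n := by
        have := j.2
        omega
      have h1 := (hBT (a ((i : ℕ) + 1)) (hmem _ hi).1 (b ((i : ℕ) + 1)) (hmem _ hi).2.2
        (a ((j : ℕ) + 1)) (hmem _ hj).1 (hab _ hi).2.2.2.2.le
        (hord _ _ (by omega) hj)).1
      have h2 := hlen _ hi
      rw [← smul_sub, norm_smul, norm_inv, Real.norm_of_nonneg hρ.le, sub_sub_sub_cancel_right,
        norm_sub_rev, div_le_iff₀ hC0]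
      have h3 : τ * ρ ≤ C * ‖Γ (a ((j : ℕ) + 1)) - Γ (a ((i : ℕ) + 1))‖ := h2.trans h1
      have h4 : τ ≤ ρ⁻¹ * (C * ‖Γ (a ((j : ℕ) + 1)) - Γ (a ((i : ℕ) + 1))‖) := by
        rw [le_inv_mul_iff₀ hρ, mul_comm]
        exact h3
      calc τ ≤ _ := h4
        _ = _ := by ring
    intro i j hij
    rcases lt_or_gt_of_ne (fun h => hij (Fin.ext h) : (i : ℕ) ≠ j) with h | h
    · exact hlt i j h
    · rw [norm_sub_rev]
      exact hlt j i h

end Pool.Flat
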