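import Pool.Agent.Work.MP_680515_fl.Iface1

/-!
# Block CONE: drift of the direction of the chords
-/

open Set

namespace Pool.Flat

open Pool.Mart

theorem CONE_un (a b : E3) (ha : a ≠ 0) (hb : b ≠ 0) : ‖un a - un b‖ ≤ 2 * ‖a - b‖ / ‖b‖ := by
  have ha' : 0 < ‖a‖ := norm_pos_iff.2 ha
  have hb' : 0 < ‖b‖ := norm_pos_iff.2 hb
  have h1 : un a - un b = (‖a‖⁻¹ - ‖b‖⁻¹) • a + ‖b‖⁻¹ • (a - b) := by
    unfold un
    rw [sub_smul, smul_sub]
    abel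
  have h2 : ‖(‖a‖⁻¹ - ‖b‖⁻¹) • a‖ ≤ ‖a - b‖ / ‖b‖ := by
    rw [norm_smul, Real.norm_eq_abs]
    have h3 : |‖a‖⁻¹ - ‖b‖⁻¹| * ‖a‖ = |‖b‖ - ‖a‖| / ‖b‖ := by
      have h4 : ‖a‖⁻¹ - ‖b‖⁻¹ = (‖b‖ - ‖a‖) / (‖a‖ * ‖b‖) := by
        field_simp
      rw [h4, abs_div, abs_of_pos (mul_pos ha' hb')]
      field_simp
    rw [h3]
    have h5 : |‖b‖ - ‖a‖| ≤ ‖a - b‖ := by
      rw [norm_sub_rev]
      exact abs_norm_sub_norm_le b a
    exact div_le_div_of_nonneg_right h5 hb'.le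
  have h6 : ‖‖b‖⁻¹ • (a - b)‖ = ‖a - b‖ / ‖b‖ := by
    rw [norm_smul, norm_inv, norm_norm]
    field_simp
  rw [h1]
  calc _ ≤ ‖(‖a‖⁻¹ - ‖b‖⁻¹) • a‖ + ‖‖b‖⁻¹ • (a - b)‖ := norm_add_le _ _
    _ ≤ ‖a - b‖ / ‖b‖ + ‖a - b‖ / ‖b‖ := by rw [h6]; linarith
    _ = 2 * ‖a - b‖ / ‖b‖ := by ring

theorem CONE_smul (c : ℝ) (hc : c ≠ 0) (b : E3) : un (c • b) = (c / |c|) • un b := by
  unfold un
  rw [norm_smul, Real.norm_eq_abs, smul_smul, smul_smul]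
  congr 1
  have : 0 < |c| := abs_pos.2 hc
  rw [mul_inv]
  field_simp

theorem CONE_base (hLINP : Stmt_LINP) (ε : ℝ) (γ : ℝ → E3) (h0 : 0 ≤ ε) (h1 : ε ≤ 1 / 1000)
    (hN : NearLin ε γ 2 1) (t : ℝ) (ht : t ∈ Icc (-1 : ℝ) 1) (s2 s : ℝ) (hs2 : 0 < s2) (hs21 : s2 ≤ 1)
    (hs : s2 / 2 ≤ |s|) (hs' : |s| ≤ s2) :
    ‖un (cv γ t s) - (s / |s|) • un (cv γ t s2)‖ ≤ 16 * ε := by
  have hspos : 0 < |s| := by linarith
  have hsne : s ≠ 0 := abs_pos.1 hspos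
  have ht2 : t ∈ Icc (-2 : ℝ) 2 := ⟨by linarith [ht.1], by linarith [ht.2]⟩
  have hmem : ∀ r : ℝ, |r| ≤ 1 → t + r ∈ Icc (-2 : ℝ) 2 := by
    intro r hr
    rw [abs_le] at hr
    exact ⟨by linarith [ht.1, hr.1], by linarith [ht.2, hr.2]⟩
  have habs2 : |s2| = s2 := abs_of_pos hs2
  obtain ⟨h2, h3⟩ := hLINP ε γ h0 h1 hN t ht2 s2 hs2.ne' (by rw [habs2]; exact hs21) (hmem s2 (by rw [habs2]; exact hs21))
  obtain ⟨h4, -⟩ := hLINP ε γ h0 h1 hN t ht2 s hsne (hs'.trans hs21) (hmem s (hs'.trans hs21))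
  have h5 := h3 s (by rw [habs2]; exact hs') (hmem s (hs'.trans hs21))
  have hc : s / s2 ≠ 0 := div_ne_zero hsne hs2.ne'
  have hcs : (s / s2) / |s / s2| = s / |s| := by
    rw [abs_div, habs2]
    field_simp
  have hb : (s / s2) • cv γ t s2 ≠ 0 := smul_ne_zero hc (norm_pos_iff.1 h2)
  have h6 := CONE_un (cv γ t s) ((s / s2) • cv γ t s2) (norm_pos_iff.1 h4) hb
  rw [CONE_smul _ hc, hcs] at h6
  refine h6.trans ?_
  have h7 : ‖(s / s2) • cv γ t s2‖ = |s| / s2 * ‖cv γ t s2‖ := by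
    rw [norm_smul, Real.norm_eq_abs, abs_div, habs2]
  have h8 : 1 / 2 * ‖cv γ t s2‖ ≤ ‖(s / s2) • cv γ t s2‖ := by
    rw [h7]
    refine mul_le_mul_of_nonneg_right ?_ h2.le
    rw [le_div_iff₀ hs2]
    linarith
  rw [div_le_iff₀ (norm_pos_iff.2 hb)]
  nlinarith [mul_le_mul_of_nonneg_left h8 h0]

theorem p_CONE (hLINP : Stmt_LINP) : Stmt_CONE := by
  intro ε γ h0 h1 hN t ht s2 k
  induction k generalizing s2 with
  | zero =>
    intro s hs2 hs21 hs hs'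
    have := CONE_base hLINP ε γ h0 h1 hN t ht s2 s hs2 hs21 (by simp at hs; linarith) hs'
    refine this.trans ?_
    norm_num
    linarith
  | succ k ih =>
    intro s hs2 hs21 hs hs'
    rcases le_or_gt (s2 / 2) |s| with h | h
    · refine (CONE_base hLINP ε γ h0 h1 hN t ht s2 s hs2 hs21 h hs').trans ?_
      have hk : (0 : ℝ) ≤ k := Nat.cast_nonneg k
      push_cast
      nlinarith [mul_nonneg hk h0]
    · have h2 := ih (s2 / 2) s (by linarith) (by linarith) (by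
        refine le_trans (le_of_eq ?_) hs
        rw [pow_succ]
        ring) h.le
      have hspos : 0 < |s| := lt_of_lt_of_le (by positivity) hs
      have hs2' : |s2 / 2| = s2 / 2 := abs_of_pos (by linarith)
      have h3 := CONE_base hLINP ε γ h0 h1 hN t ht s2 (s2 / 2) hs2 hs21 (by rw [hs2']) (by rw [hs2']; linarith)
      have h4 : s2 / 2 / |s2 / 2| = 1 := by rw [hs2']; exact div_self (by linarith)
      rw [h4, one_smul] at h3
      have h5 : un (cv γ t s) - (s / |s|) • un (cv γ t s2) =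
          (un (cv γ t s) - (s / |s|) • un (cv γ t (s2 / 2))) +
            (s / |s|) • (un (cv γ t (s2 / 2)) - un (cv γ t s2)) := by
        rw [smul_sub]; abel
      have h6 : ‖(s / |s|) • (un (cv γ t (s2 / 2)) - un (cv γ t s2))‖ ≤ 16 * ε := by
        rw [norm_smul, Real.norm_eq_abs, abs_div, abs_abs, div_self hspos.ne', one_mul]
        exact h3
      rw [h5]
      refine (norm_add_le _ _).trans ?_
      push_cast
      nlinarith

end Pool.Flat
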