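import Pool.Agent.Work.MP_680515_fl.Iface5

/-!
# Block CPG: capacity inequality for energy maps
-/

open MeasureTheory Set Filter Topology

namespace Pool.Flat

open Pool.Mart

theorem CPG_gradv_continuous (Φ : E3 → ℝ) (hΦ : ContDiff ℝ 1 Φ) : Continuous (gradv Φ) := by
  have h1 : Continuous (fderiv ℝ Φ) := hΦ.continuous_fderiv one_ne_zero
  unfold gradv
  apply (PiLp.continuous_toLp 2 _).comp
  apply continuous_pi
  intro j
  exact h1.clm_apply continuous_const

theorem CPG_gradv_compact (Φ : E3 → ℝ) (hc : HasCompactSupport Φ) :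
    HasCompactSupport (gradv Φ) := by
  have h1 : HasCompactSupport (fderiv ℝ Φ) := hc.fderiv ℝ
  have h2 : gradv Φ = (fun L : E3 →L[ℝ] ℝ => (WithLp.toLp 2
      (fun j : Fin 3 => L (EuclideanSpace.single j 1)) : E3)) ∘ (fderiv ℝ Φ) := by
    funext x; rfl
  rw [h2]
  apply h1.comp_left
  ext j
  simp

/-- Capacity inequality for energy maps. -/
theorem p_CPG (hOSL : Stmt_OSL) : Stmt_CPG := by
  obtain ⟨C, hC, hO⟩ := hOSL
  refine ⟨C, hC, ?_⟩
  intro C0 Ω f A Φ c ρ1 ρ2 δ hC0 hE hΦ hΦc hρ1 hρ12 hring hδ hosc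
  obtain ⟨hint, hle⟩ := hO Ω f A Φ c ρ1 ρ2 δ hE.op hE.cont hE.wg hΦ hρ1 hρ12 hring hδ hosc
  refine hle.trans ?_
  rw [mul_assoc]
  apply mul_le_mul_of_nonneg_left _ hC.le
  have hrg : rg c ρ1 ρ2 ⊆ Ω := by
    intro x hx
    exact hring ⟨hx.1.le, hx.2.le⟩
  set F : E3 → ℝ := fun x => (opn (A x) * ‖gradv Φ (f x)‖) ^ 3 with hF
  have hopn : ∀ B : M3, 0 ≤ opn B := fun B => norm_nonneg _
  have hF0 : ∀ x, 0 ≤ F x := fun x => by
    rw [hF]; exact pow_nonneg (mul_nonneg (hopn _) (norm_nonneg _)) 3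
  have hG : Continuous (gradv Φ) := CPG_gradv_continuous Φ hΦ
  set g : E3 → ℝ := fun y => ‖gradv Φ y‖ ^ 3 with hg
  have hgc : Continuous g := (hG.norm).pow 3
  have hgs : HasCompactSupport g := by
    have := (CPG_gradv_compact Φ hΦc).comp_left (g := fun v : E3 => ‖v‖ ^ 3) (by simp)
    exact this
  have hgi : Integrable g := hgc.integrable_of_hasCompactSupport hgs
  have hg0 : ∀ y, 0 ≤ g y := fun y => by rw [hg]; positivity
  have hmain : ∫⁻ x in rg c ρ1 ρ2, ENNReal.ofReal (F x) ≤ ENNReal.ofReal (C0 * ∫ y, g y) := by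
    calc ∫⁻ x in rg c ρ1 ρ2, ENNReal.ofReal (F x)
        = ∫⁻ x in rg c ρ1 ρ2, (ENNReal.ofReal (opn (A x) ^ 3) *
            ENNReal.ofReal (g (f x))) := by
          apply lintegral_congr
          intro x
          rw [hF, hg]
          simp only
          rw [mul_pow, ENNReal.ofReal_mul (pow_nonneg (hopn _) 3)]
      _ ≤ ∫⁻ x in Ω, (ENNReal.ofReal (opn (A x) ^ 3) *
            ENNReal.ofReal (g (f x))) := lintegral_mono_set hrg
      _ ≤ ENNReal.ofReal C0 * ∫⁻ y, ENNReal.ofReal (g y) :=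
          hE.en (fun y => ENNReal.ofReal (g y)) (ENNReal.measurable_ofReal.comp hgc.measurable)
      _ = ENNReal.ofReal (C0 * ∫ y, g y) := by
          rw [← ofReal_integral_eq_lintegral_ofReal hgi (Eventually.of_forall hg0),
            ENNReal.ofReal_mul hC0]
  have hI0 : 0 ≤ C0 * ∫ y, g y := mul_nonneg hC0 (integral_nonneg hg0)
  calc ∫ x in rg c ρ1 ρ2, F x
      = (∫⁻ x in rg c ρ1 ρ2, ENNReal.ofReal (F x)).toReal :=
        integral_eq_lintegral_of_nonneg_ae (Eventually.of_forall hF0) hint.aestronglyMeasurable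
    _ ≤ (ENNReal.ofReal (C0 * ∫ y, g y)).toReal :=
        ENNReal.toReal_mono ENNReal.ofReal_ne_top hmain
    _ = C0 * ∫ y, g y := ENNReal.toReal_ofReal hI0

end Pool.Flat
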