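import Pool.Agent.Work.MP_680515_fl.Iface1
import Pool.Agent.Work.MP_680515_an.B.RADF

open MeasureTheory Set Filter Topology

namespace Pool.Flat

open Pool.Mart

theorem DEG_cpair_smul (A : M3) (H b : E3) (c : ℝ) :
    cpair A H (c • b) = c * cpair A H b := by
  unfold cpair
  rw [Finset.mul_sum]
  refine Finset.sum_congr rfl fun i _ => ?_
  rw [Finset.mul_sum]
  refine Finset.sum_congr rfl fun j _ => ?_
  have : (c • b) j = c * b j := by simp
  rw [this]
  ring

/-- a smooth step from `0` (`r ≤ a`) to `1` (`b ≤ r`) -/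
noncomputable def DEG_st (a b r : ℝ) : ℝ := Real.smoothTransition ((r - a) / (b - a))

theorem DEG_st_smooth (a b : ℝ) : ContDiff ℝ 1 (DEG_st a b) := by
  have h : ContDiff ℝ 1 fun r : ℝ => (r - a) / (b - a) :=
    (contDiff_id.sub contDiff_const).div_const _
  exact Real.smoothTransition.contDiff.comp h

theorem DEG_st_zero {a b r : ℝ} (hab : a < b) (hr : r ≤ a) : DEG_st a b r = 0 :=
  Real.smoothTransition.zero_of_nonpos (div_nonpos_of_nonpos_of_nonneg (by linarith) (by linarith))

theorem DEG_st_one {a b r : ℝ} (hab : a < b) (hr : b ≤ r) : DEG_st a b r = 1 :=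
  Real.smoothTransition.one_of_one_le (by rw [le_div_iff₀ (by linarith)]; linarith)

theorem DEG_st_deriv {a b r : ℝ} (hab : a < b) (hr : r < a ∨ b < r) : deriv (DEG_st a b) r = 0 := by
  rcases hr with hr | hr
  · have h : DEG_st a b =ᶠ[𝓝 r] fun _ => 0 := by
      filter_upwards [Iio_mem_nhds hr] with x hx
      exact DEG_st_zero hab (le_of_lt hx)
    rw [h.deriv_eq]
    simp
  · have h : DEG_st a b =ᶠ[𝓝 r] fun _ => 1 := by
      filter_upwards [Ioi_mem_nhds hr] with x hx
      exact DEG_st_one hab (le_of_lt hx)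
    rw [h.deriv_eq]
    simp

theorem DEG_st_ts {a b : ℝ} (hab : a < b) : tsupport (deriv (DEG_st a b)) ⊆ Icc a b := by
  refine closure_minimal (fun r hr => ?_) isClosed_Icc
  by_contra hcon
  apply hr
  refine DEG_st_deriv hab ?_
  rw [mem_Icc, not_and_or, not_le, not_le] at hcon
  exact hcon

theorem DEG_st_cs {a b : ℝ} (hab : a < b) : HasCompactSupport (deriv (DEG_st a b)) :=
  isCompact_Icc.of_isClosed_subset (isClosed_tsupport _) (DEG_st_ts hab)

theorem DEG_st_dc (a b : ℝ) : Continuous (deriv (DEG_st a b)) :=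
  (DEG_st_smooth a b).continuous_deriv le_rfl

theorem DEG_st_int {a b : ℝ} (hab : a < b) : ∫ r, deriv (DEG_st a b) r = 1 := by
  have h := integral_of_hasDerivAt_of_tendsto (f := DEG_st a b) (f' := deriv (DEG_st a b))
    (m := 0) (n := 1)
    (fun x => ((DEG_st_smooth a b).differentiable (by norm_num) x).hasDerivAt)
    ((DEG_st_dc a b).integrable_of_hasCompactSupport (DEG_st_cs hab))
    (tendsto_const_nhds.congr' (by
      filter_upwards [Iic_mem_atBot a] with x hx
      exact (DEG_st_zero hab hx).symm))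
    (tendsto_const_nhds.congr' (by
      filter_upwards [Ici_mem_atTop b] with x hx
      exact (DEG_st_one hab hx).symm))
  rw [h]
  norm_num

/-- the field -/
noncomputable def DEG_H (a : ℝ) (q y : E3) : E3 :=
  (DEG_st a (2 * a) ‖y - q‖ * (‖y - q‖ ^ 3)⁻¹) • (y - q)

theorem DEG_H_ev {a : ℝ} (ha : 0 < a) (q : E3) : DEG_H a q =ᶠ[𝓝 q] fun _ => 0 := by
  filter_upwards [Metric.ball_mem_nhds q ha] with y hy
  rw [Metric.mem_ball, dist_eq_norm] at hy
  rw [DEG_H, DEG_st_zero (by linarith) hy.le, zero_mul, zero_smul]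

theorem DEG_H_smooth {a : ℝ} (ha : 0 < a) (q : E3) : ContDiff ℝ 1 (DEG_H a q) := by
  rw [contDiff_iff_contDiffAt]
  intro y
  rcases eq_or_ne y q with rfl | hy
  · exact contDiffAt_const.congr_of_eventuallyEq (DEG_H_ev ha y)
  · have hn : ‖y - q‖ ^ 3 ≠ 0 := pow_ne_zero _ (norm_ne_zero_iff.2 (sub_ne_zero.2 hy))
    have h1 : ContDiffAt ℝ 1 (fun y : E3 => (‖y - q‖ ^ 3)⁻¹) y :=
      ((RADF42_.contDiffAt_nrm hy).pow 3).inv hn
    have h2 : ContDiffAt ℝ 1 (fun y : E3 => DEG_st a (2 * a) ‖y - q‖) y :=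
      (DEG_st_smooth a (2 * a)).contDiffAt.comp y (RADF42_.contDiffAt_nrm hy)
    exact (h2.mul h1).smul (contDiffAt_id.sub contDiffAt_const)

theorem DEG_H_div {a : ℝ} (ha : 0 < a) (q y : E3) :
    divv (DEG_H a q) y = deriv (DEG_st a (2 * a)) ‖y - q‖ * (‖y - q‖ ^ 2)⁻¹ := by
  rcases eq_or_ne y q with rfl | hy
  · have h1 : fderiv ℝ (DEG_H a y) y = 0 := by
      rw [(DEG_H_ev ha y).fderiv_eq]
      simp
    have h2 : divv (DEG_H a y) y = 0 := by
      simp [divv, h1]
    rw [h2]
    simp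
  · have hn : 0 < ‖y - q‖ := norm_pos_iff.2 (sub_ne_zero.2 hy)
    have hd : HasDerivAt (fun r : ℝ => (r ^ 3)⁻¹)
        (-(((3 : ℕ) : ℝ) * ‖y - q‖ ^ (3 - 1)) / (‖y - q‖ ^ 3) ^ 2) ‖y - q‖ :=
      (hasDerivAt_pow 3 ‖y - q‖).inv (by positivity)
    have hs : HasDerivAt (DEG_st a (2 * a)) (deriv (DEG_st a (2 * a)) ‖y - q‖) ‖y - q‖ :=
      ((DEG_st_smooth a (2 * a)).differentiable (by norm_num) _).hasDerivAt
    have hm : HasDerivAt (fun r : ℝ => DEG_st a (2 * a) r * (r ^ 3)⁻¹) _ ‖y - q‖ := hs.mul hd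
    have h3 : divv (DEG_H a q) y =
        divv (fun y : E3 => (fun r : ℝ => DEG_st a (2 * a) r * (r ^ 3)⁻¹) ‖y - q‖ • (y - q)) y := rfl
    rw [h3, RADF42_.divv_rad hy hm]
    field_simp
    push_cast
    ring

theorem DEG_g_cont {a : ℝ} (ha : 0 < a) (q : E3) : Continuous (divv (DEG_H a q)) := by
  have h1 : Continuous (fderiv ℝ (DEG_H a q)) := (DEG_H_smooth ha q).continuous_fderiv (by norm_num)
  unfold divv
  refine continuous_finsetSum _ fun i _ => ?_
  have h2 : Continuous fun y => fderiv ℝ (DEG_H a q) y (EuclideanSpace.single i 1) :=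
    h1.clm_apply continuous_const
  exact (EuclideanSpace.proj i : E3 →L[ℝ] ℝ).continuous.comp h2

theorem DEG_g_zero {a : ℝ} (ha : 0 < a) {q y : E3} (hy : 2 * a < ‖y - q‖) :
    divv (DEG_H a q) y = 0 := by
  rw [DEG_H_div ha, DEG_st_deriv (by linarith) (Or.inr hy), zero_mul]

theorem DEG_g_ts {a : ℝ} (ha : 0 < a) (q : E3) :
    tsupport (divv (DEG_H a q)) ⊆ Metric.closedBall q (2 * a) := by
  refine closure_minimal (fun y hy => ?_) Metric.isClosed_closedBall
  by_contra hcon
  rw [Metric.mem_closedBall, dist_eq_norm, not_le] at hcon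
  exact hy (DEG_g_zero ha hcon)

theorem DEG_g_int (hRINT : Stmt_RINT) {a : ℝ} (ha : 0 < a) (q : E3) :
    ∫ y, divv (DEG_H a q) y = 4 * Real.pi := by
  set h : ℝ → ℝ := fun r => deriv (DEG_st a (2 * a)) r * (r ^ 2)⁻¹ with hh
  have hs : Function.support h ⊆ Icc a (2 * a) := by
    intro r hr
    by_contra hcon
    rw [mem_Icc, not_and_or, not_le, not_le] at hcon
    exact hr (by rw [hh]; simp only; rw [DEG_st_deriv (by linarith) hcon, zero_mul])
  have hts : tsupport h ⊆ Icc a (2 * a) := closure_minimal hs isClosed_Icc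
  have hcs : HasCompactSupport h := isCompact_Icc.of_isClosed_subset (isClosed_tsupport _) hts
  have hc : Continuous h := by
    rw [continuous_iff_continuousAt]
    intro r
    rcases lt_or_ge r a with hr | hr
    · have h1 : h =ᶠ[𝓝 r] fun _ => 0 := by
        filter_upwards [Iio_mem_nhds hr] with x hx
        rw [hh]
        simp only
        rw [DEG_st_deriv (by linarith) (Or.inl hx), zero_mul]
      exact continuousAt_const.congr h1.symm
    · have h2 : r ^ 2 ≠ 0 := by
        have : 0 < r := by linarith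
        positivity
      exact (DEG_st_dc a (2 * a)).continuousAt.mul
        ((continuous_pow 2).continuousAt.inv₀ h2)
  have h1 := hRINT h (a / 2) (3 * a) (by positivity) hc hcs
    (hts.trans fun x hx => ⟨by linarith [hx.1], by linarith [hx.2]⟩)
  have h2 : ∫ y, divv (DEG_H a q) y = ∫ X : E3, h ‖X‖ := by
    rw [← integral_sub_right_eq_self (fun X : E3 => h ‖X‖) q]
    refine integral_congr_ae (Eventually.of_forall fun y => ?_)
    simp only [DEG_H_div ha, hh]
  have h3 : (fun r => h r * r ^ 2) = deriv (DEG_st a (2 * a)) := by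
    funext r
    rw [hh]
    simp only
    by_cases hr : r = 0
    · rw [hr, DEG_st_deriv (by linarith) (Or.inl ha)]
      simp
    · field_simp
  rw [h2, h1, h3, DEG_st_int (by linarith), mul_one]

/-- integrability of the flux density -/
theorem DEG_integrable (hPIOI : Stmt_PIOI) {Ω : Set E3} {f : E3 → E3} {A : E3 → M3}
    (hΩ : IsOpen Ω) (hf : ContinuousOn f Ω) (hA : WeakGrad Ω f A) {p : E3} {r0 : ℝ}
    (hsub : Metric.closedBall p r0 ⊆ Ω) (hne : ∀ x ∈ Metric.closedBall p r0, f x = f p → x = p)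
    {h : ℝ → ℝ} (hc : Continuous h) (hs : tsupport h ⊆ Ioo 0 r0) :
    Integrable (fun x => h ‖x - p‖ * fx (A x) (x - p) (f x - f p)) := by
  have hnc : Continuous fun x : E3 => ‖x - p‖ := by fun_prop
  set K : Set E3 := (fun x : E3 => ‖x - p‖) ⁻¹' tsupport h with hK
  have hKc : IsClosed K := (isClosed_tsupport h).preimage hnc
  have hKb : K ⊆ Metric.closedBall p r0 := by
    intro x hx
    rw [Metric.mem_closedBall, dist_eq_norm]
    exact (hs hx).2.le
  have hKco : IsCompact K := (isCompact_closedBall p r0).of_isClosed_subset hKc hKb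
  have hKΩ : K ⊆ Ω := hKb.trans hsub
  have hpos : ∀ x ∈ K, ‖x - p‖ ≠ 0 := fun x hx => (hs hx).1.ne'
  have hfp : ∀ x ∈ K, ‖f x - f p‖ ≠ 0 := by
    intro x hx h0
    rw [norm_eq_zero, sub_eq_zero] at h0
    have h1 := hne x (hKb hx) h0
    exact hpos x hx (by rw [h1, sub_self, norm_zero])
  have hfc : ContinuousOn (fun x => f x - f p) K := (hf.mono hKΩ).sub continuousOn_const
  have hH : ContinuousOn (fun x => (‖f x - f p‖ ^ 3)⁻¹ • (f x - f p)) K :=
    ((hfc.norm.pow 3).inv₀ fun x hx => pow_ne_zero 3 (hfp x hx)).smul hfc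
  have hb : ContinuousOn (fun x => ‖x - p‖⁻¹ • (x - p)) K :=
    (hnc.continuousOn.inv₀ hpos).smul (by fun_prop)
  have h1 := (hPIOI Ω f A hΩ hf hA K hKco hKΩ).2.2.2 _ _ hH hb
  have h2 : IntegrableOn (fun x => h ‖x - p‖ * fx (A x) (x - p) (f x - f p)) K := by
    have h3 := h1.continuousOn_mul (hc.comp hnc).continuousOn hKco
    exact h3
  refine (integrableOn_iff_integrable_of_support_subset fun x hx => ?_).1 h2
  by_contra hcon
  apply hx
  have h3 : h ‖x - p‖ = 0 := image_eq_zero_of_notMem_tsupport hcon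
  rw [h3, zero_mul]

theorem p_DEG (hDEG2 : Stmt_DEG2) (hFLC : Stmt_FLC) (hFLK : Stmt_FLK) (hPIOW : Stmt_PIOW)
    (hPIOI : Stmt_PIOI) (_hRADF : Stmt_RADF) (hRINT : Stmt_RINT) : Stmt_DEG := by
  intro H ε r0 Ω S f A γ hT t ht
  have ht2 : t ∈ Icc (-2 : ℝ) 2 := ⟨by linarith [ht.1], by linarith [ht.2]⟩
  obtain ⟨c, hc2, hdeg⟩ := hDEG2 H ε r0 Ω S f A γ hT t ht
  refine ⟨c, hc2, hdeg, ?_⟩
  have hr0 := hT.rpos
  set p := γ t with hp
  set q := f p with hq
  have hsub8 : Metric.closedBall p (8 * r0) ⊆ Ω := hT.sub t ht2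
  have hsub1 : Metric.closedBall p r0 ⊆ Ω :=
    (Metric.closedBall_subset_closedBall (by linarith)).trans hsub8
  have hinj : ∀ x ∈ Metric.closedBall p r0, f x = q → x = p := fun x hx =>
    hT.inj t ht2 x (Metric.closedBall_subset_closedBall (by linarith) hx)
  -- the functional
  obtain ⟨Φ, hΦ⟩ := hFLK 0 r0 (fun h => ∫ x, h ‖x - p‖ * fx (A x) (x - p) (f x - q)) le_rfl hr0
    (by
      intro h k hh hk hhs hks _ _ d
      have i1 := DEG_integrable hPIOI hT.op hT.cont hT.wg hsub1 hinj hh hhs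
      have i2 := DEG_integrable hPIOI hT.op hT.cont hT.wg hsub1 hinj hk hks
      simp only
      rw [← integral_const_mul, ← integral_add i1 (i2.const_mul d)]
      refine integral_congr_ae (Eventually.of_forall fun x => ?_)
      simp only
      ring)
    (by
      intro η h1 h2 h3
      refine hFLC Ω f A p 0 r0 hT.op hT.cont hT.wg le_rfl (fun x hx => hsub1 ?_) ?_ η h1 h2 h3
      · rw [Metric.mem_closedBall, dist_eq_norm]
        exact hx.2.le
      · intro x hx1 hx2 hcon
        have h4 := hinj x (by rw [Metric.mem_closedBall, dist_eq_norm]; exact hx2.le) hcon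
        rw [h4, sub_self, norm_zero] at hx1
        exact lt_irrefl _ hx1)
  -- the annulus
  set R1 := r0 / 2 with hR1
  set R2 := 3 * r0 / 4 with hR2
  have hR12 : R1 < R2 := by rw [hR1, hR2]; linarith
  have hnc : Continuous fun x : E3 => ‖x - p‖ := by fun_prop
  set Q : Set E3 := Metric.closedBall p r0 ∩ {x | R1 ≤ ‖x - p‖} with hQ
  have hQc : IsCompact Q := (isCompact_closedBall p r0).inter_right
    (isClosed_le continuous_const hnc)
  have hQne : Q.Nonempty := by
    refine ⟨p + r0 • EuclideanSpace.single 0 1, ?_, ?_⟩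
    · rw [Metric.mem_closedBall, dist_eq_norm, add_sub_cancel_left, norm_smul,
        Real.norm_of_nonneg hr0.le]
      simp
    · show R1 ≤ ‖p + r0 • EuclideanSpace.single 0 1 - p‖
      rw [add_sub_cancel_left, norm_smul, Real.norm_of_nonneg hr0.le, hR1]
      simp
      linarith
  obtain ⟨x0, hx0, hmin⟩ := hQc.exists_isMinOn hQne
    (((hT.cont.mono (inter_subset_left.trans hsub1)).sub continuousOn_const).norm :
      ContinuousOn (fun x => ‖f x - q‖) Q)
  set ρ := ‖f x0 - q‖ with hρ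
  have hρpos : 0 < ρ := by
    rw [hρ, norm_pos_iff, sub_ne_zero]
    intro h
    have h1 := hinj x0 hx0.1 h
    have h2 : R1 ≤ ‖x0 - p‖ := hx0.2
    rw [h1, sub_self, norm_zero, hR1] at h2
    linarith
  have hmin' : ∀ x, R1 ≤ ‖x - p‖ → ‖x - p‖ ≤ r0 → ρ ≤ ‖f x - q‖ := by
    intro x h1 h2
    exact hmin ⟨by rw [Metric.mem_closedBall, dist_eq_norm]; exact h2, h1⟩
  set a := ρ / 4 with ha
  have hapos : 0 < a := by positivity
  -- the degree formula
  have e1 := hdeg ρ hρpos (fun x hx => hmin' x (by rw [hx, hR1]; linarith) hx.le)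
    (divv (DEG_H a q)) (DEG_g_cont hapos q)
    ((isCompact_closedBall q (2 * a)).of_isClosed_subset (isClosed_tsupport _) (DEG_g_ts hapos q))
    ((DEG_g_ts hapos q).trans (Metric.closedBall_subset_ball (by rw [ha]; linarith)))
  rw [DEG_g_int hRINT hapos] at e1
  -- the test function
  set η : ℝ → ℝ := fun r => 1 - DEG_st R1 R2 r with hη
  have hηd : ∀ r, HasDerivAt η (-(deriv (DEG_st R1 R2) r)) r := by
    intro r
    exact (((DEG_st_smooth R1 R2).differentiable (by norm_num) r).hasDerivAt).const_sub 1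
  set φ : E3 → ℝ := fun x => η ‖x - p‖ with hφ
  have hφev : φ =ᶠ[𝓝 p] fun _ => 1 := by
    filter_upwards [Metric.ball_mem_nhds p (by positivity : 0 < R1)] with x hx
    rw [Metric.mem_ball, dist_eq_norm] at hx
    rw [hφ, hη]
    simp only
    rw [DEG_st_zero hR12 hx.le, sub_zero]
  have hφs : ContDiff ℝ 1 φ := by
    rw [contDiff_iff_contDiffAt]
    intro x
    rcases eq_or_ne x p with hx | hx
    · rw [hx]
      exact contDiffAt_const.congr_of_eventuallyEq hφev
    · exact contDiffAt_const.sub ((DEG_st_smooth R1 R2).contDiffAt.comp x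
        (RADF42_.contDiffAt_nrm hx))
  have hφ0 : ∀ x, R2 ≤ ‖x - p‖ → φ x = 0 := by
    intro x hx
    rw [hφ, hη]
    simp only
    rw [DEG_st_one hR12 hx, sub_self]
  have hφts : tsupport φ ⊆ Metric.closedBall p R2 := by
    refine closure_minimal (fun x hx => ?_) Metric.isClosed_closedBall
    by_contra hcon
    rw [Metric.mem_closedBall, dist_eq_norm, not_le] at hcon
    exact hx (hφ0 x hcon.le)
  have hR2r : R2 ≤ r0 := by rw [hR2]; linarith
  have hpw := hPIOW Ω f A hT.op hT.cont hT.wg (DEG_H a q) φ univ isOpen_univ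
    (DEG_H_smooth hapos q).contDiffOn hφs
    ((isCompact_closedBall p R2).of_isClosed_subset (isClosed_tsupport _) hφts)
    (hφts.trans ((Metric.closedBall_subset_closedBall hR2r).trans hsub1)) (fun _ _ => mem_univ _)
  have e2 : ∫ x, cpair (A x) (DEG_H a q (f x)) (gradv φ x) = -Φ := by
    have h1 : ∀ x, cpair (A x) (DEG_H a q (f x)) (gradv φ x) =
        (fun r => -(deriv (DEG_st R1 R2) r)) ‖x - p‖ * fx (A x) (x - p) (f x - q) := by
      intro x
      have hg : gradv φ x = (-(deriv (DEG_st R1 R2) ‖x - p‖)) • (‖x - p‖⁻¹ • (x - p)) := by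
        rcases eq_or_ne x p with hx | hx
        · rw [hx, sub_self, smul_zero, smul_zero]
          have h2 : fderiv ℝ φ p = 0 := by
            rw [hφev.fderiv_eq]
            simp
          ext j
          simp only [gradv, h2]
          simp
        · exact RADF42_.gradv_rad hx (hηd _)
      rw [hg, DEG_cpair_smul]
      simp only
      by_cases hd : deriv (DEG_st R1 R2) ‖x - p‖ = 0
      · rw [hd]
        simp
      · have h3 : ¬ (‖x - p‖ < R1 ∨ R2 < ‖x - p‖) := fun h => hd (DEG_st_deriv hR12 h)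
        push Not at h3
        have h4 : ρ ≤ ‖f x - q‖ := hmin' x h3.1 (h3.2.trans hR2r)
        have h5 : DEG_st a (2 * a) ‖f x - q‖ = 1 := DEG_st_one (by linarith) (by
          rw [ha]; linarith)
        rw [fx, DEG_H, h5, one_mul]
    have h2 := hΦ (fun r => -(deriv (DEG_st R1 R2) r)) (DEG_st_dc R1 R2).neg
      ((DEG_st_cs hR12).comp_left (g := fun y : ℝ => -y) (by simp)) (by
        have h3 : tsupport (fun r => -(deriv (DEG_st R1 R2) r)) ⊆ Icc R1 R2 := by
          refine closure_minimal (fun r hr => ?_) isClosed_Icc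
          refine DEG_st_ts hR12 (subset_tsupport _ ?_)
          intro h4
          exact hr (by simp only; rw [h4, neg_zero])
        exact h3.trans fun x hx => ⟨by have := hx.1; rw [hR1] at this; linarith, by
          have := hx.2; rw [hR2] at this; linarith⟩)
    rw [integral_neg, DEG_st_int hR12] at h2
    simp only [h1]
    rw [h2]
    ring
  have e3 : ∫ x, φ x * ((A x).det * divv (DEG_H a q) (f x)) = c * (4 * Real.pi) := by
    rw [← e1, ← integral_indicator Metric.isOpen_ball.measurableSet]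
    refine integral_congr_ae (Eventually.of_forall fun x => ?_)
    simp only
    by_cases hx : x ∈ Metric.ball p r0
    · rw [Set.indicator_of_mem hx]
      rw [Metric.mem_ball, dist_eq_norm] at hx
      rcases le_or_gt ‖x - p‖ R1 with h1 | h1
      · have h2 : φ x = 1 := by
          rw [hφ, hη]
          simp only
          rw [DEG_st_zero hR12 h1, sub_zero]
        rw [h2, one_mul]
      · have h2 : ρ ≤ ‖f x - q‖ := hmin' x h1.le hx.le
        have h3 : divv (DEG_H a q) (f x) = 0 := DEG_g_zero hapos (by rw [ha]; linarith)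
        rw [h3, mul_zero, mul_zero]
    · rw [Set.indicator_of_notMem hx]
      rw [Metric.mem_ball, dist_eq_norm, not_lt] at hx
      rw [hφ0 x (hR2r.trans hx), zero_mul]
  rw [e2, e3] at hpw
  have hΦc : Φ = 4 * Real.pi * c := by linarith
  intro h h1 h2 h3
  have h4 := hΦ h h1 h2 h3
  rw [h4, hΦc]

end Pool.Flat
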