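import Pool.Agent.Work.MP_680515_fl.Iface5
import Pool.Agent.Work.MP_680515_fl.B_DEG2
import Pool.Agent.Work.MP_680515_fl.B_DEG

/-! # Block DGG: the degree at a point of the branch curve, for `TubeG`

The proofs of `DEG2` and `DEG` with `TubeG` instead of `Tube`. -/

open MeasureTheory Set Filter Topology

namespace Pool.Flat

open Pool.Mart

theorem DGG_two (hINTG : Stmt_INTG) (hPOS : Stmt_POS) (hPIOI : Stmt_PIOI) :
    ∀ (H D r0 : ℝ) (Ω S : Set E3) (f : E3 → E3) (A : E3 → M3) (γ : ℝ → E3),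
    TubeG H D r0 Ω S f A γ → ∀ t ∈ Icc (-1 : ℝ) 1, ∃ c : ℕ, 2 ≤ c ∧
    ∀ ρ : ℝ, 0 < ρ → (∀ x, ‖x - γ t‖ = r0 → ρ ≤ ‖f x - f (γ t)‖) → ∀ g : E3 → ℝ, Continuous g →
    HasCompactSupport g → tsupport g ⊆ Metric.ball (f (γ t)) ρ →
    ∫ x in Metric.ball (γ t) r0, (A x).det * g (f x) = c * ∫ y, g y := by
  intro H D r0 Ω S f A γ hT t ht
  have ht2 : t ∈ Icc (-2 : ℝ) 2 := ⟨by linarith [ht.1], by linarith [ht.2]⟩
  have hr0 := hT.rpos
  set p := γ t with hp
  have hsub8 : Metric.closedBall p (8 * r0) ⊆ Ω := hT.sub t ht2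
  have hsub1 : Metric.closedBall p r0 ⊆ Ω :=
    (Metric.closedBall_subset_closedBall (by linarith)).trans hsub8
  have hpΩ : p ∈ Ω := hsub1 (Metric.mem_closedBall_self hr0.le)
  -- minimum on the sphere
  have hcomp : IsCompact (Metric.sphere p r0) := isCompact_sphere p r0
  have hne : (Metric.sphere p r0).Nonempty := NormedSpace.sphere_nonempty.2 hr0.le
  have hsp : Metric.sphere p r0 ⊆ Ω := Metric.sphere_subset_closedBall.trans hsub1
  have hcont : ContinuousOn (fun x => ‖f x - f p‖) (Metric.sphere p r0) :=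
    ((hT.cont.mono hsp).sub continuousOn_const).norm
  obtain ⟨x0, hx0, hmin⟩ := hcomp.exists_isMinOn hne hcont
  set ρ0 := ‖f x0 - f p‖ with hρ0
  have hx0' : ‖x0 - p‖ = r0 := by rwa [mem_sphere_iff_norm] at hx0
  have hρ0pos : 0 < ρ0 := by
    rw [hρ0, norm_pos_iff, sub_ne_zero]
    intro h
    have h1 : x0 = p := hT.inj t ht2 x0 (Metric.closedBall_subset_closedBall (by linarith)
      (Metric.sphere_subset_closedBall hx0)) h
    rw [h1, sub_self, norm_zero] at hx0'
    linarith
  have hmin' : ∀ x, ‖x - p‖ = r0 → ρ0 ≤ ‖f x - f p‖ := by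
    intro x hx
    exact hmin (by rwa [mem_sphere_iff_norm])
  obtain ⟨k, hk⟩ := hINTG Ω f A p (f p) r0 ρ0 hT.op hT.cont hT.wg hr0 hsub1 hρ0pos hmin'
  -- two preimages
  have hcp : ContinuousAt f p := hT.cont.continuousAt (hT.op.mem_nhds hpΩ)
  obtain ⟨δ, hδ, hδf⟩ := Metric.continuousAt_iff.1 hcp ρ0 hρ0pos
  obtain ⟨x1, hx1, x2, hx2, hx12, hfx, s, hs, hi1, hi2⟩ := hT.two t ht (min δ (r0 / 2))
    (lt_min hδ (by positivity))
  rw [Metric.mem_ball, lt_min_iff] at hx1 hx2
  set s' := min s (min (dist x1 x2 / 3) (r0 / 2)) with hs'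
  have hd12 : 0 < dist x1 x2 := dist_pos.2 hx12
  have hs'pos : 0 < s' := lt_min hs (lt_min (by positivity) (by positivity))
  have hs's : s' ≤ s := min_le_left _ _
  have hs'd : s' ≤ dist x1 x2 / 3 := (min_le_right _ _).trans (min_le_left _ _)
  have hs'r : s' ≤ r0 / 2 := (min_le_right _ _).trans (min_le_right _ _)
  have hb : ∀ x, dist x p < r0 / 2 → Metric.closedBall x s' ⊆ Metric.ball p r0 := by
    intro x hx z hz
    rw [Metric.mem_closedBall] at hz
    rw [Metric.mem_ball]
    have := dist_triangle z x p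
    linarith
  have hb1 := hb x1 hx1.2
  have hb2 := hb x2 hx2.2
  have hbΩ : Metric.ball p r0 ⊆ Ω := Metric.ball_subset_closedBall.trans hsub1
  obtain ⟨k1, ρ1, hk1, hρ1, -, hP1⟩ := hPOS Ω f A x1 s' hT.op hT.cont hT.wg hT.good hs'pos
    (hb1.trans hbΩ) (hi1.mono (Metric.closedBall_subset_closedBall hs's))
  obtain ⟨k2, ρ2, hk2, hρ2, -, hP2⟩ := hPOS Ω f A x2 s' hT.op hT.cont hT.wg hT.good hs'pos
    (hb2.trans hbΩ) (hi2.mono (Metric.closedBall_subset_closedBall hs's))
  have hy0 : dist (f x1) (f p) < ρ0 := hδf hx1.1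
  set d := min (min ρ1 ρ2) (ρ0 - dist (f x1) (f p)) with hd
  have hdpos : 0 < d := lt_min (lt_min hρ1 hρ2) (by linarith)
  obtain ⟨g, hgc, hgs, hgt, hg0, -, hgi⟩ := DEG2_bump (f x1) hdpos
  have e1 := hP1 g hgc hgs (hgt.trans (Metric.ball_subset_ball ((min_le_left _ _).trans
    (min_le_left _ _))))
  have e2 := hP2 g hgc hgs (by
    rw [← hfx]
    exact hgt.trans (Metric.ball_subset_ball ((min_le_left _ _).trans (min_le_right _ _))))
  have e0 := hk g hgc hgs (hgt.trans (by
    intro z hz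
    rw [Metric.mem_ball] at hz ⊢
    have h1 := dist_triangle z (f x1) (f p)
    have h2 : d ≤ ρ0 - dist (f x1) (f p) := min_le_right _ _
    linarith))
  have hint : IntegrableOn (fun x => (A x).det * g (f x)) (Metric.ball p r0) :=
    (DEG2_int hPIOI hT.op hT.cont hT.wg (isCompact_closedBall p r0) hsub1 hgc).mono_set
      Metric.ball_subset_closedBall
  have hnn : 0 ≤ᵐ[volume.restrict (Metric.ball p r0)] fun x => (A x).det * g (f x) := by
    have h1 : ∀ᵐ x ∂(volume.restrict (Metric.ball p r0)), Good (A x) :=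
      ae_mono (Measure.restrict_mono hbΩ le_rfl) hT.good
    filter_upwards [h1] with x hx
    exact mul_nonneg (DEG2_det hx) (hg0 _)
  have hdisj : Disjoint (Metric.ball x1 s') (Metric.ball x2 s') := by
    refine Metric.ball_disjoint_ball ?_
    linarith
  have hU : Metric.ball x1 s' ∪ Metric.ball x2 s' ⊆ Metric.ball p r0 :=
    union_subset (Metric.ball_subset_closedBall.trans hb1) (Metric.ball_subset_closedBall.trans hb2)
  have h1 : ∫ x in Metric.ball x1 s' ∪ Metric.ball x2 s', (A x).det * g (f x) ≤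
      ∫ x in Metric.ball p r0, (A x).det * g (f x) :=
    setIntegral_mono_set hint hnn (LE.le.eventuallyLE hU)
  rw [setIntegral_union hdisj Metric.isOpen_ball.measurableSet
    (hint.mono_set (subset_union_left.trans hU)) (hint.mono_set (subset_union_right.trans hU)),
    e1, e2, e0, ← add_mul] at h1
  have h2 : ((k1 : ℝ) + k2) ≤ k := le_of_mul_le_mul_right h1 hgi
  have h3 : (2 : ℤ) ≤ k := by
    have h4 : ((k1 : ℤ) + k2) ≤ k := by exact_mod_cast h2
    omega
  refine ⟨k.toNat, by omega, ?_⟩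
  intro ρ hρ hsph g hg1 hg2 hg3
  have h4 : ρ ≤ ρ0 := hsph x0 hx0'
  have h5 := hk g hg1 hg2 (hg3.trans (Metric.ball_subset_ball h4))
  rw [h5]
  congr 1
  have h6 : ((k.toNat : ℕ) : ℤ) = k := Int.toNat_of_nonneg (by omega)
  exact_mod_cast h6.symm

theorem p_DGG (hINTG : Stmt_INTG) (hPOS : Stmt_POS) (hPIOI : Stmt_PIOI) (hFLC : Stmt_FLC)
    (hFLK : Stmt_FLK) (hPIOW : Stmt_PIOW) (_hRADF : Stmt_RADF) (hRINT : Stmt_RINT) :
    Stmt_DGG := by
  intro H D r0 Ω S f A γ hT t ht
  have ht2 : t ∈ Icc (-2 : ℝ) 2 := ⟨by linarith [ht.1], by linarith [ht.2]⟩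
  obtain ⟨c, hc2, hdeg⟩ := DGG_two hINTG hPOS hPIOI H D r0 Ω S f A γ hT t ht
  refine ⟨c, hc2, hdeg, ?_⟩
  have hr0 := hT.rpos
  set p := γ t with hp
  set q := f p with hq
  have hsub8 : Metric.closedBall p (8 * r0) ⊆ Ω := hT.sub t ht2
  have hsub1 : Metric.closedBall p r0 ⊆ Ω :=
    (Metric.closedBall_subset_closedBall (by linarith)).trans hsub8
  have hinj : ∀ x ∈ Metric.closedBall p r0, f x = q → x = p := fun x hx =>
    hT.inj t ht2 x (Metric.closedBall_subset_closedBall (by linarith) hx)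
  -- the functional
  obtain ⟨Φ, hΦ⟩ := hFLK 0 r0 (fun h => ∫ x, h ‖x - p‖ * fx (A x) (x - p) (f x - q)) le_rfl hr0
    (by
      intro h k hh hk hhs hks _ _ d
      have i1 := DEG_integrable hPIOI hT.op hT.cont hT.wg hsub1 hinj hh hhs
      have i2 := DEG_integrable hPIOI hT.op hT.cont hT.wg hsub1 hinj hk hks
      simp only
      rw [← integral_const_mul, ← integral_add i1 (i2.const_mul d)]
      refine integral_congr_ae (Eventually.of_forall fun x => ?_)
      simp only
      ring)
    (by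
      intro η h1 h2 h3
      refine hFLC Ω f A p 0 r0 hT.op hT.cont hT.wg le_rfl (fun x hx => hsub1 ?_) ?_ η h1 h2 h3
      · rw [Metric.mem_closedBall, dist_eq_norm]
        exact hx.2.le
      · intro x hx1 hx2 hcon
        have h4 := hinj x (by rw [Metric.mem_closedBall, dist_eq_norm]; exact hx2.le) hcon
        rw [h4, sub_self, norm_zero] at hx1
        exact lt_irrefl _ hx1)
  -- the annulus
  set R1 := r0 / 2 with hR1
  set R2 := 3 * r0 / 4 with hR2
  have hR12 : R1 < R2 := by rw [hR1, hR2]; linarith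
  have hnc : Continuous fun x : E3 => ‖x - p‖ := by fun_prop
  set Q : Set E3 := Metric.closedBall p r0 ∩ {x | R1 ≤ ‖x - p‖} with hQ
  have hQc : IsCompact Q := (isCompact_closedBall p r0).inter_right
    (isClosed_le continuous_const hnc)
  have hQne : Q.Nonempty := by
    refine ⟨p + r0 • EuclideanSpace.single 0 1, ?_, ?_⟩
    · rw [Metric.mem_closedBall, dist_eq_norm, add_sub_cancel_left, norm_smul,
        Real.norm_of_nonneg hr0.le]
      simp
    · show R1 ≤ ‖p + r0 • EuclideanSpace.single 0 1 - p‖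
      rw [add_sub_cancel_left, norm_smul, Real.norm_of_nonneg hr0.le, hR1]
      simp
      linarith
  obtain ⟨x0, hx0, hmin⟩ := hQc.exists_isMinOn hQne
    (((hT.cont.mono (inter_subset_left.trans hsub1)).sub continuousOn_const).norm :
      ContinuousOn (fun x => ‖f x - q‖) Q)
  set ρ := ‖f x0 - q‖ with hρ
  have hρpos : 0 < ρ := by
    rw [hρ, norm_pos_iff, sub_ne_zero]
    intro h
    have h1 := hinj x0 hx0.1 h
    have h2 : R1 ≤ ‖x0 - p‖ := hx0.2
    rw [h1, sub_self, norm_zero, hR1] at h2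
    linarith
  have hmin' : ∀ x, R1 ≤ ‖x - p‖ → ‖x - p‖ ≤ r0 → ρ ≤ ‖f x - q‖ := by
    intro x h1 h2
    exact hmin ⟨by rw [Metric.mem_closedBall, dist_eq_norm]; exact h2, h1⟩
  set a := ρ / 4 with ha
  have hapos : 0 < a := by positivity
  -- the degree formula
  have e1 := hdeg ρ hρpos (fun x hx => hmin' x (by rw [hx, hR1]; linarith) hx.le)
    (divv (DEG_H a q)) (DEG_g_cont hapos q)
    ((isCompact_closedBall q (2 * a)).of_isClosed_subset (isClosed_tsupport _) (DEG_g_ts hapos q))
    ((DEG_g_ts hapos q).trans (Metric.closedBall_subset_ball (by rw [ha]; linarith)))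
  rw [DEG_g_int hRINT hapos] at e1
  -- the test function
  set η : ℝ → ℝ := fun r => 1 - DEG_st R1 R2 r with hη
  have hηd : ∀ r, HasDerivAt η (-(deriv (DEG_st R1 R2) r)) r := by
    intro r
    exact (((DEG_st_smooth R1 R2).differentiable (by norm_num) r).hasDerivAt).const_sub 1
  set φ : E3 → ℝ := fun x => η ‖x - p‖ with hφ
  have hφev : φ =ᶠ[𝓝 p] fun _ => 1 := by
    filter_upwards [Metric.ball_mem_nhds p (by positivity : 0 < R1)] with x hx
    rw [Metric.mem_ball, dist_eq_norm] at hx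
    rw [hφ, hη]
    simp only
    rw [DEG_st_zero hR12 hx.le, sub_zero]
  have hφs : ContDiff ℝ 1 φ := by
    rw [contDiff_iff_contDiffAt]
    intro x
    rcases eq_or_ne x p with hx | hx
    · rw [hx]
      exact contDiffAt_const.congr_of_eventuallyEq hφev
    · exact contDiffAt_const.sub ((DEG_st_smooth R1 R2).contDiffAt.comp x
        (RADF42_.contDiffAt_nrm hx))
  have hφ0 : ∀ x, R2 ≤ ‖x - p‖ → φ x = 0 := by
    intro x hx
    rw [hφ, hη]
    simp only
    rw [DEG_st_one hR12 hx, sub_self]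
  have hφts : tsupport φ ⊆ Metric.closedBall p R2 := by
    refine closure_minimal (fun x hx => ?_) Metric.isClosed_closedBall
    by_contra hcon
    rw [Metric.mem_closedBall, dist_eq_norm, not_le] at hcon
    exact hx (hφ0 x hcon.le)
  have hR2r : R2 ≤ r0 := by rw [hR2]; linarith
  have hpw := hPIOW Ω f A hT.op hT.cont hT.wg (DEG_H a q) φ univ isOpen_univ
    (DEG_H_smooth hapos q).contDiffOn hφs
    ((isCompact_closedBall p R2).of_isClosed_subset (isClosed_tsupport _) hφts)
    (hφts.trans ((Metric.closedBall_subset_closedBall hR2r).trans hsub1)) (fun _ _ => mem_univ _)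
  have e2 : ∫ x, cpair (A x) (DEG_H a q (f x)) (gradv φ x) = -Φ := by
    have h1 : ∀ x, cpair (A x) (DEG_H a q (f x)) (gradv φ x) =
        (fun r => -(deriv (DEG_st R1 R2) r)) ‖x - p‖ * fx (A x) (x - p) (f x - q) := by
      intro x
      have hg : gradv φ x = (-(deriv (DEG_st R1 R2) ‖x - p‖)) • (‖x - p‖⁻¹ • (x - p)) := by
        rcases eq_or_ne x p with hx | hx
        · rw [hx, sub_self, smul_zero, smul_zero]
          have h2 : fderiv ℝ φ p = 0 := by
            rw [hφev.fderiv_eq]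
            simp
          ext j
          simp only [gradv, h2]
          simp
        · exact RADF42_.gradv_rad hx (hηd _)
      rw [hg, DEG_cpair_smul]
      simp only
      by_cases hd : deriv (DEG_st R1 R2) ‖x - p‖ = 0
      · rw [hd]
        simp
      · have h3 : ¬ (‖x - p‖ < R1 ∨ R2 < ‖x - p‖) := fun h => hd (DEG_st_deriv hR12 h)
        push Not at h3
        have h4 : ρ ≤ ‖f x - q‖ := hmin' x h3.1 (h3.2.trans hR2r)
        have h5 : DEG_st a (2 * a) ‖f x - q‖ = 1 := DEG_st_one (by linarith) (by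
          rw [ha]; linarith)
        rw [fx, DEG_H, h5, one_mul]
    have h2 := hΦ (fun r => -(deriv (DEG_st R1 R2) r)) (DEG_st_dc R1 R2).neg
      ((DEG_st_cs hR12).comp_left (g := fun y : ℝ => -y) (by simp)) (by
        have h3 : tsupport (fun r => -(deriv (DEG_st R1 R2) r)) ⊆ Icc R1 R2 := by
          refine closure_minimal (fun r hr => ?_) isClosed_Icc
          refine DEG_st_ts hR12 (subset_tsupport _ ?_)
          intro h4
          exact hr (by simp only; rw [h4, neg_zero])
        exact h3.trans fun x hx => ⟨by have := hx.1; rw [hR1] at this; linarith, by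
          have := hx.2; rw [hR2] at this; linarith⟩)
    rw [integral_neg, DEG_st_int hR12] at h2
    simp only [h1]
    rw [h2]
    ring
  have e3 : ∫ x, φ x * ((A x).det * divv (DEG_H a q) (f x)) = c * (4 * Real.pi) := by
    rw [← e1, ← integral_indicator Metric.isOpen_ball.measurableSet]
    refine integral_congr_ae (Eventually.of_forall fun x => ?_)
    simp only
    by_cases hx : x ∈ Metric.ball p r0
    · rw [Set.indicator_of_mem hx]
      rw [Metric.mem_ball, dist_eq_norm] at hx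
      rcases le_or_gt ‖x - p‖ R1 with h1 | h1
      · have h2 : φ x = 1 := by
          rw [hφ, hη]
          simp only
          rw [DEG_st_zero hR12 h1, sub_zero]
        rw [h2, one_mul]
      · have h2 : ρ ≤ ‖f x - q‖ := hmin' x h1.le hx.le
        have h3 : divv (DEG_H a q) (f x) = 0 := DEG_g_zero hapos (by rw [ha]; linarith)
        rw [h3, mul_zero, mul_zero]
    · rw [Set.indicator_of_notMem hx]
      rw [Metric.mem_ball, dist_eq_norm, not_lt] at hx
      rw [hφ0 x (hR2r.trans hx), zero_mul]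
  rw [e2, e3] at hpw
  have hΦc : Φ = 4 * Real.pi * c := by linarith
  intro h h1 h2 h3
  have h4 := hΦ h h1 h2 h3
  rw [h4, hΦc]

end Pool.Flat
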