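import Pool.Agent.Work.MP_680515_fl.Iface1

/-!
# Block E3: uniform continuity near the branch curve
-/

open MeasureTheory Set Filter Topology

namespace Pool.Flat

open Pool.Mart

theorem E3_unit : ∃ e : E3, ‖e‖ = 1 := ⟨EuclideanSpace.single 0 1, by simp⟩

theorem E3_pow {j k : ℕ} (h : j < k) : (4 : ℝ) * 4 ^ j ≤ 4 ^ k := by
  rw [← pow_succ']
  exact pow_le_pow_right₀ (by norm_num) h

theorem p_E3 (hE1 : Stmt_E1) (hE2 : Stmt_E2) (hPKG : Stmt_PKG) : Stmt_E3 := by
  intro H M τ hH hM hτ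
  obtain ⟨D, hD1, hD⟩ := hE1 H hH
  obtain ⟨k, hk⟩ := pow_unbounded_of_one_lt (4 * M) (one_lt_two : (1 : ℝ) < 2)
  obtain ⟨C, hCd⟩ : ∃ C, C = D ^ (k + 1) := ⟨_, rfl⟩
  have hC1 : 1 ≤ C := by
    rw [hCd]
    exact one_le_pow₀ hD1
  have hC0 : 0 < C := by linarith
  have hH0 : 0 < H := by linarith
  obtain ⟨δ2, hδ0, hδ1, hδ⟩ := hE2 H (τ / (4 * C)) hH (by positivity)
  obtain ⟨P, hP⟩ := hPKG C (τ / H ^ 2) (by positivity)
  obtain ⟨η, hη0, hη1, hη2⟩ : ∃ η : ℝ, 0 < η ∧ 3 * η ≤ δ2 ∧ 4 * H * 4 ^ P * η ≤ 1 := by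
    refine ⟨min (δ2 / 3) (1 / (4 * H * 4 ^ P)), by positivity, ?_, ?_⟩
    · have := min_le_left (δ2 / 3) (1 / (4 * H * 4 ^ P))
      linarith
    · have h1 := min_le_right (δ2 / 3) (1 / (4 * H * 4 ^ P))
      have h2 : 0 < 4 * H * 4 ^ P := by positivity
      calc 4 * H * 4 ^ P * min (δ2 / 3) (1 / (4 * H * 4 ^ P))
          ≤ 4 * H * 4 ^ P * (1 / (4 * H * 4 ^ P)) := mul_le_mul_of_nonneg_left h1 h2.le
        _ = 1 := by field_simp
  have hη3 : η ≤ 1 / 4 := by
    have h1 : (1 : ℝ) ≤ 4 ^ P := one_le_pow₀ (by norm_num)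
    have h2 : 1 ≤ H * 4 ^ P := by nlinarith
    nlinarith
  refine ⟨η ^ 2, by positivity, ?_⟩
  intro ε r0 Ω S f A γ hε hε1 hT t ht r hr hMr y0 hy0 z z' hz hz' hzz
  have ht2 : t ∈ Icc (-2 : ℝ) 2 := ⟨by linarith [ht.1], by linarith [ht.2]⟩
  have hMr1 : r ≤ M * r := by nlinarith
  have hMr2 : 8 * (M * r) ≤ r0 := by linarith
  have hηr : η * r ≤ r / 4 := by nlinarith
  have hη2r : η ^ 2 * r ≤ η * r / 4 := by nlinarith
  have hηr0 : 0 < η * r := by positivity
  -- the norm of the base vector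
  obtain ⟨D0, hD0⟩ : ∃ D0, D0 = ‖f y0 - f (γ t)‖ := ⟨_, rfl⟩
  have hD0p : 0 < D0 := by
    rw [hD0, norm_pos_iff, sub_ne_zero]
    intro h
    have h1 := hT.inj t ht2 y0 (mem_closedBall_iff_norm.2 (by rw [hy0]; linarith)) h
    rw [h1, sub_self, norm_zero] at hy0
    linarith
  rw [← hD0]
  -- growth
  have hgr : ∀ x : E3, ‖x - γ t‖ ≤ 4 * (M * r) → ‖f x - f (γ t)‖ ≤ C * D0 := by
    intro x hx
    rw [hCd, hD0]
    refine hD ε r0 Ω S f A γ hε hε1 hT t ht2 k x (mem_closedBall_iff_norm.2 (by linarith)) y0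
      (mem_closedBall_iff_norm.2 (by rw [hy0]; linarith)) ?_
    rw [hy0]
    nlinarith
  obtain ⟨e, he⟩ := E3_unit
  by_cases hd : Metric.infDist z S ≤ η * r
  · -- near the branch curve
    have hne : S.Nonempty := ⟨γ t, hT.gS t ht2⟩
    obtain ⟨q, hqS, hzq⟩ := (Metric.infDist_lt_iff hne).1
      (lt_of_le_of_lt hd (by linarith : η * r < 2 * (η * r)))
    rw [dist_eq_norm] at hzq
    have hqp : ‖q - γ t‖ ≤ 2 * (M * r) := by
      calc ‖q - γ t‖ = ‖(q - z) + (z - γ t)‖ := by rw [sub_add_sub_cancel]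
        _ ≤ ‖q - z‖ + ‖z - γ t‖ := norm_add_le _ _
        _ ≤ 2 * (η * r) + M * r := by
            rw [norm_sub_rev q z]
            linarith
        _ ≤ 2 * (M * r) := by linarith
    obtain ⟨t', ht', rfl⟩ := hT.SN t ht ⟨hqS, mem_closedBall_iff_norm.2 (by linarith)⟩
    have hz'q : ‖z' - γ t'‖ ≤ 3 * (η * r) := by
      calc ‖z' - γ t'‖ = ‖(z' - z) + (z - γ t')‖ := by rw [sub_add_sub_cancel]
        _ ≤ ‖z' - z‖ + ‖z - γ t'‖ := norm_add_le _ _
        _ ≤ 3 * (η * r) := by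
            rw [norm_sub_rev z' z]
            linarith
    have hy1 : ‖(γ t' + r • e) - γ t'‖ = r := by
      rw [add_sub_cancel_left, norm_smul, he, mul_one, Real.norm_of_nonneg hr.le]
    have hy1p : ‖(γ t' + r • e) - γ t‖ ≤ 4 * (M * r) := by
      calc ‖(γ t' + r • e) - γ t‖ = ‖((γ t' + r • e) - γ t') + (γ t' - γ t)‖ := by
            rw [sub_add_sub_cancel]
        _ ≤ ‖(γ t' + r • e) - γ t'‖ + ‖γ t' - γ t‖ := norm_add_le _ _
        _ ≤ 4 * (M * r) := by
            rw [hy1]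
            linarith
    have h1 := hgr _ hy1p
    have h2 := hgr (γ t') (by linarith)
    have h3 : ‖f (γ t' + r • e) - f (γ t')‖ ≤ 2 * (C * D0) := by
      calc ‖f (γ t' + r • e) - f (γ t')‖ =
          ‖(f (γ t' + r • e) - f (γ t)) - (f (γ t') - f (γ t))‖ := by
            rw [sub_sub_sub_cancel_right]
        _ ≤ ‖f (γ t' + r • e) - f (γ t)‖ + ‖f (γ t') - f (γ t)‖ := norm_sub_le _ _
        _ ≤ 2 * (C * D0) := by linarith
    have h4 : ∀ w : E3, ‖w - γ t'‖ ≤ 3 * (η * r) → ‖f w - f (γ t')‖ ≤ τ / 2 * D0 := by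
      intro w hw
      have h5 : 3 * (η * r) ≤ δ2 * r := by nlinarith
      have h6 := hδ ε r0 Ω S f A γ hε hε1 hT t' ht' w (mem_closedBall_iff_norm.2 (by linarith))
        (γ t' + r • e) (mem_closedBall_iff_norm.2 (by rw [hy1]; linarith))
        (by rw [hy1]; linarith)
      calc ‖f w - f (γ t')‖ ≤ τ / (4 * C) * ‖f (γ t' + r • e) - f (γ t')‖ := h6
        _ ≤ τ / (4 * C) * (2 * (C * D0)) := mul_le_mul_of_nonneg_left h3 (by positivity)
        _ = τ / 2 * D0 := by
            field_simp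
            ring
    have h5 := h4 z (by linarith)
    have h6 := h4 z' hz'q
    calc ‖f z - f z'‖ = ‖(f z - f (γ t')) - (f z' - f (γ t'))‖ := by
          rw [sub_sub_sub_cancel_right]
      _ ≤ ‖f z - f (γ t')‖ + ‖f z' - f (γ t')‖ := norm_sub_le _ _
      _ ≤ τ * D0 := by linarith
  · -- far from the branch curve
    push Not at hd
    by_contra hcon
    push Not at hcon
    obtain ⟨l, hl⟩ : ∃ l, l = ‖z - z'‖ := ⟨_, rfl⟩
    have hl0 : 0 < l := by
      rw [hl, norm_pos_iff, sub_ne_zero]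
      rintro rfl
      rw [sub_self, norm_zero] at hcon
      have : 0 < τ * D0 := by positivity
      linarith
    rw [← hl] at hzz
    -- the sizes
    have hsz : ∀ j : ℕ, j ≤ P → H * (4 ^ j * l) ≤ η * r / 4 := by
      intro j hj
      have h1 : (4 : ℝ) ^ j ≤ 4 ^ P := pow_le_pow_right₀ (by norm_num) hj
      have h2 : 4 ^ j * l ≤ 4 ^ P * (η ^ 2 * r) :=
        mul_le_mul h1 hzz hl0.le (by positivity)
      calc H * (4 ^ j * l) ≤ H * (4 ^ P * (η ^ 2 * r)) := mul_le_mul_of_nonneg_left h2 hH0.le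
        _ = (4 * H * 4 ^ P * η) * (η * r) / 4 := by ring
        _ ≤ 1 * (η * r) / 4 := by
            apply div_le_div_of_nonneg_right _ (by norm_num)
            exact mul_le_mul_of_nonneg_right hη2 hηr0.le
        _ = η * r / 4 := by rw [one_mul]
    have hsz2 : ∀ j : ℕ, j ≤ P → 4 ^ j * l ≤ η * r / 4 := by
      intro j hj
      have h1 := hsz j hj
      have h2 : 0 < 4 ^ j * l := by positivity
      nlinarith
    have hnj : ∀ j : ℕ, ‖(z + (4 ^ j * l) • e) - z‖ = 4 ^ j * l := by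
      intro j
      rw [add_sub_cancel_left, norm_smul, he, mul_one, Real.norm_of_nonneg (by positivity)]
    have hzj : ∀ j : ℕ, j ≤ P → ‖(z + (4 ^ j * l) • e) - γ t‖ ≤ 2 * (M * r) := by
      intro j hj
      calc ‖(z + (4 ^ j * l) • e) - γ t‖ =
          ‖((z + (4 ^ j * l) • e) - z) + (z - γ t)‖ := by rw [sub_add_sub_cancel]
        _ ≤ ‖(z + (4 ^ j * l) • e) - z‖ + ‖z - γ t‖ := norm_add_le _ _
        _ ≤ 2 * (M * r) := by
            rw [hnj]
            linarith [hsz2 j hj]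
    have hzB : z ∈ Metric.closedBall (γ t) (8 * r0) := mem_closedBall_iff_norm.2 (by linarith)
    have hz'B : z' ∈ Metric.closedBall (γ t) (8 * r0) := mem_closedBall_iff_norm.2 (by linarith)
    have hzjB : ∀ j : ℕ, j ≤ P → z + (4 ^ j * l) • e ∈ Metric.closedBall (γ t) (8 * r0) :=
      fun j hj => mem_closedBall_iff_norm.2 (by linarith [hzj j hj])
    -- step 1
    have s1 : ∀ j : ℕ, j ≤ P → ‖f z' - f z‖ ≤ H * ‖f (z + (4 ^ j * l) • e) - f z‖ := by
      intro j hj
      refine hT.wh t ht2 z hzB z' hz'B _ (hzjB j hj) ?_ ?_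
      · rw [hnj]
        linarith [hsz j hj]
      · rw [hnj, norm_sub_rev, ← hl]
        have : (1 : ℝ) ≤ 4 ^ j := one_le_pow₀ (by norm_num)
        nlinarith
    -- step 2
    have s2 : ∀ j k : ℕ, j < k → k ≤ P → ‖f z - f (z + (4 ^ j * l) • e)‖ ≤
        H * ‖f (z + (4 ^ k * l) • e) - f (z + (4 ^ j * l) • e)‖ := by
      intro j k hjk hk
      have hjP : j ≤ P := hjk.le.trans hk
      have h1 : ‖(z + (4 ^ k * l) • e) - (z + (4 ^ j * l) • e)‖ = 4 ^ k * l - 4 ^ j * l := by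
        rw [add_sub_add_left_eq_sub, ← sub_smul, norm_smul, he, mul_one]
        apply Real.norm_of_nonneg
        have := E3_pow hjk
        have h0 : (0 : ℝ) < 4 ^ j := by positivity
        nlinarith
      refine hT.wh t ht2 _ (hzjB j hjP) z hzB _ (hzjB k hk) ?_ ?_
      · rw [h1]
        have h2 := Metric.infDist_le_infDist_add_dist (s := S) (x := z)
          (y := z + (4 ^ j * l) • e)
        rw [dist_eq_norm, norm_sub_rev, hnj] at h2
        have h3 := hsz k hk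
        have h4 := hsz2 j hjP
        have h5 : H * (4 ^ k * l - 4 ^ j * l) ≤ H * (4 ^ k * l) := by
          apply mul_le_mul_of_nonneg_left _ hH0.le
          have : 0 < 4 ^ j * l := by positivity
          linarith
        linarith
      · rw [h1, norm_sub_rev, hnj]
        have := E3_pow hjk
        have h0 : (0 : ℝ) < 4 ^ j := by positivity
        nlinarith
    -- separated points
    have s3 : ∀ j k : ℕ, j < k → k ≤ P → τ / H ^ 2 ≤
        ‖D0⁻¹ • (f (z + (4 ^ j * l) • e) - f (γ t)) -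
          D0⁻¹ • (f (z + (4 ^ k * l) • e) - f (γ t))‖ := by
      intro j k hjk hk
      have h1 := s1 j (hjk.le.trans hk)
      have h2 := s2 j k hjk hk
      rw [← smul_sub, sub_sub_sub_cancel_right, norm_smul, norm_inv, Real.norm_of_nonneg hD0p.le,
        norm_sub_rev (f (z + (4 ^ j * l) • e))]
      rw [norm_sub_rev (f z') (f z)] at h1
      rw [norm_sub_rev (f z) (f (z + (4 ^ j * l) • e))] at h2
      have h3 : τ * D0 ≤ H * (H * ‖f (z + (4 ^ k * l) • e) - f (z + (4 ^ j * l) • e)‖) :=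
        hcon.le.trans (h1.trans (mul_le_mul_of_nonneg_left h2 hH0.le))
      rw [div_le_iff₀ (by positivity)]
      have h4 : D0⁻¹ * ‖f (z + (4 ^ k * l) • e) - f (z + (4 ^ j * l) • e)‖ * H ^ 2 =
          (H * (H * ‖f (z + (4 ^ k * l) • e) - f (z + (4 ^ j * l) • e)‖)) / D0 := by
        field_simp
      rw [h4, le_div_iff₀ hD0p]
      exact h3
    have hfin := hP (P + 1) (fun i => D0⁻¹ • (f (z + (4 ^ (i : ℕ) * l) • e) - f (γ t)))
      (fun i => by
        have h1 := hgr _ ((hzj i (Nat.lt_succ_iff.1 i.2)).trans (by linarith))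
        show ‖D0⁻¹ • (f (z + (4 ^ (i : ℕ) * l) • e) - f (γ t))‖ ≤ C
        rw [norm_smul, norm_inv, Real.norm_of_nonneg hD0p.le, inv_mul_le_iff₀ hD0p,
          mul_comm D0 C]
        exact h1)
      (fun i j hij => by
        have hi := Nat.lt_succ_iff.1 i.2
        have hj := Nat.lt_succ_iff.1 j.2
        rcases lt_or_gt_of_ne (fun h => hij (Fin.ext h) : (i : ℕ) ≠ j) with h | h
        · exact s3 i j h hj
        · have h2 := s3 j i h hi
          rw [norm_sub_rev] at h2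
          exact h2)
    omega

end Pool.Flat

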