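import Pool.Agent.Work.MP_680515_fl.Iface5

/-! # Block F1: iteration of the doubling condition -/

open MeasureTheory Set Filter Topology

namespace Pool.Flat

open Pool.Mart

theorem p_F1 : Stmt_F1 := by
  intro H D hH hD
  refine ⟨D, hD, ?_⟩
  intro r0 Ω S f A γ hT t ht k
  have hr := hT.rpos
  have hsub : Metric.closedBall (γ t) (2 * r0) ⊆ Metric.closedBall (γ t) (8 * r0) :=
    Metric.closedBall_subset_closedBall (by linarith)
  induction k with
  | zero =>
    intro x hx y hy hxy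
    rw [pow_zero, one_mul] at hxy
    rw [zero_add, pow_one]
    refine hT.dbl t ht x (hsub hx) y (hsub hy) ?_
    have := norm_nonneg (y - γ t)
    linarith
  | succ k ih =>
    intro x hx y hy hxy
    set x' : E3 := γ t + (1 / 2 : ℝ) • (x - γ t) with hx'
    have h1 : x' - γ t = (1 / 2 : ℝ) • (x - γ t) := by rw [hx']; abel
    have h2 : ‖x' - γ t‖ = 1 / 2 * ‖x - γ t‖ := by
      rw [h1, norm_smul, Real.norm_eq_abs, abs_of_pos (by norm_num : (0 : ℝ) < 1 / 2)]
    have hx0 : ‖x - γ t‖ ≤ 2 * r0 := by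
      rw [Metric.mem_closedBall, dist_eq_norm] at hx
      exact hx
    have hx'm : x' ∈ Metric.closedBall (γ t) (2 * r0) := by
      rw [Metric.mem_closedBall, dist_eq_norm, h2]
      have := norm_nonneg (x - γ t)
      linarith
    have h3 : ‖x' - γ t‖ ≤ 2 ^ k * ‖y - γ t‖ := by
      rw [h2]
      have h4 : (2 : ℝ) ^ (k + 1) * ‖y - γ t‖ = 2 * (2 ^ k * ‖y - γ t‖) := by
        rw [pow_succ]; ring
      rw [h4] at hxy
      linarith
    have h5 := ih x' hx'm y hy h3
    have h6 : ‖f x - f (γ t)‖ ≤ D * ‖f x' - f (γ t)‖ := by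
      refine hT.dbl t ht x (hsub hx) x' (hsub hx'm) ?_
      rw [h2]
      linarith
    calc ‖f x - f (γ t)‖ ≤ D * ‖f x' - f (γ t)‖ := h6
      _ ≤ D * (D ^ (k + 1) * ‖f y - f (γ t)‖) :=
          mul_le_mul_of_nonneg_left h5 (by linarith)
      _ = D ^ (k + 1 + 1) * ‖f y - f (γ t)‖ := by rw [pow_succ D (k + 1)]; ring

end Pool.Flat
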