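import Pool.Agent.Work.MP_680515_fl.Iface5

/-! # Block F2: contraction at the branch points for TubeG (the proof of E2 by helper55) -/

open MeasureTheory Set Filter Topology

namespace Pool.Flat

open Pool.Mart

theorem p_F2 (hARY : Stmt_ARY) (hPKG : Stmt_PKG) : Stmt_F2 := by
  intro H Dc θ hH hDc hθ
  have hH0 : 0 < H := by linarith
  obtain ⟨P, hP⟩ := hPKG H (θ / H ^ 2) (by positivity)
  refine ⟨(4 ^ (P + 1))⁻¹, by positivity, ?_, ?_⟩
  · refine inv_lt_one_of_one_lt₀ ?_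
    exact one_lt_pow₀ (by norm_num) (by omega)
  intro r0 Ω S f A γ hT t ht x hx y hy hxy
  have hr0 := hT.rpos
  rcases eq_or_ne x (γ t) with rfl | hne
  · rw [sub_self, norm_zero]
    positivity
  have hρ : 0 < ‖x - γ t‖ := norm_pos_iff.2 (sub_ne_zero.2 hne)
  set ρ := ‖x - γ t‖ with hρdef
  have hy2 : ‖y - γ t‖ ≤ 2 * r0 := by
    have := hy
    rwa [mem_closedBall_iff_norm] at this
  have hbig : 4 ^ (P + 1) * ρ ≤ ‖y - γ t‖ := by
    have h1 : (0 : ℝ) < 4 ^ (P + 1) := by positivity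
    calc 4 ^ (P + 1) * ρ ≤ 4 ^ (P + 1) * ((4 ^ (P + 1))⁻¹ * ‖y - γ t‖) :=
          mul_le_mul_of_nonneg_left hxy h1.le
      _ = ‖y - γ t‖ := by rw [← mul_assoc, mul_inv_cancel₀ h1.ne', one_mul]
  have hyp : y ≠ γ t := by
    intro h
    rw [h, sub_self, norm_zero] at hbig
    have : 0 < 4 ^ (P + 1) * ρ := by positivity
    linarith
  have hy8 : y ∈ Metric.closedBall (γ t) (8 * r0) :=
    Metric.closedBall_subset_closedBall (by linarith) hy
  have hx8 : x ∈ Metric.closedBall (γ t) (8 * r0) :=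
    Metric.closedBall_subset_closedBall (by linarith) hx
  have hD : 0 < ‖f y - f (γ t)‖ := by
    rw [norm_pos_iff, sub_ne_zero]
    intro h
    exact hyp (hT.inj t ht y hy8 h)
  set D := ‖f y - f (γ t)‖ with hDdef
  by_contra hcon
  push Not at hcon
  -- direction of the arm
  obtain ⟨σ, hσ, hσt⟩ : ∃ σ : ℝ, |σ| = 1 ∧ t + σ ∈ Icc (-2 : ℝ) 2 := by
    rcases le_total t 0 with h | h
    · exact ⟨1, by norm_num, by constructor <;> linarith [ht.1, ht.2]⟩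
    · exact ⟨-1, by norm_num, by constructor <;> linarith [ht.1, ht.2]⟩
  have hrj : ∀ j : Fin (P + 1), (4 : ℝ) ^ (j : ℕ) * ρ ≤ r0 / 2 := by
    intro j
    have h1 : (4 : ℝ) ^ (j : ℕ) ≤ 4 ^ P := pow_le_pow_right₀ (by norm_num) (by omega)
    have h2 : (4 : ℝ) ^ (j : ℕ) * ρ ≤ 4 ^ P * ρ := mul_le_mul_of_nonneg_right h1 hρ.le
    have h3 : (4 : ℝ) ^ (P + 1) * ρ = 4 * (4 ^ P * ρ) := by ring
    linarith
  have hex : ∀ j : Fin (P + 1), ∃ s ∈ Icc (0 : ℝ) 1, ‖cv γ t (σ * s)‖ = 4 ^ (j : ℕ) * ρ := by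
    intro j
    obtain ⟨s, hs1, hs2, -⟩ := hARY H Dc r0 Ω S f A γ hT t ht σ hσ hσt (4 ^ (j : ℕ) * ρ)
      (by positivity) (by linarith [hrj j])
    exact ⟨s, hs1, hs2⟩
  choose s hs hsr using hex
  have htj : ∀ j, t + σ * s j ∈ Icc (-2 : ℝ) 2 := by
    intro j
    have h1 := (hs j).1
    have h2 := (hs j).2
    rcases (abs_eq (by norm_num : (0 : ℝ) ≤ 1)).1 hσ with h | h
    · rw [h] at hσt ⊢
      constructor <;> linarith [ht.1, ht.2, hσt.1, hσt.2]
    · rw [h] at hσt ⊢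
      constructor <;> linarith [ht.1, ht.2, hσt.1, hσt.2]
  set q : Fin (P + 1) → E3 := fun j => γ (t + σ * s j) with hq
  have hqr : ∀ j, ‖q j - γ t‖ = 4 ^ (j : ℕ) * ρ := hsr
  have hq8 : ∀ j, q j ∈ Metric.closedBall (γ t) (8 * r0) := by
    intro j
    rw [mem_closedBall_iff_norm, hqr]
    linarith [hrj j]
  -- lower bound at the points of the arm
  have hlow : ∀ j, θ * D < H * ‖f (q j) - f (γ t)‖ := by
    intro j
    refine lt_of_lt_of_le hcon (hT.br t ht x hx8 (q j) (hq8 j) ?_)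
    rw [hqr]
    have h1 : (1 : ℝ) ≤ 4 ^ (j : ℕ) := one_le_pow₀ (by norm_num)
    nlinarith
  have hsep : ∀ j k : Fin (P + 1), j < k → ‖f (γ t) - f (q j)‖ ≤ H * ‖f (q k) - f (q j)‖ := by
    intro j k hjk
    have h4 : (4 : ℝ) * 4 ^ (j : ℕ) ≤ 4 ^ (k : ℕ) := by
      have : (4 : ℝ) ^ ((j : ℕ) + 1) ≤ 4 ^ (k : ℕ) :=
        pow_le_pow_right₀ (by norm_num) (Nat.succ_le_of_lt hjk)
      rw [pow_succ] at this
      linarith
    have h5 : 4 * (4 ^ (j : ℕ) * ρ) ≤ 4 ^ (k : ℕ) * ρ := by nlinarith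
    have h6 : ‖γ t - q j‖ = 4 ^ (j : ℕ) * ρ := by rw [norm_sub_rev, hqr]
    have h7 : 4 ^ (k : ℕ) * ρ - 4 ^ (j : ℕ) * ρ ≤ ‖q k - q j‖ := by
      rw [← hqr k, ← hqr j]
      have := norm_sub_norm_le (q k - γ t) (q j - γ t)
      rwa [sub_sub_sub_cancel_right] at this
    have h8 : ‖q k - q j‖ ≤ 4 ^ (k : ℕ) * ρ + 4 ^ (j : ℕ) * ρ := by
      rw [← hqr k, ← hqr j]
      have := norm_sub_le (q k - γ t) (q j - γ t)
      rwa [sub_sub_sub_cancel_right] at this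
    have hpos : 0 < (4 : ℝ) ^ (j : ℕ) * ρ := by positivity
    refine hT.br (t + σ * s j) (htj j) (γ t) ?_ (q k) ?_ ?_
    · rw [mem_closedBall_iff_norm]
      change ‖γ t - q j‖ ≤ _
      rw [h6]
      linarith [hrj j]
    · rw [mem_closedBall_iff_norm]
      change ‖q k - q j‖ ≤ _
      linarith [hrj j, hrj k]
    · change ‖γ t - q j‖ ≤ ‖q k - q j‖
      linarith
  have hd : ∀ j k : Fin (P + 1), j ≠ k → θ / H ^ 2 ≤ D⁻¹ * ‖f (q j) - f (q k)‖ := by
    have main : ∀ j k : Fin (P + 1), j < k → θ / H ^ 2 ≤ D⁻¹ * ‖f (q k) - f (q j)‖ := by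
      intro j k hjk
      have h1 := hlow j
      have h2 := hsep j k hjk
      rw [norm_sub_rev] at h2
      have h3 : θ * D ≤ H ^ 2 * ‖f (q k) - f (q j)‖ := by
        have : H * ‖f (q j) - f (γ t)‖ ≤ H * (H * ‖f (q k) - f (q j)‖) :=
          mul_le_mul_of_nonneg_left h2 hH0.le
        nlinarith
      rw [div_le_iff₀ (by positivity)]
      have h4 : D⁻¹ * (θ * D) ≤ D⁻¹ * (H ^ 2 * ‖f (q k) - f (q j)‖) :=
        mul_le_mul_of_nonneg_left h3 (inv_nonneg.2 hD.le)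
      have h5 : D⁻¹ * (θ * D) = θ := by
        field_simp
      linarith
    intro j k hjk
    rcases lt_or_gt_of_ne hjk with h | h
    · rw [norm_sub_rev]
      exact main j k h
    · exact main k j h
  have hfin := hP (P + 1) (fun j => D⁻¹ • (f (q j) - f (γ t))) ?_ ?_
  · omega
  · intro j
    rw [norm_smul, norm_inv, Real.norm_eq_abs, abs_of_pos hD]
    have h1 : ‖f (q j) - f (γ t)‖ ≤ H * D := by
      refine hT.br t ht (q j) (hq8 j) y hy8 ?_
      rw [hqr]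
      have h2 : (4 : ℝ) ^ (j : ℕ) ≤ 4 ^ (P + 1) := pow_le_pow_right₀ (by norm_num) (by omega)
      have h3 : (4 : ℝ) ^ (j : ℕ) * ρ ≤ 4 ^ (P + 1) * ρ := mul_le_mul_of_nonneg_right h2 hρ.le
      linarith
    rw [inv_mul_le_iff₀ hD]
    linarith
  · intro j k hjk
    rw [← smul_sub, sub_sub_sub_cancel_right, norm_smul, norm_inv, Real.norm_eq_abs,
      abs_of_pos hD]
    exact hd j k hjk

end Pool.Flat
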