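import Pool.Agent.Work.MP_680515_fl.Iface5

open MeasureTheory Set Filter Topology

namespace Pool.Flat

open Pool.Mart

theorem p_FI3 (hQWN : Stmt_QWN) (hLOG : Stmt_LOG) (hBTU : Stmt_BTU) (hWIG : Stmt_WIG)
    (hLIN : Pool.Mart.Stmt_LIN4) : Stmt_FinalD := by
  intro φ ψ A B K R x0 hsrc hx0 hR hqψ hqf hid hdim
  by_contra hK
  push Not at hK
  obtain ⟨H, D, hH, hD, hlog⟩ := hLOG
  set K1 : ℝ := max K 1 with hK1
  have hK11 : 1 ≤ K1 := le_max_right _ _
  have hK12 : K1 < 2 := max_lt hK (by norm_num)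
  have hid1 : InnerDist ψ.source A K1 := by
    unfold InnerDist at hid ⊢
    filter_upwards [hid] with x hx
    exact hx.trans (mul_le_mul_of_nonneg_right (le_max_left _ _) (sq_nonneg _))
  have hid2 : ∀ᵐ x ∂(volume.restrict ψ.source), opn (cofm (A x)) ^ 3 ≤ 2 * (A x).det ^ 2 := by
    unfold InnerDist at hid
    filter_upwards [hid] with x hx
    exact hx.trans (mul_le_mul_of_nonneg_right hK.le (sq_nonneg _))
  obtain ⟨K', hK', hqr'⟩ := hqf.qr
  have hwm : WM φ ψ A := by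
    refine ⟨hsrc, hqf.wg, ?_⟩
    filter_upwards [hid2, hqr'] with x h1 h2
    exact hLIN (A x) K' hK' h2 h1
  obtain ⟨C, R1, hC, hR1, hbt⟩ := hBTU ψ B x0 hqψ hx0
  obtain ⟨a, r0, ha, hcur, htube⟩ := hlog φ ψ A x0 (min R R1) hwm hx0 (lt_min hR hR1)
  obtain ⟨δ, L, δ1, hδ, hL, hδ1, _, hwin⟩ := hQWN H D K1 hH hD hK11 hK12
  have hBT : BT C (axc ψ x0 a) := by
    intro s hs t ht u hu hst htu
    exact hbt a ha (fun t ht => ⟨(hcur t ht).1,
      Metric.ball_subset_ball (min_le_right _ _) (hcur t ht).2⟩) s hs t ht u hu hst htu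
  have hWG : WG δ L (δ1 * r0) (axc ψ x0 a) := by
    intro t ht r hr hr' v hv
    exact hwin r0 ψ.source (bset ψ.source ψ) (fm φ ψ) A (axc ψ x0 a) htube hid1 t ht r hr hr' v hv
  have hinj : InjOn (axc ψ x0 a) (Icc (-2) 2) := by
    intro t ht u hu h
    have h1 : ψ x0 + (a * t) • e3 = ψ x0 + (a * u) • e3 :=
      ψ.symm.injOn (hcur t ht).1 (hcur u hu).1 h
    have h2 : ((a * t) • e3 : E3) = (a * u) • e3 := add_left_cancel h1
    have h3 := congrArg (fun y : E3 => y 2) h2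
    simp [e3] at h3
    rcases h3 with h3 | h3
    · exact h3
    · exact absurd h3 ha.ne'
  have hd := hWIG (axc ψ x0 a) C δ L (δ1 * r0) hC hδ hL (mul_pos hδ1 htube.rpos) htube.gc hinj
    hBT hWG
  have hsub : axc ψ x0 a '' Icc (-1) 1 ⊆ bset ψ.source ψ ∩ Metric.ball x0 R := by
    rintro _ ⟨t, ht, rfl⟩
    have ht' : t ∈ Icc (-2 : ℝ) 2 := ⟨by linarith [ht.1], by linarith [ht.2]⟩
    exact ⟨htube.gS t ht', Metric.ball_subset_ball (min_le_left _ _) (hcur t ht').2⟩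
  exact absurd (hd.trans_le ((dimH_mono hsub).trans hdim)) (lt_irrefl _)

end Pool.Flat
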