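import Pool.Agent.Work.MP_680515_fl.Iface2

/-! # Block FLD (helper55): the field on the target -/

open MeasureTheory Set Filter Topology

namespace Pool.Flat

open Pool.Mart

/-- Divergence of a product. -/
theorem FLD_divv {c : E3 → ℝ} {c' : E3 →L[ℝ] ℝ} {G : E3 → E3} {y : E3} (hc : HasFDerivAt c c' y)
    (hG : DifferentiableAt ℝ G y) :
    divv (fun y : E3 => c y • G y) y = c' (G y) + c y * divv G y := by
  have h2 := hc.smul hG.hasFDerivAt
  have hd : G y = ∑ i : Fin 3, (G y) i • (EuclideanSpace.single i 1 : E3) := by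
    ext i
    fin_cases i <;> simp [Fin.sum_univ_three]
  have h3 : c' (G y) = ∑ i : Fin 3, (G y) i * c' (EuclideanSpace.single i 1) := by
    conv_lhs => rw [hd]
    simp [map_sum]
  unfold divv
  have h4 : fderiv ℝ (fun y : E3 => c y • G y) y = _ := h2.fderiv
  rw [h4, h3]
  simp only [Fin.sum_univ_three, _root_.add_apply, _root_.smul_apply,
    ContinuousLinearMap.smulRight_apply, PiLp.add_apply, PiLp.smul_apply, smul_eq_mul]
  ring

/-- Derivative of a radial function off the origin. -/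
theorem FLD_rad {g : ℝ → ℝ} {g' : ℝ} {y : E3} (hy : y ≠ 0) (hg : HasDerivAt g g' ‖y‖) :
    HasFDerivAt (fun y : E3 => g ‖y‖) ((g' * ‖y‖⁻¹) • innerSL ℝ y) y := by
  have hn : 0 < ‖y‖ := norm_pos_iff.2 hy
  have h2 : HasFDerivAt (fun y : E3 => ‖y‖ ^ 2)
      (2 • (innerSL ℝ y).comp (ContinuousLinearMap.id ℝ E3)) y := (hasFDerivAt_id y).norm_sq
  have h3 : HasFDerivAt (fun y : E3 => Real.sqrt (‖y‖ ^ 2))
      ((1 / (2 * Real.sqrt (‖y‖ ^ 2))) • (2 • (innerSL ℝ y).comp
        (ContinuousLinearMap.id ℝ E3))) y :=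
    HasFDerivAt.sqrt h2 (by positivity)
  have h4 : (fun y : E3 => Real.sqrt (‖y‖ ^ 2)) = fun y : E3 => ‖y‖ := by
    funext z; exact Real.sqrt_sq (norm_nonneg _)
  rw [h4, Real.sqrt_sq (norm_nonneg _)] at h3
  have h5 := hg.comp_hasFDerivAt y h3
  refine h5.congr_fderiv ?_
  ext v
  simp only [_root_.smul_apply, ContinuousLinearMap.comp_apply, smul_eq_mul,
    ContinuousLinearMap.id_apply, nsmul_eq_mul, innerSL_apply_apply]
  field_simp
  norm_num

theorem FLD_dn (a : E3) : Continuous (dn a) := by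
  unfold dn
  exact continuous_norm.sub (continuous_id.inner continuous_const)

theorem FLD_q2 {a b y : E3} (h : 0 < dn a y + dn b y) : ContinuousAt (q2 a b) y := by
  unfold q2
  refine ContinuousAt.div continuousAt_const ?_ (by positivity)
  exact ((FLD_dn a).continuousAt.add (FLD_dn b).continuousAt).pow 2

theorem FLD_sq2 {a b y : E3} (ha : 0 < dn a y) (hb : 0 < dn b y) : ContinuousAt (sq2 a b) y := by
  unfold sq2
  refine ContinuousAt.div continuousAt_const ?_ (by positivity)
  exact (continuousAt_const.mul (FLD_dn a).continuousAt).mul (FLD_dn b).continuousAt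

/-- Zero near a point outside of the support of `κ`. -/
theorem FLD_zero {κ : ℝ → ℝ} {y : E3} (h : ‖y‖ ∉ tsupport κ) : ∀ᶠ z : E3 in 𝓝 y, κ ‖z‖ = 0 := by
  have h1 : (tsupport κ)ᶜ ∈ 𝓝 ‖y‖ := (isClosed_tsupport κ).isOpen_compl.mem_nhds h
  filter_upwards [continuous_norm.continuousAt.preimage_mem_nhds h1] with z hz
  exact image_eq_zero_of_notMem_tsupport hz

theorem p_FLD (hGL1 : Stmt_GL1) (hGL2 : Stmt_GL2) (hGL3 : Stmt_GL3) : Stmt_FLD := by
  intro a b κ m ha hb hab hκ hκc hκs hm hmc hms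
  obtain ⟨hUc, hU⟩ := hGL3.1 a b ha hb hab
  have hκpos : ∀ y : E3, ‖y‖ ∈ tsupport κ → y ≠ 0 := fun y hy h0 => by
    have h1 : (0 : ℝ) < ‖y‖ := hκs hy
    rw [h0, norm_zero] at h1
    exact lt_irrefl _ h1
  have hUat : ∀ y : E3, y ≠ 0 → ContinuousAt (UU a b) y := fun y hy =>
    hUc.continuousAt (isOpen_compl_singleton.mem_nhds hy)
  have hmz : ∀ y : E3, y ≠ 0 → UU a b y ∉ tsupport m → ∀ᶠ z : E3 in 𝓝 y, m (UU a b z) = 0 := by
    intro y hy h
    have h1 : (tsupport m)ᶜ ∈ 𝓝 (UU a b y) := (isClosed_tsupport m).isOpen_compl.mem_nhds h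
    filter_upwards [(hUat y hy).preimage_mem_nhds h1] with z hz
    exact image_eq_zero_of_notMem_tsupport hz
  have hdm : ∀ u : ℝ, u ∉ tsupport m → deriv m u = 0 := by
    intro u hu
    have h1 : ∀ᶠ w in 𝓝 u, m w = 0 := by
      filter_upwards [(isClosed_tsupport m).isOpen_compl.mem_nhds hu] with w hw
      exact image_eq_zero_of_notMem_tsupport hw
    have h2 : m =ᶠ[𝓝 u] fun _ => (0 : ℝ) := h1
    rw [h2.deriv_eq]
    simp
  -- the three cases
  have hcase : ∀ y : E3, (‖y‖ ∉ tsupport κ) ∨ (y ≠ 0 ∧ UU a b y ∉ tsupport m) ∨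
      (y ≠ 0 ∧ 0 < dn a y ∧ 0 < dn b y) := by
    intro y
    by_cases h1 : ‖y‖ ∈ tsupport κ
    · have hy := hκpos y h1
      by_cases h2 : UU a b y ∈ tsupport m
      · have h3 := hms h2
        exact Or.inr (Or.inr ⟨hy, (hU y hy).2.2.2.2.1 h3.1, (hU y hy).2.2.2.2.2 h3.2⟩)
      · exact Or.inr (Or.inl ⟨hy, h2⟩)
    · exact Or.inl h1
  have hfz1 : ∀ y : E3, κ ‖y‖ = 0 → fld a b κ m y = 0 := by
    intro y h
    simp [fld, h]
  have hfz2 : ∀ y : E3, m (UU a b y) = 0 → fld a b κ m y = 0 := by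
    intro y h
    simp [fld, h]
  have hev : ∀ y : E3, ((‖y‖ ∉ tsupport κ) ∨ (y ≠ 0 ∧ UU a b y ∉ tsupport m)) →
      fld a b κ m =ᶠ[𝓝 y] fun _ => 0 := by
    intro y h
    rcases h with h | ⟨hy, h⟩
    · filter_upwards [FLD_zero h] with z hz
      exact hfz1 z hz
    · filter_upwards [hmz y hy h] with z hz
      exact hfz2 z hz
  have hpi : (0 : ℝ) < 2 * Real.pi := by positivity
  have hts : ∀ y ∈ tsupport (fld a b κ m), ‖y‖ ∈ tsupport κ := by
    have hcl : IsClosed ((fun x : E3 => ‖x‖) ⁻¹' tsupport κ) :=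
      (isClosed_tsupport κ).preimage continuous_norm
    have h1 : tsupport (fld a b κ m) ⊆ (fun x : E3 => ‖x‖) ⁻¹' tsupport κ := by
      refine closure_minimal (fun x hx => ?_) hcl
      refine subset_tsupport κ ?_
      intro h0
      exact hx (hfz1 x h0)
    exact fun y hy => h1 hy
  refine ⟨?_, ?_, hts, ?_, ?_, ?_, ?_⟩
  · rw [contDiff_iff_contDiffAt]
    intro y
    rcases hcase y with h | h | ⟨hy, h1, h2⟩
    · exact contDiffAt_const.congr_of_eventuallyEq (hev y (Or.inl h))
    · exact contDiffAt_const.congr_of_eventuallyEq (hev y (Or.inr h))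
    · obtain ⟨-, hUd, hLd, -⟩ := hGL1 a b y ha hb h1 h2
      have hn : ContDiffAt ℝ 1 (fun y : E3 => ‖y‖) y := contDiffAt_id.norm ℝ hy
      have hn0 : 2 * Real.pi * ‖y‖ ≠ 0 := mul_ne_zero hpi.ne' (norm_ne_zero_iff.2 hy)
      have h3 : ContDiffAt ℝ 1 (fun y : E3 => κ ‖y‖) y := hκ.contDiffAt.comp y hn
      have h4 : ContDiffAt ℝ 1 (fun y : E3 => m (UU a b y)) y := hm.contDiffAt.comp y hUd
      have h5 : ContDiffAt ℝ 1 (fun y : E3 => 2 * Real.pi * ‖y‖) y := contDiffAt_const.mul hn
      exact ((h3.mul h4).div h5 hn0).smul hLd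
  · obtain ⟨R, hR⟩ := hκc.isBounded.subset_closedBall 0
    refine HasCompactSupport.intro (isCompact_closedBall (0 : E3) R) fun y hy => ?_
    refine hfz1 y ?_
    refine image_eq_zero_of_notMem_tsupport fun h => hy ?_
    have := hR h
    rw [mem_closedBall_zero_iff, norm_norm] at this
    rwa [mem_closedBall_zero_iff]
  · intro y
    have hzero : ((‖y‖ ∉ tsupport κ) ∨ (y ≠ 0 ∧ UU a b y ∉ tsupport m)) →
        divv (fld a b κ m) y = 0 := by
      intro h
      unfold divv
      rw [(hev y h).fderiv_eq]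
      simp
    rcases hcase y with h | h | ⟨hy, h1, h2⟩
    · rw [hzero (Or.inl h), image_eq_zero_of_notMem_tsupport h]
      simp
    · rw [hzero (Or.inr h), hdm _ h.2]
      simp
    · obtain ⟨hU1, -, hLd, hsq, hort, hq, -⟩ := hGL1 a b y ha hb h1 h2
      have hn : 0 < ‖y‖ := norm_pos_iff.2 hy
      have hκd : DifferentiableAt ℝ κ ‖y‖ := hκ.differentiable one_ne_zero _
      have hgd : DifferentiableAt ℝ (fun t : ℝ => κ t / (2 * Real.pi * t)) ‖y‖ := by
        refine hκd.div ?_ (by positivity)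
        exact (differentiableAt_const _).mul differentiableAt_id
      have hg := FLD_rad hy hgd.hasDerivAt
      have hmd : HasFDerivAt (fun y : E3 => m (UU a b y))
          (deriv m (UU a b y) • ((1 - UU a b y ^ 2) • innerSL ℝ (gL a b y))) y :=
        (hm.differentiable one_ne_zero _).hasDerivAt.comp_hasFDerivAt y hU1
      have hprod := hg.mul hmd
      have hL : DifferentiableAt ℝ (gL a b) y := hLd.differentiableAt one_ne_zero
      have hfl : fld a b κ m =
          fun y : E3 => (κ ‖y‖ / (2 * Real.pi * ‖y‖) * m (UU a b y)) • gL a b y := by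
        funext z
        unfold fld
        congr 1
        ring
      rw [hfl]
      have h6 := FLD_divv hprod hL
      refine h6.trans ?_
      rw [hGL2 a b y ha hb h1 h2, mul_zero, add_zero]
      simp only [_root_.add_apply, _root_.smul_apply, smul_eq_mul, innerSL_apply_apply,
        real_inner_self_eq_norm_sq]
      rw [real_inner_comm, hort, hsq, ← hq]
      ring
  · intro y
    have hrhs : (κ ‖y‖ = 0 ∨ m (UU a b y) = 0) → ‖fld a b κ m y‖ ≤
        |κ ‖y‖| * |m (UU a b y)| / (2 * Real.pi * ‖y‖) * sq2 a b y ^ (1 / 2 : ℝ) := by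
      rintro (h | h)
      · rw [hfz1 y h, h]
        simp
      · rw [hfz2 y h, h]
        simp
    rcases hcase y with h | h | ⟨hy, h1, h2⟩
    · exact hrhs (Or.inl (image_eq_zero_of_notMem_tsupport h))
    · exact hrhs (Or.inr (image_eq_zero_of_notMem_tsupport h.2))
    · obtain ⟨-, -, -, hsq, -⟩ := hGL1 a b y ha hb h1 h2
      have hL : ‖gL a b y‖ = sq2 a b y ^ (1 / 2 : ℝ) := by
        rw [← Real.sqrt_eq_rpow, ← hsq, Real.sqrt_sq (norm_nonneg _)]
      unfold fld
      rw [norm_smul, hL, Real.norm_eq_abs, abs_div, abs_mul, abs_of_nonneg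
        (by positivity : (0 : ℝ) ≤ 2 * Real.pi * ‖y‖)]
  · rw [continuous_iff_continuousAt]
    intro y
    rcases hcase y with h | h | ⟨hy, h1, h2⟩
    · refine continuousAt_const (y := (0 : ℝ)) |>.congr ?_
      filter_upwards [FLD_zero h] with z hz
      rw [hz]
      simp
    · refine continuousAt_const (y := (0 : ℝ)) |>.congr ?_
      filter_upwards [hmz y h.1 h.2] with z hz
      rw [hz, abs_zero, Real.zero_rpow (by norm_num)]
      simp
    · have hn : 0 < ‖y‖ := norm_pos_iff.2 hy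
      have h3 : ContinuousAt (fun y : E3 => κ ‖y‖) y :=
        (hκ.continuous.comp continuous_norm).continuousAt
      have h4 : ContinuousAt (fun y : E3 => |m (UU a b y)| ^ (3 / 2 : ℝ)) y := by
        have h5 : ContinuousAt (fun y : E3 => |m (UU a b y)|) y :=
          ((continuous_abs.comp hm.continuous).continuousAt (x := UU a b y)).comp (hUat y hy)
        exact h5.rpow_const (Or.inr (by norm_num))
      have h6 : ContinuousAt (wt a b) y := by
        unfold wt
        refine ContinuousAt.mul ?_ ?_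
        · exact continuous_norm.continuousAt.rpow_const (Or.inl hn.ne')
        · exact (FLD_sq2 h1 h2).rpow_const (Or.inr (by norm_num))
      exact (h3.mul h4).mul h6
  · intro ℓ hℓ
    rw [continuous_iff_continuousAt]
    intro y
    by_cases h : ‖y‖ ∈ tsupport κ
    · have hy := hκpos y h
      have hn : 0 < ‖y‖ := norm_pos_iff.2 hy
      have h3 : ContinuousAt (fun y : E3 => κ ‖y‖) y :=
        (hκ.continuous.comp continuous_norm).continuousAt
      have h4 : ContinuousAt (fun y : E3 => ℓ (UU a b y)) y :=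
        (hℓ.continuousAt (x := UU a b y)).comp (hUat y hy)
      exact ((h3.mul h4).mul (FLD_q2 (hU y hy).1)).div continuous_norm.continuousAt hn.ne'
    · refine continuousAt_const (y := (0 : ℝ)) |>.congr ?_
      filter_upwards [FLD_zero h] with z hz
      rw [hz]
      simp

end Pool.Flat
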