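import Pool.Agent.Work.MP_680515_fl.Iface5

/-! # Block HMP: from finite covers to the Hausdorff dimension -/

open MeasureTheory Set Filter Topology

namespace Pool.Flat

open Pool.Mart

open scoped ENNReal NNReal

theorem HMP_rho (e s η : ℝ) (_ : 0 ≤ e) (hs : 0 < s) (hη : 0 < η) :
    ∃ ρ : ℝ, e < ρ ∧ ρ ^ s ≤ e ^ s + η := by
  have h1 : ContinuousAt (fun x : ℝ => x ^ s) e := by
    exact (Real.continuous_rpow_const hs.le).continuousAt
  have h2 : ∀ᶠ x in 𝓝[>] e, x ^ s < e ^ s + η := by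
    apply (h1.tendsto.mono_left nhdsWithin_le_nhds).eventually_lt_const
    linarith
  have h3 : ∀ᶠ x in 𝓝[>] e, e < x := self_mem_nhdsWithin
  obtain ⟨ρ, hρ1, hρ2⟩ := (h2.and h3).exists
  exact ⟨ρ, hρ2, hρ1.le⟩

/-- The lower bound for one cover. -/
theorem HMP_cover (T : Set E3) (s c : ℝ) (hT : IsCompact T) (hs : 1 < s) (hc : 0 < c)
    (hcov : ∀ (N : ℕ) (U : Fin N → Set E3) (ρ : Fin N → ℝ), (∀ k, 0 < ρ k) →
      (∀ k, ∀ x ∈ U k, ∀ y ∈ U k, ‖x - y‖ ≤ ρ k) → T ⊆ ⋃ k, U k → c ≤ ∑ k, ρ k ^ s)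
    (t : ℕ → Set E3) (htT : T ⊆ ⋃ n, t n) (htd : ∀ n, Metric.ediam (t n) ≤ 1) :
    ENNReal.ofReal (c / 2) ≤ ∑' n, ⨆ _ : (t n).Nonempty, Metric.ediam (t n) ^ s := by
  have hs0 : 0 < s := by linarith
  have htop : ∀ n, Metric.ediam (t n) ≠ ⊤ := fun n =>
    ne_top_of_le_ne_top ENNReal.one_ne_top (htd n)
  set e : ℕ → ℝ := fun n => (Metric.ediam (t n)).toReal with he
  have he0 : ∀ n, 0 ≤ e n := fun n => ENNReal.toReal_nonneg
  have hη : ∀ n : ℕ, 0 < c * (1 / 2) ^ n / 4 := fun n => by positivity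
  choose ρ hρ1 hρ2 using fun n => HMP_rho (e n) s (c * (1 / 2) ^ n / 4) (he0 n) hs0 (hη n)
  have hρ0 : ∀ n, 0 < ρ n := fun n => (he0 n).trans_lt (hρ1 n)
  set δ : ℕ → ℝ := fun n => (ρ n - e n) / 2 with hδ
  have hδ0 : ∀ n, 0 < δ n := fun n => by
    have := hρ1 n
    rw [hδ]; simp only; linarith
  set U : ℕ → Set E3 := fun n => Metric.thickening (δ n) (t n) with hU
  have hUo : ∀ n, IsOpen (U n) := fun n => Metric.isOpen_thickening
  have hUT : T ⊆ ⋃ n, U n := htT.trans (iUnion_mono fun n =>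
    Metric.self_subset_thickening (hδ0 n) (t n))
  have hUd : ∀ n, ∀ x ∈ U n, ∀ y ∈ U n, ‖x - y‖ ≤ ρ n := by
    intro n x hx y hy
    obtain ⟨x', hx', hxx⟩ := Metric.mem_thickening_iff.mp hx
    obtain ⟨y', hy', hyy⟩ := Metric.mem_thickening_iff.mp hy
    have h1 : dist x' y' ≤ e n := by
      have h2 : edist x' y' ≤ Metric.ediam (t n) := Metric.edist_le_ediam_of_mem hx' hy'
      rw [dist_edist]
      exact ENNReal.toReal_mono (htop n) h2
    have h3 : dist x y ≤ dist x x' + dist x' y' + dist y' y := dist_triangle4 _ _ _ _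
    rw [dist_comm y y'] at hyy
    rw [← dist_eq_norm]
    have h4 : δ n + e n + δ n = ρ n := by rw [hδ]; simp only; ring
    linarith
  obtain ⟨F, hF⟩ := hT.elim_finite_subcover U hUo hUT
  obtain ⟨N, hN⟩ : ∃ N : ℕ, ∀ i ∈ F, i < N := ⟨F.sup id + 1, fun i hi =>
    Nat.lt_succ_of_le (Finset.le_sup (f := id) hi)⟩
  have hfin : T ⊆ ⋃ k : Fin N, U k := by
    intro x hx
    obtain ⟨i, hi, hxi⟩ := mem_iUnion₂.mp (hF hx)
    exact mem_iUnion.mpr ⟨⟨i, hN i hi⟩, hxi⟩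
  have hc1 : c ≤ ∑ k : Fin N, ρ k ^ s :=
    hcov N (fun k => U k) (fun k => ρ k) (fun k => hρ0 k) (fun k => hUd k) hfin
  have hc2 : ∑ k : Fin N, ρ k ^ s = ∑ k ∈ Finset.range N, ρ k ^ s :=
    Fin.sum_univ_eq_sum_range (fun k => ρ k ^ s) N
  have hc3 : ∑ k ∈ Finset.range N, ρ k ^ s ≤
      ∑ k ∈ Finset.range N, e k ^ s + ∑ k ∈ Finset.range N, c * (1 / 2) ^ k / 4 := by
    rw [← Finset.sum_add_distrib]
    exact Finset.sum_le_sum fun k _ => hρ2 k
  have hc4 : ∑ k ∈ Finset.range N, c * (1 / 2 : ℝ) ^ k / 4 ≤ c / 2 := by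
    have h1 : ∑ k ∈ Finset.range N, c * (1 / 2 : ℝ) ^ k / 4 =
        c / 4 * ∑ k ∈ Finset.range N, (1 / 2 : ℝ) ^ k := by
      rw [Finset.mul_sum]
      exact Finset.sum_congr rfl fun k _ => by ring
    have h2 : ∑ k ∈ Finset.range N, (1 / 2 : ℝ) ^ k ≤ 2 := by
      have h3 := Summable.sum_le_tsum (Finset.range N) (f := fun k : ℕ => (1 / 2 : ℝ) ^ k)
        (fun i _ => by positivity) summable_geometric_two
      rwa [tsum_geometric_two] at h3
    rw [h1]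
    nlinarith
  have hc5 : c / 2 ≤ ∑ k ∈ Finset.range N, e k ^ s := by linarith
  calc ENNReal.ofReal (c / 2) ≤ ENNReal.ofReal (∑ k ∈ Finset.range N, e k ^ s) :=
        ENNReal.ofReal_le_ofReal hc5
    _ = ∑ k ∈ Finset.range N, ENNReal.ofReal (e k ^ s) :=
        ENNReal.ofReal_sum_of_nonneg fun k _ => Real.rpow_nonneg (he0 k) s
    _ ≤ ∑ k ∈ Finset.range N, ⨆ _ : (t k).Nonempty, Metric.ediam (t k) ^ s := by
        refine Finset.sum_le_sum fun k _ => ?_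
        rcases (t k).eq_empty_or_nonempty with h | h
        · have h1 : e k = 0 := by rw [he]; simp [h]
          rw [h1, Real.zero_rpow hs0.ne', ENNReal.ofReal_zero]
          exact zero_le
        · refine le_iSup_of_le h ?_
          rw [← ENNReal.ofReal_rpow_of_nonneg (he0 k) hs0.le, he]
          simp only
          rw [ENNReal.ofReal_toReal (htop k)]
    _ ≤ ∑' n, ⨆ _ : (t n).Nonempty, Metric.ediam (t n) ^ s :=
        ENNReal.sum_le_tsum _

theorem p_HMP : Stmt_HMP := by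
  intro T s c hT hs hc hcov
  have hs0 : 0 < s := by linarith
  have h1 : ENNReal.ofReal (c / 2) ≤ μH[s] T := by
    rw [Measure.hausdorffMeasure_apply]
    refine le_iSup₂_of_le 1 one_pos ?_
    refine le_iInf fun t => le_iInf fun ht => le_iInf fun hd => ?_
    exact HMP_cover T s c hT hs hc hcov t ht hd
  have h2 : μH[s] T ≠ 0 := by
    intro h0
    rw [h0] at h1
    have h3 : 0 < ENNReal.ofReal (c / 2) := ENNReal.ofReal_pos.mpr (by linarith)
    exact absurd h1 (not_le.mpr h3)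
  have h4 : ((s.toNNReal : ℝ≥0) : ℝ) = s := Real.coe_toNNReal s hs0.le
  have h5 : ((s.toNNReal : ℝ≥0) : ℝ≥0∞) ≤ dimH T := by
    apply le_dimH_of_hausdorffMeasure_ne_zero
    rw [h4]
    exact h2
  refine lt_of_lt_of_le ?_ h5
  rw [← ENNReal.coe_one, ENNReal.coe_lt_coe]
  rw [← NNReal.coe_lt_coe, h4]
  exact hs

end Pool.Flat
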