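import Pool.Agent.Work.MP_680515_fl.Iface5
import Pool.Agent.Work.MP_680515_fl.B_LOC

/-!
# MP_680515_an, THEOREM D: block LOG (the local structure near a branch point)
-/

open MeasureTheory Set Filter Topology

namespace Pool.Flat

open Pool.Mart

theorem LOG_locinj (hW : Stmt_WOP) (φ ψ : OpenPartialHomeomorph E3 E3)
    (hφψ : ∀ x ∈ ψ.source, wind (ψ x) ∈ φ.source) {x : E3} (hx : x ∈ ψ.source)
    (h0 : ψ x 0 ≠ 0) :
    ∃ s : ℝ, 0 < s ∧ InjOn (fm φ ψ) (Metric.closedBall x s) := by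
  have hc : ContinuousAt (fun z => ψ z 0) x := by
    have h1 : Continuous fun v : E3 => v 0 := by fun_prop
    exact h1.continuousAt.comp (ψ.continuousAt hx)
  have h1 : ∀ᶠ z in 𝓝 x, 0 < ψ z 0 * ψ x 0 := by
    have h2 : ContinuousAt (fun z => ψ z 0 * ψ x 0) x := hc.mul continuousAt_const
    exact h2.eventually (lt_mem_nhds (mul_self_pos.mpr h0))
  have h2 : ∀ᶠ z in 𝓝 x, z ∈ ψ.source := ψ.open_source.mem_nhds hx
  obtain ⟨s, hs, hsub⟩ := Metric.nhds_basis_closedBall.mem_iff.mp (h1.and h2)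
  refine ⟨s, hs, fun z hz z' hz' hzz => ?_⟩
  obtain ⟨a1, a2⟩ := hsub hz
  obtain ⟨b1, b2⟩ := hsub hz'
  have e1 : wind (ψ z) = wind (ψ z') := φ.injOn (hφψ z a2) (hφψ z' b2) hzz
  have e3 : 0 < ψ z 0 * ψ z' 0 := by
    have h3 : 0 < (ψ z 0 * ψ x 0) * (ψ z' 0 * ψ x 0) := mul_pos a1 b1
    have h4 : 0 < ψ x 0 ^ 2 := by positivity
    have h5 : (ψ z 0 * ψ x 0) * (ψ z' 0 * ψ x 0) = (ψ z 0 * ψ z' 0) * ψ x 0 ^ 2 := by ring
    rw [h5] at h3
    exact pos_of_mul_pos_left h3 h4.le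
  rcases hW.2.2.2.2.1 _ _ e1 with h | h
  · exact (ψ.injOn b2 a2 h).symm
  · exfalso
    have h6 : ψ z' 0 = -(ψ z 0) := by
      rw [h]
      rfl
    rw [h6] at e3
    nlinarith [sq_nonneg (ψ z 0)]

theorem LOG_two (hW : Stmt_WOP) (φ ψ : OpenPartialHomeomorph E3 E3)
    (hφψ : ∀ x ∈ ψ.source, wind (ψ x) ∈ φ.source) {q : E3} (hq : q ∈ bset ψ.source ψ)
    {ρ : ℝ} (hρ : 0 < ρ) :
    ∃ x1 ∈ Metric.ball q ρ, ∃ x2 ∈ Metric.ball q ρ, x1 ≠ x2 ∧
      fm φ ψ x1 = fm φ ψ x2 ∧ ∃ s : ℝ, 0 < s ∧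
      InjOn (fm φ ψ) (Metric.closedBall x1 s) ∧
      InjOn (fm φ ψ) (Metric.closedBall x2 s) := by
  obtain ⟨hqs, hq0⟩ := hq
  obtain ⟨ha0, ha1⟩ := LOC_rad0 hq0
  have ha : ψ q ∈ ψ.target := ψ.map_source hqs
  have hnb : ψ.target ∩ ψ.symm ⁻¹' Metric.ball q ρ ∈ 𝓝 (ψ q) := by
    refine inter_mem (ψ.open_target.mem_nhds ha) ?_
    refine (ψ.continuousAt_symm ha).preimage_mem_nhds ?_
    rw [ψ.left_inv hqs]
    exact Metric.ball_mem_nhds q hρ
  obtain ⟨u, hu, hsub⟩ := Metric.nhds_basis_closedBall.mem_iff.mp hnb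
  have hn : ‖u • (EuclideanSpace.single 0 1 : E3)‖ = u := by
    rw [norm_smul, Real.norm_of_nonneg hu.le, PiLp.norm_single, norm_one, mul_one]
  have hy1 : ψ q + u • (EuclideanSpace.single 0 1 : E3) ∈ Metric.closedBall (ψ q) u := by
    rw [Metric.mem_closedBall, dist_eq_norm, add_sub_cancel_left, hn]
  have hy2 : ψ q - u • (EuclideanSpace.single 0 1 : E3) ∈ Metric.closedBall (ψ q) u := by
    rw [Metric.mem_closedBall, dist_eq_norm, sub_sub_cancel_left, norm_neg, hn]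
  obtain ⟨t1, b1⟩ := hsub hy1
  obtain ⟨t2, b2⟩ := hsub hy2
  have e1 : ψ (ψ.symm (ψ q + u • (EuclideanSpace.single 0 1 : E3))) =
      ψ q + u • (EuclideanSpace.single 0 1 : E3) := ψ.right_inv t1
  have e2 : ψ (ψ.symm (ψ q - u • (EuclideanSpace.single 0 1 : E3))) =
      ψ q - u • (EuclideanSpace.single 0 1 : E3) := ψ.right_inv t2
  have c10 : (ψ q + u • (EuclideanSpace.single 0 1 : E3)) 0 = u := by simp [ha0]
  have c11 : (ψ q + u • (EuclideanSpace.single 0 1 : E3)) 1 = 0 := by simp [ha1]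
  have c12 : (ψ q + u • (EuclideanSpace.single 0 1 : E3)) 2 = ψ q 2 := by simp
  have c20 : (ψ q - u • (EuclideanSpace.single 0 1 : E3)) 0 = -u := by simp [ha0]
  have c21 : (ψ q - u • (EuclideanSpace.single 0 1 : E3)) 1 = 0 := by simp [ha1]
  have c22 : (ψ q - u • (EuclideanSpace.single 0 1 : E3)) 2 = ψ q 2 := by simp
  have hsg : sg (ψ q + u • (EuclideanSpace.single 0 1 : E3)) =
      ψ q - u • (EuclideanSpace.single 0 1 : E3) := by
    ext i
    fin_cases i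
    · show -((ψ q + u • (EuclideanSpace.single 0 1 : E3)) 0) =
        (ψ q - u • (EuclideanSpace.single 0 1 : E3)) 0
      rw [c10, c20]
    · show -((ψ q + u • (EuclideanSpace.single 0 1 : E3)) 1) =
        (ψ q - u • (EuclideanSpace.single 0 1 : E3)) 1
      rw [c11, c21, neg_zero]
    · show (ψ q + u • (EuclideanSpace.single 0 1 : E3)) 2 =
        (ψ q - u • (EuclideanSpace.single 0 1 : E3)) 2
      rw [c12, c22]
  have hwind : wind (ψ q + u • (EuclideanSpace.single 0 1 : E3)) =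
      wind (ψ q - u • (EuclideanSpace.single 0 1 : E3)) := by
    rw [← hsg, hW.2.2.2.1]
  obtain ⟨s1, hs1, i1⟩ := LOG_locinj hW φ ψ hφψ (ψ.map_target t1) (by
    rw [e1, c10]
    exact hu.ne')
  obtain ⟨s2, hs2, i2⟩ := LOG_locinj hW φ ψ hφψ (ψ.map_target t2) (by
    rw [e2, c20]
    exact neg_ne_zero.mpr hu.ne')
  refine ⟨_, b1, _, b2, ?_, ?_, min s1 s2, lt_min hs1 hs2,
    i1.mono (Metric.closedBall_subset_closedBall (min_le_left _ _)),
    i2.mono (Metric.closedBall_subset_closedBall (min_le_right _ _))⟩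
  · intro h
    have h1 := congrArg (fun v => ψ v 0) h
    simp only [e1, e2, c10, c20] at h1
    linarith
  · unfold fm
    rw [e1, e2, hwind]

theorem p_LOG (hLDA : Stmt_LDA) (hWOP : Stmt_WOP) (hFOP : Stmt_FOP) : Stmt_LOG := by
  obtain ⟨H, hH, hL1⟩ := hLDA 1 le_rfl
  obtain ⟨D, hD, hL2⟩ := hLDA 2 (by norm_num)
  refine ⟨H, D, hH, hD, fun φ ψ A x0 R hWM hx0 hR => ?_⟩
  obtain ⟨R1, hR1, hR1s, hR1d⟩ := hL1 φ ψ A x0 hWM hx0
  obtain ⟨R2, hR2, hR2s, hR2d⟩ := hL2 φ ψ A x0 hWM hx0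
  obtain ⟨hfc, -, hfi⟩ := hFOP φ ψ hWM.src
  set R' := min (min R1 R2) R with hR'
  have hR'0 : 0 < R' := lt_min (lt_min hR1 hR2) hR
  have hR'1 : R' ≤ R1 := (min_le_left _ _).trans (min_le_left _ _)
  have hR'2 : R' ≤ R2 := (min_le_left _ _).trans (min_le_right _ _)
  have hR'3 : R' ≤ R := min_le_right _ _
  obtain ⟨hx0s, hx0r⟩ := hx0
  obtain ⟨hz0, hz1⟩ := LOC_rad0 hx0r
  have ha : ψ x0 ∈ ψ.target := ψ.map_source hx0s
  have hnb : ψ.target ∩ ψ.symm ⁻¹' Metric.ball x0 (R' / 4) ∈ 𝓝 (ψ x0) := by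
    refine inter_mem (ψ.open_target.mem_nhds ha) ?_
    refine (ψ.continuousAt_symm ha).preimage_mem_nhds ?_
    rw [ψ.left_inv hx0s]
    exact Metric.ball_mem_nhds x0 (by positivity)
  obtain ⟨a0, ha0, hsub⟩ := Metric.nhds_basis_closedBall.mem_iff.mp hnb
  set a := a0 / 2 with haa
  have hapos : 0 < a := by positivity
  have hn : ‖(e3 : E3)‖ = 1 := by
    unfold e3
    rw [PiLp.norm_single, norm_one]
  have hmem : ∀ t ∈ Icc (-2 : ℝ) 2, ψ x0 + (a * t) • e3 ∈ Metric.closedBall (ψ x0) a0 := by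
    intro t ht
    rw [Metric.mem_closedBall, dist_eq_norm, add_sub_cancel_left, norm_smul, hn, mul_one,
      Real.norm_eq_abs, abs_mul, abs_of_pos hapos]
    have h2 : |t| ≤ 2 := abs_le.mpr ⟨ht.1, ht.2⟩
    rw [haa]
    nlinarith
  have htar : ∀ t ∈ Icc (-2 : ℝ) 2, ψ x0 + (a * t) • e3 ∈ ψ.target := fun t ht =>
    (hsub (hmem t ht)).1
  have hnear : ∀ t ∈ Icc (-2 : ℝ) 2, dist (axc ψ x0 a t) x0 < R' / 4 := fun t ht =>
    (hsub (hmem t ht)).2
  have hψγ : ∀ t ∈ Icc (-2 : ℝ) 2, ψ (axc ψ x0 a t) = ψ x0 + (a * t) • e3 := fun t ht =>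
    ψ.right_inv (htar t ht)
  have hγc : ContinuousOn (axc ψ x0 a) (Icc (-2) 2) := by
    refine ψ.continuousOn_symm.comp (Continuous.continuousOn ?_) htar
    exact continuous_const.add ((continuous_const.mul continuous_id).smul continuous_const)
  have hγi : ∀ t ∈ Icc (-2 : ℝ) 2, ∀ t' ∈ Icc (-2 : ℝ) 2, axc ψ x0 a t = axc ψ x0 a t' →
      t = t' := by
    intro t ht t' ht' h
    have h1 := congrArg ψ h
    rw [hψγ t ht, hψγ t' ht', add_right_inj] at h1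
    have h2 := congrArg (fun v : E3 => v 2) h1
    have h3 : ∀ c : ℝ, (c • e3 : E3) 2 = c := by
      intro c
      simp [e3]
    simp only [h3] at h2
    exact mul_left_cancel₀ hapos.ne' h2
  have hgS : ∀ t ∈ Icc (-2 : ℝ) 2, axc ψ x0 a t ∈ bset ψ.source ψ := by
    intro t ht
    refine ⟨ψ.map_target (htar t ht), ?_⟩
    rw [hψγ t ht]
    unfold rad
    have h1 : (ψ x0 + (a * t) • e3) 0 = 0 := by simp [e3, hz0]
    have h2 : (ψ x0 + (a * t) • e3) 1 = 0 := by simp [e3, hz1]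
    rw [h1, h2]
    simp
  obtain ⟨m1, hm1, hm1'⟩ : ∃ m1 : ℝ, 0 < m1 ∧ ∀ b ∈ Icc (-2 : ℝ) 1,
      m1 ≤ ‖axc ψ x0 a (b + 1) - axc ψ x0 a b‖ := by
    refine isCompact_Icc.exists_forall_le' (f := fun b => ‖axc ψ x0 a (b + 1) - axc ψ x0 a b‖)
      ?_ (a := 0) ?_
    · refine ContinuousOn.norm (ContinuousOn.sub ?_ ?_)
      · exact hγc.comp (continuous_id.add continuous_const).continuousOn
          fun b hb => ⟨by linarith [hb.1], by linarith [hb.2]⟩
      · exact hγc.mono fun b hb => ⟨hb.1, by linarith [hb.2]⟩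
    · intro b hb
      rw [norm_pos_iff, sub_ne_zero]
      intro h
      have h1 := hγi (b + 1) ⟨by linarith [hb.1], by linarith [hb.2]⟩ b
        ⟨hb.1, by linarith [hb.2]⟩ h
      linarith
  obtain ⟨r0, hr0, hrR, hrm1⟩ : ∃ r0 : ℝ, 0 < r0 ∧ 8 * r0 ≤ R' / 4 ∧ 8 * r0 ≤ m1 := by
    refine ⟨min (R' / 32) (m1 / 8), lt_min (by positivity) (by positivity), ?_, ?_⟩
    · have h1 := min_le_left (R' / 32) (m1 / 8)
      linarith
    · have h1 := min_le_right (R' / 32) (m1 / 8)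
      linarith
  have hballR : ∀ t ∈ Icc (-2 : ℝ) 2, Metric.closedBall (axc ψ x0 a t) (8 * r0) ⊆
      Metric.ball x0 R' := by
    intro t ht x hx
    rw [Metric.mem_ball]
    have h1 := dist_triangle x (axc ψ x0 a t) x0
    have h2 := Metric.mem_closedBall.mp hx
    have h3 := hnear t ht
    linarith
  have hγball : ∀ t ∈ Icc (-2 : ℝ) 2, axc ψ x0 a t ∈ Metric.ball x0 R' := fun t ht =>
    hballR t ht (Metric.mem_closedBall_self (by positivity))
  have hs1 : Metric.ball x0 R' ⊆ Metric.ball x0 R1 := Metric.ball_subset_ball hR'1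
  have hs2 : Metric.ball x0 R' ⊆ Metric.ball x0 R2 := Metric.ball_subset_ball hR'2
  refine ⟨a, r0, hapos, fun t ht => ⟨htar t ht, Metric.ball_subset_ball hR'3 (hγball t ht)⟩, ?_⟩
  refine
    { rpos := hr0
      op := ψ.open_source
      cont := hfc
      wg := hWM.wg
      good := hWM.good
      gc := hγc
      far := ?_
      sub := fun t ht => (hballR t ht).trans (hs1.trans hR1s)
      gS := hgS
      inj := fun t ht x hx h => hfi x (hR1s (hs1 (hballR t ht hx))) _ (hgS t ht) h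
      br := fun t ht x hx y hy h => hR1d _ ⟨hgS t ht, hs1 (hγball t ht)⟩ x
        (hs1 (hballR t ht hx)) y (hs1 (hballR t ht hy)) (by rw [one_mul]; exact h)
      dbl := fun t ht x hx y hy h => hR2d _ ⟨hgS t ht, hs2 (hγball t ht)⟩ x
        (hs2 (hballR t ht hx)) y (hs2 (hballR t ht hy)) h
      two := fun t ht ρ hρ => LOG_two hWOP φ ψ hWM.src
        (hgS t ⟨by linarith [ht.1], by linarith [ht.2]⟩) hρ }
  intro t ht σ hσ hts
  rcases (abs_eq one_pos.le).mp hσ with rfl | rfl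
  · exact hrm1.trans (hm1' t ⟨ht.1, by linarith [hts.2]⟩)
  · have h1 := hm1' (t + -1) ⟨hts.1, by linarith [ht.2]⟩
    have h2 : t + -1 + 1 = t := by ring
    rw [h2, norm_sub_rev] at h1
    exact hrm1.trans h1

end Pool.Flat
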