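import Pool.Agent.Work.MP_680515_fl.Iface5

/-!
Block LOH: two connected sets with values near and far from a point, energy maps.
-/

open MeasureTheory Set Filter Topology

namespace Pool.Flat

open Pool.Mart

/-- the centre of the spheres -/
theorem LOH_geo (q1 e1 e2 : E3) :
    ∃ c : E3, ‖q1 - c‖ ≤ ‖e1 - e2‖ / 2 ∧
      (‖e1 - e2‖ ^ 2 / 2 ≤ ‖e2 - c‖ ^ 2 - ‖e1 - c‖ ^ 2 ∨
        ‖e1 - e2‖ ^ 2 / 2 ≤ ‖e1 - c‖ ^ 2 - ‖e2 - c‖ ^ 2) := by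
  have hr0 : 0 ≤ ‖e1 - e2‖ := norm_nonneg _
  by_cases h1 : ‖e1 - e2‖ ^ 2 / 2 ≤ ‖e2 - q1‖ ^ 2 - ‖e1 - q1‖ ^ 2
  · refine ⟨q1, ?_, Or.inl h1⟩
    rw [sub_self, norm_zero]
    linarith
  by_cases h2 : ‖e1 - e2‖ ^ 2 / 2 ≤ ‖e1 - q1‖ ^ 2 - ‖e2 - q1‖ ^ 2
  · refine ⟨q1, ?_, Or.inr h2⟩
    rw [sub_self, norm_zero]
    linarith
  · have h1' := not_le.1 h1
    have h2' := not_le.1 h2
    refine ⟨q1 - (1 / 2 : ℝ) • (e2 - e1), ?_, Or.inl ?_⟩
    · rw [sub_sub_cancel, norm_smul, norm_sub_rev e2 e1, Real.norm_of_nonneg (by norm_num)]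
      linarith
    · have k1 : e2 - (q1 - (1 / 2 : ℝ) • (e2 - e1)) = (e2 - q1) + (1 / 2 : ℝ) • (e2 - e1) := by
        abel
      have k2 : e1 - (q1 - (1 / 2 : ℝ) • (e2 - e1)) = (e1 - q1) + (1 / 2 : ℝ) • (e2 - e1) := by
        abel
      have k3 : inner ℝ (e2 - q1) ((1 / 2 : ℝ) • (e2 - e1))
          - inner ℝ (e1 - q1) ((1 / 2 : ℝ) • (e2 - e1)) = ‖e1 - e2‖ ^ 2 / 2 := by
        rw [← inner_sub_left, sub_sub_sub_cancel_right, inner_smul_right,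
          real_inner_self_eq_norm_sq, norm_sub_rev e2 e1]
        ring
      rw [k1, k2, norm_add_sq_real, norm_add_sq_real]
      linarith

/-- ratio of the radii -/
theorem LOH_ratio (M r a b : ℝ) (hM : 1 ≤ M) (hr : 0 < r) (ha : 0 ≤ a) (hb : 0 ≤ b)
    (h1 : r ^ 2 / 2 ≤ b ^ 2 - a ^ 2) (h2 : a ≤ (M + 2) * r) :
    0 < max a (r / 2) ∧ max a (r / 2) < b ∧
      1 / 2 * Real.log (1 + 1 / (2 * (M + 2) ^ 2)) ≤ Real.log (b / max a (r / 2)) := by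
  have hk : 0 < 2 * (M + 2) ^ 2 := by positivity
  have hk1 : 1 / (2 * (M + 2) ^ 2) ≤ 1 := by
    rw [div_le_one hk]
    nlinarith
  have hk0 : 0 < 1 / (2 * (M + 2) ^ 2) := by positivity
  have hρ : 0 < max a (r / 2) := lt_max_of_lt_right (by linarith)
  have hmain : (1 + 1 / (2 * (M + 2) ^ 2)) * max a (r / 2) ^ 2 ≤ b ^ 2 := by
    rcases le_total (r / 2) a with h | h
    · rw [max_eq_left h]
      have h3 : a ^ 2 ≤ ((M + 2) * r) ^ 2 := pow_le_pow_left₀ ha h2 2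
      have h4 : 1 / (2 * (M + 2) ^ 2) * a ^ 2 ≤ r ^ 2 / 2 := by
        rw [div_mul_eq_mul_div, one_mul, div_le_iff₀ hk]
        nlinarith
      nlinarith
    · rw [max_eq_right h]
      have h5 : 0 < r ^ 2 := by positivity
      have h6 : (1 + 1 / (2 * (M + 2) ^ 2)) * (r / 2) ^ 2 ≤ 2 * (r / 2) ^ 2 := by
        apply mul_le_mul_of_nonneg_right _ (by positivity)
        linarith
      nlinarith [sq_nonneg a]
  have hlt : max a (r / 2) < b := by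
    have h7 : max a (r / 2) ^ 2 < b ^ 2 := by
      have h8 : 0 < 1 / (2 * (M + 2) ^ 2) * max a (r / 2) ^ 2 := by positivity
      nlinarith
    exact lt_of_pow_lt_pow_left₀ 2 hb h7
  refine ⟨hρ, hlt, ?_⟩
  have h9 : 1 + 1 / (2 * (M + 2) ^ 2) ≤ (b / max a (r / 2)) ^ 2 := by
    rw [div_pow, le_div_iff₀ (by positivity)]
    exact hmain
  have h10 := Real.log_le_log (by positivity) h9
  rw [Real.log_pow] at h10
  push_cast at h10
  linarith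

/-- a connected set meets the sphere -/
theorem LOH_meet (E : Set E3) (hE : IsPreconnected E) (c u v : E3) (hu : u ∈ E) (hv : v ∈ E)
    (ρ : ℝ) (h1 : ‖u - c‖ ≤ ρ) (h2 : ρ ≤ ‖v - c‖) : ∃ x ∈ E, ‖x - c‖ = ρ := by
  have h3 := hE.intermediate_value hu hv (f := fun x => ‖x - c‖)
    ((continuous_id.sub continuous_const).norm.continuousOn)
  obtain ⟨x, hx, hxρ⟩ := h3 ⟨h1, h2⟩
  exact ⟨x, hx, hxρ⟩

/-- Two connected sets. -/
theorem p_LOH (hRGG : Stmt_RGG) : Stmt_LOH := by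
  obtain ⟨C1, hC1, hR⟩ := hRGG
  intro M K0 hM hK0
  have hκ : 0 < 1 / 2 * Real.log (1 + 1 / (2 * (M + 2) ^ 2)) := by
    have h1 : 0 < 1 / (2 * (M + 2) ^ 2) := by positivity
    have h2 := Real.log_pos (x := 1 + 1 / (2 * (M + 2) ^ 2)) (by linarith)
    linarith
  set κ := 1 / 2 * Real.log (1 + 1 / (2 * (M + 2) ^ 2)) with hκdef
  refine ⟨C1 * K0 / κ + 1, by positivity, ?_⟩
  intro Ω g A E F q e1 e2 q1 q2 l L hW hE hF he1 he2 hq1 hq2 hne h1 h2 hball hl hlL hEl hFL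
  have hr : 0 < ‖e1 - e2‖ := norm_pos_iff.2 (sub_ne_zero.2 hne)
  set r := ‖e1 - e2‖ with hrdef
  have core : ∀ c u v : E3, u ∈ E → v ∈ E → ‖q1 - c‖ ≤ r / 2 → ‖u - q1‖ ≤ (M + 1) * r →
      ‖v - q1‖ ≤ (M + 1) * r → r ^ 2 / 2 ≤ ‖v - c‖ ^ 2 - ‖u - c‖ ^ 2 →
      κ * Real.log (L / l) ^ 2 ≤ C1 * K0 := by
    intro c u v hu hv hc huq hvq hD
    have hu2 : ‖u - c‖ ≤ (M + 2) * r := by
      calc ‖u - c‖ = ‖(u - q1) + (q1 - c)‖ := by congr 1; abel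
        _ ≤ ‖u - q1‖ + ‖q1 - c‖ := norm_add_le _ _
        _ ≤ (M + 2) * r := by linarith
    have hv2 : ‖v - c‖ ≤ (M + 2) * r := by
      calc ‖v - c‖ = ‖(v - q1) + (q1 - c)‖ := by congr 1; abel
        _ ≤ ‖v - q1‖ + ‖q1 - c‖ := norm_add_le _ _
        _ ≤ (M + 2) * r := by linarith
    obtain ⟨r1, r2, r3⟩ := LOH_ratio M r ‖u - c‖ ‖v - c‖ hM hr (norm_nonneg _) (norm_nonneg _)
      hD hu2
    have hq2c : (M + 2) * r ≤ ‖q2 - c‖ := by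
      have h5 : ‖q2 - q1‖ ≤ ‖q2 - c‖ + ‖q1 - c‖ := by
        calc ‖q2 - q1‖ = ‖(q2 - c) - (q1 - c)‖ := by congr 1; abel
          _ ≤ ‖q2 - c‖ + ‖q1 - c‖ := norm_sub_le _ _
      have h6 : 0 < M * r := by positivity
      nlinarith
    have key := hR K0 Ω g A q c l L (max ‖u - c‖ (r / 2)) ‖v - c‖ hK0 hW hl hlL r1 r2 ?_ ?_
    · refine le_trans ?_ key
      exact mul_le_mul_of_nonneg_right r3 (sq_nonneg _)
    · rintro x ⟨-, hx⟩
      apply hball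
      rw [Metric.mem_closedBall, dist_eq_norm]
      calc ‖x - q1‖ = ‖(x - c) - (q1 - c)‖ := by congr 1; abel
        _ ≤ ‖x - c‖ + ‖q1 - c‖ := norm_sub_le _ _
        _ ≤ 4 * (M + 1) * r := by
          have h6 : 0 < M * r := by positivity
          nlinarith
    · rintro ρ ⟨hρ1, hρ2⟩
      obtain ⟨x, hx, hxρ⟩ := LOH_meet E hE c u v hu hv ρ
        ((le_max_left _ _).trans hρ1.le) hρ2.le
      obtain ⟨y, hy, hyρ⟩ := LOH_meet F hF c q1 q2 hq1 hq2 ρ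
        (hc.trans ((le_max_right _ _).trans hρ1.le)) (by linarith)
      exact ⟨x, y, hxρ, hyρ, hEl x hx, hFL y hy⟩
  have g1 : ‖e1 - q1‖ ≤ (M + 1) * r := by
    rw [norm_sub_rev]
    linarith
  have g2 : ‖e2 - q1‖ ≤ (M + 1) * r := by
    calc ‖e2 - q1‖ = ‖(e2 - e1) + (e1 - q1)‖ := by congr 1; abel
      _ ≤ ‖e2 - e1‖ + ‖e1 - q1‖ := norm_add_le _ _
      _ ≤ (M + 1) * r := by
        rw [norm_sub_rev e2 e1, norm_sub_rev e1 q1]
        linarith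
  have hfin : κ * Real.log (L / l) ^ 2 ≤ C1 * K0 := by
    obtain ⟨c, hc, hD | hD⟩ := LOH_geo q1 e1 e2
    · exact core c e1 e2 he1 he2 hc g1 g2 hD
    · exact core c e2 e1 he2 he1 hc g2 g1 hD
  have h11 : Real.log (L / l) ^ 2 ≤ C1 * K0 / κ := by
    rw [le_div_iff₀ hκ]
    linarith
  nlinarith [sq_nonneg (Real.log (L / l) - 1), sq_nonneg (Real.log (L / l))]

end Pool.Flat
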