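import Pool.Agent.Work.MP_680515_fl.Iface4

/-!
# Block MOR: Morrey inequality on a sphere
-/

open MeasureTheory Set Filter Topology

namespace Pool.Flat

open Pool.Mart

/-! ### Continuity, gradients -/

theorem MOR_sph_cont (ρ : ℝ) : Continuous fun q : ℝ × ℝ => sph ρ q.1 q.2 := by
  unfold sph
  refine (PiLp.continuous_toLp 2 _).comp (continuous_pi fun i => ?_)
  fin_cases i
  · simp only [Fin.zero_eta, Matrix.cons_val_zero]
    fun_prop
  · simp only [Fin.mk_one, Matrix.cons_val_one, Matrix.cons_val_zero]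
    fun_prop
  · simp only [Fin.reduceFinMk, Matrix.cons_val]
    fun_prop

theorem MOR_cont_gradv {φ : E3 → ℝ} (hφ : ContDiff ℝ 1 φ) : Continuous (gradv φ) := by
  have h1 : Continuous (fderiv ℝ φ) := hφ.continuous_fderiv (by norm_num)
  unfold gradv
  refine (PiLp.continuous_toLp 2 _).comp (continuous_pi fun j => ?_)
  exact h1.clm_apply continuous_const

theorem MOR_dual (L : E3 →L[ℝ] ℝ) :
    (WithLp.toLp 2 fun j => L (EuclideanSpace.single j 1) : E3) =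
      (InnerProductSpace.toDual ℝ E3).symm L := by
  ext j
  have h : inner ℝ ((InnerProductSpace.toDual ℝ E3).symm L) (EuclideanSpace.single j 1 : E3) =
      L (EuclideanSpace.single j 1) := InnerProductSpace.toDual_symm_apply
  rw [real_inner_comm, EuclideanSpace.inner_single_left] at h
  simpa using h.symm

theorem MOR_gradv_norm (w : E3 → ℝ) (y : E3) : ‖gradv w y‖ = ‖fderiv ℝ w y‖ := by
  unfold gradv
  rw [MOR_dual, LinearIsometryEquiv.norm_map]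

theorem MOR_fderiv_le (w : E3 → ℝ) (y d : E3) : |fderiv ℝ w y d| ≤ ‖gradv w y‖ * ‖d‖ := by
  rw [MOR_gradv_norm, ← Real.norm_eq_abs]
  exact (fderiv ℝ w y).le_opNorm d

theorem MOR_gradv_comp (v : E3 → ℝ) (hv : ContDiff ℝ 1 v) (c : E3) (R : E3 ≃ₗᵢ[ℝ] E3) (y : E3) :
    ‖gradv (fun y => v (c + R y)) y‖ = ‖gradv v (c + R y)‖ := by
  rw [MOR_gradv_norm, MOR_gradv_norm]
  have h1 : HasFDerivAt (fun y => v (c + R y))
      ((fderiv ℝ v (c + R y)).comp (R.toLinearIsometry.toContinuousLinearMap)) y := by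
    have h2 : HasFDerivAt v (fderiv ℝ v (c + R y)) (c + R y) :=
      (hv.differentiable (by norm_num)).differentiableAt.hasFDerivAt
    have h3 : HasFDerivAt (fun y => c + R y) (R.toLinearIsometry.toContinuousLinearMap) y :=
      (R.toLinearIsometry.toContinuousLinearMap.hasFDerivAt).const_add c
    exact h2.comp y h3
  rw [h1.fderiv]
  exact ContinuousLinearMap.opNorm_comp_linearIsometryEquiv _ R

theorem MOR_sph_deriv (ρ θ u : ℝ) (hu : u ∈ Ioo (-1 : ℝ) 1) : ∃ d : E3,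
    HasDerivAt (fun u => sph ρ u θ) d u ∧ ‖d‖ ^ 2 = ρ ^ 2 / (1 - u ^ 2) := by
  have hpos : 0 < 1 - u ^ 2 := by nlinarith [hu.1, hu.2]
  have hs : 0 < Real.sqrt (1 - u ^ 2) := Real.sqrt_pos.2 hpos
  have hs2 : Real.sqrt (1 - u ^ 2) ^ 2 = 1 - u ^ 2 := Real.sq_sqrt hpos.le
  have h1 : HasDerivAt (fun u : ℝ => Real.sqrt (1 - u ^ 2)) (-u / Real.sqrt (1 - u ^ 2)) u := by
    have h2 : HasDerivAt (fun u : ℝ => 1 - u ^ 2) (-(2 * u)) u := by
      have h3 := (hasDerivAt_pow 2 u).const_sub 1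
      simpa using h3
    have h4 := h2.sqrt hpos.ne'
    convert h4 using 1
    field_simp
  refine ⟨WithLp.toLp 2 ![ρ * (-u / Real.sqrt (1 - u ^ 2)) * Real.cos θ,
    ρ * (-u / Real.sqrt (1 - u ^ 2)) * Real.sin θ, ρ], ?_, ?_⟩
  · have h5 : HasDerivAt (fun u : ℝ => (![ρ * Real.sqrt (1 - u ^ 2) * Real.cos θ,
        ρ * Real.sqrt (1 - u ^ 2) * Real.sin θ, ρ * u] : Fin 3 → ℝ))
        (![ρ * (-u / Real.sqrt (1 - u ^ 2)) * Real.cos θ,
          ρ * (-u / Real.sqrt (1 - u ^ 2)) * Real.sin θ, ρ] : Fin 3 → ℝ) u := by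
      rw [hasDerivAt_pi]
      intro i
      fin_cases i
      · exact (h1.const_mul ρ).mul_const _
      · exact (h1.const_mul ρ).mul_const _
      · simpa using (hasDerivAt_id u).const_mul ρ
    exact ((EuclideanSpace.equiv (Fin 3) ℝ).symm.toContinuousLinearMap.hasFDerivAt).comp_hasDerivAt
      u h5
  · rw [EuclideanSpace.norm_sq_eq, Fin.sum_univ_three]
    simp only [Matrix.cons_val_zero, Matrix.cons_val_one, Matrix.cons_val, Real.norm_eq_abs,
      sq_abs]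
    have h6 := Real.sin_sq_add_cos_sq θ
    have h7 : (ρ * (-u / Real.sqrt (1 - u ^ 2)) * Real.cos θ) ^ 2 +
        (ρ * (-u / Real.sqrt (1 - u ^ 2)) * Real.sin θ) ^ 2 + ρ ^ 2 =
        ρ ^ 2 * (u ^ 2 / Real.sqrt (1 - u ^ 2) ^ 2) * (Real.sin θ ^ 2 + Real.cos θ ^ 2)
          + ρ ^ 2 := by
      field_simp
      ring
    rw [h7, h6, hs2]
    field_simp
    ring

/-! ### The estimate on one meridian -/

theorem MOR_path (hI : Stmt_I0X) (g : E3 → ℝ) (hg : ContDiff ℝ 1 g) (ρ θ a : ℝ) (hρ : 0 < ρ)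
    (ha : a ∈ Icc (-1 : ℝ) 1) :
    |g (sph ρ 1 θ) - g (sph ρ a θ)| ^ 3 ≤
      ρ ^ 3 * I0 ^ 2 * ∫ u in (-1 : ℝ)..1, ‖gradv g (sph ρ u θ)‖ ^ 3 := by
  obtain ⟨hI1, hI2, hI3⟩ := hI
  set h : ℝ → ℝ := fun u => g (sph ρ u θ) with hh
  set G : ℝ → ℝ := fun u => ‖gradv g (sph ρ u θ)‖ with hG
  set k : ℝ → ℝ := fun u => (1 - u ^ 2) ^ (-(1 / 2) : ℝ) with hk
  have hsc : Continuous fun u : ℝ => sph ρ u θ :=
    (MOR_sph_cont ρ).comp (continuous_id.prodMk continuous_const)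
  have hhc : Continuous h := hg.continuous.comp hsc
  have hGc : Continuous G := ((MOR_cont_gradv hg).comp hsc).norm
  have hG0 : ∀ u, 0 ≤ G u := fun u => norm_nonneg _
  obtain ⟨K, hK⟩ := isCompact_Icc.exists_bound_of_continuousOn
    (hGc.continuousOn (s := Icc (-1 : ℝ) 1))
  have hKI : ∀ u ∈ Ioo (-1 : ℝ) 1, G u ≤ K := by
    intro u hu
    have := hK u (Ioo_subset_Icc_self hu)
    rwa [Real.norm_of_nonneg (hG0 u)] at this
  have hpos : ∀ u ∈ Ioo (-1 : ℝ) 1, 0 < 1 - u ^ 2 := fun u hu => by nlinarith [hu.1, hu.2]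
  have hk0 : ∀ u ∈ Ioo (-1 : ℝ) 1, 0 ≤ k u := fun u hu => Real.rpow_nonneg (hpos u hu).le _
  have hkm : Measurable k := by
    rw [hk]
    fun_prop
  have hIoo : MeasurableSet (Ioo (-1 : ℝ) 1) := measurableSet_Ioo
  -- `k` is in `L^{3/2}`
  have hk32 : ∀ u ∈ Ioo (-1 : ℝ) 1, k u ^ (3 / 2 : ℝ) = (1 - u ^ 2) ^ (-(3 / 4) : ℝ) := by
    intro u hu
    rw [hk]
    simp only
    rw [← Real.rpow_mul (hpos u hu).le]
    norm_num
  have hkL : MemLp k (ENNReal.ofReal (3 / 2)) (volume.restrict (Ioo (-1 : ℝ) 1)) := by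
    rw [← integrable_norm_rpow_iff hkm.aestronglyMeasurable (by simp) (by simp)]
    rw [ENNReal.toReal_ofReal (by norm_num)]
    refine (integrableOn_congr_fun (fun u hu => ?_) hIoo).2 hI1
    rw [Real.norm_of_nonneg (hk0 u hu), hk32 u hu]
  have hGL : MemLp G (ENNReal.ofReal 3) (volume.restrict (Ioo (-1 : ℝ) 1)) := by
    refine MemLp.of_bound hGc.aestronglyMeasurable K ?_
    rw [ae_restrict_iff' hIoo]
    exact Eventually.of_forall fun u hu => by
      rw [Real.norm_of_nonneg (hG0 u)]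
      exact hKI u hu
  have hkI : IntegrableOn k (Ioo (-1 : ℝ) 1) := hkL.integrable (by
    rw [← ENNReal.ofReal_one]
    exact ENNReal.ofReal_le_ofReal (by norm_num))
  have hGk : IntegrableOn (fun u => ρ * (G u * k u)) (Ioo (-1 : ℝ) 1) := by
    refine Integrable.const_mul ?_ ρ
    refine Integrable.mono' (hkI.const_mul K)
      ((hGc.measurable.mul hkm).aestronglyMeasurable) ?_
    rw [ae_restrict_iff' hIoo]
    refine Eventually.of_forall fun u hu => ?_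
    rw [Real.norm_of_nonneg (mul_nonneg (hG0 u) (hk0 u hu))]
    exact mul_le_mul_of_nonneg_right (hKI u hu) (hk0 u hu)
  -- the derivative
  have hder : ∀ u ∈ Ioo (-1 : ℝ) 1, HasDerivAt h (deriv h u) u ∧
      |deriv h u| ≤ ρ * (G u * k u) := by
    intro u hu
    obtain ⟨d, hd, hdn⟩ := MOR_sph_deriv ρ θ u hu
    have h1 : HasDerivAt h (fderiv ℝ g (sph ρ u θ) d) u :=
      ((hg.differentiable (by norm_num)).differentiableAt.hasFDerivAt).comp_hasDerivAt u hd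
    refine ⟨h1.differentiableAt.hasDerivAt, ?_⟩
    rw [h1.deriv]
    refine (MOR_fderiv_le g _ d).trans ?_
    have h2 : ‖d‖ = ρ * k u := by
      have h3 : k u ^ 2 = (1 - u ^ 2)⁻¹ := by
        rw [hk]
        simp only
        rw [← Real.rpow_natCast, ← Real.rpow_mul (hpos u hu).le]
        norm_num
        rw [Real.rpow_neg_one]
      have h4 : ‖d‖ ^ 2 = (ρ * k u) ^ 2 := by
        rw [hdn, mul_pow, h3, div_eq_mul_inv]
      exact (pow_left_inj₀ (norm_nonneg _) (mul_nonneg hρ.le (hk0 u hu)) (by norm_num)).1 h4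
    rw [h2]
    apply le_of_eq
    ring
  have hdI : IntegrableOn (deriv h) (Ioo (-1 : ℝ) 1) := by
    refine Integrable.mono' hGk (measurable_deriv h).aestronglyMeasurable ?_
    rw [ae_restrict_iff' hIoo]
    exact Eventually.of_forall fun u hu => (hder u hu).2
  -- fundamental theorem of calculus
  have hsub : Ioo a 1 ⊆ Ioo (-1 : ℝ) 1 := Ioo_subset_Ioo_left ha.1
  have hint : IntervalIntegrable (deriv h) volume a 1 := by
    rw [intervalIntegrable_iff_integrableOn_Ioo_of_le ha.2]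
    exact hdI.mono_set hsub
  have hftc : ∫ u in a..1, deriv h u = h 1 - h a :=
    intervalIntegral.integral_eq_sub_of_hasDerivAt_of_le ha.2 hhc.continuousOn
      (fun u hu => (hder u (hsub hu)).1) hint
  have h1 : |h 1 - h a| ≤ ρ * ∫ u in Ioo (-1 : ℝ) 1, G u * k u := by
    rw [← hftc]
    calc |∫ u in a..1, deriv h u| ≤ ∫ u in a..1, |deriv h u| :=
          intervalIntegral.abs_integral_le_integral_abs ha.2
      _ = ∫ u in Ioo a 1, |deriv h u| := by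
          rw [intervalIntegral.integral_of_le ha.2, integral_Ioc_eq_integral_Ioo]
      _ ≤ ∫ u in Ioo (-1 : ℝ) 1, |deriv h u| :=
          setIntegral_mono_set hdI.abs (Eventually.of_forall fun u => abs_nonneg _)
            (Eventually.of_forall hsub)
      _ ≤ ∫ u in Ioo (-1 : ℝ) 1, ρ * (G u * k u) :=
          setIntegral_mono_on hdI.abs hGk hIoo (fun u hu => (hder u hu).2)
      _ = ρ * ∫ u in Ioo (-1 : ℝ) 1, G u * k u := integral_const_mul _ _
  -- Hölder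
  have hpq : (3 : ℝ).HolderConjugate (3 / 2) := by
    rw [Real.holderConjugate_iff]
    constructor <;> norm_num
  have hH := integral_mul_le_Lp_mul_Lq_of_nonneg hpq
    (μ := volume.restrict (Ioo (-1 : ℝ) 1)) (f := G) (g := k)
    (Eventually.of_forall hG0) ((ae_restrict_iff' hIoo).2 (Eventually.of_forall hk0)) hGL hkL
  have e1 : ∫ u in Ioo (-1 : ℝ) 1, k u ^ (3 / 2 : ℝ) = I0 := by
    rw [hI3]
    exact setIntegral_congr_fun hIoo (fun u hu => hk32 u hu)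
  have e2 : ∫ u in Ioo (-1 : ℝ) 1, G u ^ (3 : ℝ) = ∫ u in (-1 : ℝ)..1, G u ^ 3 := by
    rw [intervalIntegral.integral_of_le (by norm_num), integral_Ioc_eq_integral_Ioo]
    refine setIntegral_congr_fun hIoo (fun u _ => ?_)
    rw [← Real.rpow_natCast]
    norm_num
  rw [e1, e2] at hH
  obtain ⟨T, hT⟩ : ∃ T, T = ∫ u in (-1 : ℝ)..1, G u ^ 3 := ⟨_, rfl⟩
  have hT0 : 0 ≤ T := by
    rw [hT]
    exact intervalIntegral.integral_nonneg (by norm_num) (fun u _ => pow_nonneg (hG0 u) 3)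
  rw [← hT] at hH ⊢
  have hJ0 : 0 ≤ ∫ u in Ioo (-1 : ℝ) 1, G u * k u :=
    setIntegral_nonneg hIoo (fun u hu => mul_nonneg (hG0 u) (hk0 u hu))
  have h2 : (∫ u in Ioo (-1 : ℝ) 1, G u * k u) ^ 3 ≤ I0 ^ 2 * T := by
    calc (∫ u in Ioo (-1 : ℝ) 1, G u * k u) ^ 3
        ≤ (T ^ (1 / 3 : ℝ) * I0 ^ (1 / (3 / 2) : ℝ)) ^ 3 := pow_le_pow_left₀ hJ0 hH 3
      _ = I0 ^ 2 * T := by
          rw [mul_pow, ← Real.rpow_natCast (T ^ _), ← Real.rpow_natCast (I0 ^ _),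
            ← Real.rpow_mul hT0, ← Real.rpow_mul hI2.le]
          norm_num
          ring
  calc |h 1 - h a| ^ 3 ≤ (ρ * ∫ u in Ioo (-1 : ℝ) 1, G u * k u) ^ 3 :=
        pow_le_pow_left₀ (abs_nonneg _) h1 3
    _ = ρ ^ 3 * (∫ u in Ioo (-1 : ℝ) 1, G u * k u) ^ 3 := mul_pow _ _ _
    _ ≤ ρ ^ 3 * (I0 ^ 2 * T) := mul_le_mul_of_nonneg_left h2 (by positivity)
    _ = ρ ^ 3 * I0 ^ 2 * T := by ring

/-! ### Integrals over spheres -/

theorem MOR_fcont {F : E3 → ℝ} (hF : Continuous F) (c : E3) (ρ : ℝ) :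
    Continuous (Function.uncurry fun u θ : ℝ => F (c + sph ρ u θ)) :=
  hF.comp (continuous_const.add (MOR_sph_cont ρ))

theorem MOR_ucont {F : E3 → ℝ} (hF : Continuous F) (c : E3) (ρ u : ℝ) :
    Continuous fun θ : ℝ => F (c + sph ρ u θ) :=
  (MOR_fcont hF c ρ).comp (continuous_const.prodMk continuous_id)

theorem MOR_icont {F : E3 → ℝ} (hF : Continuous F) (c : E3) (ρ : ℝ) :
    Continuous fun u : ℝ => ∫ θ in (0 : ℝ)..(2 * Real.pi), F (c + sph ρ u θ) :=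
  intervalIntegral.continuous_parametric_intervalIntegral_of_continuous' (MOR_fcont hF c ρ) _ _

theorem MOR_SI_mono {F G : E3 → ℝ} (hF : Continuous F) (hG : Continuous G) (c : E3) (ρ : ℝ)
    (h : ∀ y, F y ≤ G y) : SI c ρ F ≤ SI c ρ G := by
  unfold SI
  refine intervalIntegral.integral_mono_on (by norm_num) ((MOR_icont hF c ρ).intervalIntegrable _ _)
    ((MOR_icont hG c ρ).intervalIntegrable _ _) (fun u _ => ?_)
  exact intervalIntegral.integral_mono_on (by positivity)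
    ((MOR_ucont hF c ρ u).intervalIntegrable _ _)
    ((MOR_ucont hG c ρ u).intervalIntegrable _ _) (fun θ _ => h _)

theorem MOR_SI_add {F G : E3 → ℝ} (hF : Continuous F) (hG : Continuous G) (c : E3) (ρ : ℝ) :
    SI c ρ (fun y => F y + G y) = SI c ρ F + SI c ρ G := by
  unfold SI
  rw [← intervalIntegral.integral_add ((MOR_icont hF c ρ).intervalIntegrable _ _)
    ((MOR_icont hG c ρ).intervalIntegrable _ _)]
  congr 1
  ext u
  rw [← intervalIntegral.integral_add ((MOR_ucont hF c ρ u).intervalIntegrable _ _)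
    ((MOR_ucont hG c ρ u).intervalIntegrable _ _)]

theorem MOR_SI_const (c : E3) (ρ K : ℝ) : SI c ρ (fun _ => K) = 4 * Real.pi * K := by
  unfold SI
  simp only [intervalIntegral.integral_const, smul_eq_mul]
  ring

theorem MOR_SI_smul (F : E3 → ℝ) (c : E3) (ρ K : ℝ) : SI c ρ (fun y => K * F y) = K * SI c ρ F := by
  unfold SI
  simp only [intervalIntegral.integral_const_mul]

theorem MOR_SI_trans (F : E3 → ℝ) (c : E3) (ρ : ℝ) : SI 0 ρ (fun y => F (c + y)) = SI c ρ F := by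
  unfold SI
  simp only [zero_add]

theorem MOR_swap {H : ℝ → ℝ → ℝ} (hH : Continuous (Function.uncurry H)) {a b c d : ℝ}
    (hab : a ≤ b) (hcd : c ≤ d) :
    ∫ u in a..b, ∫ θ in c..d, H u θ = ∫ θ in c..d, ∫ u in a..b, H u θ := by
  simp only [intervalIntegral.integral_of_le hab, intervalIntegral.integral_of_le hcd]
  apply integral_integral_swap
  rw [Measure.prod_restrict]
  have h1 : IntegrableOn (Function.uncurry H) (Icc a b ×ˢ Icc c d) (volume.prod volume) :=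
    hH.continuousOn.integrableOn_compact (isCompact_Icc.prod isCompact_Icc)
  exact h1.mono_set (prod_mono Ioc_subset_Icc_self Ioc_subset_Icc_self)

theorem MOR_pole (ρ θ : ℝ) : sph ρ 1 θ = sph ρ 1 0 := by
  unfold sph
  simp

theorem MOR_pole_norm (ρ : ℝ) (hρ : 0 < ρ) : ‖sph ρ 1 0‖ = ρ := by
  rw [EuclideanSpace.norm_eq, Fin.sum_univ_three]
  unfold sph
  simp [Real.sqrt_sq hρ.le]

theorem MOR_rot (ρ : ℝ) (hρ : 0 < ρ) (w : E3) (hw : ‖w‖ = ρ) :
    ∃ R : E3 ≃ₗᵢ[ℝ] E3, R (sph ρ 1 0) = w := by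
  obtain ⟨e, he⟩ : ∃ e, e = sph ρ 1 0 := ⟨_, rfl⟩
  have h : ‖e‖ = ‖w‖ := by rw [he, MOR_pole_norm ρ hρ, hw]
  rw [← he]
  exact ⟨Submodule.reflection (Submodule.span ℝ {e - w})ᗮ, Submodule.reflection_sub h⟩

theorem MOR_SI_swap {F : E3 → ℝ} (hF : Continuous F) (ρ : ℝ) :
    (Continuous fun θ : ℝ => ∫ u in (-1 : ℝ)..1, F (sph ρ u θ)) ∧
    SI 0 ρ F = ∫ θ in (0 : ℝ)..(2 * Real.pi), ∫ u in (-1 : ℝ)..1, F (sph ρ u θ) := by
  have h1 : Continuous fun q : ℝ × ℝ => F (sph ρ q.1 q.2) := hF.comp (MOR_sph_cont ρ)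
  have h2 : Continuous fun q : ℝ × ℝ => F (sph ρ q.2 q.1) :=
    h1.comp (continuous_snd.prodMk continuous_fst)
  constructor
  · exact intervalIntegral.continuous_parametric_intervalIntegral_of_continuous'
      (f := fun θ u : ℝ => F (sph ρ u θ)) h2 _ _
  · unfold SI
    simp only [zero_add]
    exact MOR_swap (H := fun u θ : ℝ => F (sph ρ u θ)) h1 (by norm_num) (by positivity)

theorem MOR_int (hI : Stmt_I0X) (g : E3 → ℝ) (hgC : ContDiff ℝ 1 g) (k ρ : ℝ) (hρ : 0 < ρ)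
    (hgx : ∀ θ : ℝ, g (sph ρ 1 θ) = k) :
    SI 0 ρ (fun y => |k - g y| ^ 3) ≤
      2 * (ρ ^ 3 * I0 ^ 2) * SI 0 ρ (fun y => ‖gradv g y‖ ^ 3) := by
  have hGg : Continuous fun z => ‖gradv g z‖ ^ 3 := (MOR_cont_gradv hgC).norm.pow 3
  have hgc : Continuous g := hgC.continuous
  have hF' : Continuous fun z => |k - g z| ^ 3 := (continuous_const.sub hgc).abs.pow 3
  obtain ⟨hS, e3⟩ := MOR_SI_swap hGg ρ
  rw [e3]
  have h0 : ∀ u ∈ Icc (-1 : ℝ) 1, ∀ θ : ℝ, |k - g (0 + sph ρ u θ)| ^ 3 ≤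
      ρ ^ 3 * I0 ^ 2 * ∫ u in (-1 : ℝ)..1, ‖gradv g (sph ρ u θ)‖ ^ 3 := by
    intro u hu θ
    rw [zero_add, ← hgx θ]
    exact MOR_path hI g hgC ρ θ u hρ hu
  obtain ⟨F, hFd⟩ : ∃ F : E3 → ℝ, F = fun z => |k - g z| ^ 3 := ⟨_, rfl⟩
  obtain ⟨S, hSd⟩ : ∃ S : ℝ → ℝ, S = fun θ => ∫ u in (-1 : ℝ)..1, ‖gradv g (sph ρ u θ)‖ ^ 3 :=
    ⟨_, rfl⟩
  obtain ⟨B, hB⟩ : ∃ B : ℝ, B = ρ ^ 3 * I0 ^ 2 := ⟨_, rfl⟩
  have h0' : ∀ u ∈ Icc (-1 : ℝ) 1, ∀ θ : ℝ, F (0 + sph ρ u θ) ≤ B * S θ := by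
    intro u hu θ
    rw [hFd, hSd, hB]
    exact h0 u hu θ
  rw [← hFd] at hF' ⊢
  rw [← hSd] at hS
  have e4 : (∫ θ in (0 : ℝ)..(2 * Real.pi),
      ∫ u in (-1 : ℝ)..1, ‖gradv g (sph ρ u θ)‖ ^ 3) = ∫ θ in (0 : ℝ)..(2 * Real.pi), S θ := by
    rw [hSd]
  rw [e4, ← hB]
  have h1 : ∀ u ∈ Icc (-1 : ℝ) 1, ∫ θ in (0 : ℝ)..(2 * Real.pi), F (0 + sph ρ u θ) ≤
      B * ∫ θ in (0 : ℝ)..(2 * Real.pi), S θ := by
    intro u hu
    rw [← intervalIntegral.integral_const_mul]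
    exact intervalIntegral.integral_mono_on (by positivity)
      ((MOR_ucont hF' 0 ρ u).intervalIntegrable _ _)
      ((hS.const_mul _).intervalIntegrable _ _) (fun θ _ => h0' u hu θ)
  have h2 : SI 0 ρ F ≤ ∫ _u in (-1 : ℝ)..1, (B * ∫ θ in (0 : ℝ)..(2 * Real.pi), S θ) := by
    unfold SI
    exact intervalIntegral.integral_mono_on (by norm_num)
      ((MOR_icont hF' 0 ρ).intervalIntegrable _ _) (by simp) h1
  refine h2.trans (le_of_eq ?_)
  rw [intervalIntegral.integral_const, smul_eq_mul]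
  ring

theorem MOR_one (hROS : Stmt_ROS) (hI : Stmt_I0X) (v : E3 → ℝ) (hv : ContDiff ℝ 1 v) (c x : E3)
    (ρ : ℝ) (hρ : 0 < ρ) (hx : ‖x - c‖ = ρ) :
    SI c ρ (fun z => |v x - v z| ^ 3) ≤
      2 * (ρ ^ 3 * I0 ^ 2) * SI c ρ (fun z => ‖gradv v z‖ ^ 3) := by
  obtain ⟨R, hR⟩ := MOR_rot ρ hρ (x - c) hx
  obtain ⟨g, hg⟩ : ∃ g : E3 → ℝ, g = fun y => v (c + R y) := ⟨_, rfl⟩
  have hRd : ContDiff ℝ 1 (fun y : E3 => c + R y) := contDiff_const.add R.contDiff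
  have hgC : ContDiff ℝ 1 g := by
    rw [hg]
    exact hv.comp hRd
  have hgx : ∀ θ : ℝ, g (sph ρ 1 θ) = v x := by
    intro θ
    rw [MOR_pole, hg]
    simp only
    rw [hR, add_sub_cancel]
  have hvc : Continuous v := hv.continuous
  have hF : Continuous fun z => |v x - v z| ^ 3 := (continuous_const.sub hvc).abs.pow 3
  have hGr : Continuous fun z => ‖gradv v z‖ ^ 3 := (MOR_cont_gradv hv).norm.pow 3
  -- rotation
  have e1 : SI c ρ (fun z => |v x - v z| ^ 3) = SI 0 ρ (fun y => |v x - g y| ^ 3) := by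
    have h1 := hROS R ρ (fun y => |v x - v (c + y)| ^ 3) hρ
      (hF.comp (continuous_const.add continuous_id))
    have h2 := MOR_SI_trans (fun z => |v x - v z| ^ 3) c ρ
    rw [← h2, ← h1, hg]
  have e2 : SI c ρ (fun z => ‖gradv v z‖ ^ 3) = SI 0 ρ (fun y => ‖gradv g y‖ ^ 3) := by
    have h1 := hROS R ρ (fun y => ‖gradv v (c + y)‖ ^ 3) hρ
      (hGr.comp (continuous_const.add continuous_id))
    have h2 := MOR_SI_trans (fun z => ‖gradv v z‖ ^ 3) c ρ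
    have h3 : (fun y => ‖gradv g y‖ ^ 3) = fun y => ‖gradv v (c + R y)‖ ^ 3 := by
      funext y
      rw [hg, MOR_gradv_comp v hv c R]
    rw [← h2, ← h1, h3]
  rw [e1, e2]
  exact MOR_int hI g hgC (v x) ρ hρ hgx

theorem MOR_cube (a b c : ℝ) : |a - b| ^ 3 ≤ 4 * (|a - c| ^ 3 + |b - c| ^ 3) := by
  have h1 : |a - b| ≤ |a - c| + |b - c| := by
    rw [abs_sub_comm b c]
    exact abs_sub_le a c b
  have h2 := pow_le_pow_left₀ (abs_nonneg (a - b)) h1 3
  have hp := abs_nonneg (a - c)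
  have hq := abs_nonneg (b - c)
  nlinarith [mul_nonneg (add_nonneg hp hq) (sq_nonneg (|a - c| - |b - c|))]

theorem p_MOR (hROS : Stmt_ROS) (hI : Stmt_I0X) : Stmt_MOR := by
  have hI0 : 0 < I0 := hI.2.1
  refine ⟨4 * I0 ^ 2, by positivity, ?_⟩
  intro v c x y ρ hv hρ hx hy
  have hvc : Continuous v := hv.continuous
  have hFx : Continuous fun z => |v x - v z| ^ 3 := by fun_prop
  have hFy : Continuous fun z => |v y - v z| ^ 3 := by fun_prop
  have h1 := MOR_one hROS hI v hv c x ρ hρ hx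
  have h2 := MOR_one hROS hI v hv c y ρ hρ hy
  have h3 : SI c ρ (fun _ => |v x - v y| ^ 3) ≤
      SI c ρ (fun z => 4 * (|v x - v z| ^ 3 + |v y - v z| ^ 3)) :=
    MOR_SI_mono continuous_const (by fun_prop) c ρ (fun z => MOR_cube (v x) (v y) (v z))
  rw [MOR_SI_const, MOR_SI_smul, MOR_SI_add hFx hFy] at h3
  obtain ⟨T, hT⟩ : ∃ T, T = SI c ρ (fun z => ‖gradv v z‖ ^ 3) := ⟨_, rfl⟩
  have hT0 : 0 ≤ T := by
    rw [hT]
    have h4 := MOR_SI_mono (F := fun _ => 0) (G := fun z => ‖gradv v z‖ ^ 3) continuous_const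
      ((MOR_cont_gradv hv).norm.pow 3) c ρ (fun z => by positivity)
    rw [MOR_SI_const, mul_zero] at h4
    exact h4
  rw [← hT] at h1 h2 ⊢
  have hpi : 3 < Real.pi := Real.pi_gt_three
  have h5 : 0 ≤ |v x - v y| ^ 3 := by positivity
  have h6 : 0 ≤ ρ ^ 3 * I0 ^ 2 * T := by positivity
  have h7 : 4 * Real.pi * |v x - v y| ^ 3 ≤ 16 * (ρ ^ 3 * I0 ^ 2 * T) := by linarith
  nlinarith [mul_nonneg (by linarith : 0 ≤ Real.pi - 3) h5]

end Pool.Flat
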