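import Pool.Agent.Work.MP_680515_fl.Iface5
import Pool.Agent.Work.MP_680515_fl.B_ARE

/-!
# MP_680515_an, THEOREM D, block PSA: quasiconformal homeomorphisms are energy maps
-/

open MeasureTheory Set Filter Topology

namespace Pool.Flat

open Pool.Mart

theorem p_PSA (hDAE : Stmt_DAE) : Stmt_PSA := by
  intro ψ B hQ
  obtain ⟨K, hK1, hK⟩ := hQ.qr
  have hΩ : IsOpen ψ.source := ψ.open_source
  refine ⟨K, by linarith, ⟨hΩ, hQ.cont, hQ.wg, ?_⟩⟩
  intro h hh
  have hae := hDAE ψ.source ψ B hΩ hQ.cont hQ.wg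
    (fun U hU hUs => ψ.isOpen_image_of_subset_source hU hUs)
  rw [ae_restrict_iff' hΩ.measurableSet] at hae
  obtain ⟨N, hNsub, hNm, hN0⟩ := exists_measurable_superset_of_null (ae_iff.1 hae)
  set D0 : Set E3 := ψ.source \ N with hD0
  have hD0m : MeasurableSet D0 := hΩ.measurableSet.diff hNm
  have hder : ∀ x ∈ D0, HasFDerivAt ψ
      (LinearMap.toContinuousLinearMap (Matrix.toEuclideanLin (B x))) x := by
    intro x hx
    by_contra hcon
    exact hx.2 (hNsub (fun hh2 => hcon (hh2 hx.1)))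
  have hinj : InjOn ψ D0 := fun x hx y hy hxy => ψ.injOn hx.1 hy.1 hxy
  have hP := ARE_piece ψ B D0 hD0m hder hinj h
  have hsub : ψ.source ⊆ N ∪ D0 := by
    intro x hx
    by_cases hxN : x ∈ N
    · exact Or.inl hxN
    · exact Or.inr ⟨hx, hxN⟩
  have hdet : ∫⁻ x in ψ.source, ENNReal.ofReal ((B x).det) * h (ψ x) ≤ ∫⁻ y, h y := by
    calc ∫⁻ x in ψ.source, ENNReal.ofReal ((B x).det) * h (ψ x)
        ≤ ∫⁻ x in N ∪ D0, ENNReal.ofReal ((B x).det) * h (ψ x) := lintegral_mono_set hsub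
      _ ≤ (∫⁻ x in N, ENNReal.ofReal ((B x).det) * h (ψ x)) +
          ∫⁻ x in D0, ENNReal.ofReal ((B x).det) * h (ψ x) := lintegral_union_le _ _ _
      _ ≤ 0 + ∫⁻ y, h y := by
          refine add_le_add ?_ hP
          rw [Measure.restrict_eq_zero.2 hN0]
          simp
      _ = ∫⁻ y, h y := zero_add _
  calc ∫⁻ x in ψ.source, ENNReal.ofReal (opn (B x) ^ 3) * h (ψ x)
      ≤ ∫⁻ x in ψ.source, ENNReal.ofReal K * (ENNReal.ofReal ((B x).det) * h (ψ x)) := by
        refine lintegral_mono_ae ?_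
        filter_upwards [hK] with x hx
        rw [← mul_assoc, ← ENNReal.ofReal_mul (by linarith)]
        exact mul_le_mul_left (ENNReal.ofReal_le_ofReal hx) _
    _ = ENNReal.ofReal K * ∫⁻ x in ψ.source, ENNReal.ofReal ((B x).det) * h (ψ x) :=
        lintegral_const_mul' _ _ ENNReal.ofReal_ne_top
    _ ≤ ENNReal.ofReal K * ∫⁻ y, h y := mul_le_mul_right hdet _

end Pool.Flat
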