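import Pool.Agent.Work.MP_680515_fl.Iface5

/-!
# Block PSQ: weak quasisymmetry of a quasiconformal homeomorphism near a point
-/

open MeasureTheory Set Filter Topology

namespace Pool.Flat

open Pool.Mart

theorem PSQ_shell (c : E3) (a b : ℝ) (ha : 0 < a) :
    IsPreconnected {y : E3 | a ≤ ‖y - c‖ ∧ ‖y - c‖ ≤ b} := by
  have hrank : 1 < Module.rank ℝ E3 := by
    rw [← Module.finrank_eq_rank, finrank_euclideanSpace_fin]
    norm_num
  have h1 : IsPreconnected (Metric.sphere (0 : E3) 1 ×ˢ Icc a b) :=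
    (isPreconnected_sphere hrank 0 1).prod isPreconnected_Icc
  have h2 : {y : E3 | a ≤ ‖y - c‖ ∧ ‖y - c‖ ≤ b} =
      (fun p : E3 × ℝ => c + p.2 • p.1) '' (Metric.sphere (0 : E3) 1 ×ˢ Icc a b) := by
    ext y
    constructor
    · rintro ⟨hy1, hy2⟩
      have hpos : 0 < ‖y - c‖ := lt_of_lt_of_le ha hy1
      refine ⟨(‖y - c‖⁻¹ • (y - c), ‖y - c‖), ⟨?_, hy1, hy2⟩, ?_⟩
      · rw [mem_sphere_zero_iff_norm, norm_smul, norm_inv, norm_norm,
          inv_mul_cancel₀ hpos.ne']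
      · show c + ‖y - c‖ • (‖y - c‖⁻¹ • (y - c)) = y
        rw [smul_smul, mul_inv_cancel₀ hpos.ne', one_smul, add_sub_cancel]
    · rintro ⟨⟨u, t⟩, ⟨hu, ht1, ht2⟩, rfl⟩
      rw [mem_sphere_zero_iff_norm] at hu
      have h3 : ‖c + t • u - c‖ = t := by
        rw [add_sub_cancel_left, norm_smul, hu, mul_one, Real.norm_eq_abs,
          abs_of_pos (lt_of_lt_of_le ha ht1)]
      show a ≤ ‖c + t • u - c‖ ∧ ‖c + t • u - c‖ ≤ b
      rw [h3]
      exact ⟨ht1, ht2⟩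
  rw [h2]
  exact h1.image _ (by fun_prop)

theorem p_PSQ (hPSA : Stmt_PSA) (hLOH : Stmt_LOH) : Stmt_PSQ := by
  intro ψ B x0 hQ hx0
  obtain ⟨C0, hC0, hEM⟩ := hPSA ψ B hQ
  obtain ⟨C, hC, hloh⟩ := hLOH 1 C0 le_rfl hC0
  -- the radii
  obtain ⟨ε, hε, hεT⟩ := Metric.isOpen_iff.1 ψ.open_target (ψ x0) (ψ.map_source hx0)
  obtain ⟨s0, hs0⟩ : ∃ s0 : ℝ, s0 = ε / 4 := ⟨_, rfl⟩
  have hs0p : 0 < s0 := by rw [hs0]; positivity
  have hT : Metric.closedBall (ψ x0) (3 * s0) ⊆ ψ.target := by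
    refine (Metric.closedBall_subset_ball ?_).trans hεT
    rw [hs0]; linarith
  have hcx : ContinuousAt ψ x0 := ψ.continuousAt hx0
  obtain ⟨R1, hR1, hR1s⟩ := Metric.isOpen_iff.1 ψ.open_source x0 hx0
  obtain ⟨R2, hR2, hR2s⟩ := Metric.continuousAt_iff.1 hcx (s0 / 4) (by positivity)
  obtain ⟨R0, hR0⟩ : ∃ R0 : ℝ, R0 = min R1 R2 / 2 := ⟨_, rfl⟩
  have hm1 : 0 < min R1 R2 := lt_min hR1 hR2
  have hR0p : 0 < R0 := by rw [hR0]; positivity
  have hR01 : R0 < R1 := by rw [hR0]; linarith [min_le_left R1 R2]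
  have hR02 : R0 < R2 := by rw [hR0]; linarith [min_le_right R1 R2]
  have hsrc : Metric.closedBall x0 R0 ⊆ ψ.source :=
    (Metric.closedBall_subset_ball hR01).trans hR1s
  have hnear : ∀ x : E3, ‖x - x0‖ ≤ R0 → ‖ψ x - ψ x0‖ ≤ s0 / 4 := by
    intro x hx
    have h := hR2s (x := x) (by rw [dist_eq_norm]; linarith)
    rw [dist_eq_norm] at h
    exact h.le
  refine ⟨Real.exp C, R0 / 200, Real.one_le_exp hC.le, by positivity,
    (Metric.ball_subset_closedBall.trans (Metric.closedBall_subset_closedBall (by linarith))).trans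
      hsrc, ?_⟩
  intro z hz x hx y hy hxy
  rw [mem_ball_iff_norm] at hz hx hy
  have hzs : z ∈ ψ.source := hsrc (by rw [mem_closedBall_iff_norm]; linarith)
  have hxs : x ∈ ψ.source := hsrc (by rw [mem_closedBall_iff_norm]; linarith)
  have hys : y ∈ ψ.source := hsrc (by rw [mem_closedBall_iff_norm]; linarith)
  have hψz := hnear z (by linarith)
  have hψx := hnear x (by linarith)
  have hψy := hnear y (by linarith)
  have hH1 : 1 ≤ Real.exp C := Real.one_le_exp hC.le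
  have hn0 : 0 ≤ ‖ψ y - ψ z‖ := norm_nonneg _
  by_cases hle : ‖ψ x - ψ z‖ ≤ ‖ψ y - ψ z‖
  · exact hle.trans (le_mul_of_one_le_left hn0 hH1)
  rw [not_le] at hle
  have hyz : y ≠ z := by
    rintro rfl
    rw [sub_self, norm_zero] at hxy
    have h1 : x = y := sub_eq_zero.1 (norm_le_zero_iff.1 hxy)
    rw [h1, sub_self, norm_zero] at hle
    exact lt_irrefl _ hle
  have hl : 0 < ‖ψ y - ψ z‖ := by
    rw [norm_pos_iff, sub_ne_zero]
    exact fun h => hyz (ψ.injOn hys hzs h)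
  have hd : ∀ u : E3, ‖u - ψ z‖ ≤ s0 → u ∈ ψ.target := by
    intro u hu
    apply hT
    rw [mem_closedBall_iff_norm]
    have h1 : u - ψ x0 = (u - ψ z) + (ψ z - ψ x0) := by abel
    rw [h1]
    exact (norm_add_le _ _).trans (by linarith)
  have hyz2 : ‖ψ y - ψ z‖ ≤ s0 / 2 := by
    have h1 : ψ y - ψ z = (ψ y - ψ x0) - (ψ z - ψ x0) := by abel
    rw [h1]
    exact (norm_sub_le _ _).trans (by linarith)
  have hxz2 : ‖ψ x - ψ z‖ ≤ s0 / 2 := by
    have h1 : ψ x - ψ z = (ψ x - ψ x0) - (ψ z - ψ x0) := by abel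
    rw [h1]
    exact (norm_sub_le _ _).trans (by linarith)
  -- the far point
  obtain ⟨e, he⟩ : ∃ e : E3, e = EuclideanSpace.single (0 : Fin 3) (1 : ℝ) := ⟨_, rfl⟩
  have hen : ‖e‖ = 1 := by rw [he]; simp
  have hu2 : ‖(ψ z + s0 • e) - ψ z‖ = s0 := by
    rw [add_sub_cancel_left, norm_smul, hen, mul_one, Real.norm_eq_abs, abs_of_pos hs0p]
  have hu2t : ψ z + s0 • e ∈ ψ.target := hd _ hu2.le
  obtain ⟨q2, hq2⟩ : ∃ q2 : E3, q2 = ψ.symm (ψ z + s0 • e) := ⟨_, rfl⟩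
  have hψq2 : ψ q2 = ψ z + s0 • e := by rw [hq2]; exact ψ.right_inv hu2t
  have hq2far : R0 < ‖q2 - x0‖ := by
    by_contra hcon
    rw [not_lt] at hcon
    have h1 := hnear q2 hcon
    have h2 : ψ q2 - ψ z = (ψ q2 - ψ x0) - (ψ z - ψ x0) := by abel
    have h3 : ‖ψ q2 - ψ z‖ ≤ s0 / 2 := by
      rw [h2]
      exact (norm_sub_le _ _).trans (by linarith)
    rw [hψq2, hu2] at h3
    linarith
  have hr : ‖z - y‖ < R0 / 100 := by
    have h1 : z - y = (z - x0) - (y - x0) := by abel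
    rw [h1]
    exact (norm_sub_le _ _).trans_lt (by linarith)
  have key := hloh ψ.source ψ B (ψ.symm '' Metric.closedBall (ψ z) ‖ψ y - ψ z‖)
    (ψ.symm '' {u : E3 | ‖ψ x - ψ z‖ ≤ ‖u - ψ z‖ ∧ ‖u - ψ z‖ ≤ s0}) (ψ z) z y x q2
    ‖ψ y - ψ z‖ ‖ψ x - ψ z‖ hEM
    ((convex_closedBall _ _).isPreconnected.image _ (ψ.continuousOn_symm.mono fun u hu => hd u (by
      rw [mem_closedBall_iff_norm] at hu; linarith)))
    ((PSQ_shell (ψ z) _ _ (hl.trans hle)).image _ (ψ.continuousOn_symm.mono fun u hu =>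
      hd u hu.2))
    ⟨ψ z, Metric.mem_closedBall_self hl.le, ψ.left_inv hzs⟩
    ⟨ψ y, by rw [mem_closedBall_iff_norm], ψ.left_inv hys⟩
    ⟨ψ x, ⟨le_rfl, by linarith⟩, ψ.left_inv hxs⟩
    ⟨ψ z + s0 • e, ⟨by rw [hu2]; linarith, hu2.le⟩, hq2.symm⟩
    (Ne.symm hyz) (by rw [one_mul, norm_sub_rev z y]; exact hxy) ?_ ?_ hl hle ?_ ?_
  · have h1 : Real.log (‖ψ x - ψ z‖ / ‖ψ y - ψ z‖) ≤ C := key
    have h2 : 0 < ‖ψ x - ψ z‖ / ‖ψ y - ψ z‖ := div_pos (hl.trans hle) hl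
    have h3 := (Real.log_le_iff_le_exp h2).1 h1
    rwa [div_le_iff₀ hl] at h3
  · have h1 : q2 - x0 = (q2 - x) + (x - x0) := by abel
    have h2 : ‖q2 - x0‖ ≤ ‖q2 - x‖ + ‖x - x0‖ := by rw [h1]; exact norm_add_le _ _
    linarith
  · intro w hw
    apply hsrc
    rw [mem_closedBall_iff_norm] at hw ⊢
    have h1 : w - x0 = (w - x) + (x - x0) := by abel
    rw [h1]
    exact (norm_add_le _ _).trans (by linarith)
  · rintro _ ⟨u, hu, rfl⟩
    rw [mem_closedBall_iff_norm] at hu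
    rw [ψ.right_inv (hd u (by linarith))]
    exact hu
  · rintro _ ⟨u, hu, rfl⟩
    rw [ψ.right_inv (hd u hu.2)]
    exact hu.1

end Pool.Flat
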