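import Pool.Agent.Work.MP_680515_fl.Iface5

/-! # Block QWN: one window -/

open MeasureTheory Set Filter Topology

namespace Pool.Flat

open Pool.Mart

theorem QWN_pt (p : E3) (r : ℝ) (hr : 0 ≤ r) : ∃ y : E3, ‖y - p‖ = r := by
  refine ⟨p + r • e3, ?_⟩
  rw [add_sub_cancel_left, norm_smul, e3, EuclideanSpace.norm_single, norm_one, mul_one,
    Real.norm_eq_abs, abs_of_nonneg hr]

theorem QWN_arith1 {c : ℕ} (hc : 3 ≤ c) {κ0 D l K : ℝ} (hκ : κ0 ≤ 1 / 36) (hl : 0 ≤ l)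
    (h : c * (1 / 3 - κ0) * (D + l - K) ≤ (2 / 3) * l) : D ≤ K := by
  by_contra hD
  push Not at hD
  have hc' : (3 : ℝ) ≤ c := by exact_mod_cast hc
  have h1 : (11 / 12 : ℝ) ≤ c * (1 / 3 - κ0) := by nlinarith
  have h2 : (11 / 12) * (D + l - K) ≤ c * (1 / 3 - κ0) * (D + l - K) :=
    mul_le_mul_of_nonneg_right h1 (by linarith)
  linarith

theorem QWN_arith2 {c : ℕ} (hc : 3 ≤ c) {C τ D l K : ℝ} (hK : 0 ≤ K) (hC : 0 ≤ C) (hτ : 0 ≤ τ)
    (hD : D ≤ K) (hl : 6 * K + C * τ + 1 ≤ l)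
    (h : 0 ≤ (8 * Real.pi * c / 3) * D - (4 * Real.pi / 3) * (c - 2) * l + C * c * τ) : False := by
  have hπ := Real.pi_gt_three
  have hc' : (3 : ℝ) ≤ c := by exact_mod_cast hc
  have hc0 : (0 : ℝ) < c := by linarith
  have hCτ : 0 ≤ C * τ := mul_nonneg hC hτ
  have hl0 : 0 ≤ l := by linarith
  have h1 : (8 * Real.pi * c / 3) * D ≤ (8 * Real.pi * c / 3) * K :=
    mul_le_mul_of_nonneg_left hD (by positivity)
  have h2 : (4 * Real.pi / 3) * (c / 3) * l ≤ (4 * Real.pi / 3) * (c - 2) * l := by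
    refine mul_le_mul_of_nonneg_right (mul_le_mul_of_nonneg_left ?_ (by positivity)) hl0
    linarith
  have h3 : c * ((4 * Real.pi / 9) * l) ≤ c * ((8 * Real.pi / 3) * K + C * τ) := by
    calc c * ((4 * Real.pi / 9) * l) = (4 * Real.pi / 3) * (c / 3) * l := by ring
      _ ≤ (8 * Real.pi * c / 3) * K + C * c * τ := by linarith
      _ = c * ((8 * Real.pi / 3) * K + C * τ) := by ring
  have h4 := le_of_mul_le_mul_left h3 hc0
  have h5 : (4 * Real.pi / 9) * (6 * K + C * τ + 1) ≤ (4 * Real.pi / 9) * l :=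
    mul_le_mul_of_nonneg_left hl (by positivity)
  have h6 : (4 * Real.pi / 9) * (6 * K + C * τ + 1) =
      (8 * Real.pi / 3) * K + (4 * Real.pi / 9) * (C * τ) + 4 * Real.pi / 9 := by ring
  have h7 : C * τ ≤ (4 * Real.pi / 9) * (C * τ) :=
    le_mul_of_one_le_left hCτ (by linarith)
  linarith

theorem QWN_arith3 {c0 κ0 D l K X : ℝ} (hκ0 : 0 < κ0) (hκ : κ0 ≤ 1 / 36)
    (hκc : κ0 ≤ c0 / 32) (hl : 0 ≤ l)
    (h1 : ((2 : ℕ) : ℝ) * (1 / 3 - κ0) * (D + l - K) ≤ (2 / 3) * l)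
    (h2 : 4 * Real.pi * c0 * l ≤ (8 * Real.pi * ((2 : ℕ) : ℝ) / 3) * D
        - (4 * Real.pi / 3) * (((2 : ℕ) : ℝ) - 2) * l + X)
    (h3 : (16 * Real.pi / 3) * K + X < 3 * Real.pi * c0 * l) : False := by
  have hπ := Real.pi_pos
  have hD : D ≤ K + 6 * κ0 * l := by
    by_contra hD
    push Not at hD
    have e1 : ((2 : ℕ) : ℝ) * (1 / 3 - κ0) * (D + l - K) =
        (2 / 3) * ((1 - 3 * κ0) * (D + l - K)) := by
      push_cast
      ring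
    rw [e1] at h1
    have e2 : (1 - 3 * κ0) * (6 * κ0 * l + l) < (1 - 3 * κ0) * (D + l - K) :=
      mul_lt_mul_of_pos_left (by linarith) (by linarith)
    have e3 : (1 - 3 * κ0) * (6 * κ0 * l + l) = l + (3 * κ0 * l) * (1 - 6 * κ0) := by ring
    have e4 : 0 ≤ (3 * κ0 * l) * (1 - 6 * κ0) :=
      mul_nonneg (by positivity) (by linarith)
    linarith
  have e5 : (8 * Real.pi * ((2 : ℕ) : ℝ) / 3) * D
        - (4 * Real.pi / 3) * (((2 : ℕ) : ℝ) - 2) * l + X = (16 * Real.pi / 3) * D + X := by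
    push_cast
    ring
  rw [e5] at h2
  have e6 : (16 * Real.pi / 3) * D ≤ (16 * Real.pi / 3) * (K + 6 * κ0 * l) :=
    mul_le_mul_of_nonneg_left hD (by positivity)
  have e7 : (16 * Real.pi / 3) * (K + 6 * κ0 * l) =
      (16 * Real.pi / 3) * K + 32 * Real.pi * l * κ0 := by ring
  have e8 : 32 * Real.pi * l * κ0 ≤ 32 * Real.pi * l * (c0 / 32) :=
    mul_le_mul_of_nonneg_left hκc (by positivity)
  have e9 : 32 * Real.pi * l * (c0 / 32) = Real.pi * c0 * l := by ring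
  have e10 : 4 * Real.pi * c0 * l = 3 * Real.pi * c0 * l + Real.pi * c0 * l := by ring
  linarith

theorem QWN_meas (p : E3) (r1 r2 : ℝ) : MeasurableSet (rg p r1 r2) := by
  have h1 : Continuous fun x : E3 => ‖x - p‖ := (continuous_id.sub continuous_const).norm
  exact ((isOpen_lt continuous_const h1).inter (isOpen_lt h1 continuous_const)).measurableSet

theorem QWN_sub (p : E3) (r1 r2 : ℝ) : rg p r1 r2 ⊆ Metric.ball p r2 := fun x hx => by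
  rw [Metric.mem_ball, dist_eq_norm]
  exact hx.2

theorem QWN_intble (p : E3) {r1 r2 : ℝ} (hr1 : 0 < r1) :
    IntegrableOn (fun x : E3 => (‖x - p‖ ^ 3)⁻¹) (rg p r1 r2) := by
  have hfin : volume (rg p r1 r2) < ⊤ :=
    (measure_mono (QWN_sub p r1 r2)).trans_lt measure_ball_lt_top
  have h1 : Continuous fun x : E3 => ‖x - p‖ := (continuous_id.sub continuous_const).norm
  have hm : Measurable fun x : E3 => (‖x - p‖ ^ 3)⁻¹ := (h1.measurable.pow_const 3).inv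
  refine Measure.integrableOn_of_bounded (M := (r1 ^ 3)⁻¹) hfin.ne hm.aestronglyMeasurable ?_
  filter_upwards [ae_restrict_mem (QWN_meas p r1 r2)] with x hx
  have hx1 : r1 < ‖x - p‖ := hx.1
  rw [Real.norm_eq_abs, abs_of_nonneg (by positivity)]
  exact inv_anti₀ (by positivity) (pow_le_pow_left₀ hr1.le hx1.le 3)

theorem QWN_int (p : E3) {r1 r2 : ℝ} (hr1 : 0 < r1) (hr : r1 < r2) :
    ∫ x in rg p r1 r2, (‖x - p‖ ^ 3)⁻¹ = 4 * Real.pi * Real.log (r2 / r1) := by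
  have hr2 : 0 < r2 := hr1.trans hr
  have e1 : ∫ x in rg p r1 r2, (‖x - p‖ ^ 3)⁻¹ =
      ∫ x, (fun y : E3 => (Ioo r1 r2).indicator (fun s : ℝ => (s ^ 3)⁻¹) ‖y‖) (x - p) := by
    rw [← integral_indicator (QWN_meas p r1 r2)]
    refine integral_congr_ae (Filter.Eventually.of_forall fun x => ?_)
    by_cases hx : x ∈ rg p r1 r2
    · have hx' : ‖x - p‖ ∈ Ioo r1 r2 := hx
      simp only [indicator_of_mem hx, indicator_of_mem hx']
    · have hx' : ‖x - p‖ ∉ Ioo r1 r2 := hx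
      simp only [indicator_of_notMem hx, indicator_of_notMem hx']
  have e2 : ∫ x, (fun y : E3 => (Ioo r1 r2).indicator (fun s : ℝ => (s ^ 3)⁻¹) ‖y‖) (x - p) =
      ∫ y : E3, (Ioo r1 r2).indicator (fun s : ℝ => (s ^ 3)⁻¹) ‖y‖ :=
    integral_sub_right_eq_self (fun y : E3 => (Ioo r1 r2).indicator (fun s : ℝ => (s ^ 3)⁻¹) ‖y‖) p
  rw [e1, e2, integral_fun_norm_addHaar volume]
  have hdim : Module.finrank ℝ E3 = 3 := by simp [E3]
  have hvol : volume.real (Metric.ball (0 : E3) 1) = 4 / 3 * Real.pi := by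
    rw [Measure.real, EuclideanSpace.volume_ball_fin_three]
    rw [ENNReal.ofReal_one, one_pow, one_mul, ENNReal.toReal_ofReal (by positivity)]
    ring
  rw [hdim, hvol]
  have e3 : ∫ y in Ioi (0 : ℝ), y ^ (3 - 1) • (Ioo r1 r2).indicator (fun s : ℝ => (s ^ 3)⁻¹) y =
      ∫ y in Ioo r1 r2, y⁻¹ := by
    rw [← integral_indicator measurableSet_Ioi, ← integral_indicator measurableSet_Ioo]
    refine integral_congr_ae (Filter.Eventually.of_forall fun y => ?_)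
    by_cases hy : y ∈ Ioo r1 r2
    · have hy0 : 0 < y := hr1.trans hy.1
      have hy' : y ∈ Ioi (0 : ℝ) := hy0
      simp only [indicator_of_mem hy, indicator_of_mem hy', smul_eq_mul]
      field_simp
    · by_cases hy' : y ∈ Ioi (0 : ℝ)
      · simp only [indicator_of_notMem hy, indicator_of_mem hy', smul_zero]
      · simp only [indicator_of_notMem hy, indicator_of_notMem hy']
  rw [e3, ← integral_Ioc_eq_integral_Ioo, ← intervalIntegral.integral_of_le hr.le,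
    integral_inv_of_pos hr1 hr2]
  rw [nsmul_eq_mul, smul_eq_mul]
  push_cast
  ring

/-- The two inequalities for a window. -/
theorem QWN_key {H D κ0 δ C δR τH : ℝ} (hH : 1 ≤ H) (hκ1 : κ0 < 1 / 3)
    (hτ : 0 ≤ τH) (hδR8 : δR ≤ 1 / 8)
    (hARM : ∀ (r0 : ℝ) (Ω S : Set E3) (f : E3 → E3) (A : E3 → M3) (γ : ℝ → E3),
      TubeG H D r0 Ω S f A γ → ∀ t ∈ Icc (-1 : ℝ) 1, ∀ c : ℕ,
      DegP f A (γ t) r0 c →
      ∀ (v : E3) (r1 r2 t1 t2 : ℝ), ‖v‖ = 1 → 0 < r1 → r1 < r2 → r2 ≤ r0 / 8 → 0 < t1 → t1 < t2 →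
      (∀ x ∈ Metric.closedBall (γ t) r0, ‖x - γ t‖ ≤ r1 → ‖f x - f (γ t)‖ ≤ t1) →
      (∀ x ∈ Metric.closedBall (γ t) r0, r2 ≤ ‖x - γ t‖ → t2 ≤ ‖f x - f (γ t)‖) →
      (∀ s : ℝ, |s| ≤ 1 → r1 ≤ ‖cv γ t s‖ → ‖cv γ t s‖ ≤ r2 →
        ‖un (cv γ t s) - (s / |s|) • v‖ ≤ δ) →
      c * (1 / 3 - κ0) * (Real.log (t2 / t1) - 1) ≤ (2 / 3) * Real.log (r2 / r1))
    (hCRC : ∀ (r0 : ℝ) (Ω S : Set E3) (f : E3 → E3) (A : E3 → M3) (γ : ℝ → E3),
      TubeG H D r0 Ω S f A γ → ∀ t ∈ Icc (-1 : ℝ) 1, ∀ y : E3, y ≠ γ t →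
      ‖y - γ t‖ ≤ r0 →
      RC f (γ t) ‖y - γ t‖ 2 (Real.log (‖f y - f (γ t)‖ / ‖y - γ t‖)) τH)
    (hRNG : ∀ (r0 : ℝ) (Ω S : Set E3) (f : E3 → E3) (A : E3 → M3) (γ : ℝ → E3),
      TubeG H D r0 Ω S f A γ → ∀ t ∈ Icc (-1 : ℝ) 1, ∀ c : ℕ,
      DegP f A (γ t) r0 c →
      ∀ r1 r2 m1 m2 τ : ℝ, 0 < r1 → r1 < r2 → r2 ≤ δR * r0 → 0 ≤ τ →
      RC f (γ t) r1 2 m1 τ → RC f (γ t) r2 2 m2 τ →
      IntegrableOn (dens f A (γ t)) (rg (γ t) r1 r2) ∧ 0 ≤ DR f A (γ t) r1 r2 ∧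
      DR f A (γ t) r1 r2 ≤ (8 * Real.pi * c / 3) * (m2 - m1)
        - (4 * Real.pi / 3) * (c - 2) * Real.log (r2 / r1) + C * c * τ)
    {r0 : ℝ} {Ω S : Set E3} {f : E3 → E3} {A : E3 → M3} {γ : ℝ → E3}
    (hT : TubeG H D r0 Ω S f A γ) {t : ℝ} (ht : t ∈ Icc (-1 : ℝ) 1) {c : ℕ}
    (hD : DegP f A (γ t) r0 c) {r1 r2 : ℝ} (hr1 : 0 < r1) (hr : r1 < r2)
    (hr2 : r2 ≤ δR * r0) {v : E3} (hv : ‖v‖ = 1)
    (hcone : ∀ s : ℝ, |s| ≤ 1 → r1 ≤ ‖cv γ t s‖ → ‖cv γ t s‖ ≤ r2 →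
      ‖un (cv γ t s) - (s / |s|) • v‖ ≤ δ) :
    ∃ D' : ℝ, c * (1 / 3 - κ0) * (D' + Real.log (r2 / r1) - (2 * Real.log H + 1)) ≤
        (2 / 3) * Real.log (r2 / r1) ∧
      IntegrableOn (dens f A (γ t)) (rg (γ t) r1 r2) ∧ 0 ≤ DR f A (γ t) r1 r2 ∧
      DR f A (γ t) r1 r2 ≤ (8 * Real.pi * c / 3) * D'
        - (4 * Real.pi / 3) * (c - 2) * Real.log (r2 / r1) + C * c * τH := by
  have ht2 : t ∈ Icc (-2 : ℝ) 2 := ⟨by linarith [ht.1], by linarith [ht.2]⟩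
  have hr0 := hT.rpos
  have hr2p : 0 < r2 := hr1.trans hr
  have hr2b : r2 ≤ r0 / 8 := by
    have h1 := hr2.trans (mul_le_mul_of_nonneg_right hδR8 hr0.le)
    linarith
  have hr2c : r2 ≤ r0 := by linarith
  have hr1c : r1 ≤ r0 := by linarith
  obtain ⟨y1, hy1⟩ := QWN_pt (γ t) r1 hr1.le
  obtain ⟨y2, hy2⟩ := QWN_pt (γ t) r2 hr2p.le
  have hy1n : y1 ≠ γ t := fun h => by
    rw [h, sub_self, norm_zero] at hy1
    linarith
  have hy2n : y2 ≠ γ t := fun h => by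
    rw [h, sub_self, norm_zero] at hy2
    linarith
  have hmem : ∀ x : E3, ‖x - γ t‖ ≤ r0 → x ∈ Metric.closedBall (γ t) (8 * r0) := fun x hx => by
    rw [Metric.mem_closedBall, dist_eq_norm]
    linarith
  have hF1 : 0 < ‖f y1 - f (γ t)‖ := by
    rw [norm_pos_iff, sub_ne_zero]
    exact fun h => hy1n (hT.inj t ht2 y1 (hmem y1 (by rw [hy1]; exact hr1c)) h)
  have hF2 : 0 < ‖f y2 - f (γ t)‖ := by
    rw [norm_pos_iff, sub_ne_zero]
    exact fun h => hy2n (hT.inj t ht2 y2 (hmem y2 (by rw [hy2]; exact hr2c)) h)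
  have hH0 : 0 < H := by linarith
  have hR1 := hCRC r0 Ω S f A γ hT t ht y1 hy1n (by rw [hy1]; exact hr1c)
  have hR2 := hCRC r0 Ω S f A γ hT t ht y2 hy2n (by rw [hy2]; exact hr2c)
  rw [hy1] at hR1
  rw [hy2] at hR2
  obtain ⟨F1, hF1e⟩ : ∃ F1, F1 = ‖f y1 - f (γ t)‖ := ⟨_, rfl⟩
  obtain ⟨F2, hF2e⟩ : ∃ F2, F2 = ‖f y2 - f (γ t)‖ := ⟨_, rfl⟩
  rw [← hF1e] at hF1 hR1
  rw [← hF2e] at hF2 hR2
  have hlr : 0 < Real.log (r2 / r1) := Real.log_pos ((one_lt_div hr1).2 hr)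
  have hlog : Real.log (F2 / H / (H * F1)) =
      Real.log (F2 / r2) - Real.log (F1 / r1) + Real.log (r2 / r1) - 2 * Real.log H := by
    rw [Real.log_div (by positivity) (by positivity), Real.log_div hF2.ne' hH0.ne',
      Real.log_mul hH0.ne' hF1.ne', Real.log_div hF2.ne' hr2p.ne', Real.log_div hF1.ne' hr1.ne',
      Real.log_div hr2p.ne' hr1.ne']
    ring
  refine ⟨Real.log (F2 / r2) - Real.log (F1 / r1), ?_,
    hRNG r0 Ω S f A γ hT t ht c hD r1 r2 _ _ τH hr1 hr hr2 hτ hR1 hR2⟩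
  have hc0 : (0 : ℝ) ≤ c := Nat.cast_nonneg c
  have hfac : 0 ≤ (c : ℝ) * (1 / 3 - κ0) := mul_nonneg hc0 (by linarith)
  have hrew : Real.log (F2 / r2) - Real.log (F1 / r1) + Real.log (r2 / r1) -
      (2 * Real.log H + 1) = Real.log (F2 / H / (H * F1)) - 1 := by
    rw [hlog]
    ring
  rw [hrew]
  by_cases hlt : H * F1 < F2 / H
  · refine hARM r0 Ω S f A γ hT t ht c hD v r1 r2 (H * F1) (F2 / H) hv hr1 hr hr2b
      (by positivity) hlt (fun x hx hxr => ?_) (fun x hx hxr => ?_) hcone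
    · rw [hF1e]
      refine hT.br t ht2 x (hmem x ?_) y1 (hmem y1 (by rw [hy1]; exact hr1c)) (by rw [hy1]; exact hxr)
      linarith
    · rw [div_le_iff₀ hH0, hF2e, mul_comm]
      refine hT.br t ht2 y2 (hmem y2 (by rw [hy2]; exact hr2c)) x (hmem x ?_) (by rw [hy2]; exact hxr)
      rw [Metric.mem_closedBall, dist_eq_norm] at hx
      exact hx
  · push Not at hlt
    have h1 : Real.log (F2 / H / (H * F1)) ≤ 0 := by
      refine Real.log_nonpos (by positivity) ?_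
      rw [div_le_one (by positivity)]
      exact hlt
    have h2 : (c : ℝ) * (1 / 3 - κ0) * (Real.log (F2 / H / (H * F1)) - 1) ≤ 0 :=
      mul_nonpos_of_nonneg_of_nonpos hfac (by linarith)
    linarith

/-- The lower bound of the defect of a ring. -/
theorem QWN_low {H D K c0 : ℝ} {r0 : ℝ} {Ω S : Set E3} {f : E3 → E3} {A : E3 → M3} {γ : ℝ → E3}
    (hT : TubeG H D r0 Ω S f A γ) (hI : InnerDist Ω A K)
    (hDL : ∀ (A : M3) (X Y : E3), 0 ≤ A.det →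
      opn (cofm A) ^ 3 ≤ K * A.det ^ 2 → X ≠ 0 → Y ≠ 0 → c0 ≤ dfc A X Y)
    {t : ℝ} (ht : t ∈ Icc (-1 : ℝ) 1) {r1 r2 : ℝ} (hr1 : 0 < r1) (hr : r1 < r2) (hr2 : r2 ≤ r0)
    (hint : IntegrableOn (dens f A (γ t)) (rg (γ t) r1 r2)) :
    4 * Real.pi * c0 * Real.log (r2 / r1) ≤ DR f A (γ t) r1 r2 := by
  have ht2 : t ∈ Icc (-2 : ℝ) 2 := ⟨by linarith [ht.1], by linarith [ht.2]⟩
  have hr0 := hT.rpos
  have hsub8 : rg (γ t) r1 r2 ⊆ Metric.closedBall (γ t) (8 * r0) := fun x hx => by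
    have h1 : ‖x - γ t‖ < r2 := hx.2
    rw [Metric.mem_closedBall, dist_eq_norm]
    linarith
  have hsub : rg (γ t) r1 r2 ⊆ Ω := hsub8.trans (hT.sub t ht2)
  have hae : ∀ᵐ x ∂(volume.restrict (rg (γ t) r1 r2)),
      c0 * (‖x - γ t‖ ^ 3)⁻¹ ≤ dens f A (γ t) x := by
    have hg := ae_mono (Measure.restrict_mono hsub le_rfl) hT.good
    have hi := ae_mono (Measure.restrict_mono hsub le_rfl) hI
    filter_upwards [hg, hi, ae_restrict_mem (QWN_meas (γ t) r1 r2)] with x hx1 hx2 hx3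
    have hxn : r1 < ‖x - γ t‖ := hx3.1
    have hxpos : 0 < ‖x - γ t‖ := hr1.trans hxn
    have hdet : 0 ≤ (A x).det := by
      have h1 : opn (A x) ^ 3 ≤ 4 * (A x).det := hx1.2
      have h2 : 0 ≤ opn (A x) := norm_nonneg _
      have h3 : 0 ≤ opn (A x) ^ 3 := pow_nonneg h2 3
      linarith
    have hX : x - γ t ≠ 0 := norm_pos_iff.1 hxpos
    have hY : f x - f (γ t) ≠ 0 := by
      rw [sub_ne_zero]
      intro h
      exact hX (sub_eq_zero.2 (hT.inj t ht2 x (hsub8 hx3) h))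
    have h4 := hDL (A x) (x - γ t) (f x - f (γ t)) hdet hx2 hX hY
    unfold dens
    rw [div_eq_mul_inv]
    exact mul_le_mul_of_nonneg_right h4 (by positivity)
  have h5 := integral_mono_ae ((QWN_intble (γ t) (r2 := r2) hr1).const_mul c0) hint hae
  rw [integral_const_mul, QWN_int (γ t) hr1 hr] at h5
  unfold DR
  calc 4 * Real.pi * c0 * Real.log (r2 / r1) = c0 * (4 * Real.pi * Real.log (r2 / r1)) := by ring
    _ ≤ _ := h5

theorem p_QWN (hARG : Stmt_ARG) (hCRG : Stmt_CRG) (hRNQ : Stmt_RNQ) (hDGG : Stmt_DGG)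
    (_hSPH : Stmt_SPH) (hDLOW : Pool.Mart.Stmt_DLOW) (_hTHREE : Pool.Mart.Stmt_THREE) :
    Stmt_QWN := by
  intro H D K hH hD1 hK1 hK2
  obtain ⟨τH, hτ, hCRC'⟩ := hCRG H D hH hD1
  obtain ⟨C, δR, hC, hδR, hδR8, hRNG'⟩ := hRNQ H D hH hD1
  obtain ⟨c0, hc0, hDL⟩ := hDLOW K hK1 hK2
  have hlH : 0 ≤ Real.log H := Real.log_nonneg hH
  obtain ⟨KH, hKH⟩ : ∃ K, K = 2 * Real.log H + 1 := ⟨_, rfl⟩
  have hK0 : 0 < KH := by
    rw [hKH]
    linarith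
  have hπ := Real.pi_pos
  have hCτ : 0 ≤ C * τH := mul_nonneg hC.le hτ
  obtain ⟨κ0, hκ0e⟩ : ∃ κ0 : ℝ, κ0 = min (1 / 36) (c0 / 32) := ⟨_, rfl⟩
  have hκ0 : 0 < κ0 := by
    rw [hκ0e]
    exact lt_min (by norm_num) (by positivity)
  have hκ36 : κ0 ≤ 1 / 36 := by
    rw [hκ0e]
    exact min_le_left _ _
  have hκc : κ0 ≤ c0 / 32 := by
    rw [hκ0e]
    exact min_le_right _ _
  have hκ1 : κ0 < 1 / 3 := by linarith
  obtain ⟨δ, hδ, hARM'⟩ := hARG H D κ0 1 hH hD1 hκ0 hκ1 one_pos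
  obtain ⟨Y, hY⟩ : ∃ Y : ℝ, Y = (16 * Real.pi / 3) * KH + C * ((2 : ℕ) : ℝ) * τH := ⟨_, rfl⟩
  have hYp : 0 < Y := by
    rw [hY]
    positivity
  obtain ⟨L, hL⟩ : ∃ L : ℝ, L = 6 * KH + C * τH + 1 + Y / (3 * Real.pi * c0) := ⟨_, rfl⟩
  have hYd : 0 < Y / (3 * Real.pi * c0) := by positivity
  have hLp : 0 < L := by
    rw [hL]
    linarith
  have hL1 : 6 * KH + C * τH + 1 ≤ L := by
    rw [hL]
    linarith
  have hL2 : Y < 3 * Real.pi * c0 * L := by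
    have h1 : 3 * Real.pi * c0 * L =
        3 * Real.pi * c0 * (6 * KH + C * τH + 1) + 3 * Real.pi * c0 * (Y / (3 * Real.pi * c0)) := by
      rw [hL]
      ring
    have h2 : 3 * Real.pi * c0 * (Y / (3 * Real.pi * c0)) = Y := by
      field_simp
    have h3 : 0 < 3 * Real.pi * c0 * (6 * KH + C * τH + 1) := by positivity
    linarith
  refine ⟨δ, L, δR, hδ, hLp, hδR, hδR8, ?_⟩
  intro r0 Ω S f A γ hT hI t ht r hr hrδ v hv
  by_contra hcon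
  push Not at hcon
  have hr0 := hT.rpos
  obtain ⟨c, hDeg⟩ := hDGG H D r0 Ω S f A γ hT t ht
  have hr1p : 0 < Real.exp (-L) * r := by positivity
  have hr12 : Real.exp (-L) * r < r :=
    mul_lt_of_lt_one_left hr (Real.exp_lt_one_iff.2 (by linarith))
  have hlog : Real.log (r / (Real.exp (-L) * r)) = L := by
    rw [Real.log_div hr.ne' hr1p.ne', Real.log_mul (Real.exp_pos _).ne' hr.ne', Real.log_exp]
    ring
  obtain ⟨D', hD1', hD2', hD3', hD4'⟩ := QWN_key hH hκ1 hτ hδR8 hARM' hCRC' hRNG' hT ht hDeg hr1p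
    hr12 hrδ hv hcon
  have hr_le : r ≤ r0 := by
    have h1 := hrδ.trans (mul_le_mul_of_nonneg_right hδR8 hr0.le)
    linarith
  have hlow := QWN_low hT hI hDL ht hr1p hr12 hr_le hD2'
  rw [hlog] at hD1' hD4' hlow
  rw [← hKH] at hD1'
  by_cases hc3 : 3 ≤ c
  · exact QWN_arith2 hc3 hK0.le hC.le hτ (QWN_arith1 hc3 hκ36 hLp.le hD1') hL1 (hD3'.trans hD4')
  · have hc2 : c = 2 := by
      have := hDeg.two
      omega
    rw [hc2] at hD1' hD4'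
    refine QWN_arith3 (X := C * ((2 : ℕ) : ℝ) * τH) hκ0 hκ36 hκc hLp.le hD1' (hlow.trans hD4') ?_
    rw [← hY]
    exact hL2

end Pool.Flat
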