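import Pool.Agent.Work.MP_680515_fl.Iface5

/-! # RGG: the ring estimate -/

open MeasureTheory Set Filter Topology

namespace Pool.Flat

open Pool.Mart

/-! ## The step function -/

theorem RGG_der_zero (u : ℝ) (h : u ≤ 0 ∨ 1 ≤ u) : deriv Real.smoothTransition u = 0 := by
  rcases h with h | h
  · refine IsLocalMin.deriv_eq_zero (Filter.Eventually.of_forall fun x => ?_)
    rw [Real.smoothTransition.zero_of_nonpos h]
    exact Real.smoothTransition.nonneg x
  · refine IsLocalMax.deriv_eq_zero (Filter.Eventually.of_forall fun x => ?_)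
    rw [Real.smoothTransition.one_of_one_le h]
    exact Real.smoothTransition.le_one x

theorem RGG_cont_der : Continuous (deriv Real.smoothTransition) :=
  (Real.smoothTransition.contDiff (n := 1)).continuous_deriv le_rfl

theorem RGG_bdd : ∃ M : ℝ, 0 < M ∧ ∀ u, |deriv Real.smoothTransition u| ≤ M := by
  obtain ⟨M, hM⟩ := (isCompact_Icc (a := (0 : ℝ)) (b := 1)).exists_bound_of_continuousOn
    RGG_cont_der.continuousOn
  refine ⟨max M 1, lt_max_of_lt_right one_pos, fun u => ?_⟩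
  by_cases hu : u ∈ Icc (0 : ℝ) 1
  · exact (hM u hu).trans (le_max_left _ _)
  · rw [RGG_der_zero u, abs_zero]
    · exact (zero_le_one.trans (le_max_right _ _))
    · by_contra hcon
      push Not at hcon
      exact hu ⟨hcon.1.le, hcon.2.le⟩

/-! ## The test function -/

/-- the exponent -/
noncomputable def RGG_u (l Λ t : ℝ) : ℝ := Real.log (t / l ^ 2) / (2 * Λ)

/-- the test function -/
noncomputable def RGG_Phi (q : E3) (l Λ : ℝ) (y : E3) : ℝ :=
  1 - Real.smoothTransition (RGG_u l Λ (‖y - q‖ ^ 2))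

theorem RGG_u_nonpos {l Λ r : ℝ} (hl : 0 < l) (hΛ : 0 < Λ) (h0 : 0 ≤ r) (h : r ≤ l) :
    RGG_u l Λ (r ^ 2) ≤ 0 := by
  refine div_nonpos_of_nonpos_of_nonneg (Real.log_nonpos (by positivity) ?_) (by positivity)
  rw [div_le_one (by positivity)]
  exact pow_le_pow_left₀ h0 h 2

theorem RGG_u_ge {l L r : ℝ} (hl : 0 < l) (hL : l < L) (h : L ≤ r) :
    1 ≤ RGG_u l (Real.log (L / l)) (r ^ 2) := by
  have hΛ : 0 < Real.log (L / l) := Real.log_pos ((one_lt_div hl).mpr hL)
  rw [RGG_u, one_le_div (by positivity)]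
  have h1 : 2 * Real.log (L / l) = Real.log (L ^ 2 / l ^ 2) := by
    rw [← div_pow, Real.log_pow]
    norm_num
  rw [h1]
  have hL0 : 0 < L := hl.trans hL
  refine Real.log_le_log (by positivity) ?_
  refine div_le_div_of_nonneg_right (pow_le_pow_left₀ hL0.le h 2) (by positivity)

theorem RGG_Phi_one {q : E3} {l Λ : ℝ} (hl : 0 < l) (hΛ : 0 < Λ) {y : E3} (h : ‖y - q‖ ≤ l) :
    RGG_Phi q l Λ y = 1 := by
  rw [RGG_Phi, Real.smoothTransition.zero_of_nonpos (RGG_u_nonpos hl hΛ (norm_nonneg _) h),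
    sub_zero]

theorem RGG_Phi_zero {q : E3} {l L : ℝ} (hl : 0 < l) (hL : l < L) {y : E3} (h : L ≤ ‖y - q‖) :
    RGG_Phi q l (Real.log (L / l)) y = 0 := by
  rw [RGG_Phi, Real.smoothTransition.one_of_one_le (RGG_u_ge hl hL h), sub_self]

theorem RGG_Phi_near {q : E3} {l Λ : ℝ} (hl : 0 < l) (hΛ : 0 < Λ) {y : E3} (h : ‖y - q‖ < l) :
    RGG_Phi q l Λ =ᶠ[𝓝 y] fun _ => 1 := by
  have h1 : {z : E3 | ‖z - q‖ < l} ∈ 𝓝 y :=
    (isOpen_lt (by fun_prop) continuous_const).mem_nhds h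
  filter_upwards [h1] with z hz
  exact RGG_Phi_one hl hΛ (le_of_lt hz)

theorem RGG_contDiff (q : E3) {l Λ : ℝ} (hl : 0 < l) (hΛ : 0 < Λ) :
    ContDiff ℝ 1 (RGG_Phi q l Λ) := by
  rw [contDiff_iff_contDiffAt]
  intro y
  by_cases hy : y = q
  · have h : ‖y - q‖ < l := by
      rw [hy, sub_self, norm_zero]
      exact hl
    exact contDiffAt_const.congr_of_eventuallyEq (RGG_Phi_near hl hΛ h)
  · have hn : ‖y - q‖ ^ 2 ≠ 0 := by
      have : ‖y - q‖ ≠ 0 := norm_ne_zero_iff.mpr (sub_ne_zero.mpr hy)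
      positivity
    have h1 : ContDiffAt ℝ 1 (fun y : E3 => ‖y - q‖ ^ 2) y :=
      (contDiffAt_id.sub contDiffAt_const).norm_sq ℝ
    have h2 : ContDiffAt ℝ 1 (fun y : E3 => RGG_u l Λ (‖y - q‖ ^ 2)) y := by
      have h3 : ContDiffAt ℝ 1 (fun y : E3 => ‖y - q‖ ^ 2 / l ^ 2) y := h1.div_const _
      exact (h3.log (div_ne_zero hn (by positivity))).div_const _
    have h4 : ContDiffAt ℝ 1 Real.smoothTransition (RGG_u l Λ (‖y - q‖ ^ 2)) :=
      Real.smoothTransition.contDiffAt (n := 1)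
    have h5 : ContDiffAt ℝ 1 (fun x : E3 => Real.smoothTransition (RGG_u l Λ (‖x - q‖ ^ 2))) y :=
      ContDiffAt.comp (g := Real.smoothTransition) y h4 h2
    exact contDiffAt_const.sub h5

theorem RGG_support (q : E3) {l L : ℝ} (hl : 0 < l) (hL : l < L) :
    HasCompactSupport (RGG_Phi q l (Real.log (L / l))) := by
  refine HasCompactSupport.intro (isCompact_closedBall q L) fun y hy => ?_
  refine RGG_Phi_zero hl hL ?_
  rw [Metric.mem_closedBall, not_le, dist_eq_norm] at hy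
  exact hy.le

theorem RGG_grad (q : E3) {l Λ : ℝ} (hl : 0 < l) (hΛ : 0 < Λ) (y : E3) (hy : y ≠ q) :
    ‖gradv (RGG_Phi q l Λ) y‖ =
      |deriv Real.smoothTransition (RGG_u l Λ (‖y - q‖ ^ 2))| / (Λ * ‖y - q‖) := by
  have hn0 : ‖y - q‖ ≠ 0 := norm_ne_zero_iff.mpr (sub_ne_zero.mpr hy)
  have hnpos : 0 < ‖y - q‖ := lt_of_le_of_ne (norm_nonneg _) (Ne.symm hn0)
  set t := ‖y - q‖ ^ 2 with ht
  have ht0 : t ≠ 0 := by rw [ht]; positivity
  have h1 : HasDerivAt (fun t => RGG_u l Λ t) (1 / (2 * Λ * t)) t := by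
    have h2 : HasDerivAt (fun t : ℝ => t / l ^ 2) (1 / l ^ 2) t := (hasDerivAt_id t).div_const _
    have h3 := (h2.log (div_ne_zero ht0 (by positivity))).div_const (2 * Λ)
    have h4 : 1 / l ^ 2 / (t / l ^ 2) / (2 * Λ) = 1 / (2 * Λ * t) := by
      field_simp
    rw [h4] at h3
    exact h3
  have h4 : HasDerivAt Real.smoothTransition (deriv Real.smoothTransition (RGG_u l Λ t))
      (RGG_u l Λ t) :=
    ((Real.smoothTransition.contDiff (n := 1)).differentiable one_ne_zero _).hasDerivAt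
  have h5 : HasDerivAt (fun t => 1 - Real.smoothTransition (RGG_u l Λ t))
      (-(deriv Real.smoothTransition (RGG_u l Λ t) * (1 / (2 * Λ * t)))) t := by
    have := (h4.comp t h1).const_sub 1
    exact this
  have h6 : HasFDerivAt (fun y : E3 => ‖y - q‖ ^ 2)
      (2 • (innerSL ℝ (y - q)).comp (ContinuousLinearMap.id ℝ E3)) y :=
    ((hasFDerivAt_id y).sub_const q).norm_sq
  have h7 : HasFDerivAt (RGG_Phi q l Λ)
      (-(deriv Real.smoothTransition (RGG_u l Λ t) * (1 / (2 * Λ * t))) •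
        (2 • (innerSL ℝ (y - q)).comp (ContinuousLinearMap.id ℝ E3))) y :=
    HasDerivAt.comp_hasFDerivAt (h₂ := fun t => 1 - Real.smoothTransition (RGG_u l Λ t))
      (f := fun y : E3 => ‖y - q‖ ^ 2) y h5 h6
  have h8 : gradv (RGG_Phi q l Λ) y =
      (-(deriv Real.smoothTransition (RGG_u l Λ t) / (Λ * t))) • (y - q) := by
    ext j
    simp only [gradv, h7.fderiv, PiLp.smul_apply, smul_eq_mul]
    simp only [smul_apply, ContinuousLinearMap.comp_apply,
      ContinuousLinearMap.id_apply, innerSL_apply_apply, EuclideanSpace.inner_single_right]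
    simp
    field_simp
  rw [h8, norm_smul, Real.norm_eq_abs, abs_neg, abs_div, abs_of_pos (a := Λ * t) (by positivity)]
  rw [ht]
  field_simp

/-! ## The radial profile -/

/-- the radial profile of the third power of the gradient -/
noncomputable def RGG_h (l Λ r : ℝ) : ℝ :=
  (|deriv Real.smoothTransition (RGG_u l Λ ((max r (l / 2)) ^ 2))| / (Λ * max r (l / 2))) ^ 3

theorem RGG_h_cont {l Λ : ℝ} (hl : 0 < l) (hΛ : 0 < Λ) : Continuous (RGG_h l Λ) := by
  have hm : ∀ r : ℝ, 0 < max r (l / 2) := fun r => lt_max_of_lt_right (by positivity)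
  have h1 : Continuous fun r : ℝ => max r (l / 2) := continuous_id.max continuous_const
  have h2 : Continuous fun r : ℝ => RGG_u l Λ ((max r (l / 2)) ^ 2) := by
    unfold RGG_u
    exact Continuous.div_const (Continuous.log ((h1.pow 2).div_const _) fun r =>
      (div_pos (pow_pos (hm r) 2) (pow_pos hl 2)).ne') _
  unfold RGG_h
  exact Continuous.pow (Continuous.div (RGG_cont_der.comp h2).abs (continuous_const.mul h1)
    fun r => (mul_pos hΛ (hm r)).ne') 3

theorem RGG_h_zero {l L r : ℝ} (hl : 0 < l) (hL : l < L) (h : r ∉ Icc l L) :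
    RGG_h l (Real.log (L / l)) r = 0 := by
  have hΛ : 0 < Real.log (L / l) := Real.log_pos ((one_lt_div hl).mpr hL)
  have hd : deriv Real.smoothTransition
      (RGG_u l (Real.log (L / l)) ((max r (l / 2)) ^ 2)) = 0 := by
    apply RGG_der_zero
    by_cases h1 : r ≤ l
    · left
      refine RGG_u_nonpos hl hΛ (le_max_of_le_right (by positivity)) (max_le h1 (by linarith))
    · right
      push Not at h1
      have h2 : L < r := by
        by_contra h3
        push Not at h3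
        exact h ⟨h1.le, h3⟩
      exact RGG_u_ge hl hL (h2.le.trans (le_max_left _ _))
  rw [RGG_h, hd, abs_zero, zero_div]
  norm_num

theorem RGG_h_eq (q : E3) {l Λ : ℝ} (hl : 0 < l) (hΛ : 0 < Λ) (y : E3) :
    ‖gradv (RGG_Phi q l Λ) y‖ ^ 3 = RGG_h l Λ ‖y - q‖ := by
  by_cases h : ‖y - q‖ ≤ l / 2
  · have h1 : ‖y - q‖ < l := lt_of_le_of_lt h (by linarith)
    have h2 : gradv (RGG_Phi q l Λ) y = 0 := by
      ext j
      simp only [gradv, (RGG_Phi_near hl hΛ h1).fderiv_eq]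
      simp
    have h3 : deriv Real.smoothTransition (RGG_u l Λ ((max ‖y - q‖ (l / 2)) ^ 2)) = 0 := by
      apply RGG_der_zero
      left
      exact RGG_u_nonpos hl hΛ (le_max_of_le_right (by positivity)) (max_le h1.le (by linarith))
    rw [h2, RGG_h, h3]
    simp
  · push Not at h
    have hy : y ≠ q := by
      rintro rfl
      rw [sub_self, norm_zero] at h
      linarith
    rw [RGG_grad q hl hΛ y hy, RGG_h, max_eq_left h.le]

theorem RGG_int {l L M : ℝ} (hl : 0 < l) (hL : l < L)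
    (hM0 : 0 < M) (hM : ∀ u, |deriv Real.smoothTransition u| ≤ M) :
    ∫ r, RGG_h l (Real.log (L / l)) r * r ^ 2 ≤ M ^ 3 / Real.log (L / l) ^ 2 := by
  have hΛ : 0 < Real.log (L / l) := Real.log_pos ((one_lt_div hl).mpr hL)
  set Λ := Real.log (L / l) with hΛdef
  have h1 : ∫ r, RGG_h l Λ r * r ^ 2 = ∫ r in Icc l L, RGG_h l Λ r * r ^ 2 := by
    rw [setIntegral_eq_integral_of_forall_compl_eq_zero]
    intro r hr
    rw [RGG_h_zero hl hL hr, zero_mul]
  have hcont : Continuous fun r => RGG_h l Λ r * r ^ 2 :=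
    (RGG_h_cont hl hΛ).mul (continuous_pow 2)
  have h2 : ContinuousOn (fun r : ℝ => (M / Λ) ^ 3 * r⁻¹) (Icc l L) := by
    refine ContinuousOn.mul continuousOn_const (ContinuousOn.inv₀ continuousOn_id ?_)
    intro r hr
    exact (hl.trans_le hr.1).ne'
  have h3 : ∫ r in Icc l L, RGG_h l Λ r * r ^ 2 ≤ ∫ r in Icc l L, (M / Λ) ^ 3 * r⁻¹ := by
    refine setIntegral_mono_on hcont.integrableOn_Icc
      (h2.integrableOn_compact isCompact_Icc) measurableSet_Icc fun r hr => ?_
    have hr0 : 0 < r := hl.trans_le hr.1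
    have hmax : max r (l / 2) = r := max_eq_left (by linarith [hr.1])
    rw [RGG_h, hmax]
    have h4 : |deriv Real.smoothTransition (RGG_u l Λ (r ^ 2))| / (Λ * r) ≤ M / (Λ * r) :=
      div_le_div_of_nonneg_right (hM _) (by positivity)
    have h5 := pow_le_pow_left₀ (by positivity) h4 3
    calc (|deriv Real.smoothTransition (RGG_u l Λ (r ^ 2))| / (Λ * r)) ^ 3 * r ^ 2
        ≤ (M / (Λ * r)) ^ 3 * r ^ 2 := by
          exact mul_le_mul_of_nonneg_right h5 (by positivity)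
      _ = (M / Λ) ^ 3 * r⁻¹ := by
          field_simp
  have h6 : ∫ r in Icc l L, (M / Λ) ^ 3 * r⁻¹ = (M / Λ) ^ 3 * Λ := by
    rw [integral_Icc_eq_integral_Ioc, ← intervalIntegral.integral_of_le hL.le,
      intervalIntegral.integral_const_mul, integral_inv_of_pos hl (hl.trans hL)]
  rw [h1]
  refine h3.trans (le_of_eq ?_)
  rw [h6]
  field_simp

theorem p_RGG (hCPG : Stmt_CPG) (hRINT : Pool.Mart.Stmt_RINT) : Stmt_RGG := by
  obtain ⟨C, hC0, hC⟩ := hCPG
  obtain ⟨M, hM0, hM⟩ := RGG_bdd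
  refine ⟨C * (4 * Real.pi * M ^ 3), by positivity, ?_⟩
  intro C0 Ω g B q c l L ρ1 ρ2 hC00 hE hl hL hρ1 hρ2 hring hosc
  have hΛ : 0 < Real.log (L / l) := Real.log_pos ((one_lt_div hl).mpr hL)
  have key := hC C0 Ω g B (RGG_Phi q l (Real.log (L / l))) c ρ1 ρ2 1 hC00 hE
    (RGG_contDiff q hl hΛ)
    (RGG_support q hl hL) hρ1 hρ2 hring zero_le_one (by
      intro ρ hρ
      obtain ⟨x, y, hx, hy, h1, h2⟩ := hosc ρ hρ
      refine ⟨x, y, hx, hy, ?_⟩
      rw [RGG_Phi_one hl hΛ h1, RGG_Phi_zero hl hL h2, sub_zero, abs_one])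
  have h1 : ∫ y, ‖gradv (RGG_Phi q l (Real.log (L / l))) y‖ ^ 3 =
      4 * Real.pi * ∫ r, RGG_h l (Real.log (L / l)) r * r ^ 2 := by
    have h2 : ∀ y : E3, ‖gradv (RGG_Phi q l (Real.log (L / l))) y‖ ^ 3 =
        RGG_h l (Real.log (L / l)) ‖y - q‖ := fun y => RGG_h_eq q hl hΛ y
    simp_rw [h2]
    rw [integral_sub_right_eq_self (fun y : E3 => RGG_h l (Real.log (L / l)) ‖y‖) q]
    have hz : ∀ r, r ∉ Icc l L → RGG_h l (Real.log (L / l)) r = 0 :=
      fun r hr => RGG_h_zero hl hL hr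
    refine hRINT _ (l / 2) (2 * L) (by positivity) (RGG_h_cont hl hΛ)
      (HasCompactSupport.intro isCompact_Icc hz) ?_
    refine (closure_minimal (t := Icc l L) ?_ isClosed_Icc).trans ?_
    · intro r hr
      by_contra hcon
      exact hr (hz r hcon)
    · intro r hr
      exact ⟨by linarith [hr.1], by linarith [hr.2]⟩
  rw [h1, one_pow, one_mul] at key
  have h3 := RGG_int hl hL hM0 hM
  have h4 : Real.log (ρ2 / ρ1) ≤
      C * C0 * (4 * Real.pi * (M ^ 3 / Real.log (L / l) ^ 2)) := by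
    refine key.trans ?_
    have hCC : 0 ≤ C * C0 := mul_nonneg hC0.le hC00
    refine mul_le_mul_of_nonneg_left ?_ hCC
    refine mul_le_mul_of_nonneg_left h3 (by positivity)
  calc Real.log (ρ2 / ρ1) * Real.log (L / l) ^ 2
      ≤ C * C0 * (4 * Real.pi * (M ^ 3 / Real.log (L / l) ^ 2)) * Real.log (L / l) ^ 2 :=
        mul_le_mul_of_nonneg_right h4 (by positivity)
    _ = C * (4 * Real.pi * M ^ 3) * C0 := by
        field_simp

end Pool.Flat
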