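import Pool.Agent.Work.MP_680515_fl.Iface5
import Pool.Agent.Work.MP_680515_fl.B_RNG

/-!
# MP_680515_an, THEOREM D: block RNQ (the ring inequality for `TubeG`)
-/

open MeasureTheory Set Filter Topology

namespace Pool.Flat

open Pool.Mart

/-- RNQ: the ring inequality for `TubeG` (same proof as RNG). -/
theorem p_RNQ (hIDC : Stmt_IDC) (hENG : Stmt_ENG) (hF1 : Stmt_F1)
    (_hTHREE : Pool.Mart.Stmt_THREE) (hPIOI : Pool.Mart.Stmt_PIOI) (hENB : Pool.Mart.Stmt_ENB)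
    (hBAS : Pool.Mart.Stmt_BAS) : Stmt_RNQ := by
  intro H Dd hH hDd
  obtain ⟨CE, δ1, hCE, hδ0, hδ1, hEnc⟩ := hENG H Dd hH hDd
  obtain ⟨D, hD1, hDE⟩ := hF1 H Dd hH hDd
  obtain ⟨CS, hCS, hS⟩ := RNG_dS_bd
  have hD0 : 0 < D := by linarith
  set V : ℝ := volume.real (Metric.ball (0 : E3) 1) with hVd
  have hV0 : 0 ≤ V := measureReal_nonneg
  refine ⟨8 / 3 * CS * D ^ 4 * (CE + 8 * V), δ1, by positivity, hδ0, hδ1, ?_⟩
  intro r0 Ω S f A γ hT t ht c hdeg r1 r2 m1 m2 τ hr1 hr12 hr2 hτ hRC1 hRC2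
  set p : E3 := γ t with hp
  have hr0 : 0 < r0 := hT.rpos
  have ht2 : t ∈ Icc (-2 : ℝ) 2 := ⟨by linarith [ht.1], by linarith [ht.2]⟩
  have hr2p : 0 < r2 := hr1.trans hr12
  have hr28 : r2 ≤ 1 / 8 * r0 := hr2.trans (mul_le_mul_of_nonneg_right hδ1 hr0.le)
  have hsub8 : Metric.closedBall p (8 * r0) ⊆ Ω := hT.sub t ht2
  have hsub : Metric.closedBall p r0 ⊆ Ω :=
    (Metric.closedBall_subset_closedBall (by linarith)).trans hsub8
  have hne : ∀ x ∈ Metric.closedBall p r0, f x = f p → x = p := fun x hx he =>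
    hT.inj t ht2 x (Metric.closedBall_subset_closedBall (by linarith) hx) he
  have hc2 : (2 : ℝ) ≤ c := by exact_mod_cast hdeg.two
  -- points at given distance
  have hpt : ∀ l : ℝ, 0 < l → ∃ y : E3, ‖y - p‖ = l := by
    intro l hl
    refine ⟨p + EuclideanSpace.single (0 : Fin 3) l, ?_⟩
    rw [add_sub_cancel_left, PiLp.norm_single, Real.norm_of_nonneg hl.le]
  -- the error of one scale
  have herr : ∀ (l m : ℝ) (k : ℝ → ℝ), 0 < l → l ≤ δ1 * r0 → RC f p l 2 m τ →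
      (∀ s, |k s| ≤ 2 * CS / l) → (∀ s, s ≤ l / 2 → k s = 0) → (∀ s, 2 * l ≤ s → k s = 0) →
      |∫ x, k ‖x - p‖ * fx (A x) (x - p) (f x - f p) *
        (Real.log (‖f x - f p‖ / ‖x - p‖) - m)|
        ≤ 2 * CS * τ * D ^ 4 * (CE * c + 8 * V) := by
    intro l m k hl hl1 hRC hk hk1 hk2
    obtain ⟨y, hy⟩ := hpt l hl
    have hl8 : l ≤ 1 / 8 * r0 := hl1.trans (mul_le_mul_of_nonneg_right hδ1 hr0.le)
    obtain ⟨hI, hE⟩ := hEnc r0 Ω S f A γ hT t ht c hdeg l hl hl1 y hy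
    have hyb : y ∈ Metric.closedBall p (2 * r0) := by
      rw [Metric.mem_closedBall, dist_eq_norm, hy]; linarith
    have hyp : y ≠ p := by
      rintro rfl
      rw [sub_self, norm_zero] at hy
      linarith
    have hF : 0 < ‖f y - f p‖ := by
      rw [norm_pos_iff, sub_ne_zero]
      intro he
      refine hyp (hT.inj t ht2 y ?_ he)
      exact Metric.closedBall_subset_closedBall (by linarith) hyb
    refine RNG_err hBAS hl (by positivity) hD1 hF hτ hk hk1 hk2 ?_ ?_ hI hE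
    · intro x hx1 hx2
      exact hDE r0 Ω S f A γ hT t ht2 1 y hyb x (by
        rw [Metric.mem_closedBall, dist_eq_norm]; linarith) (by
          rw [pow_one]
          have : ‖y - γ t‖ = l := hy
          rw [this]
          linarith)
    · intro x hx1 hx2
      exact hRC x hx1 (by linarith)
  -- the cut-off
  have z1 : ∀ s, s < r1 / 2 → RNG_et r1 r2 s = 0 := fun s hs => RNG_et_zero_left hr1 hs.le
  have z2 : ∀ s, 2 * r2 < s → RNG_et r1 r2 s = 0 := fun s hs => RNG_et_zero_right hr2p hs.le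
  obtain ⟨s1, s2⟩ := RNG_supp_Icc z1 z2
  have s3 : tsupport (RNG_et r1 r2) ⊆ Ioo 0 r0 := s2.trans fun s hs =>
    ⟨lt_of_lt_of_le (by positivity) hs.1, lt_of_le_of_lt hs.2 (by linarith)⟩
  obtain ⟨hηI, hid⟩ := hIDC Ω f A p r0 c hT.op hT.cont hT.wg hr0 hsub hne hdeg
    (RNG_et r1 r2) (RNG_et_cd r1 r2) s1 s3
  -- the two parts of the derivative
  have a1 : ∀ s, s < r1 / 2 → RNG_K1 r1 s = 0 := fun s hs => RNG_K1_zero_left hr1 hs.le
  have a2 : ∀ s, r1 < s → RNG_K1 r1 s = 0 := fun s hs => RNG_K1_zero_right hr1 hs.le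
  have b1 : ∀ s, s < r2 → RNG_K2 r2 s = 0 := fun s hs => RNG_K2_zero_left hr2p hs.le
  have b2 : ∀ s, 2 * r2 < s → RNG_K2 r2 s = 0 := fun s hs => RNG_K2_zero_right hr2p hs.le
  obtain ⟨i1, i2⟩ := RNG_glob hPIOI hT.op hT.cont hT.wg hsub hne (a := r1 / 2) (b := r1)
    (by positivity) (by linarith) (RNG_K1_cont r1) a1 a2
  obtain ⟨j1, j2⟩ := RNG_glob hPIOI hT.op hT.cont hT.wg hsub hne (a := r2) (b := 2 * r2)
    hr2p (by linarith) (RNG_K2_cont r2) b1 b2
  obtain ⟨t1, t2⟩ := RNG_supp_Icc a1 a2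
  obtain ⟨u1, u2⟩ := RNG_supp_Icc b1 b2
  have f1 := hdeg.flux (RNG_K1 r1) (RNG_K1_cont r1) t1 (t2.trans fun s hs =>
    ⟨lt_of_lt_of_le (by positivity) hs.1, lt_of_le_of_lt hs.2 (by linarith)⟩)
  have f2 := hdeg.flux (RNG_K2 r2) (RNG_K2_cont r2) u1 (u2.trans fun s hs =>
    ⟨lt_of_lt_of_le hr2p hs.1, lt_of_le_of_lt hs.2 (by linarith)⟩)
  rw [RNG_K1_int hr1, mul_one] at f1
  rw [RNG_K2_int hr2p, mul_one] at f2
  have g1 : ∫ x, RNG_K1 r1 ‖x - p‖ * fx (A x) (x - p) (f x - f p) *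
      (Real.log (‖f x - f p‖ / ‖x - p‖) - m1)
      = (∫ x, RNG_K1 r1 ‖x - p‖ * fx (A x) (x - p) (f x - f p) *
        Real.log (‖f x - f p‖ / ‖x - p‖)) - m1 * (4 * Real.pi * c) := by
    rw [← f1, ← integral_const_mul, ← integral_sub i2 (i1.const_mul _)]
    refine integral_congr_ae (Filter.Eventually.of_forall fun x => ?_)
    simp only
    ring
  have g2 : ∫ x, RNG_K2 r2 ‖x - p‖ * fx (A x) (x - p) (f x - f p) *
      (Real.log (‖f x - f p‖ / ‖x - p‖) - m2)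
      = (∫ x, RNG_K2 r2 ‖x - p‖ * fx (A x) (x - p) (f x - f p) *
        Real.log (‖f x - f p‖ / ‖x - p‖)) - m2 * (4 * Real.pi * c) := by
    rw [← f2, ← integral_const_mul, ← integral_sub j2 (j1.const_mul _)]
    refine integral_congr_ae (Filter.Eventually.of_forall fun x => ?_)
    simp only
    ring
  have g3 : ∫ x, deriv (RNG_et r1 r2) ‖x - p‖ * fx (A x) (x - p) (f x - f p) *
      Real.log (‖f x - f p‖ / ‖x - p‖)
      = (∫ x, RNG_K1 r1 ‖x - p‖ * fx (A x) (x - p) (f x - f p) *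
          Real.log (‖f x - f p‖ / ‖x - p‖))
        - ∫ x, RNG_K2 r2 ‖x - p‖ * fx (A x) (x - p) (f x - f p) *
          Real.log (‖f x - f p‖ / ‖x - p‖) := by
    rw [← integral_sub i2 j2]
    refine integral_congr_ae (Filter.Eventually.of_forall fun x => ?_)
    simp only [RNG_et_deriv hr1 hr12.le]
    ring
  have E1 := herr r1 m1 (RNG_K1 r1) hr1 (by linarith) hRC1 (RNG_K1_bd hr1 hS)
    (fun s hs => RNG_K1_zero_left hr1 hs) (fun s hs => RNG_K1_zero_right hr1 (by linarith))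
  have E2 := herr r2 m2 (RNG_K2 r2) hr2p hr2 hRC2 (RNG_K2_bd hr2p hCS hS)
    (fun s hs => RNG_K2_zero_left hr2p (by linarith)) (fun s hs => RNG_K2_zero_right hr2p hs)
  rw [g1] at E1
  rw [g2] at E2
  rw [g3] at hid
  -- nonnegativity
  have hgood : ∀ᵐ x : E3, x ∈ Ω → Good (A x) :=
    (ae_restrict_iff' hT.op.measurableSet).mp hT.good
  have hnn : ∀ᵐ x : E3, 0 < ‖x - p‖ → ‖x - p‖ ≤ r0 → 0 ≤ dens f A p x := by
    filter_upwards [hgood] with x hx h1 h2
    have hxb : x ∈ Metric.closedBall p r0 := by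
      rw [Metric.mem_closedBall, dist_eq_norm]; exact h2
    unfold dens
    refine div_nonneg (RNG_dfc_nonneg hENB (hx (hsub hxb)) (norm_pos_iff.1 h1) ?_)
      (by positivity)
    rw [sub_ne_zero]
    intro he
    rw [hne x hxb he, sub_self, norm_zero] at h1
    exact lt_irrefl _ h1
  have hUm : MeasurableSet (rg p r1 r2) := by
    have h1 : MeasurableSet {x : E3 | r1 < ‖x - p‖} :=
      measurableSet_lt measurable_const (by fun_prop)
    have h2 : MeasurableSet {x : E3 | ‖x - p‖ < r2} :=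
      measurableSet_lt (by fun_prop) measurable_const
    exact h1.inter h2
  have hUI : IntegrableOn (dens f A p) (rg p r1 r2) := by
    refine (hηI.integrableOn (s := rg p r1 r2)).congr_fun ?_ hUm
    intro x hx
    simp only
    rw [RNG_et_one hr1 hr2p hx.1.le hx.2.le, one_mul]
  have hle : DR f A p r1 r2 ≤ ∫ x, RNG_et r1 r2 ‖x - p‖ * dens f A p x := by
    unfold DR
    rw [← integral_indicator hUm]
    refine integral_mono_ae ((integrable_indicator_iff hUm).mpr hUI) hηI ?_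
    filter_upwards [hnn] with x hx
    by_cases hxU : x ∈ rg p r1 r2
    · rw [Set.indicator_of_mem hxU, RNG_et_one hr1 hr2p hxU.1.le hxU.2.le, one_mul]
    · rw [Set.indicator_of_notMem hxU]
      by_cases h1 : ‖x - p‖ ≤ r1 / 2
      · rw [RNG_et_zero_left hr1 h1, zero_mul]
      by_cases h2 : 2 * r2 ≤ ‖x - p‖
      · rw [RNG_et_zero_right hr2p h2, zero_mul]
      push Not at h1 h2
      exact mul_nonneg (RNG_et_nonneg _ _ _) (hx (by linarith) (by linarith))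
  refine ⟨hUI, ?_, ?_⟩
  · unfold DR
    refine integral_nonneg_of_ae ?_
    rw [Filter.EventuallyLE, ae_restrict_iff' hUm]
    filter_upwards [hnn] with x hx hxU
    exact hx (hr1.trans hxU.1) (by linarith [hxU.2])
  refine hle.trans ?_
  rw [hid]
  have hJ := RNG_log hr1 hr12
  have A1 := (abs_le.mp E1).1
  have A2 := (abs_le.mp E2).2
  have hBB : 2 * CS * τ * D ^ 4 * (CE * c + 8 * V) ≤ 2 * CS * τ * D ^ 4 * ((CE + 8 * V) * c) := by
    refine mul_le_mul_of_nonneg_left ?_ (by positivity)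
    nlinarith
  have hJ2 : (4 * Real.pi / 3) * (c - 2) * Real.log (r2 / r1) ≤
      (4 * Real.pi / 3) * (c - 2) * ∫ s, RNG_et r1 r2 s / s := by
    refine mul_le_mul_of_nonneg_left hJ ?_
    exact mul_nonneg (by positivity) (by linarith)
  generalize (∫ x, RNG_K1 r1 ‖x - p‖ * fx (A x) (x - p) (f x - f p) *
    Real.log (‖f x - f p‖ / ‖x - p‖)) = I1 at *
  generalize (∫ x, RNG_K2 r2 ‖x - p‖ * fx (A x) (x - p) (f x - f p) *
    Real.log (‖f x - f p‖ / ‖x - p‖)) = I2 at *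
  have hfin : -(2 / 3) * (I1 - I2) ≤ (8 * Real.pi * c / 3) * (m2 - m1) +
      4 / 3 * (2 * CS * τ * D ^ 4 * ((CE + 8 * V) * c)) := by
    have e : (8 * Real.pi * (c : ℝ) / 3) * (m2 - m1) =
      2 / 3 * (m2 * (4 * Real.pi * c) - m1 * (4 * Real.pi * c)) := by ring
    rw [e]
    linarith
  have e2 : 4 / 3 * (2 * CS * τ * D ^ 4 * ((CE + 8 * V) * c)) =
      8 / 3 * CS * D ^ 4 * (CE + 8 * V) * c * τ := by ring
  rw [e2] at hfin
  linarith

end Pool.Flat
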