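import Pool.Agent.Work.MP_680515_fl.Iface5

/-!
# Block SEX: the exponent
-/

open MeasureTheory Set Filter Topology

namespace Pool.Flat

open Pool.Mart

theorem p_SEX : Stmt_SEX := by
  intro τ κ hτ hτ1 hκ
  have hlog : Real.log τ ≤ 0 := Real.log_nonpos hτ.le hτ1
  have hden : 0 < 1 - Real.log τ := by linarith
  have hlk : 0 < Real.log (1 + κ) := Real.log_pos (by linarith)
  refine ⟨1 + Real.log (1 + κ) / (1 - Real.log τ), by
    have := div_pos hlk hden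
    linarith, ?_⟩
  intro d ℓ1 ℓ2 ℓ3 hd h1 h2 h3 hs
  set q := Real.log (1 + κ) / (1 - Real.log τ) with hq
  have hq0 : 0 < q := div_pos hlk hden
  have hτd : 0 < τ * d := mul_pos hτ hd
  have key : ∀ ℓ : ℝ, τ * d ≤ ℓ → ℓ * (τ * d) ^ q ≤ ℓ ^ (1 + q) := by
    intro ℓ hℓ
    have hℓ0 : 0 < ℓ := hτd.trans_le hℓ
    rw [Real.rpow_add hℓ0, Real.rpow_one]
    exact mul_le_mul_of_nonneg_left (Real.rpow_le_rpow hτd.le hℓ hq0.le) hℓ0.le
  have hτq : 1 ≤ (1 + κ) * τ ^ q := by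
    have h5 : 0 ≤ Real.log ((1 + κ) * τ ^ q) := by
      rw [Real.log_mul (by positivity) (by positivity), Real.log_rpow hτ]
      have h6 : q * (-Real.log τ) ≤ Real.log (1 + κ) := by
        rw [hq, div_mul_eq_mul_div, div_le_iff₀ hden]
        nlinarith
      linarith
    have h7 : 0 < (1 + κ) * τ ^ q := by positivity
    by_contra hc
    push Not at hc
    exact absurd (Real.log_neg h7 hc) (not_lt.2 h5)
  calc d ^ (1 + q) = d * d ^ q := by rw [Real.rpow_add hd, Real.rpow_one]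
    _ ≤ ((1 + κ) * τ ^ q) * (d * d ^ q) :=
        le_mul_of_one_le_left (by positivity) hτq
    _ = ((1 + κ) * d) * (τ * d) ^ q := by rw [Real.mul_rpow hτ.le hd.le]; ring
    _ ≤ (ℓ1 + ℓ2 + ℓ3) * (τ * d) ^ q := mul_le_mul_of_nonneg_right hs (by positivity)
    _ = ℓ1 * (τ * d) ^ q + ℓ2 * (τ * d) ^ q + ℓ3 * (τ * d) ^ q := by ring
    _ ≤ ℓ1 ^ (1 + q) + ℓ2 ^ (1 + q) + ℓ3 ^ (1 + q) :=
        add_le_add (add_le_add (key ℓ1 h1) (key ℓ2 h2)) (key ℓ3 h3)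

end Pool.Flat
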