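import Pool.Agent.Work.MP_680515_fl.Iface2

/-! # Block SHL: the inequality on the arms, one level -/

open MeasureTheory Set Filter Topology

namespace Pool.Flat

open Pool.Mart

theorem SHL_dn {a : E3} (ha : ‖a‖ = 1) (y : E3) : 0 ≤ dn a y := by
  have h := real_inner_le_norm y a
  rw [ha, mul_one] at h
  exact sub_nonneg.2 h

theorem SHL_sq2 {a b : E3} (ha : ‖a‖ = 1) (hb : ‖b‖ = 1) (y : E3) : 0 ≤ sq2 a b y := by
  have h := real_inner_le_norm a b
  rw [ha, hb, mul_one] at h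
  have h1 := SHL_dn ha y
  have h2 := SHL_dn hb y
  unfold sq2
  exact div_nonneg (sub_nonneg.2 h) (by positivity)

theorem SHL_wt {a b : E3} (ha : ‖a‖ = 1) (hb : ‖b‖ = 1) (y : E3) : 0 ≤ wt a b y :=
  mul_nonneg (Real.rpow_nonneg (norm_nonneg _) _) (Real.rpow_nonneg (SHL_sq2 ha hb y) _)

theorem SHL_point (hYNG : Stmt_YNG) (hBAS : Pool.Mart.Stmt_BAS) {A : M3} (hA : Good A) (X g : E3)
    {k μ q n W : ℝ} (hk : 0 ≤ k) (hμ : 0 ≤ μ) (hq : 0 ≤ q) (hn : 0 ≤ n)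
    (hX : ‖X‖ ≤ k * μ / (2 * Real.pi * n) * q ^ (1 / 2 : ℝ)) (hW : k * ‖g‖ ^ 3 ≤ k * W) :
    cpair A X g ≤ (3 * Real.pi)⁻¹ * (A.det * (k * μ ^ (3 / 2 : ℝ) *
      (n ^ (-(3 / 2) : ℝ) * q ^ (3 / 4 : ℝ))) + k * W) := by
  obtain ⟨b1, -, b3, -⟩ := hBAS
  have hπ := Real.pi_pos
  obtain ⟨V, hV⟩ : ∃ V, V = μ * q ^ (1 / 2 : ℝ) / n := ⟨_, rfl⟩
  have hq2 : 0 ≤ q ^ (1 / 2 : ℝ) := Real.rpow_nonneg hq _
  have hV0 : 0 ≤ V := by
    rw [hV]
    exact div_nonneg (mul_nonneg hμ hq2) hn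
  have hX' : ‖X‖ ≤ k / (2 * Real.pi) * V := by
    rw [hV]
    refine hX.trans (le_of_eq ?_)
    by_cases hn0 : n = 0
    · rw [hn0]
      simp
    · field_simp
  have h1 : V ^ (3 / 2 : ℝ) = μ ^ (3 / 2 : ℝ) * (n ^ (-(3 / 2) : ℝ) * q ^ (3 / 4 : ℝ)) := by
    rw [hV, Real.div_rpow (mul_nonneg hμ hq2) hn, Real.mul_rpow hμ hq2, ← Real.rpow_mul hq,
      Real.rpow_neg hn, div_eq_mul_inv]
    have e : (1 / 2 : ℝ) * (3 / 2) = 3 / 4 := by norm_num
    rw [e]
    ring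
  have h2 := hYNG A V ‖g‖ hA hV0 (norm_nonneg _)
  have h3 : cpair A X g ≤ ‖X‖ * (opn (cofm A) * ‖g‖) := by
    rw [b3]
    exact (real_inner_le_norm _ _).trans (mul_le_mul_of_nonneg_left (b1 _ _) (norm_nonneg _))
  have h4 : 0 ≤ opn (cofm A) := norm_nonneg _
  calc cpair A X g ≤ ‖X‖ * (opn (cofm A) * ‖g‖) := h3
    _ ≤ k / (2 * Real.pi) * V * (opn (cofm A) * ‖g‖) :=
        mul_le_mul_of_nonneg_right hX' (by positivity)
    _ = k / (2 * Real.pi) * (opn (cofm A) * V * ‖g‖) := by ring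
    _ ≤ k / (2 * Real.pi) * ((2 / 3) * (A.det * V ^ (3 / 2 : ℝ) + ‖g‖ ^ 3)) :=
        mul_le_mul_of_nonneg_left h2 (by positivity)
    _ = (3 * Real.pi)⁻¹ * (A.det * (k * V ^ (3 / 2 : ℝ)) + k * ‖g‖ ^ 3) := by
        field_simp
    _ ≤ (3 * Real.pi)⁻¹ * (A.det * (k * μ ^ (3 / 2 : ℝ) *
      (n ^ (-(3 / 2) : ℝ) * q ^ (3 / 4 : ℝ))) + k * W) := by
        rw [h1, ← mul_assoc k]
        exact mul_le_mul_of_nonneg_left (add_le_add_right hW _) (by positivity)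

theorem SHL_ell (m : ℝ → ℝ) (η : ℝ) (hη : η ≤ 1 / 2) (hm2 : ContDiff ℝ 2 m)
    (hmd : ∀ u, |u| < 1 - η → deriv m u = 0) (h1 : ∫ u in (0 : ℝ)..1, deriv m u = -1)
    (h2 : ∫ u in (-1 : ℝ)..0, deriv m u = 1) :
    ∃ lp lm : ℝ → ℝ, Continuous lp ∧ Continuous lm ∧ (∀ u, deriv m u = lp u + lm u) ∧
      (∀ u, lp u ≠ 0 → 1 - η ≤ u) ∧ (∀ u, lm u ≠ 0 → u ≤ -1 + η) ∧
      ∫ u in (-1 : ℝ)..1, lp u = -1 ∧ ∫ u in (-1 : ℝ)..1, lm u = 1 := by
  have hc : Continuous (deriv m) := hm2.continuous_deriv (by norm_num)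
  have h0 : deriv m 0 = 0 := hmd 0 (by rw [abs_zero]; linarith)
  have hp : Continuous (fun u : ℝ => if 0 ≤ u then deriv m u else 0) :=
    Continuous.if_le hc continuous_const continuous_const continuous_id
      (fun u hu => by rw [← hu]; exact h0)
  have hm : Continuous (fun u : ℝ => if 0 ≤ u then 0 else deriv m u) :=
    Continuous.if_le continuous_const hc continuous_const continuous_id
      (fun u hu => by rw [← hu]; exact h0.symm)
  refine ⟨fun u => if 0 ≤ u then deriv m u else 0, fun u => if 0 ≤ u then 0 else deriv m u,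
    hp, hm, fun u => ?_, fun u hu => ?_, fun u hu => ?_, ?_, ?_⟩
  · by_cases h : 0 ≤ u
    · simp [h]
    · simp [h]
  · by_contra hlt
    push Not at hlt
    by_cases h : 0 ≤ u
    · exact hu (by simp only [if_pos h]; exact hmd u (by rw [abs_of_nonneg h]; exact hlt))
    · exact hu (by simp only [if_neg h])
  · by_contra hlt
    push Not at hlt
    by_cases h : 0 ≤ u
    · exact hu (by simp only [if_pos h])
    · exact hu (by
        simp only [if_neg h]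
        exact hmd u (by rw [abs_of_neg (not_le.1 h)]; linarith))
  · rw [← intervalIntegral.integral_add_adjacent_intervals (hp.intervalIntegrable (-1) 0)
      (hp.intervalIntegrable 0 1)]
    have e1 : ∫ u in (-1 : ℝ)..0, (if 0 ≤ u then deriv m u else 0) = ∫ u in (-1 : ℝ)..0, (0 : ℝ) :=
      intervalIntegral.integral_congr fun u hu => by
        rw [uIcc_of_le (by norm_num)] at hu
        by_cases h : 0 ≤ u
        · have : u = 0 := le_antisymm hu.2 h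
          simp [this, h0]
        · simp [h]
    have e2 : ∫ u in (0 : ℝ)..1, (if 0 ≤ u then deriv m u else 0) = ∫ u in (0 : ℝ)..1, deriv m u :=
      intervalIntegral.integral_congr fun u hu => by
        rw [uIcc_of_le (by norm_num)] at hu
        simp [hu.1]
    rw [e1, e2, h1]
    simp
  · rw [← intervalIntegral.integral_add_adjacent_intervals (hm.intervalIntegrable (-1) 0)
      (hm.intervalIntegrable 0 1)]
    have e1 : ∫ u in (-1 : ℝ)..0, (if 0 ≤ u then 0 else deriv m u) =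
        ∫ u in (-1 : ℝ)..0, deriv m u :=
      intervalIntegral.integral_congr fun u hu => by
        rw [uIcc_of_le (by norm_num)] at hu
        by_cases h : 0 ≤ u
        · have : u = 0 := le_antisymm hu.2 h
          simp [this, h0]
        · simp [h]
    have e2 : ∫ u in (0 : ℝ)..1, (if 0 ≤ u then 0 else deriv m u) = ∫ u in (0 : ℝ)..1, (0 : ℝ) :=
      intervalIntegral.integral_congr fun u hu => by
        rw [uIcc_of_le (by norm_num)] at hu
        simp [hu.1]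
    rw [e1, e2, h2]
    simp

section Tub

variable {H ε r0 : ℝ} {Ω S : Set E3} {f : E3 → E3} {A : E3 → M3} {γ : ℝ → E3}

theorem SHL_sub (hT : Tube H ε r0 Ω S f A γ) {t : ℝ} (ht : t ∈ Icc (-1 : ℝ) 1) :
    Metric.closedBall (γ t) r0 ⊆ Ω := by
  have ht2 : t ∈ Icc (-2 : ℝ) 2 := ⟨by linarith [ht.1], by linarith [ht.2]⟩
  refine (Metric.closedBall_subset_closedBall ?_).trans (hT.sub t ht2)
  linarith [hT.rpos]

theorem SHL_rho (hT : Tube H ε r0 Ω S f A γ) {t : ℝ} (ht : t ∈ Icc (-1 : ℝ) 1) (κ : ℝ → ℝ)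
    (hsph : ∀ x, ‖x - γ t‖ = r0 → ∀ s ∈ tsupport κ, s < ‖f x - f (γ t)‖) :
    ∃ ρ : ℝ, 0 < ρ ∧ (∀ x, ‖x - γ t‖ = r0 → ρ ≤ ‖f x - f (γ t)‖) ∧ ∀ s ∈ tsupport κ, s < ρ := by
  have ht2 : t ∈ Icc (-2 : ℝ) 2 := ⟨by linarith [ht.1], by linarith [ht.2]⟩
  have hne : (Metric.sphere (γ t) r0).Nonempty :=
    (NormedSpace.sphere_nonempty (x := γ t)).2 hT.rpos.le
  have hcont : ContinuousOn (fun x => ‖f x - f (γ t)‖) (Metric.sphere (γ t) r0) :=
    ((hT.cont.mono (Metric.sphere_subset_closedBall.trans (SHL_sub hT ht))).sub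
      continuousOn_const).norm
  obtain ⟨x0, hx0, hmin⟩ := (isCompact_sphere (γ t) r0).exists_isMinOn hne hcont
  have hx0' : ‖x0 - γ t‖ = r0 := by
    rw [← dist_eq_norm]
    exact hx0
  refine ⟨‖f x0 - f (γ t)‖, ?_, fun x hx => ?_, fun s hs => hsph x0 hx0' s hs⟩
  · rw [norm_pos_iff, sub_ne_zero]
    intro h
    have h1 := hT.inj t ht2 x0 (by
      rw [Metric.mem_closedBall, dist_eq_norm, hx0']
      linarith [hT.rpos]) h
    rw [h1, sub_self, norm_zero] at hx0'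
    linarith [hT.rpos]
  · refine hmin ?_
    rw [Metric.mem_sphere, dist_eq_norm]
    exact hx

theorem SHL_deg (hPIOI : Pool.Mart.Stmt_PIOI) (hT : Tube H ε r0 Ω S f A γ) {t : ℝ}
    (ht : t ∈ Icc (-1 : ℝ) 1) {c : ℕ} (hD : DegP f A (γ t) r0 c) (κ : ℝ → ℝ)
    (hsph : ∀ x, ‖x - γ t‖ = r0 → ∀ s ∈ tsupport κ, s < ‖f x - f (γ t)‖) (k : E3 → ℝ)
    (hk : Continuous k) (hk0 : ∀ y, ‖y‖ ∉ tsupport κ → k y = 0) :
    IntegrableOn (fun x => (A x).det * k (f x - f (γ t))) (Metric.ball (γ t) r0) ∧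
    ∫ x in Metric.ball (γ t) r0, (A x).det * k (f x - f (γ t)) = c * ∫ y, k y := by
  constructor
  · have h1 := (hPIOI Ω f A hT.op hT.cont hT.wg (Metric.closedBall (γ t) r0)
      (isCompact_closedBall _ _) (SHL_sub hT ht)).1
    have h2 : ContinuousOn (fun x => k (f x - f (γ t))) (Metric.closedBall (γ t) r0) :=
      hk.comp_continuousOn ((hT.cont.mono (SHL_sub hT ht)).sub continuousOn_const)
    exact (h1.mul_continuousOn h2 (isCompact_closedBall _ _)).mono_set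
      Metric.ball_subset_closedBall
  · obtain ⟨ρ, hρ0, hρ1, hρ2⟩ := SHL_rho hT ht κ hsph
    have h0 : ∀ y, y - f (γ t) ∈ {z : E3 | ‖z‖ ∈ tsupport κ} → y ∈ Metric.ball (f (γ t)) ρ := by
      intro y hy
      rw [Metric.mem_ball, dist_eq_norm]
      exact hρ2 _ hy
    have hcs : HasCompactSupport (fun y => k (y - f (γ t))) := by
      refine HasCompactSupport.intro (isCompact_closedBall (f (γ t)) ρ) fun y hy => ?_
      refine hk0 _ fun h => hy ?_
      exact Metric.ball_subset_closedBall (h0 y h)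
    have hts : tsupport (fun y => k (y - f (γ t))) ⊆ Metric.ball (f (γ t)) ρ := by
      have hcl : IsClosed {y : E3 | ‖y - f (γ t)‖ ∈ tsupport κ} :=
        (isClosed_tsupport κ).preimage (continuous_id.sub continuous_const).norm
      have h3 : tsupport (fun y => k (y - f (γ t))) ⊆ {y : E3 | ‖y - f (γ t)‖ ∈ tsupport κ} := by
        refine closure_minimal (fun y hy => ?_) hcl
        by_contra h
        exact hy (hk0 _ h)
      exact fun y hy => h0 y (h3 hy)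
    rw [hD.deg ρ hρ0 hρ1 (fun y => k (y - f (γ t))) (hk.comp (continuous_id.sub continuous_const))
      hcs hts, integral_sub_right_eq_self k (f (γ t))]

theorem SHL_W (hCV2 : Stmt_CV2) (hT : Tube H ε r0 Ω S f A γ) {t : ℝ} (ht : t ∈ Icc (-1 : ℝ) 1)
    (v : E3) (hv : ‖v‖ = 1) (κ : ℝ → ℝ) (hκ : Continuous κ) (hκ01 : ∀ s, 0 ≤ κ s ∧ κ s ≤ 1)
    (r1 : ℝ) (hr1 : 0 < r1) (hκr : ∀ s, κ s ≠ 0 → r1 ≤ s) :
    IntegrableOn (fun x => κ ‖f x - f (γ t)‖ * wt (-v) v (x - γ t)) (Metric.ball (γ t) r0) := by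
  have hsub := SHL_sub hT ht
  have hp : γ t ∈ Ω := hsub (Metric.mem_closedBall_self hT.rpos.le)
  have hc : ContinuousAt f (γ t) := hT.cont.continuousAt (hT.op.mem_nhds hp)
  obtain ⟨ρ1, hρ1, hρ2⟩ := Metric.continuousAt_iff.1 hc r1 hr1
  have hv0 : v ≠ 0 := by
    rintro rfl
    simp at hv
  have hvv : -v ≠ v := by
    intro h
    have h1 : (2 : ℝ) • v = 0 := by
      rw [two_smul]
      nth_rewrite 1 [← h]
      exact neg_add_cancel v
    rcases smul_eq_zero.1 h1 with h2 | h2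
    · norm_num at h2
    · exact hv0 h2
  obtain ⟨κ', hκ'⟩ : ∃ κ' : ℝ → ℝ, κ' = Set.indicator (Icc ρ1 r0) (fun _ => (1 : ℝ)) := ⟨_, rfl⟩
  have hκ'1 : ∀ s ∈ Icc ρ1 r0, κ' s = 1 := fun s hs => by
    rw [hκ', Set.indicator_of_mem hs]
  have hκ'0 : ∀ s, s ∉ Icc ρ1 r0 → κ' s = 0 := fun s hs => by
    rw [hκ', Set.indicator_of_notMem hs]
  have hκ'm : Measurable κ' := by
    rw [hκ']
    exact measurable_const.indicator measurableSet_Icc
  have hI := (hCV2 (-v) v κ' ρ1 r0 1 (by rw [norm_neg, hv]) hv hvv hκ'm hρ1 (fun s => by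
    by_cases hs : s ∈ Icc ρ1 r0
    · rw [hκ'1 s hs]
      norm_num
    · rw [hκ'0 s hs]
      norm_num) (fun s hs => by
    by_contra h
    exact hs (hκ'0 s h))).1
  have hI' : Integrable (fun x => κ' ‖x - γ t‖ * wt (-v) v (x - γ t)) := hI.comp_sub_right (γ t)
  have hmeas : AEStronglyMeasurable (fun x => κ ‖f x - f (γ t)‖)
      (volume.restrict (Metric.ball (γ t) r0)) := by
    refine ContinuousOn.aestronglyMeasurable ?_ measurableSet_ball
    exact hκ.comp_continuousOn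
      ((hT.cont.mono (Metric.ball_subset_closedBall.trans hsub)).sub continuousOn_const).norm
  have hJ : IntegrableOn (fun x => κ ‖f x - f (γ t)‖ * (κ' ‖x - γ t‖ * wt (-v) v (x - γ t)))
      (Metric.ball (γ t) r0) := by
    refine hI'.integrableOn.bdd_mul (c := 1) hmeas (Eventually.of_forall fun x => ?_)
    rw [Real.norm_eq_abs, abs_of_nonneg (hκ01 _).1]
    exact (hκ01 _).2
  refine hJ.congr_fun (fun x hx => ?_) measurableSet_ball
  by_cases hk : κ ‖f x - f (γ t)‖ = 0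
  · simp only [hk, zero_mul]
  · have h1 := hκr _ hk
    have h2 : ‖x - γ t‖ ∈ Icc ρ1 r0 := by
      constructor
      · by_contra hlt
        push Not at hlt
        have h3 := hρ2 (x := x) (by rw [dist_eq_norm]; exact hlt)
        rw [dist_eq_norm] at h3
        linarith
      · rw [← dist_eq_norm]
        exact (Metric.mem_ball.1 hx).le
    simp only [hκ'1 _ h2, one_mul]

end Tub

theorem p_SHL (hSRC : Stmt_SRC) (hLQP : Stmt_LQP) (hGL3 : Stmt_GL3) (hCTM : Stmt_CTM)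
    (hFLD : Stmt_FLD) (hLPI : Stmt_LPI) (hYNG : Stmt_YNG) (hCV1 : Stmt_CV1) (hCV2 : Stmt_CV2)
    (_hI0X : Stmt_I0X) (hBAS : Pool.Mart.Stmt_BAS) (hPIOI : Pool.Mart.Stmt_PIOI) : Stmt_SHL := by
  intro H κ0 hH hκ0 hκ1
  obtain ⟨δG, T0, G, hδG, hδG1, hT0, hT0I, hG1, hGp, hGm, hGb, hGv⟩ := hSRC κ0 hκ0 (by linarith)
  obtain ⟨c', δ, hc', hc'1, hδ, hδ1, hL⟩ := hLQP H δG hH hδG
  obtain ⟨hg3a, hg3b⟩ := hGL3
  obtain ⟨β, η, hβ, hβ1, hη, hη1, hU⟩ := hg3b c' hc'
  obtain ⟨m, hm2, hmc, hms, hm01, hm1, hmd, hmi1, hmi2⟩ := hCTM η hη hη1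
  obtain ⟨lp, lm, hlp, hlm, hlpm, hlp0, hlm0, hlpi, hlmi⟩ := SHL_ell m η hη1 hm2 hmd hmi1 hmi2
  refine ⟨β, δ, hβ, hδ, ?_⟩
  intro ε r0 Ω S f A γ hε hε1 hT t ht c hD v T s₁ s₂ hv hTp hs1 hs2 hcv1 hcv2 hfT1 hfT2 hu1 hu2
    κ hκ hκ01 hκc hκs hsph
  have ht2 : t ∈ Icc (-2 : ℝ) 2 := ⟨by linarith [ht.1], by linarith [ht.2]⟩
  have hπ := Real.pi_pos
  have he1 : t - s₂ = t + -s₂ := sub_eq_add_neg t s₂
  rw [he1] at hfT2
  have hTe : 0 < T * Real.exp (-β) := by positivity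
  have hκpos : ∀ s ∈ tsupport κ, 0 < s := fun s hs => lt_trans hTe (hκs hs).1
  have hκz : κ 0 = 0 := image_eq_zero_of_notMem_tsupport (fun h => lt_irrefl _ (hκpos 0 h))
  have hκne : ∀ s, κ s ≠ 0 → s ∈ tsupport κ := fun s hs => subset_tsupport κ hs
  have hκz' : ∀ s, s ∉ tsupport κ → κ s = 0 := fun s hs => image_eq_zero_of_notMem_tsupport hs
  obtain ⟨a, ha⟩ : ∃ a, a = un (f (γ (t + -s₂)) - f (γ t)) := ⟨_, rfl⟩
  obtain ⟨b, hb⟩ : ∃ b, b = un (f (γ (t + s₁)) - f (γ t)) := ⟨_, rfl⟩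
  have hTa : T • a = f (γ (t + -s₂)) - f (γ t) := by
    rw [ha, un, hfT2, smul_smul, mul_inv_cancel₀ hTp.ne', one_smul]
  have hTb : T • b = f (γ (t + s₁)) - f (γ t) := by
    rw [hb, un, hfT1, smul_smul, mul_inv_cancel₀ hTp.ne', one_smul]
  have hna : ‖a‖ = 1 := by
    rw [ha, un, norm_smul, norm_inv, norm_norm, hfT2, inv_mul_cancel₀ hTp.ne']
  have hnb : ‖b‖ = 1 := by
    rw [hb, un, norm_smul, norm_inv, norm_norm, hfT1, inv_mul_cancel₀ hTp.ne']
  have hcv1' : cv γ t s₁ ≠ 0 := fun h => by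
    have h1 : γ (t + s₁) = γ t := sub_eq_zero.1 h
    rw [h1, sub_self, norm_zero] at hfT1
    linarith
  have hcv2' : cv γ t (-s₂) ≠ 0 := fun h => by
    have h1 : γ (t + -s₂) = γ t := sub_eq_zero.1 h
    rw [h1, sub_self, norm_zero] at hfT2
    linarith
  have hab : a ≠ b := by
    intro hab
    have h1 : f (γ (t + -s₂)) = f (γ (t + s₁)) := by
      have h2 := hTa
      rw [hab, hTb] at h2
      exact (sub_left_inj.1 h2).symm
    have h3 := hT.inj (t + s₁) ⟨by linarith [ht.1, hs1.1], by linarith [ht.2, hs1.2]⟩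
      (γ (t + -s₂)) (by
        rw [Metric.mem_closedBall, dist_eq_norm]
        have h7 : γ (t + -s₂) - γ (t + s₁) = cv γ t (-s₂) - cv γ t s₁ := by
          unfold cv
          abel
        rw [h7]
        linarith [norm_sub_le (cv γ t (-s₂)) (cv γ t s₁), hT.rpos]) h1
    have h4 : cv γ t (-s₂) = cv γ t s₁ := by
      unfold cv
      rw [h3]
    rw [h4] at hu2
    have h5 : ‖v + v‖ ≤ 2 * δ := calc
      ‖v + v‖ = ‖(un (cv γ t s₁) + v) - (un (cv γ t s₁) - v)‖ := by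
        congr 1
        abel
      _ ≤ ‖un (cv γ t s₁) + v‖ + ‖un (cv γ t s₁) - v‖ := norm_sub_le _ _
      _ ≤ 2 * δ := by linarith
    have h6 : ‖v + v‖ = 2 := by
      rw [← two_smul ℝ v, norm_smul, hv]
      norm_num
    linarith
  obtain ⟨hX1, hXc, hXs, hXd, hXn, hk0c, hlc⟩ := hFLD a b κ m hna hnb hab hκ hκc
    (fun s hs => hκpos s hs) (hm2.of_le (by norm_num)) hmc hms
  obtain ⟨hFI, hFE⟩ := hLPI Ω f A (γ t) r0 (fld a b κ m) (fun x => G (inner ℝ x v / ‖x‖))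
    (tsupport κ) hT.op hT.cont hT.wg hT.rpos (SHL_sub hT ht) hX1 hXc hκc
    (fun s hs => hκpos s hs) hXs hsph (hGv v hv).1
  obtain ⟨J, hJ⟩ : ∃ J, J = ∫ s, κ s / s := ⟨_, rfl⟩
  have hJ0 : 0 ≤ J := by
    rw [hJ]
    refine integral_nonneg fun s => ?_
    by_cases hs : κ s = 0
    · simp [hs]
    · exact div_nonneg (hκ01 s).1 (hκpos s (hκne s hs)).le
  -- the two halves
  obtain ⟨gp, hgp⟩ : ∃ gp : E3 → ℝ, gp = fun y => κ ‖y‖ * lp (UU a b y) * q2 a b y / ‖y‖ :=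
    ⟨_, rfl⟩
  obtain ⟨gm, hgm⟩ : ∃ gm : E3 → ℝ, gm = fun y => κ ‖y‖ * lm (UU a b y) * q2 a b y / ‖y‖ :=
    ⟨_, rfl⟩
  have hip : ∫ y, gp y = 2 * Real.pi * J * (-1) := by
    rw [hgp, hJ, ← hlpi]
    exact (hCV1 a b κ lp hna hnb hab hκ.continuous hκc (fun s hs => hκpos s hs) hlp).2
  have him : ∫ y, gm y = 2 * Real.pi * J * 1 := by
    rw [hgm, hJ, ← hlmi]
    exact (hCV1 a b κ lm hna hnb hab hκ.continuous hκc (fun s hs => hκpos s hs) hlm).2
  obtain ⟨hdp1, hdp2⟩ := SHL_deg hPIOI hT ht hD κ hsph gp (by rw [hgp]; exact hlc lp hlp)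
    (fun y hy => by simp only [hgp, hκz' _ hy, zero_mul, zero_div])
  obtain ⟨hdm1, hdm2⟩ := SHL_deg hPIOI hT ht hD κ hsph gm (by rw [hgm]; exact hlc lm hlm)
    (fun y hy => by simp only [hgm, hκz' _ hy, zero_mul, zero_div])
  have hrng : ∀ y : E3, κ ‖y‖ ≠ 0 → y ≠ 0 ∧ ‖y‖ ∈ Icc (T * Real.exp (-β)) (T * Real.exp β) := by
    intro y hy
    have h1 := hκs (hκne _ hy)
    refine ⟨fun h => ?_, h1.1.le, h1.2.le⟩
    rw [h, norm_zero] at hy
    exact hy hκz
  have hGgp : ∀ x ∈ Metric.ball (γ t) r0, G (inner ℝ (x - γ t) v / ‖x - γ t‖) *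
      gp (f x - f (γ t)) = T0 * gp (f x - f (γ t)) := by
    intro x hx
    by_cases h0 : gp (f x - f (γ t)) = 0
    · rw [h0, mul_zero, mul_zero]
    · rw [hgp] at h0
      have hk : κ ‖f x - f (γ t)‖ ≠ 0 := fun h => h0 (by simp only [h, zero_mul, zero_div])
      have hl : lp (UU a b (f x - f (γ t))) ≠ 0 := fun h => h0 (by
        simp only [h, zero_mul, mul_zero, zero_div])
      obtain ⟨-, h1⟩ := hrng _ hk
      have h2 := (hU a b (f x - f (γ t)) T hna hnb hab hTp h1).1 (hlp0 _ hl)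
      rw [hTb] at h2
      have h3 : f x - f (γ t) - (f (γ (t + s₁)) - f (γ t)) = f x - f (γ (t + s₁)) := by abel
      rw [h3] at h2
      have h4 := (hL ε r0 Ω S f A γ hε hε1 hT t ht s₁ ⟨by linarith [hs1.1], hs1.2⟩ v hv hcv1
        hcv1' hu1 x hx (by rw [hfT1]; exact h2)).2
      rw [hGp _ h4]
  have hGgm : ∀ x ∈ Metric.ball (γ t) r0, G (inner ℝ (x - γ t) v / ‖x - γ t‖) *
      gm (f x - f (γ t)) = -T0 * gm (f x - f (γ t)) := by
    intro x hx
    by_cases h0 : gm (f x - f (γ t)) = 0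
    · rw [h0, mul_zero, mul_zero]
    · rw [hgm] at h0
      have hk : κ ‖f x - f (γ t)‖ ≠ 0 := fun h => h0 (by simp only [h, zero_mul, zero_div])
      have hl : lm (UU a b (f x - f (γ t))) ≠ 0 := fun h => h0 (by
        simp only [h, zero_mul, mul_zero, zero_div])
      obtain ⟨-, h1⟩ := hrng _ hk
      have h2 := (hU a b (f x - f (γ t)) T hna hnb hab hTp h1).2 (hlm0 _ hl)
      rw [hTa] at h2
      have h3 : f x - f (γ t) - (f (γ (t + -s₂)) - f (γ t)) = f x - f (γ (t + -s₂)) := by abel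
      rw [h3] at h2
      have h4 := (hL ε r0 Ω S f A γ hε hε1 hT t ht (-s₂) ⟨by linarith [hs2.2], by linarith [hs2.1]⟩
        (-v) (by rw [norm_neg, hv]) hcv2 hcv2' (by rw [sub_neg_eq_add]; exact hu2) x hx
        (by rw [hfT2]; exact h2)).2
      rw [inner_neg_right, neg_div] at h4
      rw [hGm _ (by linarith)]
  have hR : ∫ x in Metric.ball (γ t) r0, G (inner ℝ (x - γ t) v / ‖x - γ t‖) *
      ((A x).det * divv (fld a b κ m) (f x - f (γ t))) = -(2 * T0 * c * J) := by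
    have h1 : ∫ x in Metric.ball (γ t) r0, G (inner ℝ (x - γ t) v / ‖x - γ t‖) *
      ((A x).det * divv (fld a b κ m) (f x - f (γ t))) =
      ∫ x in Metric.ball (γ t) r0, (T0 / (2 * Real.pi) * ((A x).det * gp (f x - f (γ t))) -
        T0 / (2 * Real.pi) * ((A x).det * gm (f x - f (γ t)))) := by
      refine setIntegral_congr_fun measurableSet_ball fun x hx => ?_
      have e1 := hGgp x hx
      have e2 := hGgm x hx
      have e3 : divv (fld a b κ m) (f x - f (γ t)) =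
          (2 * Real.pi)⁻¹ * (gp (f x - f (γ t)) + gm (f x - f (γ t))) := by
        rw [hXd, hlpm, hgp, hgm]
        by_cases hn : ‖f x - f (γ t)‖ = 0
        · simp [hn]
        · field_simp
      simp only [e3]
      calc G (inner ℝ (x - γ t) v / ‖x - γ t‖) *
            ((A x).det * ((2 * Real.pi)⁻¹ * (gp (f x - f (γ t)) + gm (f x - f (γ t)))))
          = (2 * Real.pi)⁻¹ * (A x).det * (G (inner ℝ (x - γ t) v / ‖x - γ t‖) *
            gp (f x - f (γ t)) + G (inner ℝ (x - γ t) v / ‖x - γ t‖) * gm (f x - f (γ t))) := by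
            ring
        _ = _ := by
            rw [e1, e2]
            ring
    rw [h1, integral_sub (hdp1.const_mul _) (hdm1.const_mul _), integral_const_mul,
      integral_const_mul, hdp2, hdm2, hip, him]
    field_simp
    ring
  rw [hR, neg_neg] at hFE
  -- the energy
  obtain ⟨k0, hk0⟩ : ∃ k0 : E3 → ℝ, k0 = fun y => κ ‖y‖ * |m (UU a b y)| ^ (3 / 2 : ℝ) *
    wt a b y := ⟨_, rfl⟩
  have hk0cont : Continuous k0 := by
    rw [hk0]
    exact hk0c
  obtain ⟨hd01, hd02⟩ := SHL_deg hPIOI hT ht hD κ hsph k0 hk0cont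
    (fun y hy => by simp only [hk0, hκz' _ hy, zero_mul])
  obtain ⟨hE1, hE2⟩ := hCV2 a b κ (T * Real.exp (-β)) (T * Real.exp β) 1 hna hnb hab
    hκ.continuous.measurable hTe hκ01 (fun s hs => Ioo_subset_Icc_self (hκs (hκne s hs)))
  have hk0i : Integrable k0 := by
    refine hk0cont.integrable_of_hasCompactSupport (HasCompactSupport.intro
      (isCompact_closedBall (0 : E3) (T * Real.exp β)) fun y hy => ?_)
    have h1 : κ ‖y‖ = 0 := by
      by_contra h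
      refine hy ?_
      rw [mem_closedBall_zero_iff]
      exact (hrng y h).2.2
    simp only [hk0, h1, zero_mul]
  have hk0le : ∫ y, k0 y ≤ 2 * Real.pi * I0 * J := by
    rw [hJ]
    refine le_trans (integral_mono hk0i hE1 fun y => ?_) hE2
    simp only [hk0]
    refine mul_le_mul_of_nonneg_right ?_ (SHL_wt hna hnb y)
    refine mul_le_of_le_one_right (hκ01 _).1 (Real.rpow_le_one (abs_nonneg _) ?_ (by norm_num))
    rw [abs_of_nonneg (hm01 _).1]
    exact (hm01 _).2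
  have hW := SHL_W hCV2 hT ht v hv κ hκ.continuous hκ01 (T * Real.exp (-β)) hTe
    (fun s hs => (hκs (hκne s hs)).1.le)
  refine ⟨hW, ?_⟩
  rw [← hJ]
  have hgood : ∀ᵐ x ∂(volume.restrict (Metric.ball (γ t) r0)), Good (A x) :=
    ae_restrict_of_ae_restrict_of_subset
      (Metric.ball_subset_closedBall.trans (SHL_sub hT ht)) hT.good
  have hle : ∫ x in Metric.ball (γ t) r0, cpair (A x) (fld a b κ m (f x - f (γ t)))
      (gradv (fun x => G (inner ℝ x v / ‖x‖)) (x - γ t)) ≤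
      ∫ x in Metric.ball (γ t) r0, (3 * Real.pi)⁻¹ * ((A x).det * k0 (f x - f (γ t)) +
        κ ‖f x - f (γ t)‖ * wt (-v) v (x - γ t)) := by
    refine integral_mono_ae hFI ((hd01.add hW).const_mul _) ?_
    filter_upwards [hgood] with x hx
    refine (SHL_point hYNG hBAS hx (fld a b κ m (f x - f (γ t)))
      (gradv (fun x => G (inner ℝ x v / ‖x‖)) (x - γ t)) (k := κ ‖f x - f (γ t)‖)
      (μ := |m (UU a b (f x - f (γ t)))|) (q := sq2 a b (f x - f (γ t)))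
      (n := ‖f x - f (γ t)‖) (W := wt (-v) v (x - γ t)) (hκ01 _).1 (abs_nonneg _)
      (SHL_sq2 hna hnb _) (norm_nonneg _) ?_ ?_).trans (le_of_eq ?_)
    · have h1 := hXn (f x - f (γ t))
      rwa [abs_of_nonneg (hκ01 _).1] at h1
    · by_cases hxp : x = γ t
      · rw [hxp, sub_self, sub_self, norm_zero, hκz, zero_mul, zero_mul]
      · exact mul_le_mul_of_nonneg_left ((hGv v hv).2 (x - γ t) (sub_ne_zero.2 hxp)) (hκ01 _).1
    · simp only [hk0, wt]
  rw [hFE, integral_const_mul, integral_add hd01 hW, hd02] at hle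
  obtain ⟨Wt, hWt⟩ : ∃ Wt, Wt = ∫ x in Metric.ball (γ t) r0, κ ‖f x - f (γ t)‖ *
    wt (-v) v (x - γ t) := ⟨_, rfl⟩
  rw [← hWt] at hle ⊢
  have hcJ : 0 ≤ (c : ℝ) * J := by positivity
  have h1 : (c : ℝ) * J * ((1 - κ0) * I0 / 2) ≤ c * J * T0 := mul_le_mul_of_nonneg_left hT0I hcJ
  have h2 : (3 * Real.pi)⁻¹ * (c * ∫ y, k0 y) ≤ (3 * Real.pi)⁻¹ * (c * (2 * Real.pi * I0 * J)) :=
    mul_le_mul_of_nonneg_left (mul_le_mul_of_nonneg_left hk0le (by positivity)) (by positivity)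
  have h3 : (3 * Real.pi)⁻¹ * (c * (2 * Real.pi * I0 * J)) = (2 / 3) * (c * I0 * J) := by
    field_simp
  rw [mul_add] at hle
  rw [h3] at h2
  linarith

end Pool.Flat
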