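import Pool.Agent.Work.MP_680515_fl.Iface5

/-! # MP_680515_an, THEOREM D, block STP: covers by finitely many sets (helper79) -/

open MeasureTheory Set Filter Topology

namespace Pool.Flat

open Pool.Mart

/-- a piece `p = (a, b, y, k)` of the curve -/
structure STP_ok (Γ : ℝ → E3) (τ : ℝ) {N : ℕ} (U : Fin N → Set E3) (ρ : Fin N → ℝ) (a b : ℝ)
    (p : ℝ × ℝ × ℝ × Fin N) : Prop where
  la : a ≤ p.1
  ay : p.1 ≤ p.2.2.1
  yb : p.2.2.1 ≤ p.2.1
  bl : p.2.1 ≤ b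
  lt : p.1 < p.2.1
  mem : Γ p.2.2.1 ∈ U p.2.2.2
  lo : τ * ρ p.2.2.2 ≤ ‖Γ p.2.1 - Γ p.1‖
  up : ‖Γ p.2.1 - Γ p.1‖ ≤ ρ p.2.2.2

theorem STP_ok.mono {Γ : ℝ → E3} {τ : ℝ} {N : ℕ} {U : Fin N → Set E3} {ρ : Fin N → ℝ} {a b a' b' : ℝ}
    {p : ℝ × ℝ × ℝ × Fin N} (h : STP_ok Γ τ U ρ a b p) (ha : a' ≤ a) (hb : b ≤ b') :
    STP_ok Γ τ U ρ a' b' p :=
  ⟨ha.trans h.la, h.ay, h.yb, h.bl.trans hb, h.lt, h.mem, h.lo, h.up⟩

theorem STP_claim {C τ κ s r0 : ℝ} {Γ : ℝ → E3} (hτ : 0 < τ)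
    (hsub : ∀ a b : ℝ, -1 ≤ a → a < b → b ≤ 1 → ‖Γ b - Γ a‖ ≤ 8 * C * r0 →
      ∃ x1 x2 : ℝ, a < x1 ∧ x1 < x2 ∧ x2 < b ∧ τ * ‖Γ b - Γ a‖ ≤ ‖Γ x1 - Γ a‖ ∧
        τ * ‖Γ b - Γ a‖ ≤ ‖Γ x2 - Γ x1‖ ∧ τ * ‖Γ b - Γ a‖ ≤ ‖Γ b - Γ x2‖ ∧
        (1 + κ) * ‖Γ b - Γ a‖ ≤ ‖Γ x1 - Γ a‖ + ‖Γ x2 - Γ x1‖ + ‖Γ b - Γ x2‖)
    (hsex : ∀ d ℓ1 ℓ2 ℓ3 : ℝ, 0 < d → τ * d ≤ ℓ1 → τ * d ≤ ℓ2 → τ * d ≤ ℓ3 →
      (1 + κ) * d ≤ ℓ1 + ℓ2 + ℓ3 → d ^ s ≤ ℓ1 ^ s + ℓ2 ^ s + ℓ3 ^ s)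
    {N : ℕ} (U : Fin N → Set E3) (ρ : Fin N → ℝ) {ρ0 η : ℝ} (hρ0 : 0 < ρ0) (hρ : ∀ k, ρ0 ≤ ρ k)
    (hη0 : 0 < η) (hη : ∀ x y : ℝ, -1 ≤ x → x < y → y ≤ 1 → τ * ρ0 ≤ ‖Γ y - Γ x‖ → η ≤ y - x)
    {a b : ℝ} (ha : -1 ≤ a) (hb : b ≤ 1) (hcov : Γ '' Icc a b ⊆ ⋃ k, U k)
    (hsmall : ∀ a' b', a ≤ a' → a' < b' → b' ≤ b → ‖Γ b' - Γ a'‖ ≤ 8 * C * r0) :
    ∀ (n : ℕ) (a' b' : ℝ), a ≤ a' → a' < b' → b' ≤ b → b' - a' ≤ n * η →
      (∀ k, (∃ y ∈ Icc a' b', Γ y ∈ U k) → τ * ρ k ≤ ‖Γ b' - Γ a'‖) →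
      ∃ l : List (ℝ × ℝ × ℝ × Fin N), (∀ p ∈ l, STP_ok Γ τ U ρ a' b' p) ∧
        l.Pairwise (fun p q => p.2.1 ≤ q.1) ∧
        ‖Γ b' - Γ a'‖ ^ s ≤ (l.map fun p => ‖Γ p.2.1 - Γ p.1‖ ^ s).sum := by
  intro n
  induction n with
  | zero =>
    intro a' b' h1 h2 h3 h4 _
    rw [Nat.cast_zero, zero_mul] at h4
    exact absurd h2 (by linarith)
  | succ n ih =>
    intro a' b' h1 h2 h3 h4 h5
    by_cases hcase : ∃ k, (∃ y ∈ Icc a' b', Γ y ∈ U k) ∧ ‖Γ b' - Γ a'‖ ≤ ρ k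
    · obtain ⟨k, ⟨y, hy, hyk⟩, hk⟩ := hcase
      refine ⟨[(a', b', y, k)], ?_, List.pairwise_singleton _ _, ?_⟩
      · intro p hp
        rw [List.mem_singleton] at hp
        rw [hp]
        exact ⟨le_rfl, hy.1, hy.2, le_rfl, h2, hyk, h5 k ⟨y, hy, hyk⟩, hk⟩
      · simp
    · push Not at hcase
      obtain ⟨D, hD⟩ : ∃ D : ℝ, D = ‖Γ b' - Γ a'‖ := ⟨_, rfl⟩
      rw [← hD] at h5 hcase
      -- some `U k` contains `Γ a'`
      obtain ⟨k0, hk0⟩ := mem_iUnion.1 (hcov (mem_image_of_mem Γ (⟨h1, (h2.trans_le h3).le⟩ : a' ∈ Icc a b)))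
      have hDρ : ρ0 < D := (hρ k0).trans_lt (hcase k0 ⟨a', ⟨le_rfl, h2.le⟩, hk0⟩)
      have hD0 : 0 < D := hρ0.trans hDρ
      obtain ⟨x1, x2, e1, e2, e3, e4, e5, e6, e7⟩ := hsub a' b' (by linarith) h2 (by linarith)
        (hsmall a' b' h1 h2 h3)
      rw [← hD] at e4 e5 e6 e7
      have hτD : τ * ρ0 ≤ τ * D := mul_le_mul_of_nonneg_left hDρ.le hτ.le
      have g1 := hη a' x1 (by linarith) e1 (by linarith) (hτD.trans e4)
      have g2 := hη x1 x2 (by linarith) e2 (by linarith) (hτD.trans e5)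
      have g3 := hη x2 b' (by linarith) e3 (by linarith) (hτD.trans e6)
      have h4' : b' - a' ≤ n * η + η := by
        have e : ((n + 1 : ℕ) : ℝ) * η = n * η + η := by
          push_cast
          ring
        rw [e] at h4
        exact h4
      have hsm : ∀ u v : ℝ, a' ≤ u → v ≤ b' → τ * D ≤ ‖Γ v - Γ u‖ →
          ∀ k, (∃ y ∈ Icc u v, Γ y ∈ U k) → τ * ρ k ≤ ‖Γ v - Γ u‖ := by
        intro u v hu hv huv k hk
        obtain ⟨y, hy, hyk⟩ := hk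
        have hlt := hcase k ⟨y, ⟨hu.trans hy.1, hy.2.trans hv⟩, hyk⟩
        exact (mul_le_mul_of_nonneg_left hlt.le hτ.le).trans huv
      obtain ⟨l1, m1, p1, s1⟩ := ih a' x1 h1 e1 (by linarith) (by linarith)
        (hsm a' x1 le_rfl (by linarith) e4)
      obtain ⟨l2, m2, p2, s2⟩ := ih x1 x2 (by linarith) e2 (by linarith) (by linarith)
        (hsm x1 x2 e1.le (by linarith) e5)
      obtain ⟨l3, m3, p3, s3⟩ := ih x2 b' (by linarith) e3 h3 (by linarith)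
        (hsm x2 b' (by linarith) le_rfl e6)
      refine ⟨l1 ++ (l2 ++ l3), ?_, ?_, ?_⟩
      · intro p hp
        rw [List.mem_append, List.mem_append] at hp
        rcases hp with hp | hp | hp
        · exact (m1 p hp).mono le_rfl (by linarith)
        · exact (m2 p hp).mono e1.le (by linarith)
        · exact (m3 p hp).mono (by linarith) le_rfl
      · rw [List.pairwise_append, List.pairwise_append]
        refine ⟨p1, ⟨p2, p3, ?_⟩, ?_⟩
        · intro p hp q hq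
          exact (m2 p hp).bl.trans (m3 q hq).la
        · intro p hp q hq
          rw [List.mem_append] at hq
          rcases hq with hq | hq
          · exact (m1 p hp).bl.trans (m2 q hq).la
          · exact ((m1 p hp).bl.trans e2.le).trans (m3 q hq).la
      · rw [List.map_append, List.map_append, List.sum_append, List.sum_append, ← hD]
        have h7 := hsex D _ _ _ hD0 e4 e5 e6 e7
        linarith

/-- summation over the pieces, ordered by the sets of the cover -/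
theorem STP_sum {N : ℕ} (g : Fin N → ℝ) (hg : ∀ k, 0 ≤ g k) (P : ℕ) (l : List (ℝ × ℝ × ℝ × Fin N))
    (hl : ∀ k, (l.filter fun p => p.2.2.2 = k).length ≤ P) :
    (l.map fun p => g p.2.2.2).sum ≤ P * ∑ k, g k := by
  have h1 : (l.map fun p => g p.2.2.2).sum = ∑ k, ((l.filter fun p => p.2.2.2 = k).length : ℝ) * g k := by
    clear hl
    induction l with
    | nil => simp
    | cons p l ih =>
      rw [List.map_cons, List.sum_cons, ih]
      have h2 : ∀ k, (((p :: l).filter fun q => q.2.2.2 = k).length : ℝ) * g k =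
          (if k = p.2.2.2 then g k else 0) + ((l.filter fun q => q.2.2.2 = k).length : ℝ) * g k := by
        intro k
        by_cases hk : k = p.2.2.2
        · rw [if_pos hk, List.filter_cons_of_pos (by simp [hk]), List.length_cons]
          push_cast
          ring
        · rw [if_neg hk, List.filter_cons_of_neg (by simpa using fun h => hk h.symm), zero_add]
      rw [Finset.sum_congr rfl fun k _ => h2 k, Finset.sum_add_distrib, Finset.sum_ite_eq' Finset.univ p.2.2.2,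
        if_pos (Finset.mem_univ _)]
  rw [h1, Finset.mul_sum]
  refine Finset.sum_le_sum fun k _ => mul_le_mul_of_nonneg_right ?_ (hg k)
  exact_mod_cast hl k

theorem p_STP (hSUB : Stmt_SUB) (hSEX : Stmt_SEX) (hCNQ : Stmt_CNQ) : Stmt_STP := by
  intro C δ L hC hδ hL
  obtain ⟨τ, κ, hτ, hτ1, hκ, hsub⟩ := hSUB C δ L hC hδ hL
  obtain ⟨s, hs, hsex⟩ := hSEX τ κ hτ hτ1 hκ
  obtain ⟨P, hP⟩ := hCNQ C τ hC hτ
  refine ⟨s, P + 1, hs, ?_⟩
  intro Γ r0 hΓ hinj hBT hr0 hWG a b ha hab hb hd N U ρ hρ hU hcov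
  have hs0 : 0 ≤ s := by linarith
  have hρs : ∀ k, 0 ≤ ρ k ^ s := fun k => Real.rpow_nonneg (hρ k).le s
  by_cases hbig : ∃ k, ‖Γ b - Γ a‖ ≤ ρ k
  · obtain ⟨k, hk⟩ := hbig
    calc ‖Γ b - Γ a‖ ^ s ≤ ρ k ^ s := Real.rpow_le_rpow (norm_nonneg _) hk hs0
      _ ≤ ∑ k, ρ k ^ s := Finset.single_le_sum (f := fun k => ρ k ^ s) (fun k _ => hρs k) (Finset.mem_univ k)
      _ ≤ ((P + 1 : ℕ) : ℝ) * ∑ k, ρ k ^ s := by
        refine le_mul_of_one_le_left (Finset.sum_nonneg fun k _ => hρs k) ?_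
        push_cast
        have : (0 : ℝ) ≤ P := Nat.cast_nonneg P
        linarith
  · push Not at hbig
    obtain ⟨k1, -⟩ := mem_iUnion.1 (hcov (mem_image_of_mem Γ (⟨le_rfl, hab.le⟩ : a ∈ Icc a b)))
    have : Nonempty (Fin N) := ⟨k1⟩
    obtain ⟨k0, hk0⟩ := Finite.exists_min ρ
    -- uniform continuity
    obtain ⟨η, hη0, hη⟩ : ∃ η : ℝ, 0 < η ∧ ∀ x y : ℝ, -1 ≤ x → x < y → y ≤ 1 →
        τ * ρ k0 ≤ ‖Γ y - Γ x‖ → η ≤ y - x := by
      have huc := isCompact_Icc.uniformContinuousOn_of_continuous hΓ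
      rw [Metric.uniformContinuousOn_iff] at huc
      obtain ⟨η, hη0, hη⟩ := huc (τ * ρ k0) (mul_pos hτ (hρ k0))
      refine ⟨η, hη0, fun x y hx hxy hy hh => ?_⟩
      by_contra hcon
      push Not at hcon
      have h1 := hη y ⟨by linarith, by linarith⟩ x ⟨by linarith, by linarith⟩ (by
        rw [Real.dist_eq, abs_of_pos (by linarith)]
        exact hcon)
      rw [dist_eq_norm] at h1
      linarith
    have hsmall : ∀ a' b', a ≤ a' → a' < b' → b' ≤ b → ‖Γ b' - Γ a'‖ ≤ 8 * C * r0 := by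
      intro a' b' h1 h2 h3
      have i1 := (hBT a ⟨by linarith, by linarith⟩ a' ⟨by linarith, by linarith⟩ b
        ⟨by linarith, by linarith⟩ h1 (by linarith)).1
      have i2 := (hBT a ⟨by linarith, by linarith⟩ b' ⟨by linarith, by linarith⟩ b
        ⟨by linarith, by linarith⟩ (by linarith) h3).1
      have i3 : ‖Γ b' - Γ a'‖ ≤ ‖Γ b' - Γ a‖ + ‖Γ a' - Γ a‖ := by
        have e : Γ b' - Γ a' = (Γ b' - Γ a) - (Γ a' - Γ a) := by abel
        rw [e]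
        exact norm_sub_le _ _
      have i4 : C * ‖Γ b - Γ a‖ ≤ C * (4 * r0) := mul_le_mul_of_nonneg_left hd (by linarith)
      linarith
    obtain ⟨n, hn⟩ := exists_nat_ge ((b - a) / η)
    have hn' : b - a ≤ n * η := by
      rw [div_le_iff₀ hη0] at hn
      exact hn
    obtain ⟨l, hl1, hl2, hl3⟩ := STP_claim (C := C) (r0 := r0) hτ (hsub Γ r0 hΓ hinj hBT hr0 hWG) hsex U ρ (hρ k0) hk0
      hη0 hη ha hb hcov hsmall n a b le_rfl hab le_rfl hn' (fun k _ => by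
        have i1 : τ * ρ k ≤ 1 * ρ k := mul_le_mul_of_nonneg_right hτ1 (hρ k).le
        linarith [hbig k])
    -- the multiplicity
    have hmult : ∀ k, (l.filter fun p => p.2.2.2 = k).length ≤ P := by
      intro k
      obtain ⟨l', hl'⟩ : ∃ l' : List (ℝ × ℝ × ℝ × Fin N), l' = l.filter fun p => p.2.2.2 = k := ⟨_, rfl⟩
      rw [← hl']
      have hok : ∀ p ∈ l', STP_ok Γ τ U ρ a b p ∧ p.2.2.2 = k := by
        intro p hp
        rw [hl', List.mem_filter] at hp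
        exact ⟨hl1 p hp.1, by simpa using hp.2⟩
      have hpw : l'.Pairwise (fun p q => p.2.1 ≤ q.1) := by
        rw [hl']
        exact hl2.filter _
      rw [List.pairwise_iff_getElem] at hpw
      obtain ⟨d0, -⟩ : ∃ d0 : ℝ × ℝ × ℝ × Fin N, True := ⟨(0, 0, 0, k), trivial⟩
      have hget : ∀ i (hi : i < l'.length), l'.getD i d0 = l'[i] := fun i hi =>
        List.getD_eq_getElem l' d0 hi
      refine hP Γ (ρ k) l'.length (fun i => (l'.getD i d0).1) (fun i => (l'.getD i d0).2.1)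
        (fun i => (l'.getD i d0).2.2.1) hBT (hρ k) ?_ ?_ ?_ ?_
      · intro i hi
        simp only [hget i hi]
        have h := (hok _ (List.getElem_mem hi)).1
        exact ⟨ha.trans h.la, h.ay, h.yb, h.bl.trans hb, h.lt⟩
      · intro i j hij hj
        simp only [hget i (hij.trans hj), hget j hj]
        exact hpw i j (hij.trans hj) hj hij
      · intro i hi
        simp only [hget i hi]
        have h := hok _ (List.getElem_mem hi)
        have h2 := h.1.lo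
        rw [h.2] at h2
        exact h2
      · intro i hi j hj
        simp only [hget i hi, hget j hj]
        have h1 := hok _ (List.getElem_mem hi)
        have h2 := hok _ (List.getElem_mem hj)
        have h3 := h1.1.mem
        have h4 := h2.1.mem
        rw [h1.2] at h3
        rw [h2.2] at h4
        exact hU k _ h3 _ h4
    have hsum := STP_sum (fun k => ρ k ^ s) hρs P l hmult
    have hle : (l.map fun p => ‖Γ p.2.1 - Γ p.1‖ ^ s).sum ≤ (l.map fun p => ρ p.2.2.2 ^ s).sum :=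
      List.sum_le_sum fun p hp => Real.rpow_le_rpow (norm_nonneg _) (hl1 p hp).up hs0
    calc ‖Γ b - Γ a‖ ^ s ≤ (P : ℝ) * ∑ k, ρ k ^ s := hl3.trans (hle.trans hsum)
      _ ≤ ((P + 1 : ℕ) : ℝ) * ∑ k, ρ k ^ s := by
        refine mul_le_mul_of_nonneg_right ?_ (Finset.sum_nonneg fun k _ => hρs k)
        push_cast
        linarith

end Pool.Flat
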