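import Pool.Agent.Work.MP_680515_fl.Iface5

/-!
# Block SUB: gain of length
-/

open MeasureTheory Set Filter Topology

namespace Pool.Flat

open Pool.Mart

theorem SUB_gain (v e : E3) (δ : ℝ) (he : ‖e‖ = 1) (hv : v ≠ 0) (hδ : 0 < δ)
    (h : δ < ‖un v - e‖) : ‖v‖ * δ ^ 2 / 2 ≤ ‖v‖ - inner ℝ v e := by
  have hv0 : 0 < ‖v‖ := norm_pos_iff.2 hv
  have h1 : ‖un v - e‖ ^ 2 = 2 - 2 * (‖v‖⁻¹ * inner ℝ v e) := by
    have hu : ‖un v‖ = 1 := by
      unfold un
      rw [norm_smul, norm_inv, norm_norm, inv_mul_cancel₀ hv0.ne']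
    rw [@norm_sub_sq ℝ, hu, he]
    unfold un
    rw [inner_smul_left]
    simp
    ring
  have h2 : δ ^ 2 < ‖un v - e‖ ^ 2 := by
    have := norm_nonneg (un v - e)
    nlinarith
  rw [h1] at h2
  have h3 : ‖v‖ * (‖v‖⁻¹ * inner ℝ v e) = inner ℝ v e := by
    rw [← mul_assoc, mul_inv_cancel₀ hv0.ne', one_mul]
  have h4 : ‖v‖ * δ ^ 2 ≤ ‖v‖ * (2 - 2 * (‖v‖⁻¹ * inner ℝ v e)) :=
    mul_le_mul_of_nonneg_left h2.le hv0.le
  have h5 : ‖v‖ * (2 - 2 * (‖v‖⁻¹ * inner ℝ v e)) = 2 * ‖v‖ - 2 * inner ℝ v e := by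
    linear_combination (-2) * h3
  rw [h5] at h4
  linarith

theorem SUB_inner (v e : E3) (he : ‖e‖ = 1) : inner ℝ v e ≤ ‖v‖ := by
  have := real_inner_le_norm v e
  rwa [he, mul_one] at this

theorem p_SUB : Stmt_SUB := by
  intro C δ L hC hδ hL
  have hC0 : 0 < C := by linarith
  have hE : 0 < Real.exp (-L) := Real.exp_pos _
  have hE1 : Real.exp (-L) ≤ 1 := Real.exp_le_one_iff.2 (by linarith)
  have hτ8 : Real.exp (-L) / (8 * C) ≤ 1 / 8 := by
    rw [div_le_div_iff₀ (by positivity) (by norm_num)]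
    nlinarith
  refine ⟨Real.exp (-L) / (8 * C), Real.exp (-L) * δ ^ 2 / (16 * C), by positivity,
    hτ8.trans (by norm_num), by positivity, ?_⟩
  intro Γ r0 hcont hinj hBT hr0 hWG a b ha hab hb hd8
  set d := ‖Γ b - Γ a‖ with hd
  have haI : a ∈ Icc (-2 : ℝ) 2 := ⟨by linarith, by linarith⟩
  have hbI : b ∈ Icc (-2 : ℝ) 2 := ⟨by linarith, by linarith⟩
  have hd0 : 0 < d := by
    rw [hd, norm_pos_iff, sub_ne_zero]
    intro h
    exact hab.ne (hinj haI hbI h.symm)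
  -- the point `p`
  obtain ⟨p, hpI, hp⟩ : ∃ p ∈ Icc a b, ‖Γ p - Γ a‖ = d / 2 := by
    have hc : ContinuousOn (fun p => ‖Γ p - Γ a‖) (Icc a b) :=
      ((hcont.mono (Icc_subset_Icc haI.1 hbI.2)).sub continuousOn_const).norm
    have h1 := intermediate_value_Icc hab.le hc
    have h2 : d / 2 ∈ Icc ((fun p => ‖Γ p - Γ a‖) a) ((fun p => ‖Γ p - Γ a‖) b) := by
      constructor
      · simp only [sub_self, norm_zero]
        linarith
      · show d / 2 ≤ ‖Γ b - Γ a‖
        rw [← hd]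
        linarith
    exact h1 h2
  have hpa : a < p := by
    rcases hpI.1.lt_or_eq with h | h
    · exact h
    · rw [← h, sub_self, norm_zero] at hp
      linarith
  have hbp : d / 2 ≤ ‖Γ b - Γ p‖ := by
    have h1 : ‖Γ b - Γ a‖ ≤ ‖Γ b - Γ p‖ + ‖Γ p - Γ a‖ := norm_sub_le_norm_sub_add_norm_sub _ _ _
    rw [hp, ← hd] at h1
    linarith
  have hpb : p < b := by
    rcases hpI.2.lt_or_eq with h | h
    · exact h
    · rw [h, sub_self, norm_zero] at hbp
      linarith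
  have hpII : p ∈ Icc (-1 : ℝ) 1 := ⟨by linarith, by linarith⟩
  have hpI2 : p ∈ Icc (-2 : ℝ) 2 := ⟨by linarith, by linarith⟩
  -- the unit vector
  set e : E3 := d⁻¹ • (Γ b - Γ a) with he
  have he1 : ‖e‖ = 1 := by
    rw [he, norm_smul, norm_inv, Real.norm_of_nonneg hd0.le, ← hd, inv_mul_cancel₀ hd0.ne']
  have hde : inner ℝ (Γ b - Γ a) e = d := by
    rw [he, inner_smul_right, real_inner_self_eq_norm_sq, ← hd]
    field_simp
  set r := d / (8 * C) with hr
  have hr1 : 0 < r := by positivity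
  have hr2 : r ≤ r0 := by
    rw [hr, div_le_iff₀ (by positivity)]
    linarith
  have hCr : C * r = d / 8 := by
    rw [hr]
    field_simp
  have hr8 : r ≤ d / 8 := by
    rw [← hCr]
    nlinarith
  obtain ⟨s, hs1, hs2, hs3, hs4⟩ := hWG p hpII r hr1 hr2 e he1
  have hτd : Real.exp (-L) / (8 * C) * d = Real.exp (-L) * r := by
    rw [hr]
    field_simp
  have hEr : 0 < Real.exp (-L) * r := mul_pos hE hr1
  have hEr8 : Real.exp (-L) * r ≤ d / 8 := by nlinarith
  have hs0 : s ≠ 0 := by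
    rintro rfl
    have h1 : cv Γ p 0 = 0 := by
      unfold cv
      simp
    rw [h1, norm_zero] at hs2
    linarith
  have hκ : (1 + Real.exp (-L) * δ ^ 2 / (16 * C)) * d = d + Real.exp (-L) * r * δ ^ 2 / 2 := by
    rw [hr]
    field_simp
    ring
  have habs := abs_le.1 hs1
  rw [hτd, hκ]
  have hu2 : p + s ∈ Icc (-2 : ℝ) 2 := ⟨by linarith [hpII.1, habs.1], by linarith [hpII.2, habs.2]⟩
  rcases lt_or_gt_of_ne hs0 with hneg | hpos
  · -- `u < p`
    have hcv : ‖Γ p - Γ (p + s)‖ = ‖cv Γ p s‖ := by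
      unfold cv
      rw [norm_sub_rev]
    have hua : a < p + s := by
      by_contra hc
      push Not at hc
      have h1 := (hBT (p + s) hu2 a haI p hpI2 hc hpa.le).2
      rw [hcv, hp] at h1
      have h2 : C * ‖cv Γ p s‖ ≤ C * r := mul_le_mul_of_nonneg_left hs3 hC0.le
      linarith
    have hss : s / |s| = -1 := by
      rw [abs_of_neg hneg, div_neg, div_self hs0]
    have hv2 : δ < ‖un (Γ p - Γ (p + s)) - e‖ := by
      have h1 : un (Γ p - Γ (p + s)) - e = -(un (cv Γ p s) - (s / |s|) • e) := by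
        rw [hss]
        unfold un
        rw [hcv]
        unfold cv
        rw [← neg_sub (Γ (p + s)) (Γ p), smul_neg, neg_one_smul]
        abel
      rw [h1, norm_neg]
      exact hs4
    have hne : Γ p - Γ (p + s) ≠ 0 := by
      rw [← norm_pos_iff, hcv]
      linarith
    have hg := SUB_gain _ e δ he1 hne hδ hv2
    have h3 : ‖Γ p - Γ a‖ ≤ ‖Γ p - Γ (p + s)‖ + ‖Γ (p + s) - Γ a‖ :=
      norm_sub_le_norm_sub_add_norm_sub _ _ _
    rw [hp, hcv] at h3
    refine ⟨p + s, p, hua, by linarith, hpb, by linarith, by rw [hcv]; exact hs2, by linarith, ?_⟩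
    have h4 := SUB_inner (Γ (p + s) - Γ a) e he1
    have h5 := SUB_inner (Γ b - Γ p) e he1
    have h6 : inner ℝ (Γ b - Γ a) e = inner ℝ (Γ (p + s) - Γ a) e +
        inner ℝ (Γ p - Γ (p + s)) e + inner ℝ (Γ b - Γ p) e := by
      rw [← inner_add_left, ← inner_add_left]
      congr 1
      abel
    rw [hde] at h6
    have h7 : Real.exp (-L) * r * δ ^ 2 / 2 ≤ ‖Γ p - Γ (p + s)‖ * δ ^ 2 / 2 := by
      rw [hcv]
      have := mul_le_mul_of_nonneg_right hs2 (sq_nonneg δ)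
      linarith
    linarith
  · -- `u > p`
    have hcv : ‖Γ (p + s) - Γ p‖ = ‖cv Γ p s‖ := rfl
    have hub : p + s < b := by
      by_contra hc
      push Not at hc
      have h1 := (hBT p hpI2 b hbI (p + s) hu2 hpb.le hc).1
      rw [hcv] at h1
      have h2 : C * ‖cv Γ p s‖ ≤ C * r := mul_le_mul_of_nonneg_left hs3 hC0.le
      linarith
    have hss : s / |s| = 1 := by
      rw [abs_of_pos hpos, div_self hs0]
    have hv2 : δ < ‖un (Γ (p + s) - Γ p) - e‖ := by
      have h1 : un (Γ (p + s) - Γ p) - e = un (cv Γ p s) - (s / |s|) • e := by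
        rw [hss, one_smul]
        rfl
      rw [h1]
      exact hs4
    have hne : Γ (p + s) - Γ p ≠ 0 := by
      rw [← norm_pos_iff, hcv]
      linarith
    have hg := SUB_gain _ e δ he1 hne hδ hv2
    have h3 : ‖Γ b - Γ p‖ ≤ ‖Γ b - Γ (p + s)‖ + ‖Γ (p + s) - Γ p‖ :=
      norm_sub_le_norm_sub_add_norm_sub _ _ _
    rw [hcv] at h3
    refine ⟨p, p + s, hpa, by linarith, hub, by rw [hp]; linarith, by rw [hcv]; exact hs2,
      by linarith, ?_⟩
    have h4 := SUB_inner (Γ p - Γ a) e he1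
    have h5 := SUB_inner (Γ b - Γ (p + s)) e he1
    have h6 : inner ℝ (Γ b - Γ a) e = inner ℝ (Γ p - Γ a) e +
        inner ℝ (Γ (p + s) - Γ p) e + inner ℝ (Γ b - Γ (p + s)) e := by
      rw [← inner_add_left, ← inner_add_left]
      congr 1
      abel
    rw [hde] at h6
    have h7 : Real.exp (-L) * r * δ ^ 2 / 2 ≤ ‖Γ (p + s) - Γ p‖ * δ ^ 2 / 2 := by
      rw [hcv]
      have := mul_le_mul_of_nonneg_right hs2 (sq_nonneg δ)
      linarith
    linarith

end Pool.Flat
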