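import Pool.Agent.Work.MP_680515_fl.Iface4

/-! # Block WCN: preimages of connected sets which meet the axis (typed by helper56) -/

open MeasureTheory Set Filter Topology

namespace Pool.Flat

open Pool.Mart

lemma WCN_continuous_sg : Continuous sg := by
  unfold sg
  refine (PiLp.continuous_toLp 2 _).comp (continuous_pi fun i => ?_)
  fin_cases i
  · exact ((continuous_apply (0 : Fin 3)).comp (PiLp.continuous_ofLp 2 _)).neg
  · exact ((continuous_apply (1 : Fin 3)).comp (PiLp.continuous_ofLp 2 _)).neg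
  · have h : Continuous fun y : E3 => y 2 :=
      (continuous_apply (2 : Fin 3)).comp (PiLp.continuous_ofLp 2 _)
    exact h

lemma WCN_aux (hWOP : Stmt_WOP) {C : Set E3} (hC : IsPreconnected C) {a : E3} (haC : a ∈ C)
    (ha : rad a = 0) {u v : Set E3} (hu : IsOpen u) (hv : IsOpen v)
    (hsub : wind ⁻¹' C ⊆ u ∪ v) (hau : a ∈ u) (hvn : (wind ⁻¹' C ∩ v).Nonempty) :
    (wind ⁻¹' C ∩ (u ∩ v)).Nonempty := by
  obtain ⟨-, hopen, hsurj, hsg, htwo, hax, -, hfix, -⟩ := hWOP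
  have h1 : IsOpen (wind '' (u ∩ sg ⁻¹' u)) :=
    hopen _ (hu.inter (hu.preimage WCN_continuous_sg))
  have h2 : IsOpen (wind '' v) := hopen _ hv
  have hcov : C ⊆ wind '' (u ∩ sg ⁻¹' u) ∪ wind '' v := by
    intro c hc
    obtain ⟨y, hy⟩ := hsurj c
    have hys : y ∈ wind ⁻¹' C := by
      show wind y ∈ C
      rw [hy]; exact hc
    have hys' : sg y ∈ wind ⁻¹' C := by
      show wind (sg y) ∈ C
      rw [hsg, hy]; exact hc
    rcases hsub hys with h | h
    · rcases hsub hys' with h' | h'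
      · exact Or.inl ⟨y, ⟨h, h'⟩, hy⟩
      · exact Or.inr ⟨sg y, h', by rw [hsg, hy]⟩
    · exact Or.inr ⟨y, h, hy⟩
  have hn1 : (C ∩ wind '' (u ∩ sg ⁻¹' u)).Nonempty := by
    refine ⟨a, haC, a, ⟨hau, ?_⟩, hax a ha⟩
    show sg a ∈ u
    rw [(hfix a).2 ha]; exact hau
  have hn2 : (C ∩ wind '' v).Nonempty := by
    obtain ⟨y, hyC, hyv⟩ := hvn
    exact ⟨wind y, hyC, y, hyv, rfl⟩
  obtain ⟨c, hcC, ⟨y1, ⟨hy1, hy1'⟩, e1⟩, ⟨y2, hy2, e2⟩⟩ := hC _ _ h1 h2 hcov hn1 hn2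
  refine ⟨y2, ?_, ?_, hy2⟩
  · show wind y2 ∈ C
    rw [e2]; exact hcC
  · rcases htwo y1 y2 (e1.trans e2.symm) with h | h
    · rw [h]; exact hy1
    · rw [h]; exact hy1'

theorem p_WCN (hWOP : Stmt_WOP) : Stmt_WCN := by
  rintro C hC ⟨a, haC, ha⟩ u v hu hv hsub hun hvn
  have haS : a ∈ wind ⁻¹' C := by
    show wind a ∈ C
    rw [hWOP.2.2.2.2.2.1 a ha]; exact haC
  rcases hsub haS with h | h
  · exact WCN_aux hWOP hC haC ha hu hv hsub h hvn
  · have := WCN_aux hWOP hC haC ha hv hu (by rw [union_comm]; exact hsub) h hun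
    rwa [inter_comm v u] at this

end Pool.Flat
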