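import Pool.Agent.Work.MP_680515_fl.Iface5

/-! Block WIG (helper69): a quasi-arc without flat points has Hausdorff dimension `> 1`. -/

set_option autoImplicit false

open MeasureTheory Set Filter Topology

namespace Pool.Flat

open Pool.Mart

theorem p_WIG (hSTP : Stmt_STP) (hHMP : Stmt_HMP) : Stmt_WIG := by
  intro Γ C δ L r0 hC hδ hL hr0 hcont hinj hBT hWG
  obtain ⟨s, P, hs, hst⟩ := hSTP C δ L hC hδ hL
  -- continuity at `0`
  have hc0 : ContinuousAt Γ 0 := hcont.continuousAt (Icc_mem_nhds (by norm_num) (by norm_num))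
  have hev : ∀ᶠ t in 𝓝 (0 : ℝ), ‖Γ t - Γ 0‖ < 4 * r0 := by
    have h1 := Metric.tendsto_nhds.1 hc0 (4 * r0) (by positivity)
    filter_upwards [h1] with t ht
    rwa [dist_eq_norm] at ht
  obtain ⟨η, hη, hηb⟩ := Metric.eventually_nhds_iff.1 hev
  obtain ⟨b, hb0, hb1, hbη⟩ : ∃ b : ℝ, 0 < b ∧ b ≤ 1 ∧ b < η := by
    refine ⟨min 1 (η / 2), by positivity, min_le_left _ _, ?_⟩
    exact lt_of_le_of_lt (min_le_right _ _) (by linarith)
  have hbd : ‖Γ b - Γ 0‖ < 4 * r0 := by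
    refine hηb ?_
    rw [Real.dist_eq, sub_zero, abs_of_pos hb0]
    exact hbη
  have hpos : 0 < ‖Γ b - Γ 0‖ := by
    rw [norm_pos_iff, sub_ne_zero]
    intro h
    have := hinj (show b ∈ Icc (-2 : ℝ) 2 from ⟨by linarith, by linarith⟩)
      (show (0 : ℝ) ∈ Icc (-2 : ℝ) 2 from ⟨by norm_num, by norm_num⟩) h
    linarith
  have hsub : Icc (0 : ℝ) b ⊆ Icc (-2 : ℝ) 2 := Icc_subset_Icc (by norm_num) (by linarith)
  have hsub1 : Icc (0 : ℝ) b ⊆ Icc (-1 : ℝ) 1 := Icc_subset_Icc (by norm_num) hb1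
  have hcomp : IsCompact (Γ '' Icc 0 b) := isCompact_Icc.image_of_continuousOn (hcont.mono hsub)
  have hps : 0 < ‖Γ b - Γ 0‖ ^ s := Real.rpow_pos_of_pos hpos s
  have hP1 : (0 : ℝ) < (P : ℝ) + 1 := by positivity
  have hdim : 1 < dimH (Γ '' Icc 0 b) := by
    refine hHMP (Γ '' Icc 0 b) s (‖Γ b - Γ 0‖ ^ s / ((P : ℝ) + 1)) hcomp hs (by positivity) ?_
    intro N U ρ hρ hd hcov
    have h1 := hst Γ r0 hcont hinj hBT hr0 hWG 0 b (by norm_num) hb0 hb1 hbd.le N U ρ hρ hd hcov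
    have h2 : 0 ≤ ∑ k, ρ k ^ s := Finset.sum_nonneg fun k _ => Real.rpow_nonneg (hρ k).le s
    rw [div_le_iff₀ hP1]
    nlinarith
  exact lt_of_lt_of_le hdim (dimH_mono (image_mono hsub1))

end Pool.Flat
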