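import Pool.Agent.Work.MP_680515_an.IfaceH
import Pool.Agent.Work.MP_680515_an.IfaceU
import Pool.Agent.Work.MP_680515_an.IfaceW

/-!
# MP_680515_an, THEOREM FB (flat branch curve): definitions

`f = φ ∘ w ∘ ψ` with `K_I(f) ≤ K`, the branch curve is nearly linear at all small scales near one
of its points; `φ` and `ψ` are otherwise arbitrary.  Then `2 ≤ K`.
See `PLAN.md` in this folder for the complete proof.
-/

open MeasureTheory Set Filter Topology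

namespace Pool.Flat

open Pool.Mart

/-! ## Definitions used in the final statement -/

/-- Set of the branch points of `φ ∘ w ∘ ψ` in `Ω`: the points which `ψ` maps to the third axis. -/
def bset (Ω : Set E3) (ψ : E3 → E3) : Set E3 := {x | x ∈ Ω ∧ rad (ψ x) = 0}

/-- `γ` is `ε`-nearly linear on `[-a, a]` at all scales `≤ h0`: for every `t` and every
`h ≤ h0` there is a vector `v ≠ 0` with `|γ(t + s) - γ(t) - s v| ≤ ε h |v|` for `|s| ≤ h`. -/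
def NearLin (ε : ℝ) (γ : ℝ → E3) (a h0 : ℝ) : Prop :=
  ∀ t ∈ Icc (-a) a, ∀ h : ℝ, 0 < h → h ≤ h0 → ∃ v : E3, v ≠ 0 ∧
    ∀ s : ℝ, |s| ≤ h → t + s ∈ Icc (-a) a → ‖γ (t + s) - γ t - s • v‖ ≤ ε * h * ‖v‖

/-- Local distortion of a map `f` with branch set `S` on the ball `B(x0, R)`: weak
quasisymmetry with constant `H` at the points of `S` and on the balls `B(z, dist(z, S) / H)`. -/
structure LocDist (H : ℝ) (f : E3 → E3) (S : Set E3) (x0 : E3) (R : ℝ) : Prop where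
  br : ∀ z ∈ S ∩ Metric.ball x0 R, ∀ x ∈ Metric.ball x0 R, ∀ y ∈ Metric.ball x0 R,
    ‖x - z‖ ≤ ‖y - z‖ → ‖f x - f z‖ ≤ H * ‖f y - f z‖
  wh : ∀ z ∈ Metric.ball x0 R, ∀ x ∈ Metric.ball x0 R, ∀ y ∈ Metric.ball x0 R,
    H * ‖y - z‖ ≤ Metric.infDist z S → ‖x - z‖ ≤ ‖y - z‖ → ‖f x - f z‖ ≤ H * ‖f y - f z‖

/-- THE FINAL THEOREM. -/
def Stmt_FinalFB : Prop :=
  ∀ H : ℝ, 1 ≤ H → ∃ ε : ℝ, 0 < ε ∧ ∀ (φ ψ : OpenPartialHomeomorph E3 E3) (A : E3 → M3)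
    (K R h0 : ℝ) (x0 : E3) (γ : ℝ → E3),
    (∀ x ∈ ψ.source, wind (ψ x) ∈ φ.source) →
    0 < R → Metric.ball x0 R ⊆ ψ.source →
    γ 0 = x0 → ContinuousOn γ (Icc (-1) 1) → InjOn γ (Icc (-1) 1) →
    bset ψ.source ψ ∩ Metric.ball x0 R = γ '' Icc (-1) 1 ∩ Metric.ball x0 R →
    0 < h0 → NearLin ε γ 1 h0 →
    LocDist H (fun x => φ (wind (ψ x))) (bset ψ.source ψ) x0 R →
    QReg ψ.source (fun x => φ (wind (ψ x))) A → InnerDist ψ.source A K → 2 ≤ K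

/-! ## The local structure -/

/-- The tube: `f` near the branch curve `γ([-2, 2])`, all distances up to `8 r0`. -/
structure Tube (H ε r0 : ℝ) (Ω S : Set E3) (f : E3 → E3) (A : E3 → M3) (γ : ℝ → E3) : Prop where
  rpos : 0 < r0
  op : IsOpen Ω
  cont : ContinuousOn f Ω
  wg : WeakGrad Ω f A
  good : ∀ᵐ x ∂(volume.restrict Ω), Good (A x)
  gc : ContinuousOn γ (Icc (-2) 2)
  lin : NearLin ε γ 2 1
  far : ∀ t ∈ Icc (-2 : ℝ) 2, ∀ σ : ℝ, |σ| = 1 → t + σ ∈ Icc (-2 : ℝ) 2 →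
    8 * r0 ≤ ‖γ (t + σ) - γ t‖
  sub : ∀ t ∈ Icc (-2 : ℝ) 2, Metric.closedBall (γ t) (8 * r0) ⊆ Ω
  gS : ∀ t ∈ Icc (-2 : ℝ) 2, γ t ∈ S
  SN : ∀ t ∈ Icc (-1 : ℝ) 1, S ∩ Metric.closedBall (γ t) (8 * r0) ⊆ γ '' Icc (-2) 2
  inj : ∀ t ∈ Icc (-2 : ℝ) 2, ∀ x ∈ Metric.closedBall (γ t) (8 * r0), f x = f (γ t) → x = γ t
  br : ∀ t ∈ Icc (-2 : ℝ) 2, ∀ x ∈ Metric.closedBall (γ t) (8 * r0),
    ∀ y ∈ Metric.closedBall (γ t) (8 * r0),
    ‖x - γ t‖ ≤ ‖y - γ t‖ → ‖f x - f (γ t)‖ ≤ H * ‖f y - f (γ t)‖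
  wh : ∀ t ∈ Icc (-2 : ℝ) 2, ∀ z ∈ Metric.closedBall (γ t) (8 * r0),
    ∀ x ∈ Metric.closedBall (γ t) (8 * r0), ∀ y ∈ Metric.closedBall (γ t) (8 * r0),
    H * ‖y - z‖ ≤ Metric.infDist z S → ‖x - z‖ ≤ ‖y - z‖ → ‖f x - f z‖ ≤ H * ‖f y - f z‖
  two : ∀ t ∈ Icc (-1 : ℝ) 1, ∀ ρ : ℝ, 0 < ρ → ∃ x1 ∈ Metric.ball (γ t) ρ,
    ∃ x2 ∈ Metric.ball (γ t) ρ, x1 ≠ x2 ∧ f x1 = f x2 ∧ ∃ s : ℝ, 0 < s ∧
      InjOn f (Metric.closedBall x1 s) ∧ InjOn f (Metric.closedBall x2 s)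

/-- The local degree of `f` at `p` on the ball of radius `r0` is `c ≥ 2`: degree formula and
flux formula. -/
structure DegP (f : E3 → E3) (A : E3 → M3) (p : E3) (r0 : ℝ) (c : ℕ) : Prop where
  two : 2 ≤ c
  deg : ∀ ρ : ℝ, 0 < ρ → (∀ x, ‖x - p‖ = r0 → ρ ≤ ‖f x - f p‖) → ∀ g : E3 → ℝ, Continuous g →
    HasCompactSupport g → tsupport g ⊆ Metric.ball (f p) ρ →
    ∫ x in Metric.ball p r0, (A x).det * g (f x) = c * ∫ y, g y
  flux : ∀ h : ℝ → ℝ, Continuous h → HasCompactSupport h → tsupport h ⊆ Ioo 0 r0 →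
    ∫ x, h ‖x - p‖ * fx (A x) (x - p) (f x - f p) = 4 * Real.pi * c * ∫ r, h r

/-- The ring `r1 < |x - p| < r2`. -/
def rg (p : E3) (r1 r2 : ℝ) : Set E3 := {x | r1 < ‖x - p‖ ∧ ‖x - p‖ < r2}

/-- Defect density at `x` for the base point `p`. -/
noncomputable def dens (f : E3 → E3) (A : E3 → M3) (p x : E3) : ℝ :=
  dfc (A x) (x - p) (f x - f p) / ‖x - p‖ ^ 3

/-- Defect of the ring. -/
noncomputable def DR (f : E3 → E3) (A : E3 → M3) (p : E3) (r1 r2 : ℝ) : ℝ :=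
  ∫ x in rg p r1 r2, dens f A p x

/-- On the ring `r/M ≤ |x - p| ≤ M r` the number `log(|f x - f p| / |x - p|)` is within `τ` of
`m`. -/
def RC (f : E3 → E3) (p : E3) (r M m τ : ℝ) : Prop :=
  ∀ x : E3, r / M ≤ ‖x - p‖ → ‖x - p‖ ≤ M * r →
    |Real.log (‖f x - f p‖ / ‖x - p‖) - m| ≤ τ

/-- Chord vector of the curve. -/
def cv (γ : ℝ → E3) (t s : ℝ) : E3 := γ (t + s) - γ t

/-- Unit vector. -/
noncomputable def un (x : E3) : E3 := ‖x‖⁻¹ • x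

/-- Weak gradient of a real function: `V` is locally integrable on `W` and
`∫ u ∂_j φ = - ∫ V_j φ` for all test functions in `W`. -/
structure WG1 (W : Set E3) (u : E3 → ℝ) (V : E3 → E3) : Prop where
  loc : ∀ K : Set E3, IsCompact K → K ⊆ W → ∀ j : Fin 3, IntegrableOn (fun x => V x j) K
  ibp : ∀ φ : E3 → ℝ, ContDiff ℝ (⊤ : ℕ∞) φ → HasCompactSupport φ → tsupport φ ⊆ W →
    ∀ j : Fin 3, ∫ x, u x * fderiv ℝ φ x (EuclideanSpace.single j 1) = - ∫ x, V x j * φ x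

/-! ## Conformal fields on spheres -/

/-- `|y| - ⟨y, a⟩`: zero exactly on the ray through the unit vector `a`. -/
noncomputable def dn (a y : E3) : ℝ := ‖y‖ - inner ℝ y a

/-- `U = (dn a - dn b)/(dn a + dn b)`: `-1` on the ray of `a`, `+1` on the ray of `b`. -/
noncomputable def UU (a b y : E3) : ℝ := (dn a y - dn b y) / (dn a y + dn b y)

/-- `∇ Λ`, `Λ = (1/2) log (dn a / dn b)`: a tangential harmonic field, a source at the ray of `a`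
and a sink at the ray of `b`. -/
noncomputable def gL (a b y : E3) : E3 :=
  (2 * dn a y)⁻¹ • (‖y‖⁻¹ • y - a) - (2 * dn b y)⁻¹ • (‖y‖⁻¹ • y - b)

/-- `|∇ Λ|^2`. -/
noncomputable def sq2 (a b y : E3) : ℝ := (1 - inner ℝ a b) / (2 * dn a y * dn b y)

/-- `⟨∇ U, ∇ Λ⟩`. -/
noncomputable def q2 (a b y : E3) : ℝ := 2 * (1 - inner ℝ a b) / (dn a y + dn b y) ^ 2

/-- Energy density `(|∇ Λ| / |y|)^{3/2}`. -/
noncomputable def wt (a b y : E3) : ℝ := ‖y‖ ^ (-(3 / 2) : ℝ) * sq2 a b y ^ (3 / 4 : ℝ)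

/-- `I0 = ∫_{-1}^{1} (1 - u^2)^{-3/4} du`. -/
noncomputable def I0 : ℝ := ∫ u in (-1 : ℝ)..1, (1 - u ^ 2) ^ (-(3 / 4) : ℝ)

end Pool.Flat
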