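import Pool.Agent.Work.MP_680515_fl.Defs

/-!
# MP_680515_an, THEOREM FB: interface 1 (curve, metric estimates, degree, ring inequality)

In the docstrings `p = γ t`, `Δ_s = cv γ t s = γ (t + s) - γ t`, `|.|` is the norm.
Library statements (`PIOW`, `PIOI`, `MOLL`, `FLC`, `FLK`, `RADF`, `RINT`, `THREE`, `BAS`, `ENB` ...)
are those of `Pool.Agent.Work.MP_680515_an` (namespace `Pool.Mart`, proved there): take them as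
hypotheses `Pool.Mart.Stmt_PIOW` ... as listed in the column `uses` of the table (`M.PIOW`).
-/

open MeasureTheory Set Filter Topology

namespace Pool.Flat

open Pool.Mart

/-! ## The curve -/

/-- LINP.  Chord form of near linearity.  Proof: `NearLin` with `h = |s|`:
`|Δ_s - s v| ≤ ε |s| |v|`, so `|Δ_s| ≥ (1 - ε) |s| |v| > 0`; `|Δ_{s'} - s' v| ≤ ε |s| |v|`;
`Δ_{s'} - (s'/s) Δ_s = (Δ_{s'} - s' v) - (s'/s)(Δ_s - s v)` has norm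
`≤ 2 ε |s| |v| ≤ 2 ε |Δ_s|/(1 - ε) ≤ 4 ε |Δ_s|`. -/
def Stmt_LINP : Prop :=
  ∀ (ε : ℝ) (γ : ℝ → E3), 0 ≤ ε → ε ≤ 1 / 1000 → NearLin ε γ 2 1 → ∀ t ∈ Icc (-2 : ℝ) 2,
    ∀ s : ℝ, s ≠ 0 → |s| ≤ 1 → t + s ∈ Icc (-2 : ℝ) 2 → 0 < ‖cv γ t s‖ ∧
    ∀ s' : ℝ, |s'| ≤ |s| → t + s' ∈ Icc (-2 : ℝ) 2 →
      ‖cv γ t s' - (s' / s) • cv γ t s‖ ≤ 4 * ε * ‖cv γ t s‖

/-- CONE.  Drift of the direction of the chords.  Proof: general fact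
`|a/|a| - b/|b|| ≤ 2 |a - b|/|b|` for `a, b ≠ 0`.  With `s_j = 2^{-j} s2`,
`|Δ_{s_{j+1}} - (1/2) Δ_{s_j}| ≤ 4 ε |Δ_{s_j}|` (`LINP`) gives `|un Δ_{s_{j+1}} - un Δ_{s_j}| ≤ 16 ε`.
For `s_{j+1} ≤ |s| ≤ s_j` (`j < k`; or `|s| = s_0`) `|Δ_s - (s/s_j) Δ_{s_j}| ≤ 4 ε |Δ_{s_j}|` and
`|s/s_j| ≥ 1/2`, so `un Δ_s` is within `16 ε` of `(s/|s|) un Δ_{s_j}`. -/
def Stmt_CONE : Prop :=
  ∀ (ε : ℝ) (γ : ℝ → E3), 0 ≤ ε → ε ≤ 1 / 1000 → NearLin ε γ 2 1 → ∀ t ∈ Icc (-1 : ℝ) 1,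
    ∀ (s2 : ℝ) (k : ℕ) (s : ℝ), 0 < s2 → s2 ≤ 1 → (2 : ℝ)⁻¹ ^ k * s2 ≤ |s| → |s| ≤ s2 →
      ‖un (cv γ t s) - (s / |s|) • un (cv γ t s2)‖ ≤ 40 * (k + 1) * ε

/-- ARX.  Points of the two arms at prescribed distances: intermediate value theorem for
`s ↦ |γ (t + σ s) - γ t|` on `[0, 1]`, `far`. -/
def Stmt_ARX : Prop :=
  ∀ (H ε r0 : ℝ) (Ω S : Set E3) (f : E3 → E3) (A : E3 → M3) (γ : ℝ → E3),
    Tube H ε r0 Ω S f A γ → ∀ t ∈ Icc (-2 : ℝ) 2, ∀ σ : ℝ, |σ| = 1 → t + σ ∈ Icc (-2 : ℝ) 2 →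
    ∀ r : ℝ, 0 ≤ r → r ≤ 8 * r0 → ∃ s ∈ Icc (0 : ℝ) 1, ‖cv γ t (σ * s)‖ = r

/-- WIN.  In a window of scales of length `L` the curve is in a narrow double cone.
Proof: `s2 ∈ (0,1]` with `|Δ_{s2}| = 4 r2` (`ARX`, `4 r2 ≤ 8 r0`), `v = un Δ_{s2}`.  If
`s2 < |s| ≤ 1`: by `LINP` at scale `s` (with `s' = ± s2` of the sign of `s`) and at scale `s2`
(with `s' = - s2`) `|Δ_s| ≥ 4 r2 (1 - 4 ε)/(1 + 4 ε) > r2`, excluded.  If `|s| < 2^{-k} s2`: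
`|Δ_{2^{-j} s2}| ≤ (1/2 + 4 ε)^j 4 r2` and `|Δ_s| ≤ (1 + 4 ε) (0.51)^k 4 r2 < r1` for `k = k(L)`,
excluded.  So `CONE` applies: distance `≤ 40 (k + 1) ε ≤ δ`. -/
def Stmt_WIN : Prop :=
  ∀ δ L : ℝ, 0 < δ → 0 < L → ∃ ε1 : ℝ, 0 < ε1 ∧ ε1 ≤ 1 / 1000 ∧
    ∀ (H ε r0 : ℝ) (Ω S : Set E3) (f : E3 → E3) (A : E3 → M3) (γ : ℝ → E3), 0 ≤ ε → ε ≤ ε1 →
    Tube H ε r0 Ω S f A γ → ∀ t ∈ Icc (-1 : ℝ) 1, ∀ r1 r2 : ℝ, 0 < r1 → r1 ≤ r2 → r2 ≤ r0 →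
    Real.log (r2 / r1) ≤ L → ∃ v : E3, ‖v‖ = 1 ∧ ∀ s : ℝ, |s| ≤ 1 → r1 ≤ ‖cv γ t s‖ →
      ‖cv γ t s‖ ≤ r2 → ‖un (cv γ t s) - (s / |s|) • v‖ ≤ δ

/-! ## Metric estimates -/

/-- PKG.  Packing in a ball: cover the ball by finitely many balls of radius `τ/3`
(`isCompact_closedBall`, `totallyBounded`), pigeonhole. -/
def Stmt_PKG : Prop :=
  ∀ R τ : ℝ, 0 < τ → ∃ P : ℕ, ∀ (n : ℕ) (z : Fin n → E3), (∀ i, ‖z i‖ ≤ R) →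
    (∀ i j, i ≠ j → τ ≤ ‖z i - z j‖) → n ≤ P

/-- E1.  Doubling at the branch points.  Proof for one factor `2` (then iterate with points `y_j`
on the ray through `y`, `|y_j - p| = min (2^j |y - p|) |x - p|`): `r = |y - p|`, `0 < r ≤ 2 r0`
(if `r = 0` then `x = p`), a direction `σ` with `t + σ ∈ [-2,2]`, `s_*` with
`|Δ_{σ s_*}| = 4 r ≤ 8 r0` (`ARX`), `q_j = γ (t + σ s_* j/16)`, `j = 0..12`; by `LINP`
`|q_j - p - (j/16) Δ_{σ s_*}| ≤ 16 ε r`, so `q_j` is within `r/50` of `p + j (r/4) e`,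
`e = un Δ_{σ s_*}`.  `|q_j - p| ≤ r` for `j ≤ 3`: `br` at `p` gives `|f q_j - f p| ≤ H |f y - f p|`.
For `3 ≤ j < 12`: `|q_{j+1} - q_j| ≤ |q_{j-2} - q_j|`, `br` at `q_j` gives
`|f q_{j+1} - f q_j| ≤ H |f q_{j-2} - f q_j|`; so `a_j = |f q_j - f p|` satisfies
`a_{j+1} ≤ (1 + 2 H) max_{i ≤ j} a_i`, `a_12 ≤ (1 + 2 H)^9 H |f y - f p|`.  Finally
`|q_12 - p| ≥ 2 r ≥ |x - p|` and `br` at `p`. -/
def Stmt_E1 : Prop :=
  ∀ H : ℝ, 1 ≤ H → ∃ D : ℝ, 1 ≤ D ∧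
    ∀ (ε r0 : ℝ) (Ω S : Set E3) (f : E3 → E3) (A : E3 → M3) (γ : ℝ → E3), 0 ≤ ε → ε ≤ 1 / 1000 →
    Tube H ε r0 Ω S f A γ → ∀ t ∈ Icc (-2 : ℝ) 2, ∀ k : ℕ,
    ∀ x ∈ Metric.closedBall (γ t) (2 * r0), ∀ y ∈ Metric.closedBall (γ t) (2 * r0),
    ‖x - γ t‖ ≤ 2 ^ k * ‖y - γ t‖ → ‖f x - f (γ t)‖ ≤ D ^ (k + 1) * ‖f y - f (γ t)‖

/-- E2.  Contraction at the branch points.  Proof: `ρ = |x - p| > 0`, points of one arm `q_j`,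
`j = 0..m`, `|q_j - p| = 4^j ρ` (`ARX`), `4^m ρ ≤ |y - p|`.  For `j < k`:
`|q_k - q_j| ≥ 4^k ρ - 4^j ρ ≥ |p - q_j|`, so `br` at `q_j`: `|f p - f q_j| ≤ H |f q_k - f q_j|`;
`br` at `p`: `|f x - f p| ≤ H |f q_j - f p|` and `|f q_j - f p| ≤ H |f y - f p|`.  If
`|f x - f p| > θ |f y - f p|` the `m + 1` points `(f q_j - f p)/|f y - f p|` are in the ball of
radius `H` with mutual distances `≥ θ/H^2`: `m + 1 ≤ P` (`PKG`).  (`|f y - f p| > 0` by `inj`.)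
Take `δ = 4^{-P-1}`. -/
def Stmt_E2 : Prop :=
  ∀ H θ : ℝ, 1 ≤ H → 0 < θ → ∃ δ : ℝ, 0 < δ ∧ δ < 1 ∧
    ∀ (ε r0 : ℝ) (Ω S : Set E3) (f : E3 → E3) (A : E3 → M3) (γ : ℝ → E3), 0 ≤ ε → ε ≤ 1 / 1000 →
    Tube H ε r0 Ω S f A γ → ∀ t ∈ Icc (-2 : ℝ) 2,
    ∀ x ∈ Metric.closedBall (γ t) (2 * r0), ∀ y ∈ Metric.closedBall (γ t) (2 * r0),
    ‖x - γ t‖ ≤ δ * ‖y - γ t‖ → ‖f x - f (γ t)‖ ≤ θ * ‖f y - f (γ t)‖

/-- E3.  Uniform continuity.  `D0 = |f y0 - f p| > 0`, `h = |z - z'|/r ≤ δ`, `d = infDist z S`;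
`C = D^{k+1}` with `2^k ≥ 4 M`: `|f x - f p| ≤ C D0` for `|x - p| ≤ 4 M r` (`E1`).
Case `d ≤ √δ r`: `q ∈ S` with `|z - q| < 2 √δ r`, `q ∈ closedBall p (8 r0)`, so `q = γ t'` (`SN`),
`|z' - q| ≤ 3 √δ r`; `y1` with `|y1 - q| = r`; `E2` at `q` with `θ = τ/(4 C)`:
`|f z - f q|, |f z' - f q| ≤ θ |f y1 - f q| ≤ θ 2 C D0`.
Case `d > √δ r`, `z ≠ z'`: `z_j = z + 4^j h r e` (`|e| = 1`), `j ≤ m`, `4^m h r ≤ d/(4 H)`.  The
points are in `closedBall p (2 M r)`, `infDist z_j S ≥ 3 d/4`.  `wh` at `z`: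
`|f z' - f z| ≤ H |f z_j - f z|`; `wh` at `z_j` (`j < k`): `|f z - f z_j| ≤ H |f z_k - f z_j|`
(`H |z_k - z_j| ≤ H 4^k h r ≤ d/4 ≤ infDist z_j S`, `|z - z_j| = 4^j h r ≤ |z_k - z_j|`).  If
`|f z - f z'| > τ D0` then the points `(f z_j - f p)/D0` are in the ball of radius `C` with mutual
distances `≥ τ/H^2`, `m + 1 ≤ P` (`PKG`); but `m` can be taken `≥ log_4 (1/(4 H √δ)) - 1`. -/
def Stmt_E3 : Prop :=
  ∀ H M τ : ℝ, 1 ≤ H → 1 ≤ M → 0 < τ → ∃ δ : ℝ, 0 < δ ∧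
    ∀ (ε r0 : ℝ) (Ω S : Set E3) (f : E3 → E3) (A : E3 → M3) (γ : ℝ → E3), 0 ≤ ε → ε ≤ 1 / 1000 →
    Tube H ε r0 Ω S f A γ → ∀ t ∈ Icc (-1 : ℝ) 1, ∀ r : ℝ, 0 < r → 8 * M * r ≤ r0 →
    ∀ y0 : E3, ‖y0 - γ t‖ = r → ∀ z z' : E3, ‖z - γ t‖ ≤ M * r → ‖z' - γ t‖ ≤ M * r →
    ‖z - z'‖ ≤ δ * r → ‖f z - f z'‖ ≤ τ * ‖f y0 - f (γ t)‖

/-! ## Sobolev functions -/

/-- CHR.  Chain rule.  Proof: `K = tsupport φ`; `MOLL` on a compact neighbourhood of `K` gives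
smooth `g_n → f` uniformly with `jac g_n → A` in `L^3`; the set `{(x, f x) : x ∈ K}` is compact in
`𝓞`, so `(x, g_n x) ∈ 𝓞` near `K` for large `n`; integration by parts for the `C^1` function
`x ↦ Φ (x, g_n x)`; pass to the limit (`DΦ` is uniformly continuous on a compact neighbourhood,
`∂_j g_n = act (jac g_n) e_j → act A e_j` in `L^1(K)`).  Local integrability: `act A e_j ∈ L^1`. -/
def Stmt_CHR : Prop :=
  ∀ (Ω W : Set E3) (f : E3 → E3) (A : E3 → M3) (𝓞 : Set (E3 × E3)) (Φ : E3 × E3 → ℝ),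
    IsOpen Ω → IsOpen W → W ⊆ Ω → ContinuousOn f Ω → WeakGrad Ω f A → IsOpen 𝓞 →
    ContDiffOn ℝ 1 Φ 𝓞 → (∀ x ∈ W, (x, f x) ∈ 𝓞) →
    WG1 W (fun x => Φ (x, f x)) (fun x => WithLp.toLp 2 fun j =>
      fderiv ℝ Φ (x, f x) (EuclideanSpace.single j 1, act (A x) (EuclideanSpace.single j 1)))

/-- OSC.  Oscillation bound by the `L^1` norm of the weak gradient.  Proof: a bump function
`ρ_h` (`ContDiffBump` at `0` with radii `h/2`, `h`, normed; `ρ_h ≤ 1/volume(ball h/2) = C h^{-3}`),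
`u_h z = ∫ ρ_h (z - w) u w dw` for `z` on the segment (only `w ∈ closedBall z h ⊆ W` matter).
`|u_h x - u x| ≤ σ`, the same at `y`; `d/ds u_h (x + s (y - x)) = ∫ ρ_h V · (y - x)` (`WG1` with the
test function `w ↦ ρ_h (z - w)`), of size `≤ C h^{-3} |x - y| Σ_j ∫_W |V_j|`. -/
def Stmt_OSC : Prop :=
  ∃ C : ℝ, 0 < C ∧ ∀ (W : Set E3) (u : E3 → ℝ) (V : E3 → E3) (x y : E3) (h σ I : ℝ),
    IsOpen W → ContinuousOn u W → WG1 W u V → 0 < h →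
    (∀ s ∈ Icc (0 : ℝ) 1, Metric.closedBall (x + s • (y - x)) h ⊆ W) →
    (∀ z : E3, ‖z - x‖ ≤ h → |u z - u x| ≤ σ) → (∀ z : E3, ‖z - y‖ ≤ h → |u z - u y| ≤ σ) →
    (∀ j : Fin 3, IntegrableOn (fun z => V z j) W ∧ ∫ z in W, |V z j| ≤ I) →
    |u x - u y| ≤ 2 * σ + C * (h ^ 3)⁻¹ * ‖x - y‖ * I

/-! ## Degree -/

/-- DEGF.  The degree formula with a real constant.  Proof.  (a) For `k ∈ C^1_c` and `y, y'` with
`k(· - y')`, translated along the segment to `k(· - y)`, supported in `ball q ρ`: the field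
`H z = (∫_0^1 k (z - y' - σ e) dσ) • e`, `e = y - y'`, is `C^1` with compact support in `ball q ρ`
(convex) and `divv H z = k (z - y') - k (z - y)`.  The compact set
`{x ∈ closedBall p R : f x ∈ tsupport H}` does not meet the sphere, so it is in some
`closedBall p R'`, `R' < R`; `PIOW` with a bump `φ = 1` on `closedBall p R'`, supported in
`ball p R`: `∫_{ball p R} det A (k (f - y') - k (f - y)) = 0`.  (b) `g` as in the statement,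
supported in `closedBall q ρ'`, `ρ' < ρ`; `ζ_δ` a normed bump of radius `δ < ρ - ρ'`; by Fubini
`∫ det A (g ⋆ ζ_δ)(f) = ∫ g(y) (∫ det A ζ_δ(f - y)) dy = c_δ ∫ g`, `c_δ = ∫ det A ζ_δ(f - q)`; let
`δ → 0` (`g ⋆ ζ_δ → g` uniformly, `det A ∈ L^1`): `∫ det A g(f) = (lim c_δ) ∫ g` (the limit exists:
take one `g` with `∫ g = 1`). -/
def Stmt_DEGF : Prop :=
  ∀ (Ω : Set E3) (f : E3 → E3) (A : E3 → M3) (p q : E3) (R ρ : ℝ), IsOpen Ω → ContinuousOn f Ω →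
    WeakGrad Ω f A → 0 < R → Metric.closedBall p R ⊆ Ω → 0 < ρ →
    (∀ x, ‖x - p‖ = R → ρ ≤ ‖f x - q‖) →
    ∃ c : ℝ, ∀ g : E3 → ℝ, Continuous g → HasCompactSupport g → tsupport g ⊆ Metric.ball q ρ →
      ∫ x in Metric.ball p R, (A x).det * g (f x) = c * ∫ y, g y

/-- SINT.  The degree of a smooth map is an integer.  Proof: `DEGF` (a smooth map has the weak
gradient `jac g`) gives a real `c`.  Critical values are a null set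
(`MeasureTheory.addHaar_image_eq_zero_of_det_fderiv_eq_zero`), so there is `y1 ∈ ball q ρ` which is
not a critical value.  `g^{-1}(y1) ∩ closedBall p R` is compact and discrete (inverse function
theorem), finite: `x_1..x_m` in the open ball; disjoint open neighbourhoods `W_i` on which `g` is
injective with `det` of constant sign `± `; for small `δ` the set
`g^{-1}(ball y1 δ) ∩ closedBall p R` is in the union of the `W_i` and `ball y1 δ ⊆ g(W_i)`.  Test with a bump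
`ζ` supported in `ball y1 δ`, `∫ ζ = 1`: change of variables on each `W_i`
(`integral_image_eq_integral_abs_det_fderiv_smul`) gives `c = Σ_i ± 1`. -/
def Stmt_SINT : Prop :=
  ∀ (g : E3 → E3) (p q : E3) (R ρ : ℝ), ContDiff ℝ (⊤ : ℕ∞) g → 0 < R → 0 < ρ →
    (∀ x, ‖x - p‖ = R → ρ ≤ ‖g x - q‖) →
    ∃ k : ℤ, ∀ ζ : E3 → ℝ, Continuous ζ → HasCompactSupport ζ → tsupport ζ ⊆ Metric.ball q ρ →
      ∫ x in Metric.ball p R, (jac g x).det * ζ (g x) = k * ∫ y, ζ y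

/-- INTG.  The degree of a continuous Sobolev map is an integer.  Proof: `DEGF` gives `c`; `MOLL`
on `closedBall p R`: `g_n → f` uniformly, `jac g_n → A` in `L^3(closedBall p R)`; for large `n`
`|g_n - q| ≥ ρ/2` on the sphere; take one `ζ` supported in `ball q (ρ/2)` with `∫ ζ = 1`:
`∫ det (jac g_n) ζ(g_n) ∈ ℤ` (`SINT`) and converges to `c`
(`det (jac g_n) → det A` in `L^1`, `ζ(g_n) → ζ(f)` uniformly); the integers are closed. -/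
def Stmt_INTG : Prop :=
  ∀ (Ω : Set E3) (f : E3 → E3) (A : E3 → M3) (p q : E3) (R ρ : ℝ), IsOpen Ω → ContinuousOn f Ω →
    WeakGrad Ω f A → 0 < R → Metric.closedBall p R ⊆ Ω → 0 < ρ →
    (∀ x, ‖x - p‖ = R → ρ ≤ ‖f x - q‖) →
    ∃ k : ℤ, ∀ g : E3 → ℝ, Continuous g → HasCompactSupport g → tsupport g ⊆ Metric.ball q ρ →
      ∫ x in Metric.ball p R, (A x).det * g (f x) = k * ∫ y, g y

/-- POS.  A map which is injective on a closed ball has degree at least one there.  Proof: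
`ρ = min |f x - f x1|` on the sphere, `INTG` gives `k ∈ ℤ`, `k ≥ 0` since `det A ≥ 0` a.e.
(`Good`).  If `k = 0`: with a bump `g ≥ 0`, `g = 1` on `ball (f x1) (ρ/2)`, `det A = 0` a.e. on the
open set `{x ∈ ball x1 s : |f x - f x1| < ρ/2}`, so `opn A = 0`, `A = 0` a.e. there (`Good`), and
every component of `f` has zero weak gradient near `x1`, so `f` is constant near `x1` (`OSC` with
`I = 0` and `h → 0`), a contradiction. -/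
def Stmt_POS : Prop :=
  ∀ (Ω : Set E3) (f : E3 → E3) (A : E3 → M3) (x1 : E3) (s : ℝ), IsOpen Ω → ContinuousOn f Ω →
    WeakGrad Ω f A → (∀ᵐ x ∂(volume.restrict Ω), Good (A x)) → 0 < s →
    Metric.closedBall x1 s ⊆ Ω → InjOn f (Metric.closedBall x1 s) →
    ∃ (k : ℕ) (ρ : ℝ), 1 ≤ k ∧ 0 < ρ ∧ (∀ x, ‖x - x1‖ = s → ρ ≤ ‖f x - f x1‖) ∧
      ∀ g : E3 → ℝ, Continuous g → HasCompactSupport g → tsupport g ⊆ Metric.ball (f x1) ρ →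
      ∫ x in Metric.ball x1 s, (A x).det * g (f x) = k * ∫ y, g y

/-- DEG2.  Degree formula at a branch point, degree at least two.  Proof: `ρ0 = min |f x - f p|` on
the sphere of radius `r0` (`> 0` by `inj`), `INTG` gives `k`.  Points `x1, x2` from `two` so close
to `p` that `f x1 = f x2 = y0 ∈ ball (f p) ρ0` and `x1, x2 ∈ ball p r0`; shrink `s` so that the
closed balls are disjoint and in `ball p r0` (`InjOn.mono`); `POS` gives `k1, k2 ≥ 1`.  A bump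
`g ≥ 0` near `y0`: `k ∫ g = ∫_{ball p r0} det A g(f) ≥ (k1 + k2) ∫ g` (`det A ≥ 0` a.e.), so
`k ≥ 2`.  Every `ρ` in the statement is `≤ ρ0`. -/
def Stmt_DEG2 : Prop :=
  ∀ (H ε r0 : ℝ) (Ω S : Set E3) (f : E3 → E3) (A : E3 → M3) (γ : ℝ → E3),
    Tube H ε r0 Ω S f A γ → ∀ t ∈ Icc (-1 : ℝ) 1, ∃ c : ℕ, 2 ≤ c ∧
    ∀ ρ : ℝ, 0 < ρ → (∀ x, ‖x - γ t‖ = r0 → ρ ≤ ‖f x - f (γ t)‖) → ∀ g : E3 → ℝ, Continuous g →
    HasCompactSupport g → tsupport g ⊆ Metric.ball (f (γ t)) ρ →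
    ∫ x in Metric.ball (γ t) r0, (A x).det * g (f x) = c * ∫ y, g y

/-- DEG.  `DegP`.  Proof: `DEG2`; the flux: `FLC` and `FLK` on `(0, r0)` give a constant `Φ` with
`∫ h(|x - p|) fx = Φ ∫ h`.  `PIOW` with `H y = κ(|y - f p|) |y - f p|^{-3} (y - f p)`, `κ` smooth,
`κ = 0` near `0`, `κ = 1` on `[ρ/2, ∞)`, `ρ` small, and `φ x = η(|x - p|)`, `η = 1` for
`|x - p| ≤ R1`, `η = 0` near `r0`, where `|f x - f p| ≥ ρ/2` for `R1 ≤ |x - p| ≤ r0`: the left side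
is `∫ η' fx = Φ ∫ η' = - Φ`, the right side `- ∫ det A divv H(f) = - c ∫ divv H`
(`divv H y = κ'(|y - f p|)/|y - f p|^2`, `RINT`: `∫ divv H = 4 π`; its support is in the region
where `η = 1`).  So `Φ = 4 π c`. -/
def Stmt_DEG : Prop :=
  ∀ (H ε r0 : ℝ) (Ω S : Set E3) (f : E3 → E3) (A : E3 → M3) (γ : ℝ → E3),
    Tube H ε r0 Ω S f A γ → ∀ t ∈ Icc (-1 : ℝ) 1, ∃ c : ℕ, DegP f A (γ t) r0 c

/-! ## The ring inequality -/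

/-- IDC.  The exact identity for a map with flux `4 π c` (compare `Stmt_IDT`, proof of the block
`IDT`): `dens = (2/3) det A/|Y|^3 + (2/3)/|X|^3 - fx/|X|`;
`∫ η det A/|Y|^3 = - ∫ η' fx log |Y|` (`PIOW` with `log|y| |y|^{-3} y`), `∫ η/|X|^3 = 4 π ∫ η/r`,
`∫ η fx/|X| = 4 π c ∫ η/r`, `4 π c ∫ η/r dr = - ∫ η' fx log |X|` (flux with `h = η' log`). -/
def Stmt_IDC : Prop :=
  ∀ (Ω : Set E3) (f : E3 → E3) (A : E3 → M3) (p : E3) (r0 : ℝ) (c : ℕ), IsOpen Ω →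
    ContinuousOn f Ω → WeakGrad Ω f A → 0 < r0 → Metric.closedBall p r0 ⊆ Ω →
    (∀ x ∈ Metric.closedBall p r0, f x = f p → x = p) → DegP f A p r0 c →
    ∀ η : ℝ → ℝ, ContDiff ℝ 1 η → HasCompactSupport η → tsupport η ⊆ Ioo 0 r0 →
      Integrable (fun x => η ‖x - p‖ * dens f A p x) ∧
      ∫ x, η ‖x - p‖ * dens f A p x
        = -(2 / 3) * (∫ x, deriv η ‖x - p‖ * fx (A x) (x - p) (f x - f p)
            * Real.log (‖f x - f p‖ / ‖x - p‖))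
          - (4 * Real.pi / 3) * (c - 2) * ∫ r, η r / r

/-- ENC.  Energy bound: `∫_{ball p (2 r)} |A|^3 ≤ 4 ∫ det A ≤ 4 c ∫ g`, `g` a bump equal to `1`
on `closedBall (f p) m`, supported in `ball (f p) (2 m)`, `m = max |f x - f p|` on
`closedBall p (2 r)`; `m ≤ D^2 |f y - f p|` (`E1`); `2 m < ρ0 = min |f x - f p|` on the sphere of
radius `r0` by `E2` (this fixes `δ1`). -/
def Stmt_ENC : Prop :=
  ∀ H : ℝ, 1 ≤ H → ∃ C δ1 : ℝ, 0 < C ∧ 0 < δ1 ∧ δ1 ≤ 1 / 8 ∧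
    ∀ (ε r0 : ℝ) (Ω S : Set E3) (f : E3 → E3) (A : E3 → M3) (γ : ℝ → E3), 0 ≤ ε → ε ≤ 1 / 1000 →
    Tube H ε r0 Ω S f A γ → ∀ t ∈ Icc (-1 : ℝ) 1, ∀ c : ℕ, DegP f A (γ t) r0 c →
    ∀ r : ℝ, 0 < r → r ≤ δ1 * r0 → ∀ y : E3, ‖y - γ t‖ = r →
      IntegrableOn (fun x => opn (A x) ^ 3) (Metric.ball (γ t) (2 * r)) ∧
      ∫ x in Metric.ball (γ t) (2 * r), opn (A x) ^ 3 ≤ C * c * ‖f y - f (γ t)‖ ^ 3

/-- RNG.  The ring inequality.  Proof: `IDC` with `η = 1` on `[r1, r2]`, support in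
`(r1/2, 2 r2)`, `|η'| ≤ 8/r_i` on the two side intervals.  The integrand is nonnegative (`ENB` or
`THREE`), so `DR ≤ ∫ η dens`, and `∫ η/r ≥ log(r2/r1)`.  Outer ring: `log = m2 + O(τ)`,
`∫_{outer} η' fx = 4 π c ∫_{outer} η' = - 4 π c` (`DegP.flux` with `η'` cut at `r2`, continuous
since `η'(r2) = 0`), the error is `≤ τ ∫ |η'| |fx|` and
`∫_{outer} |η'| |fx| ≤ (8/r2) ∫ |A|^2/|Y|^2 ≤ C (∫_{ball 2 r2} |A|^3)^{2/3} r2^{3/3}/(r2 min |Y|^2)`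
`≤ C c` (`ENC`; on the ring `|Y|` is comparable with `|f y - f p|`, `|y - p| = r2`, by `E1`).  The
inner ring gives `+ 4 π c m1`. -/
def Stmt_RNG : Prop :=
  ∀ H : ℝ, 1 ≤ H → ∃ C δ1 : ℝ, 0 < C ∧ 0 < δ1 ∧ δ1 ≤ 1 / 8 ∧
    ∀ (ε r0 : ℝ) (Ω S : Set E3) (f : E3 → E3) (A : E3 → M3) (γ : ℝ → E3), 0 ≤ ε → ε ≤ 1 / 1000 →
    Tube H ε r0 Ω S f A γ → ∀ t ∈ Icc (-1 : ℝ) 1, ∀ c : ℕ, DegP f A (γ t) r0 c →
    ∀ r1 r2 m1 m2 τ : ℝ, 0 < r1 → r1 < r2 → r2 ≤ δ1 * r0 → 0 ≤ τ →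
    RC f (γ t) r1 2 m1 τ → RC f (γ t) r2 2 m2 τ →
      IntegrableOn (dens f A (γ t)) (rg (γ t) r1 r2) ∧ 0 ≤ DR f A (γ t) r1 r2 ∧
      DR f A (γ t) r1 r2 ≤ (8 * Real.pi * c / 3) * (m2 - m1)
        - (4 * Real.pi / 3) * (c - 2) * Real.log (r2 / r1) + C * c * τ

end Pool.Flat
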