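import Pool.Agent.Work.MP_680515_fl.Iface1

/-!
# MP_680515_an, THEOREM FB: interface 2 (energy of conformal fields, the inequality on the arms)

Notation in the docstrings: `E = |y|`, `A = dn a y`, `B = dn b y`.  `p = γ t`,
`Δ_s = cv γ t s = γ (t + s) - γ t`.
Library statements (`PIOW`, `PIOI`, `BAS`, `CYLM` ...) are those of
`Pool.Agent.Work.MP_680515_an` (namespace `Pool.Mart`, proved there): take them as hypotheses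
`Pool.Mart.Stmt_PIOW` ... as listed in the column `uses` of the table (`M.PIOW`).
-/

open MeasureTheory Set Filter Topology

namespace Pool.Flat

open Pool.Mart

/-! ## Spherical coordinates, boosts -/

/-- Spherical coordinates, `u` is the sine of the latitude. -/
noncomputable def sph (t u θ : ℝ) : E3 :=
  !₂[t * Real.sqrt (1 - u ^ 2) * Real.cos θ, t * Real.sqrt (1 - u ^ 2) * Real.sin θ, t * u]

/-- SPH.  Integration in spherical coordinates.  Proof: `CYLM` (`r` is the density of the half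
plane `{ζ : 0 < ζ.re}`), polar coordinates in the half plane (`Complex.polarCoord` or
`lintegral_comp_polarCoord_symm`, `ζ = t (cos φ + i sin φ)`, `-π/2 < φ < π/2`, the density is
`r t = t^2 cos φ`), then `u = sin φ`, `du = cos φ dφ` (`lintegral_image_eq_lintegral_abs_deriv_mul`
for `sin` on `Ioo (-π/2) (π/2)`); `cyl ζ θ = sph t u θ`. -/
def Stmt_SPH : Prop :=
  ∀ g : E3 → ENNReal, Measurable g →
    ∫⁻ y, g y = ∫⁻ t in Ioi (0 : ℝ), ∫⁻ u in Ioo (-1 : ℝ) 1, ∫⁻ θ in Ioo (0 : ℝ) (2 * Real.pi),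
      ENNReal.ofReal (t ^ 2) * g (sph t u θ)

/-- POI.  Poisson kernel.  Proof: `q = 2 ρ/(1 + ρ^2)` with `ρ = q/(1 + √(1 - q^2)) ∈ [0, 1)`; the
integrand is `(1 - ρ^2)/(1 + 2 ρ cos θ + ρ^2) = Re ((1 - ρ z)/(1 + ρ z))`, `z = e^{iθ}`, the real part
of a function holomorphic near the closed unit disc with value `1` at `0`: Cauchy integral formula
(`Complex.circleIntegral_sub_inv_smul_of_differentiable_on_off_countable` or `circleAverage`). -/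
def Stmt_POI : Prop :=
  ∀ q : ℝ, 0 ≤ q → q < 1 →
    ∫ θ in (0 : ℝ)..(2 * Real.pi), Real.sqrt (1 - q ^ 2) / (1 + q * Real.cos θ) = 2 * Real.pi

/-- I0X.  `I0` is finite and positive.  Proof: `1 - u^2 ≥ 1 - |u|`, `∫_0^1 (1-u)^{-3/4} du = 4`
(`intervalIntegrable_rpow'`). -/
def Stmt_I0X : Prop :=
  IntegrableOn (fun u : ℝ => (1 - u ^ 2) ^ (-(3 / 4) : ℝ)) (Ioo (-1) 1) ∧ 0 < I0 ∧
    I0 = ∫ u in Ioo (-1 : ℝ) 1, (1 - u ^ 2) ^ (-(3 / 4) : ℝ)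

/-- Boost: the conformal map of the spheres, extended by homogeneity. -/
noncomputable def bst (v : ℝ) (y : E3) : E3 :=
  (‖y‖ / (‖y‖ + v * y 0)) •
    !₂[y 0 + v * ‖y‖, Real.sqrt (1 - v ^ 2) * y 1, Real.sqrt (1 - v ^ 2) * y 2]

/-- Conformal factor of the boost. -/
noncomputable def mu (v : ℝ) (y : E3) : ℝ := Real.sqrt (1 - v ^ 2) * ‖y‖ / (‖y‖ + v * y 0)

/-- The two marked directions. -/
noncomputable def av (v σ : ℝ) : E3 := !₂[v, 0, σ * Real.sqrt (1 - v ^ 2)]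

/-- BS1.  Algebra of the boost (`E = |y|`): `(y0 + vE)^2 + (1 - v^2)(y1^2 + y2^2) = (E + v y0)^2`
since `y1^2 + y2^2 = E^2 - y0^2`; `|y0| ≤ E`, so `E + v y0 > 0`. -/
def Stmt_BS1 : Prop :=
  ∀ (v : ℝ) (y : E3), |v| < 1 → y ≠ 0 → 0 < ‖y‖ + v * y 0 ∧ ‖bst v y‖ = ‖y‖ ∧
    bst (-v) (bst v y) = y ∧ 0 < mu v y ∧ ContDiffAt ℝ 1 (bst v) y

/-- BS2.  Change of variables.  Proof: `lintegral_image_eq_lintegral_abs_det_fderiv_mul` for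
`bst v` on `{0}ᶜ` (injective, onto `{0}ᶜ` by `BS1`); the determinant of the derivative is
`mu v y ^ 2`: with `E = |y|`, `h = E/(E + v y0)`, `L = (y0 + vE, s y1, s y2)`, `s = √(1-v^2)`,
`∂_j E = y_j/E`: explicit three by three determinant, `field_simp`, `E^2 = y0^2+y1^2+y2^2`. -/
def Stmt_BS2 : Prop :=
  ∀ (v : ℝ) (g : E3 → ENNReal), |v| < 1 → Measurable g →
    ∫⁻ y, g y = ∫⁻ y, g (bst v y) * ENNReal.ofReal (mu v y ^ 2)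

/-- BS3.  Covariance.  Proof: direct computation, `⟨y, av v σ⟩ = v y0 + σ s y2`,
`dn (av v σ) (bst v y) = E - (E/(E + v y0)) (v (y0 + vE) + σ s^2 y2)
= (E s^2/(E + v y0)) (E - σ y2)`. -/
def Stmt_BS3 : Prop :=
  ∀ (v σ : ℝ) (y : E3), 0 ≤ v → v < 1 → σ ^ 2 = 1 → y ≠ 0 → ‖av v σ‖ = 1 ∧
    dn (av v σ) (bst v y) = mu v y * Real.sqrt (1 - v ^ 2) * (‖y‖ - σ * y 2) ∧
    inner ℝ (av v (-1)) (av v 1) = 2 * v ^ 2 - 1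

/-- ISO.  Standard position.  Proof: `v = |a + b|/2 < 1`, `√(1 - v^2) = |b - a|/2 > 0`
(parallelogram law); `e0' = (a + b)/|a + b|` (any unit vector orthogonal to `b - a` if
`a + b = 0`), `e2' = (b - a)/|b - a|` are orthonormal; extend them to an orthonormal basis.
The last three parts: `R` preserves inner products and norms. -/
def Stmt_ISO : Prop :=
  ∀ a b : E3, ‖a‖ = 1 → ‖b‖ = 1 → a ≠ b → ∃ (v : ℝ) (R : E3 ≃ₗᵢ[ℝ] E3), 0 ≤ v ∧ v < 1 ∧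
    R (av v (-1)) = a ∧ R (av v 1) = b ∧ ∀ y : E3,
      UU a b (R y) = UU (av v (-1)) (av v 1) y ∧ sq2 a b (R y) = sq2 (av v (-1)) (av v 1) y ∧
      q2 a b (R y) = q2 (av v (-1)) (av v 1) y

/-! ## The two integrals -/

/-- CV1.  Flux integral.  Proof: `ISO` (volume preserving), `BS2`, `BS3`: with `s = √(1-v^2)`,
`UU (bst v y) = y2/E`, `q2 (bst v y) = 2 (2 - 2 v^2)/(mu^2 s^2 (2E)^2) = 1/(mu^2 E^2)`; so the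
integral is `∫ κ(E) ℓ(y2/E)/E^3 dy`, then `SPH`: `2 π ∫ κ(t)/t dt ∫ ℓ(u) du`.  (The function is
continuous with compact support: integrable; split `ℓ`, `κ` in positive and negative parts or
prove the Bochner versions of `BS2`, `SPH` first.) -/
def Stmt_CV1 : Prop :=
  ∀ (a b : E3) (κ ℓ : ℝ → ℝ), ‖a‖ = 1 → ‖b‖ = 1 → a ≠ b → Continuous κ → HasCompactSupport κ →
    tsupport κ ⊆ Ioi 0 → Continuous ℓ →
    Integrable (fun y => κ ‖y‖ * ℓ (UU a b y) * q2 a b y / ‖y‖) ∧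
    ∫ y, κ ‖y‖ * ℓ (UU a b y) * q2 a b y / ‖y‖
      = 2 * Real.pi * (∫ s, κ s / s) * ∫ u in (-1 : ℝ)..1, ℓ u

/-- CV2.  Energy integral.  Proof: `ISO`, `BS2`, `BS3`:
`wt (bst v y) = E^{-3/2} (1/(mu^2 (E^2 - y2^2)))^{3/4}`, so the integral is
`∫ κ(E) E^{-3} (1 - u^2)^{-3/4} mu^{1/2} dy`, `u = y2/E`; `SPH`;
`mu = s/(1 + v √(1-u^2) cos θ)`; Cauchy-Schwarz: `∫ mu^{1/2} dθ ≤ √(2π) √(∫ mu dθ)`, and `POI` with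
`q = v √(1-u^2)`: `∫ mu dθ = 2 π s/√(1 - q^2) ≤ 2 π` since `1 - q^2 ≥ 1 - v^2`.  So the inner
integral is at most `2 π` and the total at most `2 π I0 ∫ κ(t)/t dt`. -/
def Stmt_CV2 : Prop :=
  ∀ (a b : E3) (κ : ℝ → ℝ) (r1 r2 C : ℝ), ‖a‖ = 1 → ‖b‖ = 1 → a ≠ b → Measurable κ → 0 < r1 →
    (∀ s, 0 ≤ κ s ∧ κ s ≤ C) → (∀ s, κ s ≠ 0 → s ∈ Icc r1 r2) →
    Integrable (fun y => κ ‖y‖ * wt a b y) ∧
    ∫ y, κ ‖y‖ * wt a b y ≤ 2 * Real.pi * I0 * ∫ s, κ s / s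

/-! ## The fields -/

/-- GL1.  Gradients.  `∇ A = y/E - a`, `|∇ A|^2 = 2 A/E`, `⟨∇ A, y⟩ = A`,
`⟨∇ A, ∇ B⟩ = (A + B)/E - (1 - ⟨a, b⟩)`; `1 - U^2 = 4 A B/(A + B)^2`. -/
def Stmt_GL1 : Prop :=
  ∀ a b y : E3, ‖a‖ = 1 → ‖b‖ = 1 → 0 < dn a y → 0 < dn b y →
    HasFDerivAt (UU a b) ((1 - UU a b y ^ 2) • innerSL ℝ (gL a b y)) y ∧
    ContDiffAt ℝ 1 (UU a b) y ∧ ContDiffAt ℝ 1 (gL a b) y ∧
    ‖gL a b y‖ ^ 2 = sq2 a b y ∧ inner ℝ (gL a b y) y = 0 ∧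
    (1 - UU a b y ^ 2) * sq2 a b y = q2 a b y ∧ |UU a b y| < 1

/-- GL2.  `Λ` is harmonic.  Proof: `divv (y/E) = 2/E`,
`divv ((1/(2A)) (y/E - a)) = (1/(2A)) (2/E) - (1/(2A^2)) |∇A|^2 = 1/(AE) - 1/(AE) = 0`. -/
def Stmt_GL2 : Prop :=
  ∀ a b y : E3, ‖a‖ = 1 → ‖b‖ = 1 → 0 < dn a y → 0 < dn b y → divv (gL a b) y = 0

/-- GL3.  The function `U` near `±1`.  Proof: `A + B > 0` for `y ≠ 0`, `a ≠ b` (equality in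
`⟨y, a⟩ ≤ E` only on the ray).  `1 - U = 2B/(A + B) ≤ η` gives `B ≤ η (A + B)/2 ≤ 2 η E`, so
`|y - E b|^2 = 2 E B ≤ 4 η E^2`, `|y - T b| ≤ 2 √η E + |E - T| ≤ (2 √η e^β + e^β - 1) T`.
`1 + U = 2A/(A + B)` in the same way. -/
def Stmt_GL3 : Prop :=
  (∀ a b : E3, ‖a‖ = 1 → ‖b‖ = 1 → a ≠ b → ContinuousOn (UU a b) {0}ᶜ ∧ ∀ y : E3, y ≠ 0 →
    0 < dn a y + dn b y ∧ 0 ≤ dn a y ∧ 0 ≤ dn b y ∧ |UU a b y| ≤ 1 ∧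
    (-1 < UU a b y → 0 < dn a y) ∧ (UU a b y < 1 → 0 < dn b y)) ∧
  (∀ c' : ℝ, 0 < c' → ∃ β η : ℝ, 0 < β ∧ β ≤ 1 ∧ 0 < η ∧ η ≤ 1 / 2 ∧
    ∀ (a b y : E3) (T : ℝ), ‖a‖ = 1 → ‖b‖ = 1 → a ≠ b → 0 < T →
      ‖y‖ ∈ Icc (T * Real.exp (-β)) (T * Real.exp β) →
      (1 - η ≤ UU a b y → ‖y - T • b‖ ≤ c' * T) ∧ (UU a b y ≤ -1 + η → ‖y - T • a‖ ≤ c' * T))

/-- The field on the target. -/
noncomputable def fld (a b : E3) (κ m : ℝ → ℝ) (y : E3) : E3 :=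
  (κ ‖y‖ * m (UU a b y) / (2 * Real.pi * ‖y‖)) • gL a b y

/-- FLD.  The field on the target.  Proof: the field vanishes near the points with `κ(E) = 0`
locally (in particular near `0` and outside a large ball) and near the points of the rays of
`a` and `b` (there `U = ∓1`, `U` is continuous off `0` by `GL3`, `m = 0` near `±1`); elsewhere
`GL1`, `GL2`: `divv = ⟨∇(κ(E) m(U)/(2πE)), gL⟩ = κ m'(U) (1 - U^2) |gL|^2/(2πE)` (`gL ⟂ y`).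
The norm: `|gL| = √sq2`. -/
def Stmt_FLD : Prop :=
  ∀ (a b : E3) (κ m : ℝ → ℝ), ‖a‖ = 1 → ‖b‖ = 1 → a ≠ b → ContDiff ℝ 1 κ → HasCompactSupport κ →
    tsupport κ ⊆ Ioi 0 → ContDiff ℝ 1 m → HasCompactSupport m → tsupport m ⊆ Ioo (-1) 1 →
    ContDiff ℝ 1 (fld a b κ m) ∧ HasCompactSupport (fld a b κ m) ∧
    (∀ y ∈ tsupport (fld a b κ m), ‖y‖ ∈ tsupport κ) ∧
    (∀ y, divv (fld a b κ m) y
      = κ ‖y‖ * deriv m (UU a b y) * q2 a b y / (2 * Real.pi * ‖y‖)) ∧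
    (∀ y, ‖fld a b κ m y‖ ≤ |κ ‖y‖| * |m (UU a b y)| / (2 * Real.pi * ‖y‖)
      * sq2 a b y ^ (1 / 2 : ℝ)) ∧
    Continuous (fun y => κ ‖y‖ * |m (UU a b y)| ^ (3 / 2 : ℝ) * wt a b y) ∧
    (∀ ℓ : ℝ → ℝ, Continuous ℓ → Continuous (fun y => κ ‖y‖ * ℓ (UU a b y) * q2 a b y / ‖y‖))

/-- CTM.  Cut-off function.  (`Real.smoothTransition` or `exists_contDiff_tsupport_subset`; the
integrals by the fundamental theorem.) -/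
def Stmt_CTM : Prop :=
  ∀ η : ℝ, 0 < η → η ≤ 1 / 2 → ∃ m : ℝ → ℝ, ContDiff ℝ 2 m ∧ HasCompactSupport m ∧
    tsupport m ⊆ Ioo (-1) 1 ∧ (∀ u, 0 ≤ m u ∧ m u ≤ 1) ∧ (∀ u, |u| ≤ 1 - η → m u = 1) ∧
    (∀ u, |u| < 1 - η → deriv m u = 0) ∧ ∫ u in (0 : ℝ)..1, deriv m u = -1 ∧
    ∫ u in (-1 : ℝ)..0, deriv m u = 1

/-- SRC.  The function on the source.  Proof: `g u = (1 - u^2)^{-3/4} χ(u)`, `χ` even, continuous,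
`0 ≤ χ ≤ 1`, `χ = 1` on `[-1+2δ, 1-2δ]`, `χ = 0` outside `(-1+δ, 1-δ)`; `G u = ∫_0^u g`,
`T = ∫_0^1 g ≥ I0/2 - ∫_{1-2δ}^1 (1-u^2)^{-3/4} du` (`I0X`).  `H x = G (⟨x, v⟩/|x|)`,
`∇ (⟨x, v⟩/|x|) = (v - u x/|x|)/|x|` has norm `√(1-u^2)/|x|`; so
`|∇H|^3 ≤ (1-u^2)^{-9/4} (1-u^2)^{3/2} |x|^{-3} = wt (-v) v x` (`sq2 (-v) v x = 1/(|x|^2 (1-u^2))`);
if `u = ±1` then `∇ H = 0`. -/
def Stmt_SRC : Prop :=
  ∀ κ0 : ℝ, 0 < κ0 → κ0 < 1 → ∃ (δ T : ℝ) (G : ℝ → ℝ), 0 < δ ∧ δ < 1 ∧ 0 < T ∧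
    (1 - κ0) * I0 / 2 ≤ T ∧ ContDiff ℝ 1 G ∧ (∀ u, 1 - δ ≤ u → G u = T) ∧
    (∀ u, u ≤ -1 + δ → G u = -T) ∧ (∀ u, |G u| ≤ T) ∧
    ∀ v : E3, ‖v‖ = 1 → ContDiffOn ℝ 1 (fun x : E3 => G (inner ℝ x v / ‖x‖)) {0}ᶜ ∧
      ∀ x : E3, x ≠ 0 → ‖gradv (fun x : E3 => G (inner ℝ x v / ‖x‖)) x‖ ^ 3 ≤ wt (-v) v x

/-- YNG.  Young inequality.  Proof: `J = det A ≥ 0` (`Good`).  `(|cof A| V G)^3 ≤ 2 J^2 V^3 G^3`;
arithmetic-geometric mean for `J V^{3/2}/2` (twice) and `G^3`: `J V^{3/2} + G^3 ≥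
3 (J^2 V^3 G^3/4)^{1/3}`, so `((2/3)(J V^{3/2} + G^3))^3 ≥ 8 J^2 V^3 G^3/4`. -/
def Stmt_YNG : Prop :=
  ∀ (A : M3) (V G : ℝ), Good A → 0 ≤ V → 0 ≤ G →
    opn (cofm A) * V * G ≤ (2 / 3) * (A.det * V ^ (3 / 2 : ℝ) + G ^ 3)

/-! ## The inequality on the arms -/

/-- LPI.  Localised Piola identity.  Proof: `K = {x ∈ closedBall p r0 : f x - f p ∈ tsupport X}`
is compact, does not contain `p` (`0 ∉ K'`), nor points of the sphere.  A smooth `χ`, equal to `1`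
near `K`, with compact support in `ball p r0 \ {p}`; `φ x = χ x * h (x - p)` is `C^1` with compact
support; `PIOW` for the field `y ↦ X (y - f p)` (`U = univ`); near `K` `φ = h(· - p)`; at the points
of `ball p r0` off `K` both integrands vanish, outside `ball p r0` `φ = 0` near the point.
Integrability: the integrand is the one of `PIOI` with continuous fields. -/
def Stmt_LPI : Prop :=
  ∀ (Ω : Set E3) (f : E3 → E3) (A : E3 → M3) (p : E3) (r0 : ℝ) (X : E3 → E3) (h : E3 → ℝ)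
    (K' : Set ℝ), IsOpen Ω → ContinuousOn f Ω → WeakGrad Ω f A → 0 < r0 →
    Metric.closedBall p r0 ⊆ Ω → ContDiff ℝ 1 X → HasCompactSupport X → IsCompact K' →
    K' ⊆ Ioi 0 → (∀ y ∈ tsupport X, ‖y‖ ∈ K') →
    (∀ x, ‖x - p‖ = r0 → ∀ s ∈ K', s < ‖f x - f p‖) → ContDiffOn ℝ 1 h {0}ᶜ →
    IntegrableOn (fun x => cpair (A x) (X (f x - f p)) (gradv h (x - p))) (Metric.ball p r0) ∧
    ∫ x in Metric.ball p r0, cpair (A x) (X (f x - f p)) (gradv h (x - p))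
      = - ∫ x in Metric.ball p r0, h (x - p) * ((A x).det * divv X (f x - f p))

/-- LQP.  Points whose images are close to the image of a point `q = γ (t + s)` of the arm.
Proof: `D` from `E1`, `2^{-k}` small, `c' = D^{-k-1}/2`, `q ≠ p`.  If `|x - q| ≥ 2^{-k} |p - q|`
then (`E1` at `q`; `x, p ∈ closedBall q (2 r0)`) `|f p - f q| ≤ D^{k+1} |f x - f q| ≤ |f p - f q|/2`,
a contradiction to `|f p - f q| > 0` (`inj`).  So `|x - q| < 2^{-k} |q - p|`,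
`|un (x - p) - un (q - p)| ≤ 2 · 2^{-k}` and
`⟨un (x - p), v⟩ = 1 - |un (x - p) - v|^2/2 ≥ 1 - (2^{1-k} + δ)^2/2`. -/
def Stmt_LQP : Prop :=
  ∀ H δG : ℝ, 1 ≤ H → 0 < δG → ∃ c' δ : ℝ, 0 < c' ∧ c' ≤ 1 / 2 ∧ 0 < δ ∧ δ ≤ 1 / 2 ∧
    ∀ (ε r0 : ℝ) (Ω S : Set E3) (f : E3 → E3) (A : E3 → M3) (γ : ℝ → E3), 0 ≤ ε → ε ≤ 1 / 1000 →
    Tube H ε r0 Ω S f A γ → ∀ t ∈ Icc (-1 : ℝ) 1, ∀ s ∈ Icc (-1 : ℝ) 1, ∀ v : E3, ‖v‖ = 1 →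
    ‖cv γ t s‖ ≤ r0 / 8 → cv γ t s ≠ 0 → ‖un (cv γ t s) - v‖ ≤ δ →
    ∀ x ∈ Metric.ball (γ t) r0,
      ‖f x - f (γ (t + s))‖ ≤ c' * ‖f (γ (t + s)) - f (γ t)‖ →
      x ≠ γ t ∧ 1 - δG ≤ inner ℝ (x - γ t) v / ‖x - γ t‖

/-- SHL.  One level.  Constants: `SRC` (`δG`, `T0`, `G`), `LQP` (`c'`, `δ`), `GL3` for `c'`
(`β`, `η`), `CTM` (`m`).  Let `q₊ = γ (t + s₁)`, `q₋ = γ (t - s₂)`, `a = un (f q₋ - f p)`,
`b = un (f q₊ - f p)`, `a ≠ b` (`|f q₊ - f p| = |f q₋ - f p| = T`, `f q₊ ≠ f q₋` by `inj` at `q₊`,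
`q₊ ≠ q₋` since the directions are close to `v` and `-v`).  `h x = G(⟨x, v⟩/|x|)`,
`X = fld a b κ m`.  `LPI` with `K' = tsupport κ`, `Y = f x - f p`:
`∫_ball cpair(A, X(Y), ∇h(x - p)) = - ∫_ball h(x - p) det A div X(Y)`.
Right side: `div X = g₊ + g₋`, `g_± = κ(|y|) ℓ_±(U) q2/(2π|y|)`, `ℓ₊ = m' 1_{u>0}`,
`ℓ₋ = m' 1_{u<0}` (continuous).  If `g₊(Y) ≠ 0` then `U ≥ 1 - η`, `|Y - T b| ≤ c' T`, i.e.
`|f x - f q₊| ≤ c' T`, so `h(x - p) = T0` by `LQP`; if `g₋(Y) ≠ 0` then `h(x - p) = -T0` (`LQP`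
with `-v`).  By `DegP.deg` (translated by `f p`) and `CV1`:
right side `= -T0 c ∫ g₊ + T0 c ∫ g₋ = 2 T0 c ∫ κ/s`.
Left side: `cpair ≤ |cof A| |X| |∇h|` (`BAS`), `|X| ≤ κ V/(2π)` with
`V = m(U) sq2^{1/2}/|Y|`, `YNG`: `≤ (κ(|Y|)/(2π)) (2/3) (det A · m(U)^{3/2} wt a b Y + wt (-v) v (x-p))`
(`|∇h|^3 ≤ wt (-v) v`); `DegP.deg` for the continuous function `κ m(U)^{3/2} wt a b` and `CV2`:
`∫ κ det A m^{3/2} wt a b Y ≤ c 2π I0 ∫ κ/s`.  With `2 T0 ≥ (1 - κ0) I0`: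
`c (1 - κ0) I0 ∫κ/s ≤ (2/3) c I0 ∫κ/s + (1/(3π)) ∫_ball κ(|Y|) wt (-v) v (x - p)`. -/
def Stmt_SHL : Prop :=
  ∀ H κ0 : ℝ, 1 ≤ H → 0 < κ0 → κ0 < 1 / 3 → ∃ β δ : ℝ, 0 < β ∧ 0 < δ ∧
    ∀ (ε r0 : ℝ) (Ω S : Set E3) (f : E3 → E3) (A : E3 → M3) (γ : ℝ → E3), 0 ≤ ε → ε ≤ 1 / 1000 →
    Tube H ε r0 Ω S f A γ → ∀ t ∈ Icc (-1 : ℝ) 1, ∀ c : ℕ, DegP f A (γ t) r0 c →
    ∀ (v : E3) (T s₁ s₂ : ℝ), ‖v‖ = 1 → 0 < T → s₁ ∈ Icc (0 : ℝ) 1 → s₂ ∈ Icc (0 : ℝ) 1 →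
    ‖cv γ t s₁‖ ≤ r0 / 8 → ‖cv γ t (-s₂)‖ ≤ r0 / 8 →
    ‖f (γ (t + s₁)) - f (γ t)‖ = T → ‖f (γ (t - s₂)) - f (γ t)‖ = T →
    ‖un (cv γ t s₁) - v‖ ≤ δ → ‖un (cv γ t (-s₂)) + v‖ ≤ δ →
    ∀ κ : ℝ → ℝ, ContDiff ℝ 1 κ → (∀ s, 0 ≤ κ s ∧ κ s ≤ 1) → HasCompactSupport κ →
    tsupport κ ⊆ Ioo (T * Real.exp (-β)) (T * Real.exp β) →
    (∀ x, ‖x - γ t‖ = r0 → ∀ s ∈ tsupport κ, s < ‖f x - f (γ t)‖) →
    IntegrableOn (fun x => κ ‖f x - f (γ t)‖ * wt (-v) v (x - γ t)) (Metric.ball (γ t) r0) ∧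
    c * (1 / 3 - κ0) * I0 * (∫ s, κ s / s) ≤ (3 * Real.pi)⁻¹ *
      ∫ x in Metric.ball (γ t) r0, κ ‖f x - f (γ t)‖ * wt (-v) v (x - γ t)

/-- LGP.  Logarithmic partition.  Proof: `ℓ = log (t2/t1)`, `n + 3 = ` a large integer,
`h = ℓ/(n + 3)`, `3 h ≤ w`, `h < β`; `S u = 0` for `u ≤ 0`, `3u^2 - 2u^3` on `[0,1]`, `1` for `u ≥ 1`
(`C^1`, `S u + S (1 - u) = 1` on `[0, 1]`); `T_j = t1 e^{(j+2) h}` (`j = 0..n-1`),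
`κ_j s = S(1 - |log (s/T_j)|/h)` (near `s = T_j` it is `C^1` because `S' (1) = 0`; `0` for
`s ≤ 0`), support `[T_j e^{-h}, T_j e^h]`.  At most two of the functions are nonzero at a point,
consecutive ones add up to `1`.  `∫ κ_j/s = ∫ S(1 - |u|/h) du = h`, the sum is
`n h = ℓ - 3 h ≥ ℓ - w`. -/
def Stmt_LGP : Prop :=
  ∀ t1 t2 β w : ℝ, 0 < t1 → 0 < β → 0 < w → w < Real.log (t2 / t1) → t1 < t2 →
    ∃ (n : ℕ) (T : ℕ → ℝ) (κ : ℕ → ℝ → ℝ),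
      (∀ j < n, t1 < T j ∧ T j < t2 ∧ ContDiff ℝ 1 (κ j) ∧ (∀ s, 0 ≤ κ j s ∧ κ j s ≤ 1) ∧
        HasCompactSupport (κ j) ∧ tsupport (κ j) ⊆ Ioo t1 t2 ∧
        tsupport (κ j) ⊆ Ioo (T j * Real.exp (-β)) (T j * Real.exp β)) ∧
      (∀ s, ∑ j ∈ Finset.range n, κ j s ≤ 1) ∧
      Real.log (t2 / t1) - w ≤ ∑ j ∈ Finset.range n, ∫ s, κ j s / s

/-- ARM.  The inequality on the arms.  Proof: trivial if `log (t2/t1) ≤ w`.  Otherwise `LGP` with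
the `β` of `SHL`.  For the level `T_j`: `s_* ∈ [0, 1]` with `|Δ_{s_*}| = r2` (`ARX`), so
`|f γ(t + s_*) - f p| ≥ t2 > T_j`; by the intermediate value theorem on `[0, s_*]` (`f ∘ γ` is
continuous) `s₁` with `|f γ(t + s₁) - f p| = T_j`; `|Δ_{s₁}| ≤ (1 + 4ε) r2 ≤ r0` (`LINP`), so
`r1 < |Δ_{s₁}| < r2` by the two hypotheses; in the same way `s₂` on the other arm.  `SHL` for every
`j` (the sphere condition: `|f x - f p| ≥ t2` there).  Sum: for `x ∈ ball p r0` the sum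
`Σ κ_j(|f x - f p|) ≤ 1`, and it vanishes unless `t1 < |f x - f p| < t2`, so unless
`r1 < |x - p| < r2`.  `CV2` for `-v, v` and the indicator of `[r1, r2]`:
`c (1/3 - κ0) I0 (log(t2/t1) - w) ≤ (1/(3π)) 2π I0 log(r2/r1)`; divide by `I0 > 0`. -/
def Stmt_ARM : Prop :=
  ∀ H κ0 w : ℝ, 1 ≤ H → 0 < κ0 → κ0 < 1 / 3 → 0 < w → ∃ δ : ℝ, 0 < δ ∧
    ∀ (ε r0 : ℝ) (Ω S : Set E3) (f : E3 → E3) (A : E3 → M3) (γ : ℝ → E3), 0 ≤ ε → ε ≤ 1 / 1000 →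
    Tube H ε r0 Ω S f A γ → ∀ t ∈ Icc (-1 : ℝ) 1, ∀ c : ℕ, DegP f A (γ t) r0 c →
    ∀ (v : E3) (r1 r2 t1 t2 : ℝ), ‖v‖ = 1 → 0 < r1 → r1 < r2 → r2 ≤ r0 / 8 → 0 < t1 → t1 < t2 →
    (∀ x ∈ Metric.closedBall (γ t) r0, ‖x - γ t‖ ≤ r1 → ‖f x - f (γ t)‖ ≤ t1) →
    (∀ x ∈ Metric.closedBall (γ t) r0, r2 ≤ ‖x - γ t‖ → t2 ≤ ‖f x - f (γ t)‖) →
    (∀ s : ℝ, |s| ≤ 1 → r1 ≤ ‖cv γ t s‖ → ‖cv γ t s‖ ≤ r2 →
      ‖un (cv γ t s) - (s / |s|) • v‖ ≤ δ) →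
    c * (1 / 3 - κ0) * (Real.log (t2 / t1) - w) ≤ (2 / 3) * Real.log (r2 / r1)

end Pool.Flat
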