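import Pool.Agent.Work.MP_680515_fl.Iface2

/-!
# MP_680515_an, THEOREM FB: interface 3 (small defect at all scales, closeness, end)

Notation in the docstrings: `p = γ t`, `X = x - p`, `Y = f x - f p`, `Δ_s = cv γ t s`.
-/

open MeasureTheory Set Filter Topology

namespace Pool.Flat

open Pool.Mart

/-- Logarithmic ratio. -/
noncomputable def lr (f : E3 → E3) (p x : E3) : ℝ := Real.log (‖f x - f p‖ / ‖x - p‖)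

/-! ## One scale -/

/-- PT1.  The gradient of `log(|Y|/|X|)` is controlled by the defect.  Proof: `s = |Y|/|X|`,
`b = X/|X|`, `y = Y/|Y|`, `δ = dfc A X Y`, `N = opn (cofm A)`, `β = N/(2 s^2)`, `j = det A/(2 s^3)`.
`THREE`: `δ ≥ 0`, `N - ⟨y, B b⟩ ≤ δ s^2` (`B = cofm A`), `(√β - 1)^2 ≤ (3/2) δ`,
`j ≤ β^{3/2} + (3/4) δ`; `Good` gives `β^3 ≤ j^2`.  Case `δ ≤ 1/6`: `√β ≥ 1/2`, `det A > 0`,
`u = B b/N` has `|u| ≤ 1`, `|u - y|^2 ≤ 2 (1 - ⟨u, y⟩) ≤ 2 δ s^2/N = δ/β`; `Aᵀ B = det A`, so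
`Aᵀ u = τ b`, `τ = det A/N = s j/β`; `|A| ≤ 2 τ` (`AB`, last part, with `η = δ s^2`);
`|Aᵀ y/s - b| ≤ |τ/s - 1| + 2 (τ/s) √(δ/β)` and `√β ≤ τ/s = j/β ≤ √β + (3/4) δ/β`.
Case `δ ≥ 1/6`: `|Aᵀ y/s - b|^2 ≤ 2 |A|^2/s^2 + 2`, `|A|^3 ≤ 4 det A = 8 s^3 j`,
`j ≤ (1 + √(3δ/2))^3 + δ ≤ C δ^{3/2}`.  (`opn Aᵀ = opn A`.) -/
def Stmt_PT1 : Prop :=
  ∃ C : ℝ, 0 < C ∧ ∀ (A : M3) (X Y : E3), Good A → X ≠ 0 → Y ≠ 0 →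
    ‖(‖X‖ / ‖Y‖) • act A.transpose (‖Y‖⁻¹ • Y) - ‖X‖⁻¹ • X‖ ^ 2 ≤ C * dfc A X Y

/-- LGW.  The weak gradient of `lr f p` on a ring and its `L^1` norm.  Proof: `CHR` with
`Φ (x, y) = log |y - f p| - log |x - p|`; `V = |X|^{-1} ((|X|/|Y|) Aᵀ (Y/|Y|) - X/|X|)`, so
`|V_j| ≤ |V| ≤ √C |X|^{-1} dfc^{1/2} = √C |X|^{1/2} dens^{1/2}` (`PT1`), Cauchy-Schwarz and
`∫_{|X| < r2} |X| ≤ C r2^4`.  (`dens ≥ 0` a.e. by `THREE`.) -/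
def Stmt_LGW : Prop :=
  ∃ C : ℝ, 0 < C ∧ ∀ (Ω : Set E3) (f : E3 → E3) (A : E3 → M3) (p : E3) (r1 r2 : ℝ), IsOpen Ω →
    ContinuousOn f Ω → WeakGrad Ω f A → (∀ᵐ x ∂(volume.restrict Ω), Good (A x)) →
    0 < r1 → r1 < r2 → rg p r1 r2 ⊆ Ω → (∀ x ∈ rg p r1 r2, f x ≠ f p) →
    IntegrableOn (dens f A p) (rg p r1 r2) →
    ContinuousOn (lr f p) (rg p r1 r2) ∧ ∃ V : E3 → E3, WG1 (rg p r1 r2) (lr f p) V ∧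
      ∀ j : Fin 3, IntegrableOn (fun x => V x j) (rg p r1 r2) ∧
        ∫ x in rg p r1 r2, |V x j| ≤ C * r2 ^ 2 * Real.sqrt (DR f A p r1 r2)

/-- UCO.  Modulus of continuity of `lr f p`.  Proof: `E3` with `2 M`, `τ'`, `y0` with
`|y0 - p| = r`; `|f y0 - f p| ≤ D^{k+1} |f x - f p|`, `2^k ≥ M` (`E1`); so
`|f z - f x| ≤ τ' D^{k+1} |f x - f p|` and `|log |f z - f p| - log |f x - f p|| ≤ 2 τ' D^{k+1}`;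
`|log |z - p| - log |x - p|| ≤ 2 δ M`. -/
def Stmt_UCO : Prop :=
  ∀ H M σ : ℝ, 1 ≤ H → 1 ≤ M → 0 < σ → ∃ δ : ℝ, 0 < δ ∧ δ ≤ 1 / (8 * M) ∧
    ∀ (ε r0 : ℝ) (Ω S : Set E3) (f : E3 → E3) (A : E3 → M3) (γ : ℝ → E3), 0 ≤ ε → ε ≤ 1 / 1000 →
    Tube H ε r0 Ω S f A γ → ∀ t ∈ Icc (-1 : ℝ) 1, ∀ r : ℝ, 0 < r → 32 * M * r ≤ r0 →
    ∀ x z : E3, r / M ≤ ‖x - γ t‖ → ‖x - γ t‖ ≤ M * r → ‖z - x‖ ≤ δ * r →
      |lr f (γ t) z - lr f (γ t) x| ≤ σ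

/-- SEG.  Chains of segments in a shell.  Proof: `z1 = (|y|/|x|) x`; if `⟨z1, y⟩ ≥ 0` then
`z2 = z3 = y`, otherwise `z2` is a vector orthogonal to `z1` with `|z2| = |y|`, `⟨z2, y⟩ ≥ 0`, `z3 = y`.
For `|u| = |w| = ρ`, `⟨u, w⟩ ≥ 0`: `ρ^2/2 ≤ |(1-s) u + s w|^2 ≤ ρ^2`. -/
def Stmt_SEG : Prop :=
  ∀ (a b : ℝ) (x y : E3), 0 < a → a ≤ ‖x‖ → ‖x‖ ≤ b → a ≤ ‖y‖ → ‖y‖ ≤ b →
    ∃ z : ℕ → E3, z 0 = x ∧ z 4 = y ∧ (∀ i ≤ 4, a ≤ ‖z i‖ ∧ ‖z i‖ ≤ b) ∧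
      ∀ i < 4, ∀ s ∈ Icc (0 : ℝ) 1, a / 2 ≤ ‖z i + s • (z (i + 1) - z i)‖ ∧
        ‖z i + s • (z (i + 1) - z i)‖ ≤ b

/-- ONE.  Small defect on a ring implies that `lr` is nearly constant.  Proof: `W = rg p (r/(4M)) (4Mr)`,
`UCO` with `2 M`, `σ = τ/16`, `h = δ r`; `SEG` for `x - p`, `y - p` with `a = r/M`, `b = M r`;
`OSC` on every segment (`closedBall .. h ⊆ W`) with `I = C (4Mr)^2 √η` (`LGW`):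
`|lr x - lr y| ≤ 8 σ + 4 C' (δ r)^{-3} 2 M r · 16 M^2 r^2 √η ≤ τ` for small `η`. -/
def Stmt_ONE : Prop :=
  ∀ H M τ : ℝ, 1 ≤ H → 1 ≤ M → 0 < τ → ∃ η : ℝ, 0 < η ∧
    ∀ (ε r0 : ℝ) (Ω S : Set E3) (f : E3 → E3) (A : E3 → M3) (γ : ℝ → E3), 0 ≤ ε → ε ≤ 1 / 1000 →
    Tube H ε r0 Ω S f A γ → ∀ t ∈ Icc (-1 : ℝ) 1, ∀ r : ℝ, 0 < r → 128 * M * r ≤ r0 →
    IntegrableOn (dens f A (γ t)) (rg (γ t) (r / (4 * M)) (4 * M * r)) →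
    DR f A (γ t) (r / (4 * M)) (4 * M * r) ≤ η → ∃ m : ℝ, RC f (γ t) r M m τ

/-! ## All scales -/

/-- CRC.  Crude bound: `τH = 2 log D + log 2` (`E1` with `k = 1` in both directions). -/
def Stmt_CRC : Prop :=
  ∀ H : ℝ, 1 ≤ H → ∃ τH : ℝ, 0 ≤ τH ∧
    ∀ (ε r0 : ℝ) (Ω S : Set E3) (f : E3 → E3) (A : E3 → M3) (γ : ℝ → E3), 0 ≤ ε → ε ≤ 1 / 1000 →
    Tube H ε r0 Ω S f A γ → ∀ t ∈ Icc (-1 : ℝ) 1, ∀ y : E3, y ≠ γ t → ‖y - γ t‖ ≤ r0 →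
      RC f (γ t) ‖y - γ t‖ 2 (Real.log (‖f y - f (γ t)‖ / ‖y - γ t‖)) τH

/-- CRU.  The degree is two and the defect of windows is bounded.  Proof.  `|y_i - p| = r_i`,
`m_i = log(|f y_i - f p|/r_i)`, `RC` with `τH` (`CRC`), `ℓ = log(r2/r1)`.  `WIN` with the `δ` of `ARM`
(for `κ0 ≤ 1/36`, `κ0 ≤ 1/(6L)`, `w = 1`) gives the cone condition.  `ARM` with
`t1 = H |f y1 - f p|`, `t2 = |f y2 - f p|/H` (`br`) if `t1 < t2`: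
`c (1/3 - κ0)((m2 - m1) + ℓ - 2 log H - 1) ≤ (2/3) ℓ`; if `t2 ≤ t1` then
`m2 - m1 + ℓ - 2 log H ≤ 0`.  (i) `c ≥ 3`: `m2 - m1 ≤ C_H - (3/11) ℓ` (`2/(c(1 - 3κ0)) ≤ 8/11`),
whereas `RNG` (`0 ≤ DR`) gives `m2 - m1 ≥ ((c-2)/(2c)) ℓ - C' ≥ ℓ/6 - C'`: a contradiction for
`r2 = δ1 r0`, `ℓ = L0` large.  So `c = 2`.  (ii) `c = 2`: `m2 - m1 ≤ C_H + 6 κ0 ℓ ≤ C_H + 1` and
`RNG`: `DR ≤ (16π/3)(C_H + 1) + 2 C τH`. -/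
def Stmt_CRU : Prop :=
  ∀ H : ℝ, 1 ≤ H → ∃ B L0 : ℝ, 0 < B ∧ 0 < L0 ∧ ∀ L : ℝ, L0 ≤ L → ∃ ε1 δ1 : ℝ, 0 < ε1 ∧
    ε1 ≤ 1 / 1000 ∧ 0 < δ1 ∧ δ1 ≤ 1 / 8 ∧
    ∀ (ε r0 : ℝ) (Ω S : Set E3) (f : E3 → E3) (A : E3 → M3) (γ : ℝ → E3), 0 ≤ ε → ε ≤ ε1 →
    Tube H ε r0 Ω S f A γ → ∀ t ∈ Icc (-1 : ℝ) 1, ∀ c : ℕ, DegP f A (γ t) r0 c → c = 2 ∧
    ∀ r1 r2 : ℝ, 0 < r1 → r1 < r2 → r2 ≤ δ1 * r0 → Real.log (r2 / r1) ≤ L →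
      IntegrableOn (dens f A (γ t)) (rg (γ t) r1 r2) ∧ DR f A (γ t) r1 r2 ≤ B

/-- SHP.  Sharp version.  Proof: `M = 1/δ` with `δ` from `E2` for `θ = 1` (and `M ≥ 2`).
`t1 = e^{m1 + τ} r1`, `t2 = e^{m2 - τ} r2`: if `|X| ≤ r1` then either `|X| ≥ r1/M`, `RC`, or
`|X| ≤ δ r1`, `E2` with a point of the sphere of radius `r1`; the same at `r2` (if `|X| ≥ M r2`,
`E2` compares a point of the sphere of radius `r2` with `x`).  `ARM` with `w`, `κ0`, `δ'` and the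
cone of `WIN`, `c = 2`: `m2 - m1 ≤ 2τ + w + 6 κ0 L` (also if `t2 ≤ t1`), and `RNG`:
`DR ≤ (16π/3)(2τ + w + 6κ0 L) + 2Cτ ≤ η`; choose `τ` (depends on `H`, `η`), `w`, then
`κ0 ≤ min(1/6, ..)`. -/
def Stmt_SHP : Prop :=
  ∀ H η : ℝ, 1 ≤ H → 0 < η → ∃ τ M : ℝ, 0 < τ ∧ 2 ≤ M ∧ ∀ L : ℝ, 0 < L → ∃ ε1 δ1 : ℝ, 0 < ε1 ∧
    ε1 ≤ 1 / 1000 ∧ 0 < δ1 ∧ δ1 ≤ 1 / 8 ∧
    ∀ (ε r0 : ℝ) (Ω S : Set E3) (f : E3 → E3) (A : E3 → M3) (γ : ℝ → E3), 0 ≤ ε → ε ≤ ε1 →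
    Tube H ε r0 Ω S f A γ → ∀ t ∈ Icc (-1 : ℝ) 1, DegP f A (γ t) r0 2 →
    ∀ r1 r2 m1 m2 : ℝ, 0 < r1 → r1 < r2 → r2 ≤ δ1 * r0 → Real.log (r2 / r1) ≤ L →
      RC f (γ t) r1 M m1 τ → RC f (γ t) r2 M m2 τ → DR f A (γ t) r1 r2 ≤ η

/-- SML.  Small defect at all small scales.  Proof: `B, L0` from `CRU`; `τ, M'` from `SHP`; `η1` from
`ONE` for `(M', τ)`; `N ≥ 1` with `N η1 ≥ B`; `Q = 4 M'`; `L = max L0 (4 N log Q + 2 log M + 1)`.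
Lower windows: `ρ_j = r/(M Q^{2j-1})`, `j = 1..N`: the rings `rg p (ρ_j/Q) (Q ρ_j)` are disjoint and
in `rg p (r/(M Q^{2N})) (r/M)`, whose defect is `≤ B` (`CRU`), `dens ≥ 0` a.e. (`THREE`), so one of
them has defect `≤ B/N ≤ η1`, and `ONE` gives `RC` at `ρ_j`.  Upper windows:
`ρ'_k = M r Q^{2k-1}`, in the same way.  `SHP` for `ρ_j < ρ'_k`; `rg p (r/M) (M r)` is in
`rg p ρ_j ρ'_k`.  (`DEG` gives `DegP`, `CRU` gives `c = 2`.) -/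
def Stmt_SML : Prop :=
  ∀ H η M : ℝ, 1 ≤ H → 0 < η → 1 ≤ M → ∃ ε1 δ1 : ℝ, 0 < ε1 ∧ ε1 ≤ 1 / 1000 ∧ 0 < δ1 ∧
    δ1 ≤ 1 / 8 ∧
    ∀ (ε r0 : ℝ) (Ω S : Set E3) (f : E3 → E3) (A : E3 → M3) (γ : ℝ → E3), 0 ≤ ε → ε ≤ ε1 →
    Tube H ε r0 Ω S f A γ → ∀ t ∈ Icc (-1 : ℝ) 1, ∀ r : ℝ, 0 < r → r ≤ δ1 * r0 →
      IntegrableOn (dens f A (γ t)) (rg (γ t) (r / M) (M * r)) ∧
      DR f A (γ t) (r / M) (M * r) ≤ η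

/-- NR1.  Ratios of distances to a branch point.  Proof: `r = |y - p|`, `M = max (R, 4 H/τ, 4/τ, 2)`,
`SML` with `4 M`, `ONE` with `τ'` small: `RC f p r M m τ'`, so for `r/M ≤ |x - p| ≤ R r` the ratio
`(|f x - f p|/|f y - f p|) (r/|x - p|)` is in `[e^{-2τ'}, e^{2τ'}]` and the difference is
`≤ (e^{2τ'} - 1) R ≤ τ`; for `|x - p| < r/M` use `br` with a point of the sphere of radius `r/M`:
both terms are `≤ τ`. -/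
def Stmt_NR1 : Prop :=
  ∀ H τ R : ℝ, 1 ≤ H → 0 < τ → 1 ≤ R → ∃ ε1 δ1 : ℝ, 0 < ε1 ∧ ε1 ≤ 1 / 1000 ∧ 0 < δ1 ∧
    δ1 ≤ 1 / 8 ∧
    ∀ (ε r0 : ℝ) (Ω S : Set E3) (f : E3 → E3) (A : E3 → M3) (γ : ℝ → E3), 0 ≤ ε → ε ≤ ε1 →
    Tube H ε r0 Ω S f A γ → ∀ t ∈ Icc (-1 : ℝ) 1, ∀ y : E3, y ≠ γ t → ‖y - γ t‖ ≤ δ1 * r0 →
    ∀ x : E3, ‖x - γ t‖ ≤ R * ‖y - γ t‖ →
      |‖f x - f (γ t)‖ / ‖f y - f (γ t)‖ - ‖x - γ t‖ / ‖y - γ t‖| ≤ τ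

/-! ## The angle -/

/-- PT2.  The gradient of the angle is controlled by the two defects.  Proof (compare the block
`PWS` of the library): `δ = dfc A X Y + dfc A (X - e3) (Y - e3)`; the ratios
`|Y - q|/|X - q|`, `q = 0, e3`, are between `1/2` and `2`.  Case `δ ≤ κ`: `THREE`, `AB` for both base
points give `τ, N/2, det A/2 = 1 + O(√δ)` up to the factor `s^k`, and `s`-factors: `A X = Y + O(√δ)`,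
`A (X - e3) = Y - e3 + O(√δ)` (`act A b = τ y + ..`, `τ = s(1 + O(√δ))`), so `A e3 = e3 + O(√δ)`,
`τ = 1 + O(√δ)`, `rad X • A (er X) = rad Y • er Y + (Y 2 - X 2) • e3 + O(√δ)`; `qf A ≤ C δ` on the
span of `er X`, `e3`; `STAR`: `|A er X|^2, |A e3|^2 = τ^2 + O(δ)`, `⟨A er X, A e3⟩ = O(δ)`, hence
`Y 2 - X 2, rad Y - rad X = O(√δ)`, `A er X = er Y + O(√δ)`; `⟨A et X, A er X⟩, ⟨A et X, A e3⟩ = O(√δ)`, so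
`A et X = λ et Y + O(√δ)`, and `det A = det (A er X, A et X, A e3) = λ + O(√δ)`, `det A = 2 + O(√δ)`,
so `λ = 2 + O(√δ)`.  Then `Aᵀ et Y = 2 et X + O(√δ)` (components on `er X, et X, e3`).
Case `δ ≥ κ`: `ENB`: `|A|^2 ≤ C (1 + δ)`. -/
def Stmt_PT2 : Prop :=
  ∀ ρ : ℝ, 0 < ρ → ρ ≤ 1 → ∃ C : ℝ, 0 < C ∧ ∀ (A : M3) (X Y : E3), Good A → ρ < rad X →
    ‖X‖ ≤ 80 → |rad Y - rad X| ≤ ρ / 100 → |Y 2 - X 2| ≤ ρ / 100 →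
    0 ≤ dfc A X Y ∧ 0 ≤ dfc A (X - e3) (Y - e3) ∧
    ‖act A.transpose (et Y) - (2 : ℝ) • et X‖ ^ 2
      ≤ C * (dfc A X Y + dfc A (X - e3) (Y - e3))

/-- Real part of `(Y0 + i Y1)/|.| * ((X0 - i X1)/|.|)^2`. -/
noncomputable def qre (X Y : E3) : ℝ :=
  (Y 0 * (X 0 ^ 2 - X 1 ^ 2) + Y 1 * (2 * X 0 * X 1)) / (rad Y * rad X ^ 2)

/-- Imaginary part of `(Y0 + i Y1)/|.| * ((X0 - i X1)/|.|)^2`. -/
noncomputable def qim (X Y : E3) : ℝ :=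
  (Y 1 * (X 0 ^ 2 - X 1 ^ 2) - Y 0 * (2 * X 0 * X 1)) / (rad Y * rad X ^ 2)

/-- QGR.  Calculus of `qre`, `qim` (explicit derivatives; `qre + i qim = e^{i(Θ - 2θ)}`). -/
def Stmt_QGR : Prop :=
  ∀ X Y : E3, 0 < rad X → 0 < rad Y → qre X Y ^ 2 + qim X Y ^ 2 = 1 ∧
    ContDiffAt ℝ 1 (fun q : E3 × E3 => qre q.1 q.2) (X, Y) ∧
    ContDiffAt ℝ 1 (fun q : E3 × E3 => qim q.1 q.2) (X, Y) ∧
    (∀ v w : E3, fderiv ℝ (fun q : E3 × E3 => qre q.1 q.2) (X, Y) (v, w)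
      = - qim X Y * (inner ℝ (et Y) w / rad Y - 2 * inner ℝ (et X) v / rad X)) ∧
    (∀ v w : E3, fderiv ℝ (fun q : E3 × E3 => qim q.1 q.2) (X, Y) (v, w)
      = qre X Y * (inner ℝ (et Y) w / rad Y - 2 * inner ℝ (et X) v / rad X)) ∧
    Y 0 = rad Y * (qre X Y * (X 0 ^ 2 - X 1 ^ 2) - qim X Y * (2 * X 0 * X 1)) / rad X ^ 2 ∧
    Y 1 = rad Y * (qim X Y * (X 0 ^ 2 - X 1 ^ 2) + qre X Y * (2 * X 0 * X 1)) / rad X ^ 2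

/-- A map on the ball of radius `80` with small defect. -/
structure SF (ρ τ1 h σ η : ℝ) (F : E3 → E3) (A : E3 → M3) : Prop where
  cont : ContinuousOn F (Metric.ball 0 80)
  wg : WeakGrad (Metric.ball 0 80) F A
  good : ∀ᵐ X ∂(volume.restrict (Metric.ball (0 : E3) 80)), Good (A X)
  rad : ∀ X ∈ Metric.ball (0 : E3) 80, |rad (F X) - rad X| ≤ τ1
  ax : ∀ X ∈ Metric.ball (0 : E3) 80, |F X 2 - X 2| ≤ τ1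
  mod : ∀ X ∈ Metric.ball (0 : E3) 72, ∀ X' ∈ Metric.ball (0 : E3) 72, ‖X - X'‖ ≤ h →
    ‖F X - F X'‖ ≤ σ
  int : IntegrableOn (dl F A) {X | ρ / 4 < Mart.rad X ∧ ‖X‖ < 70}
  dl : ∫ X in {X | ρ / 4 < Mart.rad X ∧ ‖X‖ < 70}, dl F A X ≤ η

/-- SEGC.  Chains of segments off the axis.  Proof: heights `X 2` fixed, horizontal parts `u`
(norm `r = rad X`) and the target direction `w`: at most two chords of the circle of radius `r`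
with angles at most `π/2` (as in `SEG`), then the segment in the half plane of `X'`: `rad` is
affine there, the norm is convex. -/
def Stmt_SEGC : Prop :=
  ∀ (ρ R : ℝ) (X X' : E3), 0 < ρ → ρ ≤ rad X → ‖X‖ ≤ R → ρ ≤ rad X' → ‖X'‖ ≤ R →
    ∃ z : ℕ → E3, z 0 = X ∧ z 3 = X' ∧ (∀ i ≤ 3, ρ ≤ rad (z i) ∧ ‖z i‖ ≤ R) ∧
      ∀ i < 3, ∀ s ∈ Icc (0 : ℝ) 1, ρ / 2 ≤ rad (z i + s • (z (i + 1) - z i)) ∧
        ‖z i + s • (z (i + 1) - z i)‖ ≤ R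

/-- AGW.  Weak gradients of `qre`, `qim` along `F` and their `L^1` norms on
`W = {ρ/4 < rad X, |X| < 70}`.  Proof: `CHR` (`rad (F X) ≥ ρ/4 - τ1 ≥ ρ/8`), `QGR`:
`|V_j| ≤ |Aᵀ et(Y)/rad Y - 2 et(X)/rad X| ≤ (8/ρ) |Aᵀ et Y - 2 et X| + 2 |1/rad Y - 1/rad X|
≤ (8/ρ) √(C dl) + 64 τ1/ρ^2` (`PT2` with `ρ/4`; `τ1 ≤ ρ/400`), Cauchy-Schwarz on the bounded set
`W`. -/
def Stmt_AGW : Prop :=
  ∀ ρ : ℝ, 0 < ρ → ρ ≤ 1 → ∃ C : ℝ, 0 < C ∧ ∀ (τ1 h σ η : ℝ) (F : E3 → E3) (A : E3 → M3),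
    0 ≤ τ1 → τ1 ≤ ρ / 400 → 0 ≤ η → SF ρ τ1 h σ η F A →
    ContinuousOn (fun X => qre X (F X)) {X | ρ / 4 < rad X ∧ ‖X‖ < 70} ∧
    ContinuousOn (fun X => qim X (F X)) {X | ρ / 4 < rad X ∧ ‖X‖ < 70} ∧
    ∃ V W : E3 → E3, WG1 {X | ρ / 4 < rad X ∧ ‖X‖ < 70} (fun X => qre X (F X)) V ∧
      WG1 {X | ρ / 4 < rad X ∧ ‖X‖ < 70} (fun X => qim X (F X)) W ∧
      ∀ j : Fin 3, IntegrableOn (fun X => V X j) {X | ρ / 4 < rad X ∧ ‖X‖ < 70} ∧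
        IntegrableOn (fun X => W X j) {X | ρ / 4 < rad X ∧ ‖X‖ < 70} ∧
        ∫ X in {X | ρ / 4 < rad X ∧ ‖X‖ < 70}, |V X j| ≤ C * (Real.sqrt η + τ1) ∧
        ∫ X in {X | ρ / 4 < rad X ∧ ‖X‖ < 70}, |W X j| ≤ C * (Real.sqrt η + τ1)

/-- ANG.  A map with small defect is close to a rotated winding map off the axis.  Proof: for
`X, X'` with `rad ≥ ρ`, `|X| ≤ 64`, `SEGC` and `OSC` on the three segments with `h' = min h (ρ/8)`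
(`closedBall .. h' ⊆ W`), `AGW`; modulus: if `|z - X| ≤ h' ≤ σ`, `rad X ≥ ρ` then
`|qre z (F z) - qre X (F X)| ≤ C σ/ρ` (unit vectors of vectors of length `≥ ρ/2`).  So `qre`, `qim`
vary by at most `6 C σ/ρ + 3 C'' h'^{-3} 128 C (√η + τ1)`; their values at one point are
`cos α, sin α` (`QGR`); `QGR` (last two lines) and `|rad F X - rad X|, |F X 2 - X 2| ≤ τ1`:
`F X = rotz α (wind X) + O(64 (..) + τ1)`.  Choose `σ`, then `τ1`, `η`. -/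
def Stmt_ANG : Prop :=
  ∀ ρ τ : ℝ, 0 < ρ → ρ ≤ 1 → 0 < τ → ∃ σ : ℝ, 0 < σ ∧ ∀ h : ℝ, 0 < h → h ≤ σ →
    ∃ τ1 η : ℝ, 0 < τ1 ∧ 0 < η ∧ ∀ (F : E3 → E3) (A : E3 → M3), SF ρ τ1 h σ η F A →
      ∃ α : ℝ, ∀ X : E3, ρ ≤ rad X → ‖X‖ ≤ 64 → ‖F X - act (rotz α) (wind X)‖ ≤ τ

/-! ## The normalised map at a pair of branch points -/

/-- FRM.  Frames: extend `w/|w|` to a positively oriented orthonormal basis. -/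
def Stmt_FRM : Prop :=
  ∀ w : E3, w ≠ 0 → ∃ O : M3, O ∈ Matrix.specialOrthogonalGroup (Fin 3) ℝ ∧
    w = ‖w‖ • act O e3

/-- Normalised map. -/
noncomputable def nf (f : E3 → E3) (p : E3) (l l' : ℝ) (O O' : M3) (X : E3) : E3 :=
  l'⁻¹ • act O'.transpose (f (p + l • act O X) - f p)

/-- Weak gradient of the normalised map. -/
noncomputable def na (A : E3 → M3) (p : E3) (l l' : ℝ) (O O' : M3) (X : E3) : M3 :=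
  (l / l') • (O'.transpose * A (p + l • act O X) * O)

/-- RZA.  Two distances determine the height and the radius.  Proof:
`2 Y_2 = |Y|^2 - |Y - e3|^2 + 1`, the same for `X`; `rad Y^2 = |Y|^2 - Y_2^2`;
`|rad Y - rad X|^2 ≤ |rad Y^2 - rad X^2|`. -/
def Stmt_RZA : Prop :=
  ∀ τ1 : ℝ, 0 < τ1 → ∃ τ : ℝ, 0 < τ ∧ ∀ X Y : E3, ‖X‖ ≤ 80 → |‖Y‖ - ‖X‖| ≤ τ →
    |‖Y - e3‖ - ‖X - e3‖| ≤ τ → |rad Y - rad X| ≤ τ1 ∧ |Y 2 - X 2| ≤ τ1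

/-- WGC (a proved version of `WGT`, `Pool.Mart.Stmt_WGTc`).  Weak gradients under similarities. -/
def Stmt_WGC : Prop :=
  ∀ (Ω : Set E3) (f : E3 → E3) (A : E3 → M3) (p q : E3) (l c' : ℝ) (O O' : M3), IsOpen Ω → 0 < l →
    O ∈ Matrix.specialOrthogonalGroup (Fin 3) ℝ → ContinuousOn f Ω → WeakGrad Ω f A →
    WeakGrad {X | p + l • act O X ∈ Ω} (fun X => c' • act O' (f (p + l • act O X) - q))
      (fun X => (c' * l) • (O' * A (p + l • act O X) * O))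

/-- SDF.  The defect of the normalised map.  Proof: `x = p + l O X`; `ROT` (`c = l/l'`):
`dfc (na .. X) X (nf .. X) = dfc (A x) (x - p) (f x - f p)`,
`dfc (na .. X) (X - e3) (nf .. X - e3) = dfc (A x) (x - b) (f x - f b)` (`b - p = l O e3`,
`f b - f p = l' O' e3`); `CHV`; on the region `ρ/4 < rad X`, `|X| < 70` one has
`ρ/4 < |X|, |X - e3| < 71`, so the integral is at most `71^3 (DR_p + DR_b)` (`dens ≥ 0` a.e.,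
`THREE`).  `f x ≠ f p`, `f x ≠ f b` by the hypotheses. -/
def Stmt_SDF : Prop :=
  ∀ (Ω : Set E3) (f : E3 → E3) (A : E3 → M3) (p b : E3) (l l' ρ : ℝ) (O O' : M3), IsOpen Ω →
    ContinuousOn f Ω → WeakGrad Ω f A → (∀ᵐ x ∂(volume.restrict Ω), Good (A x)) →
    0 < ρ → ρ ≤ 1 → 0 < l → 0 < l' → O ∈ Matrix.specialOrthogonalGroup (Fin 3) ℝ →
    O' ∈ Matrix.specialOrthogonalGroup (Fin 3) ℝ → b - p = l • act O e3 →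
    f b - f p = l' • act O' e3 → Metric.closedBall p (80 * l) ⊆ Ω →
    (∀ x ∈ Metric.closedBall p (80 * l), f x = f p → x = p) →
    (∀ x ∈ Metric.closedBall p (80 * l), f x = f b → x = b) →
    IntegrableOn (dens f A p) (rg p (ρ / 4 * l) (71 * l)) →
    IntegrableOn (dens f A b) (rg b (ρ / 4 * l) (71 * l)) →
    IntegrableOn (dl (nf f p l l' O O') (na A p l l' O O')) {X | ρ / 4 < rad X ∧ ‖X‖ < 70} ∧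
    ∫ X in {X | ρ / 4 < rad X ∧ ‖X‖ < 70}, dl (nf f p l l' O O') (na A p l l' O O') X
      ≤ 71 ^ 3 * (DR f A p (ρ / 4 * l) (71 * l) + DR f A b (ρ / 4 * l) (71 * l))

/-- SFX.  The normalised map at a pair of branch points has small defect.  Proof: `l' > 0` by `inj`,
`O'` from `FRM`.  `cont`, `wg` (`WGC`), `good` (`ROT`, `CHV`): `p + l O X ∈ Ω` for `|X| < 80`.
`rad`, `ax`: `NR1` at `p` (`y = b`) and at `b` (`y = p`) with `R = 81`, `RZA`; `|nf X| = |f x - f p|/l'`,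
`|nf X - e3| = |f x - f b|/l'`, `|X| = |x - p|/l`, `|X - e3| = |x - b|/l`.  `mod`: `E3` with `M = 73`,
`τ = σ`, `y0 = b`, `h = min δ σ`.  `int`, `dl`: `SML` at `p` and `b` with `M ≥ 71, 4/ρ`, `SDF`. -/
def Stmt_SFX : Prop :=
  ∀ H ρ σ : ℝ, 1 ≤ H → 0 < ρ → ρ ≤ 1 → 0 < σ → ∃ h : ℝ, 0 < h ∧ h ≤ σ ∧
    ∀ τ1 η : ℝ, 0 < τ1 → 0 < η → ∃ ε1 δ1 : ℝ, 0 < ε1 ∧ ε1 ≤ 1 / 1000 ∧ 0 < δ1 ∧ δ1 ≤ 1 / 8 ∧
    ∀ (ε r0 : ℝ) (Ω S : Set E3) (f : E3 → E3) (A : E3 → M3) (γ : ℝ → E3), 0 ≤ ε → ε ≤ ε1 →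
    Tube H ε r0 Ω S f A γ → ∀ t ∈ Icc (-1 : ℝ) 1, ∀ s : ℝ, s ≠ 0 → |s| ≤ 1 →
    t + s ∈ Icc (-1 : ℝ) 1 → ‖cv γ t s‖ ≤ δ1 * r0 →
    ∀ O : M3, O ∈ Matrix.specialOrthogonalGroup (Fin 3) ℝ →
    cv γ t s = ‖cv γ t s‖ • act O e3 → 0 < ‖f (γ (t + s)) - f (γ t)‖ ∧
    ∃ O' : M3, O' ∈ Matrix.specialOrthogonalGroup (Fin 3) ℝ ∧
      f (γ (t + s)) - f (γ t) = ‖f (γ (t + s)) - f (γ t)‖ • act O' e3 ∧
      SF ρ τ1 h σ η (nf f (γ t) ‖cv γ t s‖ ‖f (γ (t + s)) - f (γ t)‖ O O')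
        (na A (γ t) ‖cv γ t s‖ ‖f (γ (t + s)) - f (γ t)‖ O O')

/-- CLO.  Closeness to the winding map.  Proof: `ρ = min 1 (ε'/20)`, `σ` from `ANG` with `τ = ε'/2`,
`h` from `SFX`, `τ1, η` from `ANG` (`τ1` made `≤ ρ`: `SF` is monotone in `τ1`), `ε1, δ1` and `O'_0`
from `SFX`, `α` from `ANG`; `O' = O'_0 rotz α`, `rotz α e3 = e3`.  For `rad X ≥ ρ` this is `ANG`; for
`rad X < ρ`: `|F X - rotz α (wind X)| ≤ rad (F X) + rad X + |F X 2 - X 2| ≤ 4 ρ`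
(`rad (wind X) = rad X`, `wind X 2 = X 2`).  Finally
`f (p + l O X) - f p - l' O' (wind X) = l' O'_0 (F X - rotz α (wind X))`. -/
def Stmt_CLO : Prop :=
  ∀ H ε' : ℝ, 1 ≤ H → 0 < ε' → ∃ ε1 δ1 : ℝ, 0 < ε1 ∧ ε1 ≤ 1 / 1000 ∧ 0 < δ1 ∧ δ1 ≤ 1 / 8 ∧
    ∀ (ε r0 : ℝ) (Ω S : Set E3) (f : E3 → E3) (A : E3 → M3) (γ : ℝ → E3), 0 ≤ ε → ε ≤ ε1 →
    Tube H ε r0 Ω S f A γ → ∀ t ∈ Icc (-1 : ℝ) 1, ∀ s : ℝ, s ≠ 0 → |s| ≤ 1 →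
    t + s ∈ Icc (-1 : ℝ) 1 → ‖cv γ t s‖ ≤ δ1 * r0 →
    ∀ O : M3, O ∈ Matrix.specialOrthogonalGroup (Fin 3) ℝ →
    cv γ t s = ‖cv γ t s‖ • act O e3 → 0 < ‖f (γ (t + s)) - f (γ t)‖ ∧
    ∃ O' : M3, O' ∈ Matrix.specialOrthogonalGroup (Fin 3) ℝ ∧
      f (γ (t + s)) - f (γ t) = ‖f (γ (t + s)) - f (γ t)‖ • act O' e3 ∧
      ∀ X ∈ Metric.ball (0 : E3) 64,
        ‖f (γ t + ‖cv γ t s‖ • act O X) - f (γ t)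
            - ‖f (γ (t + s)) - f (γ t)‖ • act O' (wind X)‖
          ≤ ε' * ‖f (γ (t + s)) - f (γ t)‖

/-- PKF.  A package.  Proof: `γ' t = γ (κ t)`, `κ ≤ 1/100` so small (continuity of `γ`) that
`|γ (κ t + s) - γ (κ t)| ≤ δ1 r0` for `|t| ≤ 20`, `|s| ≤ κ`; `ε1` from `CLO` with `ε' = ε0`, and
`20000 ε1 ≤ ε0`.  `O t n` from `FRM` (`LINP`: the chord is not `0`), `O' t n` from `CLO` with
`s = κ sc n` (`choose`).  `sub`: `64 δ1 r0 ≤ 8 r0`.  `line`: `Δ` for `κ sc n` and `s κ sc n`,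
`|s| ≤ 64`; if `|s| ≤ 1` by `LINP` at the scale `κ sc n`; if `|s| > 1` by `LINP` at the scale
`s κ sc n` with `s' = κ sc n`, multiplied by `|s|`:
`|Δ_{sκ sc n} - s Δ_{κ sc n}| ≤ 256 ε |Δ_{sκ sc n}|` and `|Δ_{sκ sc n}| ≤ 70 len`. -/
def Stmt_PKF : Prop :=
  ∀ H ε0 : ℝ, 1 ≤ H → 0 < ε0 → ∃ ε1 : ℝ, 0 < ε1 ∧
    ∀ (r0 : ℝ) (Ω S : Set E3) (f : E3 → E3) (A : E3 → M3) (γ : ℝ → E3),
    Tube H ε1 r0 Ω S f A γ → ∃ (γ' : ℝ → E3) (O O' : ℝ → ℕ → M3), Pack ε0 Ω f γ' O O'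

/-- LOC.  From the hypotheses of the theorem to the tube.  Proof: `γ' t = γ (κ t)`, `κ` small:
`κ ≤ h0`, `2 κ ≤ 1`, `γ ([-2κ, 2κ]) ⊆ ball x0 (R/4)`; then `r0` small: `8 r0 ≤ R/4`; `far`: minimum
of a positive continuous function on a compact set (`γ` injective); `SN`: the distance of
`γ ([-κ, κ])` and `γ ({2κ ≤ |u| ≤ 1})` is positive.  `lin`: `NearLin` for `γ` at `κ t`, scale `κ h`,
vector `κ v`.  `gS`, `br`, `wh`: the set equality, `LocDist`.  `inj`: `φ` injective on its source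
gives `wind (ψ x) = wind (ψ q)`, `q = γ' t`; `rad (wind y) = rad y` (`WIN1`), so `rad (ψ x) = 0`;
`wind y = y` if `rad y = 0` (`y = y 2 • e3`, `WIN1`); `ψ` is injective.  `two`: `a = ψ (γ' t)`,
`y1 = a + u e`, `y2 = a - u e`, `e = single 0 1`, `wind y1 = wind y2`, `x_i = ψ.symm y_i` for small
`u`; `wind` is injective on `{y 0 > 0}` and on `{y 0 < 0}`.  `good`: `LIN4` a.e. -/
def Stmt_LOC : Prop :=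
  ∀ (H ε : ℝ) (φ ψ : OpenPartialHomeomorph E3 E3) (A : E3 → M3) (R h0 : ℝ) (x0 : E3)
    (γ : ℝ → E3), 1 ≤ H → 0 ≤ ε →
    (∀ x ∈ ψ.source, wind (ψ x) ∈ φ.source) →
    0 < R → Metric.ball x0 R ⊆ ψ.source →
    γ 0 = x0 → ContinuousOn γ (Icc (-1) 1) → InjOn γ (Icc (-1) 1) →
    bset ψ.source ψ ∩ Metric.ball x0 R = γ '' Icc (-1) 1 ∩ Metric.ball x0 R →
    0 < h0 → NearLin ε γ 1 h0 →
    LocDist H (fun x => φ (wind (ψ x))) (bset ψ.source ψ) x0 R →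
    QReg ψ.source (fun x => φ (wind (ψ x))) A → InnerDist ψ.source A 2 →
    ∃ (r0 : ℝ) (γ' : ℝ → E3),
      Tube H ε r0 ψ.source (bset ψ.source ψ) (fun x => φ (wind (ψ x))) A γ'

/-- FIN.  The end.  Proof: suppose `K < 2`; `END` gives `ε0`, `PKF` gives `ε1 = ε`; `InnerDist K`
implies `InnerDist 2`; `LOC`, `PKF`, `END`. -/
def Stmt_FIN : Prop := Stmt_FinalFB

end Pool.Flat
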