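import Pool.Agent.Work.MP_680515_fl.Iface3

/-!
# MP_680515_an, THEOREM FC: interface 4 (the distortion condition is automatic)

For `f = φ ∘ wind ∘ ψ` with `Good` gradient the condition `LocDist H` holds near every branch
point with an absolute constant `H` (Martio, Rickman, Väisälä; here a self contained proof with
oscillation on spheres).  So the theorem holds without the hypothesis `LocDist`.
Notation in the docstrings: `Ω = ψ.source`, `f x = φ (wind (ψ x))`, `S = bset Ω ψ`.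
-/

open MeasureTheory Set Filter Topology

namespace Pool.Flat

open Pool.Mart

/-- THE FINAL THEOREM, second form: no condition on `φ` and `ψ`. -/
def Stmt_FinalFC : Prop :=
  ∃ ε : ℝ, 0 < ε ∧ ∀ (φ ψ : OpenPartialHomeomorph E3 E3) (A : E3 → M3)
    (K R h0 : ℝ) (x0 : E3) (γ : ℝ → E3),
    (∀ x ∈ ψ.source, wind (ψ x) ∈ φ.source) →
    0 < R → Metric.ball x0 R ⊆ ψ.source →
    γ 0 = x0 → ContinuousOn γ (Icc (-1) 1) → InjOn γ (Icc (-1) 1) →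
    bset ψ.source ψ ∩ Metric.ball x0 R = γ '' Icc (-1) 1 ∩ Metric.ball x0 R →
    0 < h0 → NearLin ε γ 1 h0 →
    QReg ψ.source (fun x => φ (wind (ψ x))) A → InnerDist ψ.source A K → 2 ≤ K

/-- The map `φ ∘ wind ∘ ψ`. -/
noncomputable def fm (φ ψ : OpenPartialHomeomorph E3 E3) (x : E3) : E3 := φ (wind (ψ x))

/-- The standing hypotheses of this part. -/
structure WM (φ ψ : OpenPartialHomeomorph E3 E3) (A : E3 → M3) : Prop where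
  src : ∀ x ∈ ψ.source, wind (ψ x) ∈ φ.source
  wg : WeakGrad ψ.source (fm φ ψ) A
  good : ∀ᵐ x ∂(volume.restrict ψ.source), Good (A x)

/-! ## Oscillation on spheres -/

/-- Integral over the sphere of radius `ρ` around `c` (for the measure of total mass `4 π`). -/
noncomputable def SI (c : E3) (ρ : ℝ) (g : E3 → ℝ) : ℝ :=
  ∫ u in (-1 : ℝ)..1, ∫ θ in (0 : ℝ)..(2 * Real.pi), g (c + sph ρ u θ)

/-- ROS.  Rotation invariance.  Proof: for `g ≥ 0` apply `SPH` to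
`y ↦ g ((ρ/|y|) y) 1_{1 < |y| < 2}` and to its composition with `R` (volume preserving); both
sides are `(7/3) SI 0 ρ (..)`.  In general add a constant (`g` is bounded on the sphere). -/
def Stmt_ROS : Prop :=
  ∀ (R : E3 ≃ₗᵢ[ℝ] E3) (ρ : ℝ) (g : E3 → ℝ), 0 < ρ → Continuous g →
    SI 0 ρ (fun y => g (R y)) = SI 0 ρ g

/-- MOR.  Morrey inequality on a sphere.  Proof: let `x = c + ρ e`, `R` a linear isometry with
`R e3 = e`, `w s θ = v (c + ρ R (sin s cos θ, sin s sin θ, cos s))`.  `|v x - w φ θ| ≤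
ρ ∫_0^π |∇v| (s, θ) ds`; multiply by `sin φ`, integrate over `φ ∈ (0, π)`, `θ`: with `u = cos φ`
`|4π v x - SI c ρ v| ≤ 2 ρ ∫∫ |∇v| (1-u^2)^{-1/2} du dθ ≤ 2 ρ (SI |∇v|^3)^{1/3} (2π I0)^{2/3}` (`ROS` for
`v` and `|∇v|^3`, Hölder with exponents `3`, `3/2`).  The same for `y`. -/
def Stmt_MOR : Prop :=
  ∃ C : ℝ, 0 < C ∧ ∀ (v : E3 → ℝ) (c x y : E3) (ρ : ℝ), ContDiff ℝ 1 v → 0 < ρ → ‖x - c‖ = ρ →
    ‖y - c‖ = ρ → |v x - v y| ^ 3 ≤ C * ρ ^ 3 * SI c ρ (fun z => ‖gradv v z‖ ^ 3)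

/-- OSL.  Oscillation on spheres for Sobolev maps.  Proof: `MOLL` on `{ρ1 ≤ |x - c| ≤ ρ2}`: `g_n → f`
uniformly, `jac g_n → A` in `L^3`.  `v_n = Φ ∘ g_n` is `C^1`, `|∇v_n| ≤ |Dg_n| |∇Φ (g_n)|`.  For every
`ρ ∈ (ρ1, ρ2)` there are `x, y` on the sphere with `|v_n x - v_n y| ≥ δ - δ_n`, `δ_n → 0`; `MOR`, divide
by `ρ`, integrate (`SPH`): `(δ - δ_n)^3 log(ρ2/ρ1) ≤ C ∫_{ring} |∇v_n|^3`; `n → ∞`. -/
def Stmt_OSL : Prop :=
  ∃ C : ℝ, 0 < C ∧ ∀ (Ω : Set E3) (f : E3 → E3) (A : E3 → M3) (Φ : E3 → ℝ) (c : E3)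
    (ρ1 ρ2 δ : ℝ), IsOpen Ω → ContinuousOn f Ω → WeakGrad Ω f A → ContDiff ℝ 1 Φ → 0 < ρ1 →
    ρ1 < ρ2 → {x | ρ1 ≤ ‖x - c‖ ∧ ‖x - c‖ ≤ ρ2} ⊆ Ω → 0 ≤ δ →
    (∀ ρ ∈ Ioo ρ1 ρ2, ∃ x y : E3, ‖x - c‖ = ρ ∧ ‖y - c‖ = ρ ∧ δ ≤ |Φ (f x) - Φ (f y)|) →
    IntegrableOn (fun x => (opn (A x) * ‖gradv Φ (f x)‖) ^ 3) (rg c ρ1 ρ2) ∧
    δ ^ 3 * Real.log (ρ2 / ρ1) ≤ C * ∫ x in rg c ρ1 ρ2, (opn (A x) * ‖gradv Φ (f x)‖) ^ 3

/-! ## Differentiability almost everywhere, area inequality -/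

/-- LEB.  Lebesgue points in `L^3`.  Proof: for every rational `q` the function `|A_ij - q|^3` is
locally integrable on `Ω`: its averages over balls converge to its value a.e.
(`IsUnifLocDoublingMeasure.ae_tendsto_average` or `Besicovitch.ae_tendsto_rnDeriv` ..);
`|a + b|^3 ≤ 4 (|a|^3 + |b|^3)`, let `q → A x i j`. -/
def Stmt_LEB : Prop :=
  ∀ (Ω : Set E3) (A : E3 → M3), IsOpen Ω →
    (∀ K : Set E3, IsCompact K → K ⊆ Ω → ∀ i j : Fin 3,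
      MemLp (fun x => A x i j) 3 (volume.restrict K)) →
    ∀ᵐ x ∂(volume.restrict Ω), ∀ i j : Fin 3,
      Tendsto (fun r : ℝ => (r ^ 3)⁻¹ * ∫ y in Metric.ball x r, |A y i j - A x i j| ^ 3)
        (𝓝[>] 0) (𝓝 0)

/-- PMN.  Mean differentiability.  Proof: let `o(r) = r^{-3} ∫_{ball x r} |A - B| → 0` (Hölder).  For
smooth `g` and `0 < s0 < 1`: `∫_{ball x r} |g y - g (x + s0 (y - x)) - (1 - s0) B (y - x)| dy
≤ r ∫_{s0}^1 s^{-3} ∫_{ball x (s r)} |Dg - B| ds`; apply it to the maps `g_n` of `MOLL` on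
`closedBall x r1 ⊆ Ω`, `n → ∞`: the bound is `r ∫_{s0}^1 r^3 o(s r) ds ≤ r^4 sup_{r' ≤ r} o(r')`.
Let `s0 → 0` (`f` is continuous at `x`). -/
def Stmt_PMN : Prop :=
  ∀ (Ω : Set E3) (f : E3 → E3) (A : E3 → M3) (x : E3) (B : M3), IsOpen Ω → ContinuousOn f Ω →
    WeakGrad Ω f A → x ∈ Ω →
    (∀ i j : Fin 3, Tendsto (fun r : ℝ => (r ^ 3)⁻¹ * ∫ y in Metric.ball x r,
      |A y i j - B i j| ^ 3) (𝓝[>] 0) (𝓝 0)) →
    Tendsto (fun r : ℝ => (r ^ 4)⁻¹ * ∫ y in Metric.ball x r, ‖f y - f x - act B (y - x)‖)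
      (𝓝[>] 0) (𝓝 0)

/-- DAE.  Open `W^{1,3}` maps are differentiable a.e.  Proof: `x` as in `LEB`, `B = A x`,
`g y = f y - f x - B (y - x)` (weak gradient `A - B`), `0 < κ < 1`, `τ > 0`.  Let `r = |y - x|` be
small.  For every component `i`: `OSL` for `g`, the `i`-th coordinate, centre `y`, radii `κr/2, κr`,
`δ = τ r`: since `∫_{ball x (2r)} |A - B|^3 = o(r^3)` there is `ρ' ∈ (κr/2, κr)` such that `g_i`
oscillates by less than `τ r` on the sphere, so `f_i` by less than `τ r + 2|B|κ r`; as `f` is open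
`f_i` has no interior maximum or minimum, so the same bound holds on the ball: for all
`w ∈ ball y (κr/2)`: `|f_i y - f_i w| ≤ τr + 2|B|κr`.  By `PMN` some `w ∈ ball y (κr/2)` has
`|g w| ≤ τ r` (volume `c κ^3 r^3`).  So `|g_i y| ≤ 2τr + 3|B|κr`. -/
def Stmt_DAE : Prop :=
  ∀ (Ω : Set E3) (f : E3 → E3) (A : E3 → M3), IsOpen Ω → ContinuousOn f Ω → WeakGrad Ω f A →
    (∀ U : Set E3, IsOpen U → U ⊆ Ω → IsOpen (f '' U)) →
    ∀ᵐ x ∂(volume.restrict Ω),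
      HasFDerivAt f (LinearMap.toContinuousLinearMap (Matrix.toEuclideanLin (A x))) x

/-- The half turn about the third axis. -/
noncomputable def sg (y : E3) : E3 := !₂[-(y 0), -(y 1), y 2]

/-- WOP.  The winding map is continuous, surjective, open and two to one off the axis.  Proof:
in polar coordinates; `wind y = wind y'` means `y 2 = y' 2` and `z^2/|z| = z'^2/|z'|` for
`z = y 0 + i y 1`, so `z' = ± z`.  Open: locally injective off the axis with continuous local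
inverse (square root); at an axis point `a`: `‖wind y - a‖ = ‖y - a‖` and surjectivity give
`wind (ball a r) = ball a r`. -/
def Stmt_WOP : Prop :=
  Continuous wind ∧ (∀ U : Set E3, IsOpen U → IsOpen (wind '' U)) ∧
  (∀ y : E3, ∃ y' : E3, wind y' = y) ∧ (∀ y : E3, wind (sg y) = wind y) ∧
  (∀ y y' : E3, wind y = wind y' → y' = y ∨ y' = sg y) ∧ (∀ y : E3, rad y = 0 → wind y = y) ∧
  (∀ y a : E3, rad a = 0 → ‖wind y - a‖ = ‖y - a‖) ∧ (∀ y : E3, sg y = y ↔ rad y = 0) ∧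
  (∀ (g : ℂ) (h : ℂ) (c : ℝ), h ^ 2 = g →
    wind (!₂[‖h‖ * h.re, ‖h‖ * h.im, c]) = !₂[g.re, g.im, c])

/-- FOP.  The map `fm φ ψ` is continuous and open on `ψ.source`, and it separates branch points. -/
def Stmt_FOP : Prop :=
  ∀ φ ψ : OpenPartialHomeomorph E3 E3, (∀ x ∈ ψ.source, wind (ψ x) ∈ φ.source) →
    ContinuousOn (fm φ ψ) ψ.source ∧
    (∀ U : Set E3, IsOpen U → U ⊆ ψ.source → IsOpen (fm φ ψ '' U)) ∧
    (∀ x ∈ ψ.source, ∀ z ∈ bset ψ.source ψ, fm φ ψ x = fm φ ψ z → x = z)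

/-- ARE.  Area inequality.  Proof: `DAE`, `FOP`: there is a measurable set `D ⊆ Ω` of full measure
where `f` is differentiable with derivative `A x`.  `D` is the disjoint union of the measurable sets
where `ψ x` has (i) `y 1 > 0` or (`y 1 = 0`, `y 0 > 0`), (ii) `y 1 < 0` or (`y 1 = 0`, `y 0 < 0`),
(iii) `rad y = 0`; `f` is injective on each (`WOP`);
`lintegral_image_eq_lintegral_abs_det_fderiv_mul` on each of them. -/
def Stmt_ARE : Prop :=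
  ∀ (φ ψ : OpenPartialHomeomorph E3 E3) (A : E3 → M3), WM φ ψ A →
    ∀ h : E3 → ENNReal, Measurable h →
      ∫⁻ x in ψ.source, ENNReal.ofReal ((A x).det) * h (fm φ ψ x) ≤ 3 * ∫⁻ y, h y

/-! ## Capacity estimates -/

/-- CPI.  Proof: `OSL`, `|A|^3 ≤ 4 det A` (`Good`), `ARE`:
`∫ (|A| |∇Φ (f)|)^3 ≤ 12 ∫ |∇Φ|^3`. -/
def Stmt_CPI : Prop :=
  ∃ C : ℝ, 0 < C ∧ ∀ (φ ψ : OpenPartialHomeomorph E3 E3) (A : E3 → M3) (Φ : E3 → ℝ) (c : E3)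
    (ρ1 ρ2 δ : ℝ), WM φ ψ A → ContDiff ℝ 1 Φ → HasCompactSupport Φ → 0 < ρ1 → ρ1 < ρ2 →
    {x | ρ1 ≤ ‖x - c‖ ∧ ‖x - c‖ ≤ ρ2} ⊆ ψ.source → 0 ≤ δ →
    (∀ ρ ∈ Ioo ρ1 ρ2, ∃ x y : E3, ‖x - c‖ = ρ ∧ ‖y - c‖ = ρ ∧
      δ ≤ |Φ (fm φ ψ x) - Φ (fm φ ψ y)|) →
    δ ^ 3 * Real.log (ρ2 / ρ1) ≤ C * ∫ y, ‖gradv Φ y‖ ^ 3

/-- RGC.  Ring estimate.  Proof: `CPI` with `δ = 1`, `Φ y = 1 - S (log (|y - q|/l)/log (L/l))`,
`S` the smooth step `3u^2 - 2u^3` (`0` for `u ≤ 0`, `1` for `u ≥ 1`): `Φ = 1` for `|y - q| ≤ l`, `0` for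
`|y - q| ≥ L`, `|∇Φ| ≤ (3/2)/(|y - q| log(L/l))`, so `∫ |∇Φ|^3 ≤ 4π (27/8) (log (L/l))^{-2}`
(`RINT` or `SPH`). -/
def Stmt_RGC : Prop :=
  ∃ C : ℝ, 0 < C ∧ ∀ (φ ψ : OpenPartialHomeomorph E3 E3) (A : E3 → M3) (q c : E3)
    (l L ρ1 ρ2 : ℝ), WM φ ψ A → 0 < l → l < L → 0 < ρ1 → ρ1 < ρ2 →
    {x | ρ1 ≤ ‖x - c‖ ∧ ‖x - c‖ ≤ ρ2} ⊆ ψ.source →
    (∀ ρ ∈ Ioo ρ1 ρ2, ∃ x y : E3, ‖x - c‖ = ρ ∧ ‖y - c‖ = ρ ∧
      ‖fm φ ψ x - q‖ ≤ l ∧ L ≤ ‖fm φ ψ y - q‖) →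
    Real.log (ρ2 / ρ1) * Real.log (L / l) ^ 2 ≤ C

/-- LOE.  Two connected sets.  Proof: `r = |e1 - e2|`, `D = |q1 - e2|^2 - |q1 - e1|^2`.  Centre `c = q1` if
`|D| ≥ r^2/2`, otherwise `c = q1 - (1/2)(e2 - e1)`; then `|c - e2|^2 - |c - e1|^2 = D + r^2 ≥ r^2/2`
in the second case.  So `|c - e1|` and `|c - e2|` are the end points of an interval whose ratio is
at least `√(1 + 1/(2(M+1)^2))` (both are `≤ (M+2) r`), the larger one is `≥ r/2 · √2`, and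
`|c - q1| ≤ r/2`, `|c - q2| > |c - e_i|`.  With `ρ1 = max (smaller one, r/2)` (`r/4` in the first case),
`ρ2 =` the larger one, every sphere of radius in `(ρ1, ρ2)` around `c` meets `E` and `F` (the image
of a connected set under `|· - c|` is an interval).  `RGC`. -/
def Stmt_LOE : Prop :=
  ∀ M : ℝ, 1 ≤ M → ∃ C : ℝ, 0 < C ∧ ∀ (φ ψ : OpenPartialHomeomorph E3 E3) (A : E3 → M3)
    (E F : Set E3) (q e1 e2 q1 q2 : E3) (l L : ℝ), WM φ ψ A → IsPreconnected E →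
    IsPreconnected F → e1 ∈ E → e2 ∈ E → q1 ∈ F → q2 ∈ F → e1 ≠ e2 →
    ‖q1 - e1‖ ≤ M * ‖e1 - e2‖ → 10 * (M + 1) * ‖e1 - e2‖ ≤ ‖q2 - q1‖ →
    Metric.closedBall q1 (4 * (M + 1) * ‖e1 - e2‖) ⊆ ψ.source → 0 < l → l < L →
    (∀ x ∈ E, ‖fm φ ψ x - q‖ ≤ l) → (∀ x ∈ F, L ≤ ‖fm φ ψ x - q‖) →
    Real.log (L / l) ≤ C

/-! ## Topology of the map -/

/-- WCN.  Preimages of connected sets which meet the axis.  Proof: suppose `wind⁻¹ C ⊆ U ∪ V`, open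
sets, disjoint on `wind⁻¹ C`, both meeting it; `P = U ∩ wind⁻¹ C`, `Q = V ∩ wind⁻¹ C`.  The sets
`wind (P ∩ sg P)`, `wind (Q ∩ sg Q)`, `wind (P ∩ sg Q)` are disjoint, relatively open in `C`
(`wind` is open, e.g. the first one is `wind (U ∩ sg U) ∩ C`) and cover `C`; so `C` is one of
them; the axis point has only one preimage, so it is one of the first two, say the first; then
`Q` is empty. -/
def Stmt_WCN : Prop :=
  ∀ C : Set E3, IsPreconnected C → (∃ a ∈ C, rad a = 0) → IsPreconnected (wind ⁻¹' C)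

/-- TPA.  Local topology near a branch point.  Proof: `a0 = ψ x0` is on the axis,
`wind a0 = a0`, `f x0 = φ a0`.  Choose `s0` with `closedBall (f x0) (3 s0) ⊆ φ.target` and
`wind⁻¹ (φ.symm '' closedBall (f x0) (3 s0)) ⊆ ψ.target` (`|wind y - a0| = |y - a0|`), then `R0`.
For `z ∈ S`, `|f z - f x0| ≤ s0`, `s ≤ s0` and a set `B ⊆ closedBall (f z) s0`:
`{x ∈ Ω : f x ∈ B} = ψ.symm '' (wind⁻¹ (φ.symm '' B))`.  (i) `B = closedBall (f z) s` is connected and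
`φ.symm '' B` contains `ψ z`, an axis point: `WCN`.  (ii) `B = {s ≤ |y - f z| ≤ s0}` is connected (image of
the product of the sphere and an interval); the half line `ψ z + t e3`, `t ≥ 0`, leaves the compact
set `φ.symm '' closedBall (f z) s0` at a point whose image under `φ` has distance `s0` from `f z`.
(iii) that point gives `x` with `|f x - f z| = s0`.  Last part: the sets
`ψ.symm '' (wind⁻¹ (φ.symm '' closedBall (f x0) s))` shrink to `x0` as `s → 0`. -/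
def Stmt_TPA : Prop :=
  ∀ (φ ψ : OpenPartialHomeomorph E3 E3) (x0 : E3), (∀ x ∈ ψ.source, wind (ψ x) ∈ φ.source) →
    x0 ∈ bset ψ.source ψ → ∃ s0 R0 : ℝ, 0 < s0 ∧ 0 < R0 ∧
    Metric.closedBall (fm φ ψ x0) (3 * s0) ⊆ φ.target ∧
    wind ⁻¹' (φ.symm '' Metric.closedBall (fm φ ψ x0) (3 * s0)) ⊆ ψ.target ∧
    Metric.closedBall x0 R0 ⊆ ψ.source ∧
    (∀ x ∈ Metric.closedBall x0 R0, ‖fm φ ψ x - fm φ ψ x0‖ ≤ s0 / 4) ∧
    (∀ z ∈ bset ψ.source ψ, ‖fm φ ψ z - fm φ ψ x0‖ ≤ s0 →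
      (∀ s : ℝ, 0 ≤ s → s ≤ s0 → IsPreconnected {x | x ∈ ψ.source ∧ ‖fm φ ψ x - fm φ ψ z‖ ≤ s}) ∧
      (∀ s : ℝ, 0 < s → s ≤ s0 → IsPreconnected {x | x ∈ ψ.source ∧
        s ≤ ‖fm φ ψ x - fm φ ψ z‖ ∧ ‖fm φ ψ x - fm φ ψ z‖ ≤ s0}) ∧
      (∃ x ∈ ψ.source, ‖fm φ ψ x - fm φ ψ z‖ = s0)) ∧
    (∀ R1 : ℝ, 0 < R1 → ∃ s2 : ℝ, 0 < s2 ∧ ∀ x ∈ ψ.source, ‖fm φ ψ x - fm φ ψ x0‖ ≤ s2 →
      ‖x - x0‖ < R1)

/-- LDA.  Distortion at the branch points.  Proof: `s0, R0` from `TPA`, `R' = R0/(100 (M + 1))`.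
`r = |y - z|`; `y = z` is trivial; `l = |f y - f z| > 0` (`FOP`), `L = |f x - f z| ≤ s0/2`; assume `l < L`.
`LOE` with `q = f z`, `E = {x ∈ Ω : |f x - f z| ≤ l} ∋ z, y`, `F = {x ∈ Ω : L ≤ |f x - f z| ≤ s0} ∋ x, x'`,
`|f x' - f z| = s0`, so `x'` is not in `closedBall x0 R0` and `|x' - x| ≥ R0 - R' ≥ 10 (M + 1) r`. -/
def Stmt_LDA : Prop :=
  ∀ M : ℝ, 1 ≤ M → ∃ H : ℝ, 1 ≤ H ∧ ∀ (φ ψ : OpenPartialHomeomorph E3 E3) (A : E3 → M3)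
    (x0 : E3), WM φ ψ A → x0 ∈ bset ψ.source ψ → ∃ R' : ℝ, 0 < R' ∧
    Metric.ball x0 R' ⊆ ψ.source ∧
    ∀ z ∈ bset ψ.source ψ ∩ Metric.ball x0 R', ∀ x ∈ Metric.ball x0 R',
    ∀ y ∈ Metric.ball x0 R', ‖x - z‖ ≤ M * ‖y - z‖ →
      ‖fm φ ψ x - fm φ ψ z‖ ≤ H * ‖fm φ ψ y - fm φ ψ z‖

/-- EQC.  Equicontinuity on Whitney balls.  `d = infDist z S`, `D0 = |f z - f q|`.  Proof: `LDA` with
`M = 3` at `q`: `|f x - f q| ≤ H3 D0` for `|x - z| ≤ d/2` (`|x - q| ≤ 3 d ≤ 3 |z - q|`).  Suppose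
`|f x - f z| > η D0`, `|x - z| ≤ θ d`; some component `i` has `|f_i x - f_i z| ≥ η D0/2`.  `f` is open
(`FOP`), so `f_i` has no interior extrema, and every sphere around `z` of radius in `(θd, d/2)`
contains two points where `f_i` differs by at least `η D0/2`.  `CPI` with
`Φ y = (y - f q)_i χ(|y - f q|/(H3 D0))`, `χ = 1` on `[0, 1]`, `0` beyond `2`, `∫ |∇Φ|^3 ≤ C (H3 D0)^3`:
`(η/2)^3 log(1/(2θ)) ≤ C H3^3`, false for small `θ`. -/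
def Stmt_EQC : Prop :=
  ∀ η : ℝ, 0 < η → ∃ θ : ℝ, 0 < θ ∧ θ ≤ 1 / 4 ∧ ∀ (φ ψ : OpenPartialHomeomorph E3 E3)
    (A : E3 → M3) (x0 : E3), WM φ ψ A → x0 ∈ bset ψ.source ψ → ∃ R' : ℝ, 0 < R' ∧
    ∀ z ∈ Metric.ball x0 R', ∀ q ∈ bset ψ.source ψ,
    0 < Metric.infDist z (bset ψ.source ψ) → ‖z - q‖ ≤ 2 * Metric.infDist z (bset ψ.source ψ) →
    ∀ x : E3, ‖x - z‖ ≤ θ * Metric.infDist z (bset ψ.source ψ) →
      ‖fm φ ψ x - fm φ ψ z‖ ≤ η * ‖fm φ ψ z - fm φ ψ q‖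

/-- SQR.  Continuous square root.  Proof: by uniform continuity there is `N` with
`|g (c + ((k+1)/N) (y - c)) / g (c + (k/N) (y - c)) - 1| ≤ 1/2` for all `y` and `k < N`; `h y` is a
square root of `g c` times the product of the principal square roots (`Complex.cpow (1/2)`,
continuous on the right half plane) of these quotients. -/
def Stmt_SQR : Prop :=
  ∀ (g : E3 → ℂ) (c : E3) (s : ℝ), 0 ≤ s → ContinuousOn g (Metric.closedBall c s) →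
    (∀ y ∈ Metric.closedBall c s, g y ≠ 0) → ∃ h : E3 → ℂ,
      ContinuousOn h (Metric.closedBall c s) ∧ ∀ y ∈ Metric.closedBall c s, h y ^ 2 = g y

/-- SEC.  Local inverse on a ball which does not meet the image of the branch set.  Proof: for
`y ∈ closedBall (f z) s1` (in `closedBall (f x0) (3 s0) ⊆ φ.target`) let `u = φ.symm y`,
`g y = u 0 + i u 1`.  `g y ≠ 0`: otherwise `u = wind u` is an axis point in `ψ.target`, `q' = ψ.symm u ∈ S`,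
`f q' = y`, `|f z - f q'| ≤ s1`.  `h` from `SQR`, `G y = ψ.symm (‖h‖ h.re, ‖h‖ h.im, u 2)` (`WOP`, last part:
`wind` of this point is `u`; it is in `ψ.target`), with `±h` chosen such that `G (f z) = z` (`WOP`: the
two preimages of `wind (ψ z)`).  Last part: on `C` the complex number
`((ψ x) 0 + i (ψ x) 1)/(‖h (f x)‖ h (f x))` is continuous with values `± 1`, equal to `1` at `z`. -/
def Stmt_SEC : Prop :=
  ∀ (φ ψ : OpenPartialHomeomorph E3 E3) (x0 z : E3) (s0 s1 : ℝ),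
    (∀ x ∈ ψ.source, wind (ψ x) ∈ φ.source) → x0 ∈ bset ψ.source ψ → 0 < s0 →
    Metric.closedBall (fm φ ψ x0) (3 * s0) ⊆ φ.target →
    wind ⁻¹' (φ.symm '' Metric.closedBall (fm φ ψ x0) (3 * s0)) ⊆ ψ.target →
    z ∈ ψ.source → ‖fm φ ψ z - fm φ ψ x0‖ ≤ s0 → 0 < s1 → s1 ≤ s0 →
    (∀ q' ∈ bset ψ.source ψ, s1 < ‖fm φ ψ z - fm φ ψ q'‖) →
    ∃ G : E3 → E3, ContinuousOn G (Metric.closedBall (fm φ ψ z) s1) ∧
      (∀ y ∈ Metric.closedBall (fm φ ψ z) s1, G y ∈ ψ.source ∧ fm φ ψ (G y) = y) ∧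
      G (fm φ ψ z) = z ∧
      ∀ C : Set E3, IsPreconnected C → C ⊆ ψ.source → z ∈ C →
        (∀ x ∈ C, fm φ ψ x ∈ Metric.closedBall (fm φ ψ z) s1) → ∀ x ∈ C, G (fm φ ψ x) = x

/-- LDB.  Distortion on Whitney balls.  `S = bset`, `d = infDist z S`; `d = 0` is trivial (`y = z`).
`q ∈ S` with `|z - q| < 2 d`, `D0 = |f z - f q| > 0`.  (1) For `q' ∈ S` near `x0`:
`|f z - f q'| ≥ c1 D0`, `c1 = 1/(2 H3)`: if `|f q - f q'| ≤ D0/2` clear; otherwise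
`|q - q'| ≤ 3 |z - q'|` and `LDA` (`M = 3`) at `q'`.  For `q' ∈ S` far from `x0` use the last part of `TPA`.
(2) `η = c1/4`, `θ1, θ2` from `EQC` for `η`, `η/4`.  `SEC` with `s1 = η D0` gives `G`; with
`C = closedBall z (θ1 d)`: `G (f x) = x` there.  (3) `r = |y - z| ≤ d/H`, `l = |f y - f z| > 0`,
`L = |f x - f z| ≤ η D0/4`; assume `l < L`.  `LOE` with `M = 1`, `q = f z`: `E = G '' closedBall (f z) l ∋ z, y`,
`F = G '' {L ≤ |y' - f z| ≤ η D0/2} ∋ x, q2`, `q2 = G y''`, `|y'' - f z| = η D0/2`; `|q2 - z| > θ2 d ≥ 21 r`.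
So `H = max (e^C, 21/θ2, 1/θ1, ..)`. -/
def Stmt_LDB : Prop :=
  ∃ H : ℝ, 1 ≤ H ∧ ∀ (φ ψ : OpenPartialHomeomorph E3 E3) (A : E3 → M3)
    (x0 : E3), WM φ ψ A → x0 ∈ bset ψ.source ψ → ∃ R' : ℝ, 0 < R' ∧
    ∀ z ∈ Metric.ball x0 R', ∀ x ∈ Metric.ball x0 R', ∀ y ∈ Metric.ball x0 R',
    H * ‖y - z‖ ≤ Metric.infDist z (bset ψ.source ψ) → ‖x - z‖ ≤ ‖y - z‖ →
      ‖fm φ ψ x - fm φ ψ z‖ ≤ H * ‖fm φ ψ y - fm φ ψ z‖

/-- LDC.  The distortion condition with an absolute constant (`LDA` with `M = 1`, `LDB`, the larger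
constant: if `H ≤ H'` then `H' ‖y - z‖ ≤ infDist` implies `H ‖y - z‖ ≤ infDist`). -/
def Stmt_LDC : Prop :=
  ∃ H : ℝ, 1 ≤ H ∧ ∀ (φ ψ : OpenPartialHomeomorph E3 E3) (A : E3 → M3)
    (x0 : E3), WM φ ψ A → x0 ∈ bset ψ.source ψ → ∃ R' : ℝ, 0 < R' ∧
    ∀ R : ℝ, R ≤ R' → LocDist H (fm φ ψ) (bset ψ.source ψ) x0 R

end Pool.Flat
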