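import Pool.Agent.Work.MP_680515_fl.Iface4

/-!
# MP_680515_an, THEOREM D: interface 5 (branch curves of Hausdorff dimension one)

If `K_I(f) ≤ K < 2` the branch curve is not in a narrow double cone in any long window of scales at
any of its points (one window at one point suffices, since now the defect density is at least
`c(K) > 0`).  The curve is a quasi-arc (`ψ` is quasiconformal), and a quasi-arc which is not flat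
at any point and any scale has Hausdorff dimension `> 1`.
Many blocks are copies of blocks of parts 1, 2 with `TubeG` instead of `Tube` (no near
linearity, but doubling `dbl` instead of `E1`).
-/

open MeasureTheory Set Filter Topology

namespace Pool.Flat

open Pool.Mart

/-- THE FINAL THEOREM, third form. -/
def Stmt_FinalD : Prop :=
  ∀ (φ ψ : OpenPartialHomeomorph E3 E3) (A B : E3 → M3) (K R : ℝ) (x0 : E3),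
    (∀ x ∈ ψ.source, wind (ψ x) ∈ φ.source) → x0 ∈ bset ψ.source ψ → 0 < R →
    QReg ψ.source ψ B → QReg ψ.source (fun x => φ (wind (ψ x))) A →
    InnerDist ψ.source A K → dimH (bset ψ.source ψ ∩ Metric.ball x0 R) ≤ 1 → 2 ≤ K

/-- The local structure near a branch curve which need not be flat. -/
structure TubeG (H D r0 : ℝ) (Ω S : Set E3) (f : E3 → E3) (A : E3 → M3) (γ : ℝ → E3) : Prop where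
  rpos : 0 < r0
  op : IsOpen Ω
  cont : ContinuousOn f Ω
  wg : WeakGrad Ω f A
  good : ∀ᵐ x ∂(volume.restrict Ω), Good (A x)
  gc : ContinuousOn γ (Icc (-2) 2)
  far : ∀ t ∈ Icc (-2 : ℝ) 2, ∀ σ : ℝ, |σ| = 1 → t + σ ∈ Icc (-2 : ℝ) 2 →
    8 * r0 ≤ ‖γ (t + σ) - γ t‖
  sub : ∀ t ∈ Icc (-2 : ℝ) 2, Metric.closedBall (γ t) (8 * r0) ⊆ Ω
  gS : ∀ t ∈ Icc (-2 : ℝ) 2, γ t ∈ S
  inj : ∀ t ∈ Icc (-2 : ℝ) 2, ∀ x ∈ Metric.closedBall (γ t) (8 * r0), f x = f (γ t) → x = γ t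
  br : ∀ t ∈ Icc (-2 : ℝ) 2, ∀ x ∈ Metric.closedBall (γ t) (8 * r0),
    ∀ y ∈ Metric.closedBall (γ t) (8 * r0),
    ‖x - γ t‖ ≤ ‖y - γ t‖ → ‖f x - f (γ t)‖ ≤ H * ‖f y - f (γ t)‖
  dbl : ∀ t ∈ Icc (-2 : ℝ) 2, ∀ x ∈ Metric.closedBall (γ t) (8 * r0),
    ∀ y ∈ Metric.closedBall (γ t) (8 * r0),
    ‖x - γ t‖ ≤ 2 * ‖y - γ t‖ → ‖f x - f (γ t)‖ ≤ D * ‖f y - f (γ t)‖
  two : ∀ t ∈ Icc (-1 : ℝ) 1, ∀ ρ : ℝ, 0 < ρ → ∃ x1 ∈ Metric.ball (γ t) ρ,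
    ∃ x2 ∈ Metric.ball (γ t) ρ, x1 ≠ x2 ∧ f x1 = f x2 ∧ ∃ s : ℝ, 0 < s ∧
      InjOn f (Metric.closedBall x1 s) ∧ InjOn f (Metric.closedBall x2 s)

/-! ## Copies of blocks of parts 1 and 2 -/

/-- ARX for `TubeG` (the same proof). -/
def Stmt_ARY : Prop :=
  ∀ (H D r0 : ℝ) (Ω S : Set E3) (f : E3 → E3) (A : E3 → M3) (γ : ℝ → E3),
    TubeG H D r0 Ω S f A γ → ∀ t ∈ Icc (-2 : ℝ) 2, ∀ σ : ℝ, |σ| = 1 → t + σ ∈ Icc (-2 : ℝ) 2 →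
    ∀ r : ℝ, 0 < r → r ≤ 8 * r0 → ∃ s ∈ Icc (0 : ℝ) 1, ‖cv γ t (σ * s)‖ = r ∧
      ∀ s' : ℝ, 0 ≤ s' → s' < s → ‖cv γ t (σ * s')‖ < r

/-- E1 for `TubeG`: iterate `dbl` along the ray through `y` (second half of the proof of `E1`). -/
def Stmt_F1 : Prop :=
  ∀ H D : ℝ, 1 ≤ H → 1 ≤ D → ∃ D' : ℝ, 1 ≤ D' ∧
    ∀ (r0 : ℝ) (Ω S : Set E3) (f : E3 → E3) (A : E3 → M3) (γ : ℝ → E3),
    TubeG H D r0 Ω S f A γ → ∀ t ∈ Icc (-2 : ℝ) 2, ∀ k : ℕ,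
    ∀ x ∈ Metric.closedBall (γ t) (2 * r0), ∀ y ∈ Metric.closedBall (γ t) (2 * r0),
    ‖x - γ t‖ ≤ 2 ^ k * ‖y - γ t‖ → ‖f x - f (γ t)‖ ≤ D' ^ (k + 1) * ‖f y - f (γ t)‖

/-- E2 for `TubeG` (the same proof; the points `q_j` of one arm by `ARY`). -/
def Stmt_F2 : Prop :=
  ∀ H D θ : ℝ, 1 ≤ H → 1 ≤ D → 0 < θ → ∃ δ : ℝ, 0 < δ ∧ δ < 1 ∧
    ∀ (r0 : ℝ) (Ω S : Set E3) (f : E3 → E3) (A : E3 → M3) (γ : ℝ → E3),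
    TubeG H D r0 Ω S f A γ → ∀ t ∈ Icc (-2 : ℝ) 2,
    ∀ x ∈ Metric.closedBall (γ t) (2 * r0), ∀ y ∈ Metric.closedBall (γ t) (2 * r0),
    ‖x - γ t‖ ≤ δ * ‖y - γ t‖ → ‖f x - f (γ t)‖ ≤ θ * ‖f y - f (γ t)‖

/-- DEG2 and DEG for `TubeG` (the same proofs: only `inj`, `two`, `sub`, `good`, `cont`, `wg` are
used there). -/
def Stmt_DGG : Prop :=
  ∀ (H D r0 : ℝ) (Ω S : Set E3) (f : E3 → E3) (A : E3 → M3) (γ : ℝ → E3),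
    TubeG H D r0 Ω S f A γ → ∀ t ∈ Icc (-1 : ℝ) 1, ∃ c : ℕ, DegP f A (γ t) r0 c

/-- ENC for `TubeG` (the same proof). -/
def Stmt_ENG : Prop :=
  ∀ H D : ℝ, 1 ≤ H → 1 ≤ D → ∃ C δ1 : ℝ, 0 < C ∧ 0 < δ1 ∧ δ1 ≤ 1 / 8 ∧
    ∀ (r0 : ℝ) (Ω S : Set E3) (f : E3 → E3) (A : E3 → M3) (γ : ℝ → E3),
    TubeG H D r0 Ω S f A γ → ∀ t ∈ Icc (-1 : ℝ) 1, ∀ c : ℕ, DegP f A (γ t) r0 c →
    ∀ r : ℝ, 0 < r → r ≤ δ1 * r0 → ∀ y : E3, ‖y - γ t‖ = r →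
      IntegrableOn (fun x => opn (A x) ^ 3) (Metric.ball (γ t) (2 * r)) ∧
      ∫ x in Metric.ball (γ t) (2 * r), opn (A x) ^ 3 ≤ C * c * ‖f y - f (γ t)‖ ^ 3

/-- RNG for `TubeG` (the same proof). -/
def Stmt_RNQ : Prop :=
  ∀ H D : ℝ, 1 ≤ H → 1 ≤ D → ∃ C δ1 : ℝ, 0 < C ∧ 0 < δ1 ∧ δ1 ≤ 1 / 8 ∧
    ∀ (r0 : ℝ) (Ω S : Set E3) (f : E3 → E3) (A : E3 → M3) (γ : ℝ → E3),
    TubeG H D r0 Ω S f A γ → ∀ t ∈ Icc (-1 : ℝ) 1, ∀ c : ℕ, DegP f A (γ t) r0 c →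
    ∀ r1 r2 m1 m2 τ : ℝ, 0 < r1 → r1 < r2 → r2 ≤ δ1 * r0 → 0 ≤ τ →
    RC f (γ t) r1 2 m1 τ → RC f (γ t) r2 2 m2 τ →
      IntegrableOn (dens f A (γ t)) (rg (γ t) r1 r2) ∧ 0 ≤ DR f A (γ t) r1 r2 ∧
      DR f A (γ t) r1 r2 ≤ (8 * Real.pi * c / 3) * (m2 - m1)
        - (4 * Real.pi / 3) * (c - 2) * Real.log (r2 / r1) + C * c * τ

/-- CRC for `TubeG` (the same proof, `F1`). -/
def Stmt_CRG : Prop :=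
  ∀ H D : ℝ, 1 ≤ H → 1 ≤ D → ∃ τH : ℝ, 0 ≤ τH ∧
    ∀ (r0 : ℝ) (Ω S : Set E3) (f : E3 → E3) (A : E3 → M3) (γ : ℝ → E3),
    TubeG H D r0 Ω S f A γ → ∀ t ∈ Icc (-1 : ℝ) 1, ∀ y : E3, y ≠ γ t → ‖y - γ t‖ ≤ r0 →
      RC f (γ t) ‖y - γ t‖ 2 (Real.log (‖f y - f (γ t)‖ / ‖y - γ t‖)) τH

/-- LQP for `TubeG` (the same proof, `F1`). -/
def Stmt_LQG : Prop :=
  ∀ H D δG : ℝ, 1 ≤ H → 1 ≤ D → 0 < δG → ∃ c' δ : ℝ, 0 < c' ∧ c' ≤ 1 / 2 ∧ 0 < δ ∧ δ ≤ 1 / 2 ∧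
    ∀ (r0 : ℝ) (Ω S : Set E3) (f : E3 → E3) (A : E3 → M3) (γ : ℝ → E3),
    TubeG H D r0 Ω S f A γ → ∀ t ∈ Icc (-1 : ℝ) 1, ∀ s ∈ Icc (-1 : ℝ) 1, ∀ v : E3, ‖v‖ = 1 →
    ‖cv γ t s‖ ≤ r0 / 8 → cv γ t s ≠ 0 → ‖un (cv γ t s) - v‖ ≤ δ →
    ∀ x ∈ Metric.ball (γ t) r0,
      ‖f x - f (γ (t + s))‖ ≤ c' * ‖f (γ (t + s)) - f (γ t)‖ →
      x ≠ γ t ∧ 1 - δG ≤ inner ℝ (x - γ t) v / ‖x - γ t‖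

/-- SHL for `TubeG` (the same proof, `LQG`). -/
def Stmt_SHG : Prop :=
  ∀ H D κ0 : ℝ, 1 ≤ H → 1 ≤ D → 0 < κ0 → κ0 < 1 / 3 → ∃ β δ : ℝ, 0 < β ∧ 0 < δ ∧
    ∀ (r0 : ℝ) (Ω S : Set E3) (f : E3 → E3) (A : E3 → M3) (γ : ℝ → E3),
    TubeG H D r0 Ω S f A γ → ∀ t ∈ Icc (-1 : ℝ) 1, ∀ c : ℕ, DegP f A (γ t) r0 c →
    ∀ (v : E3) (T s₁ s₂ : ℝ), ‖v‖ = 1 → 0 < T → s₁ ∈ Icc (0 : ℝ) 1 → s₂ ∈ Icc (0 : ℝ) 1 →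
    ‖cv γ t s₁‖ ≤ r0 / 8 → ‖cv γ t (-s₂)‖ ≤ r0 / 8 →
    ‖f (γ (t + s₁)) - f (γ t)‖ = T → ‖f (γ (t - s₂)) - f (γ t)‖ = T →
    ‖un (cv γ t s₁) - v‖ ≤ δ → ‖un (cv γ t (-s₂)) + v‖ ≤ δ →
    ∀ κ : ℝ → ℝ, ContDiff ℝ 1 κ → (∀ s, 0 ≤ κ s ∧ κ s ≤ 1) → HasCompactSupport κ →
    tsupport κ ⊆ Ioo (T * Real.exp (-β)) (T * Real.exp β) →
    (∀ x, ‖x - γ t‖ = r0 → ∀ s ∈ tsupport κ, s < ‖f x - f (γ t)‖) →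
    IntegrableOn (fun x => κ ‖f x - f (γ t)‖ * wt (-v) v (x - γ t)) (Metric.ball (γ t) r0) ∧
    c * (1 / 3 - κ0) * I0 * (∫ s, κ s / s) ≤ (3 * Real.pi)⁻¹ *
      ∫ x in Metric.ball (γ t) r0, κ ‖f x - f (γ t)‖ * wt (-v) v (x - γ t)

/-- ARM for `TubeG`.  The same proof; the points of the arms at the level `T_j`: `s_*` from `ARY` with
`|Δ_{s_*}| = r2` and `|Δ_s| < r2` for `s < s_*`; `|f γ(t + s_*) - f p| ≥ t2 > T_j`, intermediate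
value theorem on `[0, s_*]` gives `s₁ < s_*`, so `|Δ_{s₁}| < r2` (no near linearity needed). -/
def Stmt_ARG : Prop :=
  ∀ H D κ0 w : ℝ, 1 ≤ H → 1 ≤ D → 0 < κ0 → κ0 < 1 / 3 → 0 < w → ∃ δ : ℝ, 0 < δ ∧
    ∀ (r0 : ℝ) (Ω S : Set E3) (f : E3 → E3) (A : E3 → M3) (γ : ℝ → E3),
    TubeG H D r0 Ω S f A γ → ∀ t ∈ Icc (-1 : ℝ) 1, ∀ c : ℕ, DegP f A (γ t) r0 c →
    ∀ (v : E3) (r1 r2 t1 t2 : ℝ), ‖v‖ = 1 → 0 < r1 → r1 < r2 → r2 ≤ r0 / 8 → 0 < t1 → t1 < t2 →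
    (∀ x ∈ Metric.closedBall (γ t) r0, ‖x - γ t‖ ≤ r1 → ‖f x - f (γ t)‖ ≤ t1) →
    (∀ x ∈ Metric.closedBall (γ t) r0, r2 ≤ ‖x - γ t‖ → t2 ≤ ‖f x - f (γ t)‖) →
    (∀ s : ℝ, |s| ≤ 1 → r1 ≤ ‖cv γ t s‖ → ‖cv γ t s‖ ≤ r2 →
      ‖un (cv γ t s) - (s / |s|) • v‖ ≤ δ) →
    c * (1 / 3 - κ0) * (Real.log (t2 / t1) - w) ≤ (2 / 3) * Real.log (r2 / r1)

/-- QWN.  One window.  Proof: `DLOW` for `K`: `dfc ≥ c0 > 0` a.e. on `Ω` (`det A ≥ 0`), so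
`DR r1 r2 ≥ c0 ∫_{rg} |X|^{-3} = 4 π c0 ℓ`, `ℓ = log(r2/r1)` (`RINT`).  Let `κ0 = min (1/36) (c0/32)`,
`δ` from `ARG` with `κ0`, `w = 1`; suppose the cone condition with `δ`, `v` holds in the window
`r1 = e^{-L} r`, `r2 = r`.  As in the proof of `CRU` (`CRG`, `br`, `ARG`, `RNQ`, `DGG`):
`c (1/3 - κ0)((m2 - m1) + ℓ - C_H) ≤ (2/3) ℓ` and
`4 π c0 ℓ ≤ (8πc/3)(m2 - m1) - (4π/3)(c - 2) ℓ + C c τH`.  Case `c ≥ 3`: `m2 - m1 ≤ C_H - (3/11) ℓ` and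
`m2 - m1 ≥ ℓ/6 - C'`.  Case `c = 2`: `m2 - m1 ≤ C_H + 6 κ0 ℓ`,
`4 π c0 ℓ ≤ (16π/3)(C_H + 6 κ0 ℓ) + C'' ≤ π c0 ℓ + C'''`.  Both are false for `ℓ = L` large. -/
def Stmt_QWN : Prop :=
  ∀ H D K : ℝ, 1 ≤ H → 1 ≤ D → 1 ≤ K → K < 2 → ∃ δ L δ1 : ℝ, 0 < δ ∧ 0 < L ∧ 0 < δ1 ∧
    δ1 ≤ 1 / 8 ∧
    ∀ (r0 : ℝ) (Ω S : Set E3) (f : E3 → E3) (A : E3 → M3) (γ : ℝ → E3),
    TubeG H D r0 Ω S f A γ → InnerDist Ω A K → ∀ t ∈ Icc (-1 : ℝ) 1, ∀ r : ℝ, 0 < r →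
    r ≤ δ1 * r0 → ∀ v : E3, ‖v‖ = 1 → ∃ s : ℝ, |s| ≤ 1 ∧ Real.exp (-L) * r ≤ ‖cv γ t s‖ ∧
      ‖cv γ t s‖ ≤ r ∧ δ < ‖un (cv γ t s) - (s / |s|) • v‖

/-- The branch curve, parametrised by the axis. -/
noncomputable def axc (ψ : OpenPartialHomeomorph E3 E3) (x0 : E3) (a t : ℝ) : E3 :=
  ψ.symm (ψ x0 + (a * t) • e3)

/-- LOG.  The local structure of `f = φ ∘ wind ∘ ψ`, with absolute constants (compare `LOC`).  Proof: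
`H` from `LDA` with `M = 1`, `D` from `LDA` with `M = 2`, `R'` the smaller of the two radii.  `a > 0` small:
`ψ x0 + u e3 ∈ ψ.target` and `ψ.symm` of it in `ball x0 (R'/4)` for `|u| ≤ 2 a`.  `γ = axc ψ x0 a` is
continuous and injective on `[-2, 2]`; `r0` small: `8 r0 ≤ R'/4` and `far` (compactness).  `inj`: `FOP`.
`two` as in `LOC`.  `cont`: `FOP`. -/
def Stmt_LOG : Prop :=
  ∃ H D : ℝ, 1 ≤ H ∧ 1 ≤ D ∧ ∀ (φ ψ : OpenPartialHomeomorph E3 E3) (A : E3 → M3)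
    (x0 : E3) (R : ℝ), WM φ ψ A → x0 ∈ bset ψ.source ψ → 0 < R → ∃ a r0 : ℝ, 0 < a ∧
    (∀ t ∈ Icc (-2 : ℝ) 2, ψ x0 + (a * t) • e3 ∈ ψ.target ∧ axc ψ x0 a t ∈ Metric.ball x0 R) ∧
    TubeG H D r0 ψ.source (bset ψ.source ψ) (fm φ ψ) A (axc ψ x0 a)

/-! ## Quasiconformal homeomorphisms -/

/-- A continuous Sobolev map with an energy inequality. -/
structure EM (C0 : ℝ) (Ω : Set E3) (g : E3 → E3) (B : E3 → M3) : Prop where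
  op : IsOpen Ω
  cont : ContinuousOn g Ω
  wg : WeakGrad Ω g B
  en : ∀ h : E3 → ENNReal, Measurable h →
    ∫⁻ x in Ω, ENNReal.ofReal (opn (B x) ^ 3) * h (g x) ≤ ENNReal.ofReal C0 * ∫⁻ y, h y

/-- CPI for energy maps (the same proof: `OSL` and `en` with `h = ‖∇Φ‖^3`). -/
def Stmt_CPG : Prop :=
  ∃ C : ℝ, 0 < C ∧ ∀ (C0 : ℝ) (Ω : Set E3) (g : E3 → E3) (B : E3 → M3) (Φ : E3 → ℝ) (c : E3)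
    (ρ1 ρ2 δ : ℝ), 0 ≤ C0 → EM C0 Ω g B → ContDiff ℝ 1 Φ → HasCompactSupport Φ → 0 < ρ1 →
    ρ1 < ρ2 → {x | ρ1 ≤ ‖x - c‖ ∧ ‖x - c‖ ≤ ρ2} ⊆ Ω → 0 ≤ δ →
    (∀ ρ ∈ Ioo ρ1 ρ2, ∃ x y : E3, ‖x - c‖ = ρ ∧ ‖y - c‖ = ρ ∧ δ ≤ |Φ (g x) - Φ (g y)|) →
    δ ^ 3 * Real.log (ρ2 / ρ1) ≤ C * C0 * ∫ y, ‖gradv Φ y‖ ^ 3

/-- RGC for energy maps (the same proof, `CPG`). -/
def Stmt_RGG : Prop :=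
  ∃ C : ℝ, 0 < C ∧ ∀ (C0 : ℝ) (Ω : Set E3) (g : E3 → E3) (B : E3 → M3) (q c : E3)
    (l L ρ1 ρ2 : ℝ), 0 ≤ C0 → EM C0 Ω g B → 0 < l → l < L → 0 < ρ1 → ρ1 < ρ2 →
    {x | ρ1 ≤ ‖x - c‖ ∧ ‖x - c‖ ≤ ρ2} ⊆ Ω →
    (∀ ρ ∈ Ioo ρ1 ρ2, ∃ x y : E3, ‖x - c‖ = ρ ∧ ‖y - c‖ = ρ ∧ ‖g x - q‖ ≤ l ∧ L ≤ ‖g y - q‖) →
    Real.log (ρ2 / ρ1) * Real.log (L / l) ^ 2 ≤ C * C0

/-- LOE for energy maps (the same proof, `RGG`). -/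
def Stmt_LOH : Prop :=
  ∀ M C0 : ℝ, 1 ≤ M → 0 ≤ C0 → ∃ C : ℝ, 0 < C ∧ ∀ (Ω : Set E3) (g : E3 → E3) (B : E3 → M3)
    (E F : Set E3) (q e1 e2 q1 q2 : E3) (l L : ℝ), EM C0 Ω g B → IsPreconnected E →
    IsPreconnected F → e1 ∈ E → e2 ∈ E → q1 ∈ F → q2 ∈ F → e1 ≠ e2 →
    ‖q1 - e1‖ ≤ M * ‖e1 - e2‖ → 10 * (M + 1) * ‖e1 - e2‖ ≤ ‖q2 - q1‖ →
    Metric.closedBall q1 (4 * (M + 1) * ‖e1 - e2‖) ⊆ Ω → 0 < l → l < L →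
    (∀ x ∈ E, ‖g x - q‖ ≤ l) → (∀ x ∈ F, L ≤ ‖g x - q‖) →
    Real.log (L / l) ≤ C

/-- PSA.  A quasiconformal homeomorphism is an energy map.  Proof: `opn B^3 ≤ K det B`; `DAE` (`ψ` is open
and continuous on its source) and `lintegral_image_eq_lintegral_abs_det_fderiv_mul` on the full
measure set where `ψ` is differentiable: `∫⁻ ofReal (det B) h(ψ) ≤ ∫⁻ h`.  `C0 = K`. -/
def Stmt_PSA : Prop :=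
  ∀ (ψ : OpenPartialHomeomorph E3 E3) (B : E3 → M3), QReg ψ.source ψ B →
    ∃ C0 : ℝ, 0 ≤ C0 ∧ EM C0 ψ.source ψ B

/-- PSQ.  Weak quasisymmetry of a quasiconformal homeomorphism near a point.  Proof: `s0` with
`closedBall (ψ x0) (3 s0) ⊆ ψ.target`, `R0` with `closedBall x0 R0 ⊆ ψ.source`, `|ψ x - ψ x0| ≤ s0/4`
there; `R' = R0/200`.  For `x, y, z ∈ ball x0 R'`, `r = |y - z| > 0`, `l = |ψ y - ψ z| < L = |ψ x - ψ z|`: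
`LOH` with `M = 1`, `q = ψ z`, `E = ψ.symm '' closedBall (ψ z) l ∋ z, y`,
`F = ψ.symm '' {L ≤ |u - ψ z| ≤ s0} ∋ x, q2`, `|ψ q2 - ψ z| = s0`, so `q2` is not in `closedBall x0 R0`
and `|q2 - x| ≥ 20 r`. -/
def Stmt_PSQ : Prop :=
  ∀ (ψ : OpenPartialHomeomorph E3 E3) (B : E3 → M3) (x0 : E3), QReg ψ.source ψ B →
    x0 ∈ ψ.source → ∃ H R' : ℝ, 1 ≤ H ∧ 0 < R' ∧ Metric.ball x0 R' ⊆ ψ.source ∧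
    ∀ z ∈ Metric.ball x0 R', ∀ x ∈ Metric.ball x0 R', ∀ y ∈ Metric.ball x0 R',
      ‖x - z‖ ≤ ‖y - z‖ → ‖ψ x - ψ z‖ ≤ H * ‖ψ y - ψ z‖

/-- BTU.  Bounded turning of the branch curve.  Proof: `H` from `PSQ`, `Γ = axc ψ x0 a` with values in
`ball x0 (R'/4)`.  Let `s ≤ t ≤ u`, `z = Γ s`, `y = Γ u`, `x = Γ t`, so `|ψ x - ψ z| ≤ |ψ y - ψ z|`.  Points
`q_j` of the segment from `z` to `x` with `|q_j - z| = 4^j |y - z|`, `0 ≤ j ≤ m`,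
`4^m |y - z| ≤ |x - z|`; `PSQ` at `q_j` (`|z - q_j| ≤ |q_k - q_j|` for `j < k`) and at `z`:
`|ψ y - ψ z| ≤ H |ψ q_j - ψ z|`, `|ψ z - ψ q_j| ≤ H |ψ q_k - ψ q_j|`, `|ψ q_j - ψ z| ≤ H |ψ x - ψ z|`; so
the points `(ψ q_j - ψ z)/|ψ x - ψ z|` are in the ball of radius `H` with mutual distances
`≥ 1/H^2`: `m + 1 ≤ P` (`PKG`).  `C = 4^(P+1)`.  The same at the other end. -/
def Stmt_BTU : Prop :=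
  ∀ (ψ : OpenPartialHomeomorph E3 E3) (B : E3 → M3) (x0 : E3), QReg ψ.source ψ B →
    x0 ∈ bset ψ.source ψ → ∃ C R : ℝ, 1 ≤ C ∧ 0 < R ∧ ∀ a : ℝ, 0 < a →
    (∀ t ∈ Icc (-2 : ℝ) 2, ψ x0 + (a * t) • e3 ∈ ψ.target ∧ axc ψ x0 a t ∈ Metric.ball x0 R) →
    ∀ s ∈ Icc (-2 : ℝ) 2, ∀ t ∈ Icc (-2 : ℝ) 2, ∀ u ∈ Icc (-2 : ℝ) 2, s ≤ t → t ≤ u →
      ‖axc ψ x0 a t - axc ψ x0 a s‖ ≤ C * ‖axc ψ x0 a u - axc ψ x0 a s‖ ∧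
      ‖axc ψ x0 a u - axc ψ x0 a t‖ ≤ C * ‖axc ψ x0 a u - axc ψ x0 a s‖

/-! ## Wiggly quasi-arcs -/

/-- Bounded turning on `[-2, 2]`. -/
def BT (C : ℝ) (Γ : ℝ → E3) : Prop :=
  ∀ s ∈ Icc (-2 : ℝ) 2, ∀ t ∈ Icc (-2 : ℝ) 2, ∀ u ∈ Icc (-2 : ℝ) 2, s ≤ t → t ≤ u →
    ‖Γ t - Γ s‖ ≤ C * ‖Γ u - Γ s‖ ∧ ‖Γ u - Γ t‖ ≤ C * ‖Γ u - Γ s‖

/-- Not flat at any point and scale. -/
def WG (δ L r0 : ℝ) (Γ : ℝ → E3) : Prop :=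
  ∀ t ∈ Icc (-1 : ℝ) 1, ∀ r : ℝ, 0 < r → r ≤ r0 → ∀ v : E3, ‖v‖ = 1 → ∃ s : ℝ, |s| ≤ 1 ∧
    Real.exp (-L) * r ≤ ‖cv Γ t s‖ ∧ ‖cv Γ t s‖ ≤ r ∧ δ < ‖un (cv Γ t s) - (s / |s|) • v‖

/-- SUB.  Gain of length.  Proof: `τ = e^{-L}/(8C)`, `κ = e^{-L} δ^2/(16C)`.  `p ∈ (a, b)` with
`|Γ p - Γ a| = d/2` (intermediate value theorem), `|Γ b - Γ p| ≥ d/2`; `r = d/(8C)`, `v = e = (Γ b - Γ a)/d`;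
`WG` gives `u = p + s`, `ρ = |Γ u - Γ p| ∈ [e^{-L} r, r]`.  `BT`: if `u ≥ b` then
`d/2 ≤ |Γ b - Γ p| ≤ C |Γ u - Γ p| ≤ d/8`, impossible; if `u ≤ a` in the same way.  If `u > p` take
`x1 = p`, `x2 = u`, if `u < p` take `x1 = u`, `x2 = p`.  For the three chord vectors `v_i` with sum `d e`:
`Σ |v_i| - d = Σ (|v_i| - ⟨v_i, e⟩) ≥ |v_2| |un v_2 - e|^2/2 ≥ ρ δ^2/2`. -/
def Stmt_SUB : Prop :=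
  ∀ C δ L : ℝ, 1 ≤ C → 0 < δ → 0 < L → ∃ τ κ : ℝ, 0 < τ ∧ τ ≤ 1 ∧ 0 < κ ∧
    ∀ (Γ : ℝ → E3) (r0 : ℝ), ContinuousOn Γ (Icc (-2) 2) → InjOn Γ (Icc (-2) 2) → BT C Γ →
    0 < r0 → WG δ L r0 Γ → ∀ a b : ℝ, -1 ≤ a → a < b → b ≤ 1 → ‖Γ b - Γ a‖ ≤ 8 * C * r0 →
    ∃ x1 x2 : ℝ, a < x1 ∧ x1 < x2 ∧ x2 < b ∧ τ * ‖Γ b - Γ a‖ ≤ ‖Γ x1 - Γ a‖ ∧
      τ * ‖Γ b - Γ a‖ ≤ ‖Γ x2 - Γ x1‖ ∧ τ * ‖Γ b - Γ a‖ ≤ ‖Γ b - Γ x2‖ ∧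
      (1 + κ) * ‖Γ b - Γ a‖ ≤ ‖Γ x1 - Γ a‖ + ‖Γ x2 - Γ x1‖ + ‖Γ b - Γ x2‖

/-- SEX.  The exponent: `ℓ^s ≥ ℓ (τ d)^{s-1}`, `(1 + κ) τ^{s-1} ≥ 1`. -/
def Stmt_SEX : Prop :=
  ∀ τ κ : ℝ, 0 < τ → τ ≤ 1 → 0 < κ → ∃ s : ℝ, 1 < s ∧ ∀ d ℓ1 ℓ2 ℓ3 : ℝ, 0 < d → τ * d ≤ ℓ1 →
    τ * d ≤ ℓ2 → τ * d ≤ ℓ3 → (1 + κ) * d ≤ ℓ1 + ℓ2 + ℓ3 → d ^ s ≤ ℓ1 ^ s + ℓ2 ^ s + ℓ3 ^ s

/-- CNQ.  Multiplicity.  Proof: for `1 ≤ i < n`: `|Γ (a i) - Γ (y 0)| ≤ C |Γ (y (n-1)) - Γ (y 0)| ≤ C ρ`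
for `i ≤ n - 1`, and `|Γ (a j) - Γ (a i)| ≥ τ ρ/C` for `i < j` (`BT` for `a i ≤ b i ≤ a j`); `PKG`. -/
def Stmt_CNQ : Prop :=
  ∀ C τ : ℝ, 1 ≤ C → 0 < τ → ∃ P : ℕ, ∀ (Γ : ℝ → E3) (ρ : ℝ) (n : ℕ) (a b y : ℕ → ℝ), BT C Γ →
    0 < ρ → (∀ i < n, -1 ≤ a i ∧ a i ≤ y i ∧ y i ≤ b i ∧ b i ≤ 1 ∧ a i < b i) →
    (∀ i j, i < j → j < n → b i ≤ a j) → (∀ i < n, τ * ρ ≤ ‖Γ (b i) - Γ (a i)‖) →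
    (∀ i < n, ∀ j < n, ‖Γ (y i) - Γ (y j)‖ ≤ ρ) → n ≤ P

/-- STP.  Covers by finitely many sets.  Proof: `τ, κ` from `SUB`, `s` from `SEX`, `P` from `CNQ`.
`d = |Γ b - Γ a|`.  If some `ρ k ≥ d` clear.  Let `ρ* = min ρ k > 0`; by continuity there is `η > 0`
with `|x - y| ≥ η` whenever `|Γ x - Γ y| ≥ τ ρ*`.  Claim, by induction on `n`: for every
`[a', b'] ⊆ [a, b]` with `b' - a' ≤ n η` and such that `τ ρ k ≤ |Γ b' - Γ a'|` for all `k` with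
`U k ∩ Γ [a', b'] ≠ ∅`, there is a partition `a' = z_0 < .. < z_m = b'` with
`|Γ b' - Γ a'|^s ≤ Σ |Γ z_{i+1} - Γ z_i|^s` and for each `i` some `k` with `U k ∩ Γ [z_i, z_{i+1}] ≠ ∅`,
`τ ρ k ≤ |Γ z_{i+1} - Γ z_i| ≤ ρ k`.  (If some `U k` meeting `Γ [a', b']` has
`|Γ b' - Γ a'| ≤ ρ k`: trivial partition.  Otherwise `|Γ b' - Γ a'| > ρ*`, `SUB`
(`|Γ b' - Γ a'| ≤ 2 C d ≤ 8 C r0`): three pieces, each of chord `≥ τ |Γ b' - Γ a'| ≥ τ ρ*`, so of length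
`≥ η` in the parameter and `≤ (n - 2) η`; `SEX`; join the three partitions.)  Apply it to `[a, b]`;
every `k` is used by at most `P` pieces (`CNQ`), so `d^s ≤ P Σ ρ k^s`. -/
def Stmt_STP : Prop :=
  ∀ C δ L : ℝ, 1 ≤ C → 0 < δ → 0 < L → ∃ (s : ℝ) (P : ℕ), 1 < s ∧
    ∀ (Γ : ℝ → E3) (r0 : ℝ), ContinuousOn Γ (Icc (-2) 2) → InjOn Γ (Icc (-2) 2) → BT C Γ →
    0 < r0 → WG δ L r0 Γ → ∀ a b : ℝ, -1 ≤ a → a < b → b ≤ 1 → ‖Γ b - Γ a‖ ≤ 4 * r0 →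
    ∀ (N : ℕ) (U : Fin N → Set E3) (ρ : Fin N → ℝ), (∀ k, 0 < ρ k) →
      (∀ k, ∀ x ∈ U k, ∀ y ∈ U k, ‖x - y‖ ≤ ρ k) → Γ '' Icc a b ⊆ ⋃ k, U k →
      ‖Γ b - Γ a‖ ^ s ≤ P * ∑ k, ρ k ^ s

/-- HMP.  From finite covers to the Hausdorff dimension.  Proof: `μH[s] T ≥ c/2` from
`hausdorffMeasure_apply`: for a countable cover `t_n` of the compact set `T` with
`Σ diam (t_n)^s` finite, choose open sets `U_n ⊇ t_n` of diameter at most `ρ_n > 0` with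
`ρ_n^s ≤ diam (t_n)^s + c 2^{-n-2}`, a finite subcover.  So `μH[s] T ≠ 0` and
`dimH T ≥ s > 1` (`le_dimH_of_hausdorffMeasure_ne_zero`). -/
def Stmt_HMP : Prop :=
  ∀ (T : Set E3) (s c : ℝ), IsCompact T → 1 < s → 0 < c →
    (∀ (N : ℕ) (U : Fin N → Set E3) (ρ : Fin N → ℝ), (∀ k, 0 < ρ k) →
      (∀ k, ∀ x ∈ U k, ∀ y ∈ U k, ‖x - y‖ ≤ ρ k) → T ⊆ ⋃ k, U k → c ≤ ∑ k, ρ k ^ s) →
    1 < dimH T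

/-- WIG.  Proof: `b ∈ (0, 1]` small with `|Γ b - Γ 0| ≤ 4 r0`, `STP` for `[0, b]`, `HMP`, monotonicity
(`dimH_mono`). -/
def Stmt_WIG : Prop :=
  ∀ (Γ : ℝ → E3) (C δ L r0 : ℝ), 1 ≤ C → 0 < δ → 0 < L → 0 < r0 →
    ContinuousOn Γ (Icc (-2) 2) → InjOn Γ (Icc (-2) 2) → BT C Γ → WG δ L r0 Γ →
    1 < dimH (Γ '' Icc (-1) 1)

end Pool.Flat
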